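import Pool.Agent.MP_8f9e6e_pr.Mg.Det
import Pool.Agent.MP_8f9e6e_pr.Win

attribute [-instance] RKHS.instFunLike AddQuantale.instAddLeftMono
  IdemSemiring.toCanonicallyOrderedAdd instNonemptyOfMonad RCLike.charZero_rclike
  AddMonoidWithOne.toAddMonoid AddCommGroup.toAddGroup NonUnitalNonAssocSemiring.toDistrib
  Group.IsPerfect.subsingleton_of_isMulCommutative SemilinearMapClass.toAddHomClass
  AddQuantale.instAddRightMono NumberField.to_charZero instCoeTCOfCoe Quantale.instMulRightMono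
  covariant_swap_mul_of_covariant_mul
  ContinuousMonoidHom.instCoeOutOfMonoidHomClassOfContinuousMapClass littleWedderburn
  LinearOrderedCommMonoidWithZero.toPosMulStrictMono IdemSemiring.toSemiring
  IsOrderedMonoid.toMulLeftMono instCoeHTCOfCoeHeadOfCoeOTC instCoeTOfCoeDep
  NonUnitalNonAssocSemiring.toAddCommMonoid instCoeHTCTOfCoeTailOfCoeHTC

/-! Tools and definitions for the removal of the logarithm. -/

section

/-! The inequalities of Harris and of van den Berg and Kesten for binomial random subsets. -/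

open Finset

namespace Pool.Agent.MP_8f9e6e_pr

variable {α : Type} [Fintype α] [DecidableEq α] {p : ℝ}

/-- Increasing events. -/
def Up (E : Finset α → Prop) : Prop := ∀ S T, S ⊆ T → E S → E T

/-- Decreasing events. -/
def Dn (E : Finset α → Prop) : Prop := ∀ S T, S ⊆ T → E T → E S

theorem wt_mul (p : ℝ) (S T : Finset α) : wt p S * wt p T = wt p (S ∩ T) * wt p (S ∪ T) := by
  have h := card_union_add_card_inter S T
  have h1 := card_le_univ S
  have h2 := card_le_univ T
  have h3 := card_le_univ (S ∪ T)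
  have h4 := card_le_univ (S ∩ T)
  unfold wt
  rw [mul_mul_mul_comm, mul_mul_mul_comm (p ^ (S ∩ T).card), ← pow_add, ← pow_add, ← pow_add,
    ← pow_add]
  congr 2 <;> omega

omit [DecidableEq α] in
theorem Pr_compl (p : ℝ) (E : Finset α → Prop) : Pr p (fun S => ¬ E S) = 1 - Pr p E := by
  classical
  rw [← sum_wt (α := α) p, Pr, Pr, ← sum_sub_distrib]
  refine sum_congr rfl fun S _ => ?_
  by_cases h : E S <;> simp [h]

omit [DecidableEq α] in
theorem Pr_true (p : ℝ) : Pr p (fun _ : Finset α => True) = 1 := by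
  rw [← sum_wt (α := α) p, Pr]
  simp

omit [DecidableEq α] in
theorem Pr_le_one (h0 : 0 ≤ p) (h1 : p ≤ 1) (E : Finset α → Prop) : Pr p E ≤ 1 :=
  (Pr_mono h0 h1 fun _ _ => trivial).trans (Pr_true p).le

omit [DecidableEq α] in
theorem Pr_or_and (p : ℝ) (E F : Finset α → Prop) :
    Pr p (fun S => E S ∨ F S) + Pr p (fun S => E S ∧ F S) = Pr p E + Pr p F := by
  classical
  unfold Pr
  rw [← sum_add_distrib, ← sum_add_distrib]
  refine sum_congr rfl fun S _ => ?_
  by_cases h : E S <;> by_cases h' : F S <;> simp [h, h']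

theorem harris_up (h0 : 0 ≤ p) (h1 : p ≤ 1) {E F : Finset α → Prop} (hE : Up E) (hF : Up F) :
    Pr p E * Pr p F ≤ Pr p fun S => E S ∧ F S := by
  classical
  have mono : ∀ G : Finset α → Prop, Up G →
      Monotone fun S : Finset α => if G S then (1 : ℝ) else 0 := fun G hG S T hST => by
    by_cases h : G S
    · simp [h, hG S T hST h]
    · simp only [h, if_false]
      split_ifs <;> norm_num
  have pos : ∀ G : Finset α → Prop,
      (0 : Finset α → ℝ) ≤ fun S : Finset α => if G S then (1 : ℝ) else 0 := fun G S => by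
    simp only [Pi.zero_apply]
    split_ifs <;> norm_num
  have h := fkg (μ := wt p) (f := fun S : Finset α => if E S then (1 : ℝ) else 0)
    (g := fun S : Finset α => if F S then (1 : ℝ) else 0) (fun S => wt_nonneg h0 h1 S)
    (pos E) (pos F) (mono E hE) (mono F hF) fun S T => (wt_mul p S T).le
  rw [sum_wt, one_mul] at h
  have e : ∀ G : Finset α → Prop, Pr p G = ∑ S, wt p S * if G S then (1 : ℝ) else 0 :=
    fun G => sum_congr rfl fun S _ => by by_cases a : G S <;> simp [a]
  rw [e, e, e]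
  refine h.trans (le_of_eq (sum_congr rfl fun S _ => ?_))
  by_cases a : E S <;> by_cases b : F S <;> simp [a, b]

theorem harris_dn (h0 : 0 ≤ p) (h1 : p ≤ 1) {E F : Finset α → Prop} (hE : Dn E) (hF : Dn F) :
    Pr p E * Pr p F ≤ Pr p fun S => E S ∧ F S := by
  have h := harris_up h0 h1 (E := fun S => ¬ E S) (F := fun S => ¬ F S)
    (fun S T a b c => b (hE S T a c)) fun S T a b c => b (hF S T a c)
  have h2 : Pr p (fun S => ¬ E S ∧ ¬ F S) = Pr p fun S => ¬ (E S ∨ F S) := by
    simp only [not_or]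
  rw [h2, Pr_compl, Pr_compl, Pr_compl] at h
  linarith only [Pr_or_and p E F, h]

theorem harris_up_prod (h0 : 0 ≤ p) (h1 : p ≤ 1) {ι : Type} (I : Finset ι)
    {E : ι → Finset α → Prop} (hE : ∀ i ∈ I, Up (E i)) :
    ∏ i ∈ I, Pr p (E i) ≤ Pr p fun S => ∀ i ∈ I, E i S := by
  classical
  induction I using Finset.induction_on with
  | empty => simp [Pr_true]
  | insert j I hj ih =>
    have a := fun i hi => hE i (mem_insert_of_mem hi)
    rw [prod_insert hj]
    refine (mul_le_mul_of_nonneg_left (ih a) (Pr_nonneg h0 h1 _)).trans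
      ((harris_up h0 h1 (hE j (mem_insert_self _ _))
        fun S T b c i hi => a i hi S T b (c i hi)).trans (Pr_mono h0 h1 fun S hS => ?_))
    simpa only [mem_insert, forall_eq_or_imp] using hS

theorem harris_dn_prod (h0 : 0 ≤ p) (h1 : p ≤ 1) {ι : Type} (I : Finset ι)
    {E : ι → Finset α → Prop} (hE : ∀ i ∈ I, Dn (E i)) :
    ∏ i ∈ I, Pr p (E i) ≤ Pr p fun S => ∀ i ∈ I, E i S := by
  classical
  induction I using Finset.induction_on with
  | empty => simp [Pr_true]
  | insert j I hj ih =>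
    have a := fun i hi => hE i (mem_insert_of_mem hi)
    rw [prod_insert hj]
    refine (mul_le_mul_of_nonneg_left (ih a) (Pr_nonneg h0 h1 _)).trans
      ((harris_dn h0 h1 (hE j (mem_insert_self _ _))
        fun S T b c i hi => a i hi S T b (c i hi)).trans (Pr_mono h0 h1 fun S hS => ?_))
    simpa only [mem_insert, forall_eq_or_imp] using hS

/-- Disjoint occurrence. -/
def Box (E F : Finset α → Prop) (S : Finset α) : Prop :=
  ∃ A B, A ⊆ S ∧ B ⊆ S ∧ Disjoint A B ∧ E A ∧ F B

open Classical in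
/-- Probability on a smaller ground set. -/
noncomputable def Pu (p : ℝ) (u : Finset α) (E : Finset α → Prop) : ℝ :=
  ∑ S ∈ u.powerset, if E S then p ^ S.card * (1 - p) ^ (u.card - S.card) else 0

omit [DecidableEq α] in
theorem Pu_univ (p : ℝ) (E : Finset α → Prop) : Pu p univ E = Pr p E := by
  simp only [Pu, powerset_univ, card_univ, Pr, wt]

omit [Fintype α] in
theorem Pu_insert (p : ℝ) {u : Finset α} {a : α} (ha : a ∉ u) (E : Finset α → Prop) :
    Pu p (insert a u) E = (1 - p) * Pu p u E + p * Pu p u fun S => E (insert a S) := by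
  unfold Pu
  rw [sum_powerset_insert ha, mul_sum, mul_sum, card_insert_of_notMem ha]
  congr 1 <;> refine sum_congr rfl fun S hS => ?_
  · have := card_le_card (mem_powerset.1 hS)
    split_ifs
    · rw [show u.card + 1 - S.card = u.card - S.card + 1 by omega]; ring
    · simp
  · rw [card_insert_of_notMem fun h => ha (mem_powerset.1 hS h)]
    split_ifs
    · rw [show u.card + 1 - (S.card + 1) = u.card - S.card by omega]; ring
    · simp

omit [Fintype α] [DecidableEq α] in
theorem Pu_mono (h0 : 0 ≤ p) (h1 : p ≤ 1) {u : Finset α} {E F : Finset α → Prop}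
    (h : ∀ S ⊆ u, E S → F S) : Pu p u E ≤ Pu p u F := by
  refine sum_le_sum fun S hS => ?_
  have := mul_nonneg (pow_nonneg h0 S.card) (pow_nonneg (sub_nonneg.2 h1) (u.card - S.card))
  by_cases a : E S
  · simp [a, h S (mem_powerset.1 hS) a]
  · simp only [a, if_false]
    split_ifs
    · exact this
    · exact le_rfl

omit [Fintype α] [DecidableEq α] in
theorem Pu_or_and (p : ℝ) (u : Finset α) (E F : Finset α → Prop) :
    Pu p u (fun S => E S ∨ F S) + Pu p u (fun S => E S ∧ F S) = Pu p u E + Pu p u F := by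
  classical
  unfold Pu
  rw [← sum_add_distrib, ← sum_add_distrib]
  refine sum_congr rfl fun S _ => ?_
  by_cases h : E S <;> by_cases h' : F S <;> simp [h, h']

omit [Fintype α] in
theorem bk_aux (h0 : 0 ≤ p) (h1 : p ≤ 1 / 2) (u : Finset α) : ∀ E F : Finset α → Prop,
    Up E → Up F → Pu p u (Box E F) ≤ Pu p u E * Pu p u F := by
  have h2 : p ≤ 1 := by linarith
  induction u using Finset.induction_on with
  | empty =>
    intro E F _ _
    simp only [Pu, powerset_empty, sum_singleton, card_empty, pow_zero, Nat.sub_zero, mul_one]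
    by_cases h : Box E F ∅
    · obtain ⟨A, B, a, b, -, c, e⟩ := id h
      rw [subset_empty.1 a] at c
      rw [subset_empty.1 b] at e
      simp [h, c, e]
    · simp only [h, if_false]
      split_ifs <;> norm_num
  | insert a u ha ih =>
    intro E F hE hF
    have up : ∀ G : Finset α → Prop, Up G → Up fun S => G (insert a S) :=
      fun G hG S T b => hG _ _ (insert_subset_insert _ b)
    have le : ∀ G : Finset α → Prop, Up G → ∀ S, G S → G (insert a S) :=
      fun G hG S => hG _ _ (subset_insert _ _)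
    have e1 := ih E F hE hF
    have e2 := ih _ F (up E hE) hF
    have e3 := ih E _ hE (up F hF)
    have e4 := Pu_or_and p u (Box (fun S => E (insert a S)) F) (Box E fun S => F (insert a S))
    have e5 : Pu p u (fun S => Box E F (insert a S)) ≤ Pu p u fun S =>
        Box (fun S => E (insert a S)) F S ∨ Box E (fun S => F (insert a S)) S := by
      refine Pu_mono h0 h2 fun S _ ⟨A, B, b1, b2, b3, b4, b5⟩ => ?_
      by_cases hB : a ∈ B
      · refine Or.inr ⟨A, B.erase a, (subset_insert_iff_of_notMem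
          (disjoint_right.1 b3 hB)).1 b1, subset_insert_iff.1 b2,
          b3.mono_right (erase_subset _ _), b4, ?_⟩
        exact hF _ _ (subset_insert_iff.2 Subset.rfl) b5
      · exact Or.inl ⟨A.erase a, B, subset_insert_iff.1 b1, (subset_insert_iff_of_notMem hB).1 b2,
          b3.mono_left (erase_subset _ _), hE _ _ (subset_insert_iff.2 Subset.rfl) b4, b5⟩
    have e6 : Pu p u (Box E F) ≤ Pu p u fun S =>
        Box (fun S => E (insert a S)) F S ∧ Box E (fun S => F (insert a S)) S :=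
      Pu_mono h0 h2 fun S _ ⟨A, B, b1, b2, b3, b4, b5⟩ =>
        ⟨⟨A, B, b1, b2, b3, le E hE A b4, b5⟩, ⟨A, B, b1, b2, b3, b4, le F hF B b5⟩⟩
    have e7 : Pu p u E ≤ Pu p u fun S => E (insert a S) := Pu_mono h0 h2 fun S _ => le E hE S
    have e8 : Pu p u F ≤ Pu p u fun S => F (insert a S) := Pu_mono h0 h2 fun S _ => le F hF S
    rw [Pu_insert p ha, Pu_insert p ha, Pu_insert p ha]
    have e9 := mul_nonneg (mul_nonneg h0 h0) (mul_nonneg (sub_nonneg.2 e7) (sub_nonneg.2 e8))
    have f1 := mul_le_mul_of_nonneg_left e1 (show 0 ≤ 1 - 2 * p by linarith only [h1])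
    have f2 := mul_le_mul_of_nonneg_left e2 h0
    have f3 := mul_le_mul_of_nonneg_left e3 h0
    have f4 := mul_le_mul_of_nonneg_left e5 h0
    have f5 := mul_le_mul_of_nonneg_left e6 h0
    have f6 := congrArg (p * ·) e4
    simp only [mul_add] at f6
    linarith only [e9, f1, f2, f3, f4, f5, f6]

theorem bk (h0 : 0 ≤ p) (h1 : p ≤ 1 / 2) {E F : Finset α → Prop} (hE : Up E) (hF : Up F) :
    Pr p (Box E F) ≤ Pr p E * Pr p F := by
  simpa only [Pu_univ] using bk_aux h0 h1 univ E F hE hF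

/-- The inequality for a finite family of increasing events with pairwise disjoint witnesses. -/
theorem bk_prod (h0 : 0 ≤ p) (h1 : p ≤ 1 / 2) {ι : Type} (I : Finset ι)
    {E : ι → Finset α → Prop} (hE : ∀ i ∈ I, Up (E i)) :
    Pr p (fun S => ∃ W : ι → Finset α, (∀ i ∈ I, W i ⊆ S ∧ E i (W i)) ∧
      ∀ i ∈ I, ∀ j ∈ I, i ≠ j → Disjoint (W i) (W j)) ≤ ∏ i ∈ I, Pr p (E i) := by
  classical
  have h2 : p ≤ 1 := by linarith
  induction I using Finset.induction_on with
  | empty => simpa only [notMem_empty, IsEmpty.forall_iff, implies_true, ne_eq, and_self, exists_const, prod_empty, ge_iff_le] using Pr_le_one h0 h2 _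
  | insert j I hj ih =>
    have a := fun i hi => hE i (mem_insert_of_mem hi)
    rw [prod_insert hj]
    refine le_trans ?_ (mul_le_mul_of_nonneg_left (ih a) (Pr_nonneg h0 h2 _))
    refine le_trans (Pr_mono h0 h2 fun S ⟨W, b1, b2⟩ => ?_) (bk h0 h1 (hE j (mem_insert_self _ _))
      fun S T b ⟨W, b1, b2⟩ => ⟨W, fun i hi => ⟨(b1 i hi).1.trans b, (b1 i hi).2⟩, b2⟩)
    refine ⟨W j, I.biUnion W, (b1 j (mem_insert_self _ _)).1,
      biUnion_subset.2 fun i hi => (b1 i (mem_insert_of_mem hi)).1,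
      (disjoint_biUnion_right _ _ _).2 fun i hi => b2 j (mem_insert_self _ _) i
        (mem_insert_of_mem hi) fun e => hj (e ▸ hi), (b1 j (mem_insert_self _ _)).2,
      W, fun i hi => ⟨subset_biUnion_of_mem W hi, (b1 i (mem_insert_of_mem hi)).2⟩,
      fun i hi k hk => b2 i (mem_insert_of_mem hi) k (mem_insert_of_mem hk)⟩

end Pool.Agent.MP_8f9e6e_pr

end

section

/-! Rank bounds for towers with several roots. -/

open Finset

namespace Pool.Agent.MP_8f9e6e_pr

variable {n d : ℕ}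

theorem pivot_one {x : Finset (Fin n)} {v : Fin n} (h : x.card = d + 1) (hv : v ∈ x) :
    bd d x (x.erase v) ≠ 0 := by
  rw [bd, if_pos ⟨erase_subset _ _, by rw [card_erase_of_mem hv, h]; rfl⟩]
  exact one_ne_zero

theorem pivot_zero {x y : Finset (Fin n)} {v : Fin n} (hx : x.card = d + 1) (hy : y.card = d + 1)
    (hv : v ∈ y) (hne : y ≠ x) : bd d y (x.erase v) = 0 :=
  if_neg fun h => hne (eq_of_subset_of_card_le
    ((subset_insert_iff.2 h.1).trans (insert_eq_of_mem hv).subset) (by omega)).symm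

theorem levelJ (hd : 2 ≤ d) (M : Submodule (ZMod 2) (Finset (Fin n) → ZMod 2))
    {B H : Finset (Fin n)} {u v : Fin n} {J : Finset (Finset (Fin n))} (h1 : H ⊆ B) (h3 : u ∉ B)
    (hv : v ≠ u)
    (h4 : ∀ x ∈ J, x ⊆ insert u H ∧ x.card = d + 1 ∧ u ∈ x ∧ v ∈ x ∧ bd d x ∈ M) :
    ∃ Y ⊆ (insert u B).powersetCard (d + 1),
      Module.finrank (ZMod 2) (M ⊓ supp B : Submodule _ _) + J.card + Y.card ≤
        Module.finrank (ZMod 2) (M ⊓ supp (insert u B) : Submodule _ _) ∧
      ∀ x ⊆ insert u B, x.card = d + 1 → u ∈ x → bd d x ∈ M →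
        ∀ a ∈ x, a ∉ insert u H → ∃ y ∈ Y, a ∈ y := by
  classical
  have e0 := rank_step (M ⊓ supp B) (fun x => bd d x) (fun x => x.erase v) J
    (fun x hx y hy => hy.2 _ fun h => h3 (h (mem_erase.2 ⟨hv.symm, (h4 x hx).2.2.1⟩)))
    (fun x hx => pivot_one (h4 x hx).2.1 (h4 x hx).2.2.2.1)
    (fun x hx y hy hne => pivot_zero (h4 x hx).2.1 (h4 y hy).2.1 (h4 y hy).2.2.2.1 hne)
  let Z : Finset (Finset (Fin n)) → Submodule (ZMod 2) (Finset (Fin n) → ZMod 2) := fun Y =>
    ⨅ r ∈ {r | u ∈ r ∧ ¬ r ⊆ insert u H ∧ ∀ y ∈ Y, ¬ r ⊆ y}, LinearMap.ker (LinearMap.proj r)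
  have mZ : ∀ Y y, y ∈ Z Y ↔ ∀ r, u ∈ r → ¬ r ⊆ insert u H → (∀ y ∈ Y, ¬ r ⊆ y) → y r = 0 := by
    simp only [Z, Set.mem_ofPred_eq, Submodule.mem_iInf, LinearMap.mem_ker, LinearMap.coe_proj, Function.eval, and_imp, implies_true]
  obtain ⟨Y, hY, hmax⟩ := Finset.exists_max_image
    (((insert u B).powersetCard (d + 1)).powerset.filter fun Y =>
      Module.finrank (ZMod 2) (M ⊓ supp B : Submodule _ _) + J.card + Y.card ≤
        Module.finrank (ZMod 2) (M ⊓ supp (insert u B) ⊓ Z Y : Submodule _ _)) Finset.card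
    ⟨∅, Finset.mem_filter.2 ⟨by simp, e0.trans (Submodule.finrank_mono (sup_le
      (fun y hy => ⟨⟨hy.1, fun r hr => hy.2 r fun h => hr (h.trans (Finset.subset_insert _ _))⟩,
        (mZ _ _).2 fun r a1 _ _ => hy.2 r fun h => h3 (h a1)⟩)
      (Submodule.span_le.2 (by
        rintro _ ⟨x, hx, rfl⟩
        exact ⟨⟨(h4 x hx).2.2.2.2,
          bd_supp ((h4 x hx).1.trans (Finset.insert_subset_insert _ h1))⟩,
          (mZ _ _).2 fun r _ a2 _ => bd_supp (h4 x hx).1 r a2⟩))))⟩⟩
  simp only [Finset.mem_filter, Finset.mem_powerset] at hY hmax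
  obtain ⟨y1, y3⟩ := hY
  refine ⟨Y, y1, y3.trans (Submodule.finrank_mono inf_le_left), fun x x1 x2 x3 x4 a ha hag => ?_⟩
  obtain ⟨b, hb, hb'⟩ := Finset.exists_mem_notMem_of_card_lt_card (s := {u, a}) (t := x)
    (Finset.card_le_two.trans_lt (by omega))
  simp only [Finset.mem_insert, Finset.mem_singleton, not_or] at hb'
  have r1 : (x.erase b).card = d := by rw [Finset.card_erase_of_mem hb, x2]; rfl
  by_contra hno
  have r2 : ∀ y ∈ Y, ¬ x.erase b ⊆ y := fun y hy h =>
    hno ⟨y, hy, h (Finset.mem_erase.2 ⟨Ne.symm hb'.2, ha⟩)⟩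
  have r3 : x ∉ Y := fun h => r2 x h (Finset.erase_subset _ _)
  have r4 := (rank_step (M ⊓ supp (insert u B) ⊓ Z Y) (fun _ : Unit => bd d x)
    (fun _ => x.erase b) {()} (fun _ _ y hy => (mZ _ _).1 hy.2 _
      (Finset.mem_erase.2 ⟨Ne.symm hb'.1, x3⟩)
      (fun h => hag (h (Finset.mem_erase.2 ⟨Ne.symm hb'.2, ha⟩))) r2)
    (by simp only [mem_singleton, bd, erase_subset, r1, and_self, ↓ reduceIte, ne_eq, one_ne_zero, not_false_eq_true, imp_self, implies_true]) (by simp only [mem_singleton, ne_eq, not_true_eq_false, IsEmpty.forall_iff, imp_self, implies_true])).trans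
    (Submodule.finrank_mono (t := M ⊓ supp (insert u B) ⊓ Z (insert x Y)) (sup_le
      (inf_le_inf_left _ fun y hy => (mZ _ _).2 fun r a1 a2 a3 => (mZ _ _).1 hy r a1 a2
        fun y hy => a3 y (Finset.mem_insert_of_mem hy))
      (Submodule.span_le.2 (by
        rintro _ ⟨_, -, rfl⟩
        exact ⟨⟨x4, bd_supp x1⟩, (mZ _ _).2 fun r _ _ a3 =>
          bd_supp le_rfl r (a3 x (Finset.mem_insert_self _ _))⟩))))
  have r5 := hmax (insert x Y) ⟨Finset.insert_subset (Finset.mem_powersetCard.2 ⟨x1, x2⟩) y1, by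
      rw [Finset.card_insert_of_notMem r3]
      simp only [Finset.card_singleton] at r4
      omega⟩
  rw [Finset.card_insert_of_notMem r3] at r5
  omega

/-- Towers of levels: vertex set, number of independent faces, home cells of complete levels. -/
inductive Lev (d : ℕ) (C : Finset (Fin n) → Prop) :
    Finset (Fin n) → ℕ → Finset (Finset (Fin n)) → Prop
  | nil : Lev d C ∅ 0 ∅
  | step (B : Finset (Fin n)) (δ : ℕ) (T : Finset (Finset (Fin n))) (u v : Fin n)
      (H : Finset (Fin n)) (J : Finset (Finset (Fin n))) : Lev d C B δ T → u ∉ B → H ⊆ B →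
      H.card ≤ d + 1 → v ≠ u → J.card ≤ d →
      (∀ x ∈ J, x ⊆ insert u H ∧ x.card = d + 1 ∧ u ∈ x ∧ v ∈ x ∧ C x) →
      Lev d C (insert u B) (δ + J.card) (if J.card = d then insert (insert u H) T else T)

variable {C C' : Finset (Fin n) → Prop} {B : Finset (Fin n)} {δ : ℕ}
  {T : Finset (Finset (Fin n))}

theorem Lev.mono (h : ∀ x, C x → C' x) (hB : Lev d C B δ T) : Lev d C' B δ T := by
  induction hB with
  | nil => exact .nil
  | step B δ T u v H J _ a1 a2 a3 a4 a5 a6 ih =>
    exact .step B δ T u v H J ih a1 a2 a3 a4 a5 fun x hx =>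
      ⟨(a6 x hx).1, (a6 x hx).2.1, (a6 x hx).2.2.1, (a6 x hx).2.2.2.1, h x (a6 x hx).2.2.2.2⟩

theorem faces_spec {g : Finset (Fin n)} {u v : Fin n} (hg : g.card = d + 1) (hu : u ∉ g)
    (hv : v ∈ g) : ((g.erase v).image fun w => insert u (g.erase w)).card = d ∧
      ∀ x ∈ (g.erase v).image fun w => insert u (g.erase w),
        x ⊆ insert u g ∧ x.card = d + 1 ∧ u ∈ x ∧ v ∈ x ∧ ∃ w ∈ g, x = insert u (g.erase w) := by
  constructor
  · rw [card_image_of_injOn, card_erase_of_mem hv, hg]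
    · rfl
    intro a ha b hb e
    by_contra hne
    have ha' := mem_of_mem_erase (mem_coe.1 ha)
    have : a ∈ insert u (g.erase a) :=
      (show insert u (g.erase a) = insert u (g.erase b) from e) ▸
        mem_insert_of_mem (mem_erase.2 ⟨hne, ha'⟩)
    simp [ne_of_mem_of_not_mem ha' hu] at this
  · intro x hx
    obtain ⟨w, hw, rfl⟩ := mem_image.1 hx
    obtain ⟨a1, a2⟩ := mem_erase.1 hw
    exact ⟨insert_subset_insert _ (erase_subset _ _), by
      rw [card_insert_of_notMem (by simp [hu]), card_erase_add_one a2, hg], mem_insert_self _ _,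
      mem_insert_of_mem (mem_erase.2 ⟨a1.symm, hv⟩), w, a2, rfl⟩

/-- The excess of the rank controls the full cells that are not home cells. -/
theorem Lev.rank (hd : 2 ≤ d) (M : Submodule (ZMod 2) (Finset (Fin n) → ZMod 2))
    (hM : ∀ x, C x → bd d x ∈ M) (hB : Lev d C B δ T) :
    ∃ (y : ℕ) (Z : Finset (Fin n)), Z ⊆ B ∧ Z.card ≤ (2 * d + 3) * y ∧
      δ + y ≤ Module.finrank (ZMod 2) (M ⊓ supp B : Submodule _ _) ∧
      ∀ σ ∈ full d M B, σ ⊆ Z ∨ σ ∈ T := by
  classical
  induction hB with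
  | nil =>
    refine ⟨0, ∅, Subset.rfl, by simp, by simp, fun σ hσ => Or.inl (mem_full.1 hσ).1.1⟩
  | step B δ T u v H J _ a1 a2 a3 a4 a5 a6 ih =>
    obtain ⟨y, Z, z1, z2, z3, z4⟩ := ih
    have hu : u ∉ H := fun h => a1 (a2 h)
    have key : ∃ Y ⊆ (insert u B).powersetCard (d + 1), ∃ k : ℕ, J.card ≤ k ∧
        (insert u H ∈ full d M (insert u B) → k = d) ∧
        Module.finrank (ZMod 2) (M ⊓ supp B : Submodule _ _) + k + Y.card ≤
          Module.finrank (ZMod 2) (M ⊓ supp (insert u B) : Submodule _ _) ∧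
        ∀ x ⊆ insert u B, x.card = d + 1 → u ∈ x → bd d x ∈ M →
          ∀ a ∈ x, a ∉ insert u H → ∃ y ∈ Y, a ∈ y := by
      by_cases hf : insert u H ∈ full d M (insert u B)
      · obtain ⟨⟨-, c2⟩, c3⟩ := mem_full.1 hf
        rw [card_insert_of_notMem hu] at c2
        obtain ⟨Y, b1, b2, b3⟩ := level' hd M a2 (by omega) a1 fun w hw => by
          have := c3 w (mem_insert_of_mem hw)
          rwa [erase_insert_of_ne (ne_of_mem_of_not_mem hw hu).symm] at this
        exact ⟨Y, b1, d, a5, fun _ => rfl, b2, b3⟩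
      · obtain ⟨Y, b1, b2, b3⟩ := levelJ hd M a2 a1 a4 fun x hx =>
          ⟨(a6 x hx).1, (a6 x hx).2.1, (a6 x hx).2.2.1, (a6 x hx).2.2.2.1, hM x (a6 x hx).2.2.2.2⟩
        exact ⟨Y, b1, J.card, le_rfl, fun h => (hf h).elim, b2, b3⟩
    obtain ⟨Y, hY, k, k1, k2, b2, b3⟩ := key
    have s1 : ∀ σ ∈ full d M (insert u B), σ ∈ full d M B ∨ σ ⊆ insert u H ∪ Y.biUnion id := by
      intro σ hσ
      obtain ⟨⟨c1, c2⟩, c3⟩ := mem_full.1 hσ
      by_cases hσu : u ∈ σ
      · refine Or.inr fun a ha => ?_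
        by_cases hag : a ∈ insert u H
        · exact Finset.mem_union_left _ hag
        obtain ⟨w, hw, hw'⟩ := Finset.exists_mem_notMem_of_card_lt_card (s := {u, a}) (t := σ)
          (Finset.card_le_two.trans_lt (by omega))
        simp only [Finset.mem_insert, Finset.mem_singleton, not_or] at hw'
        obtain ⟨y, hy, hy'⟩ := b3 (σ.erase w) ((Finset.erase_subset _ _).trans c1)
          (by rw [Finset.card_erase_of_mem hw, c2]; rfl)
          (Finset.mem_erase.2 ⟨Ne.symm hw'.1, hσu⟩) (c3 w hw) a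
          (Finset.mem_erase.2 ⟨Ne.symm hw'.2, ha⟩) hag
        exact Finset.mem_union_right _ (Finset.mem_biUnion.2 ⟨y, hy, hy'⟩)
      · exact Or.inl (mem_full.2 ⟨⟨(Finset.subset_insert_iff_of_notMem hσu).1 c1, c2⟩, c3⟩)
    have t1 : ∀ σ ∈ T, σ ∈ (if J.card = d then insert (insert u H) T else T) := fun σ h => by
      split_ifs
      · exact mem_insert_of_mem h
      · exact h
    by_cases h0 : k - J.card + Y.card = 0
    · refine ⟨y, Z, z1.trans (subset_insert _ _), z2, by omega, fun σ hσ => ?_⟩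
      rcases s1 σ hσ with h | h
      · exact (z4 σ h).imp_right (t1 σ)
      · rw [card_eq_zero.1 (show Y.card = 0 by omega), biUnion_empty, union_empty] at h
        have e := eq_of_subset_of_card_le h (by
          rw [card_insert_of_notMem hu, (mem_full.1 hσ).1.2]; omega)
        have := k2 (e ▸ hσ)
        rw [if_pos (by omega), e]
        exact Or.inr (mem_insert_self _ _)
    · refine ⟨y + (k - J.card + Y.card), Z ∪ (insert u H ∪ Y.biUnion id), union_subset
        (z1.trans (subset_insert _ _)) (union_subset (insert_subset_insert _ a2)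
          (biUnion_subset.2 fun x hx => (mem_powersetCard.1 (hY hx)).1)), ?_, by omega,
        fun σ hσ => ?_⟩
      · have e2 := Finset.card_biUnion_le_card_mul Y id (d + 1) fun y hy =>
          (Finset.mem_powersetCard.1 (hY hy)).2.le
        have e3 := Finset.card_union_le (insert u H) (Y.biUnion id)
        have e4 := Finset.card_union_le Z (insert u H ∪ Y.biUnion id)
        rw [Finset.card_insert_of_notMem hu] at e3
        obtain ⟨j, hj⟩ : ∃ j, k - J.card = j := ⟨_, rfl⟩
        rw [hj] at h0 ⊢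
        have : 1 ≤ j + Y.card := by omega
        nlinarith only [a3, z2, e2, e3, e4, this]
      · rcases s1 σ hσ with h | h
        · exact (z4 σ h).imp (fun h => h.trans subset_union_left) (t1 σ)
        · exact Or.inl (h.trans subset_union_right)

theorem finrank_span_bd (L : Finset (Finset (Fin n))) :
    Module.finrank (ZMod 2) (Submodule.span (ZMod 2) (bd d '' (L : Set (Finset (Fin n))))) ≤
      L.card := by
  classical
  rw [← coe_image]
  exact (finrank_span_finset_le_card _).trans card_image_le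

/-- Projection to the ridges that are not inside `Z`. -/
theorem Lev.proj (L : Finset (Finset (Fin n)))
    (hM : ∀ x, C x → bd d x ∈ Submodule.span (ZMod 2) (bd d '' (L : Set (Finset (Fin n)))))
    (hB : Lev d C B δ T) (Z : Finset (Fin n)) :
    δ ≤ (L.filter fun x => ¬ x ⊆ Z).card + d * (Z ∩ B).card := by
  classical
  let π : (Finset (Fin n) → ZMod 2) →ₗ[ZMod 2] (Finset (Fin n) → ZMod 2) :=
    LinearMap.pi fun r => if r ⊆ Z then 0 else LinearMap.proj r
  have hπ : ∀ y r, π y r = if r ⊆ Z then 0 else y r := fun y r => by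
    simp only [π, LinearMap.pi_apply]
    split_ifs <;> rfl
  let N := Submodule.span (ZMod 2)
    (((L.filter fun x => ¬ x ⊆ Z).image fun x => π (bd d x) : Finset _) :
      Set (Finset (Fin n) → ZMod 2))
  have hN : ∀ x, C x → π (bd d x) ∈ N := fun x hx => by
    have : (Submodule.span (ZMod 2) (bd d '' (L : Set (Finset (Fin n))))) ≤ N.comap π := by
      refine Submodule.span_le.2 ?_
      rintro _ ⟨z, hz, rfl⟩
      by_cases h : z ⊆ Z
      · have : π (bd d z) = 0 := funext fun r => by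
          rw [hπ]
          split_ifs with h'
          · rfl
          · exact bd_supp h r h'
        change π (bd d z) ∈ N
        rw [this]
        exact N.zero_mem
      · exact Submodule.subset_span (mem_coe.2 (mem_image.2 ⟨z, mem_filter.2 ⟨hz, h⟩, rfl⟩))
    exact this (hM x hx)
  have h1 : Module.finrank (ZMod 2) N ≤ (L.filter fun x => ¬ x ⊆ Z).card :=
    (finrank_span_finset_le_card _).trans card_image_le
  suffices h : δ ≤ Module.finrank (ZMod 2) (N ⊓ supp B : Submodule _ _) + d * (Z ∩ B).card from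
    h.trans (Nat.add_le_add_right ((Submodule.finrank_mono inf_le_left).trans h1) _)
  clear h1
  induction hB with
  | nil => simp
  | step B δ T u v H J _ a1 a2 a3 a4 a5 a6 ih =>
    have m1 : (N ⊓ supp B : Submodule _ _) ≤ N ⊓ supp (insert u B) := inf_le_inf_left _
      fun y hy r hr => hy r fun h => hr (h.trans (subset_insert _ _))
    by_cases hu : u ∈ Z
    · have := Submodule.finrank_mono m1
      rw [inter_insert_of_mem hu, card_insert_of_notMem fun h => a1 (mem_inter.1 h).2, mul_add]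
      omega
    · have q : ∀ x ∈ J, ¬ x.erase v ⊆ Z := fun x hx h =>
        hu (h (mem_erase.2 ⟨a4.symm, (a6 x hx).2.2.1⟩))
      have e0 := (rank_step (N ⊓ supp B) (fun x => π (bd d x)) (fun x => x.erase v) J
        (fun x hx y hy => hy.2 _ fun h => a1 (h (mem_erase.2 ⟨a4.symm, (a6 x hx).2.2.1⟩)))
        (fun x hx => by
          rw [hπ, if_neg (q x hx)]
          exact pivot_one (a6 x hx).2.1 (a6 x hx).2.2.2.1)
        (fun x hx y hy hne => by
          rw [hπ, if_neg (q x hx)]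
          exact pivot_zero (a6 x hx).2.1 (a6 y hy).2.1 (a6 y hy).2.2.2.1 hne)).trans
        (Submodule.finrank_mono (t := N ⊓ supp (insert u B)) (sup_le m1 (Submodule.span_le.2 (by
          rintro _ ⟨x, hx, rfl⟩
          refine ⟨hN x (a6 x hx).2.2.2.2, fun r hr => (hπ _ _).trans ?_⟩
          split_ifs
          · rfl
          · exact bd_supp ((a6 x hx).1.trans (insert_subset_insert _ a2)) r hr))))
      rw [inter_insert_of_notMem hu]
      omega

/-- Vertices without faces. -/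
theorem Lev.free (hd : 1 ≤ d) (hn : 2 ≤ n) (hB : Lev d C B δ T) (A : Finset (Fin n)) :
    Lev d C (B ∪ A) δ T := by
  induction A using Finset.induction_on with
  | empty => simpa using hB
  | insert a A _ ih =>
    rw [union_insert]
    by_cases h : a ∈ B ∪ A
    · rwa [insert_eq_of_mem h]
    · have : Nontrivial (Fin n) := Fin.nontrivial_iff_two_le.2 hn
      obtain ⟨v, hv⟩ := exists_ne a
      have := Lev.step _ _ _ a v ∅ ∅ ih h (empty_subset _) (by simp) hv (by simp) (by simp)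
      rwa [card_empty, if_neg (by omega), add_zero] at this

/-- A root with a private vertex. -/
theorem Lev.root (hd : 2 ≤ d) (hB : Lev d C B δ T) {f : Finset (Fin n)} (hf : f.card = d + 1)
    (hC : C f) {u : Fin n} (h1 : u ∈ f) (h2 : u ∉ B) : Lev d C (B ∪ f) (δ + 1) T := by
  have hn : 2 ≤ n := by
    have := card_le_univ f
    rw [Fintype.card_fin] at this
    omega
  obtain ⟨v, hv, hv'⟩ := exists_mem_ne (s := f) (by omega) u
  have := Lev.step _ _ _ u v (f.erase u) {f} (hB.free (by omega) hn (f.erase u)) (by simp [h2])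
    subset_union_right (by rw [card_erase_of_mem h1]; omega) hv' (by simp; omega)
    (by simp [insert_erase h1, hf, h1, hv, hC])
  rwa [card_singleton, if_neg (by omega), ← union_insert, insert_erase h1] at this

/-- A step with a new apex. -/
theorem Lev.tree (hB : Lev d C B δ T) {g : Finset (Fin n)} (h1 : g ⊆ B) (h2 : g.card = d + 1)
    {u : Fin n} (h3 : u ∉ B) (h4 : ∀ w ∈ g, C (insert u (g.erase w))) :
    Lev d C (insert u B) (δ + d) (insert (insert u g) T) := by
  obtain ⟨v, hv⟩ := card_pos.1 (show 0 < g.card by omega)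
  have hu : u ∉ g := fun h => h3 (h1 h)
  obtain ⟨e1, e2⟩ := faces_spec h2 hu hv
  have := Lev.step _ _ _ u v g _ hB h3 h1 h2.le (ne_of_mem_of_not_mem hv hu) e1.le fun x hx => by
    obtain ⟨b1, b2, b3, b4, w, hw, rfl⟩ := e2 x hx
    exact ⟨b1, b2, b3, b4, h4 w hw⟩
  rwa [e1, if_pos rfl] at this

/-- A linearly ordered system of steps on top of a tower. -/
theorem Lev.steps {σ : Type} [DecidableEq σ] (face : σ → Finset (Fin n)) (apex : σ → Fin n)
    (ord : σ → ℕ) (hB : Lev d C B δ T) (St : Finset σ) (hinj : Set.InjOn ord St)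
    (h : ∀ s ∈ St, face s ⊆ B ∪ (St.filter fun t => ord t < ord s).image apex ∧
      (face s).card = d + 1 ∧ ∀ w ∈ face s, C (insert (apex s) ((face s).erase w))) :
    ∃ T', Lev d C (B ∪ St.image apex) (δ + d * (St.image apex \ B).card) T' ∧
      ∀ c ∈ T', c ∈ T ∨ ∃ s ∈ St, apex s ∉ B ∪ (St.filter fun t => ord t < ord s).image apex ∧
        c = insert (apex s) (face s) := by
  induction St using Finset.induction_on_max_value ord with
  | empty => exact ⟨T, by simpa using hB, fun c hc => Or.inl hc⟩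
  | insert a St ha hmax ih =>
    have f1 : ∀ s ∈ St, ((insert a St).filter fun t => ord t < ord s) =
        St.filter fun t => ord t < ord s := fun s hs => by
      rw [filter_insert, if_neg (not_lt.2 (hmax s hs))]
    have f2 : ((insert a St).filter fun t => ord t < ord a) = St := by
      rw [filter_insert, if_neg (lt_irrefl _)]
      exact filter_true_of_mem fun s hs => lt_of_le_of_ne (hmax s hs) fun e =>
        ha (hinj (mem_coe.2 (mem_insert_of_mem hs)) (mem_coe.2 (mem_insert_self _ _)) e ▸ hs)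
    obtain ⟨T', i1, i2⟩ := ih (hinj.mono (coe_subset.2 (subset_insert _ _))) fun s hs => by
      have := h s (mem_insert_of_mem hs)
      rwa [f1 s hs] at this
    have i3 : ∀ c ∈ T', c ∈ T ∨ ∃ s ∈ insert a St,
        apex s ∉ B ∪ ((insert a St).filter fun t => ord t < ord s).image apex ∧
          c = insert (apex s) (face s) := fun c hc => (i2 c hc).imp_right fun ⟨s, b1, b2, b3⟩ =>
      ⟨s, mem_insert_of_mem b1, by rwa [f1 s b1], b3⟩
    obtain ⟨g1, g2, g3⟩ := h a (mem_insert_self _ _)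
    rw [f2] at g1
    rw [image_insert, union_insert]
    by_cases hn : apex a ∈ B ∪ St.image apex
    · refine ⟨T', ?_, i3⟩
      have : insert (apex a) (St.image apex) \ B = St.image apex \ B := by
        rcases mem_union.1 hn with h' | h'
        · exact insert_sdiff_of_mem _ h'
        · rw [insert_eq_of_mem h']
      rwa [insert_eq_of_mem hn, this]
    · refine ⟨insert (insert (apex a) (face a)) T', ?_, fun c hc => ?_⟩
      · rw [insert_sdiff_of_notMem _ fun h' => hn (mem_union_left _ h'),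
          card_insert_of_notMem fun h' => hn (mem_union_right _ (mem_sdiff.1 h').1), mul_add,
          mul_one, ← add_assoc]
        exact i1.tree g1 g2 hn g3
      · rcases mem_insert.1 hc with rfl | hc
        · exact Or.inr ⟨a, mem_insert_self _ _, by rwa [f2], rfl⟩
        · exact i3 c hc

/-- The last face of a cell. -/
theorem bd_last (M : Submodule (ZMod 2) (Finset (Fin n) → ZMod 2)) {g : Finset (Fin n)}
    {u v : Fin n} (hg : g.card = d + 1) (hu : u ∉ g) (hv : v ∈ g) (h1 : bd d g ∈ M)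
    (h2 : ∀ w ∈ g.erase v, bd d (insert u (g.erase w)) ∈ M) :
    bd d (insert u (g.erase v)) ∈ M := by
  rw [bd_step hg hu, ← add_sum_erase _ _ hv] at h1
  simpa using M.sub_mem h1 (M.sum_mem h2)

theorem bd_first (M : Submodule (ZMod 2) (Finset (Fin n) → ZMod 2)) {g : Finset (Fin n)}
    {u : Fin n} (hg : g.card = d + 1) (hu : u ∉ g)
    (h2 : ∀ w ∈ g, bd d (insert u (g.erase w)) ∈ M) : bd d g ∈ M := by
  rw [bd_step hg hu]
  exact M.sum_mem h2

/-- The rank bound for a system of steps. -/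
theorem rank_steps (hd : 2 ≤ d) (M : Submodule (ZMod 2) (Finset (Fin n) → ZMod 2))
    (hM : ∀ x, C x → bd d x ∈ M) {σ : Type} [DecidableEq σ] (face : σ → Finset (Fin n))
    (apex : σ → Fin n) (ord : σ → ℕ) (hB : Lev d C B δ T) (St : Finset σ)
    (hinj : Set.InjOn ord St)
    (h : ∀ s ∈ St, face s ⊆ B ∪ (St.filter fun t => ord t < ord s).image apex ∧
      (face s).card = d + 1 ∧ apex s ∉ face s ∧
      ∀ w ∈ face s, C (insert (apex s) ((face s).erase w))) :
    ∃ (y : ℕ) (Z : Finset (Fin n)), Z ⊆ B ∪ St.image apex ∧ Z.card ≤ (2 * d + 3) * y ∧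
      δ + d * (St.image apex \ B).card + y ≤ Module.finrank (ZMod 2) M ∧
      ∀ s ∈ St, insert (apex s) (face s) ⊆ Z ∨ insert (apex s) (face s) ∈ T ∨
        ∃ t ∈ St, ord t ≤ ord s ∧ apex t ∉ B ∪ (St.filter fun r => ord r < ord t).image apex ∧
          insert (apex s) (face s) = insert (apex t) (face t) := by
  obtain ⟨T', i1, i2⟩ := hB.steps face apex ord St hinj fun s hs =>
    ⟨(h s hs).1, (h s hs).2.1, (h s hs).2.2.2⟩
  obtain ⟨y, Z, z1, z2, z3, z4⟩ := i1.rank hd M hM
  refine ⟨y, Z, z1, z2, z3.trans (Submodule.finrank_mono inf_le_left), fun s hs => ?_⟩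
  obtain ⟨g1, g2, g3, g4⟩ := h s hs
  refine (z4 _ (mem_full.2 ⟨⟨insert_subset (mem_union_right _ (mem_image_of_mem _ hs))
    (g1.trans (union_subset_union_right (image_subset_image (filter_subset _ _)))),
    by rw [card_insert_of_notMem g3, g2]⟩, fun w hw => ?_⟩)).imp_right fun hT =>
      (i2 _ hT).imp_right fun ⟨t, b1, b2, b3⟩ => ⟨t, b1, ?_, b2, b3⟩
  · rcases mem_insert.1 hw with rfl | hw
    · rw [erase_insert g3]
      exact bd_first M g2 g3 fun w hw => hM _ (g4 w hw)
    · rw [erase_insert_of_ne (ne_of_mem_of_not_mem hw g3).symm]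
      exact hM _ (g4 w hw)
  · by_contra hlt
    rw [not_le] at hlt
    refine b2 ?_
    rcases mem_insert.1 (b3 ▸ mem_insert_self (apex t) (face t) :
      apex t ∈ insert (apex s) (face s)) with e | e
    · exact mem_union_right _ (mem_image.2 ⟨s, mem_filter.2 ⟨hs, hlt⟩, e.symm⟩)
    · exact union_subset_union_right (image_subset_image (monotone_filter_right _
        fun r _ hr => lt_trans hr hlt)) (g1 e)

end Pool.Agent.MP_8f9e6e_pr

end

section

/-! Derivations in a weighted grammar, two independent layers, encoding and switching bounds. -/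

open Finset

namespace Pool.Agent.MP_8f9e6e_pr.J

section

variable {T O : Type} [AddCommMonoid O]

/-- Derivations: every task is replaced through one of its options; the outputs add up. -/
inductive Der (op : T → Multiset (O × Multiset T)) : Multiset T → O → Prop
  | nil : Der op 0 0
  | cons (t : T) (o : O) (ch F : Multiset T) (o' : O) : (o, ch) ∈ op t → Der op (ch + F) o' →
      Der op (t ::ₘ F) (o + o')

/-- Derivations of a given length. -/
def DerN (op : T → Multiset (O × Multiset T)) : ℕ → Multiset T → O → Prop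
  | 0, R, o => R = 0 ∧ o = 0
  | k + 1, R, o => ∃ t F c o', R = t ::ₘ F ∧ c ∈ op t ∧ DerN op k (c.2 + F) o' ∧ o = c.1 + o'

variable {op : T → Multiset (O × Multiset T)}

theorem Der.len {R : Multiset T} {o : O} (h : Der op R o) : ∃ k, DerN op k R o := by
  induction h with
  | nil => exact ⟨0, rfl, rfl⟩
  | cons t o ch F o' h1 _ ih =>
    obtain ⟨k, hk⟩ := ih
    exact ⟨k + 1, t, F, (o, ch), o', rfl, h1, hk, rfl⟩

theorem DerN.first (k : ℕ) : ∀ {t : T} {F : Multiset T} {o : O}, DerN op k (t ::ₘ F) o →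
    ∃ m c o', k = m + 1 ∧ c ∈ op t ∧ DerN op m (c.2 + F) o' ∧ o = c.1 + o' := by
  induction k with
  | zero => exact fun h => absurd h.1 Multiset.cons_ne_zero
  | succ k ih =>
    rintro t F o ⟨s, G, c, o', h1, h2, h3, rfl⟩
    rcases Multiset.cons_eq_cons.1 h1 with ⟨rfl, rfl⟩ | ⟨-, cs, rfl, rfl⟩
    · exact ⟨k, c, o', rfl, h2, h3, rfl⟩
    · rw [Multiset.add_cons] at h3
      obtain ⟨m, c', o'', rfl, h4, h5, rfl⟩ := ih h3
      exact ⟨m + 1, c', c.1 + o'', rfl, h4, ⟨s, c'.2 + cs, c, o'', Multiset.add_cons _ _ _, h2,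
        add_left_comm c'.2 c.2 cs ▸ h5, rfl⟩, add_left_comm _ _ _⟩

theorem der_sum (w : O → ℝ) (W : T → ℝ) (w0 : w 0 = 1) (wa : ∀ a b, w (a + b) = w a * w b)
    (hw : ∀ o, 0 ≤ w o) (hW : ∀ t, 0 ≤ W t)
    (h : ∀ t, ((op t).map fun c => w c.1 * (c.2.map W).prod).sum ≤ W t)
    (R : Multiset T) (A : Finset O) (hA : ∀ o ∈ A, Der op R o) :
    ∑ o ∈ A, w o ≤ (R.map W).prod := by
  classical
  have hp : ∀ L : Multiset T, 0 ≤ (L.map W).prod := fun L =>
    Multiset.prod_nonneg fun r hr => by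
      obtain ⟨t, -, rfl⟩ := Multiset.mem_map.1 hr
      exact hW t
  obtain ⟨N, hN⟩ : ∃ N, ∀ o ∈ A, ∃ k < N, DerN op k R o := by
    choose! k hk using fun o ho => (hA o ho).len
    exact ⟨A.sup k + 1, fun o ho => ⟨k o, Nat.lt_succ_of_le (le_sup ho), hk o ho⟩⟩
  clear hA
  induction N generalizing R A with
  | zero =>
    rw [sum_eq_zero fun o ho => by simpa using hN o ho]
    exact hp R
  | succ N ih =>
    induction R using Multiset.induction_on with
    | empty =>
      have h1 : A ⊆ {0} := fun o ho => by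
        obtain ⟨k, -, hk⟩ := hN o ho
        cases k with
        | zero => exact mem_singleton.2 hk.2
        | succ k =>
          obtain ⟨_, _, _, _, h2, -⟩ := hk
          exact absurd h2.symm Multiset.cons_ne_zero
      simpa only [Multiset.map_zero, Multiset.prod_zero, ge_iff_le, sum_singleton, w0] using sum_le_sum_of_subset_of_nonneg h1 fun o _ _ => hw o
    | cons t F _ =>
      have h1 : ∀ o ∈ A, ∃ c : O × Multiset T, ∃ o', c ∈ op t ∧
          (∃ k < N, DerN op k (c.2 + F) o') ∧ o = c.1 + o' := fun o ho => by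
        obtain ⟨k, h2, hk⟩ := hN o ho
        obtain ⟨m, c, o', rfl, h3, h4, h5⟩ := DerN.first k hk
        exact ⟨c, o', h3, ⟨m, by omega, h4⟩, h5⟩
      choose! c g h2 h3 h4 using h1
      rw [← sum_fiberwise_of_maps_to (t := (op t).toFinset) (g := c)
        fun o ho => Multiset.mem_toFinset.2 (h2 o ho), Multiset.map_cons, Multiset.prod_cons]
      calc ∑ y ∈ (op t).toFinset, ∑ o ∈ A with c o = y, w o
          ≤ ∑ y ∈ (op t).toFinset, w y.1 * (y.2.map W).prod * (F.map W).prod := by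
            refine sum_le_sum fun y _ => ?_
            have h5 := ih (y.2 + F) ((A.filter fun o => c o = y).image g) fun o' ho' => by
              obtain ⟨o, ho, rfl⟩ := mem_image.1 ho'
              exact (mem_filter.1 ho).2 ▸ h3 o (mem_filter.1 ho).1
            have h6 : ∀ o ∈ A.filter fun o => c o = y, o = y.1 + g o := fun o ho =>
              (mem_filter.1 ho).2 ▸ h4 o (mem_filter.1 ho).1
            rw [sum_image fun a ha b hb hab => by rw [h6 a ha, h6 b hb, hab], Multiset.map_add,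
              Multiset.prod_add] at h5
            rw [sum_congr rfl fun o ho => (congrArg w (h6 o ho)).trans (wa _ _), ← mul_sum,
              mul_assoc]
            exact mul_le_mul_of_nonneg_left h5 (hw _)
        _ ≤ _ := by
            rw [← sum_mul]
            refine mul_le_mul_of_nonneg_right (le_trans ?_ (h t)) (hp F)
            obtain ⟨u, hu⟩ := Multiset.le_iff_exists_add.1 (op t).dedup_le
            conv_rhs => rw [hu, Multiset.map_add, Multiset.sum_add]
            exact le_add_of_nonneg_right (Multiset.sum_nonneg fun r hr => by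
              obtain ⟨y, -, rfl⟩ := Multiset.mem_map.1 hr
              exact mul_nonneg (hw _) (hp _))

theorem Der.reps {t : T} {rp : O} {F : Multiset T} {o : O} (h : Der op F o) (j : ℕ)
    (hr : 0 < j → (rp, 0) ∈ op t) : Der op (Multiset.replicate j t + F) (j • rp + o) := by
  induction j with
  | zero => simpa using h
  | succ j ih =>
    rw [Multiset.replicate_succ, Multiset.cons_add, succ_nsmul', add_assoc]
    exact .cons t rp 0 _ _ (hr j.succ_pos) (by simpa using ih fun _ => hr j.succ_pos)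

/-- An acyclic system of keys is derived; `r` is the number of repeated occurrences. -/
theorem der_keys' {K : Type} [DecidableEq K] (Ks : Finset K) (tk : K → T) (ko : K → O)
    (kc : K → Multiset K) (rk : K → ℕ) (R : Multiset K) (rp : O)
    (h1 : ∀ k ∈ Ks, (ko k, (kc k).map tk) ∈ op (tk k))
    (h2 : ∀ k ∈ Ks, ∀ k' ∈ kc k, k' ∈ Ks ∧ rk k' < rk k) (h3 : ∀ k ∈ R, k ∈ Ks)
    (h4 : ∀ k ∈ Ks, k ∈ R ∨ ∃ k' ∈ Ks, k ∈ kc k')
    (h5 : ∀ k ∈ Ks, 2 ≤ (R + ∑ k' ∈ Ks, kc k').count k → (rp, 0) ∈ op (tk k)) :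
    ∃ r, r + Ks.card = (R + ∑ k' ∈ Ks, kc k').card ∧
      Der op (R.map tk) (∑ k ∈ Ks, ko k + r • rp) := by
  induction Ks using Finset.strongInductionOn generalizing R with
  | _ Ks ih =>
    rcases Ks.eq_empty_or_nonempty with rfl | hne
    · obtain rfl : R = 0 := Multiset.eq_zero_of_forall_notMem fun k hk => by simpa using h3 k hk
      exact ⟨0, by simp, by simpa using Der.nil⟩
    obtain ⟨a, ha, hm⟩ := exists_max_image Ks rk hne
    have e1 : ∀ k ∈ Ks, a ∉ kc k := fun k hk h => (h2 k hk a h).2.not_ge (hm k hk)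
    have e2 : a ∈ R := (h4 a ha).resolve_right fun ⟨k, hk, h⟩ => e1 k hk h
    obtain ⟨j, hj⟩ := Nat.exists_eq_succ_of_ne_zero (Multiset.count_ne_zero.2 e2)
    set R' := R.filter (· ≠ a) with hR'
    have e3 : R = a ::ₘ (Multiset.replicate j a + R') := by
      rw [← Multiset.cons_add, ← Multiset.replicate_succ, ← Nat.succ_eq_add_one, ← hj,
        ← Multiset.filter_eq']
      exact (Multiset.filter_add_not _ _).symm
    have e4 : ∑ k' ∈ Ks, kc k' = kc a + ∑ k' ∈ Ks.erase a, kc k' := (add_sum_erase _ _ ha).symm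
    obtain ⟨r, hr, hd⟩ := ih (Ks.erase a) (erase_ssubset ha) (kc a + R')
      (fun k hk => h1 k (mem_of_mem_erase hk))
      (fun k hk k' hk' => ⟨mem_erase.2 ⟨fun h => e1 k (mem_of_mem_erase hk) (h ▸ hk'),
        (h2 k (mem_of_mem_erase hk) k' hk').1⟩, (h2 k (mem_of_mem_erase hk) k' hk').2⟩)
      (fun k hk => mem_erase.2 ((Multiset.mem_add.1 hk).elim
        (fun h => ⟨fun h' => e1 a ha (h' ▸ h), (h2 a ha k h).1⟩)
        fun h => ⟨(Multiset.mem_filter.1 h).2, h3 k (Multiset.mem_filter.1 h).1⟩))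
      (fun k hk => by
        obtain ⟨h6, h7⟩ := mem_erase.1 hk
        rcases h4 k h7 with h | ⟨k', h8, h⟩
        · exact .inl (Multiset.mem_add.2 (.inr (Multiset.mem_filter.2 ⟨h, h6⟩)))
        · by_cases h9 : k' = a
          · exact .inl (Multiset.mem_add.2 (.inl (h9 ▸ h)))
          · exact .inr ⟨k', mem_erase.2 ⟨h9, h8⟩, h⟩)
      (fun k hk h => h5 k (mem_of_mem_erase hk) (by
        have h6 : R'.count k ≤ R.count k := Multiset.count_le_of_le k (Multiset.filter_le _ _)
        rw [e4]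
        simp only [Multiset.count_add] at h ⊢
        omega))
    refine ⟨j + r, ?_, ?_⟩
    · have h6 := congrArg Multiset.card e3
      have h7 := card_erase_add_one ha
      rw [e4]
      simp only [Multiset.card_add, Multiset.card_cons, Multiset.card_replicate] at hr h6 ⊢
      omega
    · have h6 := hd.reps (t := tk a) (rp := rp) j fun h => h5 a ha (by
        rw [Multiset.count_add]
        omega)
      rw [e3, Multiset.map_cons, ← add_sum_erase _ _ ha, add_assoc, add_nsmul, add_left_comm _ (j • rp)]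
      refine .cons _ _ _ _ _ (h1 a ha) ?_
      rwa [Multiset.map_add, add_left_comm, ← Multiset.map_replicate tk, ← Multiset.map_add] at h6

theorem der_keys {K : Type} [DecidableEq K] (Ks : Finset K) (tk : K → T) (ko : K → O)
    (kc : K → Multiset K) (rk : K → ℕ) (R : Multiset K) (rp : O)
    (h1 : ∀ k ∈ Ks, (ko k, (kc k).map tk) ∈ op (tk k))
    (h2 : ∀ k ∈ Ks, ∀ k' ∈ kc k, k' ∈ Ks ∧ rk k' < rk k) (h3 : ∀ k ∈ R, k ∈ Ks)
    (h4 : ∀ k ∈ Ks, k ∈ R ∨ ∃ k' ∈ Ks, k ∈ kc k')
    (h5 : ∀ k ∈ Ks, 2 ≤ (R + ∑ k' ∈ Ks, kc k').count k → (rp, 0) ∈ op (tk k)) :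
    ∃ r : ℕ, Der op (R.map tk) (∑ k ∈ Ks, ko k + r • rp) :=
  (der_keys' Ks tk ko kc rk R rp h1 h2 h3 h4 h5).imp fun _ h => h.2

theorem der_inv (φ : T → ℤ) (ψ : O →+ ℤ) (h : ∀ t, ∀ c ∈ op t, φ t = ψ c.1 + (c.2.map φ).sum)
    {R : Multiset T} {o : O} (hd : Der op R o) : (R.map φ).sum = ψ o := by
  induction hd with
  | nil => simp
  | cons t o ch F o' h1 _ ih =>
    rw [Multiset.map_add, Multiset.sum_add] at ih
    rw [Multiset.map_cons, Multiset.sum_cons, h t _ h1, map_add, ← ih, add_assoc]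

end

variable {α : Type} [Fintype α] [DecidableEq α] {p p₁ p₂ : ℝ}

omit [DecidableEq α] in
theorem wt_add (h1 : p < 1) {S S' : Finset α} {k : ℕ} (h : S'.card = S.card + k) :
    wt p S' = wt p S * (p / (1 - p)) ^ k := by
  have h2 : S'.card ≤ Fintype.card α := S'.card_le_univ
  have h3 : Fintype.card α - S.card = Fintype.card α - S'.card + k := by omega
  have h4 : 1 - p ≠ 0 := (sub_pos.2 h1).ne'
  rw [wt, wt, h3, h, div_pow, pow_add, pow_add]
  field_simp

open Classical in
/-- Probability for two independent binomial random subsets. -/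
noncomputable def P2 (p₁ p₂ : ℝ) (E : Finset α → Finset α → Prop) : ℝ :=
  ∑ A, ∑ R, wt p₁ A * wt p₂ R * if E A R then 1 else 0

omit [DecidableEq α] in
theorem P2_eq (p₁ p₂ : ℝ) (E : Finset α → Finset α → Prop) :
    P2 p₁ p₂ E = ∑ A, wt p₁ A * Pr p₂ (E A) := by
  refine sum_congr rfl fun A _ => ?_
  rw [Pr, mul_sum]
  exact sum_congr rfl fun R _ => by split_ifs <;> simp

omit [DecidableEq α] in
theorem P2_fst (p₁ p₂ : ℝ) (E : Finset α → Prop) : P2 p₁ p₂ (fun A _ => E A) = Pr p₁ E := by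
  rw [P2_eq]
  refine sum_congr rfl fun A _ => ?_
  by_cases h : E A <;> simp [Pr, h, sum_wt]

omit [DecidableEq α] in
theorem P2_nonneg (a0 : 0 ≤ p₁) (a1 : p₁ ≤ 1) (b0 : 0 ≤ p₂) (b1 : p₂ ≤ 1)
    (E : Finset α → Finset α → Prop) : 0 ≤ P2 p₁ p₂ E := by
  rw [P2_eq]
  exact sum_nonneg fun A _ => mul_nonneg (wt_nonneg a0 a1 A) (Pr_nonneg b0 b1 _)

omit [DecidableEq α] in
theorem P2_union (a0 : 0 ≤ p₁) (a1 : p₁ ≤ 1) (b0 : 0 ≤ p₂) (b1 : p₂ ≤ 1) {ι : Type} (I : Finset ι)
    {E : Finset α → Finset α → Prop} (F : ι → Finset α → Finset α → Prop)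
    (h : ∀ A R, E A R → ∃ i ∈ I, F i A R) : P2 p₁ p₂ E ≤ ∑ i ∈ I, P2 p₁ p₂ (F i) := by
  simp only [P2_eq]
  rw [sum_comm]
  refine sum_le_sum fun A _ => ?_
  rw [← mul_sum]
  exact mul_le_mul_of_nonneg_left (Pr_union b0 b1 I (fun i => F i A) (h A)) (wt_nonneg a0 a1 A)

omit [DecidableEq α] in
theorem P2_mono (a0 : 0 ≤ p₁) (a1 : p₁ ≤ 1) (b0 : 0 ≤ p₂) (b1 : p₂ ≤ 1)
    {E F : Finset α → Finset α → Prop} (h : ∀ A R, E A R → F A R) : P2 p₁ p₂ E ≤ P2 p₁ p₂ F := by
  simpa using P2_union a0 a1 b0 b1 ({()} : Finset Unit) (fun _ => F)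
    fun A R hE => ⟨(), by simp only [mem_singleton], h A R hE⟩

omit [DecidableEq α] in
/-- A bound that holds for every first layer. -/
theorem P2_le (a0 : 0 ≤ p₁) (a1 : p₁ ≤ 1) {E : Finset α → Finset α → Prop} {b : ℝ}
    (h : ∀ A, Pr p₂ (E A) ≤ b) : P2 p₁ p₂ E ≤ b := by
  rw [P2_eq, ← one_mul b, ← sum_wt (α := α) p₁, sum_mul]
  exact sum_le_sum fun A _ => mul_le_mul_of_nonneg_left (h A) (wt_nonneg a0 a1 A)

theorem pr_union_eq (p : ℝ) {A S : Finset α} (h : A ⊆ S) :
    Pr p (fun R => A ∪ R = S) = p ^ (S.card - A.card) * (1 - p) ^ (Fintype.card α - S.card) := by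
  classical
  have h1 := card_le_card h
  have h2 : S.card ≤ Fintype.card α := S.card_le_univ
  have h3 := sum_pow_mul_eq_add_pow p (1 - p) A
  rw [add_sub_cancel, one_pow] at h3
  have h0 : Pr p (fun R => A ∪ R = S) = ∑ R ∈ univ.filter fun R => A ∪ R = S, wt p R := by
    rw [Pr, sum_filter]
    exact sum_congr rfl fun R _ => by congr
  rw [h0]
  refine Eq.trans ?_ ((congrArg (_ * ·) h3).trans (mul_one _))
  rw [mul_sum]
  refine sum_nbij' (fun R => R ∩ A) (fun B => (S \ A) ∪ B) (fun R _ => by simp) (fun B hB => ?_)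
    (fun R hR => ?_) (fun B hB => ?_) fun R hR => ?_
  · have := mem_powerset.1 hB
    simp only [mem_filter, mem_univ, true_and]
    ext x
    have h4 := @h x
    have h5 := @this x
    simp only [mem_union, mem_sdiff]
    tauto
  · obtain rfl : A ∪ R = S := by simpa only [mem_filter, mem_univ, true_and] using hR
    ext x
    simp only [mem_union, mem_sdiff, mem_inter]
    tauto
  · have := mem_powerset.1 hB
    ext x
    have h5 := @this x
    simp only [mem_union, mem_sdiff, mem_inter]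
    tauto
  · obtain rfl : A ∪ R = S := by simpa only [mem_filter, mem_univ, true_and] using hR
    have h4 := card_union_add_card_inter A R
    have h5 : (R ∩ A).card ≤ A.card := card_le_card inter_subset_right
    rw [inter_comm] at h4
    rw [wt, show R.card = (A ∪ R).card - A.card + (R ∩ A).card by omega,
      show Fintype.card α - ((A ∪ R).card - A.card + (R ∩ A).card) =
        Fintype.card α - (A ∪ R).card + (A.card - (R ∩ A).card) by omega, pow_add, pow_add]
    ring

theorem P2_sup (p₁ p₂ : ℝ) (E : Finset α → Prop) :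
    P2 p₁ p₂ (fun A R => E (A ∪ R)) = Pr (1 - (1 - p₁) * (1 - p₂)) E := by
  classical
  have h1 : ∀ A : Finset α, Pr p₂ (fun R => E (A ∪ R)) =
      ∑ S, if E S then Pr p₂ fun R => A ∪ R = S else 0 := fun A => by
    simp only [Pr]
    rw [sum_congr rfl fun S _ => (ite_sum_zero _ _ _).trans rfl, sum_comm]
    refine sum_congr rfl fun R _ => ?_
    rw [sum_eq_single (A ∪ R) (fun S _ h => by simp [h.symm]) (by simp only [mem_univ, not_true_eq_false, ↓ reduceIte, ite_eq_right_iff, IsEmpty.forall_iff])]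
    simp
  rw [P2_eq, sum_congr rfl fun A _ => by rw [h1, mul_sum], sum_comm, Pr]
  refine sum_congr rfl fun S _ => ?_
  split_ifs with hE
  · have h2 := sum_pow_mul_eq_add_pow p₁ ((1 - p₁) * p₂) S
    have h3 : S.card ≤ Fintype.card α := S.card_le_univ
    rw [← sum_subset (subset_univ S.powerset) fun A _ hA => by
      rw [Pr_false fun R (h : A ∪ R = S) => hA (mem_powerset.2 (h ▸ subset_union_left)),
        mul_zero], wt,
      show 1 - (1 - p₁) * (1 - p₂) = p₁ + (1 - p₁) * p₂ by ring, ← h2, sum_mul]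
    refine sum_congr rfl fun A hA => ?_
    have h4 := card_le_card (mem_powerset.1 hA)
    rw [pr_union_eq p₂ (mem_powerset.1 hA), wt, show Fintype.card α - A.card =
      S.card - A.card + (Fintype.card α - S.card) by omega,
      show 1 - (p₁ + (1 - p₁) * p₂) = (1 - p₁) * (1 - p₂) by ring, pow_add, mul_pow, mul_pow]
    ring
  · simp only [mul_zero, sum_const_zero]

omit [Fintype α] in
theorem sum_cover (x y : ℝ) (F : Finset α) :
    ∑ z ∈ (F.powerset ×ˢ F.powerset).filter fun z => z.1 ∪ z.2 = F, x ^ z.1.card * y ^ z.2.card =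
      (x * (1 + y) + y) ^ F.card := by
  rw [← sum_pow_mul_eq_add_pow, sum_filter, sum_product]
  refine sum_congr rfl fun A hA => ?_
  have hA' := mem_powerset.1 hA
  have h1 := sum_pow_mul_eq_add_pow y 1 A
  dsimp only
  rw [← sum_filter, ← mul_sum, mul_pow, add_comm 1 y, ← h1, mul_assoc, sum_mul]
  congr 1
  refine sum_nbij' (fun B => B ∩ A) (fun B => (F \ A) ∪ B) (fun B _ => by simp) (fun B hB => ?_)
    (fun B hB => ?_) (fun B hB => ?_) fun B hB => ?_
  · have h2 := mem_powerset.1 hB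
    have h3 : A ∪ (F \ A ∪ B) = F := by
      ext a
      have h4 := @hA' a
      have h5 := @h2 a
      simp only [mem_union, mem_sdiff]
      tauto
    exact mem_filter.2 ⟨mem_powerset.2 (subset_union_right.trans h3.subset), h3⟩
  · obtain rfl : A ∪ B = F := (mem_filter.1 hB).2
    ext a
    simp only [mem_union, mem_sdiff, mem_inter]
    tauto
  · have h2 := mem_powerset.1 hB
    ext a
    have h5 := @h2 a
    simp only [mem_union, mem_sdiff, mem_inter]
    tauto
  · obtain rfl : A ∪ B = F := (mem_filter.1 hB).2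
    have h4 := card_union_add_card_inter A B
    have h5 : (B ∩ A).card ≤ B.card := card_le_card inter_subset_left
    rw [inter_comm] at h4
    rw [one_pow, mul_one, ← pow_add, show (B ∩ A).card + ((A ∪ B).card - A.card) = B.card by omega]

/-- Encoding for two layers: the union is determined by the code and the part outside `F`. -/
theorem abs_code (a0 : 0 ≤ p₁) (a1 : p₁ < 1) (b0 : 0 ≤ p₂) (b1 : p₂ < 1) {C : Type}
    (E : Finset α → Finset α → Prop) (Cd : Finset α → Finset α → C → Prop) (val : C → ℝ)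
    (Rel : C → Finset α → Finset α → Prop)
    (hR : ∀ c S F S' F', Rel c S F → Rel c S' F' → S \ F = S' \ F' → S = S')
    (hE : ∀ A R, E A R → ∃ c F, F ⊆ A ∪ R ∧ Rel c (A ∪ R) F ∧ Cd (A \ F) (R \ F) c ∧
      (1 / ((1 - p₁) * (1 - p₂)) - 1) ^ F.card ≤ val c) {Λ : ℝ}
    (hΛ : ∀ (T₁ T₂ : Finset α) (B : Finset C), (∀ c ∈ B, Cd T₁ T₂ c) → ∑ c ∈ B, val c ≤ Λ) :
    P2 p₁ p₂ E ≤ Λ := by
  classical
  choose c F h1 h2 h3 h4 using hE
  let Z := {z : Finset α × Finset α // E z.1 z.2}
  let c' : Z → C := fun z => c _ _ z.2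
  let F' : Z → Finset α := fun z => F _ _ z.2
  let g : Z → Finset α × Finset α := fun z => (z.1.1 \ F' z, z.1.2 \ F' z)
  have e1 : P2 p₁ p₂ E = ∑ z : Z, wt p₁ z.1.1 * wt p₂ z.1.2 := by
    rw [P2, ← sum_product', univ_product_univ]
    simp only [mul_ite, mul_one, mul_zero]
    rw [← sum_filter]
    exact sum_subtype _ (by simp only [mem_filter, mem_univ, true_and, implies_true]) fun z : Finset α × Finset α => wt p₁ z.1 * wt p₂ z.2
  have e2 : ∑ y : Finset α × Finset α, wt p₁ y.1 * wt p₂ y.2 * Λ = Λ := by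
    rw [← sum_mul, ← univ_product_univ, sum_product' (f := fun A R => wt p₁ A * wt p₂ R),
      ← sum_mul_sum, sum_wt, sum_wt, one_mul, one_mul]
  have q1 : 0 ≤ p₁ / (1 - p₁) := div_nonneg a0 (sub_pos.2 a1).le
  have q2 : 0 ≤ p₂ / (1 - p₂) := div_nonneg b0 (sub_pos.2 b1).le
  have e3 : p₁ / (1 - p₁) * (1 + p₂ / (1 - p₂)) + p₂ / (1 - p₂) =
      1 / ((1 - p₁) * (1 - p₂)) - 1 := by
    have := (sub_pos.2 a1).ne'
    have := (sub_pos.2 b1).ne'
    field_simp
    ring
  rw [e1, ← e2, ← sum_fiberwise_of_maps_to (t := univ) (g := g) fun _ _ => mem_univ _]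
  refine sum_le_sum fun y _ => ?_
  have w0 := mul_nonneg (wt_nonneg a0 a1.le y.1) (wt_nonneg b0 b1.le y.2)
  rw [← sum_fiberwise_of_maps_to (t := (univ.filter fun z => g z = y).image c') (g := c')
    fun z hz => mem_image_of_mem _ hz]
  refine le_trans (sum_le_sum fun x hx => ?_) ((mul_sum _ val _).symm.trans_le
    (mul_le_mul_of_nonneg_left (hΛ y.1 y.2 _ fun x hx => ?_) w0))
  · obtain ⟨z₀, hz₀, rfl⟩ := mem_image.1 hx
    obtain rfl := (mem_filter.1 hz₀).2
    have h5 : ∀ z ∈ (univ.filter fun z => g z = g z₀).filter fun z => c' z = c' z₀,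
        g z = g z₀ ∧ F' z = F' z₀ := fun z hz => by
      have h6 := (mem_filter.1 (mem_filter.1 hz).1).2
      have h7 : (z.1.1 ∪ z.1.2) \ F' z = (z₀.1.1 ∪ z₀.1.2) \ F' z₀ := by
        rw [union_sdiff_distrib, union_sdiff_distrib]
        exact congrArg (fun y : Finset α × Finset α => y.1 ∪ y.2) h6
      have h9 : Rel (c' z) (z.1.1 ∪ z.1.2) (F' z) := h2 _ _ z.2
      rw [(mem_filter.1 hz).2] at h9
      have h8 := hR _ _ _ _ _ h9 (h2 _ _ z₀.2) h7
      have h10 : F' z ⊆ z.1.1 ∪ z.1.2 := h1 _ _ z.2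
      refine ⟨h6, ?_⟩
      rw [← Finset.sdiff_sdiff_eq_self h10, h7, h8]
      exact Finset.sdiff_sdiff_eq_self (h1 _ _ z₀.2)
    refine le_trans ?_ (mul_le_mul_of_nonneg_left (h4 _ _ z₀.2) w0)
    rw [← e3, ← sum_cover, mul_sum]
    refine le_trans (le_of_eq ((sum_congr rfl fun z hz => ?_).trans (sum_image
      (g := fun z : Z => (z.1.1 ∩ F' z₀, z.1.2 ∩ F' z₀)) fun z hz z' hz' h => ?_).symm))
      (sum_le_sum_of_subset_of_nonneg (fun x hx => ?_) fun _ _ _ => by positivity)
    rotate_left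
    · have h6 := (h5 z hz).1.trans (h5 z' hz').1.symm
      simp only [g, (h5 z hz).2, (h5 z' hz').2, Prod.mk.injEq] at h6 h
      exact Subtype.ext (Prod.ext
        (by rw [← sdiff_union_inter z.1.1 (F' z₀), h6.1, h.1, sdiff_union_inter])
        (by rw [← sdiff_union_inter z.1.2 (F' z₀), h6.2, h.2, sdiff_union_inter]))
    · obtain ⟨z, hz, rfl⟩ := mem_image.1 hx
      refine mem_filter.2 ⟨mem_product.2 ⟨mem_powerset.2 inter_subset_right,
        mem_powerset.2 inter_subset_right⟩, ?_⟩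
      have h6 : F' z ⊆ z.1.1 ∪ z.1.2 := h1 _ _ z.2
      rw [(h5 z hz).2] at h6
      rw [← union_inter_distrib_right]
      exact inter_eq_right.2 h6
    · rw [← (h5 z hz).1, ← (h5 z hz).2, wt_add a1 (card_sdiff_add_card_inter z.1.1 (F' z)).symm,
        wt_add b1 (card_sdiff_add_card_inter z.1.2 (F' z)).symm]
      ring
  · obtain ⟨z, hz, rfl⟩ := mem_image.1 hx
    obtain rfl := (mem_filter.1 hz).2
    exact h3 _ _ z.2

/-- Switching: many ways to add `k` elements, few ways to come back. -/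
theorem pr_switch (h0 : 0 ≤ p) (h1 : p < 1) {γ : Type} (E : Finset α → Prop)
    (T : Finset α → Finset γ) (U : γ → Finset α) {k : ℕ} {a b : ℝ}
    (hU : ∀ S, E S → ∀ c ∈ T S, Disjoint S (U c) ∧ (U c).card = k)
    (ha : ∀ S, E S → a ≤ (T S).card)
    (hrev : ∀ (S' : Finset α) (C : Finset γ),
      (∀ c ∈ C, U c ⊆ S' ∧ E (S' \ U c) ∧ c ∈ T (S' \ U c)) → (C.card : ℝ) ≤ b) :
    Pr p E * (a * (p / (1 - p)) ^ k) ≤ b := by
  classical
  have hq : 0 ≤ (p / (1 - p)) ^ k := pow_nonneg (div_nonneg h0 (sub_pos.2 h1).le) _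
  let P : Finset (Σ _ : Finset α, γ) := (univ.filter E).sigma T
  have hP : ∀ z ∈ P, E z.1 ∧ z.2 ∈ T z.1 := fun z hz => by
    simpa only [P, mem_sigma, mem_filter, mem_univ, true_and] using hz
  calc Pr p E * (a * (p / (1 - p)) ^ k)
      ≤ ∑ S ∈ univ.filter E, ∑ _c ∈ T S, wt p S * (p / (1 - p)) ^ k := by
        rw [Pr, ← sum_filter, sum_mul]
        refine sum_le_sum fun S hS => ?_
        rw [sum_const, nsmul_eq_mul, mul_left_comm]
        exact mul_le_mul_of_nonneg_right (ha S (mem_filter.1 hS).2)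
          (mul_nonneg (wt_nonneg h0 h1.le S) hq)
    _ = ∑ z ∈ P, wt p (z.1 ∪ U z.2) := by
        rw [sum_sigma']
        refine sum_congr rfl fun z hz => (wt_add h1 ?_).symm
        have := hU _ (hP z hz).1 _ (hP z hz).2
        rw [card_union_of_disjoint this.1, this.2]
    _ = ∑ S', ∑ z ∈ P.filter fun z => z.1 ∪ U z.2 = S', wt p (z.1 ∪ U z.2) :=
        (sum_fiberwise_of_maps_to (fun _ _ => mem_univ _) _).symm
    _ ≤ ∑ S' : Finset α, wt p S' * b := by
        refine sum_le_sum fun S' _ => ?_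
        have h2 : ∀ z ∈ P.filter fun z => z.1 ∪ U z.2 = S', S' \ U z.2 = z.1 := fun z hz => by
          have h3 := mem_filter.1 hz
          rw [← h3.2]
          exact union_sdiff_cancel_right (hU _ (hP z h3.1).1 _ (hP z h3.1).2).1
        rw [sum_congr rfl fun z hz => by rw [(mem_filter.1 hz).2], sum_const, nsmul_eq_mul,
          mul_comm, ← card_image_of_injOn (f := fun z => z.2) fun z hz z' hz' hh => ?_]
        · refine mul_le_mul_of_nonneg_left (hrev S' _ fun c hc => ?_) (wt_nonneg h0 h1.le S')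
          obtain ⟨z, hz, rfl⟩ := mem_image.1 hc
          rw [h2 z hz]
          exact ⟨(mem_filter.1 hz).2 ▸ subset_union_right, hP z (mem_filter.1 hz).1⟩
        · have h3 : z.2 = z'.2 := hh
          have h4 : z.1 = z'.1 := by rw [← h2 z hz, ← h2 z' hz', h3]
          exact Sigma.ext h4 (heq_of_eq h3)
    _ = b := by rw [← sum_mul, sum_wt, one_mul]

/-- The mode of a binomial distribution has probability at least `1 / (M + 1)`. -/
theorem mode_ge {M k : ℕ} (hk : k ≤ M) :
    1 ≤ ((M : ℝ) + 1) * (M.choose k * ((k / M : ℝ) ^ k * (1 - k / M) ^ (M - k))) := by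
  rcases hk.eq_or_lt with rfl | hk
  · rcases Nat.eq_zero_or_pos k with rfl | h
    · simp
    · have : (k : ℝ) ≠ 0 := by positivity
      simp only [Nat.choose_self, Nat.cast_one, div_self this, one_pow, sub_self, tsub_self, pow_zero, mul_one, le_add_iff_nonneg_left, Nat.cast_nonneg]
  have M0 : (0 : ℝ) < M := by exact_mod_cast (Nat.zero_le k).trans_lt hk
  have kM : (k : ℝ) < M := by exact_mod_cast hk
  set q : ℝ := k / M with hq
  have q0 : 0 ≤ q := by positivity
  have q1 : 0 < 1 - q := by rw [sub_pos, hq, div_lt_one M0]; exact kM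
  have qM : q * M = k := by rw [hq]; field_simp
  let a : ℕ → ℝ := fun j => M.choose j * (q ^ j * (1 - q) ^ (M - j))
  have a0 : ∀ j, 0 ≤ a j := fun j => by simp only [a]; positivity
  have hr : ∀ j < M, (j + 1) * (1 - q) * a (j + 1) = (M - j) * q * a j := fun j hj => by
    have h1 : (M.choose (j + 1) : ℝ) * (j + 1) = M.choose j * (M - j) := by
      have := Nat.choose_succ_right_eq M j
      rw [← Nat.cast_sub hj.le]
      exact_mod_cast this
    have h2 : M - j = M - (j + 1) + 1 := by omega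
    simp only [a]
    rw [h2, pow_succ, pow_succ]
    linear_combination q ^ j * q * (1 - q) ^ (M - (j + 1)) * (1 - q) * h1
  have up : ∀ i j, j + i = k → a j ≤ a k := fun i => by
    induction i with
    | zero => intro j hj; rw [← hj]; rfl
    | succ i ih =>
      intro j hj
      refine le_trans ?_ (ih (j + 1) (by omega))
      have h1 : (j : ℝ) + 1 ≤ k := by exact_mod_cast (by omega : j + 1 ≤ k)
      have h2 : (0 : ℝ) < (j + 1) * (1 - q) := by positivity
      refine le_of_mul_le_mul_left ?_ h2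
      rw [hr j (by omega)]
      exact mul_le_mul_of_nonneg_right (by linarith only [q0, qM, h1]) (a0 j)
  have dn : ∀ i, k + i ≤ M → a (k + i) ≤ a k := fun i => by
    induction i with
    | zero => intro _; rfl
    | succ i ih =>
      intro hi
      refine le_trans ?_ (ih (by omega))
      have h2 : (0 : ℝ) < ((k + i : ℕ) + 1) * (1 - q) := by positivity
      refine le_of_mul_le_mul_left ?_ h2
      rw [← add_assoc, hr (k + i) (by omega)]
      refine mul_le_mul_of_nonneg_right ?_ (a0 _)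
      push_cast
      linarith only [q1, qM]
  have h1 : ∑ j ∈ range (M + 1), a j = 1 := by
    have := add_pow q (1 - q) M
    rw [add_sub_cancel, one_pow] at this
    rw [this]
    exact sum_congr rfl fun j _ => by simp only [a]; ring
  have h2 := sum_le_card_nsmul (range (M + 1)) a (a k) fun j hj => by
    rcases le_total j k with h | h
    · exact up (k - j) j (by omega)
    · have := dn (j - k) (by have := mem_range.1 hj; omega)
      rwa [Nat.add_sub_cancel' h] at this
  rw [h1, card_range, nsmul_eq_mul] at h2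
  push_cast at h2
  exact h2

variable {N : ℕ}

theorem cnt_pair_le {A S A' S' : Finset α} (h : A ⊆ S) (h' : A' ⊆ S') (hA : A.card = A'.card)
    (hS : S.card = S'.card) (s t : ℕ) :
    cnt (fun π : Fin N ≃ α => ini π s = A ∧ ini π t = S) ≤
      cnt (fun π : Fin N ≃ α => ini π s = A' ∧ ini π t = S') := by
  classical
  let e1 := Finset.equivOfCardEq hA
  let e2 := Finset.equivOfCardEq (s := S \ A) (t := S' \ A')
    (by rw [card_sdiff_of_subset h, card_sdiff_of_subset h', hA, hS])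
  have inj : ∀ B T : Finset α, Function.Injective
      (Sum.elim Subtype.val Subtype.val : B ⊕ (T \ B : Finset α) → α) := fun B T =>
    Subtype.val_injective.sumElim Subtype.val_injective fun a b hab =>
      (mem_sdiff.1 b.2).2 (hab ▸ a.2)
  obtain ⟨σ, hσ⟩ := Equiv.Perm.exists_extending_pair _ _ (inj A S)
    ((inj A' S').comp (e1.sumCongr e2).injective)
  have h1 : A.map σ.toEmbedding = A' := eq_of_subset_of_card_le (fun y hy => by
    obtain ⟨x, hx, rfl⟩ := mem_map.1 hy
    have := hσ (.inl ⟨x, hx⟩)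
    exact (show σ x = _ from this) ▸ (e1 ⟨x, hx⟩).2) (by rw [card_map, hA])
  have h2 : S.map σ.toEmbedding = S' := eq_of_subset_of_card_le (fun y hy => by
    obtain ⟨x, hx, rfl⟩ := mem_map.1 hy
    by_cases hxA : x ∈ A
    · exact h' (h1 ▸ mem_map_of_mem _ hxA)
    · have := hσ (.inr ⟨x, mem_sdiff.2 ⟨hx, hxA⟩⟩)
      exact (show σ x = _ from this) ▸ (mem_sdiff.1 (e2 ⟨x, mem_sdiff.2 ⟨hx, hxA⟩⟩).2).1)
    (by rw [card_map, hS])
  unfold cnt
  refine card_le_card_of_injOn (fun π => π.trans σ) (fun π hπ => ?_) fun π _ π' _ hh => ?_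
  · simp only [coe_filter, mem_univ, true_and, Set.mem_ofPred_eq] at hπ ⊢
    rw [← h1, ← h2, ← hπ.1, ← hπ.2, ini, ini, ini, ini, map_map, map_map]
    exact ⟨rfl, rfl⟩
  · ext i
    exact σ.injective (congrArg (fun e : Fin N ≃ α => e i) hh)

theorem cnt_pair (hN : Fintype.card α = N) {A S : Finset α} (h : A ⊆ S) :
    cnt (fun π : Fin N ≃ α => ini π A.card = A ∧ ini π S.card = S) *
      (N.choose A.card * (N - A.card).choose (S.card - A.card)) ≤
      cnt fun _ : Fin N ≃ α => True := by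
  classical
  have hAS := card_le_card h
  let P : Finset (Σ _ : Finset α, Finset α) :=
    (powersetCard A.card univ).sigma fun B => powersetCard (S.card - A.card) Bᶜ
  have hP : ∀ z ∈ P, z.1.card = A.card ∧ Disjoint z.1 z.2 ∧ z.2.card = S.card - A.card :=
    fun z hz => by
      simp only [P, mem_sigma, mem_powersetCard] at hz
      exact ⟨hz.1.2, disjoint_left.2 fun x hx hx' => mem_compl.1 (hz.2.1 hx') hx, hz.2.2⟩
  have h1 : P.card = N.choose A.card * (N - A.card).choose (S.card - A.card) := by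
    rw [card_sigma, sum_congr rfl fun B hB => by
      rw [card_powersetCard, card_compl, hN, (mem_powersetCard.1 hB).2], sum_const,
      card_powersetCard, card_univ, hN, smul_eq_mul]
  rw [← h1, mul_comm, ← smul_eq_mul]
  refine (card_nsmul_le_sum P (fun z => cnt fun π : Fin N ≃ α =>
    ini π A.card = z.1 ∧ ini π S.card = z.1 ∪ z.2) _ fun z hz => ?_).trans ?_
  · refine cnt_pair_le h subset_union_left (hP z hz).1.symm ?_ _ _
    rw [card_union_of_disjoint (hP z hz).2.1, (hP z hz).1, (hP z hz).2.2]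
    omega
  · unfold cnt
    rw [← card_biUnion fun z hz z' hz' hne => disjoint_left.2 fun π h2 h3 => hne ?_]
    · exact card_le_card fun π _ => by simp only [filter_true, mem_univ]
    · have h4 : ini π A.card = z.1 ∧ ini π S.card = z.1 ∪ z.2 := by simpa only [mem_filter, mem_univ, true_and] using h2
      have h5 : ini π A.card = z'.1 ∧ ini π S.card = z'.1 ∪ z'.2 := by simpa only [mem_filter, mem_univ, true_and] using h3
      have h6 : z.1 = z'.1 := h4.1.symm.trans h5.1
      refine Sigma.ext h6 (heq_of_eq ?_)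
      rw [← union_sdiff_cancel_left (hP z hz).2.1, ← union_sdiff_cancel_left (hP z' hz').2.1,
        ← h4.2, ← h5.2, h6]

/-- Transfer for two layers at a fixed pair of times. -/
theorem transfer2 (hN : Fintype.card α = N) (h0 : 0 ≤ p) (h1 : p ≤ 1)
    (E : Finset α → Finset α → Prop) {s t : ℕ} (hs : s ≤ t) (ht : t ≤ N) :
    (N.choose s * (p ^ s * (1 - p) ^ (N - s))) *
      (cnt (fun π : Fin N ≃ α => E (ini π s) (ini π t)) : ℝ) ≤
      (N + 1) * P2 p ((t - s : ℕ) / (N - s : ℕ)) (fun A R => E A (A ∪ R)) *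
         cnt fun _ : Fin N ≃ α => True := by
  classical
  set q : ℝ := (t - s : ℕ) / (N - s : ℕ) with hq
  have hk : t - s ≤ N - s := by omega
  have q0 : 0 ≤ q := by positivity
  have q1 : q ≤ 1 := div_le_one_of_le₀ (by exact_mod_cast hk) (by positivity)
  have hm := mode_ge hk
  rw [← hq, show N - s - (t - s) = N - t by omega] at hm
  set w : ℝ := q ^ (t - s) * (1 - q) ^ (N - t) with hw
  have w0 : 0 ≤ w := mul_nonneg (by positivity) (pow_nonneg (sub_nonneg.2 q1) _)
  set v : ℝ := p ^ s * (1 - p) ^ (N - s) with hv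
  have v0 : 0 ≤ v := mul_nonneg (by positivity) (pow_nonneg (sub_nonneg.2 h1) _)
  set Z : ℝ := ((cnt fun _ : Fin N ≃ α => True : ℕ) : ℝ)
  let P : Finset (Finset α × Finset α) :=
    univ.filter fun z => z.1 ⊆ z.2 ∧ z.1.card = s ∧ z.2.card = t ∧ E z.1 z.2
  have e1 : (cnt (fun π : Fin N ≃ α => E (ini π s) (ini π t)) : ℝ) *
      (N.choose s * (N - s).choose (t - s)) ≤ P.card * Z := by
    have h2 := cnt_union P (E := fun π : Fin N ≃ α => E (ini π s) (ini π t))
      (fun z π => ini π s = z.1 ∧ ini π t = z.2) fun π hπ =>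
        ⟨(ini π s, ini π t), mem_filter.2 ⟨mem_univ _, ini_mono π hs, card_ini π (hs.trans ht),
          card_ini π ht, hπ⟩, rfl, rfl⟩
    have h3 := Nat.mul_le_mul_right (N.choose s * (N - s).choose (t - s)) h2
    rw [sum_mul] at h3
    have h4 := h3.trans (sum_le_card_nsmul P _ (cnt fun _ : Fin N ≃ α => True) fun z hz => by
      obtain ⟨a1, a2, a3, -⟩ := (mem_filter.1 hz).2
      have := cnt_pair hN a1
      rwa [a2, a3] at this)
    rw [smul_eq_mul] at h4
    simp only [Z]
    exact_mod_cast h4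
  have e2 : P.card * (v * w) ≤ P2 p q fun A R => E A (A ∪ R) := by
    rw [← nsmul_eq_mul, ← sum_const, P2_eq,
      ← sum_fiberwise_of_maps_to (t := univ) (g := Prod.fst) fun _ _ => mem_univ _]
    refine sum_le_sum fun A _ => ?_
    calc ∑ _z ∈ P.filter fun z => z.1 = A, v * w
        = wt p A * ∑ z ∈ P.filter fun z => z.1 = A, Pr q fun R => A ∪ R = z.2 := by
          rw [mul_sum]
          refine sum_congr rfl fun z hz => ?_
          obtain ⟨h2, rfl⟩ := mem_filter.1 hz
          obtain ⟨a1, a2, a3, -⟩ := (mem_filter.1 h2).2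
          rw [pr_union_eq q a1, wt, a2, a3, hN]
      _ ≤ _ := by
          refine mul_le_mul_of_nonneg_left ?_ (wt_nonneg h0 h1 A)
          unfold Pr
          rw [sum_comm]
          refine sum_le_sum fun R _ => ?_
          refine (sum_congr rfl fun z _ => (by congr :
            _ = if A ∪ R = z.2 then wt q R else 0)).trans_le ?_
          rw [← sum_filter, sum_const, nsmul_eq_mul]
          have h3 : ∀ z ∈ (P.filter fun z => z.1 = A).filter fun z => A ∪ R = z.2,
              z = (A, A ∪ R) ∧ E A (A ∪ R) := fun z hz => by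
            obtain ⟨h4, h5⟩ := mem_filter.1 hz
            obtain ⟨h6, rfl⟩ := mem_filter.1 h4
            exact ⟨Prod.ext rfl h5.symm, h5 ▸ (mem_filter.1 h6).2.2.2.2⟩
          split_ifs with hE
          · refine mul_le_of_le_one_left (wt_nonneg q0 q1 R) ?_
            exact_mod_cast card_le_one.2 fun a ha b hb => (h3 a ha).1.trans (h3 b hb).1.symm
          · rw [eq_empty_of_forall_notMem fun z hz => hE (h3 z hz).2]
            simp
  have Z0 : 0 ≤ Z := Nat.cast_nonneg _
  have hc : ((N - s : ℕ) : ℝ) + 1 ≤ N + 1 := by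
    have : ((N - s : ℕ) : ℝ) ≤ N := by exact_mod_cast Nat.sub_le N s
    linarith only [this]
  set c : ℝ := ((cnt (fun π : Fin N ≃ α => E (ini π s) (ini π t)) : ℕ) : ℝ)
  have c0 : 0 ≤ c := Nat.cast_nonneg _
  calc N.choose s * v * c ≤ N.choose s * v * c * ((N + 1) * ((N - s).choose (t - s) * w)) :=
        le_mul_of_one_le_right (by positivity)
          (hm.trans (mul_le_mul_of_nonneg_right hc (by positivity)))
    _ = (N + 1) * (v * w) * (c * (N.choose s * (N - s).choose (t - s))) := by ring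
    _ ≤ (N + 1) * (v * w) * (P.card * Z) := by gcongr
    _ = (N + 1) * (P.card * (v * w)) * Z := by ring
    _ ≤ _ := by gcongr

end Pool.Agent.MP_8f9e6e_pr.J

end

section

/-! Definitions for the removal of the logarithm. -/

open Finset

namespace Pool.Agent.MP_8f9e6e_pr.J

/-! ### Generic notions -/

open Classical in
/-- Number of elements with a property. -/
noncomputable def cd {α : Type} [Fintype α] (P : α → Prop) : ℕ := (univ.filter P).card

open Classical in
/-- Number of indices below `t` with a property. -/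
noncomputable def cn (t : ℕ) (P : ℕ → Prop) : ℕ := ((range t).filter P).card

/-- Vertex sets. -/
abbrev Fc (n : ℕ) : Type := Finset (Fin n)

/-- The scale `n^(-1/d)`. -/
noncomputable def mm (n d : ℕ) : ℝ := (n : ℝ) ^ (-(1 / d : ℝ))

/-- The critical constant. -/
noncomputable def gc (d : ℕ) : ℝ := ((d + 1) ^ (d + 1) / d ^ d : ℝ) ^ (-(1 / d : ℝ))

/-- The scale of the number of contractible faces. -/
noncomputable def MM (n d : ℕ) : ℝ := n.choose (d + 1) * mm n d

variable {n d : ℕ}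

/-- A family of faces as a set of vertex sets. -/
def st (S : Finset (Face n d)) : Set (Fc n) := {f | inS S f}

/-- Replace `w` by `u`. -/
def par (x : Fc n) (u w : Fin n) : Fc n := insert u (x.erase w)

/-- The faces of the cell `x + u` other than `x` and `x + u - o`. -/
def slt (x : Fc n) (u o : Fin n) : Finset (Fc n) := (x.erase o).image (par x u)

/-- The round in which a face is derived. -/
noncomputable def rk (d : ℕ) (S : Set (Fc n)) (x : Fc n) : ℕ := sInf {k | Rd d S k x}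

/-- Some cell through `f` has all but one of its other faces in `H`. -/
def Tch (H : Fc n → Prop) (f : Fc n) : Prop := ∃ u ∉ f, ∃ o ∈ f, ∀ y ∈ slt f u o, H y

/-- A numbering of the vertex sets. -/
noncomputable def ix (x : Fc n) : ℕ := Fintype.equivFin (Fc n) x

/-- Derived, but not in the first `r0` rounds. -/
def IsD (d r0 : ℕ) (S : Set (Fc n)) (x : Fc n) : Prop := Contr d S x ∧ ¬ Rd d S r0 x

/-- The time order. -/
def Bef (d : ℕ) (S : Set (Fc n)) (x y : Fc n) : Prop :=
  rk d S x < rk d S y ∨ (rk d S x = rk d S y ∧ ix x < ix y)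

/-- Position among the late faces. -/
noncomputable def pos (d r0 : ℕ) (S : Set (Fc n)) (y : Fc n) : ℕ :=
  cd fun x => IsD d r0 S x ∧ Bef d S x y

/-- The first `a` late faces. -/
def DD (d r0 : ℕ) (S : Set (Fc n)) (a : ℕ) (x : Fc n) : Prop := IsD d r0 S x ∧ pos d r0 S x < a

/-- At most `a` late faces in the first `ρ` rounds. -/
def Small (d r0 : ℕ) (S : Set (Fc n)) (ρ a : ℕ) : Prop :=
  cd (fun x => Rd d S ρ x ∧ ¬ Rd d S r0 x) ≤ a

/-- Face number `j` of a sliding chain. -/
def sf (d : ℕ) (p : ℕ → Fin n) (j : ℕ) : Fc n := (range (d + 1)).image fun i => p (j + i)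

/-- The units of step `j` of a sliding chain. -/
def su (d : ℕ) (p : ℕ → Fin n) (j : ℕ) : Finset (Fc n) := slt (sf d p j) (p (j + d + 1)) (p j)

/-- The units of the first `t` steps. -/
def sU (d : ℕ) (p : ℕ → Fin n) (t : ℕ) : Finset (Fc n) := (range t).biUnion (su d p)

/-- Concatenation. -/
def ext (a : ℕ → Fin n) (k : ℕ) (z : ℕ → Fin n) : ℕ → Fin n :=
  fun i => if i < k then a i else z (i - k)

/-- Injective on the first `t` indices. -/
def Inj (p : ℕ → Fin n) (t : ℕ) : Prop := Set.InjOn p (Set.Iio t)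

/-- The two faces lie in one cell whose other faces are in `H`. -/
def Adj (d : ℕ) (H : Fc n → Prop) (g h : Fc n) : Prop :=
  g.card = d + 1 ∧ ∃ u ∉ g, ∃ o ∈ g, h = par g u o ∧ ∀ y ∈ slt g u o, H y

/-- Degree bound. -/
def Deg (d : ℕ) (H : Fc n → Prop) (x : ℝ) : Prop :=
  ∀ g : Fc n, g.card = d + 1 → (cd (fun u => u ∉ g ∧ ∃ o ∈ g, ∀ y ∈ slt g u o, H y) : ℝ) ≤ x

/-- Ridge degree bound. -/
def Rdg (d : ℕ) (H : Fc n → Prop) (x : ℝ) : Prop :=
  ∀ r : Fc n, r.card = d → (cd (fun v => v ∉ r ∧ H (insert v r)) : ℝ) ≤ x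

/-- Few extensions of a ridge are touched with a late face. -/
def SB (d r0 hh : ℕ) (S : Set (Fc n)) (x : ℝ) : Prop :=
  ∀ r : Fc n, r.card = d → (cd (fun v => v ∉ r ∧ ¬ Rd d S hh (insert v r) ∧
    ∃ u ∉ insert v r, ∃ o ∈ insert v r, (∀ y ∈ slt (insert v r) u o, Rd d S hh y) ∧
      ∃ y ∈ slt (insert v r) u o, ¬ Rd d S r0 y) : ℝ) ≤ x

/-- The component has at least `s` elements. -/
def Heavy (d r0 s : ℕ) (S : Set (Fc n)) (g : Fc n) : Prop :=
  s ≤ cd (Relation.ReflTransGen (Adj d (Rd d S r0)) g)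

/-- The number of cells at `e` that join two heavy sites. -/
noncomputable def Xh (d r0 s : ℕ) (S : Set (Fc n)) (e : Fc n) : ℕ :=
  cd fun u => u ∉ e ∧ ∃ w ∈ e, ∃ w' ∈ e, w ≠ w' ∧ Heavy d r0 s S (par e u w) ∧
    Heavy d r0 s S (par e u w') ∧ ∀ x ∈ e, x ≠ w → x ≠ w' → par e u x ∈ S

/-- Edges of the first layer and edges with one late face. -/
def GG (d r0 a : ℕ) (S1 S : Set (Fc n)) (g h : Fc n) : Prop :=
  Adj d (Rd d S1 r0) g h ∨ ∃ e, DD d r0 S a e ∧ Adj d (fun x => x = e ∨ x ∈ S1) g h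

/-- Big components. -/
def Big (d r0 a L : ℕ) (S1 S : Set (Fc n)) (g : Fc n) : Prop :=
  L ≤ cd (Relation.ReflTransGen (GG d r0 a S1 S) g)

/-- No small pattern of sites with many closing edges. -/
def NDC (d r0 hh : ℕ) (S : Set (Fc n)) (np e0 b0 : ℕ) : Prop :=
  ¬ ∃ (t : ℕ) (a b : ℕ → Fc n),
    (∀ i < t, ¬ Contr d S (a i) ∧ Adj d (Rd d S hh) (a i) (b i) ∧ (a i = a 0 ∨ ∃ k < i, a i = b k) ∧
      ∀ k < i, a k ∪ b k ≠ a i ∪ b i) ∧
    cn t (fun i => ∃ k < i, a k = a i) ≤ np ∧
    cn t (fun i => ¬ Adj d (Rd d S r0) (a i) (b i)) ≤ e0 ∧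
    b0 ≤ cn t (fun i => b i = a 0 ∨ ∃ k < i, b i = b k)

variable [NeZero n]

/-- The vertices in increasing order. -/
noncomputable def vx (x : Fc n) (i : ℕ) : Fin n := (x.sort (· ≤ ·)).getD i 0

open Classical in
/-- The position of a vertex. -/
noncomputable def psn (d : ℕ) (x : Fc n) (w : Fin n) : Fin (d + 1) :=
  if h : ∃ i : Fin (d + 1), vx x i = w then h.choose else 0

open Classical in
/-- The canonical apex. -/
noncomputable def ap (d : ℕ) (S : Set (Fc n)) (x : Fc n) : Fin n :=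
  if h : ∃ u, u ∉ x ∧ ∀ w ∈ x, Rd d S (rk d S x - 1) (par x u w) then h.choose else 0

/-- A tuple as a sequence. -/
def fz {k : ℕ} (z : Fin k → Fin n) : ℕ → Fin n := fun i => if h : i < k then z ⟨i, h⟩ else 0

/-- A template with a free middle part. -/
def tpl (d : ℕ) (a : ℕ → Fin n) {k : ℕ} (z : Fin k → Fin n) (b : ℕ → Fin n) : ℕ → Fin n :=
  ext a (d + 1) (ext (fz z) k b)

/-- The chain that starts at `e` with the apexes `z`. -/
noncomputable def mp (d : ℕ) (e : Fc n) {k : ℕ} (z : Fin k → Fin n) : ℕ → Fin n :=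
  tpl d (vx e) z fun _ => 0

/-- A positive fraction of the chains is untouched. -/
def Iso (d r0 k t : ℕ) (c : ℝ) (S : Set (Fc n)) : Prop :=
  ∀ a b : ℕ → Fin n, (cd (fun z : Fin k → Fin n => Inj (tpl d a z b) (t + d + 1) ∧
    ∃ f ∈ sU d (tpl d a z b) t, Tch (Rd d S r0) f) : ℝ) ≤ (1 - c) * (n : ℝ) ^ k

/-- Degree bound for cells that are not canonical. -/
def DegN (d hh : ℕ) (S : Set (Fc n)) (x : ℝ) : Prop :=
  ∀ g : Fc n, g.card = d + 1 → (cd (fun u => u ∉ g ∧ (∃ o ∈ g, ∀ y ∈ slt g u o, Rd d S hh y) ∧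
    ∀ y, Rd d S hh y → y ∉ S → insert (ap d S y) y ≠ insert u g) : ℝ) ≤ x

/-! ### Explanations -/

/-- The family, the number of early rounds, the number of windows, the alignment, the last round. -/
structure Cx (n d : ℕ) where
  S : Set (Fc n)
  r0 : ℕ
  Q : ℕ
  ρ : ℕ
  hh : ℕ

namespace Cx

variable (c : Cx n d)

/-- Length of a chain. -/
def Om : ℕ := c.Q * (d + 1)
/-- Faces of the world. -/
def H (x : Fc n) : Prop := Rd d c.S c.hh x
/-- Early faces. -/
def A (x : Fc n) : Prop := Rd d c.S c.r0 x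
/-- Late faces. -/
def D (x : Fc n) : Prop := IsD d c.r0 c.S x
/-- Rank. -/
noncomputable def rk (x : Fc n) : ℕ := J.rk d c.S x
/-- Canonical apex. -/
noncomputable def ap (x : Fc n) : Fin n := J.ap d c.S x
/-- Canonical parents. -/
noncomputable def pa (x : Fc n) (w : Fin n) : Fc n := par x (c.ap x) w
/-- Level. -/
noncomputable def lev (x : Fc n) : ℕ := (c.rk x + (c.Om - 1) * c.ρ) % c.Om
/-- Tops. -/
def Top (x : Fc n) : Prop := c.D x ∧ c.lev x = 0
/-- One late parent, all other parents are sources. -/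
def SS (g : Fc n) (w : Fin n) : Prop :=
  w ∈ g ∧ c.D g ∧ c.D (c.pa g w) ∧ ∀ w' ∈ g, w' ≠ w → c.pa g w' ∈ c.S

open Classical in
/-- The late parent. -/
noncomputable def dp (g : Fc n) : Fc n := c.pa g (if h : ∃ w, c.SS g w then h.choose else 0)

/-- The queue of vertices. -/
noncomputable def cq (e : Fc n) : ℕ → ℕ → Fin n
  | 0 => vx e
  | j + 1 => fun i => if i < d then cq e j (i + 1) else c.ap ((range (d + 1)).image (cq e j))

/-- The canonical sliding chain. -/
noncomputable def chn (e : Fc n) (j : ℕ) : Fin n := c.cq e j 0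
/-- Its faces. -/
noncomputable def cf (e : Fc n) (j : ℕ) : Fc n := sf d (c.chn e) j
/-- The first `j` steps slide. -/
def Cpt (e : Fc n) (j : ℕ) : Prop := ∀ i < j, c.SS (c.cf e i) (c.chn e i)

open Classical in
/-- Length of the sliding prefix. -/
noncomputable def cpl (e : Fc n) : ℕ := Nat.findGreatest (c.Cpt e) c.Om

/-- Tops with a sliding chain. -/
def Compat (e : Fc n) : Prop := c.Top e ∧ c.Cpt e c.Om

/-- A touch of a unit of `g` by faces of round `k`. -/
def Tw (k : ℕ) (g : Fc n) (t : Fin n × Fin n × Fin n) : Prop :=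
  t.1 ∈ g ∧ c.pa g t.1 ∈ c.S ∧ t.2.1 ∉ c.pa g t.1 ∧
    insert t.2.1 (c.pa g t.1) ≠ insert (c.ap g) g ∧ t.2.2 ∈ c.pa g t.1 ∧
    ∀ y ∈ slt (c.pa g t.1) t.2.1 t.2.2, Rd d c.S k y

/-- The ignored face is a latest one. -/
def Mx (g : Fc n) (t : Fin n × Fin n × Fin n) : Prop :=
  ∀ y ∈ slt (c.pa g t.1) t.2.1 t.2.2, ∀ k,
    Rd d c.S k (par (c.pa g t.1) t.2.1 t.2.2) → Rd d c.S k y

/-- No unit is touched. -/
def Fresh (g : Fc n) : Prop := ¬ ∃ t, c.Tw (c.rk g - 1) g t
/-- A unit is touched by early faces. -/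
def TyA (g : Fc n) : Prop := ∃ t, c.Tw c.r0 g t

open Classical in
/-- The chosen touch. -/
noncomputable def tw (g : Fc n) : Fin n × Fin n × Fin n :=
  if h : ∃ t, c.Tw c.r0 g t ∧ c.Mx g t then h.choose
  else if h : ∃ t, c.Tw (c.rk g - 1) g t ∧ c.Mx g t then h.choose else 0

/-- The touched unit. -/
noncomputable def tf (g : Fc n) : Fc n := c.pa g (c.tw g).1
/-- The slots of the touch. -/
noncomputable def ts (g : Fc n) : Finset (Fc n) := slt (c.tf g) (c.tw g).2.1 (c.tw g).2.2
/-- Complete tops. -/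
def Cmp (e : Fc n) : Prop := c.Compat e ∧ ∀ i < c.Om, c.Fresh (c.cf e i)
/-- Tops touched by early faces. -/
def TA (e : Fc n) : Prop := c.Compat e ∧ ∃ i < c.Om, c.TyA (c.cf e i)
/-- The other touched tops. -/
def TT (e : Fc n) : Prop := c.Compat e ∧ ¬ c.TA e ∧ ¬ c.Cmp e

open Classical in
/-- Index of the reason. -/
noncomputable def ri (e : Fc n) : ℕ :=
  if h : ∃ i, i < c.Om ∧ c.TyA (c.cf e i) then h.choose
  else if h : ∃ i, i < c.Om ∧ ¬ c.Fresh (c.cf e i) then h.choose else 0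

/-- The reason. -/
noncomputable def rs (e : Fc n) : Fc n := c.cf e (c.ri e)

/-- Children in the free exploration. -/
def ch (x y : Fc n) : Prop :=
  x ∉ c.S ∧ y ∉ c.S ∧ ((¬ c.Cmp x ∧ ∃ w ∈ x, y = c.pa x w) ∨ (c.TT x ∧ y ∈ c.ts (c.rs x)))

/-- The free set. -/
def Fr (R : Finset (Fc n)) (y : Fc n) : Prop :=
  y ∉ c.S ∧ ∃ x ∈ R, Relation.ReflTransGen c.ch x y

/-- Its size. -/
noncomputable def sz (R : Finset (Fc n)) : ℕ := cd (c.Fr R)

/-- The sources below a family. -/
def Lf (R : Finset (Fc n)) (f : Fc n) : Prop :=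
  f ∈ c.S ∧ (f ∈ R ∨ ∃ y, c.Fr R y ∧ ∃ w ∈ y, f = c.pa y w)

/-- Either only early faces, or few late faces and untouched chains. -/
def World (c3 : ℝ) (a2 : ℕ) : Prop :=
  c.hh ≤ c.r0 ∨ (Iso d c.r0 c.Om c.Om c3 c.S ∧ Small d c.r0 c.S c.ρ a2 ∧ c.hh < c.ρ + c.Om)

/-- All free sets are small. -/
def SzB (x : ℝ) : Prop := ∀ g, c.H g → (c.sz {g} : ℝ) ≤ x

end Cx

/-- Classes of faces. -/
inductive Cl : Type
  | A | D | H
  deriving DecidableEq

/-- Types of tasks. -/
inductive Ty (d : ℕ) : Type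
  | E (j : ℕ)
  | D (i : ℕ) (k : Option (Fin (d + 1)))
  | cl (k : Cl)
  | pr (k : Cl)
  | P
  deriving DecidableEq

/-- Tasks. -/
abbrev Tk (n d : ℕ) : Type := Fc n × Ty d

/-- Steps. -/
inductive Stp (n : ℕ) : Type
  | ex (x : Fc n)
  | tc (g : Fc n)
  | si (i : ℕ)
  deriving DecidableEq

/-- Base data: vertices, roots with classes, site steps. -/
structure Base (n : ℕ) where
  V0 : Finset (Fin n)
  rt : Finset (Fc n)
  rc : Fc n → Cl
  ns : ℕ
  g : ℕ → Fc n
  u : ℕ → Fin n
  o : ℕ → Fin n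
  sty : Option Cl

namespace Base

variable (B : Base n)

/-- The site reached by step `i`. -/
def out (i : ℕ) : Fc n := par (B.g i) (B.u i) (B.o i)
/-- The slots of step `i`. -/
def sl (i : ℕ) : Finset (Fc n) := slt (B.g i) (B.u i) (B.o i)
/-- Roots and slots. -/
def Rs : Finset (Fc n) := B.rt ∪ (range B.ns).biUnion B.sl
/-- Steps that are started from outside. -/
def Start (i : ℕ) : Prop := B.sty ≠ none ∨ ∀ k < i, B.g k ≠ B.g i ∧ B.out k ≠ B.g i
/-- The type of the site tasks. -/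
def sT (d : ℕ) : Ty d := match B.sty with
  | none => .P
  | some k => .pr k

open Classical in
/-- The part of the data that is not coded. -/
noncomputable def shape (d : ℕ) : Finset (Fin n) × Multiset (Tk n d) :=
  (B.V0, B.rt.val.map (fun x => (x, Ty.cl (B.rc x))) +
    ((range B.ns).filter B.Start).val.map fun i => (B.g i, B.sT d))

/-- Number of branchings. -/
noncomputable def nsib : ℕ := cn B.ns fun i => B.sty = none ∧ ∃ k < i, B.g k = B.g i
/-- Number of site steps with an old apex. -/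
noncomputable def nold : ℕ := cn B.ns fun i => B.u i ∈ B.V0 ∨ ∃ k < i, B.u k = B.u i

variable (c : Cx n d)

/-- Number of path steps with a late slot. -/
noncomputable def eD : ℕ := cn B.ns fun i => B.sty = none ∧ ∃ y ∈ B.sl i, c.D y
/-- Number of site steps whose sources meet earlier sources. -/
noncomputable def novl : ℕ :=
  cn B.ns fun i => ∃ f, c.Lf (B.sl i) f ∧ (c.Lf B.rt f ∨ ∃ k < i, c.Lf (B.sl k) f)

/-- Admissible base data. -/
structure Ok (Vi : Finset (Fc n)) (δ : ℕ) (T : Finset (Finset (Fin n))) (γ : ℕ) : Prop where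
  root : ∀ x ∈ B.rt, x ⊆ B.V0 ∧ c.H x ∧ (B.rc x = .A → c.A x) ∧ (B.rc x = .D → c.D x)
  site : ∀ i < B.ns, (B.g i).card = d + 1 ∧ ¬ c.H (B.g i) ∧ B.u i ∉ B.g i ∧ B.o i ∈ B.g i ∧
    (∀ y ∈ B.sl i, c.H y) ∧ (B.sty = some .A → ∀ y ∈ B.sl i, c.A y) ∧
    (B.sty = some .D → ∃ y ∈ B.sl i, c.D y) ∧ (B.Start i → B.g i ⊆ B.V0) ∧
    insert (B.u i) (B.g i) ∉ T ∧ ∀ k < i, insert (B.u k) (B.g k) ≠ insert (B.u i) (B.g i)
  home : ∀ x, c.H x → x ∉ c.S → insert (c.ap x) x ∉ T
  lev : ∀ M : Submodule (ZMod 2) (Finset (Fin n) → ZMod 2), (∀ x ∈ B.Rs ∪ Vi, bd d x ∈ M) →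
    Lev d (fun x => bd d x ∈ M) B.V0 δ T ∧ ∀ i < B.ns, B.Start i → bd d (B.g i) ∈ M
  gain : B.rt.card + Vi.card + γ ≤ δ

/-- Face of a step. -/
noncomputable def face : Stp n → Fc n
  | .ex x => x
  | .tc g => c.tf g
  | .si i => B.g i

/-- Apex of a step. -/
noncomputable def apex : Stp n → Fin n
  | .ex x => c.ap x
  | .tc g => (c.tw g).2.1
  | .si i => B.u i

/-- Slots of a step. -/
noncomputable def slot : Stp n → Finset (Fc n)
  | .ex x => x.image (c.pa x)
  | .tc g => c.ts g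
  | .si i => B.sl i

/-- Cell of a step. -/
noncomputable def cell (σ : Stp n) : Finset (Fin n) := insert (B.apex c σ) (B.face c σ)

/-- Priority of a step. -/
noncomputable def key : Stp n → ℕ
  | .ex x => 2 * c.rk x
  | .tc g => 2 * c.rk g - 1
  | .si i => 2 * c.hh + 1 + (B.ns - i)

/-- A linear order of the steps. -/
noncomputable def ord (σ : Stp n) : ℕ :=
  (2 * c.hh + 2 + B.ns - B.key c σ) * Fintype.card (Fc n) + match σ with
    | .ex x => ix x
    | .tc g => ix g
    | .si _ => 0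

variable (X : Set (Bool × Fc n))

/-- Explained faces. -/
def E (y : Fc n) : Prop :=
  c.Fr B.Rs y ∨ (∃ a, (true, a) ∈ X ∧ ∃ j ≤ d, y = c.dp^[j] a) ∨
    ∃ g, (false, g) ∈ X ∧ c.Fr (c.ts g) y

/-- Faces whose touch is explored. -/
def Tc (g : Fc n) : Prop := (∃ e, c.Fr B.Rs e ∧ c.TT e ∧ g = c.rs e) ∨ (false, g) ∈ X

open Classical in
/-- All steps. -/
noncomputable def St : Finset (Stp n) :=
  (univ.filter (B.E c X)).image .ex ∪ (univ.filter (B.Tc c X)).image .tc ∪ (range B.ns).image .si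

/-- The apex is not private. -/
def Shared (σ : Stp n) : Prop :=
  B.apex c σ ∈ B.V0 ∨ ∃ τ ∈ B.St c X, τ ≠ σ ∧ B.apex c τ = B.apex c σ

/-- The apex is new. -/
def Tree (σ : Stp n) : Prop :=
  B.apex c σ ∉ B.V0 ∪ ((B.St c X).filter fun τ => B.ord c τ < B.ord c σ).image (B.apex c)

/-- Bad windows. -/
def BadW (a : Fc n) : Prop :=
  (∃ j ≤ d, B.Shared c X (.ex (c.dp^[j] a))) ∨ (c.Fr B.Rs a ∧ ¬ c.Cmp a)

/-- Faces that occur. -/
noncomputable def Occ : Finset (Fc n) := B.rt ∪ (B.St c X).biUnion (B.slot c)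

/-- The operator whose fixed points are used. -/
def Phi : Set (Bool × Fc n) :=
  {z | (z.1 = true ∧ ∃ e, c.Fr B.Rs e ∧ c.Cmp e ∧ ∃ i < c.Q, z.2 = c.cf e (i * (d + 1)) ∧
      ∀ k < i, B.BadW c X (c.cf e (k * (d + 1)))) ∨
    (z.1 = false ∧ ∃ e, c.Fr B.Rs e ∧ c.TA e ∧ z.2 = c.rs e ∧
      ((∃ j < c.Om, B.Shared c X (.ex (c.cf e j))) ∨
        ∃ f, c.Lf (c.ts z.2) f ∧ f ∈ B.Occ c (X \ {z})))}

/-- Windows that are cut. -/
def CutW (a : Fc n) : Prop := (true, a) ∈ X ∧ ¬ B.BadW c X a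

open Classical in
/-- The set of them. -/
noncomputable def Cuts : Finset (Fc n) := univ.filter (B.CutW c X)

open Classical in
/-- Sources that occur. -/
noncomputable def F : Finset (Fc n) := (B.Occ c X).filter (· ∈ c.S)

open Classical in
/-- Faces that occur and are not explained. -/
noncomputable def L : Finset (Fc n) := (B.Occ c X).filter fun x => ¬ B.E c X x

open Classical in
/-- Ends of chains without gain. -/
noncomputable def T0 : Finset (Fc n) :=
  (B.L c X).filter fun x => x ∉ c.S ∧ x ∉ (B.Cuts c X).image c.dp^[d + 1]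

open Classical in
/-- The units of a window. -/
noncomputable def cU (a : Fc n) : Finset (Fc n) :=
  (range (d + 1)).biUnion fun j => (B.slot c (.ex (c.dp^[j] a))).filter (· ∈ c.S)

/-- Sources outside the windows that are cut. -/
noncomputable def F0 : Finset (Fc n) := B.F c X \ (B.Cuts c X).biUnion (B.cU c)

/-- Number of new vertices. -/
noncomputable def nv : ℕ := ((B.St c X).image (B.apex c) \ B.V0).card
/-- Number of steps without a new vertex. -/
noncomputable def nb : ℕ := (B.St c X).card - B.nv c X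
/-- Number of repeated occurrences. -/
noncomputable def rep : ℕ :=
  B.rt.card + ∑ σ ∈ B.St c X, (B.slot c σ).card - (B.Occ c X).card
/-- The excess. -/
noncomputable def xi : ℕ := (B.L c X).card - (B.rt.card + d * B.nv c X)

open Classical in
/-- Steps whose apex is not private. -/
noncomputable def ShS : Finset (Stp n) := (B.St c X).filter (B.Shared c X)

/-- The shared new vertices. -/
noncomputable def Vs : Finset (Fin n) := (B.ShS c X).image (B.apex c) \ B.V0

/-- The first `j` apexes of the chain are private. -/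
def Priv (e : Fc n) (j : ℕ) : Prop := ∀ i < j, ¬ B.Shared c X (.ex (c.cf e i))
/-- Regular tops whose chain does not slide. -/
def RN (e : Fc n) : Prop := c.Top e ∧ ¬ c.Cpt e c.Om ∧ B.Priv c X e (c.cpl e)
/-- Dense tops. -/
def RA (e : Fc n) : Prop := c.TA e ∧ (false, c.rs e) ∉ X
/-- Regular touched tops. -/
def RT (e : Fc n) : Prop := c.TT e ∧ B.Priv c X e c.Om
/-- Irregular tops. -/
def Irr (e : Fc n) : Prop :=
  B.E c X e ∧ c.Top e ∧ ¬ B.RN c X e ∧ ¬ RA c X e ∧ ¬ B.RT c X e ∧ ¬ B.CutW c X e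
/-- Irregular touches. -/
def IrT (g : Fc n) : Prop := B.Tc c X g ∧ ¬ ∃ e, B.E c X e ∧ B.RT c X e ∧ g = c.rs e

/-- The standing hypotheses. -/
structure Good (Vi : Finset (Fc n)) (δ : ℕ) (T : Finset (Finset (Fin n))) (γ : ℕ) : Prop where
  hd : 2 ≤ d
  hS : ∀ f ∈ c.S, f.card = d + 1
  hQ : 2 ≤ c.Q
  hw : c.hh ≤ c.r0 ∨ c.hh < c.ρ + c.Om
  ok : B.Ok c Vi δ T γ
  fix : B.Phi c X = X

end Base

/-! ### The code -/

/-- Codes of cuts: start, order of the start, index of the end, order of the end. -/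
abbrev Ct (n d : ℕ) : Type :=
  Fc n × (Fin (d + 1) → Fin (d + 1)) × ℕ × (Fin (d + 1) → Fin (d + 1))

/-- The chain of a cut with end `e`. -/
noncomputable def cp (k : Ct n d) (e : Fc n) : ℕ → Fin n :=
  ext (fz fun i => vx k.1 (k.2.1 i)) (d + 1) (fz fun i => vx e (k.2.2.2 i))

/-- Outcomes: leaves, cuts, free steps, old steps, repeats, markers, late edges. -/
abbrev Oc (n d : ℕ) : Type := Multiset (Fc n) × Multiset (Ct n d) × ℕ × ℕ × ℕ × ℕ × ℕ

/-- A leaf. -/
def oLv (x : Fc n) : Oc n d := ({x}, 0, 0, 0, 0, 0, 0)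
/-- A cut. -/
def oCt (k : Ct n d) : Oc n d := (0, {k}, 0, 0, 0, 0, 0)
/-- Free steps. -/
def oFr (j : ℕ) : Oc n d := (0, 0, j, 0, 0, 0, 0)
/-- An old step. -/
def oOl : Oc n d := (0, 0, 0, 1, 0, 0, 0)
/-- A repeat. -/
def oRp : Oc n d := (0, 0, 0, 0, 1, 0, 0)
/-- A marker. -/
def oMk : Oc n d := (0, 0, 0, 0, 0, 1, 0)
/-- A late edge. -/
def oEd : Oc n d := (0, 0, 0, 0, 0, 0, 1)

/-- The outcome and the remaining family determine the removed sources. -/
def Rel (d r0 : ℕ) (o : Oc n d) (S : Set (Fc n)) (F : Finset (Fc n)) : Prop :=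
  (∀ f ∈ F, f ∈ S) ∧ ∃ es : Ct n d → Fc n,
    F = o.1.toFinset ∪ o.2.1.toFinset.biUnion (fun k => sU d (cp k (es k)) (d + 1)) ∧
    ∀ k ∈ o.2.1, IsD d r0 S (es k) ∧ pos d r0 S (es k) = k.2.2.1 ∧
      ∀ f ∈ sU d (cp k (es k)) (d + 1), ¬ Tch (Rd d S (rk d S (es k) - 1)) f

/-- Productions. -/
abbrev Pd (d : ℕ) : Type := Fin (d + 1) → Option (Ty d)

/-- Options. -/
abbrev Op (n d : ℕ) : Type := Multiset (Oc n d × Multiset (Tk n d))

/-- The children of a step. -/
noncomputable def kids (x : Fc n) (u : Fin n) (τ : Pd d) : Multiset (Tk n d) :=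
  (univ : Finset (Fin (d + 1))).val.bind fun i =>
    (((τ i).map fun t => (par x u (vx x i), t)).toList : Multiset (Tk n d))

/-- Early types of rank below `j`. -/
def tB (d j : ℕ) : Finset (Option (Ty d)) := (range j).image fun i => some (.E i)
/-- Late types. -/
def tD (d Om : ℕ) : Finset (Option (Ty d)) := (range Om).image fun i => some (.D i none)
/-- Parents of a face of rank `j + 1`. -/
def pE (d j : ℕ) : Finset (Pd d) :=
  Fintype.piFinset (fun _ => tB d (j + 1)) \ Fintype.piFinset fun _ => tB d j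
/-- One late parent. -/
def p1 (d r0 i : ℕ) : Finset (Pd d) := univ.biUnion fun k : Fin (d + 1) =>
  Fintype.piFinset fun l => if l = k then {some (.D i none)} else tB d (r0 + 1)
/-- Two late parents. -/
def p2 (d r0 Om : ℕ) : Finset (Pd d) := (univ : Finset (Fin (d + 1))).offDiag.biUnion fun k =>
  Fintype.piFinset fun l => if l = k.1 ∨ l = k.2 then tD d Om else tB d (r0 + 1) ∪ tD d Om
/-- The sliding production. -/
def p0 (d i : ℕ) (k : Fin (d + 1)) : Pd d :=
  fun l => if l = k then some (.D i none) else some (.E 0)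
/-- Parents of a late face whose late parent has level `i`. -/
def pD (d r0 Om i : ℕ) (k : Option (Fin (d + 1))) : Finset (Pd d) :=
  (pE d r0 ∪ p1 d r0 i ∪ p2 d r0 Om) \ (k.map (p0 d i)).toFinset
/-- Slots of a probe that ignores position `k`. -/
def qP (d r0 Om : ℕ) (k : Fin (d + 1)) : Cl → Finset (Pd d)
  | .A => Fintype.piFinset fun l => if l = k then {none} else tB d (r0 + 1)
  | .D => (univ.erase k).biUnion fun j => Fintype.piFinset fun l =>
      if l = k then {none} else if l = j then tD d Om else tB d (r0 + 1) ∪ tD d Om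
  | .H => Fintype.piFinset fun l => if l = k then {none} else tB d (r0 + 1) ∪ tD d Om
/-- Types of a class. -/
def tC (d r0 Om : ℕ) : Cl → Finset (Option (Ty d))
  | .A => tB d (r0 + 1)
  | .D => tD d Om
  | .H => tB d (r0 + 1) ∪ tD d Om

/-- Add a contribution to all options. -/
def mark (o : Oc n d) (A : Op n d) : Op n d := A.map fun z => (o + z.1, z.2)

/-- One step. -/
noncomputable def stp (B0 : Finset (Fin n)) (x : Fc n) (ps : Finset (Pd d)) (ex : Fin n → Op n d) :
    Op n d :=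
  mark (oFr 1) (univ.val.bind fun u => ps.val.bind fun τ =>
    (ex u).map fun z => (z.1, kids x u τ + z.2)) +
  mark oOl (B0.val.bind fun u => ps.val.bind fun τ => (ex u).map fun z => (z.1, kids x u τ + z.2))

/-- No extra task. -/
def ex0 : Fin n → Op n d := fun _ => {(0, 0)}

/-- An optional touch. -/
noncomputable def exT (x : Fc n) (u : Fin n) : Op n d :=
  (0, 0) ::ₘ (univ : Finset (Fin (d + 1))).val.map fun k => (oMk, {(par x u (vx x k), Ty.pr .H)})

/-- Continuation and branching of a path. -/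
noncomputable def exP (x : Fc n) (k : Fin (d + 1)) (u : Fin n) : Op n d :=
  {(0, 0), (0, {(par x u (vx x k), Ty.P)}), (oMk, {(x, Ty.P)}),
    (oMk, {(par x u (vx x k), Ty.P), (x, Ty.P)})}

/-- Cuts. -/
def cut (a2 : ℕ) (x : Fc n) : Op n d :=
  univ.val.bind fun π => (range a2).val.bind fun i => univ.val.map fun σ => (oCt (x, π, i, σ), 0)

/-- The units as tasks. -/
def uT (d : ℕ) (p : ℕ → Fin n) (j : ℕ) : Multiset (Tk n d) := (sU d p j).val.map fun f => (f, .E 0)

open Classical in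
/-- Injective tuples. -/
noncomputable def tup (d : ℕ) (x : Fc n) (j : ℕ) : Finset (Fin j → Fin n) :=
  univ.filter fun z => Inj (mp d x z) (j + d + 1)

open Classical in
/-- Dense tuples. -/
noncomputable def Dn (d r0 Om : ℕ) (c3 : ℝ) (S0 : Set (Fc n)) (x : Fc n) :
    Finset (Fin Om → Fin n) :=
  if Iso d r0 Om Om c3 S0 then
    (tup d x Om).filter fun z => ∃ f ∈ sU d (mp d x z) Om, Tch (Rd d S0 r0) f
  else ∅

/-- The options of a task. -/
noncomputable def opts (r0 Om a2 : ℕ) (c3 : ℝ) (S0 : Set (Fc n)) (B0 : Finset (Fin n)) :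
    Tk n d → Op n d
  | (x, .E 0) => {(oLv x, 0), (oRp, 0)}
  | (x, .E (j + 1)) => (oRp, 0) ::ₘ if j < r0 then stp B0 x (pE d j) ex0 else 0
  | (x, .D 0 _) => (oRp, 0) ::ₘ (cut a2 x +
      mark oMk (stp B0 x (pD d r0 Om (Om - 1) none) (exT x)) +
      stp B0 x (pD d r0 Om (Om - 1) (some 0)) (exT x) +
      (Ico 1 Om).val.bind (fun j => (tup d x j).val.map fun z => (oFr j, uT d (mp d x z) j +
        {(sf d (mp d x z) j, .D (Om - j) (some (psn d (sf d (mp d x z) j) (mp d x z j))))})) +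
      (Dn d r0 Om c3 S0 x).val.map (fun z => (oFr Om, uT d (mp d x z) Om +
        {(sf d (mp d x z) Om, .D 0 none)})) +
      (tup d x Om).val.bind fun z => (sU d (mp d x z) Om).val.map fun f =>
        (oFr Om, uT d (mp d x z) Om + {(sf d (mp d x z) Om, .D 0 none), (f, .pr .D)}))
  | (x, .D (i + 1) none) =>
      (oRp, 0) ::ₘ (cut a2 x + if i + 1 < Om then stp B0 x (pD d r0 Om i none) (exT x) else 0)
  | (x, .D (i + 1) (some k)) =>
      if i + 1 < Om then stp B0 x (pD d r0 Om i (some k)) (exT x) else 0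
  | (x, .cl k) => (tC d r0 Om k).val.map fun t => (0, (t.map fun t => (x, t)).toList)
  | (x, .pr k) => univ.val.bind fun j => stp B0 x (qP d r0 Om j k) ex0
  | (x, .P) => univ.val.bind fun j => stp B0 x (qP d r0 Om j .A) (exP x j) +
      mark oEd (stp B0 x (qP d r0 Om j .D) (exP x j))

/-- Weights. -/
structure Wt where
  y : ℕ → ℝ
  G : ℕ → ℝ
  GN : ℕ → ℝ
  WP : ℝ
  γ : ℝ
  θ : ℝ
  ε : ℝ
  κ : ℝ

namespace Wt

variable (W : Wt)

/-- Total weight of the ranks below `j`. -/
noncomputable def Xb (j : ℕ) : ℝ := ∑ i ∈ range j, W.y i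
/-- Total weight of the late types. -/
noncomputable def SG (Om : ℕ) : ℝ := ∑ i ∈ range Om, W.G i
/-- Weight of an apex. -/
noncomputable def nu : ℝ := W.θ * (1 + W.ε)

/-- Weight of a class. -/
noncomputable def xC (r0 Om : ℕ) : Cl → ℝ
  | .A => W.Xb (r0 + 1)
  | .D => W.SG Om
  | .H => W.Xb (r0 + 1) + W.SG Om

/-- Weight of a probe. -/
noncomputable def xP (d r0 Om : ℕ) : Cl → ℝ
  | .A => W.nu * (d + 1) * W.xC r0 Om .A ^ d
  | .D => W.nu * (d + 1) * (d * W.SG Om * W.xC r0 Om .H ^ (d - 1))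
  | .H => W.nu * (d + 1) * W.xC r0 Om .H ^ d

/-- Weight of a step of a late face; `s = 1` removes the sliding production. -/
noncomputable def sD (d r0 Om i : ℕ) (s : ℝ) : ℝ :=
  W.nu * (1 + W.ε * (d + 1) * W.xP d r0 Om .H) *
    (W.Xb (r0 + 1) ^ (d + 1) - W.Xb r0 ^ (d + 1) +
      (d + 1) ^ 2 * W.SG Om ^ 2 * W.xC r0 Om .H ^ (d - 1) +
      ((d + 1) * W.Xb (r0 + 1) ^ d - s * W.y 0 ^ d) * W.G i)

/-- Weight of a type. -/
noncomputable def wT (d r0 Om : ℕ) (m : ℝ) : Ty d → ℝ
  | .E j => W.y j * m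
  | .D 0 _ => W.G 0 * m
  | .D (i + 1) none => W.G (i + 1) * m
  | .D (i + 1) (some _) => W.GN (i + 1) * m
  | .cl k => W.xC r0 Om k * m
  | .pr k => W.xP d r0 Om k
  | .P => W.WP

/-- The weights dominate the generating system. -/
structure GF (d r0 Om : ℕ) (c3 kc : ℝ) : Prop where
  y0 : ∀ j, W.ε ≤ W.y j
  G0 : ∀ i, W.ε + kc ≤ W.G i
  N0 : ∀ i, 0 ≤ W.GN i
  hγ : 0 < W.γ ∧ W.γ ≤ 1
  hθ : 1 < W.θ ∧ W.θ ≤ 2
  hε : 0 < W.ε ∧ W.ε ≤ 1
  hκ : 0 < W.κ ∧ W.κ ≤ 1
  hc : 0 < c3 ∧ c3 ≤ 1 ∧ 0 ≤ kc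
  e0 : W.γ + W.ε ≤ W.y 0
  e1 : ∀ j < r0, W.ε + W.nu * (W.Xb (j + 1) ^ (d + 1) - W.Xb j ^ (d + 1)) ≤ W.y (j + 1)
  d1 : ∀ i, i + 1 < Om → W.ε + kc + W.sD d r0 Om i 0 ≤ W.G (i + 1)
  d2 : ∀ i, i + 1 < Om → W.sD d r0 Om i 1 ≤ W.GN (i + 1)
  d0 : W.ε + kc + W.ε * W.sD d r0 Om (Om - 1) 0 + W.sD d r0 Om (Om - 1) 1 +
    ∑ j ∈ Ico 1 Om, (W.θ * W.y 0 ^ d) ^ j * W.GN (Om - j) +
    (1 - c3) * (W.θ * W.y 0 ^ d) ^ Om * W.G 0 +
    (W.θ * W.y 0 ^ d) ^ Om * W.G 0 * (d * Om * W.xP d r0 Om .D) ≤ W.G 0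
  wp : 1 ≤ W.WP ∧ (W.xP d r0 Om .A + W.κ * W.xP d r0 Om .D) *
    ((1 + W.WP) * (1 + W.ε * W.WP)) ≤ W.WP
  x1 : W.xP d r0 Om .A ≤ 1 ∧ W.xC r0 Om .H ≤ 1

/-- Weight of an outcome. -/
noncomputable def wO (q m : ℝ) (K : ℕ) (o : Oc n d) : ℝ :=
  q ^ o.1.card * (q ^ (d * (d + 1)) * W.θ ^ (d + 1)) ^ o.2.1.card * W.θ ^ o.2.2.1 *
    (W.θ * (W.ε * n / K)) ^ o.2.2.2.1 * (W.ε * m) ^ o.2.2.2.2.1 * W.ε ^ o.2.2.2.2.2.1 *
    W.κ ^ o.2.2.2.2.2.2

/-- Weight of a shape. -/
noncomputable def wS (r0 Om : ℕ) (sh : Finset (Fin n) × Multiset (Tk n d)) : ℝ :=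
  (sh.2.map fun t => W.wT d r0 Om (mm n d) t.2).prod

end Wt

/-- The constant of the excess bounds. -/
def Cb (d : ℕ) : ℕ := 2 * (d + 3) ^ 2 * (2 * d + 3)

/-- The event of the encoding theorem. -/
def Ev (r0 Q a2 : ℕ) (c3 : ℝ) (K Kf s0 e0 n0 j0 : ℕ)
    (Fam : Finset (Face n d) → Finset (Finset (Fin n) × Multiset (Tk n d)))
    (S1 R : Finset (Face n d)) : Prop :=
  ∃ (c : Cx n d) (B : Base n) (Vi : Finset (Fc n)) (δ : ℕ) (T : Finset (Finset (Fin n))),
    c.S = st (S1 ∪ R) ∧ c.r0 = r0 ∧ c.Q = Q ∧ c.World c3 a2 ∧ B.Ok c Vi δ T 0 ∧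
    B.V0.card + B.rt.card + c.sz B.Rs + B.ns ≤ K ∧ s0 ≤ c.sz B.Rs + B.ns ∧ B.eD c ≤ e0 ∧
    B.nsib ≤ n0 ∧ (Cb d * (4 * j0)) ^ (d + 2) ≤ B.nold ∧
    ∀ F : Finset (Face n d), F.card ≤ Kf → B.shape d ∈ Fam (S1 \ F)

omit [NeZero n] in
/-- The parameters of the two layers fit the weights. -/
def Fit (n d : ℕ) (W : Wt) (kc p1 p2 : ℝ) (a2 : ℕ) : Prop :=
  0 ≤ p1 ∧ p1 ≤ 1 / 2 ∧ 0 ≤ p2 ∧ p2 ≤ 1 / 2 ∧ 1 / ((1 - p1) * (1 - p2)) - 1 ≤ W.γ * mm n d ∧
    a2 * ((d + 1 : ℝ) ^ (d + 1)) ^ 2 * ((W.γ * mm n d) ^ (d * (d + 1)) * W.θ ^ (d + 1)) ≤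
      kc * mm n d

omit [NeZero n] in
/-- The context that is used for the instances. -/
def cx (r0 Q ρ : ℕ) (S : Finset (Face n d)) : Cx n d := ⟨st S, r0, Q, ρ, ρ + Q * (d + 1) - 1⟩

/-- The situation in which the switching is applied. -/
def EvX (r0 a1 L : ℕ) (c4 Δ Kn Bn : ℝ) (S1 R : Finset (Face n d)) : Prop :=
  ∃ ρ hh : ℕ, ρ + 1 + 2 * (d + 1) ≤ hh ∧ ¬ Small d r0 (st (S1 ∪ R)) (ρ + 1) (2 * a1) ∧
    Iso d r0 (d + 1) (2 * (d + 1)) c4 (st (S1 ∪ R)) ∧
    SB d r0 hh (st (S1 ∪ R)) (c4 / (8 * d * (d + 1)) * n) ∧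
    Rdg d (Rd d (st (S1 ∪ R)) hh) (n * √(mm n d)) ∧ Deg d (· ∈ st (S1 ∪ R)) Δ ∧
    (cd (Contr d (st (S1 ∪ R))) : ℝ) ≤ Kn ∧
    Bn ≤ cd fun h => h.card = d + 1 ∧ ¬ Contr d (st (S1 ∪ R)) h ∧
      Big d r0 a1 L (st S1) (st (S1 ∪ R)) h

end Pool.Agent.MP_8f9e6e_pr.J

end
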