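import Pool.Agent.MP_8f9e6e_pr.Jump.P1

attribute [-instance] instNonemptyOfMonad AddQuantale.instAddLeftMono
  IdemSemiring.toCanonicallyOrderedAdd IdemSemiring.toMulLeftMono RKHS.instFunLike
  IdemSemiring.toMulRightMono IsOrderedMonoid.toMulLeftMono Nat.decidableExistsLT
  AddQuantale.instAddRightMono Quantale.instMulRightMono Quantale.instMulLeftMono
  NumberField.to_charZero instCoeHTCOfCoeHeadOfCoeOTC List.instDecidableMemOfLawfulBEq
  instCoeHTCTOfCoeTailOfCoeHTC Group.IsPerfect.subsingleton_of_isMulCommutative instCoeTCOfCoe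
  ContinuousMonoidHom.instCoeOutOfMonoidHomClassOfContinuousMapClass Nontrivial.to_nonempty
  Multiset.decidableDforallMultiset NeZero.of_gt' Vector.instDecidableForallForallMemOfDecidablePred
  Array.instDecidableForallForallMemOfDecidablePred instCoeOutOfCoeFun Option.decidableForallMem

/-! Early rounds: counting and concentration, first part. -/

section

/-! Bounded structures, deterministic part and path counts. -/

section

/-! Bounded structures: definitions and dense spots. -/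

open Finset Filter

namespace Pool.Agent.MP_8f9e6e_pr

variable {n d : ℕ} {p : ℝ}

/-- Derivable from the finite family `S` in at most `j` rounds. -/
abbrev Rs (S : Finset (Face n d)) (j : ℕ) (x : Finset (Fin n)) : Prop := Rd d {g | inS S g} j x

theorem Rd.up {S T : Set (Finset (Fin n))} (h : S ⊆ T) {j : ℕ} :
    ∀ {x : Finset (Fin n)}, Rd d S j x → Rd d T j x := by
  induction j with
  | zero => exact fun hx => h hx
  | succ j ih =>
    rintro x (hx | ⟨h1, u, h2, h3⟩)
    · exact Or.inl (ih hx)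
    · exact Or.inr ⟨h1, u, h2, fun w hw => ih (h3 w hw)⟩

theorem Rs.up {S T : Finset (Face n d)} (h : S ⊆ T) {j : ℕ} {x : Finset (Fin n)}
    (hx : Rs S j x) : Rs T j x := Rd.up (fun _ => inS_mono h) hx

theorem up_rs (j : ℕ) (x : Finset (Fin n)) : Up fun S : Finset (Face n d) => Rs S j x :=
  fun _ _ h hx => hx.up h

theorem Rs.card {S : Finset (Face n d)} {j : ℕ} {x : Finset (Fin n)} (hx : Rs S j x) :
    x.card = d + 1 := by
  induction j with
  | zero => exact hx.1
  | succ j ih => exact hx.elim ih fun h => h.1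

/-- A dense spot over `V`. -/
def DS (d : ℕ) (V : Finset (Fin n)) (W k : ℕ) (S : Finset (Face n d)) : Prop :=
  ∃ A : Finset (Fin n), A.card ≤ W ∧ ∃ L : Finset (Finset (Fin n)),
    (∀ t ∈ L, inS S t ∧ t ⊆ V ∪ A) ∧ d * A.card + k ≤ L.card

/-- The constant of the dense spot bound. -/
def cDS (d v W k : ℕ) : ℕ := (W + 1) * ((v + W + 1) ^ (d + 1)) ^ (d * W + k)

theorem pr_ds (h0 : 0 ≤ p) (h1 : p ≤ 1) (hn : n * p ^ d ≤ 1) {V : Finset (Fin n)} {v : ℕ}
    (hv : V.card ≤ v) (W k : ℕ) : Pr p (DS d V W k) ≤ cDS d v W k * p ^ k := by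
  classical
  have key : ∀ (S : Finset (Face n d)) (A : Finset (Fin n)) (T : Finset (Finset (Fin n))),
      (∀ t ∈ T, inS S t ∧ t ⊆ A) →
      T.card ≤ (S.filter fun f => f.1 ∈ A.powersetCard (d + 1)).card := fun S A T a3 => by
    refine le_trans (le_of_eq ?_) (Finset.card_le_card (s := T.subtype fun t => t.card = d + 1)
      fun t ht => ?_)
    · rw [Finset.card_subtype, Finset.filter_true_of_mem fun t ht => (a3 t ht).1.1]
    · have := a3 t.1 (by simpa using ht)
      exact Finset.mem_filter.2 ⟨this.1.2, Finset.mem_powersetCard.2 ⟨this.2, t.2⟩⟩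
  refine (Pr_union h0 h1 ((range (W + 1)).sigma fun i => powersetCard i univ)
    (fun i S => d * i.1 + k ≤ (S.filter fun f => f.1 ∈ (V ∪ i.2).powersetCard (d + 1)).card)
    fun S ⟨A, a1, T, a3, a4⟩ => ⟨⟨A.card, A⟩, by simp only [mem_sigma, mem_range, Order.lt_add_one_iff, mem_powersetCard, subset_univ, and_self, and_true]; omega, a4.trans (key S _ T a3)⟩).trans ?_
  rw [Finset.sum_sigma]
  refine (Finset.sum_le_card_nsmul _ _
    ((((v + W + 1 : ℕ) : ℝ) ^ (d + 1)) ^ (d * W + k) * p ^ k) fun i hi => ?_).trans_eq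
    (by rw [Finset.card_range, nsmul_eq_mul, cDS]; push_cast; ring)
  have hi' : i ≤ W := Nat.lt_succ_iff.1 (Finset.mem_range.1 hi)
  have K1 : (1 : ℝ) ≤ ((v + W + 1 : ℕ) : ℝ) ^ (d + 1) :=
    one_le_pow₀ (by exact_mod_cast (by omega))
  refine (Finset.sum_le_card_nsmul _ _ ((((v + W + 1 : ℕ) : ℝ) ^ (d + 1) * p) ^ (d * i + k))
    fun A hA => ?_).trans ?_
  · refine (pr_many h0 h1 _ _).trans ?_
    rw [mul_pow]
    refine mul_le_mul_of_nonneg_right ((div_le_self (by positivity) (by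
      exact_mod_cast Nat.factorial_pos _)).trans (pow_le_pow_left₀ (by positivity) ?_ _))
      (by positivity)
    rw [Finset.card_powersetCard]
    have := card_union_le V A
    have := (mem_powersetCard.1 hA).2
    exact_mod_cast (Nat.choose_le_pow _ _).trans (Nat.pow_le_pow_left (by dsimp only; omega) _)
  · rw [Finset.card_powersetCard, nsmul_eq_mul, Finset.card_univ, Fintype.card_fin]
    have e1 : (n.choose i : ℝ) ≤ n ^ i := by exact_mod_cast Nat.choose_le_pow _ _
    calc _ ≤ (n : ℝ) ^ i * (((v + W + 1 : ℕ) : ℝ) ^ (d + 1) * p) ^ (d * i + k) := by gcongr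
      _ = (((v + W + 1 : ℕ) : ℝ) ^ (d + 1)) ^ (d * i + k) * p ^ k * (n * p ^ d) ^ i := by
        rw [mul_pow _ p, mul_pow (n : ℝ), ← pow_mul p, pow_add p]
        ring
      _ ≤ (((v + W + 1 : ℕ) : ℝ) ^ (d + 1)) ^ (d * W + k) * p ^ k * 1 := by
        gcongr
        exact pow_le_one₀ (by positivity) hn
      _ = _ := mul_one _

theorem DS.mono {V V' : Finset (Fin n)} {W W' k k' : ℕ} {S : Finset (Face n d)}
    (h : DS d V W k S) (h1 : V ⊆ V') (h2 : W ≤ W') (h3 : k' ≤ k) : DS d V' W' k' S := by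
  obtain ⟨A, a1, L, a2, a3⟩ := h
  exact ⟨A, a1.trans h2, L, fun t ht =>
    ⟨(a2 t ht).1, (a2 t ht).2.trans (union_subset_union_left h1)⟩, by omega⟩

/-- The densities of the rounds, in the unit `z` with `(d + 1) n z ^ d = 1`. -/
noncomputable def ys (d : ℕ) (g : ℝ) : ℕ → ℝ
  | 0 => g
  | j + 1 => g + ys d g j ^ (d + 1) / (d + 1)

theorem ys_nonneg {g : ℝ} (hg : 0 ≤ g) (j : ℕ) : 0 ≤ ys d g j := by
  induction j with
  | zero => exact hg
  | succ j ih => rw [ys]; positivity

/-- `g` and `h` span a cell whose other faces satisfy `Q`. -/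
def Gam (d : ℕ) (Q : Finset (Fin n) → Prop) (g h : Finset (Fin n)) : Prop :=
  g.card = d + 1 ∧ ∃ u ∉ g, ∃ w ∈ g, h = insert u (g.erase w) ∧
    ∀ x ∈ g.erase w, Q (insert u (g.erase x))

/-- Some cell through `f` has `d` other faces satisfying `Q`. -/
def Tch (d : ℕ) (Q : Finset (Fin n) → Prop) (f : Finset (Fin n)) : Prop := ∃ h, Gam d Q f h

/-- Connected families of sites grown from `g`. -/
inductive Cl (d : ℕ) (Q : Finset (Fin n) → Prop) (g : Finset (Fin n)) :
    Finset (Finset (Fin n)) → Prop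
  | base : Cl d Q g {g}
  | step (X : Finset (Finset (Fin n))) (h k : Finset (Fin n)) : Cl d Q g X → h ∈ X →
      Gam d Q h k → Cl d Q g (insert k X)

/-- Heavy sites. -/
def Hv (j s : ℕ) (g : Finset (Fin n)) (S : Finset (Face n d)) : Prop :=
  ∃ X, Cl d (Rs S j) g X ∧ s ≤ X.card

/-- The apex `u` joins two heavy sites through `e`. -/
def Bu (j s : ℕ) (e : Finset (Fin n)) (u : Fin n) (S : Finset (Face n d)) : Prop :=
  u ∉ e ∧ ∃ w ∈ e, ∃ w' ∈ e, w ≠ w' ∧ Hv j s (insert u (e.erase w)) S ∧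
    Hv j s (insert u (e.erase w')) S ∧ ∀ x ∈ e, x ≠ w → x ≠ w' → inS S (insert u (e.erase x))

open Classical in
/-- The number of such apexes. -/
noncomputable def Xe (j s : ℕ) (e : Finset (Fin n)) (S : Finset (Face n d)) : ℕ :=
  (univ.filter fun u => Bu j s e u S).card

open Classical in
/-- Every base has many tuples whose template sites are free. -/
def Iso (j : ℕ) {β ζ : ℕ} (P : Finset (Finset (Fin β ⊕ Fin ζ))) (c : ℝ)
    (S : Finset (Face n d)) : Prop :=
  ∀ b : Fin β → Fin n, Function.Injective b → c * (n : ℝ) ^ ζ ≤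
    ((univ.filter fun z : Fin ζ → Fin n => Function.Injective (Sum.elim b z) ∧ ∀ x ∈ P,
      ¬ Rs S j (x.image (Sum.elim b z)) ∧ ¬ Tch d (Rs S j) (x.image (Sum.elim b z))).card : ℝ)

theorem Gam.mono {Q Q' : Finset (Fin n) → Prop} (h : ∀ x, Q x → Q' x) {g k : Finset (Fin n)}
    (hg : Gam d Q g k) : Gam d Q' g k := by
  obtain ⟨a, u, b, w, c, e, f⟩ := hg
  exact ⟨a, u, b, w, c, e, fun x hx => h _ (f x hx)⟩

theorem Gam.card {Q : Finset (Fin n) → Prop} {g k : Finset (Fin n)} (hg : Gam d Q g k) :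
    k.card = d + 1 := by
  obtain ⟨a, u, b, w, c, rfl, -⟩ := hg
  rw [card_insert_of_notMem (by simp [b]), card_erase_add_one c, a]

theorem Tch.mono {Q Q' : Finset (Fin n) → Prop} (h : ∀ x, Q x → Q' x) {g : Finset (Fin n)}
    (hg : Tch d Q g) : Tch d Q' g := hg.imp fun _ => Gam.mono h

theorem Cl.mono {Q Q' : Finset (Fin n) → Prop} (h : ∀ x, Q x → Q' x) {g : Finset (Fin n)}
    {X : Finset (Finset (Fin n))} (hX : Cl d Q g X) : Cl d Q' g X := by
  induction hX with
  | base => exact .base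
  | step X a k _ b c ih => exact .step X a k ih b (c.mono h)

theorem Cl.reach {Q : Finset (Fin n) → Prop} {g : Finset (Fin n)} {X : Finset (Finset (Fin n))}
    (hX : Cl d Q g X) : ∀ k ∈ X, Relation.ReflTransGen (Gam d Q) g k := by
  induction hX with
  | base => exact fun k hk => mem_singleton.1 hk ▸ .refl
  | step X a k _ b c ih =>
    intro l hl
    rcases mem_insert.1 hl with rfl | hl
    · exact (ih a b).tail c
    · exact ih l hl

theorem Cl.exact {Q : Finset (Fin n) → Prop} {g : Finset (Fin n)} {X : Finset (Finset (Fin n))}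
    (hX : Cl d Q g X) {s : ℕ} (h1 : 1 ≤ s) (h2 : s ≤ X.card) :
    ∃ Y, Cl d Q g Y ∧ Y.card = s := by
  induction hX with
  | base => exact ⟨_, .base, by simp at h2 ⊢; omega⟩
  | step X a k hX b c ih =>
    by_cases h : s ≤ X.card
    · exact ih h
    · exact ⟨_, .step X a k hX b c, by have := card_insert_le k X; omega⟩

theorem up_hv (j s : ℕ) (g : Finset (Fin n)) : Up (Hv (d := d) j s g) :=
  fun _ _ h ⟨X, a, b⟩ => ⟨X, a.mono fun _ => Rs.up h, b⟩

theorem up_bu (j s : ℕ) (e : Finset (Fin n)) (u : Fin n) : Up (Bu (d := d) j s e u) :=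
  fun _ _ h ⟨a, w, b, w', c, f, g, k, l⟩ => ⟨a, w, b, w', c, f, up_hv _ _ _ _ _ h g,
    up_hv _ _ _ _ _ h k, fun x x1 x2 x3 => inS_mono h (l x x1 x2 x3)⟩

open Classical in
theorem Iso.dn (j : ℕ) {β ζ : ℕ} (P : Finset (Finset (Fin β ⊕ Fin ζ))) (c : ℝ) :
    Dn (Iso (n := n) (d := d) j P c) := fun _ _ h a b hb =>
  (a b hb).trans (Nat.cast_le.2 (card_le_card (monotone_filter_right _ fun _ _ e =>
    ⟨e.1, fun x hx => ⟨fun f => (e.2 x hx).1 (f.up h),
      fun f => (e.2 x hx).2 (f.mono fun _ => Rs.up h)⟩⟩)))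

open Classical in
/-- Canonical witnesses and the overlap alternative. -/
def OV (S : Finset (Face n d)) (W : Finset (Fin n) → Finset (Face n d)) : Prop :=
  (∀ x, W x ⊆ S) ∧ (∀ x i, Rs S i x → Rs (W x) i x) ∧
  ∀ (j : ℕ) (B : Finset (Fin n)) (δ : ℕ) (T Rt Vt : Finset (Finset (Fin n))),
    (∀ x ∈ Rt, x ⊆ B ∧ Rs S j x) →
    (∀ M : Submodule (ZMod 2) (Finset (Fin n) → ZMod 2), (∀ x ∈ Rt, bd d x ∈ M) →
      (∀ x ∈ Vt, bd d x ∈ M) → Lev d (fun x => bd d x ∈ M) B δ T) →
    ∃ (A Z : Finset (Fin n)) (L C : Finset (Finset (Fin n))) (y : ℕ),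
      A.card ≤ Rt.card * (d + 2) ^ j ∧ (∀ t ∈ L, inS S t ∧ t ⊆ B ∪ A) ∧
      δ + d * A.card + y ≤ L.card + Vt.card ∧ Z.card ≤ (2 * d + 3) * y ∧ C ⊆ Rt ∧
      (Rt \ C).card ≤ Z.card ^ (d + 2) + (T.filter fun c => ∀ w ∈ c, Rs S j (c.erase w)).card ∧
      (∀ x ∈ C, ∀ x' ∈ C, x ≠ x' → Disjoint (W x) (W x')) ∧
      ∀ c ⊆ B, c.card = d + 2 →
        (∀ M : Submodule (ZMod 2) (Finset (Fin n) → ZMod 2), (∀ x ∈ Rt, bd d x ∈ M) →
          (∀ x ∈ Vt, bd d x ∈ M) → ∀ w ∈ c, bd d (c.erase w) ∈ M) → c ⊆ Z ∨ c ∈ T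

end Pool.Agent.MP_8f9e6e_pr

end

section

/-! Canonical witnesses. -/

open Finset Filter

namespace Pool.Agent.MP_8f9e6e_pr

variable {n d : ℕ}

theorem face_of_cell {s t : Finset (Fin n)} {u : Fin n} (hu : u ∉ s) (h1 : t ⊆ insert u s)
    (h2 : t.card = s.card) (h3 : t ≠ s) : ∃ w ∈ s, t = insert u (s.erase w) := by
  obtain ⟨w, hw, hw'⟩ := exists_mem_notMem_of_card_lt_card (s := t) (t := insert u s)
    (by rw [card_insert_of_notMem hu]; omega)
  have e : t = (insert u s).erase w := eq_of_subset_of_card_le (subset_erase.2 ⟨h1, hw'⟩)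
    (by rw [card_erase_of_mem hw, card_insert_of_notMem hu]; omega)
  rcases mem_insert.1 hw with rfl | hw
  · exact absurd (e.trans (erase_insert hu)) h3
  · exact ⟨w, hw, e.trans (erase_insert_of_ne (ne_of_mem_of_not_mem hw hu).symm)⟩

theorem ov_apex [Nonempty (Fin n)] (S : Finset (Face n d)) :
    ∃ (a : Finset (Fin n) → Fin n) (h : Finset (Fin n) → ℕ), ∀ x i, Rs S i x → h x ≤ i ∧
      (¬ inS S x → a x ∉ x ∧ ∀ w ∈ x, Rs S (h x - 1) (insert (a x) (x.erase w)) ∧
        h (insert (a x) (x.erase w)) < h x) := by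
  have key : ∀ x, (∃ i, Rs S i x) → ¬ inS S x → ∃ u, u ∉ x ∧ ∀ w ∈ x,
      Rs S (sInf {k | Rs S k x} - 1) (insert u (x.erase w)) ∧
        sInf {k | Rs S k (insert u (x.erase w))} < sInf {k | Rs S k x} := by
    intro x h1 h2
    have h3 : Rs S (sInf {k | Rs S k x}) x := Nat.sInf_mem (s := {k | Rs S k x}) h1
    cases hk : sInf {k | Rs S k x} with
    | zero =>
      rw [hk] at h3
      exact absurd h3 h2
    | succ k =>
      rw [hk] at h3
      rcases h3 with h | ⟨-, u, c2, c3⟩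
      · have := Nat.sInf_le (s := {k | Rs S k x}) h
        omega
      · exact ⟨u, c2, fun w hw => ⟨c3 w hw,
          Nat.lt_succ_of_le (Nat.sInf_le (s := {k | Rs S k _}) (c3 w hw))⟩⟩
  choose! a ha using key
  exact ⟨a, fun x => sInf {k | Rs S k x}, fun x i hx =>
    ⟨Nat.sInf_le (s := {k | Rs S k x}) hx, ha x ⟨i, hx⟩⟩⟩

theorem exists_ov (hd : 2 ≤ d) (S : Finset (Face n d)) : ∃ W, OV S W := by
  classical
  rcases isEmpty_or_nonempty (Fin n) with hn | hn
  · have no : ∀ i x, ¬ Rs S i x := fun i x h => by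
      have := h.card
      rw [eq_empty_of_isEmpty x] at this
      simp at this
    refine ⟨fun _ => ∅, fun _ => empty_subset _, fun x i h => (no i x h).elim,
      fun j B δ T Rt Vt h1 h2 => ?_⟩
    obtain rfl : Rt = ∅ := eq_empty_of_forall_notMem fun x hx => no j x (h1 x hx).2
    obtain ⟨y, Z, -, z2, z3, -⟩ := (h2 (Submodule.span (ZMod 2) (bd d '' (Vt : Set _))) (by simp)
      fun x hx => Submodule.subset_span ⟨x, hx, rfl⟩).rank hd _ fun _ h => h
    have := z3.trans ((Submodule.finrank_mono inf_le_left).trans (finrank_span_bd Vt))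
    exact ⟨∅, Z, ∅, ∅, y, by simp, by simp, by simpa using this, z2, by simp, by simp only [sdiff_self, bot_eq_empty, card_empty, IsEmpty.forall_iff, filter_true, zero_le], by simp,
      fun c _ _ _ => Or.inl (by rw [eq_empty_of_isEmpty c]; exact empty_subset _)⟩
  obtain ⟨a, h, ha⟩ := ov_apex S
  set S' : Set (Finset (Fin n)) := {g | inS S g} with hS'
  have sub : ∀ x, x ∉ S' → ∀ w ∈ x, desc S' a (insert (a x) (x.erase w)) ⊆ desc S' a x :=
    fun x hx w hw y hy => mem_desc.2 (.head ⟨hx, w, hw, rfl⟩ (mem_desc.1 hy))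
  have low : ∀ i x, Rs S (i + 1) x → x ∉ S' → ∀ w ∈ x, Rs S i (insert (a x) (x.erase w)) :=
    fun i x hx hs w hw => (((ha x _ hx).2 hs).2 w hw).1.mono (by have := (ha x _ hx).1; omega)
  have low' : ∀ i x, Rs S i x → x ∉ S' → ∀ w ∈ x, Rs S i (insert (a x) (x.erase w)) :=
    fun i x hx => low i x (Or.inl hx)
  have wit : ∀ i x, Rs S i x → ∀ T : Finset (Face n d),
      (∀ f ∈ S, f.1 ∈ desc S' a x → f ∈ T) → Rs T i x := by
    intro i
    induction i with
    | zero => exact fun x hx T hT => ⟨hx.1, hT _ hx.2 self_desc⟩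
    | succ i ih =>
      intro x hx T hT
      by_cases hs : x ∈ S'
      · exact Rd.mono (Nat.zero_le _) (show Rs T 0 x from ⟨hs.1, hT _ hs.2 self_desc⟩)
      · exact Or.inr ⟨hx.card, a x, ((ha x _ hx).2 hs).1, fun w hw =>
          ih _ (low i x hx hs w hw) T fun f f1 f2 => hT f f1 (sub x hs w hw f2)⟩
  have crd : ∀ i x, Rs S i x → (desc S' a x).card ≤ (d + 2) ^ i := by
    intro i
    induction i with
    | zero => exact fun x hx => by rw [desc_src hx]; simp
    | succ i ih =>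
      intro x hx
      by_cases hs : x ∈ S'
      · rw [desc_src hs, card_singleton]
        exact Nat.one_le_pow _ _ (by omega)
      · have e1 : desc S' a x ⊆
            insert x (x.biUnion fun w => desc S' a (insert (a x) (x.erase w))) := fun y hy => by
          rcases (mem_desc.1 hy).cases_head with h' | ⟨_, ⟨-, w, hw, rfl⟩, h'⟩
          · exact h' ▸ mem_insert_self _ _
          · exact mem_insert_of_mem (mem_biUnion.2 ⟨w, hw, mem_desc.2 h'⟩)
        have e2 := card_biUnion_le_card_mul x _ _ fun w hw => ih _ (low i x hx hs w hw)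
        have e3 := (card_le_card e1).trans (card_insert_le _ _)
        have e4 : 1 ≤ (d + 2) ^ i := Nat.one_le_pow _ _ (by omega)
        rw [hx.card] at e2
        rw [pow_succ]
        linarith only [e2, e3, e4]
  refine ⟨fun x => S.filter fun f => f.1 ∈ desc S' a x, fun x => filter_subset _ _,
    fun x i hx => wit i x hx _ fun f f1 f2 => mem_filter.2 ⟨f1, f2⟩,
    fun j B δ T Rt Vt h1 h2 => ?_⟩
  set D := Rt.biUnion (desc S' a) with hD
  set E := D.filter (· ∉ S') with hE
  set L := D.filter (· ∈ S') with hL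
  have dR : ∀ x ∈ D, Rs S j x := fun x hx => by
    obtain ⟨r, r1, r2⟩ := mem_biUnion.1 hx
    exact desc_min (Rs S j) (h1 r r1).2 (low' j) r2
  have dC : ∀ x ∈ E, ∀ w ∈ x, insert (a x) (x.erase w) ∈ D := fun x hx w hw => by
    obtain ⟨r, r1, r2⟩ := mem_biUnion.1 (mem_filter.1 hx).1
    exact mem_biUnion.2 ⟨r, r1, step_desc r2 (mem_filter.1 hx).2 hw⟩
  have eS : ∀ x ∈ E, a x ∉ x ∧ ∀ w ∈ x, h (insert (a x) (x.erase w)) < h x := fun x hx =>
    have := (ha x j (dR x (mem_filter.1 hx).1)).2 (mem_filter.1 hx).2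
    ⟨this.1, fun w hw => (this.2 w hw).2⟩
  have dV : ∀ x ∈ D, x ⊆ B ∪ (E.filter fun t => h x < h t).image a := fun x hx => by
    obtain ⟨r, r1, r2⟩ := mem_biUnion.1 hx
    refine (desc_min (fun x => x ∈ D ∧ x ⊆ B ∪ (E.filter fun t => h x < h t).image a)
      ⟨mem_biUnion.2 ⟨r, r1, self_desc⟩, (h1 r r1).1.trans subset_union_left⟩
      (fun x hx hs w hw => ?_) r2).2
    have e1 : x ∈ E := mem_filter.2 ⟨hx.1, hs⟩
    have e2 := (eS x e1).2 w hw
    exact ⟨dC x e1 w hw, insert_subset (mem_union_right _ (mem_image_of_mem _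
      (mem_filter.2 ⟨e1, e2⟩))) ((erase_subset _ _).trans (hx.2.trans (union_subset_union_right
        (image_subset_image (monotone_filter_right _ fun t _ ht => lt_trans e2 ht)))))⟩
  set M := Submodule.span (ZMod 2) 
    (bd d '' ((L ∪ Vt : Finset (Finset (Fin n))) : Set (Finset (Fin n)))) with hM
  have dM : ∀ x ∈ D, bd d x ∈ M := by
    intro x
    induction hk : h x using Nat.strong_induction_on generalizing x with
    | _ k ih =>
      intro hx
      by_cases hs : x ∈ S'
      · exact Submodule.subset_span ⟨x, mem_coe.2 (mem_union_left _ (mem_filter.2 ⟨hx, hs⟩)), rfl⟩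
      · have e1 : x ∈ E := mem_filter.2 ⟨hx, hs⟩
        exact bd_first M (dR x hx).card (eS x e1).1 fun w hw =>
          ih _ (hk ▸ (eS x e1).2 w hw) _ rfl (dC x e1 w hw)
  have m1 : ∀ x ∈ Rt, bd d x ∈ M := fun x hx => dM x (mem_biUnion.2 ⟨x, hx, self_desc⟩)
  have m2 : ∀ x ∈ Vt, bd d x ∈ M := fun x hx =>
    Submodule.subset_span ⟨x, mem_coe.2 (mem_union_right _ hx), rfl⟩
  obtain ⟨ord, o1, o2⟩ : ∃ ord : Finset (Fin n) → ℕ, Function.Injective ord ∧
      ∀ x t, h x < h t → h t ≤ j → ord t < ord x := by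
    let e := Fintype.equivFin (Finset (Fin n))
    refine ⟨fun x => (j - h x) * Fintype.card (Finset (Fin n)) + e x, fun x t hx => ?_,
      fun x t a1 a2 => ?_⟩
    · have := congrArg (· % Fintype.card (Finset (Fin n))) hx
      simp only [Nat.mul_add_mod_self_right, Nat.mod_eq_of_lt (e _).2] at this
      exact e.injective (Fin.ext this)
    · have b1 := (e t).2
      have b2 : (j - h t + 1) * Fintype.card (Finset (Fin n)) ≤
        (j - h x) * Fintype.card (Finset (Fin n)) := Nat.mul_le_mul_right _ (by omega)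
      rw [add_mul, one_mul] at b2
      dsimp only
      omega
  have dO : ∀ x ∈ D, x ⊆ B ∪ (E.filter fun t => ord t < ord x).image a := fun x hx =>
    (dV x hx).trans (union_subset_union_right (image_subset_image (monotone_filter_right _
      fun t t1 t2 => o2 x t t2 (ha t j (dR t (mem_filter.1 t1).1)).1)))
  obtain ⟨T', i1, i2⟩ := (h2 M m1 m2).steps id a ord E o1.injOn fun s hs =>
    ⟨dO s (mem_filter.1 hs).1, (dR s (mem_filter.1 hs).1).card, fun w hw => dM _ (dC s hs w hw)⟩
  obtain ⟨y, Z, -, z2, z3, z4⟩ := i1.rank hd M fun _ h => h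
  have dB : ∀ x ∈ D, x ⊆ B ∪ E.image a := fun x hx =>
    (dO x hx).trans (union_subset_union_right (image_subset_image (filter_subset _ _)))
  set N := E.filter fun s => a s ∈ B ∪ (E.filter fun t => ord t < ord s).image a with hN
  have cinj : ∀ s ∈ E, ∀ t ∈ E, insert (a s) s = insert (a t) t → s = t := by
    intro s hs t ht e
    by_contra hne
    have c := (dR s (mem_filter.1 hs).1).card.trans (dR t (mem_filter.1 ht).1).card.symm
    obtain ⟨w, w1, w2⟩ := face_of_cell (eS s hs).1 (e ▸ subset_insert _ _) c.symm (Ne.symm hne)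
    obtain ⟨v, v1, v2⟩ := face_of_cell (eS t ht).1 (e ▸ subset_insert _ _) c hne
    have b1 := (eS s hs).2 w w1
    have b2 := (eS t ht).2 v v1
    rw [← w2] at b1
    rw [← v2] at b2
    omega
  have cD : ∀ s ∈ E, ∀ w ∈ insert (a s) s, (insert (a s) s).erase w ∈ D := fun s hs w hw => by
    rcases mem_insert.1 hw with rfl | hw
    · rw [erase_insert (eS s hs).1]
      exact (mem_filter.1 hs).1
    · rw [erase_insert_of_ne (ne_of_mem_of_not_mem hw (eS s hs).1).symm]
      exact dC s hs w hw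
  have cN : N.card ≤ Z.card ^ (d + 2) + (T.filter fun c => ∀ w ∈ c, Rs S j (c.erase w)).card := by
    refine (card_le_card_of_injOn (t := Z.powersetCard (d + 2) ∪
      T.filter fun c => ∀ w ∈ c, Rs S j (c.erase w)) (fun s => insert (a s) s) (fun s hs => ?_)
      fun s hs t ht => cinj s (mem_filter.1 hs).1 t (mem_filter.1 ht).1).trans
      ((card_union_le _ _).trans (Nat.add_le_add_right ?_ _))
    · obtain ⟨s1, s2⟩ := mem_filter.1 (mem_coe.1 hs)
      have c : (insert (a s) s).card = d + 2 := by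
        rw [card_insert_of_notMem (eS s s1).1, (dR s (mem_filter.1 s1).1).card]
      rcases z4 _ (mem_full.2 ⟨⟨insert_subset (mem_union_right _ (mem_image_of_mem _ s1))
        (dB s (mem_filter.1 s1).1), c⟩, fun w hw => dM _ (cD s s1 w hw)⟩) with b | b
      · exact mem_coe.2 (mem_union_left _ (mem_powersetCard.2 ⟨b, c⟩))
      · rcases i2 _ b with b | ⟨t, b1, b2, b3⟩
        · exact mem_coe.2 (mem_union_right _ (mem_filter.2 ⟨b, fun w hw => dR _ (cD s s1 w hw)⟩))
        · exact absurd (cinj s s1 t b1 b3 ▸ s2) b2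
    · rw [card_powersetCard]
      exact Nat.choose_le_pow _ _
  let tr : Finset (Fin n) → Finset (Fin n) → Prop := fun x y =>
    x ∈ E ∧ x ∉ N ∧ ∃ w ∈ x, insert (a x) (x.erase w) = y
  have t0 : ∀ x y, tr x y → a x ∈ y ∧ y ⊆ insert (a x) x ∧
      a x ∉ B ∪ (E.filter fun t => ord t < ord x).image a := by
    rintro x y ⟨b1, b2, w, -, rfl⟩
    exact ⟨mem_insert_self _ _, insert_subset_insert _ (erase_subset _ _),
      fun b => b2 (mem_filter.2 ⟨b1, b⟩)⟩
  have t1 : ∀ x x' y, tr x y → tr x' y → ¬ ord x < ord x' := fun x x' y b b' hlt => by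
    refine (t0 x' y b').2.2 ?_
    rcases mem_insert.1 ((t0 x y b).2.1 (t0 x' y b').1) with e | e
    · exact mem_union_right _ (mem_image.2 ⟨x, mem_filter.2 ⟨b.1, hlt⟩, e.symm⟩)
    · exact union_subset_union_right (image_subset_image (monotone_filter_right _
        fun r _ hr => lt_trans hr hlt)) (dO x (mem_filter.1 b.1).1 e)
  have t2 : ∀ x ∈ Rt, ∀ x' ∈ Rt, ∀ g, Relation.ReflTransGen tr x g →
      Relation.ReflTransGen tr x' g → x = x' := by
    intro x hx x' hx' g b b'
    have u : Relator.RightUnique (Function.swap tr) := fun y x x' b b' =>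
      o1 (le_antisymm (not_lt.1 (t1 x' x y b' b)) (not_lt.1 (t1 x x' y b b')))
    have no : ∀ x ∈ Rt, ∀ c, ¬ tr c x := fun x hx c b =>
      (t0 c x b).2.2 (mem_union_left _ ((h1 x hx).1 (t0 c x b).1))
    rcases Relation.ReflTransGen.total_of_right_unique u b.swap b'.swap with e | e
    · rcases e.cases_head with e | ⟨c, e, -⟩
      · exact e
      · exact (no x hx c e).elim
    · rcases e.cases_head with e | ⟨c, e, -⟩
      · exact e.symm
      · exact (no x' hx' c e).elim
  refine ⟨E.image a \ B, Z, L, Rt.filter fun x => ∀ g ∈ desc S' a x, g ∉ N, y, ?_,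
    fun t ht => ⟨(mem_filter.1 ht).2, by
      rw [union_sdiff_self_eq_union]; exact dB t (mem_filter.1 ht).1⟩,
    z3.trans ((Submodule.finrank_mono inf_le_left).trans
      ((finrank_span_bd _).trans (card_union_le _ _))), z2, filter_subset _ _, le_trans ?_ cN,
    fun x hx x' hx' hne => disjoint_left.2 fun f f1 f2 => hne ?_, fun c c1 c2 c3 => ?_⟩
  · exact (card_le_card sdiff_subset).trans (card_image_le.trans ((card_filter_le _ _).trans
      (card_biUnion_le_card_mul _ _ _ fun x hx => crd j x (h1 x hx).2)))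
  · have key : ∀ x ∈ Rt \ Rt.filter fun x => ∀ g ∈ desc S' a x, g ∉ N,
        ∃ g ∈ N, Relation.ReflTransGen tr x g := by
      intro x hx
      obtain ⟨x1, x2⟩ := mem_sdiff.1 hx
      obtain ⟨g, g1, g2⟩ : ∃ g ∈ desc S' a x, g ∈ N := by
        by_contra hc
        exact x2 (mem_filter.2 ⟨x1, fun g g1 g2 => hc ⟨g, g1, g2⟩⟩)
      have x3 : x ∈ D := mem_biUnion.2 ⟨x, x1, self_desc⟩
      clear x1 x2 hx
      rw [mem_desc] at g1
      induction g1 using Relation.ReflTransGen.head_induction_on with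
      | refl => exact ⟨g, g2, .refl⟩
      | head b _ ih =>
        rename_i x y _
        obtain ⟨b1, w, b2, rfl⟩ := b
        have e1 : x ∈ E := mem_filter.2 ⟨x3, b1⟩
        by_cases hx : x ∈ N
        · exact ⟨x, hx, .refl⟩
        · obtain ⟨g', g3, g4⟩ := ih (dC x e1 w b2)
          exact ⟨g', g3, .head ⟨e1, hx, w, b2, rfl⟩ g4⟩
    choose! g g1 g2 using key
    exact card_le_card_of_injOn g g1 fun x hx x' hx' e =>
      t2 x (mem_sdiff.1 hx).1 x' (mem_sdiff.1 hx').1 _ (g2 x hx) (e ▸ g2 x' hx')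
  · have key : ∀ x ∈ Rt.filter fun x => ∀ g ∈ desc S' a x, g ∉ N, ∀ z ∈ desc S' a x,
        Relation.ReflTransGen tr x z := by
      intro x hx z hz
      rw [mem_desc] at hz
      induction hz with
      | refl => exact .refl
      | tail b c ih =>
        exact ih.tail ⟨mem_filter.2 ⟨mem_biUnion.2 ⟨x, (mem_filter.1 hx).1, mem_desc.2 b⟩, c.1⟩,
          (mem_filter.1 hx).2 _ (mem_desc.2 b), c.2⟩
    exact t2 x (mem_filter.1 hx).1 x' (mem_filter.1 hx').1 f.1 (key x hx _ (mem_filter.1 f1).2)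
      (key x' hx' _ (mem_filter.1 f2).2)
  · refine (z4 c (mem_full.2 ⟨⟨c1.trans subset_union_left, c2⟩, c3 M m1 m2⟩)).imp_right fun b => ?_
    rcases i2 c b with b | ⟨t, -, b2, b3⟩
    · exact b
    · exact absurd (mem_union_left _ (c1 (b3 ▸ mem_insert_self _ _))) b2

end Pool.Agent.MP_8f9e6e_pr

end

section

/-! The truncated mean size of a component. -/

open Finset Filter

namespace Pool.Agent.MP_8f9e6e_pr

variable {n d : ℕ}

/-- The end of a path. -/
def pend : Finset (Fin n) → List (Fin n × Fin n) → Finset (Fin n)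
  | g, [] => g
  | g, x :: l => pend (insert x.1 (g.erase x.2)) l

/-- The faces that support a path. -/
def pslots : Finset (Fin n) → List (Fin n × Fin n) → Finset (Finset (Fin n))
  | _, [] => ∅
  | g, x :: l => ((g.erase x.2).image fun v => insert x.1 (g.erase v)) ∪
      pslots (insert x.1 (g.erase x.2)) l

/-- The cells of a path. -/
def pcells : Finset (Fin n) → List (Fin n × Fin n) → Finset (Finset (Fin n))
  | _, [] => ∅
  | g, x :: l => insert (insert x.1 g) (pcells (insert x.1 (g.erase x.2)) l)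

/-- The new vertices of a path. -/
def pvs (l : List (Fin n × Fin n)) : Finset (Fin n) := (l.map Prod.fst).toFinset

/-- Paths whose apexes are new. -/
def POk : Finset (Fin n) → Finset (Fin n) → List (Fin n × Fin n) → Prop
  | _, _, [] => True
  | B, g, x :: l => x.1 ∉ B ∧ x.2 ∈ g ∧ POk (insert x.1 B) (insert x.1 (g.erase x.2)) l

/-- The paths of bounded length. -/
def Pth : ℕ → Finset (Fin n) → Finset (Fin n) → Finset (List (Fin n × Fin n))
  | 0, _, _ => {[]}
  | r + 1, B, g => insert [] ((Bᶜ ×ˢ g).biUnion fun x =>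
      (Pth r (insert x.1 B) (insert x.1 (g.erase x.2))).image (x :: ·))

variable {B g : Finset (Fin n)} {l l' : List (Fin n × Fin n)} {x : Fin n × Fin n}

theorem pvs_nil : pvs ([] : List (Fin n × Fin n)) = ∅ := rfl

theorem pvs_cons : pvs (x :: l) = insert x.1 (pvs l) := by simp only [pvs, List.map_cons, List.toFinset_cons]

theorem pvs_append : pvs (l ++ l') = pvs l ∪ pvs l' := by simp [pvs]

theorem card_pvs : (pvs l).card ≤ l.length := by
  simpa [pvs] using List.toFinset_card_le (l.map Prod.fst)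

theorem pend_append : pend g (l ++ l') = pend (pend g l) l' := by
  induction l generalizing g with
  | nil => rfl
  | cons x l ih => exact ih

theorem pslots_append : pslots g (l ++ l') = pslots g l ∪ pslots (pend g l) l' := by
  induction l generalizing g with
  | nil => simp [pslots, pend]
  | cons x l ih => simp only [List.cons_append, pslots, pend, ih, union_assoc]

theorem pcells_append : pcells g (l ++ l') = pcells g l ∪ pcells (pend g l) l' := by
  induction l generalizing g with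
  | nil => simp [pcells, pend]
  | cons x l ih => simp only [List.cons_append, pcells, pend, ih, insert_union]

theorem pok_append : POk B g (l ++ l') ↔ POk B g l ∧ POk (B ∪ pvs l) (pend g l) l' := by
  induction l generalizing B g with
  | nil => simp [POk, pend, pvs_nil]
  | cons x l ih => simp only [List.cons_append, POk, pend, ih, pvs_cons, and_assoc, union_insert,
      insert_union]

theorem POk.anti {B' : Finset (Fin n)} (h : POk B g l) (h' : B' ⊆ B) : POk B' g l := by
  induction l generalizing B B' g with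
  | nil => trivial
  | cons x l ih => exact ⟨fun e => h.1 (h' e), h.2.1, ih h.2.2 (insert_subset_insert _ h')⟩

theorem mem_Pth {r : ℕ} : l ∈ Pth r B g ↔ l.length ≤ r ∧ POk B g l := by
  induction r generalizing B g l with
  | zero => cases l <;> simp [Pth, POk]
  | succ r ih =>
    cases l with
    | nil => simp only [Pth, product_biUnion, mem_insert, mem_biUnion, mem_compl, mem_image, reduceCtorEq, and_false, exists_const, exists_false, or_false, List.length_nil, le_add_iff_nonneg_left, zero_le, POk, and_self]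
    | cons x l =>
      simp only [Pth, POk, mem_insert, mem_biUnion, mem_image, ih, mem_product, mem_compl,
        List.cons.injEq, List.length_cons, Nat.add_le_add_iff_right, reduceCtorEq, false_or]
      constructor
      · rintro ⟨_, ⟨a, b⟩, _, ⟨c, e⟩, rfl, rfl⟩
        exact ⟨c, a, b, e⟩
      · rintro ⟨c, a, b, e⟩
        exact ⟨x, ⟨a, b⟩, l, ⟨c, e⟩, rfl, rfl⟩

theorem pstep_sub (h : g ⊆ B) : insert x.1 (g.erase x.2) ⊆ insert x.1 B :=
  insert_subset_insert _ ((erase_subset _ _).trans h)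

theorem pstep_card (h : g ⊆ B) (hg : g.card = d + 1) (h1 : x.1 ∉ B) (h2 : x.2 ∈ g) :
    (insert x.1 (g.erase x.2)).card = d + 1 := by
  rw [card_insert_of_notMem fun e => h1 (h (mem_of_mem_erase e)), card_erase_add_one h2, hg]

theorem path_sub (h : g ⊆ B) : pend g l ⊆ B ∪ pvs l ∧ (∀ y ∈ pslots g l, y ⊆ B ∪ pvs l) ∧
    ∀ y ∈ pcells g l, y ⊆ B ∪ pvs l := by
  induction l generalizing B g with
  | nil => simpa only [pend, pvs_nil, union_empty, pslots, notMem_empty, IsEmpty.forall_iff, implies_true, pcells, and_self, and_true] using h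
  | cons x l ih =>
    obtain ⟨a, b, c⟩ := ih (pstep_sub (x := x) h)
    rw [pvs_cons, union_insert, ← insert_union]
    refine ⟨a, fun y hy => ?_, fun y hy => ?_⟩
    · rcases mem_union.1 hy with e | e
      · obtain ⟨v, -, rfl⟩ := mem_image.1 e
        exact (insert_subset_insert _ ((erase_subset _ _).trans h)).trans subset_union_left
      · exact b y e
    · rcases mem_insert.1 hy with rfl | e
      · exact (insert_subset_insert _ h).trans subset_union_left
      · exact c y e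

theorem POk.new (h : POk B g l) : (l ≠ [] → ¬ pend g l ⊆ B) ∧ (∀ y ∈ pslots g l, ¬ y ⊆ B) ∧
    (pvs l).card = l.length ∧ Disjoint B (pvs l) := by
  induction l generalizing B g with
  | nil => simp [pslots, pvs_nil]
  | cons x l ih =>
    obtain ⟨a, b, c, e⟩ := ih h.2.2
    have f := disjoint_insert_left.1 e
    refine ⟨fun _ hs => ?_, fun y hy hs => ?_, by
      rw [pvs_cons, card_insert_of_notMem f.1, c]; rfl, by
      rw [pvs_cons]; exact disjoint_insert_right.2 ⟨h.1, f.2⟩⟩
    · by_cases hl : l = []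
      · subst hl
        exact h.1 (hs (mem_insert_self _ _))
      · exact a hl (hs.trans (subset_insert _ _))
    · rcases mem_union.1 hy with e | e
      · obtain ⟨v, -, rfl⟩ := mem_image.1 e
        exact h.1 (hs (mem_insert_self _ _))
      · exact b y e (hs.trans (subset_insert _ _))

theorem POk.card (h : POk B g l) (h1 : g ⊆ B) (hg : g.card = d + 1) :
    (pend g l).card = d + 1 ∧ (pslots g l).card = d * l.length ∧
      ∀ y ∈ pslots g l, y.card = d + 1 := by
  induction l generalizing B g with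
  | nil => simp [pslots, pend, hg]
  | cons x l ih =>
    obtain ⟨a, b, c⟩ := ih h.2.2 (pstep_sub h1) (pstep_card h1 hg h.1 h.2.1)
    obtain ⟨e1, e2⟩ := faces_spec hg (fun e => h.1 (h1 e)) h.2.1
    refine ⟨a, ?_, fun y hy => (mem_union.1 hy).elim (fun e => (e2 y e).2.1) (c y)⟩
    rw [pslots, card_union_of_disjoint (disjoint_left.2 fun y y1 y2 => h.2.2.new.2.1 y y2
      ((e2 y y1).1.trans (insert_subset_insert _ h1))), e1, b, List.length_cons]
    ring

theorem POk.two {B₀ : Finset (Fin n)} (h : POk B g l) (h0 : B₀ ⊆ B) (h1 : g ⊆ B)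
    (h2 : ¬ g ⊆ B₀) : ∀ c ∈ pcells g l, ∀ u, ¬ c ⊆ insert u B₀ := by
  induction l generalizing B g with
  | nil => simp only [pcells, notMem_empty, IsEmpty.forall_iff, implies_true]
  | cons x l ih =>
    intro c hc u hu
    rcases mem_insert.1 hc with rfl | hc
    · rcases mem_insert.1 (hu (mem_insert_self _ _)) with e | e
      · exact h2 ((subset_insert_iff_of_notMem fun f => h.1 (e ▸ h1 f)).1
          ((subset_insert _ _).trans hu))
      · exact h.1 (h0 e)
    · exact ih h.2.2 (h0.trans (subset_insert _ _)) (pstep_sub h1)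
        (fun e => h.1 (h0 (e (mem_insert_self _ _)))) c hc u hu

theorem POk.lev {M : Submodule (ZMod 2) (Finset (Fin n) → ZMod 2)} {δ : ℕ}
    {T : Finset (Finset (Fin n))} (h : POk B g l) (h1 : g ⊆ B) (hg : g.card = d + 1)
    (h2 : bd d g ∈ M) (h3 : ∀ y ∈ pslots g l, bd d y ∈ M)
    (hB : Lev d (fun x => bd d x ∈ M) B δ T) :
    Lev d (fun x => bd d x ∈ M) (B ∪ pvs l) (δ + d * l.length) (T ∪ pcells g l) ∧
      bd d (pend g l) ∈ M := by
  induction l generalizing B g δ T with
  | nil => simpa [pvs_nil, pcells, pend, h2] using hB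
  | cons x l ih =>
    have e0 : ∀ w ∈ g.erase x.2, bd d (insert x.1 (g.erase w)) ∈ M := fun w hw =>
      h3 _ (mem_union_left _ (mem_image_of_mem _ hw))
    have e1 := bd_last M hg (fun e => h.1 (h1 e)) h.2.1 h2 e0
    have := ih h.2.2 (pstep_sub h1) (pstep_card h1 hg h.1 h.2.1) e1
      (fun y hy => h3 y (mem_union_right _ hy)) (hB.tree h1 hg h.1 fun w hw => by
        by_cases e : w = x.2
        · exact e ▸ e1
        · exact e0 w (mem_erase.2 ⟨e, hw⟩))
    rwa [insert_union, ← union_insert, ← pvs_cons, insert_union, ← union_insert, add_assoc,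
      ← mul_one_add, add_comm 1] at this

theorem POk.back {M : Submodule (ZMod 2) (Finset (Fin n) → ZMod 2)} (h : POk B g l) (h1 : g ⊆ B)
    (hg : g.card = d + 1) (h3 : ∀ y ∈ pslots g l, bd d y ∈ M) :
    (bd d (pend g l) ∈ M → bd d g ∈ M) ∧
      ∀ c ∈ pcells g l, (∀ w ∈ c, bd d (c.erase w) ∈ M) → bd d g ∈ M := by
  induction l generalizing B g with
  | nil => simp only [pend, imp_self, pcells, notMem_empty, IsEmpty.forall_iff, implies_true, and_self]
  | cons x l ih =>
    have hu : x.1 ∉ g := fun e => h.1 (h1 e)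
    obtain ⟨a, b⟩ := ih h.2.2 (pstep_sub h1) (pstep_card h1 hg h.1 h.2.1)
      fun y hy => h3 y (mem_union_right _ hy)
    have e1 : bd d (insert x.1 (g.erase x.2)) ∈ M → bd d g ∈ M := fun e1 =>
      bd_first M hg hu fun w hw => by
        by_cases e : w = x.2
        · exact e ▸ e1
        · exact h3 _ (mem_union_left _ (mem_image_of_mem _ (mem_erase.2 ⟨e, hw⟩)))
    refine ⟨fun e => e1 (a e), fun c hc e => ?_⟩
    rcases mem_insert.1 hc with rfl | hc
    · simpa [erase_insert hu] using e x.1 (mem_insert_self _ _)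
    · exact e1 (b c hc e)

theorem POk.cl {Q : Finset (Fin n) → Prop} {f : Finset (Fin n)} {X : Finset (Finset (Fin n))}
    (h : POk B g l) (h1 : g ⊆ B) (hg : g.card = d + 1) (h3 : ∀ y ∈ pslots g l, Q y)
    (hX : Cl d Q f X) (h4 : g ∈ X) : ∃ Y, X ⊆ Y ∧ Cl d Q f Y ∧ pend g l ∈ Y := by
  induction l generalizing B g X with
  | nil => exact ⟨X, Subset.rfl, hX, h4⟩
  | cons x l ih =>
    obtain ⟨Y, a, b⟩ := ih h.2.2 (pstep_sub h1) (pstep_card h1 hg h.1 h.2.1)
      (fun y hy => h3 y (mem_union_right _ hy)) (.step X g _ hX h4 ⟨hg, x.1, fun e => h.1 (h1 e),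
        x.2, h.2.1, rfl, fun w hw => h3 _ (mem_union_left _ (mem_image_of_mem _ hw))⟩)
      (mem_insert_self _ _)
    exact ⟨Y, (subset_insert _ _).trans a, b⟩

theorem sum_Pth (r : ℕ) (F : List (Fin n × Fin n) → ℝ) : ∑ l ∈ Pth (r + 1) B g, F l = F [] +
    ∑ x ∈ Bᶜ ×ˢ g, ∑ l ∈ Pth r (insert x.1 B) (insert x.1 (g.erase x.2)), F (x :: l) := by
  rw [Pth, sum_insert (by simp), sum_biUnion fun x _ y _ h => disjoint_left.2 fun l l1 l2 => by
    obtain ⟨_, -, rfl⟩ := mem_image.1 l1
    obtain ⟨_, -, e⟩ := mem_image.1 l2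
    exact h (List.cons.inj e).1.symm]
  exact congrArg _ (sum_congr rfl fun x _ => sum_image fun a _ b _ e => (List.cons.inj e).2)

theorem Pth_le (r : ℕ) {t : ℝ} (ht : 0 ≤ t) (hg : g.card ≤ d + 1) :
    ∑ l ∈ Pth r B g, t ^ l.length ≤ ∑ i ∈ range (r + 1), (n * (d + 1) * t) ^ i := by
  induction r generalizing B g with
  | zero => simp [Pth]
  | succ r ih =>
    rw [sum_Pth, sum_range_succ', add_comm]
    refine add_le_add ((sum_le_card_nsmul _ _
      (t * ∑ i ∈ range (r + 1), (n * (d + 1) * t) ^ i) fun x hx => ?_).trans ?_) (by simp)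
    · simp only [List.length_cons, pow_succ', ← mul_sum]
      refine mul_le_mul_of_nonneg_left (ih ((card_insert_le _ _).trans ?_)) ht
      rwa [card_erase_add_one (mem_product.1 hx).2]
    · simp only [pow_succ', ← mul_sum, nsmul_eq_mul, card_product, ← mul_assoc]
      have e1 : (Bᶜ.card : ℝ) ≤ n := by exact_mod_cast (card_le_univ _).trans_eq (by simp only [Fintype.card_fin])
      have e2 : (g.card : ℝ) ≤ d + 1 := by exact_mod_cast hg
      push_cast
      gcongr

theorem Pth_ge (r : ℕ) {t K : ℝ} (ht : 0 ≤ t) (hK : K ≤ n) (h1 : g ⊆ B) (hg : g.card = d + 1)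
    (h2 : B.card + r ≤ K) :
    ∑ i ∈ range (r + 1), ((n - K) * (d + 1) * t) ^ i ≤ ∑ l ∈ Pth r B g, t ^ l.length := by
  induction r generalizing B g with
  | zero => simp [Pth]
  | succ r ih =>
    have k0 := sub_nonneg.2 hK
    rw [sum_Pth, sum_range_succ', add_comm]
    refine add_le_add (by simp) (le_trans ?_ (card_nsmul_le_sum _ _
      (t * ∑ i ∈ range (r + 1), ((n - K) * (d + 1) * t) ^ i) fun x hx => ?_))
    · simp only [pow_succ', ← mul_sum, nsmul_eq_mul, card_product, ← mul_assoc, hg]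
      have e1 : n - K ≤ (Bᶜ.card : ℝ) := by
        have := card_add_card_compl B
        rw [Fintype.card_fin] at this
        have e : (B.card : ℝ) + Bᶜ.card = n := by exact_mod_cast this
        push_cast at h2
        linarith only [e, h2]
      push_cast
      gcongr
    · have e := mem_compl.1 (mem_product.1 hx).1
      simp only [List.length_cons, pow_succ', ← mul_sum]
      refine mul_le_mul_of_nonneg_left (ih (pstep_sub h1)
        (pstep_card h1 hg e (mem_product.1 hx).2) ?_) ht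
      rw [card_insert_of_notMem e]
      push_cast at h2 ⊢
      linarith only [h2]

theorem chi_split (l₁ l₂ : List (Fin n × Fin n)) : ∃ c s₁ s₂, l₁ = c ++ s₁ ∧ l₂ = c ++ s₂ ∧
    ∀ x t₁ t₂, s₁ = x :: t₁ → s₂ ≠ x :: t₂ := by
  induction l₁ generalizing l₂ with
  | nil => exact ⟨[], [], l₂, rfl, rfl, by simp⟩
  | cons x l₁ ih =>
    by_cases h : ∃ t, l₂ = x :: t
    · obtain ⟨t, rfl⟩ := h
      obtain ⟨c, s₁, s₂, rfl, rfl, e⟩ := ih t
      exact ⟨x :: c, s₁, s₂, rfl, rfl, e⟩
    · exact ⟨[], x :: l₁, l₂, rfl, rfl, fun y t₁ t₂ e e' => h ⟨t₂, (List.cons.inj e).1 ▸ e'⟩⟩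

theorem chi_core {S : Finset (Face n d)} {W : Finset (Fin n) → Finset (Face n d)} (hW : OV S W)
    {j r R i : ℕ} (hDS : ¬ DS d B (r + R * (d + 2) ^ j) (d * i + 1) S) {U : Finset (Fin n)}
    {T Rt : Finset (Finset (Fin n))} (hU : U.card ≤ r) (hR : Rt.card ≤ R)
    (h1 : ∀ x ∈ Rt, x ⊆ B ∪ U ∧ Rs S j x)
    (h2 : ∀ M : Submodule (ZMod 2) (Finset (Fin n) → ZMod 2), (∀ x ∈ Rt, bd d x ∈ M) →
      bd d g ∈ M → Lev d (fun x => bd d x ∈ M) (B ∪ U) (1 + d * i + d * U.card) T) :
    (¬ ∀ M : Submodule (ZMod 2) (Finset (Fin n) → ZMod 2), (∀ x ∈ Rt, bd d x ∈ M) →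
      bd d g ∈ M) ∧
    (∀ c ⊆ B ∪ U, c.card = d + 2 →
      (∀ M : Submodule (ZMod 2) (Finset (Fin n) → ZMod 2), (∀ x ∈ Rt, bd d x ∈ M) →
        bd d g ∈ M → ∀ w ∈ c, bd d (c.erase w) ∈ M) → c ∈ T) ∧
    ((∀ c ∈ T, ¬ ∀ w ∈ c, Rs S j (c.erase w)) →
      ∀ x ∈ Rt, ∀ x' ∈ Rt, x ≠ x' → Disjoint (W x) (W x')) := by
  classical
  have ds : ∀ (A : Finset (Fin n)) (L : Finset (Finset (Fin n))), A.card ≤ Rt.card * (d + 2) ^ j →
      (∀ t ∈ L, inS S t ∧ t ⊆ B ∪ U ∪ A) → L.card ≤ d * i + d * U.card + d * A.card :=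
    fun A L a1 a2 => not_lt.1 fun hlt => hDS ⟨U ∪ A, (card_union_le _ _).trans (add_le_add hU
      (a1.trans (Nat.mul_le_mul_right _ hR))), L, by simpa only [union_assoc] using a2, by
        have := Nat.mul_le_mul_left d (card_union_le U A)
        rw [mul_add] at this
        omega⟩
  refine ⟨fun h => ?_, ?_⟩
  · obtain ⟨A, Z, L, C, y, a1, a2, a3, -⟩ := hW.2.2 j _ _ T Rt ∅ h1 fun M m1 _ => h2 M m1 (h M m1)
    have := ds A L a1 a2
    rw [card_empty] at a3
    omega
  obtain ⟨A, Z, L, C, y, a1, a2, a3, a4, a5, a6, a7, a8⟩ := hW.2.2 j _ _ T Rt {g} h1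
    fun M m1 m2 => h2 M m1 (m2 g (mem_singleton_self _))
  have := ds A L a1 a2
  rw [card_singleton] at a3
  obtain rfl : y = 0 := by omega
  obtain rfl : Z = ∅ := card_eq_zero.1 (by omega)
  refine ⟨fun c c1 c2 c3 => (a8 c c1 c2 fun M m1 m2 => c3 M m1
    (m2 g (mem_singleton_self _))).resolve_left fun e => ?_, fun h => ?_⟩
  · rw [subset_empty.1 e] at c2
    simp at c2
  · rw [filter_false_of_mem h] at a6
    have e : Rt ⊆ C := sdiff_eq_empty_iff_subset.1 (card_eq_zero.1 (by simpa using a6))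
    exact fun x hx x' hx' => a7 x (e hx) x' (e hx')

theorem chi_pair (hd : 2 ≤ d) {S : Finset (Face n d)} {W : Finset (Fin n) → Finset (Face n d)}
    (hW : OV S W) {j r : ℕ} (hg : g.card = d + 1) {l₁ l₂ : List (Fin n × Fin n)}
    (a1 : l₁ ∈ Pth r g g) (a2 : l₂ ∈ Pth r g g) (b1 : ∀ y ∈ pslots g l₁, Rs S j y)
    (b2 : ∀ y ∈ pslots g l₂, Rs S j y) (hDS : ¬ DS d (g ∪ pvs l₁)
      (r + (2 * (d * r) + (d + 2)) * (d + 2) ^ j) (d * l₁.length + 1) S) :
    ∃ c s₁ s₂, l₁ = c ++ s₁ ∧ l₂ = c ++ s₂ ∧ POk (g ∪ pvs l₁) (pend g c) s₂ ∧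
      ∀ x ∈ pslots g l₁ ∪ pslots (pend g c) s₂, ∀ x' ∈ pslots g l₁ ∪ pslots (pend g c) s₂,
        x ≠ x' → Disjoint (W x) (W x') := by
  classical
  obtain ⟨c, s₁, s₂, rfl, rfl, hne⟩ := chi_split l₁ l₂
  obtain ⟨a1, a3⟩ := mem_Pth.1 a1
  obtain ⟨a2, a4⟩ := mem_Pth.1 a2
  set l₁ := c ++ s₁ with hl
  have c0 := (pok_append.1 a3).1
  have c1 := (c0.card Subset.rfl hg).1
  have c2 : pend g c ⊆ g ∪ pvs c := (path_sub Subset.rfl).1
  have c3 : g ∪ pvs c ⊆ g ∪ pvs l₁ := by
    rw [hl, pvs_append]; exact union_subset_union_right subset_union_left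
  have c4 := (a3.card Subset.rfl hg).2.1.le.trans (Nat.mul_le_mul_left d a1)
  have c5 := (a4.card Subset.rfl hg).2.1.le.trans (Nat.mul_le_mul_left d a2)
  have c6 : pslots g c ⊆ pslots g l₁ := by rw [hl, pslots_append]; exact subset_union_left
  obtain ⟨v, hv⟩ := card_pos.1 (show 0 < g.card by omega)
  have lev : ∀ t, POk (g ∪ pvs l₁) (pend g c) t →
      ∀ M : Submodule (ZMod 2) (Finset (Fin n) → ZMod 2), (∀ y ∈ pslots g l₁, bd d y ∈ M) →
      (∀ y ∈ pslots (pend g c) t, bd d y ∈ M) → bd d g ∈ M →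
      Lev d (fun x => bd d x ∈ M) (g ∪ pvs l₁ ∪ pvs t) (1 + d * l₁.length + d * (pvs t).card)
        (pcells g l₁ ∪ pcells (pend g c) t) ∧ bd d (pend (pend g c) t) ∈ M := by
    intro t ht M m1 m2 m3
    have e0 : Lev d (fun x => bd d x ∈ M) g 1 ∅ := by
      simpa using Lev.nil.root hd hg m3 hv (notMem_empty _)
    have := ht.lev (c2.trans c3) c1 (c0.lev Subset.rfl hg m3 (fun y hy => m1 y (c6 hy)) e0).2 m2
      (a3.lev Subset.rfl hg m3 m1 e0).1
    rwa [empty_union, ← ht.new.2.2.1] at this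
  have key : ∀ t t', s₂ = t ++ t' → POk (g ∪ pvs l₁) (pend g c) t := by
    intro t
    induction t using List.reverseRecOn with
    | nil => exact fun _ _ => trivial
    | append_singleton t x ih =>
      intro t' e
      have ht := ih ([x] ++ t') (by rw [e, List.append_assoc])
      subst e
      obtain ⟨d1, d2⟩ := pok_append.1 (pok_append.1 (pok_append.1 a4).2).1
      refine pok_append.2 ⟨ht, fun hx => ?_, d2.2.1, trivial⟩
      have d3 := (d1.card c2 c1).1
      have d4 : pend (pend g c) t ⊆ g ∪ pvs c ∪ pvs t := (path_sub c2).1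
      have d5 : x.1 ∉ pend (pend g c) t := fun e => d2.1 (d4 e)
      have d6 : pslots (pend g c) (t ++ [x]) ⊆ pslots g (c ++ (t ++ [x] ++ t')) := by
        rw [pslots_append (l := c), pslots_append (l := t ++ [x])]
        exact subset_union_left.trans subset_union_right
      have d7 : pslots (pend g c) t ⊆ pslots (pend g c) (t ++ [x]) := by
        rw [pslots_append]; exact subset_union_left
      have d8 : ∀ w ∈ (pend (pend g c) t).erase x.2, insert x.1 ((pend (pend g c) t).erase w) ∈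
          pslots (pend g c) (t ++ [x]) := fun w hw => by
        rw [pslots_append]
        exact mem_union_right _ (mem_union_left _ (mem_image_of_mem _ hw))
      obtain ⟨k1, k2, -⟩ := chi_core (g := g) hW hDS (U := pvs t)
        (Rt := pslots g l₁ ∪ pslots (pend g c) (t ++ [x]))
        (card_pvs.trans (by simp at a2; omega))
        ((card_union_le _ _).trans (by have := card_le_card d6; omega))
        (fun y hy => by
          rcases mem_union.1 hy with e | e
          · exact ⟨((path_sub Subset.rfl).2.1 y e).trans subset_union_left, b1 y e⟩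
          · refine ⟨((path_sub (c2.trans c3)).2.1 y e).trans ?_, b2 y (d6 e)⟩
            rw [pvs_append (l := t), pvs_cons, pvs_nil, ← union_assoc]
            exact union_subset Subset.rfl (by simpa using hx))
        fun M m1 m2 => (lev t ht M (fun y hy => m1 y (mem_union_left _ hy))
          (fun y hy => m1 y (mem_union_right _ (d7 hy))) m2).1
      have k3 := k2 (insert x.1 (pend (pend g c) t)) (insert_subset hx (path_sub (c2.trans c3)).1)
        (by rw [card_insert_of_notMem d5, d3]) fun M m1 m2 w hw => by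
          have e1 := (lev t ht M (fun y hy => m1 y (mem_union_left _ hy))
            (fun y hy => m1 y (mem_union_right _ (d7 hy))) m2).2
          have e2 := fun w hw => m1 _ (mem_union_right _ (d8 w hw))
          rcases mem_insert.1 hw with rfl | hw
          · rwa [erase_insert d5]
          · rw [erase_insert_of_ne (ne_of_mem_of_not_mem hw d5).symm]
            by_cases e : w = x.2
            · exact e ▸ bd_last M d3 d5 d2.2.1 e1 e2
            · exact e2 w (mem_erase.2 ⟨e, hw⟩)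
      rw [hl, pcells_append] at k3
      simp only [mem_union] at k3
      rcases k3 with (k3 | k3) | k3
      · exact d2.1 (mem_union_left _ ((path_sub Subset.rfl).2.2 _ k3 (mem_insert_self _ _)))
      swap
      · exact d2.1 ((path_sub c2).2.2 _ k3 (mem_insert_self _ _))
      obtain rfl : t = [] := by
        by_contra e
        refine ht.new.1 e ((subset_insert _ _).trans (((path_sub c2).2.2 _ k3).trans ?_))
        rw [hl, pvs_append, union_assoc]
      have f0 := (pok_append.1 a3).2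
      cases s₁ with
      | nil => simp [pcells] at k3
      | cons y s₁ =>
        rcases mem_insert.1 k3 with k3 | k3
        swap
        · exact f0.2.2.two (subset_insert _ _) (pstep_sub c2)
            (fun e => f0.1 (e (mem_insert_self _ _))) _ k3 x.1 (insert_subset_insert _ c2)
        have f1 : x.1 = y.1 := (mem_insert.1 (k3 ▸ mem_insert_self x.1 (pend (pend g c) []) :
          x.1 ∈ insert y.1 (pend g c))).resolve_right d5
        have f2 : x.2 ≠ y.2 := fun e => hne y s₁ t' rfl (by rw [← Prod.ext f1 e]; rfl)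
        refine k1 fun M m1 => (c0.back Subset.rfl hg fun z hz =>
          m1 z (mem_union_left _ (c6 hz))).1 (bd_first M c1 d5 fun w hw => ?_)
        by_cases e : w = x.2
        · refine m1 _ (mem_union_left _ ?_)
          rw [hl, pslots_append, f1]
          exact mem_union_right _ (mem_union_left _ (mem_image_of_mem _
            (mem_erase.2 ⟨e ▸ f2, hw⟩)))
        · exact m1 _ (mem_union_right _ (d8 w (mem_erase.2 ⟨e, hw⟩)))
  have ht := key s₂ [] (by simp)
  have d6 : pslots (pend g c) s₂ ⊆ pslots g (c ++ s₂) := by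
    rw [pslots_append]; exact subset_union_right
  have d7 := (card_union_le (pslots g l₁) (pslots (pend g c) s₂)).trans
    (add_le_add c4 ((card_le_card d6).trans c5))
  have d8 : (pvs s₂).card ≤ r := card_pvs.trans (by simp at a2; omega)
  have d9 : ∀ y ∈ pslots g l₁ ∪ pslots (pend g c) s₂, y ⊆ g ∪ pvs l₁ ∪ pvs s₂ ∧ Rs S j y :=
    fun y hy => (mem_union.1 hy).elim
      (fun e => ⟨((path_sub Subset.rfl).2.1 y e).trans subset_union_left, b1 y e⟩)
      fun e => ⟨(path_sub (c2.trans c3)).2.1 y e, b2 y (d6 e)⟩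
  refine ⟨c, s₁, s₂, rfl, rfl, ht, (chi_core (g := g) hW hDS d8 (d7.trans (by omega)) d9
    fun M m1 m2 => (lev s₂ ht M (fun y hy => m1 y (mem_union_left _ hy))
      (fun y hy => m1 y (mem_union_right _ hy)) m2).1).2.2 fun σ s1 s2 => ?_⟩
  have s3 : σ ⊆ g ∪ pvs l₁ ∪ pvs s₂ := (mem_union.1 s1).elim
    (fun e => ((path_sub Subset.rfl).2.2 σ e).trans subset_union_left)
    ((path_sub (c2.trans c3)).2.2 σ)
  have s4 : (σ.image σ.erase).card ≤ d + 2 := card_image_le.trans (by
    rcases σ.eq_empty_or_nonempty with rfl | ⟨w, hw⟩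
    · simp
    · rw [← card_erase_add_one hw, (s2 w hw).card])
  refine (chi_core (g := g) hW hDS d8
    (Rt := pslots g l₁ ∪ pslots (pend g c) s₂ ∪ σ.image σ.erase)
    ((card_union_le _ _).trans (by omega)) (fun y hy => (mem_union.1 hy).elim (d9 y) fun e => ?_)
    fun M m1 m2 => (lev s₂ ht M (fun y hy => m1 y (mem_union_left _ (mem_union_left _ hy)))
      (fun y hy => m1 y (mem_union_left _ (mem_union_right _ hy))) m2).1).1 fun M m1 => ?_
  · obtain ⟨w, hw, rfl⟩ := mem_image.1 e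
    exact ⟨(erase_subset _ _).trans s3, s2 w hw⟩
  · have m2 := fun w hw => m1 _ (mem_union_right _ (mem_image_of_mem σ.erase (a := w) hw))
    have m3 := fun y hy => m1 y (mem_union_left _ (mem_union_left _ hy))
    rcases mem_union.1 s1 with e | e
    · exact (a3.back Subset.rfl hg m3).2 σ e m2
    · exact (c0.back Subset.rfl hg fun y hy => m3 y (c6 hy)).1 ((ht.back (c2.trans c3) c1
        fun y hy => m1 y (mem_union_left _ (mem_union_right _ hy))).2 σ e m2)

open Classical in
theorem ex_card {α ι : Type} [Fintype α] (p : ℝ) (I : Finset ι) (E : ι → Finset α → Prop)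
    [∀ S, DecidablePred fun i => E i S] :
    ∑ S, wt p S * ((I.filter fun i => E i S).card : ℝ) = ∑ i ∈ I, Pr p (E i) := by
  simp only [Pr, natCast_card_filter, mul_sum]
  rw [sum_comm]
  exact sum_congr rfl fun i _ => sum_congr rfl fun S _ => by split_ifs <;> simp

theorem chi_low (hd : 2 ≤ d) (j r : ℕ) : ∃ C : ℝ, ∀ (n m : ℕ) (p a b : ℝ), 0 ≤ p → p ≤ 1 / 2 →
    n * p ^ d ≤ 1 → 0 ≤ b → a ≤ 1 → 0 < m → d + 1 + r ≤ n →
    (∀ x : Finset (Fin n), Pr p (fun S : Finset (Face n d) => Rs S j x) ≤ a) →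
    (∀ x : Finset (Fin n), x.card = d + 1 → b ≤ Pr p (fun S : Finset (Face n d) => Rs S j x)) →
    ∀ g : Finset (Fin n), g.card = d + 1 →
      ∑ i ∈ range (r + 1), ((n - (d + 1 + r)) * (d + 1) * b ^ d) ^ i - C * p -
        (∑ i ∈ range (r + 1), (n * (d + 1) * a ^ d) ^ i) ^ 3 / m ≤
      ∑ t ∈ Icc 1 m, Pr p (Hv (d := d) j t g) := by
  classical
  set V := r + (2 * (d * r) + (d + 2)) * (d + 2) ^ j with hV
  obtain ⟨c, hc⟩ : ∃ c : ℝ, c = cDS d (d + 1 + r) V (d * r + 1) := ⟨_, rfl⟩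
  refine ⟨c * ∑ i ∈ range (r + 1), (d + 1 : ℝ) ^ i,
    fun n m p a b h0 h1 hn b0 a1 m0 hr ha hb g hg => ?_⟩
  have h2 : p ≤ 1 := by linarith only [h1]
  have a0 : 0 ≤ a := (Pr_nonneg h0 h2 _).trans (ha g)
  let G : List (Fin n × Fin n) → Finset (Face n d) → Prop := fun l S =>
    (∀ y ∈ pslots g l, Rs S j y) ∧ ¬ DS d (g ∪ pvs l) V (d * l.length + 1) S
  let I := (Pth r g g).sigma fun c => Pth r ∅ (pend g c) ×ˢ Pth r ∅ (pend g c)
  let R : (Σ _ : List (Fin n × Fin n), List (Fin n × Fin n) × List (Fin n × Fin n)) →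
    Finset (Finset (Fin n)) := fun i => pslots g (i.1 ++ i.2.1) ∪ pslots (pend g i.1) i.2.2
  let E : (Σ _ : List (Fin n × Fin n), List (Fin n × Fin n) × List (Fin n × Fin n)) →
    Finset (Face n d) → Prop := fun i S =>
    d * i.1.length + d * i.2.1.length + d * i.2.2.length ≤ (R i).card ∧
      ∃ W : Finset (Fin n) → Finset (Face n d), (∀ x ∈ R i, W x ⊆ S ∧ Rs (W x) j x) ∧
        ∀ x ∈ R i, ∀ y ∈ R i, x ≠ y → Disjoint (W x) (W y)
  have e1 : ∑ i ∈ range (r + 1), ((n - (d + 1 + r)) * (d + 1) * b ^ d) ^ i -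
      (c * ∑ i ∈ range (r + 1), (d + 1 : ℝ) ^ i) * p ≤ ∑ l ∈ Pth r g g, Pr p (G l) := by
    have f1 := Pth_ge (d := d) (B := g) r (pow_nonneg b0 d) (K := d + 1 + r) (by exact_mod_cast hr)
      Subset.rfl hg (by rw [hg]; push_cast; rfl)
    have f2 := Pth_le (d := d) (B := g) r (pow_nonneg h0 d) hg.le
    have f3 : ∑ i ∈ range (r + 1), (n * (d + 1) * p ^ d : ℝ) ^ i ≤
        ∑ i ∈ range (r + 1), (d + 1 : ℝ) ^ i := sum_le_sum fun i _ =>
      pow_le_pow_left₀ (by positivity) (by nlinarith only [hn]) _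
    have f4 : ∑ l ∈ Pth r g g, ((b ^ d) ^ l.length - c * p * (p ^ d) ^ l.length) ≤
        ∑ l ∈ Pth r g g, Pr p (G l) := sum_le_sum fun l hl => by
      obtain ⟨l1, l2⟩ := mem_Pth.1 hl
      obtain ⟨-, l3, l4⟩ := l2.card Subset.rfl hg
      have g1 := harris_up_prod h0 h2 (pslots g l)
        (E := fun y (S : Finset (Face n d)) => Rs S j y) fun y _ => up_rs j y
      have g2 : ∏ _y ∈ pslots g l, b ≤ _ := prod_le_prod (fun _ _ => b0) fun y hy => hb y (l4 y hy)
      rw [prod_const, l3, pow_mul] at g2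
      have g3 := pr_ds h0 h2 hn (V := g ∪ pvs l) (v := d + 1 + r) ((card_union_le _ _).trans
        (add_le_add hg.le (card_pvs.trans l1))) V (d * l.length + 1)
      have g4 : (cDS d (d + 1 + r) V (d * l.length + 1) : ℝ) ≤ c := by
        rw [hc]
        exact_mod_cast Nat.mul_le_mul_left _ (Nat.pow_le_pow_right (by positivity)
          (by have := Nat.mul_le_mul_left d l1; omega))
      have g5 := mul_le_mul_of_nonneg_right g4 (pow_nonneg h0 (d * l.length + 1))
      have g6 := Pr_or_and p (G l) (DS d (g ∪ pvs l) V (d * l.length + 1))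
      have g7 := Pr_mono h0 h2 (E := fun S : Finset (Face n d) => ∀ y ∈ pslots g l, Rs S j y)
        (F := fun S => G l S ∨ DS d (g ∪ pvs l) V (d * l.length + 1) S)
        fun S hS => (em _).symm.imp_left fun e => ⟨hS, e⟩
      have g8 := Pr_nonneg h0 h2 fun S => G l S ∧ DS d (g ∪ pvs l) V (d * l.length + 1) S
      rw [pow_succ, pow_mul] at g3 g5
      linarith only [g1, g2, g3, g5, g6, g7, g8]
    rw [sum_sub_distrib, ← mul_sum] at f4
    have c0 : 0 ≤ c * p := by rw [hc]; positivity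
    linarith only [mul_le_mul_of_nonneg_left (f2.trans f3) c0, f1, f4]
  have e2 : ∑ i ∈ I, Pr p (E i) ≤ (∑ i ∈ range (r + 1), (n * (d + 1) * a ^ d : ℝ) ^ i) ^ 3 := by
    have f0 : 0 ≤ ∑ i ∈ range (r + 1), (n * (d + 1) * a ^ d : ℝ) ^ i := by positivity
    calc _ ≤ ∑ i ∈ I, (a ^ d) ^ i.1.length * ((a ^ d) ^ i.2.1.length * (a ^ d) ^ i.2.2.length) :=
          sum_le_sum fun i _ => by
            by_cases hi : d * i.1.length + d * i.2.1.length + d * i.2.2.length ≤ (R i).card
            · refine (Pr_mono h0 h2 fun S hS => hS.2).trans ((bk_prod h0 h1 (R i)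
                (E := fun y (S : Finset (Face n d)) => Rs S j y) fun y _ => up_rs j y).trans
                ((prod_le_prod (fun y _ => Pr_nonneg h0 h2 _) fun y _ => ha y).trans ?_))
              simp only [prod_const, ← pow_mul, ← pow_add, ← add_assoc]
              exact pow_le_pow_of_le_one a0 a1 hi
            · rw [Pr_false fun S hS => hi hS.1]
              positivity
      _ ≤ ∑ l ∈ Pth r g g, (a ^ d) ^ l.length *
          (∑ i ∈ range (r + 1), (n * (d + 1) * a ^ d : ℝ) ^ i) ^ 2 := by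
          rw [sum_sigma]
          refine sum_le_sum fun l hl => ?_
          have := Pth_le (d := d) (B := ∅) r (pow_nonneg a0 d)
            ((mem_Pth.1 hl).2.card Subset.rfl hg).1.le
          dsimp only
          rw [← mul_sum, sum_product]
          dsimp only
          rw [← sum_mul_sum, sq]
          gcongr
      _ ≤ _ := by
          rw [← sum_mul, pow_succ' _ 2]
          gcongr
          exact Pth_le r (pow_nonneg a0 d) hg.le
  have e3 : ∀ S : Finset (Face n d), (((Pth r g g).filter fun l => G l S).card : ℝ) -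
      ((I.filter fun i => E i S).card : ℝ) / m ≤
      (((Icc 1 m).filter fun t => Hv j t g S).card : ℝ) := by
    intro S
    obtain ⟨W, hW⟩ := exists_ov hd S
    set Z := (Pth r g g).filter fun l => G l S with hZ
    have pair : ∀ l₁ ∈ Z, ∀ l₂ ∈ Z, _ := fun l₁ h1 l₂ h2 => chi_pair hd hW hg (mem_filter.1 h1).1
      (mem_filter.1 h2).1 (mem_filter.1 h1).2.1 (mem_filter.1 h2).2.1 (mem_filter.1 h1).2.2
    have f1 : Z.card * Z.card ≤ (I.filter fun i => E i S).card := by
      rw [← card_product]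
      refine le_trans (card_le_card fun l hl => ?_)
        (card_image_le (f := fun i => (i.1 ++ i.2.1, i.1 ++ i.2.2)))
      obtain ⟨l1, l2⟩ := mem_product.1 hl
      obtain ⟨c, s₁, s₂, q1, q2, q3, q4⟩ := pair _ l1 _ l2
      obtain ⟨⟨r1, r2⟩, r3⟩ := (mem_filter.1 l1).imp_left mem_Pth.1
      obtain ⟨⟨r4, r5⟩, r6⟩ := (mem_filter.1 l2).imp_left mem_Pth.1
      rw [q1] at r1 r2 r3 q3 q4
      rw [q2] at r4 r5 r6
      rw [List.length_append] at r1 r4
      have r7 : pend g c ⊆ g ∪ pvs (c ++ s₁) := by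
        rw [pvs_append, ← union_assoc]
        exact (path_sub Subset.rfl).1.trans subset_union_left
      have r8 : ∀ x ∈ pslots g (c ++ s₁) ∪ pslots (pend g c) s₂, Rs S j x := fun x hx =>
        (mem_union.1 hx).elim (r3.1 x) fun e => r6.1 x (by
          rw [pslots_append]; exact mem_union_right _ e)
      refine mem_image.2 ⟨⟨c, s₁, s₂⟩, mem_filter.2 ⟨mem_sigma.2 ⟨mem_Pth.2
        ⟨by dsimp only; omega, (pok_append.1 r2).1⟩, mem_product.2 ⟨mem_Pth.2
        ⟨by dsimp only; omega, (pok_append.1 r2).2.anti (empty_subset _)⟩, mem_Pth.2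
        ⟨by dsimp only; omega, q3.anti (empty_subset _)⟩⟩⟩, ?_, W,
        fun x hx => ⟨hW.1 x, hW.2.1 x j (r8 x hx)⟩, q4⟩, Prod.ext q1.symm q2.symm⟩
      dsimp only [R]
      rw [card_union_of_disjoint (disjoint_left.2 fun y y1 y2 => q3.new.2.1 y y2
        ((path_sub Subset.rfl).2.1 y y1)), (r2.card Subset.rfl hg).2.1,
        (q3.card r7 ((pok_append.1 r2).1.card Subset.rfl hg).1).2.1, List.length_append, mul_add]
    obtain ⟨X, x1, x2, x3⟩ : ∃ X, Cl d (Rs S j) g X ∧ g ∈ X ∧ ∀ l ∈ Z, pend g l ∈ X := by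
      suffices h : ∀ Y ⊆ Z, ∃ X, Cl d (Rs S j) g X ∧ g ∈ X ∧ ∀ l ∈ Y, pend g l ∈ X from
        h Z Subset.rfl
      intro Y
      induction Y using Finset.induction_on with
      | empty => exact fun _ => ⟨_, .base, mem_singleton_self _, by simp⟩
      | insert l Y _ ih =>
        intro hY
        obtain ⟨X, x1, x2, x3⟩ := ih ((subset_insert _ _).trans hY)
        obtain ⟨l1, l2⟩ := mem_filter.1 (hY (mem_insert_self _ _))
        obtain ⟨X', y1, y2, y3⟩ := (mem_Pth.1 l1).2.cl Subset.rfl hg l2.1 x1 x2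
        exact ⟨X', y2, y1 x2, forall_mem_insert _ _ _ |>.2 ⟨y3, fun l hl => y1 (x3 l hl)⟩⟩
    have f2 : Z.card ≤ X.card := card_le_card_of_injOn (pend g) x3 fun l₁ h1 l₂ h2 e => by
      obtain ⟨c, s₁, s₂, q1, q2, q3, -⟩ := pair _ h1 _ h2
      have r2 := (mem_Pth.1 (mem_filter.1 h1).1).2
      have q4 : s₂ = [] := by
        by_contra hne
        exact q3.new.1 hne (by rw [← pend_append, ← q2, ← e]; exact (path_sub Subset.rfl).1)
      have q5 : s₁ = [] := by
        by_contra hne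
        rw [q1] at r2
        refine (pok_append.1 r2).2.new.1 hne ?_
        rw [← pend_append, ← q1, e, q2, q4, List.append_nil]
        exact (path_sub Subset.rfl).1
      rw [q1, q2, q4, q5]
    have f3 : min Z.card m ≤ ((Icc 1 m).filter fun t => Hv j t g S).card := by
      refine le_trans (by simp only [Nat.card_Icc, add_tsub_cancel_right, Std.le_refl]) (card_le_card (s := Icc 1 (min Z.card m)) fun t ht => ?_)
      obtain ⟨t1, t2⟩ := mem_Icc.1 ht
      exact mem_filter.2 ⟨mem_Icc.2 ⟨t1, by omega⟩, X, x1, by omega⟩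
    have m1 : (0 : ℝ) < m := by exact_mod_cast m0
    have f4 : (Z.card : ℝ) * Z.card / m ≤ (I.filter fun i => E i S).card / m :=
      div_le_div_of_nonneg_right (by exact_mod_cast f1) m1.le
    refine le_trans ?_ (Nat.cast_le.2 f3)
    rw [Nat.cast_min, le_min_iff]
    refine ⟨sub_le_self _ (by positivity), le_trans (sub_le_sub_left f4 _) ?_⟩
    rw [sub_le_iff_le_add, add_div' _ _ _ m1.ne', le_div_iff₀ m1]
    nlinarith only []
  have e4 := sum_le_sum fun S (_ : S ∈ univ) =>
    mul_le_mul_of_nonneg_left (e3 S) (wt_nonneg h0 h2 S)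
  simp only [mul_sub, ← mul_div_assoc] at e4
  rw [sum_sub_distrib, ← sum_div, ex_card, ex_card, ex_card] at e4
  have e5 := div_le_div_of_nonneg_right e2 (Nat.cast_nonneg (α := ℝ) m)
  linarith only [e1, e4, e5]

end Pool.Agent.MP_8f9e6e_pr

end

section

/-! Symmetry under relabelling. -/

open Finset Filter

namespace Pool.Agent.MP_8f9e6e_pr

variable {n d : ℕ}

theorem Gam.symm {Q : Finset (Fin n) → Prop} {g k : Finset (Fin n)} (h : Gam d Q g k) :
    Gam d Q k g := by
  have hc := h.card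
  obtain ⟨a, u, b, w, c, rfl, f⟩ := h
  have uw : u ≠ w := fun e => b (e ▸ c)
  have e1 : (insert u (g.erase w)).erase u = g.erase w := erase_insert (by simp [b])
  refine ⟨hc, w, by simp [uw.symm], u, mem_insert_self _ _, by rw [e1, insert_erase c],
    fun x hx => ?_⟩
  rw [e1] at hx
  have hx' := mem_erase.1 hx
  have xu : x ≠ u := fun e => b (e ▸ hx'.2)
  have : insert w ((insert u (g.erase w)).erase x) = insert u (g.erase x) := by
    ext y
    simp only [mem_insert, mem_erase]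
    constructor
    · rintro (rfl | ⟨h1, rfl | h2⟩)
      · exact Or.inr ⟨hx'.1.symm, c⟩
      · exact Or.inl rfl
      · exact Or.inr ⟨h1, h2.2⟩
    · rintro (rfl | ⟨h1, h2⟩)
      · exact Or.inr ⟨xu.symm, Or.inl rfl⟩
      · by_cases e : y = w
        · exact Or.inl e
        · exact Or.inr ⟨h1, Or.inr ⟨e, h2⟩⟩
  exact this ▸ f x hx

/-- Relabelling of faces. -/
def symF (σ : Equiv.Perm (Fin n)) : Face n d ≃ Face n d :=
  σ.finsetCongr.subtypeEquiv fun x => by simp [Equiv.finsetCongr_apply]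

theorem sym_inS (σ : Equiv.Perm (Fin n)) (S : Finset (Face n d)) :
    {f | inS (S.map (symF σ).toEmbedding) f} =
      (fun x => x.map σ.toEmbedding) '' {f | inS S f} := by
  ext f
  constructor
  · rintro ⟨h, hf⟩
    obtain ⟨x, hx, e⟩ := mem_map.1 hf
    exact ⟨x.1, ⟨x.2, hx⟩, congrArg Subtype.val e⟩
  · rintro ⟨x, ⟨h, hx⟩, rfl⟩
    exact ⟨by simpa using h, mem_map.2 ⟨_, hx, rfl⟩⟩

theorem J.pr_perm (p : ℝ) (σ : Equiv.Perm (Fin n)) (E : Set (Finset (Fin n)) → Prop) :
    Pr p (fun S : Finset (Face n d) => E {f | inS S f}) =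
      Pr p (fun S : Finset (Face n d) => E ((fun x => x.map σ.toEmbedding) '' {f | inS S f})) := by
  unfold Pr
  refine (Fintype.sum_equiv (symF (d := d) σ).finsetCongr _ _ fun S => ?_).symm
  congr 1
  · exact congrArg E (sym_inS σ S).symm
  · simp only [Equiv.finsetCongr_apply, wt, card_map]

theorem sym_ins (σ : Equiv.Perm (Fin n)) (x : Finset (Fin n)) (u w : Fin n) :
    (insert u (x.erase w)).map σ.toEmbedding =
      insert (σ u) ((x.map σ.toEmbedding).erase (σ w)) := by
  rw [map_insert, map_erase]; rfl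

theorem sym_inv (σ : Equiv.Perm (Fin n)) (x : Finset (Fin n)) :
    (x.map σ.toEmbedding).map (Equiv.symm σ).toEmbedding = x := by
  ext y; simp

theorem sym_mem (σ : Equiv.Perm (Fin n)) (S : Set (Finset (Fin n))) (x : Finset (Fin n)) :
    x.map σ.toEmbedding ∈ (fun x => x.map σ.toEmbedding) '' S ↔ x ∈ S :=
  (map_injective σ.toEmbedding).mem_set_image

theorem J.rd_perm (σ : Equiv.Perm (Fin n)) (S : Set (Finset (Fin n))) (j : ℕ)
    (x : Finset (Fin n)) :
    Rd d ((fun x => x.map σ.toEmbedding) '' S) j (x.map σ.toEmbedding) ↔ Rd d S j x := by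
  induction j generalizing x with
  | zero => exact sym_mem σ S x
  | succ j ih =>
    refine or_congr (ih x) (and_congr (by rw [card_map]) ?_)
    rw [σ.surjective.exists]
    refine exists_congr fun u => and_congr (by simp) ?_
    rw [σ.surjective.forall]
    exact forall_congr' fun w => imp_congr (by simp) (by rw [← sym_ins, ih])

theorem sym_contr (σ : Equiv.Perm (Fin n)) {S : Set (Finset (Fin n))} {x : Finset (Fin n)}
    (h : Contr d S x) :
    Contr d ((fun x => x.map σ.toEmbedding) '' S) (x.map σ.toEmbedding) := by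
  induction h with
  | base f hf => exact .base _ ⟨f, hf, rfl⟩
  | step g u hg _ ih =>
    refine .step _ (σ u) (by rw [card_map, hg]) fun w hw => ?_
    obtain ⟨w, hw', rfl⟩ := mem_map.1 hw
    exact sym_ins σ g u w ▸ ih w hw'

theorem J.contr_perm (σ : Equiv.Perm (Fin n)) (S : Set (Finset (Fin n))) (x : Finset (Fin n)) :
    Contr d ((fun x => x.map σ.toEmbedding) '' S) (x.map σ.toEmbedding) ↔ Contr d S x := by
  refine ⟨fun h => ?_, sym_contr σ⟩
  have := sym_contr σ.symm h
  simpa only [Set.image_image, sym_inv, Set.image_id'] using this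

theorem sym_gam (σ : Equiv.Perm (Fin n)) {Q Q' : Finset (Fin n) → Prop}
    (hQ : ∀ x, Q x → Q' (x.map σ.toEmbedding)) {g k : Finset (Fin n)} (h : Gam d Q g k) :
    Gam d Q' (g.map σ.toEmbedding) (k.map σ.toEmbedding) := by
  obtain ⟨a, u, b, w, c, rfl, f⟩ := h
  refine ⟨by rw [card_map, a], σ u, by simpa using b, σ w, by simpa using c, sym_ins σ g u w,
    fun x hx => ?_⟩
  obtain ⟨x, rfl⟩ := σ.surjective x
  exact sym_ins σ g u x ▸ hQ _ (f x (by simpa using hx))

theorem sym_cl (σ : Equiv.Perm (Fin n)) {Q Q' : Finset (Fin n) → Prop}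
    (hQ : ∀ x, Q x → Q' (x.map σ.toEmbedding)) {g : Finset (Fin n)}
    {X : Finset (Finset (Fin n))} (h : Cl d Q g X) :
    Cl d Q' (g.map σ.toEmbedding) (X.map σ.finsetCongr.toEmbedding) := by
  induction h with
  | base => exact .base
  | step X a k _ b c ih =>
    rw [map_insert]
    exact .step _ _ _ ih (mem_map_of_mem _ b) (sym_gam σ hQ c)

theorem pr_hv_symm (p : ℝ) (j s : ℕ) {f g : Finset (Fin n)} (h : f.card = g.card) :
    Pr p (Hv (d := d) j s f) = Pr p (Hv (d := d) j s g) := by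
  obtain ⟨σ, rfl⟩ := Equiv.Perm.exists_map_finset_eq f g h
  refine Eq.trans ?_ (J.pr_perm (d := d) p σ
    fun T => ∃ X, Cl d (Rd d T j) (f.map σ.toEmbedding) X ∧ s ≤ X.card).symm
  congr 1
  funext S
  refine propext ⟨fun ⟨X, a, b⟩ => ⟨_, sym_cl σ (fun x => (J.rd_perm σ _ j x).2) a, by
    rwa [card_map]⟩, fun ⟨X, a, b⟩ => ⟨X.map σ.symm.finsetCongr.toEmbedding, ?_, by
    rwa [card_map]⟩⟩
  have := sym_cl (Q' := Rs S j) σ.symm (fun x hx => (J.rd_perm σ _ j _).1 
    ((sym_inv σ.symm x).symm ▸ hx :)) a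
  rwa [sym_inv] at this

end Pool.Agent.MP_8f9e6e_pr

end

section

/-! Disjoint tuples, moments and matchings. -/

open Finset Filter

namespace Pool.Agent.MP_8f9e6e_pr

variable {n : ℕ}

open Classical in
theorem tup_good {ι : Type} (Ω : Finset ι) (vs : ι → Finset (Fin n)) (B : Finset (Fin n)) {D : ℕ}
    (hD : ∀ v, (Ω.filter fun o => v ∈ vs o).card ≤ D) :
    Ω.card ≤ (Ω.filter fun o => Disjoint (vs o) B).card + B.card * D := by
  rw [← card_filter_add_card_filter_not (s := Ω) fun o => Disjoint (vs o) B]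
  refine Nat.add_le_add_left ((card_le_card (t := B.biUnion fun v => Ω.filter fun o => v ∈ vs o)
    fun o ho => ?_).trans (card_biUnion_le_card_mul _ _ _ fun v _ => hD v)) _
  obtain ⟨h1, h2⟩ := mem_filter.1 ho
  obtain ⟨v, h3, h4⟩ := not_disjoint_iff.1 h2
  exact mem_biUnion.2 ⟨v, h4, mem_filter.2 ⟨h1, h3⟩⟩

open Classical in
theorem card_tuples {ι : Type} (Ω : Finset ι) (vs : ι → Finset (Fin n)) (B : Finset (Fin n))
    {ζ D J a : ℕ} (hζ : ∀ o ∈ Ω, (vs o).card ≤ ζ)
    (hD : ∀ v, (Ω.filter fun o => v ∈ vs o).card ≤ D) (ha : a + (B.card + J * ζ) * D ≤ Ω.card) :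
    a ^ J ≤ ((Fintype.piFinset fun _ : Fin J => Ω).filter fun t =>
      (∀ i, Disjoint (vs (t i)) B) ∧ ∀ i k, i ≠ k → Disjoint (vs (t i)) (vs (t k))).card := by
  induction J generalizing B with
  | zero =>
    rw [pow_zero]
    exact card_pos.2 ⟨default, by simp only [IsEmpty.forall_iff, ne_eq, implies_true, and_self, filter_true, Fintype.piFinset_of_isEmpty, univ_unique, mem_singleton]⟩
  | succ J ih =>
    have hG : a ≤ (Ω.filter fun o => Disjoint (vs o) B).card := by
      have := tup_good Ω vs B hD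
      have e : B.card * D ≤ (B.card + (J + 1) * ζ) * D :=
        Nat.mul_le_mul_right _ (Nat.le_add_right _ _)
      omega
    refine le_trans ?_ (card_le_card_of_injOn (s := (Ω.filter fun o => Disjoint (vs o) B).sigma
      fun o => (Fintype.piFinset fun _ : Fin J => Ω).filter fun t =>
        (∀ i, Disjoint (vs (t i)) (B ∪ vs o)) ∧ ∀ i k, i ≠ k → Disjoint (vs (t i)) (vs (t k)))
      (fun x => (Fin.cons x.1 x.2 : Fin (J + 1) → ι)) ?_ ?_)
    · rw [card_sigma, pow_succ']
      refine (Nat.mul_le_mul_right _ hG).trans ?_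
      rw [← smul_eq_mul]
      refine card_nsmul_le_sum _ _ _ fun o ho => ih _ (le_trans ?_ ha)
      have h1 := card_union_le B (vs o)
      have h2 := hζ o (mem_filter.1 ho).1
      refine Nat.add_le_add_left (Nat.mul_le_mul_right _ ?_) _
      rw [add_one_mul]
      omega
    · rintro ⟨o, t⟩ h
      simp only [coe_sigma, Set.mem_sigma_iff, mem_coe, mem_filter, Fintype.mem_piFinset,
        disjoint_union_right] at h ⊢
      obtain ⟨⟨h1, h2⟩, h3, h4, h5⟩ := h
      refine ⟨fun i => ?_, fun i => ?_, fun i k => ?_⟩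
      · exact Fin.cases (by simpa using h1) (fun i => by simpa using h3 i) i
      · exact Fin.cases (by simpa using h2) (fun i => by simpa using (h4 i).1) i
      · refine Fin.cases ?_ (fun i => ?_) i <;> refine Fin.cases ?_ (fun k => ?_) k <;> intro hik
        · exact absurd rfl hik
        · simpa using (h4 k).2.symm
        · simpa using (h4 i).2
        · simpa using h5 i k fun e => hik (congrArg _ e)
    · rintro ⟨o, t⟩ _ ⟨o', t'⟩ _ h
      obtain ⟨rfl, rfl⟩ := Fin.cons_inj.1 h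
      rfl

open Classical in
theorem tail_tuples {α ι : Type} [Fintype α] [DecidableEq α] {p : ℝ} (h0 : 0 ≤ p) (h1 : p ≤ 1)
    (Ω : Finset ι) (vs : ι → Finset (Fin n)) (B : Finset (Fin n)) {ζ D J : ℕ}
    (hζ : ∀ o ∈ Ω, (vs o).card ≤ ζ) (hD : ∀ v, (Ω.filter fun o => v ∈ vs o).card ≤ D)
    (E : ι → Finset α → Prop) {q a : ℝ} (ha : 0 < a) (hq0 : 0 ≤ q)
    (hq : ∀ t : Fin J → ι, (∀ i, t i ∈ Ω ∧ Disjoint (vs (t i)) B) →
      (∀ i k, i ≠ k → Disjoint (vs (t i)) (vs (t k))) → Pr p (fun S => ∀ i, E (t i) S) ≤ q) :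
    Pr p (fun S => a + (B.card + J * ζ) * D ≤ ((Ω.filter fun o => E o S).card : ℝ)) ≤
      (Ω.card / a) ^ J * q := by
  set T := (Fintype.piFinset fun _ : Fin J => Ω).filter fun t =>
    (∀ i, Disjoint (vs (t i)) B) ∧ ∀ i k, i ≠ k → Disjoint (vs (t i)) (vs (t k)) with hT
  have hp : 0 < a ^ J := pow_pos ha J
  refine (Pr_le_of h0 h1 (g := fun S => (∑ t ∈ T, if ∀ i, E (t i) S then 1 else 0) / a ^ J)
    (fun S => div_nonneg (sum_nonneg fun t _ => by split_ifs <;> norm_num) hp.le)
    fun S hS => ?_).trans ?_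
  · rw [le_div_iff₀ hp, one_mul, sum_boole]
    have e1 : ⌈a⌉₊ + (B.card + J * ζ) * D ≤ (Ω.filter fun o => E o S).card := by
      have e2 : (B.card + J * ζ) * D ≤ (Ω.filter fun o => E o S).card := by
        have : (((B.card + J * ζ) * D : ℕ) : ℝ) ≤ (Ω.filter fun o => E o S).card := by
          push_cast; linarith
        exact_mod_cast this
      refine (Nat.le_sub_iff_add_le e2).1 (Nat.ceil_le.2 ?_)
      rw [Nat.cast_sub e2]
      push_cast; linarith only [hS]
    have e3 := card_tuples (Ω.filter fun o => E o S) vs B (J := J)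
      (fun o ho => hζ o (mem_filter.1 ho).1)
      (fun v => (card_le_card (filter_subset_filter _ (filter_subset _ _))).trans (hD v)) e1
    refine (pow_le_pow_left₀ ha.le (Nat.le_ceil a) J).trans ?_
    rw [← Nat.cast_pow, Nat.cast_le]
    refine e3.trans (card_le_card fun t ht => ?_)
    simp only [hT, mem_filter, Fintype.mem_piFinset] at ht ⊢
    exact ⟨⟨fun i => (ht.1 i).1, ht.2⟩, fun i => (ht.1 i).2⟩
  · have e4 : ∑ S : Finset α, wt p S * ((∑ t ∈ T, if ∀ i, E (t i) S then 1 else 0) / a ^ J) =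
        (∑ t ∈ T, Pr p fun S => ∀ i, E (t i) S) / a ^ J := by
      simp only [Pr, ← mul_div_assoc, mul_sum, mul_ite, mul_one, mul_zero, ← sum_div]
      rw [sum_comm]
      congr!
    rw [e4, div_pow, div_mul_eq_mul_div]
    refine div_le_div_of_nonneg_right ((sum_le_card_nsmul _ _ q fun t ht => ?_).trans ?_) hp.le
    · simp only [hT, mem_filter, Fintype.mem_piFinset] at ht
      exact hq t (fun i => ⟨ht.1 i, ht.2.1 i⟩) ht.2.2
    · rw [nsmul_eq_mul]
      refine mul_le_mul_of_nonneg_right ?_ hq0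
      rw [← Nat.cast_pow, Nat.cast_le]
      exact (card_filter_le _ _).trans (by simp only [Fintype.card_piFinset, prod_const, card_univ, Fintype.card_fin, Std.le_refl])

theorem match_or {ι : Type} [DecidableEq ι] (r : ι → ι → Prop) (L : ℕ) (I : Finset ι) :
    (∃ G ⊆ I, I.card ≤ G.card + 2 * L ∧ ∀ a ∈ G, ∀ b ∈ G, a ≠ b → r a b) ∨
      ∃ I' ⊆ I, I'.card = 2 * L ∧
        ∀ G ⊆ I', (∀ a ∈ G, ∀ b ∈ G, a ≠ b → r a b) → L ≤ (I' \ G).card := by
  induction L generalizing I with
  | zero => exact Or.inr ⟨∅, empty_subset _, rfl, fun _ _ _ => Nat.zero_le _⟩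
  | succ L ih =>
    by_cases h : ∀ a ∈ I, ∀ b ∈ I, a ≠ b → r a b
    · exact Or.inl ⟨I, Subset.rfl, Nat.le_add_right _ _, h⟩
    push Not at h
    obtain ⟨a, ha, b, hb, hab, hr⟩ := h
    have hs : (I.erase a).erase b ⊆ I := (erase_subset _ _).trans (erase_subset _ _)
    rcases ih ((I.erase a).erase b) with ⟨G, h1, h2, h3⟩ | ⟨I', h1, h2, h3⟩
    · refine Or.inl ⟨G, h1.trans hs, ?_, h3⟩
      have e1 := pred_card_le_card_erase (s := I) (a := a)
      have e2 := pred_card_le_card_erase (s := I.erase a) (a := b)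
      omega
    · have ea : a ∉ I' := fun e => by simpa using h1 e
      have eb : b ∉ I' := fun e => by simpa using h1 e
      refine Or.inr ⟨insert a (insert b I'), insert_subset ha (insert_subset hb (h1.trans hs)), ?_,
        fun G _ hG => ?_⟩
      · rw [card_insert_of_notMem (by simp [hab, ea]), card_insert_of_notMem eb]
        omega
      · have e1 := h3 (I' ∩ G) inter_subset_left fun x hx y hy =>
          hG x (mem_inter.1 hx).2 y (mem_inter.1 hy).2
        rw [sdiff_inter_self_left] at e1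
        have key : ∀ c, c ∉ I' → c ∉ G → c ∈ insert a (insert b I') →
            L + 1 ≤ (insert a (insert b I') \ G).card := fun c c1 c2 c3 => by
          refine le_trans ?_ (card_le_card (s := insert c (I' \ G)) (insert_subset
            (mem_sdiff.2 ⟨c3, c2⟩) (sdiff_subset_sdiff_left _
              ((subset_insert _ _).trans (subset_insert _ _)))))
          rw [card_insert_of_notMem fun e => c1 (mem_sdiff.1 e).1]
          omega
        by_cases hg : a ∈ G
        · exact key b eb (fun e => hr (hG a hg b e hab)) (by simp)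
        · exact key a ea hg (by simp)

end Pool.Agent.MP_8f9e6e_pr

end

section

/-! The covariance of two joining apexes. -/

open Finset Filter

namespace Pool.Agent.MP_8f9e6e_pr

variable {d : ℕ}

section

variable {n : ℕ} {Q Q' C : Finset (Fin n) → Prop} {U g : Finset (Fin n)}
  {X : Finset (Finset (Fin n))}

theorem var_root (hX : Cl d Q g X) : g ∈ X := by
  induction hX with
  | base => exact mem_singleton_self _
  | step X h k _ _ _ ih => exact mem_insert_of_mem ih

theorem var_card (hX : Cl d Q g X) (hg : g.card = d + 1) : ∀ k ∈ X, k.card = d + 1 := by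
  induction hX with
  | base => exact fun k hk => mem_singleton.1 hk ▸ hg
  | step X h k _ _ c ih => exact forall_mem_insert _ _ _ |>.2 ⟨c.card, ih⟩

theorem var_imp (hX : Cl d Q g X) :
    (∀ h ∈ X, ∀ k ∈ X, Gam d Q h k → Gam d Q' h k) → Cl d Q' g X := by
  induction hX with
  | base => exact fun _ => .base
  | step X h k _ b c ih =>
    exact fun H => .step X h k (ih fun a ha a' ha' => H a (mem_insert_of_mem ha) a'
      (mem_insert_of_mem ha')) b (H h (mem_insert_of_mem b) k (mem_insert_self _ _) c)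

theorem var_site (M : Submodule (ZMod 2) (Finset (Fin n) → ZMod 2))
    (hR : ∀ x ⊆ U, Q x → bd d x ∈ M) (hX : Cl d Q g X) :
    (∀ k ∈ X, k ⊆ U) → ∀ k ∈ X, (bd d k ∈ M ↔ bd d g ∈ M) := by
  induction hX with
  | base => exact fun _ k hk => by rw [mem_singleton.1 hk]
  | step X h k _ b c ih =>
    intro hU
    have i1 := ih fun a ha => hU a (mem_insert_of_mem ha)
    refine forall_mem_insert _ _ _ |>.2 ⟨Iff.trans ?_ (i1 h b), i1⟩
    have u1 := hU k (mem_insert_self _ _)
    have u2 := hU h (mem_insert_of_mem b)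
    obtain ⟨c1, a, c2, w, c3, rfl, c4⟩ := c
    have c5 : ∀ x ∈ h.erase w, bd d (insert a (h.erase x)) ∈ M := fun x hx =>
      hR _ (insert_subset (u1 (mem_insert_self _ _)) ((erase_subset _ _).trans u2)) (c4 x hx)
    refine ⟨fun hk => bd_first M c1 c2 fun x hx => ?_, fun hh => bd_last M c1 c2 c3 hh c5⟩
    by_cases e : x = w
    · rwa [e]
    · exact c5 x (mem_erase.2 ⟨e, hx⟩)

theorem var_tree {B : Finset (Fin n)} {δ : ℕ} {T : Finset (Finset (Fin n))}
    (hR : ∀ x ⊆ U, Q x → C x) (hB : Lev d C B δ T) (hg : g ⊆ B) (hX : Cl d Q g X) :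
    (∀ k ∈ X, C k ∧ k ⊆ U) → ∃ δ' T', Lev d C (B ∪ X.biUnion id) δ' T' ∧
      δ + d * (B ∪ X.biUnion id).card ≤ δ' + d * B.card ∧
      ∀ c ∈ T', c ∈ T ∨ ∃ h ∈ X, ∃ a ∉ B, a ∉ h ∧ c = insert a h ∧
        ∀ y ∈ c, Q (c.erase y) ∨ c.erase y ∈ X := by
  induction hX with
  | base =>
    intro _
    have e : B ∪ ({g} : Finset (Finset (Fin n))).biUnion id = B := by
      rw [singleton_biUnion]
      exact union_eq_left.2 hg
    rw [e]
    exact ⟨δ, T, hB, le_rfl, fun c hc => Or.inl hc⟩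
  | step X h k _ b c ih =>
    intro hU
    obtain ⟨δ', T', i1, i2, i3⟩ := ih fun a ha => hU a (mem_insert_of_mem ha)
    have i4 : ∀ c ∈ T', c ∈ T ∨ ∃ h ∈ insert k X, ∃ a ∉ B, a ∉ h ∧ c = insert a h ∧
        ∀ y ∈ c, Q (c.erase y) ∨ c.erase y ∈ insert k X := fun c hc =>
      (i3 c hc).imp_right fun ⟨h, a1, a, a2, a3, a4, a5⟩ => ⟨h, mem_insert_of_mem a1, a, a2, a3, a4,
        fun y hy => (a5 y hy).imp_right mem_insert_of_mem⟩
    have u1 := hU k (mem_insert_self _ _)
    have u2 := hU h (mem_insert_of_mem b)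
    have u3 : h ⊆ B ∪ X.biUnion id := (subset_biUnion_of_mem id b).trans subset_union_right
    obtain ⟨c1, a, c2, w, c3, rfl, c4⟩ := c
    have e : B ∪ (insert (insert a (h.erase w)) X).biUnion id = insert a (B ∪ X.biUnion id) := by
      rw [biUnion_insert, id, insert_union, union_insert, union_left_comm,
        union_eq_right.2 ((erase_subset _ _).trans u3)]
    rw [e]
    by_cases hn : a ∈ B ∪ X.biUnion id
    · rw [insert_eq_of_mem hn]
      exact ⟨δ', T', i1, i2, i4⟩
    · refine ⟨δ' + d, _, i1.tree u3 c1 hn fun x hx => ?_, ?_, fun c hc => ?_⟩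
      · by_cases e : x = w
        · exact e ▸ u1.1
        · exact hR _ (insert_subset (u1.2 (mem_insert_self _ _)) ((erase_subset _ _).trans u2.2))
            (c4 x (mem_erase.2 ⟨e, hx⟩))
      · rw [card_insert_of_notMem hn, mul_add]
        omega
      · rcases mem_insert.1 hc with rfl | hc
        · refine Or.inr ⟨h, mem_insert_of_mem b, a, fun h' => hn (mem_union_left _ h'), c2, rfl,
            fun y hy => ?_⟩
          rcases mem_insert.1 hy with rfl | hy
          · rw [erase_insert c2]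
            exact Or.inr (mem_insert_of_mem b)
          · rw [erase_insert_of_ne (ne_of_mem_of_not_mem hy c2).symm]
            by_cases e : y = w
            · exact Or.inr (e ▸ mem_insert_self _ _)
            · exact Or.inl (c4 y (mem_erase.2 ⟨e, hy⟩))
        · exact i4 c hc

/-- The vertices used by the first trees. -/
def varB (V : Finset (Fin n)) (X : ℕ → Finset (Finset (Fin n))) (k : ℕ) : Finset (Fin n) :=
  V ∪ (range k).biUnion fun i => (X i).biUnion id

theorem varB_mono (V : Finset (Fin n)) (X : ℕ → Finset (Finset (Fin n))) {k l : ℕ} (h : k ≤ l) :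
    varB V X k ⊆ varB V X l :=
  union_subset_union_right (biUnion_subset_biUnion_of_subset_left _ (range_subset_range.2 h))

theorem varB_site {V : Finset (Fin n)} {X : ℕ → Finset (Finset (Fin n))} {i k : ℕ} (h : i < k)
    {x : Finset (Fin n)} (hx : x ∈ X i) : x ⊆ varB V X k :=
  ((subset_biUnion_of_mem id hx).trans (subset_biUnion_of_mem (fun i => (X i).biUnion id)
    (mem_range.2 h))).trans subset_union_right

theorem var_forest {V : Finset (Fin n)} {δ : ℕ} {T : Finset (Finset (Fin n))}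
    {G : ℕ → Finset (Fin n)} {X : ℕ → Finset (Finset (Fin n))} (hR : ∀ x ⊆ U, Q x → C x)
    (hB : Lev d C V δ T) (m : ℕ) :
    (∀ i < m, G i ⊆ V ∧ Cl d Q (G i) (X i) ∧ ∀ k ∈ X i, C k ∧ k ⊆ U) →
    ∃ δ' T', Lev d C (varB V X m) δ' T' ∧ δ + d * (varB V X m).card ≤ δ' + d * V.card ∧
      ∀ c ∈ T', c ∈ T ∨ ∃ i < m, ∃ h ∈ X i, ∃ a ∉ varB V X i, a ∉ h ∧ c = insert a h ∧
        ∀ y ∈ c, Q (c.erase y) ∨ c.erase y ∈ X i := by
  induction m with
  | zero =>
    intro _
    have e : varB V X 0 = V := by simp [varB]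
    rw [e]
    exact ⟨δ, T, hB, le_rfl, fun c hc => Or.inl hc⟩
  | succ m ih =>
    intro H
    obtain ⟨δ', T', i1, i2, i3⟩ := ih fun i hi => H i (by omega)
    obtain ⟨a1, a2, a3⟩ := H m (by omega)
    obtain ⟨δ'', T'', j1, j2, j3⟩ := var_tree hR i1 (a1.trans subset_union_left) a2 a3
    have e : varB V X (m + 1) = varB V X m ∪ (X m).biUnion id := by
      rw [varB, varB, range_add_one, biUnion_insert, union_assoc, union_comm ((X m).biUnion id)]
    rw [e]
    refine ⟨δ'', T'', j1, by omega, fun c hc => ?_⟩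
    rcases j3 c hc with h | h
    · exact (i3 c h).imp_right fun ⟨i, b1, b2⟩ => ⟨i, by omega, b2⟩
    · exact Or.inr ⟨m, by omega, h⟩

theorem var_home (M : Submodule (ZMod 2) (Finset (Fin n) → ZMod 2)) {e : Finset (Fin n)}
    {u w w' : Fin n} (he : e.card = d + 1) (hu : u ∉ e) (hw : w ∈ e) (hw' : w' ∈ e) (hne : w ≠ w')
    (h : ∀ x ∈ e, x ≠ w → x ≠ w' → bd d (insert u (e.erase x)) ∈ M) :
    bd d e - (bd d (insert u (e.erase w)) + bd d (insert u (e.erase w'))) ∈ M := by
  rw [bd_step he hu, ← add_sum_erase _ _ hw, ← add_sum_erase _ _ (mem_erase.2 ⟨hne.symm, hw'⟩),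
    ← add_assoc, add_sub_cancel_left]
  exact M.sum_mem fun x hx => h x (mem_of_mem_erase (mem_of_mem_erase hx))
    (ne_of_mem_erase (mem_of_mem_erase hx)) (ne_of_mem_erase hx)

theorem var_four {E : Type} [AddCommGroup E] [Module (ZMod 2) E] (M : Submodule (ZMod 2) E)
    (x : ℕ → E) {z : E} (h1 : z - (x 0 + x 1) ∈ M) (h2 : z - (x 2 + x 3) ∈ M) {m : ℕ}
    (hm : m < 4) (h : ∀ i < 4, i ≠ m → x i ∈ M) : ∀ i < 4, x i ∈ M := by
  have h3 := M.sub_mem h1 h2
  rw [sub_sub_sub_cancel_left] at h3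
  intro i hi
  by_cases e : i = m
  · subst e
    interval_cases i
    · have := M.sub_mem (M.sub_mem (M.add_mem (h 2 (by omega) (by omega))
        (h 3 (by omega) (by omega))) h3) (h 1 (by omega) (by omega))
      rwa [sub_sub_cancel, add_sub_cancel_right] at this
    · have := M.sub_mem (M.sub_mem (M.add_mem (h 2 (by omega) (by omega))
        (h 3 (by omega) (by omega))) h3) (h 0 (by omega) (by omega))
      rwa [sub_sub_cancel, add_sub_cancel_left] at this
    · have := M.sub_mem (M.add_mem h3 (M.add_mem (h 0 (by omega) (by omega))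
        (h 1 (by omega) (by omega)))) (h 3 (by omega) (by omega))
      rwa [sub_add_cancel, add_sub_cancel_right] at this
    · have := M.sub_mem (M.add_mem h3 (M.add_mem (h 0 (by omega) (by omega))
        (h 1 (by omega) (by omega)))) (h 2 (by omega) (by omega))
      rwa [sub_add_cancel, add_sub_cancel_left] at this
  · exact h i hi e

theorem var_det (hd : 2 ≤ d) (j s : ℕ) {S : Finset (Face n d)} {e : Finset (Fin n)}
    {u u' : Fin n} (he : e.card = d + 1) (huu : u ≠ u') (h1 : Bu j s e u S) (h2 : Bu j s e u' S) :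
    Box (Bu j s e u) (Bu j s e u') S ∨ DS d (insert u' (insert u e))
      (d + 3 + 4 * ((s + 1) * (d + 1)) + 2 ^ (d + 3 + 4 * ((s + 1) * (d + 1))) * (d + 2) ^ j)
      (2 * d - 1) S := by
  classical
  obtain ⟨hu, w0, m0, w1, m1, n01, v0, v1, r1⟩ := h1
  obtain ⟨hu', w2, m2, w3, m3, n23, v2, v3, r2⟩ := h2
  obtain ⟨G, G0, G1, G2, G3⟩ : ∃ G : ℕ → Finset (Fin n), G 0 = insert u (e.erase w0) ∧
      G 1 = insert u (e.erase w1) ∧ G 2 = insert u' (e.erase w2) ∧ G 3 = insert u' (e.erase w3) :=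
    ⟨fun i => if i = 0 then insert u (e.erase w0) else if i = 1 then insert u (e.erase w1) else
      if i = 2 then insert u' (e.erase w2) else insert u' (e.erase w3), rfl, rfl, rfl, rfl⟩
  obtain ⟨V, hV⟩ : ∃ V, V = insert u' (insert u e) := ⟨_, rfl⟩
  have hn : u' ∉ insert u e := by simp [huu.symm, hu']
  have cV : V.card = d + 3 := by
    rw [hV, card_insert_of_notMem hn, card_insert_of_notMem hu, he]
  have f1 : ∀ x, insert u (e.erase x) ⊆ V := fun x =>
    hV ▸ (insert_subset_insert _ (erase_subset _ _)).trans (subset_insert _ _)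
  have f2 : ∀ x, insert u' (e.erase x) ⊆ V := fun x =>
    hV ▸ insert_subset_insert _ ((erase_subset _ _).trans (subset_insert _ _))
  have cf : ∀ a ∉ e, ∀ x ∈ e, (insert a (e.erase x)).card = d + 1 := fun a ha x hx => by
    rw [card_insert_of_notMem (by simp [ha]), card_erase_add_one hx, he]
  have hG : ∀ i < 4, G i ⊆ V ∧ (G i).card = d + 1 ∧ Hv j s (G i) S := fun i hi => by
    interval_cases i
    · exact G0 ▸ ⟨f1 _, cf _ hu _ m0, v0⟩
    · exact G1 ▸ ⟨f1 _, cf _ hu _ m1, v1⟩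
    · exact G2 ▸ ⟨f2 _, cf _ hu' _ m2, v2⟩
    · exact G3 ▸ ⟨f2 _, cf _ hu' _ m3, v3⟩
  have hX : ∀ i : ℕ, ∃ X, i < 4 → Cl d (Rs S j) (G i) X ∧ s ≤ X.card ∧ X.card ≤ s + 1 :=
    fun i => by
      by_cases hi : i < 4
      · obtain ⟨Y, y1, y2⟩ := (hG i hi).2.2
        obtain ⟨Y', y3, y4⟩ := y1.exact (s := max s 1) (le_max_right _ _)
          (max_le y2 (card_pos.2 ⟨_, var_root y1⟩))
        exact ⟨Y', fun _ => ⟨y3, by omega, by omega⟩⟩
      · exact ⟨∅, fun h => (hi h).elim⟩
  choose X hX using hX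
  obtain ⟨K, hK⟩ : ∃ K, K = d + 3 + 4 * ((s + 1) * (d + 1)) := ⟨_, rfl⟩
  rw [← hK, ← hV]
  have cB : (varB V X 4).card ≤ K := by
    refine (card_union_le _ _).trans (hK ▸ Nat.add_le_add cV.le ?_)
    refine (card_biUnion_le_card_mul _ _ ((s + 1) * (d + 1)) fun i hi => ?_).trans_eq
      (by rw [card_range])
    have hi' := mem_range.1 hi
    exact (card_biUnion_le_card_mul _ _ (d + 1) fun k hk =>
      (var_card (hX i hi').1 (hG i hi').2.1 k hk).le).trans
      (Nat.mul_le_mul_right _ (hX i hi').2.2)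
  have VB : ∀ k, V ⊆ varB V X k := fun k => subset_union_left
  obtain ⟨Rt, hRt⟩ : ∃ Rt : Finset (Finset (Fin n)), Rt = (varB V X 4).powerset.filter (Rs S j) :=
    ⟨_, rfl⟩
  have mR : ∀ x, x ∈ Rt ↔ x ⊆ varB V X 4 ∧ Rs S j x := fun x => by
    rw [hRt, mem_filter, mem_powerset]
  have cR : Rt.card ≤ 2 ^ K := hRt ▸ (card_filter_le _ _).trans
    ((card_powerset _).trans_le (Nat.pow_le_pow_right (by omega) cB))
  have q1 : ∀ x ∈ e, x ≠ w0 → x ≠ w1 → insert u (e.erase x) ∈ Rt := fun x a b c =>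
    (mR _).2 ⟨(f1 x).trans (VB 4), Rd.mono (Nat.zero_le j) (r1 x a b c)⟩
  have q2 : ∀ x ∈ e, x ≠ w2 → x ≠ w3 → insert u' (e.erase x) ∈ Rt := fun x a b c =>
    (mR _).2 ⟨(f2 x).trans (VB 4), Rd.mono (Nat.zero_le j) (r2 x a b c)⟩
  have four : ∀ M : Submodule (ZMod 2) (Finset (Fin n) → ZMod 2), (∀ x ∈ Rt, bd d x ∈ M) →
      ∀ m < 4, (∀ i < 4, i ≠ m → bd d (G i) ∈ M) → ∀ i < 4, bd d (G i) ∈ M := fun M hM m hm =>
    var_four M (fun i => bd d (G i)) (z := bd d e)
      (by rw [G0, G1]; exact var_home M he hu m0 m1 n01 fun x a b c => hM _ (q1 x a b c))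
      (by rw [G2, G3]; exact var_home M he hu' m2 m3 n23 fun x a b c => hM _ (q2 x a b c)) hm
  have site : ∀ M : Submodule (ZMod 2) (Finset (Fin n) → ZMod 2), (∀ x ∈ Rt, bd d x ∈ M) →
      ∀ i < 4, ∀ k ∈ X i, (bd d k ∈ M ↔ bd d (G i) ∈ M) := fun M hM i hi =>
    var_site M (U := varB V X 4) (fun x a b => hM x ((mR x).2 ⟨a, b⟩)) (hX i hi).1
      fun k hk => varB_site hi hk
  obtain ⟨W, W1, W2, W3⟩ := exists_ov hd S
  have core : ∀ Vt : Finset (Finset (Fin n)),
      (∀ M : Submodule (ZMod 2) (Finset (Fin n) → ZMod 2), (∀ x ∈ Rt, bd d x ∈ M) →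
        (∀ x ∈ Vt, bd d x ∈ M) → ∀ i < 4, bd d (G i) ∈ M) →
      ∃ (T : Finset (Finset (Fin n))) (Z : Finset (Fin n)) (C : Finset (Finset (Fin n))) (y : ℕ),
        (∀ c ∈ T, c = insert u' e ∨ c = insert u e ∨ ∃ i < 4, ∃ h ∈ X i, ∃ a ∉ varB V X i,
          a ∉ h ∧ c = insert a h ∧ ∀ y ∈ c, Rs S j (c.erase y) ∨ c.erase y ∈ X i) ∧
        (Vt.card ≤ 2 + y → DS d V (K + 2 ^ K * (d + 2) ^ j) (2 * d - 1) S) ∧
        Z.card ≤ (2 * d + 3) * y ∧
        (Rt \ C).card ≤ Z.card ^ (d + 2) +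
          (T.filter fun c => ∀ w ∈ c, Rs S j (c.erase w)).card ∧
        (∀ x ∈ C, ∀ x' ∈ C, x ≠ x' → Disjoint (W x) (W x')) ∧
        ∀ c ⊆ varB V X 4, c.card = d + 2 →
          (∀ M : Submodule (ZMod 2) (Finset (Fin n) → ZMod 2), (∀ x ∈ Rt, bd d x ∈ M) →
            (∀ x ∈ Vt, bd d x ∈ M) → ∀ w ∈ c, bd d (c.erase w) ∈ M) → c ⊆ Z ∨ c ∈ T := by
    intro Vt hVt
    let C0 : Finset (Fin n) → Prop := fun x =>
      ∀ M : Submodule (ZMod 2) (Finset (Fin n) → ZMod 2), (∀ x ∈ Rt, bd d x ∈ M) →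
        (∀ x ∈ Vt, bd d x ∈ M) → bd d x ∈ M
    have t1 : ∀ w ∈ e, C0 (insert u (e.erase w)) := fun w hw M a b => by
      by_cases e0 : w = w0
      · rw [e0, ← G0]
        exact hVt M a b 0 (by omega)
      by_cases e1 : w = w1
      · rw [e1, ← G1]
        exact hVt M a b 1 (by omega)
      exact a _ (q1 w hw e0 e1)
    have t2 : ∀ w ∈ e, C0 (insert u' (e.erase w)) := fun w hw M a b => by
      by_cases e0 : w = w2
      · rw [e0, ← G2]
        exact hVt M a b 2 (by omega)
      by_cases e1 : w = w3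
      · rw [e1, ← G3]
        exact hVt M a b 3 (by omega)
      exact a _ (q2 w hw e0 e1)
    have t3 := Lev.root (C := C0) hd .nil he
      (fun M a b => bd_first M he hu fun w hw => t1 w hw M a b) m0 (notMem_empty _)
    rw [empty_union] at t3
    have t4 := (t3.tree Subset.rfl he hu t1).tree (subset_insert _ _) he hn t2
    rw [← hV] at t4
    obtain ⟨δ, T, i1, i2, i3⟩ := var_forest (U := varB V X 4) (Q := Rs S j) (G := G) (X := X)
      (fun x a b M c _ => c x ((mR x).2 ⟨a, b⟩)) t4 4 fun i hi => ⟨(hG i hi).1, (hX i hi).1,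
        fun k hk => ⟨fun M a b => (site M a i hi k hk).2 (hVt M a b i hi), varB_site hi hk⟩⟩
    obtain ⟨A, Z, L, C, y, o1, o2, o3, o4, -, o6, o7, o8⟩ := W3 j (varB V X 4) δ T Rt Vt
      (fun x hx => (mR x).1 hx) fun M a b => i1.mono fun x hx => hx M a b
    refine ⟨T, Z, C, y, fun c hc => ?_, fun hy => ?_, o4, o6, o7, o8⟩
    · rcases i3 c hc with h | h
      · simp only [mem_insert, notMem_empty, or_false] at h
        exact h.imp_right Or.inl
      · exact Or.inr (Or.inr h)
    · have c1 := card_union_le (varB V X 4 \ V) A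
      have c2 := card_sdiff_add_card_eq_card (VB 4)
      have c3 := o1.trans (Nat.mul_le_mul_right _ cR)
      refine ⟨(varB V X 4 \ V) ∪ A, by omega, L, fun t ht => ⟨(o2 t ht).1, ?_⟩, ?_⟩
      · rw [← union_assoc, union_sdiff_of_subset (VB 4)]
        exact (o2 t ht).2
      · have c4 := Nat.mul_le_mul_left d c1
        rw [← c2, mul_add] at i2
        rw [mul_add] at c4
        omega
  by_cases hab : ∃ i < 4, ∃ m < 4, i ≠ m ∧ ∀ M : Submodule (ZMod 2) (Finset (Fin n) → ZMod 2),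
      (∀ x ∈ Rt, bd d x ∈ M) → (∀ l < 4, l ≠ i → l ≠ m → bd d (G l) ∈ M) → bd d (G i) ∈ M
  · obtain ⟨i, hi, m, hm, a1, a2⟩ := hab
    obtain ⟨-, -, -, y, -, o, -⟩ := core ((((range 4).erase i).erase m).image G) fun M a b => by
      have b1 : ∀ l < 4, l ≠ i → l ≠ m → bd d (G l) ∈ M := fun l c1 c2 c3 =>
        b _ (mem_image_of_mem _ (mem_erase.2 ⟨c3, mem_erase.2 ⟨c2, mem_range.2 c1⟩⟩))
      refine four M a m hm fun l c1 c2 => ?_
      by_cases c3 : l = i
      · exact c3 ▸ a2 M a b1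
      · exact b1 l c1 c3 c2
    refine Or.inr (o (card_image_le.trans ?_))
    rw [card_erase_of_mem (mem_erase.2 ⟨a1.symm, mem_range.2 hm⟩),
      card_erase_of_mem (mem_range.2 hi), card_range]
    omega
  have na : ∀ i < 4, ∀ k ∈ X i, ¬ Rs S j k := fun i hi k hk h =>
    hab ⟨i, hi, (i + 1) % 4, by omega, by omega, fun M a _ =>
      (site M a i hi k hk).1 (a k ((mR k).2 ⟨varB_site hi hk, h⟩))⟩
  have nb : ∀ i < 4, ∀ l < 4, ∀ k ∈ X i, k ∈ X l → i = l := fun i hi l hl k hk hk' => by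
    by_contra hne
    obtain ⟨m, b1, b2, b3⟩ : ∃ m < 4, m ≠ i ∧ m ≠ l :=
      ⟨if i ≠ 0 ∧ l ≠ 0 then 0 else if i ≠ 1 ∧ l ≠ 1 then 1 else 2, by split_ifs <;> omega⟩
    exact hab ⟨i, hi, m, b1, b2.symm, fun M a b => (site M a i hi k hk).1
      ((site M a l hl k hk').2 (b l hl (Ne.symm hne) b3.symm))⟩
  have hVt : ∀ M : Submodule (ZMod 2) (Finset (Fin n) → ZMod 2), (∀ x ∈ Rt, bd d x ∈ M) →
      (∀ x ∈ ((range 4).erase 0).image G, bd d x ∈ M) → ∀ i < 4, bd d (G i) ∈ M := fun M a b =>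
    four M a 0 (by omega) fun l c1 c2 =>
      b _ (mem_image_of_mem _ (mem_erase.2 ⟨c2, mem_range.2 c1⟩))
  obtain ⟨T, Z, C, y, o1, o2, o3, o4, o5, o6⟩ := core _ hVt
  rcases Nat.eq_zero_or_pos y with rfl | hy
  swap
  · refine Or.inr (o2 (card_image_le.trans ?_))
    rw [card_erase_of_mem (mem_range.2 (by omega)), card_range]
    omega
  obtain rfl : Z = ∅ := card_eq_zero.1 (by omega)
  have gX : ∀ i < 4, G i ∈ X i := fun i hi => var_root (hX i hi).1
  have er : ∀ a ∉ e, ∀ x ∈ e, (insert a e).erase x = insert a (e.erase x) := fun a ha x hx =>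
    erase_insert_of_ne (ne_of_mem_of_not_mem hx ha).symm
  have RC : Rt ⊆ C := by
    rw [filter_false_of_mem, card_empty, card_empty, zero_pow (by omega)] at o4
    · exact sdiff_eq_empty_iff_subset.1 (card_eq_zero.1 (by omega))
    intro c hc hf
    rcases o1 c hc with rfl | rfl | ⟨i, hi, h, a1, a, -, a3, rfl, -⟩
    · have := hf w2 (mem_insert_of_mem m2)
      rw [er _ hu' _ m2, ← G2] at this
      exact na 2 (by omega) _ (gX 2 (by omega)) this
    · have := hf w0 (mem_insert_of_mem m0)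
      rw [er _ hu _ m0, ← G0] at this
      exact na 0 (by omega) _ (gX 0 (by omega)) this
    · have := hf a (mem_insert_self _ _)
      rw [erase_insert a3] at this
      exact na i hi h a1 this
  have key : ∀ i < 4, Cl d (fun x => x ∈ Rt ∧ x ⊆ varB V X (i + 1) ∧ ¬ x ⊆ varB V X i) (G i)
      (X i) := fun i hi => var_imp (hX i hi).1 fun h hh k hk ⟨c1, a, c2, w, c3, c4, c5⟩ => by
    have s1 : insert a h ⊆ varB V X (i + 1) :=
      insert_subset (varB_site (by omega) hk (c4 ▸ mem_insert_self _ _)) (varB_site (by omega) hh)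
    have s2 := s1.trans (varB_mono V X (show i + 1 ≤ 4 by omega))
    have s3 : ∀ y ∈ insert a h, Rs S j ((insert a h).erase y) ∨ (insert a h).erase y ∈ X i :=
      fun y hy => by
        rcases mem_insert.1 hy with rfl | hy
        · rw [erase_insert c2]
          exact Or.inr hh
        · rw [erase_insert_of_ne (ne_of_mem_of_not_mem hy c2).symm]
          by_cases e : y = w
          · exact Or.inr (e ▸ c4 ▸ hk)
          · exact Or.inl (c5 y (mem_erase.2 ⟨e, hy⟩))
    have s4 : ∀ l < 4, ∀ y ∈ insert a h, (insert a h).erase y ∈ X l → i = l := fun l hl y hy b =>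
      nb i hi l hl _ ((s3 y hy).resolve_left (na l hl _ b)) b
    have s5 : insert a h ∈ T := (o6 _ s2 (by rw [card_insert_of_notMem c2, c1])
      fun M a1 a2 y hy => (s3 y hy).elim
        (fun b => a1 _ ((mR _).2 ⟨(erase_subset _ _).trans s2, b⟩))
        fun b => (site M a1 i hi _ b).2 (hVt M a1 a2 i hi)).resolve_left
      fun b => notMem_empty _ (b (mem_insert_self _ _))
    refine ⟨c1, a, c2, w, c3, c4, fun x hx => ?_⟩
    have s6 : insert a (h.erase x) ⊆ insert a h := insert_subset_insert _ (erase_subset _ _)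
    refine ⟨(mR _).2 ⟨s6.trans s2, c5 x hx⟩, s6.trans s1, ?_⟩
    rcases o1 _ s5 with b | b | ⟨l, hl, h', b1, a', b2, b3, b4, b5⟩
    · rw [b] at s4
      have := s4 2 (by omega) w2 (mem_insert_of_mem m2)
        (by rw [er _ hu' _ m2, ← G2]; exact gX 2 (by omega))
      have := s4 3 (by omega) w3 (mem_insert_of_mem m3)
        (by rw [er _ hu' _ m3, ← G3]; exact gX 3 (by omega))
      omega
    · rw [b] at s4
      have := s4 0 (by omega) w0 (mem_insert_of_mem m0)
        (by rw [er _ hu _ m0, ← G0]; exact gX 0 (by omega))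
      have := s4 1 (by omega) w1 (mem_insert_of_mem m1)
        (by rw [er _ hu _ m1, ← G1]; exact gX 1 (by omega))
      omega
    · have e1 : (insert a h).erase a' = h' := by rw [b4, erase_insert b3]
      have e2 : a' ∈ insert a h := b4 ▸ mem_insert_self _ _
      obtain rfl := s4 l hl a' e2 (e1 ▸ b1)
      have hx' := mem_of_mem_erase hx
      have e3 := erase_insert_of_ne (s := h) (ne_of_mem_of_not_mem hx' c2).symm
      refine fun b => b2 (b (e3 ▸ mem_erase.2 ⟨?_, e2⟩))
      rintro rfl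
      exact na i hi h' b1 (e1 ▸ e3 ▸ c5 _ hx)
  let P : Finset (Fin n) → Prop := fun x => ¬ x ⊆ varB V X 2 ∨ x ⊆ insert u' e
  have wit : ∀ (F : Finset (Finset (Fin n))), ∀ x ∈ F, ∀ i, Rs S i x → Rs (F.biUnion W) i x :=
    fun F x hx i h => (W2 x i h).up (subset_biUnion_of_mem W hx)
  have eV : insert u' e ⊆ V := hV ▸ insert_subset_insert _ (subset_insert _ _)
  have k1 : ∀ i < 2, Hv j s (G i) ((Rt.filter fun x => ¬ P x).biUnion W) := fun i hi =>
    ⟨X i, (key i (by omega)).mono fun x ⟨a, b, c⟩ => wit _ x (mem_filter.2 ⟨a, fun h =>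
      h.elim (fun h => h (b.trans (varB_mono V X (by omega))))
        fun h => c ((h.trans eV).trans (VB i))⟩) j ((mR x).1 a).2, (hX i (by omega)).2.1⟩
  have k2 : ∀ i < 4, 2 ≤ i → Hv j s (G i) ((Rt.filter P).biUnion W) := fun i hi hi' =>
    ⟨X i, (key i hi).mono fun x ⟨a, _, c⟩ => wit _ x (mem_filter.2 ⟨a, Or.inl fun h =>
      c (h.trans (varB_mono V X hi'))⟩) j ((mR x).1 a).2, (hX i hi).2.1⟩
  refine Or.inl ⟨(Rt.filter fun x => ¬ P x).biUnion W, (Rt.filter P).biUnion W,
    biUnion_subset.2 fun x _ => W1 x, biUnion_subset.2 fun x _ => W1 x,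
    (disjoint_biUnion_left _ _ _).2 fun x hx => (disjoint_biUnion_right _ _ _).2 fun x' hx' =>
      o5 x (RC (mem_filter.1 hx).1) x' (RC (mem_filter.1 hx').1)
        fun h => (mem_filter.1 hx).2 (h ▸ (mem_filter.1 hx').2),
    ⟨hu, w0, m0, w1, m1, n01, G0 ▸ k1 0 (by omega), G1 ▸ k1 1 (by omega), fun x a b c =>
      wit _ _ (mem_filter.2 ⟨q1 x a b c, fun h => h.elim (fun h => h ((f1 x).trans (VB 2)))
        fun h => ?_⟩) 0 (r1 x a b c)⟩,
    ⟨hu', w2, m2, w3, m3, n23, G2 ▸ k2 2 (by omega) le_rfl, G3 ▸ k2 3 (by omega) (by omega),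
      fun x a b c => wit _ _ (mem_filter.2 ⟨q2 x a b c, Or.inr
        (insert_subset_insert _ (erase_subset _ _))⟩) 0 (r2 x a b c)⟩⟩
  exact (mem_insert.1 (h (mem_insert_self _ _))).elim huu hu

end

theorem var_pair (hd : 2 ≤ d) (j s : ℕ) : ∃ C : ℝ, ∀ (n : ℕ) (p : ℝ), 0 ≤ p → p ≤ 1 / 2 →
    n * p ^ d ≤ 1 → ∀ e : Finset (Fin n), e.card = d + 1 → ∀ u u' : Fin n, u ≠ u' →
      Pr p (fun S : Finset (Face n d) => Bu j s e u S ∧ Bu j s e u' S) ≤
        Pr p (Bu (d := d) j s e u) * Pr p (Bu (d := d) j s e u') + C * p ^ (2 * d - 1) := by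
  refine ⟨cDS d (d + 3) (d + 3 + 4 * ((s + 1) * (d + 1)) +
    2 ^ (d + 3 + 4 * ((s + 1) * (d + 1))) * (d + 2) ^ j) (2 * d - 1),
    fun n p h0 h1 hn e he u u' huu => ?_⟩
  have h2 : p ≤ 1 := by linarith only [h1]
  refine (Pr_mono h0 h2 fun S hS => var_det hd j s he huu hS.1 hS.2).trans
    (((le_add_of_nonneg_right (Pr_nonneg h0 h2 _)).trans_eq (Pr_or_and p _ _)).trans
      (add_le_add (bk h0 h1 (up_bu j s e u) (up_bu j s e u')) (pr_ds h0 h2 hn (v := d + 3) ?_ _ _)))
  have := card_insert_le u' (insert u e)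
  have := card_insert_le u e
  omega

end Pool.Agent.MP_8f9e6e_pr

end

section

/-! Overlapping witnesses of touched sites give a dense spot. -/

open Finset Filter

namespace Pool.Agent.MP_8f9e6e_pr

variable {n d : ℕ}

theorem probe_roots (hd : 2 ≤ d) (hn : 2 ≤ n) {C : Finset (Fin n) → Prop} {ι : Type}
    [DecidableEq ι] (I : Finset ι) (V : Finset (Fin n)) (f : ι → Finset (Fin n)) (pv : ι → Fin n)
    (hf : ∀ i ∈ I, f i ⊆ V ∧ (f i).card = d + 1 ∧ pv i ∈ f i ∧ ∀ k ∈ I, k ≠ i → pv i ∉ f k)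
    (hC : ∀ i ∈ I, C (f i)) : Lev d C V I.card ∅ := by
  have key : ∀ K ⊆ I, Lev d C ((V \ I.image pv) ∪ K.biUnion f) K.card ∅ := by
    intro K
    induction K using Finset.induction_on with
    | empty => exact fun _ => by simpa using (Lev.nil (d := d) (C := C)).free (by omega) hn _
    | insert a K ha ih =>
      intro hK
      have haI : a ∈ I := hK (mem_insert_self _ _)
      have hKI : K ⊆ I := (subset_insert _ _).trans hK
      obtain ⟨-, b2, b3, b4⟩ := hf a haI
      have := (ih hKI).root hd b2 (hC a haI) b3 fun h => by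
        rcases mem_union.1 h with h | h
        · exact (Finset.mem_sdiff.1 h).2 (mem_image_of_mem _ haI)
        · obtain ⟨k, hk, h⟩ := mem_biUnion.1 h
          exact b4 k (hKI hk) (ne_of_mem_of_not_mem hk ha) h
      rwa [biUnion_insert, card_insert_of_notMem ha, union_comm (f a), ← union_assoc]
  have e : (V \ I.image pv) ∪ I.biUnion f = V := by
    refine Subset.antisymm (union_subset sdiff_subset (biUnion_subset.2 fun i hi => (hf i hi).1))
      fun v hv => ?_
    by_cases h : v ∈ I.image pv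
    · obtain ⟨i, hi, rfl⟩ := mem_image.1 h
      exact mem_union_right _ (mem_biUnion.2 ⟨i, hi, (hf i hi).2.2.1⟩)
    · exact mem_union_left _ (Finset.mem_sdiff.2 ⟨hv, h⟩)
  simpa only [e] using key I Subset.rfl

theorem probe_det (hd : 2 ≤ d) {S : Finset (Face n d)} {W : Finset (Fin n) → Finset (Face n d)}
    (hW : OV S W) (j : ℕ) {ι : Type} [DecidableEq ι] (I : Finset ι) (V : Finset (Fin n))
    (f : ι → Finset (Fin n)) (pv : ι → Fin n) (R : ι → Finset (Finset (Fin n)))
    (hf : ∀ i ∈ I, f i ⊆ V ∧ (f i).card = d + 1 ∧ pv i ∈ f i ∧ ∀ k ∈ I, k ≠ i → pv i ∉ f k)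
    (hR : ∀ i ∈ I, (∀ x ∈ R i, Rs S j x) ∧ (R i = {f i} ∨ (¬ Rs S j (f i) ∧ ∃ u ∉ f i, ∃ w ∈ f i,
      R i = ((f i).erase w).image fun x => insert u ((f i).erase x)))) (y : ℕ) :
    DS d V (I.card * (d + 2) ^ (j + 1)) y S ∨ ∃ G ⊆ I,
      (I \ G).card ≤ (2 * d + 3) * y + ((2 * d + 3) * y) ^ (d + 2) ∧
      ∀ a ∈ G, ∀ b ∈ G, a ≠ b → Disjoint ((R a).biUnion W) ((R b).biUnion W) := by
  classical
  rcases I.eq_empty_or_nonempty with rfl | ⟨i0, hi0⟩
  · exact Or.inr ⟨∅, Subset.rfl, by simp only [sdiff_self, bot_eq_empty, card_empty, zero_le], by simp⟩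
  have hn : 2 ≤ n := by
    have := card_le_univ (f i0)
    rw [Fintype.card_fin, (hf i0 hi0).2.1] at this
    omega
  have hex : ∀ i, ∃ u w : Fin n, i ∈ I → R i ≠ {f i} → ¬ Rs S j (f i) ∧ u ∉ f i ∧ w ∈ f i ∧
      R i = ((f i).erase w).image fun x => insert u ((f i).erase x) := fun i => by
    by_cases h : i ∈ I ∧ R i ≠ {f i}
    · obtain ⟨a, u, b, w, c, e⟩ := (hR i h.1).2.resolve_left h.2
      exact ⟨u, w, fun _ _ => ⟨a, b, c, e⟩⟩
    · exact ⟨pv i, pv i, fun a b => absurd ⟨a, b⟩ h⟩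
  choose u w huw using hex
  obtain ⟨St, hSt⟩ : ∃ St : Finset ι, ∀ i, i ∈ St ↔ i ∈ I ∧ R i ≠ {f i} :=
    ⟨I.filter fun i => R i ≠ {f i}, fun i => mem_filter⟩
  have hStI : St ⊆ I := fun i hi => ((hSt i).1 hi).1
  have hu : ∀ i ∈ St, ¬ Rs S j (f i) ∧ u i ∉ f i ∧ w i ∈ f i ∧
      R i = ((f i).erase (w i)).image fun x => insert (u i) ((f i).erase x) := fun i hi =>
    huw i ((hSt i).1 hi).1 ((hSt i).1 hi).2
  have hA : ∀ i ∈ I, i ∉ St → R i = {f i} := fun i hi h => by
    by_contra h'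
    exact h ((hSt i).2 ⟨hi, h'⟩)
  obtain ⟨ord, hord⟩ := Set.countable_iff_exists_injOn.1 St.countable_toSet
  let C0 : Finset (Fin n) → Prop := fun x =>
    ∀ M : Submodule (ZMod 2) (Finset (Fin n) → ZMod 2), (∀ x ∈ I.biUnion R, bd d x ∈ M) →
      (∀ x ∈ St.image f, bd d x ∈ M) → bd d x ∈ M
  have c1 : ∀ i ∈ I, C0 (f i) := fun i hi M h1 h2 => by
    by_cases h : i ∈ St
    · exact h2 _ (mem_image_of_mem _ h)
    · exact h1 _ (mem_biUnion.2 ⟨i, hi, by simp [hA i hi h]⟩)
  have c2 : ∀ i ∈ St, ∀ x ∈ f i, C0 (insert (u i) ((f i).erase x)) := fun i hi x hx M h1 h2 => by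
    obtain ⟨-, b2, b3, b4⟩ := hu i hi
    have h3 : ∀ x ∈ (f i).erase (w i), bd d (insert (u i) ((f i).erase x)) ∈ M := fun x hx =>
      h1 _ (mem_biUnion.2 ⟨i, hStI hi, b4 ▸ mem_image_of_mem _ hx⟩)
    by_cases e : x = w i
    · exact e ▸ bd_last M (hf i (hStI hi)).2.1 b2 b3 (c1 i (hStI hi) M h1 h2) h3
    · exact h3 x (mem_erase.2 ⟨e, hx⟩)
  obtain ⟨T, t1, t2⟩ := (probe_roots hd hn I V f pv hf c1).steps f u ord St hord fun s hs =>
    ⟨(hf s (hStI hs)).1.trans subset_union_left, (hf s (hStI hs)).2.1, c2 s hs⟩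
  have hsub : ∀ i ∈ St, ∀ x ∈ R i, u i ∈ x ∧ x ⊆ insert (u i) V := fun i hi x hx => by
    rw [(hu i hi).2.2.2] at hx
    obtain ⟨z, -, rfl⟩ := mem_image.1 hx
    exact ⟨mem_insert_self _ _,
      insert_subset_insert _ ((erase_subset _ _).trans (hf i (hStI hi)).1)⟩
  have hB : ∀ i ∈ St, insert (u i) V ⊆ V ∪ St.image u := fun i hi =>
    insert_subset (mem_union_right _ (mem_image_of_mem _ hi)) subset_union_left
  obtain ⟨A, Z, L, C, y', a1, a2, a3, a4, a5, a6, a7, a8⟩ := hW.2.2 j _ _ T (I.biUnion R)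
    (St.image f) (fun x hx => by
      obtain ⟨i, hi, hx⟩ := mem_biUnion.1 hx
      refine ⟨?_, (hR i hi).1 x hx⟩
      by_cases h : i ∈ St
      · exact (hsub i h x hx).2.trans (hB i h)
      · rw [hA i hi h, mem_singleton] at hx
        exact hx ▸ (hf i hi).1.trans subset_union_left)
    fun M h1 h2 => t1.mono fun x hx => hx M h1 h2
  by_cases hy : y ≤ y'
  · left
    have e1 : (St.image f).card ≤ I.card := card_image_le.trans (card_le_card hStI)
    have e2 : (St.image u \ V).card ≤ I.card :=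
      (card_le_card sdiff_subset).trans (card_image_le.trans (card_le_card hStI))
    have e3 : (I.biUnion R).card ≤ I.card * d := card_biUnion_le_card_mul _ _ _ fun i hi => by
      by_cases h : i ∈ St
      · rw [(hu i h).2.2.2]
        exact (faces_spec (hf i hi).2.1 (hu i h).2.1 (hu i h).2.2.1).1.le
      · rw [hA i hi h, card_singleton]
        omega
    have e4 := card_union_le (St.image u \ V) A
    refine ⟨(St.image u \ V) ∪ A, ?_, L, fun t ht => ⟨(a2 t ht).1, ?_⟩, ?_⟩
    · have e5 : 1 ≤ (d + 2) ^ j := Nat.one_le_pow _ _ (by omega)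
      have e6 := Nat.mul_le_mul_right ((d + 2) ^ j) e3
      have e7 := Nat.mul_le_mul_left I.card e5
      calc _ ≤ I.card * (d + 2) ^ j + I.card * d * (d + 2) ^ j := by omega
        _ ≤ I.card * (d + 2) ^ j + I.card * d * (d + 2) ^ j + I.card * (d + 2) ^ j := by omega
        _ = _ := by ring
    · rw [← union_assoc, union_sdiff_self_eq_union]
      exact (a2 t ht).2
    · have := Nat.mul_le_mul_left d e4
      rw [mul_add] at this
      omega
  right
  have hZ : Z.card ≤ (2 * d + 3) * y := a4.trans (Nat.mul_le_mul_left _ (by omega))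
  have hT : (T.filter fun c => ∀ w ∈ c, Rs S j (c.erase w)) = ∅ :=
    filter_eq_empty_iff.2 fun c hc h => by
      obtain ⟨s, hs, -, rfl⟩ := (t2 c hc).resolve_left (notMem_empty _)
      have := h (u s) (mem_insert_self _ _)
      rw [erase_insert (hu s hs).2.1] at this
      exact (hu s hs).1 this
  rw [hT, card_empty, add_zero] at a6
  have hnew : ∀ i ∈ St, pv i ∉ Z →
      u i ∉ V ∪ (St.filter fun t => ord t < ord i).image u := fun i hi hz => by
    obtain ⟨b1, b2, b3, b4⟩ := hf i (hStI hi)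
    rcases a8 (insert (u i) (f i)) ((insert_subset_insert _ b1).trans (hB i hi))
      (by rw [card_insert_of_notMem (hu i hi).2.1, b2]) (fun M h1 h2 x hx => by
        rcases mem_insert.1 hx with rfl | hx
        · rw [erase_insert (hu i hi).2.1]
          exact c1 i (hStI hi) M h1 h2
        · rw [erase_insert_of_ne (ne_of_mem_of_not_mem hx (hu i hi).2.1).symm]
          exact c2 i hi x hx M h1 h2) with h | h
    · exact absurd (h (mem_insert_of_mem b3)) hz
    · obtain ⟨s, hs, s1, s2⟩ := (t2 _ h).resolve_left (notMem_empty _)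
      by_cases e : s = i
      · exact e ▸ s1
      · rcases mem_insert.1 (s2 ▸ mem_insert_of_mem b3 : pv i ∈ insert (u s) (f s)) with h | h
        · exact absurd (mem_union_left _ (h ▸ b1 b3)) s1
        · exact absurd h (b4 s (hStI hs) e)
  have hdis : ∀ a ∈ I, pv a ∉ Z → ∀ b ∈ I, pv b ∉ Z → a ≠ b → ∀ x ∈ R a, x ∉ R b := by
    have k1 : ∀ a ∈ I, a ∉ St → ∀ b ∈ St, pv b ∉ Z → ∀ x ∈ R a, x ∉ R b :=
      fun a ha ha' b hb hz x h1 h2 => by
        rw [hA a ha ha', mem_singleton] at h1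
        exact hnew b hb hz (mem_union_left _ ((hf a ha).1 (h1 ▸ (hsub b hb x h2).1)))
    have k2 : ∀ a ∈ St, ∀ b ∈ St, pv b ∉ Z → ord a < ord b → ∀ x ∈ R a, x ∉ R b :=
      fun a ha b hb hz hlt x h1 h2 => by
        rcases mem_insert.1 ((hsub a ha x h1).2 (hsub b hb x h2).1) with h | h
        · exact hnew b hb hz (mem_union_right _ (mem_image.2 ⟨a, mem_filter.2 ⟨ha, hlt⟩, h.symm⟩))
        · exact hnew b hb hz (mem_union_left _ h)
    intro a ha za b hb zb hab x h1 h2
    by_cases sa : a ∈ St <;> by_cases sb : b ∈ St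
    · rcases lt_trichotomy (ord a) (ord b) with h | h | h
      · exact k2 a sa b sb zb h x h1 h2
      · exact hab (hord sa sb h)
      · exact k2 b sb a sa za h x h2 h1
    · exact k1 b hb sb a sa za x h2 h1
    · exact k1 a ha sa b sb zb x h1 h2
    · rw [hA a ha sa, mem_singleton] at h1
      rw [hA b hb sb, mem_singleton] at h2
      exact (hf a ha).2.2.2 b hb hab.symm (h2 ▸ h1 ▸ (hf a ha).2.2.1)
  refine ⟨I.filter fun i => pv i ∉ Z ∧ R i ⊆ C, filter_subset _ _, ?_, fun a ha b hb hab => ?_⟩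
  · have e1 : (I.filter fun i => pv i ∈ Z).card ≤ Z.card :=
      card_le_card_of_injOn pv (fun i hi => (mem_filter.1 hi).2) fun a ha b hb e => by
        by_contra hne
        have ha' := (mem_filter.1 ha).1
        have hb' := (mem_filter.1 hb).1
        exact (hf b hb').2.2.2 a ha' hne (e ▸ (hf a ha').2.2.1)
    have hx : ∀ i, ∃ x : Finset (Fin n), ¬ R i ⊆ C → x ∈ R i ∧ x ∉ C := fun i => by
      by_cases h : R i ⊆ C
      · exact ⟨∅, fun h' => absurd h h'⟩
      · obtain ⟨x, h1, h2⟩ := not_subset.1 h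
        exact ⟨x, fun _ => ⟨h1, h2⟩⟩
    choose g hg using hx
    have e2 : (I.filter fun i => pv i ∉ Z ∧ ¬ R i ⊆ C).card ≤ (I.biUnion R \ C).card :=
      card_le_card_of_injOn g (fun i hi => by
        obtain ⟨b1, -, b3⟩ := mem_filter.1 hi
        exact Finset.mem_sdiff.2 ⟨mem_biUnion.2 ⟨i, b1, (hg i b3).1⟩, (hg i b3).2⟩) fun a ha b hb e => by
        by_contra hne
        obtain ⟨b1, b2, b3⟩ := mem_filter.1 ha
        obtain ⟨d1, d2, d3⟩ := mem_filter.1 hb
        exact hdis a b1 b2 b d1 d2 hne _ (hg a b3).1 (e ▸ (hg b d3).1)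
    have e3 : I \ (I.filter fun i => pv i ∉ Z ∧ R i ⊆ C) ⊆
        (I.filter fun i => pv i ∈ Z) ∪ I.filter fun i => pv i ∉ Z ∧ ¬ R i ⊆ C := fun i hi => by
      simp only [Finset.mem_sdiff, Finset.mem_filter, Finset.mem_union] at hi ⊢
      tauto
    have e4 := (card_le_card e3).trans (card_union_le _ _)
    have e5 := Nat.pow_le_pow_left hZ (d + 2)
    omega
  · obtain ⟨b1, b2, b3⟩ := mem_filter.1 ha
    obtain ⟨d1, d2, d3⟩ := mem_filter.1 hb
    refine (disjoint_biUnion_left _ _ _).2 fun x hx => (disjoint_biUnion_right _ _ _).2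
      fun x' hx' => a7 x (b3 hx) x' (d3 hx') fun e => hdis a b1 b2 b d1 d2 hab x hx (e ▸ hx')

end Pool.Agent.MP_8f9e6e_pr

end

end
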