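import Pool.Agent.MP_8f9e6e_pr.Jump.P2
import Pool.Agent.MP_8f9e6e_pr.Jump.P1

attribute [-instance] IdemSemiring.toCanonicallyOrderedAdd AddQuantale.instAddLeftMono
  covariant_swap_mul_of_covariant_mul IsOrderedMonoid.toMulLeftMono IdemSemiring.toMulLeftMono
  NumberField.to_charZero AddQuantale.instAddRightMono
  ContinuousMonoidHom.instCoeOutOfMonoidHomClassOfContinuousMapClass Quantale.instMulLeftMono
  instCoeHTCOfCoeHeadOfCoeOTC instCoeHTCTOfCoeTailOfCoeHTC Quantale.instMulRightMono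
  instCoeOTCOfCoeTC CanonicallyOrderedAdd.toMulLeftMono instCoeOutOfCoeFun
  RCLike.toInnerProductSpaceReal instCoeTOfCoeDep NeZero.of_gt' List.instDecidableMemOfLawfulBEq
  FunLike.toDecidableEq bot_nonempty Group.IsPerfect.subsingleton_of_isMulCommutative
  CanonicallyOrderedMul.toMulLeftMono Invertible.toNeZero CStarAlgebra.instOrderClosedTopology
  Finset.decidableDforallFinset Nontrivial.to_nonempty CompletePartialOrder.toPartialOrder
  Multiset.decidableDforallMultiset AddCommGroup.toAddGroup TestFunctionClass.toDFunLike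
  instCoeOutOfCoeSort IsometryClass.instCoeOutIsometryEquiv AddGroupWithOne.toAddGroup
  Zero.instNonempty Vector.instDecidableForallForallMemOfDecidablePred
  ContDiffMapSupportedInClass.toDFunLike Array.instDecidableForallForallMemOfDecidablePred
  ContinuousAddMonoidHom.instCoeOutOfAddMonoidHomClassOfContinuousMapClass
  HomeomorphClass.instCoeOutHomeomorph Option.decidableForallMem

/-! Early rounds: counting and concentration, second part. -/

section

/-! Bounded structures, typical events. -/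

section

/-! Upper bound for the density of the rounds. -/

open Finset Filter

namespace Pool.Agent.MP_8f9e6e_pr

variable {d : ℕ}

theorem sup_least {n : ℕ} {S : Finset (Face n d)} {k : ℕ} {f : Finset (Fin n)} (h : Rs S k f) :
    inS S f ∨ ∃ i < k, ¬ Rs S i f ∧ ∃ u ∉ f, ∀ w ∈ f, Rs S i (insert u (f.erase w)) := by
  induction k with
  | zero => exact Or.inl h
  | succ k ih =>
    by_cases h' : Rs S k f
    · exact (ih h').imp_right fun ⟨i, a, b⟩ => ⟨i, by omega, b⟩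
    · exact Or.inr ⟨k, by omega, h', (h.resolve_left h').2⟩

theorem sup_step (hd : 2 ≤ d) (j : ℕ) : ∃ C : ℝ, 0 ≤ C ∧ ∀ (n : ℕ) (p a : ℝ), 0 ≤ p →
    p ≤ 1 / 2 → n * p ^ d ≤ 1 →
    (∀ x : Finset (Fin n), Pr p (fun S : Finset (Face n d) => Rs S j x) ≤ a) →
    ∀ f : Finset (Fin n), Pr p (fun S : Finset (Face n d) => Rs S (j + 1) f) ≤
      p + n * a ^ (d + 1) + C * p ^ 2 := by
  classical
  refine ⟨cDS d (d + 1) ((d + 1) * (d + 2) ^ j + 1) 2, by positivity,
    fun n p a h0 h1 hn ha f => ?_⟩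
  have h2 : p ≤ 1 := by linarith only [h1]
  have a0 : 0 ≤ a := (Pr_nonneg h0 h2 _).trans (ha ∅)
  by_cases hf : f.card = d + 1
  swap
  · rw [Pr_false fun S hS => hf hS.card]
    positivity
  have por : ∀ E F : Finset (Face n d) → Prop,
      Pr p (fun S => E S ∨ F S) ≤ Pr p E + Pr p F := fun E F =>
    (le_add_of_nonneg_right (Pr_nonneg h0 h2 _)).trans (Pr_or_and p _ _).le
  have e1 : Pr p (fun S : Finset (Face n d) => inS S f) ≤ p := by
    simpa using pr_all (d := d) h0 h2 {f}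
  have e2 := pr_ds h0 h2 hn hf.le ((d + 1) * (d + 2) ^ j + 1) 2
  have e3 : Pr p (fun S : Finset (Face n d) => ∃ u, ∃ W : Fin n → Finset (Face n d),
      (∀ w ∈ f, W w ⊆ S ∧ Rs (W w) j (insert u (f.erase w))) ∧
      ∀ w ∈ f, ∀ w' ∈ f, w ≠ w' → Disjoint (W w) (W w')) ≤ n * a ^ (d + 1) := by
    refine (Pr_union h0 h2 univ _ fun S ⟨u, hu⟩ => ⟨u, mem_univ u, hu⟩).trans
      ((sum_le_card_nsmul _ _ (a ^ (d + 1)) fun u _ => ?_).trans (by simp only [card_univ, Fintype.card_fin, nsmul_eq_mul, Std.le_refl]))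
    refine (bk_prod h0 h1 f (E := fun w (S : Finset (Face n d)) =>
      Rs S j (insert u (f.erase w))) fun w _ => up_rs j _).trans ?_
    exact (prod_le_prod (g := fun _ => a) (fun i _ => Pr_nonneg h0 h2 _) fun i _ => ha _).trans
      (by rw [prod_const, hf])
  refine le_trans (Pr_mono h0 h2 fun S hS => ?_)
    ((por _ _).trans (add_le_add ((por _ _).trans (add_le_add e1 e3)) e2))
  rcases sup_least hS with h | ⟨i, hi, n1, u, hu, n2⟩
  · exact Or.inl (Or.inl h)
  obtain ⟨W, w1, w2, hw⟩ := exists_ov hd S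
  obtain ⟨v, hv⟩ := card_pos.1 (show 0 < f.card by omega)
  obtain ⟨A, Z, L, C, y, b1, b2, b3, b4, -, b6, b7, -⟩ := hw i (insert u (∅ ∪ f)) (0 + 1 + d)
    (insert (insert u f) ∅) (f.image fun w => insert u (f.erase w)) ∅
    (fun x hx => by
      obtain ⟨w, hw, rfl⟩ := mem_image.1 hx
      exact ⟨insert_subset_insert _ ((erase_subset _ _).trans subset_union_right), n2 w hw⟩)
    fun M hM _ => by
      have hM' := fun w hw => hM _ (mem_image_of_mem (fun w => insert u (f.erase w)) (a := w) hw)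
      exact (Lev.nil.root hd hf (bd_first M hf hu hM') hv (notMem_empty v)).tree
        subset_union_right hf (by simpa using hu) hM'
  rcases Nat.eq_zero_or_pos y with rfl | hy
  · have hZ : Z = ∅ := card_eq_zero.1 (by omega)
    subst hZ
    have e4 : (f.image fun w => insert u (f.erase w)) ⊆ C := by
      rw [← sdiff_eq_empty_iff_subset, ← card_eq_zero]
      rw [card_empty, zero_pow (by omega), zero_add] at b6
      refine Nat.le_zero.1 (b6.trans (card_eq_zero.2 (filter_eq_empty_iff.2 fun c hc h => ?_)).le)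
      rw [(mem_insert.1 hc).resolve_right (notMem_empty c)] at h
      have := h u (mem_insert_self _ _)
      rw [erase_insert hu] at this
      exact n1 this
    refine Or.inl (Or.inr ⟨u, fun w => W (insert u (f.erase w)),
      fun w hw => ⟨w1 _, Rd.mono (by omega) (w2 _ _ (n2 w hw))⟩, fun w hw w' hw' hne =>
        b7 _ (e4 (mem_image_of_mem _ hw)) _ (e4 (mem_image_of_mem _ hw')) fun e => ?_⟩)
    have : w ∈ insert u (f.erase w) := e ▸ mem_insert_of_mem (mem_erase.2 ⟨hne, hw⟩)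
    simp [ne_of_mem_of_not_mem hw hu] at this
  · have c1 := card_insert_le u A
    have c2 : A.card ≤ (d + 1) * (d + 2) ^ j := b1.trans (Nat.mul_le_mul (card_image_le.trans hf.le)
      (Nat.pow_le_pow_right (by omega) (by omega)))
    refine Or.inr ⟨insert u A, by omega, L, fun t ht => ⟨(b2 t ht).1, (b2 t ht).2.trans ?_⟩, ?_⟩
    · rw [empty_union, insert_union, union_insert]
    · have := Nat.mul_le_mul_left d c1
      rw [card_empty] at b3
      rw [mul_add] at this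
      omega

theorem sup_small (hd : 2 ≤ d) (G : ℝ) {η : ℝ} (hη : 0 < η) :
    ∀ᶠ n : ℕ in atTop, ∀ z : ℝ, 0 < z → (d + 1) * (n * z ^ d) = 1 → G * z ≤ η := by
  filter_upwards [tendsto_natCast_atTop_atTop.eventually_ge_atTop ((|G| / η) ^ d)]
    with n hn z z0 hz
  by_contra h
  rw [not_le] at h
  have h1 : 1 < |G| / η * z := by
    rw [div_mul_eq_mul_div, one_lt_div hη]
    exact h.trans_le (mul_le_mul_of_nonneg_right (le_abs_self G) z0.le)
  have h2 := one_lt_pow₀ h1 (show d ≠ 0 by omega)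
  rw [mul_pow] at h2
  have h3 := mul_le_mul_of_nonneg_right hn (pow_pos z0 d).le
  have h4 : (0 : ℝ) ≤ d * (n * z ^ d) := by positivity
  linarith only [hz, h2, h3, h4]

theorem ev_sup (hd : 2 ≤ d) (j : ℕ) {g η : ℝ} (h0 : 0 ≤ g) (h1 : g ≤ 1) (hη : 0 < η) :
    ∀ᶠ n : ℕ in atTop, ∀ z p : ℝ, 0 < z → (d + 1) * (n * z ^ d) = 1 → 0 ≤ p → p ≤ g * z →
      ∀ f : Finset (Fin n), Pr p (fun S : Finset (Face n d) => Rs S j f) ≤ (ys d g j + η) * z := by
  induction j generalizing η with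
  | zero =>
    filter_upwards [sup_small hd 1 one_pos] with n a1 z p z0 hz p0 p1 f
    have p2 : p ≤ 1 := by nlinarith only [a1 z z0 hz, h0, h1, p1]
    have e1 : Pr p (fun S : Finset (Face n d) => inS S f) ≤ p := by
      simpa using pr_all (d := d) p0 p2 {f}
    exact e1.trans (p1.trans (by rw [ys]; nlinarith only [hη, z0]))
  | succ j ih =>
    obtain ⟨C, C0, hC⟩ := sup_step hd j
    have hc : ContinuousAt (fun e : ℝ => (ys d g j + e) ^ (d + 1)) 0 := by fun_prop
    have hev := hc.eventually (gt_mem_nhds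
      (show (fun e : ℝ => (ys d g j + e) ^ (d + 1)) 0 < ys d g j ^ (d + 1) + η / 2 by
        simp [hη]))
    obtain ⟨e, he, e0⟩ := ((hev.filter_mono nhdsWithin_le_nhds).and
      (self_mem_nhdsWithin (s := Set.Ioi (0 : ℝ)))).exists
    filter_upwards [ih e0, sup_small hd C (half_pos hη),
      sup_small hd 1 (show (0 : ℝ) < 1 / 2 by norm_num)] with n a1 a2 a3 z p z0 hz p0 p1 f
    have p2 : p ≤ z := p1.trans (by nlinarith only [h1, z0])
    have h4 : (0 : ℝ) ≤ d * (n * z ^ d) := by positivity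
    have u1 : n * p ^ d ≤ 1 := le_trans (by gcongr) (show n * z ^ d ≤ 1 by linarith only [hz, h4])
    refine (hC n p _ p0 (by linarith only [a3 z z0 hz, p2]) u1 (a1 z p z0 hz p0 p1) f).trans ?_
    have d0 : (0 : ℝ) < d + 1 := by positivity
    have b0 : n * z ^ d = 1 / (d + 1) := by
      rw [eq_div_iff d0.ne', mul_comm, hz]
    have b1 : n * ((ys d g j + e) * z) ^ (d + 1) = (ys d g j + e) ^ (d + 1) / (d + 1) * z := by
      rw [mul_pow, pow_succ z, div_eq_mul_one_div, ← b0]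
      ring
    have b2 : (ys d g j + e) ^ (d + 1) / (d + 1) ≤ ys d g j ^ (d + 1) / (d + 1) + η / 2 := by
      refine (div_le_div_of_nonneg_right he.le d0.le).trans ?_
      rw [add_div]
      have : η / 2 / (d + 1) ≤ η / 2 := div_le_self (by positivity) (by
        have : (0 : ℝ) ≤ d := by positivity
        linarith only [])
      linarith only [this]
    have b3 : C * p ^ 2 ≤ η / 2 * z := by
      calc C * p ^ 2 ≤ C * z ^ 2 := by gcongr
        _ = C * z * z := by ring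
        _ ≤ _ := by gcongr; exact a2 z z0 hz
    have b4 := mul_le_mul_of_nonneg_right b2 z0.le
    rw [b1, ys]
    linarith only [p1, b3, b4]

end Pool.Agent.MP_8f9e6e_pr

end

section

/-! Lower bound for the density of the rounds. -/

open Finset Filter

namespace Pool.Agent.MP_8f9e6e_pr

variable {d : ℕ}

theorem inf_rd {n h : ℕ} {S : Set (Finset (Fin n))} : ∀ {t : Tr n d} {v : Fin (d + 1) → Fin n},
    t ∈ trees n d h → t.Ok v → (∀ g ∈ t.L v, g ∈ S) → Rd d S h (univ.image v) := by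
  classical
  induction h with
  | zero =>
    intro t v ht _ hS
    rw [mem_singleton.1 ht] at hS
    exact hS _ (mem_singleton_self _)
  | succ h ih =>
    intro t v ht ok hS
    rcases mem_insert.1 ht with rfl | ht
    · exact Rd.mono (Nat.zero_le _) (hS _ (mem_singleton_self _))
    · obtain ⟨⟨u, c⟩, h1, rfl⟩ := mem_image.1 ht
      refine Or.inr ⟨Tr.card_img ok.1, u, fun e => ?_, fun w hw => ?_⟩
      · obtain ⟨i, -, e⟩ := mem_image.1 e
        exact ok.ne i e
      · obtain ⟨i, -, rfl⟩ := mem_image.1 hw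
        rw [← Tr.img ok.1]
        exact ih ((mem_tup.1 (mem_sigma.1 h1).2).1 i) (ok.child i) fun g hg => hS g (Tr.L_sub i hg)

theorem inf_fin {n : ℕ} {p : ℝ} (hd : 2 ≤ d) (h0 : 0 ≤ p) (h1 : p ≤ 1) {h K : ℕ}
    (hK : d + (d + 2) ^ h ≤ K) {x : ℕ → ℝ} (hx : ∀ h, 0 ≤ x h) (x0 : x 0 ≤ p)
    (x1 : ∀ h, x (h + 1) ≤ p + (n - K) * x h ^ (d + 1)) {b : ℝ} (b1 : b ≤ 1)
    (hb : p * (4 ^ (2 * K) ^ (d + 1) * Real.exp (n * p ^ d)) ≤ b) (f : Face n d) :
    x h * (1 - b) ≤ Pr p (fun S : Finset (Face n d) => Rs S h f.1) := by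
  classical
  set Ψ := 4 ^ (2 * K) ^ (d + 1) * Real.exp (n * p ^ d) with hΨ
  set I := idx n d h with hI
  set A := I.filter fun i => i.1 = f with hA
  let T : Face n d × Tr n d → Finset (Finset (Fin n)) := fun i => i.2.L (vs i.1)
  have hT : ∀ i ∈ I, ∀ t ∈ T i, t.card = d + 1 := fun i hi t => (idx_spec hi).1.card
  have sub : ∀ i j, ((T j).filter fun g => ¬ g ⊆ i.2.R (vs i.1)).card ≤ (T j \ T i).card :=
    fun i j => card_le_card fun g hg => mem_sdiff.2 ⟨(mem_filter.1 hg).1, fun e =>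
      (mem_filter.1 hg).2 (Tr.sub_R e)⟩
  set μ := ∑ i ∈ A, p ^ (T i).card with hμ
  have m1 : x h ≤ μ := by
    have : 1 ≤ (d + 2) ^ h := Nat.succ_le_of_lt (by positivity)
    refine (trees_sum h0 hx x0 x1 h f.1 (by rw [f.2]; omega)).trans ?_
    have e : A = ((trees n d h).filter fun t => Disjoint t.V f.1).image fun t => (f, t) := by
      ext ⟨f', t⟩
      simp only [hA, hI, idx, mem_filter, mem_product, mem_univ, true_and, mem_image,
        Prod.mk.injEq]
      exact ⟨fun ⟨a, e⟩ => ⟨t, e ▸ a, e.symm, rfl⟩, fun ⟨t', a, e1, e2⟩ => ⟨e1 ▸ e2 ▸ a, e1.symm⟩⟩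
    rw [hμ, e, sum_image fun _ _ _ _ e => (Prod.mk.inj e).2]
    exact sum_le_sum fun t ht =>
      pow_le_pow_of_le_one h0 h1 (Tr.card_L_le (trees_spec (mem_filter.1 ht).1).1)
  let J := A.sigma fun i => I.filter fun j => j.1 = i.1 ∧ j ≠ i
  let Z : Finset (Face n d) → ℝ := fun S =>
    ∑ y ∈ J, if ∀ t ∈ T y.1 ∪ T y.2, inS S t then 1 else 0
  have z0 : ∀ S, 0 ≤ Z S := fun S => sum_nonneg fun _ _ => by split_ifs <;> norm_num
  have e1 : ∑ S : Finset (Face n d), wt p S * ∑ i ∈ A, (if ∀ t ∈ T i, inS S t then 1 else 0) =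
      μ := by
    simp only [mul_sum]
    rw [sum_comm]
    exact sum_congr rfl fun i hi => ex_all p (hT i (mem_filter.1 hi).1)
  have e2 : ∑ S, wt p S * Z S ≤ μ * (p * Ψ) := by
    simp only [Z, mul_sum]
    rw [sum_comm, sum_sigma, hμ, sum_mul]
    refine sum_le_sum fun i hi => ?_
    replace hi := (mem_filter.1 hi).1
    refine le_trans ?_ (mul_le_mul_of_nonneg_left (mul_le_mul_of_nonneg_left
      (idx_sum hd h0 hK ((idx_spec hi).2.trans hK)) h0) (by positivity))
    rw [mul_sum, mul_sum]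
    refine le_trans (sum_le_sum fun j hj => ?_)
      (sum_le_sum_of_subset_of_nonneg (filter_subset _ _) fun _ _ _ => by positivity)
    obtain ⟨j1, j2, j3⟩ := mem_filter.1 hj
    rw [ex_all p fun t ht => (mem_union.1 ht).elim (hT i hi t) (hT j j1 t), union_comm,
      ← card_sdiff_add_card, pow_add, mul_comm, ← pow_succ']
    refine mul_le_mul_of_nonneg_left (pow_le_pow_of_le_one h0 h1 ?_) (by positivity)
    by_cases hR : j.2.R (vs j.1) ⊆ i.2.R (vs i.1)
    · rw [sdiff_eq_empty_iff_subset.2 hR]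
      refine card_pos.2 (sdiff_nonempty.2 fun e => j3 (Prod.ext j2 ?_))
      exact (idx_spec hi).1.inj hd (j2 ▸ (idx_spec j1).1) (by simpa [T, j2] using e)
    · have := (idx_spec j1).1.out_one (by omega) (i.2.R (vs i.1))
      rw [if_neg hR] at this
      refine le_trans (Nat.succ_le_succ (Nat.mul_le_mul_left _ (card_le_card ?_)))
        (this.trans (sub i j))
      exact fun y hy => Finset.mem_sdiff.2 ⟨(mem_union.1 (Finset.mem_sdiff.1 hy).1).resolve_left
        fun e => (Finset.mem_sdiff.1 hy).2 (mem_union_left _ (j2 ▸ e)), (Finset.mem_sdiff.1 hy).2⟩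
  have m0 : 0 ≤ μ := (hx h).trans m1
  calc _ ≤ μ * (1 - b) := mul_le_mul_of_nonneg_right m1 (by linarith only [b1])
    _ ≤ μ - μ * (p * Ψ) := by nlinarith only [hb, m0]
    _ ≤ ∑ S : Finset (Face n d), wt p S *
        (∑ i ∈ A, (if ∀ t ∈ T i, inS S t then 1 else 0) - Z S) := by
      simp only [mul_sub, sum_sub_distrib]
      linarith only [e1, e2]
    _ ≤ _ := by
      refine sum_le_sum fun S _ => ?_
      have w0 := wt_nonneg h0 h1 S
      rw [← natCast_card_filter]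
      rcases (A.filter fun i => ∀ t ∈ T i, inS S t).eq_empty_or_nonempty with e | ⟨i, hi⟩
      · rw [e, card_empty, Nat.cast_zero]
        have := mul_nonneg w0 (z0 S)
        split_ifs <;> linarith only [w0, this]
      · obtain ⟨a1, a2⟩ := mem_filter.1 hi
        obtain ⟨a3, a4⟩ := mem_filter.1 a1
        have r : Rs S h f.1 := by
          rw [← a4, ← vs_img]
          exact inf_rd (mem_product.1 (mem_filter.1 a3).1).2 (idx_spec a3).1 a2
        rw [if_pos r]
        refine mul_le_of_le_one_right w0 ?_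
        rw [← card_erase_add_one hi, Nat.cast_succ, sub_le_iff_le_add, add_comm, add_le_add_iff_left]
        simp only [Z]
        rw [← natCast_card_filter]
        refine Nat.cast_le.2 (card_le_card_of_injOn (fun j => ⟨i, j⟩) (fun j hj => ?_)
          fun _ _ _ _ e => by simpa using e)
        obtain ⟨c1, c2⟩ := mem_erase.1 hj
        obtain ⟨c3, c4⟩ := mem_filter.1 c2
        obtain ⟨c5, c6⟩ := mem_filter.1 c3
        exact mem_filter.2 ⟨mem_sigma.2 ⟨a1, mem_filter.2 ⟨c5, c6.trans a4.symm, c1⟩⟩,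
          forall_mem_union.2 ⟨a2, c4⟩⟩

theorem ev_inf (hd : 2 ≤ d) (j : ℕ) {g η : ℝ} (h0 : 0 ≤ g) (hη : 0 < η) :
    ∀ᶠ n : ℕ in atTop, ∀ z p : ℝ, 0 < z → (d + 1) * (n * z ^ d) = 1 → g * z ≤ p → p ≤ 2 * z →
      ∀ f : Finset (Fin n), f.card = d + 1 →
        (ys d g j - η) * z ≤ Pr p (fun S : Finset (Face n d) => Rs S j f) := by
  set Y := ys d g j with hY
  have Y0 : 0 ≤ Y := ys_nonneg h0 j
  set ε := η / (2 * (Y + η)) with hε
  have e0 : 0 < ε := by positivity
  have e1 : ε ≤ 1 / 2 := by rw [hε, div_le_iff₀ (by positivity)]; linarith only [Y0]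
  have e2 : 2 * ε * Y ≤ η := by
    rw [hε, ← mul_div_assoc, div_mul_eq_mul_div, div_le_iff₀ (by positivity)]; nlinarith only [hη]
  set K := d + (d + 2) ^ j with hK
  set C : ℝ := 4 ^ (2 * K) ^ (d + 1) * Real.exp (2 ^ d) with hC
  have C1 : 1 ≤ C := one_le_mul_of_one_le_of_one_le (one_le_pow₀ (by norm_num))
    (Real.one_le_exp (by positivity))
  filter_upwards [ev_small hd (η := ε / (2 * C)) (by positivity), eventually_ge_atTop (K + 1),
    (tendsto_const_div_atTop_nhds_zero_nat (((d + 2) ^ j : ℕ) * K : ℝ)).eventually_le_const e0]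
    with n s1 s2 s3 z p z0 hz p1 p2 f hf
  have n0 : (0 : ℝ) < n := by exact_mod_cast (by omega)
  have nK : (K : ℝ) ≤ n := by exact_mod_cast (by omega)
  have d0 : (0 : ℝ) ≤ d := Nat.cast_nonneg d
  have q0 : 0 ≤ n * z ^ d := by positivity
  have q1 : n * z ^ d ≤ 1 := by nlinarith only [hz]
  have z1 := s1 z 1 z0.le zero_le_one q1 (by rw [one_pow]; exact_mod_cast Nat.one_le_two_pow)
  rw [one_mul, le_div_iff₀ (by positivity)] at z1
  have p0 : 0 ≤ p := (mul_nonneg h0 z0.le).trans p1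
  have p3 : p * C ≤ ε := by nlinarith only [C1, p2, z1]
  set l : ℝ := 1 - K / n with hl
  have l0 : 0 ≤ l := by rw [hl, sub_nonneg, div_le_one n0]; exact nK
  have l1 : l ≤ 1 := sub_le_self _ (by positivity)
  have key := inf_fin hd p0 (by nlinarith only [e1, C1, p2, z1]) hK.ge (x := fun i => l ^ (d + 2) ^ i * ys d g i * z)
    (fun i => by have := ys_nonneg (d := d) h0 i; positivity)
    (le_trans (mul_le_mul_of_nonneg_right (mul_le_of_le_one_left h0 (pow_le_one₀ l0 l1)) z0.le) p1)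
    (fun i => ?_) (b := ε) (by linarith only [e0, e1]) (le_trans ?_ p3) ⟨f, hf⟩
  · refine le_trans ?_ key
    have b1 : 1 - ε ≤ l ^ (d + 2) ^ j := by
      have := one_add_mul_le_pow (a := -(K / n : ℝ)) (by rw [hl] at l0; linarith only [l0]) ((d + 2) ^ j)
      rw [mul_div_assoc] at s3
      rw [hl, sub_eq_add_neg 1 (K / n : ℝ)]
      linarith only [s3, this]
    have b2 : (1 - ε) * Y * z * (1 - ε) ≤ l ^ (d + 2) ^ j * Y * z * (1 - ε) := by
      have : 0 ≤ 1 - ε := by linarith only [e0, e1]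
      gcongr
    refine le_trans ?_ b2
    have b3 : Y - η ≤ (1 - ε) * Y * (1 - ε) := by linarith only [mul_nonneg (sq_nonneg ε) Y0, e2]
    nlinarith only [z0, b3]
  · have y0 := ys_nonneg (d := d) h0 i
    have c1 : l ^ (d + 2) ^ (i + 1) ≤ l * (l ^ (d + 2) ^ i) ^ (d + 1) := by
      rw [← pow_mul, ← pow_succ']
      refine pow_le_pow_of_le_one l0 l1 ?_
      have : 1 ≤ (d + 2) ^ i := Nat.succ_le_of_lt (by positivity)
      rw [pow_succ]
      linarith only [this]
    have c2 : (n - K : ℝ) * (l ^ (d + 2) ^ i * ys d g i * z) ^ (d + 1) =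
        l * (l ^ (d + 2) ^ i) ^ (d + 1) * (ys d g i ^ (d + 1) / (d + 1)) * z := by
      have c3 : (n - K : ℝ) = l * n := by rw [hl]; field_simp
      have c4 : n * z ^ d = 1 / (d + 1) := by rw [eq_div_iff (by positivity)]; linarith only [hz]
      rw [c3, mul_pow, mul_pow, pow_succ z, div_eq_mul_one_div, ← c4]
      ring
    rw [c2, ys, mul_add, add_mul]
    refine add_le_add (le_trans (mul_le_mul_of_nonneg_right
      (mul_le_of_le_one_left h0 (pow_le_one₀ l0 l1)) z0.le) p1) ?_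
    gcongr
  · have c1 : n * p ^ d ≤ 2 ^ d := by
      calc _ ≤ n * (2 * z) ^ d := by gcongr
        _ = 2 ^ d * (n * z ^ d) := by rw [mul_pow]; ring
        _ ≤ _ := mul_le_of_le_one_right (by positivity) q1
    rw [hC]
    gcongr

theorem inf_ys (hd : 2 ≤ d) {κ : ℝ} (k0 : 0 < κ) (k1 : κ ≤ 1) :
    ∃ r, 1 - κ ≤ ys d ((1 - κ ^ 2 / 4) * (d / (d + 1))) r := by
  by_contra hc
  push Not at hc
  have d2 : (2 : ℝ) ≤ d := by exact_mod_cast hd
  have g0 : 0 ≤ (1 - κ ^ 2 / 4) * (d / (d + 1) : ℝ) :=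
    mul_nonneg (by nlinarith only [k0, k1]) (by positivity)
  have key : ∀ r : ℕ, r * (κ ^ 2 / 4) ≤ ys d ((1 - κ ^ 2 / 4) * (d / (d + 1))) r := fun r => by
    induction r with
    | zero => simpa only [CharP.cast_eq_zero, zero_mul, ys] using g0
    | succ r ih =>
      have y0 := ys_nonneg (d := d) g0 r
      have y1 := hc r
      rw [ys]
      generalize ys d ((1 - κ ^ 2 / 4) * (d / (d + 1))) r = y at *
      have b1 := one_add_mul_le_pow (a := y - 1) (by linarith only [k0, y0, y1]) d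
      rw [add_sub_cancel] at b1
      have b2 : y * (1 + d * (y - 1)) ≤ y ^ (d + 1) := by
        rw [pow_succ']
        exact mul_le_mul_of_nonneg_left b1 y0
      have b3 : κ ^ 2 ≤ (1 - y) ^ 2 := pow_le_pow_left₀ k0.le (by linarith only [y1]) 2
      have b4 : d * κ ^ 2 ≤ d * (1 - y) ^ 2 := by gcongr
      have b5 : y + κ ^ 2 / 4 ≤ (1 - κ ^ 2 / 4) * (d / (d + 1)) + y ^ (d + 1) / (d + 1) := by
        rw [← mul_div_assoc, ← add_div, le_div_iff₀ (by positivity)]
        nlinarith only [d2, b2, b4]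
      push_cast
      linarith
  obtain ⟨r, hr⟩ := exists_nat_ge (1 / (κ ^ 2 / 4))
  rw [div_le_iff₀ (by positivity)] at hr
  linarith only [key r, hc r, k0, hr]

theorem inf_root (hd : 2 ≤ d) {x : ℝ} (hx : 0 < x) : (x ^ (-(1 / d : ℝ))) ^ d = x⁻¹ := by
  have d0 : (d : ℝ) ≠ 0 := by exact_mod_cast (by omega)
  rw [← Real.rpow_natCast, ← Real.rpow_mul hx.le, ← Real.rpow_neg_one]
  congr 1
  field_simp

theorem J.lowa (hd : 2 ≤ d) {δ : ℝ} (hδ : 0 < δ) : ∃ (r₀ : ℕ) (ρ : ℝ), 0 < ρ ∧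
    ∀ᶠ n : ℕ in atTop, ∀ p : ℝ,
      (1 - ρ) * (((d + 1) ^ (d + 1) / d ^ d : ℝ) ^ (-(1 / d : ℝ)) * (n : ℝ) ^ (-(1 / d : ℝ))) ≤ p →
      p ≤ 2 * (((d + 1) ^ (d + 1) / d ^ d : ℝ) ^ (-(1 / d : ℝ)) * (n : ℝ) ^ (-(1 / d : ℝ))) →
      ∀ r, r₀ ≤ r → ∀ f : Finset (Fin n), f.card = d + 1 →
        (1 - δ) * ((n : ℝ) ^ (-(1 / d : ℝ))) ^ d ≤
          (d + 1) * Pr p (fun S : Finset (Face n d) => Rs S r f) ^ d := by
  have d2 : (2 : ℝ) ≤ d := by exact_mod_cast hd
  set κ := δ / (2 * (d + δ)) with hκ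
  have k0 : 0 < κ := by positivity
  have k1 : κ ≤ 1 / 2 := by rw [hκ, div_le_iff₀ (by positivity)]; linarith only []
  have k2 : d * (2 * κ) ≤ δ := by
    rw [hκ, ← mul_div_assoc, ← mul_div_assoc, div_le_iff₀ (by positivity)]; nlinarith only [hδ]
  obtain ⟨r₀, hr⟩ := inf_ys hd k0 (by linarith only [k0, k1])
  have g0 : 0 ≤ (1 - κ ^ 2 / 4) * (d / (d + 1) : ℝ) :=
    mul_nonneg (by nlinarith only [k0, k1]) (by positivity)
  refine ⟨r₀, κ ^ 2 / 4, by positivity, ?_⟩
  filter_upwards [ev_inf hd r₀ g0 k0, ev_small hd (η := 1 / 2) (by norm_num),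
    eventually_ge_atTop 1] with n s1 s2 s3 p p1 p2 r hr' f hf
  have n0 : (0 : ℝ) < n := by exact_mod_cast s3
  have c0 : (0 : ℝ) < (d + 1) ^ (d + 1) / d ^ d := by positivity
  have c1 := inf_root hd c0
  have c2 := inf_root hd n0
  have c3 := Real.rpow_pos_of_pos c0 (-(1 / d : ℝ))
  have c4 := Real.rpow_pos_of_pos n0 (-(1 / d : ℝ))
  rw [c2]
  generalize ((d + 1) ^ (d + 1) / d ^ d : ℝ) ^ (-(1 / d : ℝ)) = c at *
  generalize (n : ℝ) ^ (-(1 / d : ℝ)) = a at *
  set z : ℝ := (d + 1) / d * (c * a) with hz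
  have z0 : 0 < z := by positivity
  have z1 : (d + 1) * (n * z ^ d) = 1 := by
    rw [hz, mul_pow, mul_pow, c1, c2, div_pow]
    field_simp
    ring
  have z2 : c * a = d / (d + 1) * z := by rw [hz]; field_simp
  have z3 : c * a ≤ z := by
    rw [z2]
    exact mul_le_of_le_one_left z0.le (by rw [div_le_one (by positivity)]; linarith only [k0, k1])
  have q0 : 0 ≤ n * z ^ d := by positivity
  have z4 := s2 z 1 z0.le zero_le_one (by nlinarith only [z1])
    (by rw [one_pow]; exact_mod_cast Nat.one_le_two_pow)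
  have p3 : (1 - κ ^ 2 / 4) * (d / (d + 1)) * z ≤ p := by rw [mul_assoc, ← z2]; exact p1
  have p0 : 0 ≤ p := (mul_nonneg g0 z0.le).trans p3
  have e1 := (s1 z p z0 z1 p3 (by linarith only [p2, z3]) f hf).trans
    (Pr_mono p0 (by linarith only [p2, z3, z4]) fun S (h : Rs S r₀ f) => (Rd.mono hr' h : Rs S r f))
  have e2 : (1 - 2 * κ) * z ≤ Pr p fun S : Finset (Face n d) => Rs S r f :=
    le_trans (mul_le_mul_of_nonneg_right (by linarith only [hr]) z0.le) e1
  have e3 := pow_le_pow_left₀ (mul_nonneg (by linarith only [k1]) z0.le) e2 d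
  have e4 := one_add_mul_le_pow (a := -(2 * κ)) (by linarith only [k0, k1]) d
  rw [← sub_eq_add_neg] at e4
  have e5 : (n : ℝ)⁻¹ = (d + 1) * z ^ d := by
    rw [inv_eq_iff_eq_inv, eq_comm, inv_eq_iff_eq_inv, eq_comm]
    exact inv_eq_of_mul_eq_one_right (by linarith only [z1])
  rw [e5, mul_left_comm]
  refine mul_le_mul_of_nonneg_left (le_trans ?_ e3) (by positivity)
  rw [mul_pow (1 - 2 * κ)]
  exact mul_le_mul_of_nonneg_right (by linarith only [k2, e4]) (by positivity)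

end Pool.Agent.MP_8f9e6e_pr

end

section

/-! A bounded family of sites is free with positive probability. -/

open Finset Filter

namespace Pool.Agent.MP_8f9e6e_pr

variable {d : ℕ}

theorem free_det (hd : 2 ≤ d) {n j : ℕ} {S : Finset (Face n d)} {f : Finset (Fin n)}
    {u w : Fin n} (hf : f.card = d + 1) (hu : u ∉ f) (hw : w ∈ f)
    (h : ∀ x ∈ f.erase w, Rs S j (insert u (f.erase x))) :
    DS d (insert u f) ((d + 1) * (d + 2) ^ j) (d + 1) S ∨
      ∃ W : Finset (Fin n) → Finset (Face n d),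
        (∀ x ∈ (f.erase w).image fun x => insert u (f.erase x), W x ⊆ S ∧ Rs (W x) j x) ∧
        ∀ x ∈ (f.erase w).image fun x => insert u (f.erase x),
          ∀ y ∈ (f.erase w).image fun x => insert u (f.erase x), x ≠ y → Disjoint (W x) (W y) := by
  classical
  obtain ⟨W, w1, w2, w3⟩ := exists_ov hd S
  obtain ⟨e1, e2⟩ := faces_spec hf hu hw
  have hJ : ∀ x ∈ (f.erase w).image fun x => insert u (f.erase x), x ⊆ insert u f ∧ Rs S j x :=
    fun x hx => ⟨(e2 x hx).1, by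
      obtain ⟨a, ha, rfl⟩ := mem_image.1 hx
      exact h a ha⟩
  have hn : 2 ≤ n := by
    have := card_le_univ f
    rw [Fintype.card_fin] at this
    omega
  by_cases hR : Rs S j f
  · left
    obtain ⟨A, Z, L, C, y, a1, a2, a3, -⟩ := w3 j (insert u f) (0 + 1 + d) (insert (insert u f) ∅)
      (insert f ((f.erase w).image fun x => insert u (f.erase x))) ∅
      (fun x hx => by
        rcases mem_insert.1 hx with rfl | hx
        · exact ⟨subset_insert _ _, hR⟩
        · exact hJ x hx)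
      fun M m1 _ => by
        have b1 := m1 f (mem_insert_self _ _)
        have b2 : ∀ x ∈ f.erase w, bd d (insert u (f.erase x)) ∈ M := fun x hx =>
          m1 _ (mem_insert_of_mem (mem_image_of_mem _ hx))
        have t1 := (Lev.nil (d := d) (C := fun x => bd d x ∈ M)).root hd hf b1 hw (notMem_empty _)
        rw [empty_union] at t1
        exact t1.tree Subset.rfl hf hu fun x hx => by
          by_cases e : x = w
          · rw [e]
            exact bd_last M hf hu hw b1 b2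
          · exact b2 x (mem_erase.2 ⟨e, hx⟩)
    refine ⟨A, a1.trans (Nat.mul_le_mul_right _ ((card_insert_le _ _).trans (by omega))), L, a2, ?_⟩
    rw [card_empty] at a3
    omega
  · obtain ⟨A, Z, L, C, y, a1, a2, a3, a4, a5, a6, a7, -⟩ := w3 j (insert u f) d
      (insert (insert u f) ∅) ((f.erase w).image fun x => insert u (f.erase x)) ∅ hJ
      fun M m1 _ => by
        have t1 := (Lev.nil (d := d) (C := fun x => bd d x ∈ M)).free (by omega) hn f
        rw [empty_union] at t1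
        have t2 := Lev.step _ _ _ u w f _ t1 hu Subset.rfl hf.le (ne_of_mem_of_not_mem hw hu) e1.le
          fun x hx => ⟨(e2 x hx).1, (e2 x hx).2.1, (e2 x hx).2.2.1, (e2 x hx).2.2.2.1, m1 x hx⟩
        rwa [e1, if_pos rfl, zero_add] at t2
    rcases Nat.eq_zero_or_pos y with rfl | hy
    · right
      rw [mul_zero, Nat.le_zero] at a4
      rw [a4, zero_pow (by omega), zero_add, filter_eq_empty_iff.2 (fun c hc hc' => by
        rw [insert_empty, mem_singleton] at hc
        have := hc' u (hc ▸ mem_insert_self _ _)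
        rw [hc, erase_insert hu] at this
        exact hR this), card_empty, Nat.le_zero, card_eq_zero, sdiff_eq_empty_iff_subset] at a6
      exact ⟨W, fun x hx => ⟨w1 x, w2 x j (hJ x hx).2⟩, fun x hx y hy => a7 x (a6 hx) y (a6 hy)⟩
    · left
      refine ⟨A, a1.trans (Nat.mul_le_mul_right _ (by omega)), L, a2, ?_⟩
      rw [card_empty] at a3
      omega

theorem free_cell (hd : 2 ≤ d) {n j : ℕ} {p a : ℝ} (h0 : 0 ≤ p) (h1 : p ≤ 1 / 2)
    (hn : n * p ^ d ≤ 1) (a0 : 0 ≤ a)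
    (ha : ∀ x : Finset (Fin n), Pr p (fun S : Finset (Face n d) => Rs S j x) ≤ a)
    (f : Finset (Fin n)) (u w : Fin n) (hf : f.card = d + 1) (hw : w ∈ f) :
    Pr p (fun S : Finset (Face n d) => u ∉ f ∧ ∀ x ∈ f.erase w, Rs S j (insert u (f.erase x))) ≤
      cDS d (d + 2) ((d + 1) * (d + 2) ^ j) (d + 1) * p ^ (d + 1) + a ^ d := by
  have h2 : p ≤ 1 := by linarith only [h1]
  by_cases hu : u ∈ f
  · rw [Pr_false fun S h => h.1 hu]
    positivity
  have b1 := pr_ds (d := d) h0 h2 hn (V := insert u f) (v := d + 2)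
    (by rw [card_insert_of_notMem hu, hf]) ((d + 1) * (d + 2) ^ j) (d + 1)
  have b2 := bk_prod h0 h1 ((f.erase w).image fun x => insert u (f.erase x))
    (E := fun x (S : Finset (Face n d)) => Rs S j x) fun x _ => up_rs j x
  have b3 := b2.trans ((Finset.prod_le_prod (fun x _ => Pr_nonneg h0 h2 _) fun x _ => ha x).trans_eq
    (by rw [prod_const, (faces_spec hf hu hw).1]))
  refine (Pr_mono h0 h2 fun S h => free_det hd hf hu hw h.2).trans ?_
  refine le_trans ?_ (add_le_add b1 b3)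
  rw [← Pr_or_and]
  exact le_add_of_nonneg_right (Pr_nonneg h0 h2 _)

theorem free_exp {q : ℝ} (h0 : 0 ≤ q) (h1 : q ≤ 1 / 2) : Real.exp (-(2 * q)) ≤ 1 - q := by
  rw [Real.exp_neg, inv_le_iff_one_le_mul₀ (Real.exp_pos _)]
  have := Real.add_one_le_exp (2 * q)
  nlinarith

theorem free_small (hd : 2 ≤ d) {ε : ℝ} (hε : 0 < ε) : ∀ᶠ n : ℕ in atTop, ∀ z : ℝ, 0 < z →
    (d + 1) * (n * z ^ d) = 1 → z ≤ ε := by
  filter_upwards [tendsto_natCast_atTop_atTop.eventually_ge_atTop (1 / ε ^ d)] with n hn z z0 hz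
  by_contra h
  rw [not_le] at h
  have h1 : ε ^ d < z ^ d := pow_lt_pow_left₀ h hε.le (by omega)
  have h2 : (0 : ℝ) < ε ^ d := pow_pos hε d
  rw [div_le_iff₀ h2] at hn
  have h3 : (2 : ℝ) ≤ d := by exact_mod_cast hd
  have h4 : n * ε ^ d ≤ n * z ^ d := by gcongr
  nlinarith only [hn, hz, h3, h4]

theorem free_tch {n j : ℕ} {p q : ℝ} (h0 : 0 ≤ p) (h1 : p ≤ 1) (q0 : 0 ≤ q) (q1 : q ≤ 1 / 2)
    (f : Finset (Fin n)) (hq : f.card = d + 1 → ∀ u, ∀ w ∈ f, Pr p (fun S : Finset (Face n d) =>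
      u ∉ f ∧ ∀ x ∈ f.erase w, Rs S j (insert u (f.erase x))) ≤ q) :
    Real.exp (-(2 * q * (n * (d + 1)))) ≤
      Pr p (fun S : Finset (Face n d) => ¬ Tch d (Rs S j) f) := by
  by_cases hf : f.card = d + 1
  · have b := harris_dn_prod h0 h1 ((univ : Finset (Fin n)) ×ˢ f)
      (E := fun r (S : Finset (Face n d)) =>
        ¬ (r.1 ∉ f ∧ ∀ x ∈ f.erase r.2, Rs S j (insert r.1 (f.erase x))))
      fun r _ S T hST hT hS => hT ⟨hS.1, fun x hx => (hS.2 x hx).up hST⟩
    refine le_trans ?_ (b.trans (Pr_mono h0 h1 fun S h ⟨k, _, u, c1, w, c2, _, c3⟩ =>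
      h (u, w) (mem_product.2 ⟨mem_univ _, c2⟩) ⟨c1, c3⟩))
    refine le_trans (le_of_eq ?_) (Finset.prod_le_prod (f := fun _ => Real.exp (-(2 * q)))
      (fun _ _ => (Real.exp_pos _).le) fun r hr => ?_)
    · rw [prod_const, card_product, card_univ, Fintype.card_fin, hf, ← Real.exp_nat_mul]
      push_cast
      ring_nf
    · rw [Pr_compl]
      exact (free_exp q0 q1).trans (sub_le_sub_left (hq hf _ _ (mem_product.1 hr).2) _)
  · rw [Pr_compl, Pr_false fun S ⟨_, h⟩ => hf h.1, sub_zero, Real.exp_le_one_iff, neg_nonpos]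
    positivity

theorem ev_free (hd : 2 ≤ d) (j : ℕ) {g : ℝ} (h0 : 0 ≤ g) (h1 : g ≤ 1) (hy : ys d g j ^ d ≤ 2) :
    ∀ᶠ n : ℕ in atTop, ∀ z p : ℝ, 0 < z → (d + 1) * (n * z ^ d) = 1 → 0 ≤ p → p ≤ g * z →
      ∀ F : Finset (Finset (Fin n)), Real.exp (-(7 * F.card)) ≤
        Pr p (fun S : Finset (Face n d) => ∀ f ∈ F, ¬ Rs S j f ∧ ¬ Tch d (Rs S j) f) := by
  have y0 := ys_nonneg (d := d) h0 j
  obtain ⟨η, hη, η0⟩ : ∃ η : ℝ, (ys d g j + η) ^ d < 5 / 2 ∧ 0 < η := by
    have c : ContinuousAt (fun t : ℝ => (ys d g j + t) ^ d) 0 := by fun_prop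
    exact (((c.eventually_lt_const (by simp only [add_zero]; linarith only [hy])).filter_mono
      nhdsWithin_le_nhds).and (self_mem_nhdsWithin (a := (0 : ℝ)) (s := Set.Ioi 0))).exists
  obtain ⟨C, hC⟩ : ∃ C : ℝ, C = cDS d (d + 2) ((d + 1) * (d + 2) ^ j) (d + 1) := ⟨_, rfl⟩
  have C0 : 0 ≤ C := hC ▸ Nat.cast_nonneg _
  have d2 : (2 : ℝ) ≤ d := by exact_mod_cast hd
  filter_upwards [ev_sup hd j h0 h1 η0, free_small hd (ε := 1 / (2 * (C + ys d g j + η + 1)))
    (by positivity), eventually_ge_atTop 2] with n s1 s2 s3 z p z0 hz p0 hp F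
  have z1 := s2 z z0 hz
  rw [le_div_iff₀ (by positivity)] at z1
  have n2 : (2 : ℝ) ≤ n := by exact_mod_cast s3
  have pz : p ≤ z := hp.trans (mul_le_of_le_one_left z0.le h1)
  have zd : 0 < z ^ d := pow_pos z0 d
  have pd : p ^ d ≤ z ^ d := pow_le_pow_left₀ p0 pz d
  have m1 : 0 ≤ C * z := by positivity
  have m2 : 0 ≤ (ys d g j + η) * z := by positivity
  have p1 : p ≤ 1 / 2 := by linarith only [z1, pz, m1, m2]
  have p2 : p ≤ 1 := by linarith only [z0, z1, pz, m1, m2]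
  have hn : n * p ^ d ≤ 1 := by
    have : n * p ^ d ≤ n * z ^ d := by gcongr
    nlinarith only [hz, this]
  have q1 : 3 * z ^ d ≤ 1 / 2 := by nlinarith only [mul_le_mul_of_nonneg_right n2 zd.le, d2, hz]
  have hq : C * p ^ (d + 1) + ((ys d g j + η) * z) ^ d ≤ 3 * z ^ d := by
    have e1 : C * p ^ (d + 1) ≤ C * z * z ^ d := by
      rw [mul_assoc, ← pow_succ']
      gcongr
    have e2 : C * z * z ^ d ≤ 1 / 2 * z ^ d := by
      gcongr
      linarith only [z0, z1, m2]
    have e3 : (ys d g j + η) ^ d * z ^ d ≤ 5 / 2 * z ^ d := by gcongr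
    rw [mul_pow]
    linarith only [e1, e2, e3]
  refine le_trans ?_ (harris_dn_prod p0 p2 F
    (E := fun f (S : Finset (Face n d)) => ¬ Rs S j f ∧ ¬ Tch d (Rs S j) f) fun f _ S T hST hT =>
      ⟨fun h => hT.1 (h.up hST), fun h => hT.2 (h.mono fun _ => Rs.up hST)⟩)
  refine le_trans (le_of_eq ?_) (Finset.prod_le_prod (f := fun _ => Real.exp (-7))
    (fun _ _ => (Real.exp_pos _).le) fun f _ => ?_)
  · rw [prod_const, ← Real.exp_nat_mul]
    ring_nf
  refine le_trans ?_ (harris_dn p0 p2 (fun S T hST hT h => hT (h.up hST))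
    fun S T hST hT h => hT (h.mono fun _ => Rs.up hST))
  have t1 := free_tch (j := j) p0 p2 (q := 3 * z ^ d) (by positivity) q1 f fun hf u w hw =>
    (free_cell hd p0 p1 hn m2 (s1 z p z0 hz p0 hp) f u w hf hw).trans (hC ▸ hq)
  rw [show 2 * (3 * z ^ d) * (n * (d + 1)) = 6 * ((d + 1) * (n * z ^ d)) by ring, hz] at t1
  have t2 : Real.exp (-1) ≤ Pr p fun S : Finset (Face n d) => ¬ Rs S j f := by
    have := free_exp (q := 1 / 2) (by norm_num) le_rfl
    have := s1 z p z0 hz p0 hp f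
    rw [Pr_compl]
    norm_num only [Nat.ofNat_le_cast, one_div, mul_inv_rev, ge_iff_le] at *
    nlinarith
  calc Real.exp (-7) = Real.exp (-1) * Real.exp (-(6 * 1)) := by rw [← Real.exp_add]; norm_num
    _ ≤ _ := mul_le_mul t2 t1 (Real.exp_pos _).le (Pr_nonneg p0 p2 _)

end Pool.Agent.MP_8f9e6e_pr

end

section

/-! The size and the ridge degrees of the rounds. -/

open Finset Filter

namespace Pool.Agent.MP_8f9e6e_pr

variable {d : ℕ}

theorem size_lev_le {n : ℕ} {C : Finset (Fin n) → Prop} {B : Finset (Fin n)} {δ : ℕ}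
    {T : Finset (Finset (Fin n))} (h : Lev d C B δ T) : δ ≤ d * B.card := by
  induction h with
  | nil => simp
  | step B δ T u v H J _ a1 _ _ _ a5 _ ih =>
    rw [card_insert_of_notMem a1, mul_add]
    omega

theorem size_roots (hd : 2 ≤ d) {n : ℕ} {C : Finset (Fin n) → Prop} {ι : Type} [DecidableEq ι]
    (f : ι → Finset (Fin n)) (pv : ι → Fin n) (h1 : ∀ i, (f i).card = d + 1)
    (h2 : ∀ i, pv i ∈ f i) (h3 : ∀ i k, i ≠ k → pv i ∉ f k) (h4 : ∀ i, C (f i)) (I : Finset ι) :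
    Lev d C (I.biUnion f) I.card ∅ := by
  induction I using Finset.induction_on with
  | empty => simpa using Lev.nil
  | insert a I ha ih =>
    rw [biUnion_insert, union_comm, card_insert_of_notMem ha]
    refine ih.root hd (h1 a) (h4 a) (h2 a) fun h => ?_
    obtain ⟨k, hk, hk'⟩ := mem_biUnion.1 h
    exact h3 a k (fun e => ha (e ▸ hk)) hk'

theorem J.dsa (hd : 2 ≤ d) (r W : ℕ) : ∃ C : ℝ, ∀ (n : ℕ) (p : ℝ), 0 ≤ p → p ≤ 1 →
    n * p ^ d ≤ 1 → ∀ (V : Finset (Fin n)) (Rt : Finset (Finset (Fin n))) (δ : ℕ)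
      (T : Finset (Finset (Fin n))), V.card ≤ W → Rt.card ≤ W → (∀ x ∈ Rt, x ⊆ V) →
      (∀ M : Submodule (ZMod 2) (Finset (Fin n) → ZMod 2), (∀ x ∈ Rt, bd d x ∈ M) →
        Lev d (fun x => bd d x ∈ M) V δ T) →
      Pr p (fun S : Finset (Face n d) => ∀ x ∈ Rt, Rs S r x) ≤ C * p ^ δ := by
  refine ⟨cDS d W (W * (d + 2) ^ r) (d * W), fun n p h0 h1 hn V Rt δ T hV hR hs hL => ?_⟩
  have hδ : δ ≤ d * W :=
    (size_lev_le (hL ⊤ fun _ _ => Submodule.mem_top)).trans (Nat.mul_le_mul_left _ hV)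
  refine (Pr_mono h0 h1 (F := DS d V (W * (d + 2) ^ r) δ) fun S hS => ?_).trans
    ((pr_ds h0 h1 hn hV _ _).trans (mul_le_mul_of_nonneg_right ?_ (by positivity)))
  · obtain ⟨w, -, -, hw⟩ := exists_ov hd S
    obtain ⟨A, Z, L, C, y, a1, a2, a3, -⟩ := hw r V δ T Rt ∅ (fun x hx => ⟨hs x hx, hS x hx⟩)
      fun M hM _ => hL M hM
    exact ⟨A, a1.trans (Nat.mul_le_mul_right _ hR), L, a2, by simp at a3; omega⟩
  · exact Nat.cast_le.2 (Nat.mul_le_mul_left _ (Nat.pow_le_pow_right (by positivity) (by omega)))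

theorem size_key (hd : 2 ≤ d) (j K : ℕ) : ∃ C : ℝ, 0 ≤ C ∧ ∀ (n : ℕ) (p a : ℝ), 0 ≤ p →
    p ≤ 1 / 2 → n * p ^ d ≤ 1 →
    (∀ x : Finset (Fin n), Pr p (fun S : Finset (Face n d) => Rs S j x) ≤ a) →
    ∀ (f : Fin K → Finset (Fin n)) (pv : Fin K → Fin n), (∀ i, (f i).card = d + 1) →
      (∀ i, pv i ∈ f i) → (∀ i k, i ≠ k → pv i ∉ f k) →
      Pr p (fun S : Finset (Face n d) => ∀ i, Rs S j (f i)) ≤ a ^ K + C * p ^ (K + 1) := by
  classical
  refine ⟨cDS d (K * (d + 1)) (K * (d + 2) ^ j) (K + 1), by positivity,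
    fun n p a h0 h1 hn ha f pv f1 f2 f3 => ?_⟩
  have h2 : p ≤ 1 := by linarith only [h1]
  have hv : (univ.biUnion f).card ≤ K * (d + 1) := by
    simpa only [card_univ, Fintype.card_fin] using card_biUnion_le_card_mul univ f (d + 1) fun i _ => (f1 i).le
  have e1 := bk_prod h0 h1 (univ : Finset (Fin K))
    (E := fun i (S : Finset (Face n d)) => Rs S j (f i)) fun i _ => up_rs j (f i)
  have e2 := pr_ds h0 h2 hn hv (K * (d + 2) ^ j) (K + 1)
  have e3 : ∏ i : Fin K, Pr p (fun S : Finset (Face n d) => Rs S j (f i)) ≤ a ^ K := by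
    simpa only [prod_const, card_univ, Fintype.card_fin] using prod_le_prod (s := (univ : Finset (Fin K))) (g := fun _ => a)
      (fun i _ => Pr_nonneg h0 h2 fun S : Finset (Face n d) => Rs S j (f i)) fun i _ => ha (f i)
  refine le_trans (le_trans (Pr_mono h0 h2 fun S hS => ?_)
    ((le_add_of_nonneg_right (Pr_nonneg h0 h2 _)).trans (Pr_or_and p _ _).le))
    (add_le_add (e1.trans e3) e2)
  obtain ⟨w, w1, w2, hw⟩ := exists_ov hd S
  have hR : (univ.image f).card ≤ K := by simpa only [card_univ, Fintype.card_fin] using card_image_le (s := univ) (f := f)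
  obtain ⟨A, Z, L, C, y, a1, a2, a3, a4, -, a6, a7, -⟩ := hw j (univ.biUnion f) K ∅ (univ.image f) ∅
    (fun x hx => by
      obtain ⟨i, -, rfl⟩ := mem_image.1 hx
      exact ⟨subset_biUnion_of_mem f (mem_univ i), hS i⟩)
    fun M hM _ => by
      simpa using size_roots hd (C := fun x => bd d x ∈ M) f pv f1 f2 f3
        (fun i => hM _ (mem_image_of_mem f (mem_univ i))) univ
  rcases Nat.eq_zero_or_pos y with rfl | hy
  · have hZ : Z.card = 0 := by omega
    rw [hZ, filter_empty, card_empty, zero_pow (by omega), add_zero, Nat.le_zero, card_eq_zero,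
      sdiff_eq_empty_iff_subset] at a6
    exact Or.inl ⟨fun i => w (f i), fun i _ => ⟨w1 _, w2 _ _ (hS i)⟩, fun i _ k _ hik =>
      a7 _ (a6 (mem_image_of_mem f (mem_univ i))) _ (a6 (mem_image_of_mem f (mem_univ k)))
        fun e => f3 i k hik (e ▸ f2 i)⟩
  · exact Or.inr ⟨A, a1.trans (Nat.mul_le_mul_right _ hR), L, a2, by simp at a3; omega⟩

theorem size_small (hd : 2 ≤ d) (G : ℝ) {η : ℝ} (hη : 0 < η) :
    ∀ᶠ n : ℕ in atTop, ∀ z : ℝ, 0 < z → (d + 1) * (n * z ^ d) = 1 → G * z ≤ η := by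
  filter_upwards [tendsto_natCast_atTop_atTop.eventually_ge_atTop ((|G| / η) ^ d)]
    with n hn z z0 hz
  by_contra h
  rw [not_le] at h
  have h1 : 1 < |G| / η * z := by
    rw [div_mul_eq_mul_div, one_lt_div hη]
    exact h.trans_le (mul_le_mul_of_nonneg_right (le_abs_self G) z0.le)
  have h2 := one_lt_pow₀ h1 (show d ≠ 0 by omega)
  rw [mul_pow] at h2
  have h3 := mul_le_mul_of_nonneg_right hn (pow_pos z0 d).le
  have h4 : (0 : ℝ) ≤ d * (n * z ^ d) := by positivity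
  linarith only [hz, h2, h3, h4]

theorem size_big (hd : 2 ≤ d) (G : ℝ) :
    ∀ᶠ n : ℕ in atTop, ∀ z : ℝ, 0 < z → (d + 1) * (n * z ^ d) = 1 → G ≤ n * z := by
  filter_upwards [tendsto_natCast_atTop_atTop.eventually_ge_atTop (((d : ℝ) + 1) * |G| ^ d),
    eventually_ge_atTop 1] with n hn n1 z z0 hz
  have n2 : (1 : ℝ) ≤ n := by exact_mod_cast n1
  refine (le_abs_self G).trans (le_of_pow_le_pow_left₀ (n := d) (by omega) (by positivity) ?_)
  refine le_of_mul_le_mul_left (hn.trans ?_) (show (0 : ℝ) < d + 1 by positivity)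
  obtain ⟨e, rfl⟩ : ∃ e, d = e + 2 := ⟨d - 2, by omega⟩
  have h1 : (1 : ℝ) ≤ (n : ℝ) ^ e := one_le_pow₀ n2
  calc (n : ℝ) ≤ (n : ℝ) ^ e * n * 1 := by nlinarith only [h1]
    _ = (n : ℝ) ^ e * n * ((((e + 2 : ℕ) : ℝ) + 1) * (n * z ^ (e + 2))) := by rw [hz]
    _ = _ := by ring

theorem size_unit {n : ℕ} {z p : ℝ} (hz : (d + 1) * (n * z ^ d) = 1) (h0 : 0 ≤ p) (h1 : p ≤ z) :
    n * p ^ d ≤ 1 ∧ n * z ^ d ≤ 1 := by
  have z0 := h0.trans h1
  have h4 : (0 : ℝ) ≤ d * (n * z ^ d) := by positivity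
  have h5 : n * z ^ d ≤ 1 := by linarith
  exact ⟨le_trans (by gcongr) h5, h5⟩

theorem size_deg {n : ℕ} (v : Fin n) :
    ((univ : Finset (Face n d)).filter fun o => v ∈ o.1).card ≤ n ^ d := by
  refine (card_le_card_of_injOn (t := powersetCard d univ) (fun o => o.1.erase v)
    (fun o ho => ?_) fun a ha b hb e => ?_).trans ?_
  · have := (mem_filter.1 (mem_coe.1 ho)).2
    exact mem_coe.2 (mem_powersetCard.2 ⟨subset_univ _, by rw [card_erase_of_mem this, o.2]; rfl⟩)
  · apply Subtype.ext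
    rw [← insert_erase (mem_filter.1 (mem_coe.1 ha)).2, ← insert_erase (mem_filter.1 (mem_coe.1 hb)).2]
    exact congrArg _ e
  · rw [card_powersetCard, card_univ, Fintype.card_fin]
    exact Nat.choose_le_pow _ _

theorem size_choose {n : ℕ} (hn : 2 * d ≤ n) :
    (n : ℝ) ^ (d + 1) ≤ 2 ^ (d + 1) * (d + 1).factorial * n.choose (d + 1) := by
  have h := Nat.pow_le_choose (α := ℝ) (d + 1) n
  rw [div_le_iff₀ (by positivity)] at h
  have h2 : (n : ℝ) ≤ 2 * ((n + 1 - (d + 1) : ℕ) : ℝ) := by exact_mod_cast (by omega)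
  calc (n : ℝ) ^ (d + 1) ≤ (2 * ((n + 1 - (d + 1) : ℕ) : ℝ)) ^ (d + 1) := by gcongr
    _ = 2 ^ (d + 1) * ((n + 1 - (d + 1) : ℕ) : ℝ) ^ (d + 1) := mul_pow _ _ _
    _ ≤ 2 ^ (d + 1) * (n.choose (d + 1) * (d + 1).factorial) := by gcongr
    _ = _ := by ring

open Classical in
theorem ev_size (hd : 2 ≤ d) (j : ℕ) {g η : ℝ} (h0 : 0 ≤ g) (h1 : g ≤ 1) (hy : ys d g j ≤ 3 / 2)
    (hη : 0 < η) :
    ∀ᶠ n : ℕ in atTop, ∀ z p : ℝ, 0 < z → (d + 1) * (n * z ^ d) = 1 → 0 ≤ p → p ≤ g * z →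
      Pr p (fun S : Finset (Face n d) => 2 * (n.choose (d + 1) * z) <
        ((univ.filter fun f : Face n d => Rs S j f.1).card : ℝ)) ≤ η := by
  obtain ⟨K, hK⟩ := exists_pow_lt_of_lt_one (half_pos hη) (show (16 / 19 : ℝ) < 1 by norm_num)
  obtain ⟨C, C0, hC⟩ := size_key hd j K
  filter_upwards [ev_sup hd j h0 h1 (show (0 : ℝ) < 1 / 10 by norm_num),
    size_small hd C (half_pos hη), size_small hd 1 (show (0 : ℝ) < 1 / 2 by norm_num),
    size_big hd (10 * (K * (d + 1)) * (2 ^ (d + 1) * (d + 1).factorial)),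
    eventually_ge_atTop (2 * d)] with n a1 a2 a3 a4 a5 z p z0 hz p0 p1
  have p2 : p ≤ z := p1.trans (by nlinarith only [h1, z0])
  have p3 : p ≤ 1 / 2 := by linarith only [a3 z z0 hz, p2]
  have p4 : p ≤ 1 := by linarith only [p3]
  have N0 : (0 : ℝ) < n.choose (d + 1) := by exact_mod_cast Nat.choose_pos (by omega)
  have y0 := ys_nonneg (d := d) h0 j
  have hc : ((univ : Finset (Face n d)).card : ℝ) = n.choose (d + 1) := by simp only [card_univ, Fintype.card_finset_len, Fintype.card_fin]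
  have key := tail_tuples p0 p4 (univ : Finset (Face n d)) (fun o => o.1) ∅ (ζ := d + 1)
    (D := n ^ d) (J := K) (fun o _ => o.2.le) (fun v => by convert size_deg (d := d) v)
    (fun o (S : Finset (Face n d)) => Rs S j o.1)
    (q := (16 / 10 * z) ^ K + C * p ^ (K + 1)) (a := 19 / 10 * (n.choose (d + 1) * z))
    (by positivity) (by positivity) fun t _ ht => by
      have hne : ∀ i, ∃ v, v ∈ (t i).1 := fun i => card_pos.1 (by rw [(t i).2]; omega)
      choose pv hpv using hne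
      exact hC n p _ p0 p3 (size_unit hz p0 p2).1
        (fun x => (a1 z p z0 hz p0 p1 x).trans (by gcongr; linarith only [hy])) _ pv (fun i => (t i).2) hpv
        fun i k hik => disjoint_left.1 (ht i k hik) (hpv i)
  refine (Pr_mono p0 p4 fun S hS => ?_).trans (key.trans ?_)
  · refine le_trans ?_ hS.le
    have b1 := mul_le_mul_of_nonneg_right (a4 z z0 hz) (show (0 : ℝ) ≤ n ^ d by positivity)
    have b2 := mul_le_mul_of_nonneg_right (size_choose a5) z0.le
    have b3 : 10 * (K * (d + 1)) * (n : ℝ) ^ d ≤ n.choose (d + 1) * z := by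
      refine le_of_mul_le_mul_left ?_
        (show (0 : ℝ) < 2 ^ (d + 1) * (d + 1).factorial by positivity)
      rw [pow_succ (n : ℝ)] at b2
      linarith only [b1, b2]
    rw [card_empty]
    push_cast
    linarith only [b3]
  · have b1 : (n.choose (d + 1) : ℝ) / (19 / 10 * (n.choose (d + 1) * z)) = 10 / 19 / z := by
      field_simp
    have b2 : (10 / 19 / z) * (16 / 10 * z) = 16 / 19 := by
      field_simp
    have b3 : (10 / 19 / z * p) ^ K ≤ 1 := pow_le_one₀ (by positivity) (by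
      rw [div_mul_eq_mul_div, div_le_one z0]
      linarith only [z0, p2])
    rw [hc, b1, mul_add, ← mul_pow, b2]
    have b4 : (10 / 19 / z) ^ K * (C * p ^ (K + 1)) = (10 / 19 / z * p) ^ K * (C * p) := by
      rw [mul_pow]
      ring
    have b5 : C * p ≤ C * z := by gcongr
    have b6 := mul_le_of_le_one_left (show 0 ≤ C * p by positivity) b3
    linarith only [a2 z z0 hz, hK, b4, b5, b6]

open Classical in
theorem ev_ridge (hd : 2 ≤ d) (j : ℕ) {η : ℝ} (hη : 0 < η) :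
    ∀ᶠ n : ℕ in atTop, ∀ z p : ℝ, 0 < z → (d + 1) * (n * z ^ d) = 1 → 0 ≤ p → p ≤ z →
      Pr p (fun S : Finset (Face n d) => ∃ r : Finset (Fin n), r.card = d ∧ n * √z <
        ((univ.filter fun u => u ∉ r ∧ Rs S j (insert u r)).card : ℝ)) ≤ η := by
  obtain ⟨K, hK⟩ : ∃ K, K = 2 * (d * (d + 1)) := ⟨_, rfl⟩
  obtain ⟨C, hC⟩ := J.dsa hd j (K * (d + 1))
  filter_upwards [size_small hd (2 ^ K * |C|) hη, size_small hd 1 one_pos,
    size_big hd (2 * (d + K)), eventually_ge_atTop 1] with n a1 a2 a3 a4 z p z0 hz p0 p1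
  have z1 : z ≤ 1 := by linarith only [a2 z z0 hz]
  have p4 : p ≤ 1 := p1.trans z1
  have n0 : (0 : ℝ) < n := by exact_mod_cast a4
  have s0 : 0 < √z := Real.sqrt_pos.2 z0
  have s1 : √z * √z = z := Real.mul_self_sqrt z0.le
  have s2 : z ≤ √z := by
    have := Real.sqrt_le_one.2 z1
    nlinarith only [s0, s1, this]
  obtain ⟨u1, u2⟩ := size_unit hz p0 p1
  refine (Pr_union p0 p4 (powersetCard d univ) (fun r (S : Finset (Face n d)) =>
    n * √z / 2 + (r.card + K * (1 : ℕ)) * (1 : ℕ) ≤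
      (((univ : Finset (Fin n)).filter fun u => u ∉ r ∧ Rs S j (insert u r)).card : ℝ))
    fun S ⟨r, r1, r2⟩ => ⟨r, by simp only [mem_powersetCard, subset_univ, r1, and_self], le_trans ?_ r2.le⟩).trans
    ((sum_le_card_nsmul _ _ ((2 * √z) ^ K * |C|) fun r hr => ?_).trans ?_)
  · have := mul_le_mul_of_nonneg_left s2 n0.le
    rw [r1]
    push_cast
    linarith only [a3 z z0 hz, this]
  · have r1 := (mem_powersetCard.1 hr).2
    have key := tail_tuples p0 p4 (univ : Finset (Fin n)) (fun o => {o}) r (ζ := 1)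
      (D := 1) (J := K) (fun o _ => by simp) (fun v => card_le_one.2 fun a ha b hb => by
        rw [← mem_singleton.1 (mem_filter.1 ha).2, ← mem_singleton.1 (mem_filter.1 hb).2])
      (fun u (S : Finset (Face n d)) => u ∉ r ∧ Rs S j (insert u r))
      (q := |C| * p ^ K) (a := n * √z / 2) (by positivity) (by positivity) fun t h1 ht => by
        have t1 : ∀ i, t i ∉ r := fun i => disjoint_singleton_left.1 (h1 i).2
        have t2 : ∀ i, (insert (t i) r).card = d + 1 := fun i => by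
          rw [card_insert_of_notMem (t1 i), r1]
        refine (Pr_mono p0 p4 fun S hS x hx => ?_).trans ((hC n p p0 p4 u1
          (univ.biUnion fun i => insert (t i) r) (univ.image fun i => insert (t i) r) K ∅
          (by simpa only [card_univ, Fintype.card_fin] using card_biUnion_le_card_mul univ _ (d + 1) fun i _ => (t2 i).le)
          (card_image_le.trans (by simp only [card_univ, Fintype.card_fin]; nlinarith only [])) (fun x hx => ?_) fun M hM => ?_).trans
          (mul_le_mul_of_nonneg_right (le_abs_self C) (by positivity)))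
        · obtain ⟨i, -, rfl⟩ := mem_image.1 hx
          exact (hS i).2
        · obtain ⟨i, -, rfl⟩ := mem_image.1 hx
          exact subset_biUnion_of_mem (fun i => insert (t i) r) (mem_univ i)
        · simpa using size_roots hd (C := fun x => bd d x ∈ M) (fun i => insert (t i) r) t t2
            (fun i => mem_insert_self _ _)
            (fun i k hik h => (mem_insert.1 h).elim (disjoint_singleton.1 (ht i k hik)) (t1 i))
            (fun i => hM _ (mem_image_of_mem (fun i => insert (t i) r) (mem_univ i))) univ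
    refine ((Pr_mono p0 p4 fun S hS => by convert hS).trans key).trans ?_
    rw [card_univ, Fintype.card_fin, mul_comm |C|, ← mul_assoc, ← mul_pow]
    refine mul_le_mul_of_nonneg_right (pow_le_pow_left₀ (by positivity) ?_ _) (abs_nonneg C)
    rw [div_mul_eq_mul_div, div_le_iff₀ (by positivity)]
    calc (n : ℝ) * p ≤ n * (√z * √z) := by rw [s1]; gcongr
      _ = _ := by ring
  · rw [card_powersetCard, card_univ, Fintype.card_fin, nsmul_eq_mul]
    have e1 : (n.choose d : ℝ) ≤ n ^ d := by exact_mod_cast Nat.choose_le_pow _ _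
    have e2 : (√z) ^ K = (z ^ d) ^ d * z ^ d := by
      rw [hK, pow_mul, sq, s1, pow_mul, pow_succ]
    have e3 : z ^ d ≤ z := pow_le_of_le_one z0.le z1 (by omega)
    have e4 : (n * z ^ d) ^ d ≤ 1 := pow_le_one₀ (by positivity) u2
    calc _ ≤ (n : ℝ) ^ d * ((2 * √z) ^ K * |C|) := by gcongr
      _ = (n * z ^ d) ^ d * (2 ^ K * |C| * z ^ d) := by rw [mul_pow, e2, mul_pow]; ring
      _ ≤ 1 * (2 ^ K * |C| * z) := by gcongr
      _ ≤ η := by linarith only [a1 z z0 hz]

end Pool.Agent.MP_8f9e6e_pr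

end

section

/-! Heavy sites near criticality. -/

open Finset Filter

namespace Pool.Agent.MP_8f9e6e_pr

variable {d : ℕ}

open Classical in
theorem heavy_ex {α ι : Type} [Fintype α] (p : ℝ) (I : Finset ι) (F : ι → Finset α → Prop) :
    ∑ S, wt p S * ((I.filter fun i => F i S).card : ℝ) = ∑ i ∈ I, Pr p (F i) := by
  simp only [card_filter, Nat.cast_sum, mul_sum, Pr]
  rw [sum_comm]
  exact sum_congr rfl fun i _ => sum_congr rfl fun S _ => by split_ifs <;> simp

open Classical in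
theorem heavy_markov {α ι : Type} [Fintype α] {p a : ℝ} (h0 : 0 ≤ p) (h1 : p ≤ 1) (ha : 0 < a)
    (I : Finset ι) (F : ι → Finset α → Prop) :
    Pr p (fun S => a < ((I.filter fun i => F i S).card : ℝ)) ≤ (∑ i ∈ I, Pr p (F i)) / a := by
  refine (Pr_le_of h0 h1 (g := fun S => ((I.filter fun i => F i S).card : ℝ) / a)
    (fun S => by positivity) fun S h => (one_le_div ha).2 h.le).trans_eq ?_
  rw [← heavy_ex, sum_div]
  exact sum_congr rfl fun S _ => (mul_div_assoc _ _ _).symm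

open Classical in
theorem heavy_cheb {α ι : Type} [Fintype α] {p c M : ℝ} (h0 : 0 ≤ p) (h1 : p ≤ 1) (hc : 0 ≤ c)
    (hM : 0 < M) (I : Finset ι) (F : ι → Finset α → Prop) (hμ : M ≤ ∑ i ∈ I, Pr p (F i))
    (hp : ∀ i ∈ I, ∀ k ∈ I, i ≠ k → Pr p (fun S => F i S ∧ F k S) ≤ Pr p (F i) * Pr p (F k) + c) :
    Pr p (fun S => ((I.filter fun i => F i S).card : ℝ) < M / 2) ≤
      4 / M + 4 * (I.card ^ 2 * c) / M ^ 2 := by
  have e1 := heavy_ex p I F
  have e2 : ∑ S, wt p S * ((I.filter fun i => F i S).card : ℝ) ^ 2 =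
      ∑ i ∈ I, ∑ k ∈ I, Pr p fun S => F i S ∧ F k S := by
    rw [← sum_product' (f := fun i k => Pr p fun S => F i S ∧ F k S),
      ← heavy_ex p (I ×ˢ I) fun x S => F x.1 S ∧ F x.2 S]
    refine sum_congr rfl fun S _ => ?_
    rw [sq, ← Nat.cast_mul, ← card_product, ← filter_product]
    congr
  have e3 : ∑ i ∈ I, ∑ k ∈ I, Pr p (fun S => F i S ∧ F k S) ≤
      (∑ i ∈ I, Pr p (F i)) ^ 2 + (∑ i ∈ I, Pr p (F i)) + I.card ^ 2 * c := by
    have : ∀ i ∈ I, ∑ k ∈ I, Pr p (fun S => F i S ∧ F k S) ≤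
        ∑ k ∈ I, (Pr p (F i) * Pr p (F k) + c + if i = k then Pr p (F i) else 0) := fun i hi =>
      sum_le_sum fun k hk => by
        split_ifs with h
        · have := Pr_mono h0 h1 (E := fun S => F i S ∧ F k S) (F := F i) fun S h => h.1
          have := mul_nonneg (Pr_nonneg h0 h1 (F i)) (Pr_nonneg h0 h1 (F k))
          linarith
        · simpa using hp i hi k hk h
    refine (sum_le_sum this).trans_eq ?_
    simp only [sum_add_distrib, sum_ite_eq, sum_const, nsmul_eq_mul]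
    rw [← sum_mul_sum, sum_congr rfl fun i hi => if_pos hi]
    ring
  generalize ∑ i ∈ I, Pr p (F i) = μ at e1 e3 hμ
  have μ0 : 0 < μ := hM.trans_le hμ
  refine (Pr_le_of h0 h1 (g := fun S => 4 / μ ^ 2 * (((I.filter fun i => F i S).card : ℝ) - μ) ^ 2)
    (fun S => by positivity) fun S h => ?_).trans ?_
  · rw [div_mul_eq_mul_div, one_le_div (by positivity)]
    nlinarith only [hμ, h]
  · have e4 : ∑ S, wt p S * (4 / μ ^ 2 * (((I.filter fun i => F i S).card : ℝ) - μ) ^ 2) =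
        4 / μ ^ 2 * ((∑ S, wt p S * ((I.filter fun i => F i S).card : ℝ) ^ 2) -
          2 * μ * (∑ S, wt p S * ((I.filter fun i => F i S).card : ℝ)) +
          μ ^ 2 * ∑ S : Finset α, wt p S) := by
      simp only [mul_sum, ← sum_sub_distrib, ← sum_add_distrib]
      exact sum_congr rfl fun S _ => by ring
    rw [e4, e1, e2, sum_wt]
    calc _ ≤ 4 / μ ^ 2 * (μ + I.card ^ 2 * c) :=
          mul_le_mul_of_nonneg_left (by linarith only [e3]) (by positivity)
      _ = 4 / μ + 4 * (I.card ^ 2 * c) / μ ^ 2 := by field_simp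
      _ ≤ _ := by gcongr

theorem heavy_in {n : ℕ} (p : ℝ) {t : Finset (Fin n)} (ht : t.card = d + 1) :
    Pr p (fun S : Finset (Face n d) => inS S t) = p := by
  have := ex_all (d := d) p (T := {t}) (by simpa using ht)
  rw [card_singleton, pow_one] at this
  refine Eq.trans (sum_congr rfl fun S _ => ?_) this
  by_cases h : inS S t <;> simp [h]

theorem heavy_bu (hd : 2 ≤ d) {n : ℕ} {p : ℝ} (h0 : 0 ≤ p) (h1 : p ≤ 1) (j s : ℕ)
    {e f : Finset (Fin n)} (he : e.card = d + 1) (hf : f.card = d + 1) {u : Fin n} (hu : u ∉ e) :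
    Pr p (Hv (d := d) j s f) ^ 2 * p ^ (d - 1) ≤ Pr p (Bu (d := d) j s e u) := by
  obtain ⟨w, hw, w', hw', ne⟩ := one_lt_card.1 (show 1 < e.card by omega)
  have cd : ∀ x ∈ e, (insert u (e.erase x)).card = d + 1 := fun x hx => by
    rw [card_insert_of_notMem (by simp [hu]), card_erase_add_one hx, he]
  have a1 := harris_up_prod h0 h1 ((e.erase w).erase w')
    (E := fun x (S : Finset (Face n d)) => inS S (insert u (e.erase x)))
    fun x _ _ _ h hx => inS_mono h hx
  rw [prod_congr rfl fun x hx => heavy_in p (cd x (mem_of_mem_erase (mem_of_mem_erase hx))),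
    prod_const, card_erase_of_mem (mem_erase.2 ⟨ne.symm, hw'⟩), card_erase_of_mem hw, he,
    Nat.add_sub_cancel] at a1
  have a2 := harris_up h0 h1 (up_hv (d := d) j s (insert u (e.erase w)))
    (up_hv (d := d) j s (insert u (e.erase w')))
  rw [pr_hv_symm p j s ((cd w hw).trans hf.symm), pr_hv_symm p j s ((cd w' hw').trans hf.symm),
    ← sq] at a2
  refine (mul_le_mul a2 a1 (by positivity) (Pr_nonneg h0 h1 _)).trans
    ((harris_up h0 h1 ?_ ?_).trans (Pr_mono h0 h1 fun S hS => ?_))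
  · exact fun S T h hS => ⟨up_hv _ _ _ _ _ h hS.1, up_hv _ _ _ _ _ h hS.2⟩
  · exact fun S T h hS x hx => inS_mono h (hS x hx)
  exact ⟨hu, w, hw, w', hw', ne, hS.1.1, hS.1.2, fun x x1 x2 x3 =>
    hS.2 x (mem_erase.2 ⟨x3, mem_erase.2 ⟨x2, x1⟩⟩)⟩

theorem heavy_bad (hd : 2 ≤ d) {n : ℕ} {p C q : ℝ} (h0 : 0 < p) (h1 : p ≤ 1) (hn : 2 * (d + 1) ≤ n)
    (C0 : 0 ≤ C) (j s : ℕ) {e f : Finset (Fin n)} (he : e.card = d + 1) (hf : f.card = d + 1)
    (hq : q = Pr p (Hv (d := d) j s f)) (q0 : 0 < q) (hC : ∀ u u' : Fin n, u ≠ u' →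
      Pr p (fun S : Finset (Face n d) => Bu j s e u S ∧ Bu j s e u' S) ≤
        Pr p (Bu (d := d) j s e u) * Pr p (Bu (d := d) j s e u') + C * p ^ (2 * d - 1)) :
    Pr p (fun S : Finset (Face n d) => (Xe j s e S : ℝ) < n * q ^ 2 * p ^ (d - 1) / 4) ≤
      8 / (n * p ^ (d - 1) * q ^ 2) + 16 * C * p / q ^ 4 := by
  have n0 : (0 : ℝ) < n := by exact_mod_cast (by omega : 0 < n)
  have h := heavy_cheb h0.le h1 (c := C * p ^ (2 * d - 1)) (M := n * q ^ 2 * p ^ (d - 1) / 2)
    (by positivity) (by positivity) univ (fun u => Bu (d := d) j s e u) ?_ fun u _ u' _ => hC u u'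
  · rw [div_div, show (2 * 2 : ℝ) = 4 by norm_num] at h
    refine le_trans (le_of_eq rfl) (h.trans_eq ?_)
    rw [card_univ, Fintype.card_fin, show 2 * d - 1 = 2 * (d - 1) + 1 by omega, pow_succ p,
      mul_comm 2 (d - 1), pow_mul]
    field_simp
    ring
  · refine le_trans ?_ (sum_le_sum_of_subset_of_nonneg (subset_univ eᶜ)
      fun u _ _ => Pr_nonneg h0.le h1 _)
    refine le_trans ?_ (card_nsmul_le_sum _ _ _ fun u hu =>
      heavy_bu hd h0.le h1 j s he hf (mem_compl.1 hu))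
    rw [← hq, card_compl, Fintype.card_fin, he, nsmul_eq_mul, Nat.cast_sub (by omega)]
    have : (2 * (d + 1 : ℕ) : ℝ) ≤ n := by exact_mod_cast hn
    have : 0 ≤ q ^ 2 * p ^ (d - 1) := by positivity
    nlinarith

theorem heavy_pick {l : ℝ} {k : ℕ} (hl : 1 ≤ l) (hk : 65 * l ≤ k) (q : ℕ → ℝ)
    (h : (k : ℝ) ^ 2 / 5 ≤ ∑ t ∈ Icc 1 (32 * k ^ 4), q t) :
    ∃ s ∈ Icc 1 (32 * k ^ 4), l ≤ s * q s := by
  by_contra g
  push Not at g
  have k1 : (65 : ℝ) ≤ k := by linarith only [hl, hk]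
  have k0 : 0 < k := by exact_mod_cast (by linarith only [hl, hk] : (0 : ℝ) < k)
  have k4 : 0 < 32 * k ^ 4 := by positivity
  have a1 : ∑ t ∈ Icc 1 (32 * k ^ 4), q t < ∑ t ∈ Icc 1 (32 * k ^ 4), l * ((t : ℕ) : ℝ)⁻¹ :=
    sum_lt_sum_of_nonempty ⟨1, mem_Icc.2 ⟨le_rfl, k4⟩⟩ fun t ht => by
        have t0 : (0 : ℝ) < t := by exact_mod_cast (mem_Icc.1 ht).1
        rw [← div_eq_mul_inv, lt_div_iff₀ t0, mul_comm]
        exact g t ht
  have a2 := harmonic_le_one_add_log (32 * k ^ 4)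
  rw [harmonic_eq_sum_Icc] at a2
  push_cast at a2
  have a3 : Real.log (32 * (k : ℝ) ^ 4) ≤ 4 * (3 * k) := by
    have := pow_pos (by linarith only [hl, hk] : (0 : ℝ) < k) 4
    refine (Real.log_le_log (y := (3 * k) ^ 4) (by positivity) (by linarith only [this])).trans ?_
    rw [Real.log_pow]
    have := Real.log_le_sub_one_of_pos (by positivity : (0 : ℝ) < 3 * k)
    push_cast
    linarith only [this]
  rw [← mul_sum] at a1
  have a4 : l * ∑ t ∈ Icc 1 (32 * k ^ 4), ((t : ℕ) : ℝ)⁻¹ ≤ l * (13 * k) := by gcongr; linarith only [hl, hk, a2, a3]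
  nlinarith only [hk, h, a1, a4]

theorem heavy_num {r : ℕ} {A B c : ℝ} (hr : 1 ≤ r) (hA : 1 - 1 / (2 * r) ≤ A) (B0 : 0 ≤ B)
    (hB : B ≤ 1 + 1 / (2 * r)) (hc : c ≤ 1 / 20) :
    (r + 1 : ℝ) / 5 ≤ ∑ i ∈ range (r + 1), A ^ i - c -
      (∑ i ∈ range (r + 1), B ^ i) ^ 3 / (32 * (r + 1) ^ 2) := by
  have r1 : (1 : ℝ) ≤ r := by exact_mod_cast hr
  have t1 : 1 / (2 * r : ℝ) ≤ 1 / 2 := by gcongr; linarith only [r1]
  have t2 : (r : ℝ) * (1 / (2 * r)) = 1 / 2 := by field_simp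
  have t0 : 0 < 1 / (2 * r : ℝ) := by positivity
  generalize 1 / (2 * r : ℝ) = t at *
  have a1 : (r + 1 : ℝ) * (1 / 2) ≤ ∑ i ∈ range (r + 1), A ^ i := by
    refine le_trans (le_of_eq (by simp only [one_div, card_range, nsmul_eq_mul, Nat.cast_add, Nat.cast_one])) (card_nsmul_le_sum _ _ (1 / 2) fun i hi => ?_)
    have i1 : (i : ℝ) ≤ r := by exact_mod_cast Nat.lt_succ_iff.1 (mem_range.1 hi)
    have := one_add_mul_le_pow (a := -t) (by linarith only [t1, t0]) i
    have := pow_le_pow_left₀ (by linarith only [t1, t0] : 0 ≤ 1 + -t) (by linarith only [hA] : 1 + -t ≤ A) i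
    nlinarith
  have a2 : ∑ i ∈ range (r + 1), B ^ i ≤ (r + 1 : ℝ) * 2 := by
    refine (sum_le_card_nsmul _ _ 2 fun i hi => ?_).trans_eq (by simp)
    have i1 : (i : ℝ) ≤ r := by exact_mod_cast Nat.lt_succ_iff.1 (mem_range.1 hi)
    calc B ^ i ≤ Real.exp t ^ i := pow_le_pow_left₀ B0 (by linarith only [Real.add_one_le_exp t, hB]) i
      _ = Real.exp (i * t) := (Real.exp_nat_mul t i).symm
      _ ≤ Real.exp (1 / 2) := Real.exp_le_exp.2 (by nlinarith only [r1, t2, i1])
      _ ≤ 2 := by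
        have := Real.exp_bound_div_one_sub_of_interval (x := 1 / 2) (by norm_num) (by norm_num)
        linarith only [this]
  have a3 : (∑ i ∈ range (r + 1), B ^ i) ^ 3 / (32 * (r + 1) ^ 2) ≤ (r + 1 : ℝ) / 4 :=
    calc _ ≤ ((r + 1 : ℝ) * 2) ^ 3 / (32 * (r + 1) ^ 2) := by gcongr
      _ = _ := by field_simp; ring
  linarith only [hc, a1, a3]

open Classical in
theorem ev_heavy (hd : 2 ≤ d) (l : ℝ) : ∃ μ < (1 : ℝ), ∃ m : ℕ, ∀ (j : ℕ) (g η : ℝ), 0 < g →
    g ≤ 1 → μ ≤ ys d g j ^ d → ys d g j ≤ 1 → 0 < η →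
    ∀ᶠ n : ℕ in atTop, ∀ z : ℝ, 0 < z → (d + 1) * (n * z ^ d) = 1 → ∃ s ∈ Icc 1 m, ∃ q : ℝ,
      1 ≤ s * q ∧ l ≤ s * q ∧ q ≤ 1 ∧
      Pr (g * z) (fun S : Finset (Face n d) => q * n.choose (d + 1) / η <
        ((univ.filter fun f : Face n d => Hv j s f.1 S).card : ℝ)) ≤ η ∧
      Pr (g * z) (fun S : Finset (Face n d) => n.choose (d + 1) * √z <
        ((univ.filter fun e : Face n d =>
          (Xe j s e.1 S : ℝ) < n * q ^ 2 * (g * z) ^ (d - 1) / 4).card : ℝ)) ≤ η := by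
  obtain ⟨k, hk⟩ := exists_nat_ge (65 * max l 1)
  have l1 : 1 ≤ max l 1 := le_max_right _ _
  have k2 : 2 ≤ k := by exact_mod_cast (by linarith only [hk, l1] : (2 : ℝ) ≤ k)
  obtain ⟨r, hr⟩ : ∃ r, k ^ 2 = r + 1 := ⟨k ^ 2 - 1, by have := Nat.pow_le_pow_left k2 2; omega⟩
  have r1 : 1 ≤ r := by have := Nat.pow_le_pow_left k2 2; omega
  have r0 : (1 : ℝ) ≤ r := by exact_mod_cast r1
  have hr' : (k : ℝ) ^ 2 = r + 1 := by exact_mod_cast hr
  have t0 : 0 < 1 / (8 * r : ℝ) := by positivity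
  have t1 : 1 / (8 * r : ℝ) ≤ 1 / 8 := by gcongr; linarith only [r0]
  have t2 : 1 / (2 * r : ℝ) = 4 * (1 / (8 * r)) := by field_simp; ring
  refine ⟨1 - 2 * (1 / (8 * r)), by linarith only [t0], 32 * k ^ 4, fun j g η g0 g1 y1 y2 hη => ?_⟩
  have y0 : 0 < ys d g j := (ys_nonneg g0.le j).lt_of_ne fun h => by
    rw [← h, zero_pow (by omega)] at y1; linarith only [t1, y1]
  have y3 : ys d g j ^ d ≤ 1 := pow_le_one₀ y0.le y2
  obtain ⟨ε, ε1, ε2, ε3, ε4, ε0⟩ : ∃ ε : ℝ, (ys d g j + ε) ^ d < 1 + 1 / (2 * r) ∧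
      1 - 3 * (1 / (8 * r)) < (ys d g j - ε) ^ d ∧ 0 < ys d g j - ε ∧ ε < 1 ∧ 0 < ε := by
    have c1 : ∀ᶠ ε : ℝ in nhds 0, (ys d g j + ε) ^ d < 1 + 1 / (2 * r) :=
      ContinuousAt.eventually_lt (by fun_prop) (by fun_prop) (by rw [add_zero]; linarith only [t0, t2, y3])
    have c2 : ∀ᶠ ε : ℝ in nhds 0, 1 - 3 * (1 / (8 * r)) < (ys d g j - ε) ^ d :=
      ContinuousAt.eventually_lt (by fun_prop) (by fun_prop) (by rw [sub_zero]; linarith only [t0, y1])
    have c3 : ∀ᶠ ε : ℝ in nhds 0, 0 < ys d g j - ε :=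
      ContinuousAt.eventually_lt (by fun_prop) (by fun_prop) (by rw [sub_zero]; linarith only [y0])
    have c4 : ∀ᶠ ε : ℝ in nhds 0, ε < 1 := eventually_lt_nhds one_pos
    obtain ⟨ε, h, h0⟩ := (((c1.and (c2.and (c3.and c4))).filter_mono nhdsWithin_le_nhds).and
      (self_mem_nhdsWithin (s := Set.Ioi (0 : ℝ)))).exists
    exact ⟨ε, h.1, h.2.1, h.2.2.1, h.2.2.2, h0⟩
  obtain ⟨C₁, hC₁⟩ := chi_low hd j r
  choose C₂ hC₂ using var_pair hd j
  obtain ⟨m, hm⟩ : ∃ m : ℕ, m = 32 * k ^ 4 := ⟨_, rfl⟩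
  have m0 : 0 < m := by rw [hm]; positivity
  rw [← hm]
  obtain ⟨C₃, hC₃⟩ : ∃ C : ℝ, C = ∑ s ∈ Icc 1 m, |C₂ s| := ⟨_, rfl⟩
  have C0 : 0 ≤ C₃ := hC₃ ▸ sum_nonneg fun _ _ => abs_nonneg _
  obtain ⟨K, hK⟩ : ∃ K : ℝ, K = 8 * ((d + 1) * m ^ 2 / g ^ (d - 1)) + 16 * C₃ * m ^ 4 := ⟨_, rfl⟩
  have K0 : 0 < K := by rw [hK]; positivity
  filter_upwards [ev_sup hd j g0.le g1 ε0, ev_inf hd j g0.le ε0,
    ev_small hd (η := min (1 / 2) (min (1 / (20 * (|C₁| + 1))) ((η / K) ^ 2))) (by positivity),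
    eventually_ge_atTop (8 * r * (d + 1 + r))] with n e1 e2 e3 e4 z z0 hz
  have n1 : 2 * (d + 1 + r) ≤ n := le_trans (Nat.mul_le_mul_right _ (by omega)) e4
  have n0 : (0 : ℝ) < n := by exact_mod_cast (by omega : 0 < n)
  have d0 : (0 : ℝ) ≤ d := Nat.cast_nonneg d
  have nz : n * z ^ d ≤ 1 :=
    (le_mul_of_one_le_left (mul_pos n0 (pow_pos z0 d)).le (le_add_of_nonneg_left d0)).trans_eq hz
  have e5 := e3 z 1 z0.le zero_le_one nz (by rw [one_pow]; exact one_le_pow₀ one_le_two)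
  rw [one_mul, le_min_iff, le_min_iff] at e5
  obtain ⟨z1, z2, z3⟩ := e5
  have p0 : 0 < g * z := mul_pos g0 z0
  have p1 : g * z ≤ z := mul_le_of_le_one_left z0.le g1
  have p2 : g * z ≤ 1 := by linarith only [z1, p1]
  have p3 : n * (g * z) ^ d ≤ 1 := le_trans (by gcongr) nz
  obtain ⟨f, -, hf⟩ := exists_subset_card_eq (s := (univ : Finset (Fin n))) (n := d + 1)
    (by rw [card_univ, Fintype.card_fin]; omega)
  have a1 := hC₁ n m (g * z) ((ys d g j + ε) * z) ((ys d g j - ε) * z) p0.le (by linarith only [z1, p1]) p3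
    (mul_pos ε3 z0).le ((mul_le_mul (by linarith only [y2, ε3] : _ ≤ (2 : ℝ)) z1 z0.le zero_le_two).trans_eq
      (by norm_num)) m0 (by omega) (e1 z _ z0 hz p0.le le_rfl)
    (e2 z _ z0 hz le_rfl (by linarith only [z0, p1])) f hf
  have b1 : (n * (d + 1) * ((ys d g j + ε) * z) ^ d : ℝ) = (ys d g j + ε) ^ d := by
    rw [mul_pow]; linear_combination (ys d g j + ε) ^ d * hz
  have b2 : 1 - 1 / (2 * r : ℝ) ≤ (n - (d + 1 + r)) * (d + 1) * ((ys d g j - ε) * z) ^ d := by
    have u1 : (8 * r * (d + 1 + r) : ℝ) ≤ n := by exact_mod_cast e4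
    have u2 : (d + 1 + r : ℝ) ≤ n * (1 / (8 * r)) := by
      rw [mul_one_div, le_div_iff₀ (by positivity)]; linarith only [u1]
    calc _ ≤ (1 - 1 / (8 * r : ℝ)) * (1 - 3 * (1 / (8 * r))) := by
          rw [t2]; linarith only [mul_self_nonneg (1 / (8 * r : ℝ))]
      _ ≤ (1 - 1 / (8 * r : ℝ)) * (ys d g j - ε) ^ d := by gcongr; linarith only [t1]
      _ = (n - n * (1 / (8 * r : ℝ))) * (d + 1) * ((ys d g j - ε) * z) ^ d := by
        rw [mul_pow]
        linear_combination (-(1 - 1 / (8 * r : ℝ)) * (ys d g j - ε) ^ d) * hz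
      _ ≤ _ := by gcongr
  have b3 : C₁ * (g * z) ≤ 1 / 20 := by
    rw [le_div_iff₀ (by positivity)] at z2
    linarith only [mul_le_mul_of_nonneg_left p1 (abs_nonneg C₁), mul_le_mul_of_nonneg_right (le_abs_self C₁) p0.le, z0, z2]
  have b4 := heavy_num r1 b2 (B := (ys d g j + ε) ^ d) (by positivity) ε1.le b3
  have b5 : (m : ℝ) = 32 * (r + 1) ^ 2 := by rw [hm, ← hr']; push_cast; ring
  rw [b1, b5] at a1
  obtain ⟨s, hs, hq⟩ := heavy_pick l1 hk (fun t => Pr (g * z) (Hv (d := d) j t f))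
    (by rw [hr', ← hm]; exact b4.trans a1)
  rw [← hm] at hs
  have s1 : (s : ℝ) ≤ m := by exact_mod_cast (mem_Icc.1 hs).2
  have q1 := Pr_nonneg p0.le p2 (Hv (d := d) j s f)
  obtain ⟨q, hq'⟩ : ∃ q, q = Pr (g * z) (Hv (d := d) j s f) := ⟨_, rfl⟩
  rw [← hq'] at hq q1
  have q2 : 1 ≤ m * q := (l1.trans hq).trans (by gcongr)
  have q0 : 0 < q := q1.lt_of_ne fun h => by rw [← h] at q2; linarith only [q2]
  have N0 : (0 : ℝ) < n.choose (d + 1) := by exact_mod_cast Nat.choose_pos (by omega)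
  have cN : (univ : Finset (Face n d)).card = n.choose (d + 1) := by
    rw [card_univ, Fintype.card_finset_len, Fintype.card_fin]
  refine ⟨s, hs, q, l1.trans hq, (le_max_left _ _).trans hq, hq' ▸ Pr_le_one p0.le p2 _, ?_, ?_⟩
  · refine (heavy_markov p0.le p2 (by positivity) univ
      fun f : Face n d => Hv (d := d) j s f.1).trans_eq ?_
    rw [sum_congr rfl fun x _ => pr_hv_symm _ j s (x.2.trans hf.symm), ← hq', sum_const, cN,
      nsmul_eq_mul]
    field_simp
  · have sz : 0 < √z := Real.sqrt_pos.2 z0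
    refine (heavy_markov p0.le p2 (by positivity) univ fun (e : Face n d) S =>
      (Xe j s e.1 S : ℝ) < n * q ^ 2 * (g * z) ^ (d - 1) / 4).trans ?_
    have w1 : C₂ s ≤ C₃ := hC₃ ▸ (le_abs_self _).trans
      (single_le_sum (f := fun s => |C₂ s|) (fun _ _ => abs_nonneg _) hs)
    have w2 : 8 / (n * (g * z) ^ (d - 1) * q ^ 2) + 16 * C₃ * (g * z) / q ^ 4 ≤ K * z := by
      have v1 : 1 / q ≤ m := by rwa [div_le_iff₀ q0]
      have v2 : n * (g * z) ^ (d - 1) = g ^ (d - 1) / ((d + 1) * z) := by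
        rw [eq_div_iff (by positivity), mul_pow]
        have : z ^ d = z ^ (d - 1) * z := by rw [← pow_succ]; congr 1; omega
        rw [this] at hz
        linear_combination g ^ (d - 1) * hz
      calc _ = 8 * ((d + 1) * (1 / q) ^ 2 / g ^ (d - 1)) * z + 16 * C₃ * (1 / q) ^ 4 * (g * z) := by
            rw [v2]; field_simp
        _ ≤ 8 * ((d + 1) * m ^ 2 / g ^ (d - 1)) * z + 16 * C₃ * m ^ 4 * z := by gcongr
        _ = K * z := by rw [hK]; ring
    have w3 := sum_le_card_nsmul (univ : Finset (Face n d)) _ (K * z) fun e _ =>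
      (heavy_bad hd p0 p2 (by omega) C0 j s e.2 hf hq' q0 fun u u' h =>
        (hC₂ s n _ p0.le (by linarith only [z1, p1]) p3 e.1 e.2 u u' h).trans (by gcongr)).trans w2
    rw [cN, nsmul_eq_mul] at w3
    have w4 : √z ≤ η / K := Real.sqrt_le_iff.2 ⟨by positivity, z3⟩
    rw [div_le_iff₀ (by positivity)]
    refine w3.trans ?_
    rw [le_div_iff₀ K0] at w4
    calc _ = (√z * K) * (n.choose (d + 1) * √z) := by
          linear_combination (-(n.choose (d + 1) * K : ℝ)) * Real.mul_self_sqrt z0.le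
      _ ≤ _ := by gcongr

end Pool.Agent.MP_8f9e6e_pr

end

section

/-! Every base has many free tuples. -/

open Finset Filter

namespace Pool.Agent.MP_8f9e6e_pr

variable {d : ℕ}

theorem isoev_log (K η : ℝ) (hη : 0 < η) (κ m : ℕ) :
    ∀ᶠ n : ℕ in atTop, K * ((κ * (Nat.log 2 n + 1) : ℕ) + 1 : ℝ) ^ m ≤ η * n := by
  have h := (tendsto_pow_const_div_const_pow_of_one_lt m (r := (2 : ℝ)) (by norm_num)).const_mul
    (|K| * (2 * κ + 1) ^ m)
  rw [mul_zero] at h
  obtain ⟨v, hv⟩ := eventually_atTop.1 (h.eventually_le_const hη)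
  filter_upwards [eventually_ge_atTop (2 ^ (v + 1))] with n hn
  have e1 : v + 1 ≤ Nat.log 2 n := Nat.le_log_of_pow_le (by norm_num) hn
  have e2 : (2 : ℝ) ^ Nat.log 2 n ≤ n := by
    exact_mod_cast Nat.pow_log_le_self 2 (by have := Nat.two_pow_pos (v + 1); omega)
  have e3 := hv (Nat.log 2 n) (by omega)
  generalize Nat.log 2 n = k at *
  have k1 : (1 : ℝ) ≤ k := by exact_mod_cast (by omega : 1 ≤ k)
  have e4 : ((κ * (k + 1) : ℕ) + 1 : ℝ) ≤ (2 * κ + 1) * k := by
    push_cast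
    have : (0 : ℝ) ≤ κ := by positivity
    nlinarith only [k1]
  rw [← mul_div_assoc, div_le_iff₀ (by positivity)] at e3
  calc _ ≤ |K| * ((2 * κ + 1) * k) ^ m := by gcongr; exact le_abs_self K
    _ = |K| * (2 * κ + 1) ^ m * k ^ m := by rw [mul_pow]; ring
    _ ≤ η * 2 ^ k := e3
    _ ≤ _ := by gcongr

open Classical in
theorem isoev_deg {n ζ : ℕ} (Ω : Finset (Fin ζ → Fin n)) (v : Fin n) :
    (Ω.filter fun o => v ∈ univ.image o).card ≤ ζ * n ^ (ζ - 1) := by
  have h : (Ω.filter fun o => v ∈ univ.image o) ⊆ univ.biUnion fun i : Fin ζ =>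
      Fintype.piFinset fun k => if k = i then {v} else univ := fun o ho => by
    obtain ⟨i, -, hi⟩ := mem_image.1 (mem_filter.1 ho).2
    refine mem_biUnion.2 ⟨i, mem_univ _, Fintype.mem_piFinset.2 fun k => ?_⟩
    split_ifs with e
    · simp [e, hi]
    · simp only [mem_univ]
  refine (card_le_card h).trans ((card_biUnion_le_card_mul _ _ (n ^ (ζ - 1)) fun i _ => ?_).trans
    (by simp only [card_univ, Fintype.card_fin, Std.le_refl]))
  rw [Fintype.card_piFinset, ← mul_prod_erase _ _ (mem_univ i), if_pos rfl, card_singleton,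
    one_mul, prod_congr rfl fun k hk => by
      rw [if_neg (mem_erase.1 hk).1, card_univ, Fintype.card_fin], prod_const]
  simp only [mem_univ, card_erase_of_mem, card_univ, Fintype.card_fin, Std.le_refl]

open Classical in
theorem isoev_card {n β ζ : ℕ} {b : Fin β → Fin n} (hb : Function.Injective b)
    (hn : β + ζ ≤ n) : (n - (β + ζ)) ^ ζ ≤
      (univ.filter fun z : Fin ζ → Fin n => Function.Injective (Sum.elim b z)).card := by
  have hB : (univ.image b).card ≤ β := card_image_le.trans (by simp only [card_univ, Fintype.card_fin, Std.le_refl])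
  refine (card_tuples (univ : Finset (Fin n)) (fun v => {v}) (univ.image b) (ζ := 1) (D := 1)
    (J := ζ) (by simp only [mem_univ, card_singleton, Std.le_refl, imp_self, implies_true]) (fun v => by
      rw [card_le_one]
      intro a ha c hc
      have h1 : v = a := by simpa only [mem_singleton, mem_filter, mem_univ, true_and] using ha
      have h2 : v = c := by simpa only [mem_singleton, mem_filter, mem_univ, true_and] using hc
      exact h1.symm.trans h2) (by simp only [mul_one, card_univ, Fintype.card_fin]; omega)).trans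
    (card_le_card fun z hz => mem_filter.2 ⟨mem_univ _, ?_⟩)
  obtain ⟨-, h1, h2⟩ := mem_filter.1 hz
  refine hb.sumElim (fun i k e => ?_) fun i k e => ?_
  · by_contra h
    simpa [e] using h2 i k h
  · exact disjoint_left.1 (h1 k) (mem_singleton_self _) (e ▸ mem_image_of_mem b (mem_univ i))

open Classical in
theorem isoev_tuple (hd : 2 ≤ d) (j : ℕ) {n β ζ J : ℕ} (P : Finset (Finset (Fin β ⊕ Fin ζ)))
    (hP : ∀ x ∈ P, x.card = d + 1 ∧ ∃ i, Sum.inr i ∈ x) {p r : ℝ} (h0 : 0 ≤ p) (h1 : p ≤ 1 / 2)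
    (hn : n * p ^ d ≤ 1) (r0 : 0 ≤ r) (b : Fin β → Fin n) (t : Fin J → Fin ζ → Fin n)
    (t1 : ∀ i, Function.Injective (Sum.elim b (t i)))
    (t2 : ∀ i k, i ≠ k → Disjoint (univ.image (t i)) (univ.image (t k)))
    (hr : ∀ i, Pr p (fun S : Finset (Face n d) => ¬ ∀ x ∈ P, ¬ Rs S j (x.image (Sum.elim b (t i))) ∧
      ¬ Tch d (Rs S j) (x.image (Sum.elim b (t i)))) ≤ r) (y L : ℕ)
    (hL : (2 * d + 3) * y + ((2 * d + 3) * y) ^ (d + 2) < L) :
    Pr p (fun S : Finset (Face n d) => ∀ i, ¬ ∀ x ∈ P, ¬ Rs S j (x.image (Sum.elim b (t i))) ∧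
      ¬ Tch d (Rs S j) (x.image (Sum.elim b (t i)))) ≤ ((J : ℝ) + 1) ^ (2 * L) *
        (r ^ (J - 2 * L) + cDS d (β + 2 * L * ζ) (2 * L * (d + 2) ^ (j + 1)) y * p ^ y) := by
  have h2 : p ≤ 1 := by linarith only [h1]
  let E : Fin J → Finset (Face n d) → Prop := fun i S =>
    ¬ ∀ x ∈ P, ¬ Rs S j (x.image (Sum.elim b (t i))) ∧
      ¬ Tch d (Rs S j) (x.image (Sum.elim b (t i)))
  have hE : ∀ i, Up (E i) := fun i S T h a c => a fun x hx =>
    ⟨fun f => (c x hx).1 (f.up h), fun f => (c x hx).2 (f.mono fun _ => Rs.up h)⟩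
  let V : Finset (Fin J) → Finset (Fin n) := fun I =>
    univ.image b ∪ I.biUnion fun i => univ.image (t i)
  let A : Finset (Fin J) → Finset (Face n d) → Prop := fun G S =>
    ∃ W : Fin J → Finset (Face n d), (∀ i ∈ G, W i ⊆ S ∧ E i (W i)) ∧
      ∀ i ∈ G, ∀ k ∈ G, i ≠ k → Disjoint (W i) (W k)
  have key : ∀ S, (∀ i, E i S) → (∃ G ∈ powersetCard (J - 2 * L) univ, A G S) ∨
      ∃ I ∈ powersetCard (2 * L) univ, DS d (V I) (2 * L * (d + 2) ^ (j + 1)) y S := by
    intro S hS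
    obtain ⟨W, hW⟩ := exists_ov hd S
    have ch : ∀ i, ∃ x ∈ P, ∃ k, Sum.inr k ∈ x ∧ ∃ R : Finset (Finset (Fin n)),
        (∀ e ∈ R, Rs S j e) ∧ (R = {x.image (Sum.elim b (t i))} ∨
          (¬ Rs S j (x.image (Sum.elim b (t i))) ∧ ∃ u ∉ x.image (Sum.elim b (t i)),
            ∃ w ∈ x.image (Sum.elim b (t i)), R = ((x.image (Sum.elim b (t i))).erase w).image
              fun e => insert u ((x.image (Sum.elim b (t i))).erase e))) := fun i => by
      have := hS i
      simp only [E, not_forall, not_and_or, not_not] at this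
      obtain ⟨x, hx, h⟩ := this
      obtain ⟨k, hk⟩ := (hP x hx).2
      refine ⟨x, hx, k, hk, ?_⟩
      by_cases hf : Rs S j (x.image (Sum.elim b (t i)))
      · exact ⟨_, by simpa using hf, Or.inl rfl⟩
      · obtain ⟨_, -, u, a1, w, a2, -, a3⟩ := h.resolve_left hf
        refine ⟨_, fun e he => ?_, Or.inr ⟨hf, u, a1, w, a2, rfl⟩⟩
        obtain ⟨c, hc, rfl⟩ := mem_image.1 he
        exact a3 c hc
    choose x x1 k x2 R x3 x4 using ch
    have x5 : ∀ i, (x i |>.image (Sum.elim b (t i))).card = d + 1 := fun i => by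
      rw [card_image_of_injective _ (t1 i), (hP _ (x1 i)).1]
    have x6 : ∀ i, (x i).image (Sum.elim b (t i)) ⊆ univ.image b ∪ univ.image (t i) :=
      fun i v hv => by
        obtain ⟨c | c, -, rfl⟩ := mem_image.1 hv
        · exact mem_union_left _ (mem_image_of_mem _ (mem_univ c))
        · exact mem_union_right _ (mem_image_of_mem _ (mem_univ c))
    rcases match_or (fun a c => Disjoint ((R a).biUnion W) ((R c).biUnion W)) L univ with
      ⟨G, -, g1, g2⟩ | ⟨I, -, i1, i2⟩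
    · rw [card_univ, Fintype.card_fin] at g1
      obtain ⟨G', g3, g4⟩ := exists_subset_card_eq (s := G) (n := J - 2 * L) (by omega)
      refine Or.inl ⟨G', mem_powersetCard.2 ⟨subset_univ _, g4⟩, fun i => (R i).biUnion W,
        fun i _ => ⟨biUnion_subset.2 fun e _ => hW.1 e, fun c => ?_⟩,
        fun i hi c hc => g2 i (g3 hi) c (g3 hc)⟩
      have w1 : ∀ e ∈ R i, Rs ((R i).biUnion W) j e := fun e he =>
        (hW.2.1 e j (x3 i e he)).up (subset_biUnion_of_mem W he)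
      rcases x4 i with h | ⟨-, u, a1, w, a2, h⟩
      · exact (c _ (x1 i)).1 (w1 _ (h ▸ mem_singleton_self _))
      · exact (c _ (x1 i)).2 ⟨_, x5 i, u, a1, w, a2, rfl, fun e he =>
          w1 _ (h ▸ mem_image_of_mem _ he)⟩
    · refine Or.inr ⟨I, mem_powersetCard.2 ⟨subset_univ _, i1⟩, ?_⟩
      rcases probe_det hd hW j I (V I) (fun i => (x i).image (Sum.elim b (t i)))
        (fun i => t i (k i)) R (fun i hi => ⟨(x6 i).trans (union_subset_union_right
          (subset_biUnion_of_mem (fun i => univ.image (t i)) hi)), x5 i,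
          mem_image.2 ⟨_, x2 i, rfl⟩, fun c _ hc h => by
            rcases mem_union.1 (x6 c h) with h | h
            · obtain ⟨a, -, ha⟩ := mem_image.1 h
              exact absurd (t1 i (a₁ := Sum.inl a) (a₂ := Sum.inr (k i)) ha) (by simp)
            · exact disjoint_left.1 (t2 c i hc) h (mem_image_of_mem _ (mem_univ _))⟩)
        (fun i _ => ⟨x3 i, x4 i⟩) y with h | ⟨G, g1, g2, g3⟩
      · rwa [i1] at h
      · have := i2 G g1 g3
        omega
  have c1 : ∀ m ≤ 2 * L, (J.choose m : ℝ) ≤ ((J : ℝ) + 1) ^ (2 * L) := fun m hm => by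
    exact_mod_cast (Nat.choose_le_pow J m).trans ((Nat.pow_le_pow_left (Nat.le_succ J) m).trans
      (Nat.pow_le_pow_right (Nat.succ_pos J) hm))
  have c2 : (J.choose (J - 2 * L) : ℝ) ≤ ((J : ℝ) + 1) ^ (2 * L) := by
    rw [← Nat.choose_symm (Nat.sub_le _ _)]
    exact c1 _ (by omega)
  have u1 : Pr p (fun S => ∃ G ∈ powersetCard (J - 2 * L) univ, A G S) ≤
      ((J : ℝ) + 1) ^ (2 * L) * r ^ (J - 2 * L) := by
    refine (Pr_union h0 h2 _ A fun S h => h).trans ((sum_le_card_nsmul _ _ (r ^ (J - 2 * L))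
      fun G hG => (bk_prod h0 h1 G fun i _ => hE i).trans ?_).trans ?_)
    · rw [← (mem_powersetCard.1 hG).2, ← prod_const]
      exact prod_le_prod (fun i _ => Pr_nonneg h0 h2 _) fun i _ => hr i
    · rw [card_powersetCard, card_univ, Fintype.card_fin, nsmul_eq_mul]
      gcongr
  have u2 : Pr p (fun S : Finset (Face n d) => ∃ I ∈ powersetCard (2 * L) univ,
      DS d (V I) (2 * L * (d + 2) ^ (j + 1)) y S) ≤ ((J : ℝ) + 1) ^ (2 * L) *
        (cDS d (β + 2 * L * ζ) (2 * L * (d + 2) ^ (j + 1)) y * p ^ y) := by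
    refine (Pr_union h0 h2 _ (fun I => DS d (V I) (2 * L * (d + 2) ^ (j + 1)) y)
      fun S h => h).trans ((sum_le_card_nsmul _ _ _ fun I hI =>
        pr_ds h0 h2 hn (v := β + 2 * L * ζ) ?_ _ _).trans ?_)
    · refine (card_union_le _ _).trans (Nat.add_le_add (card_image_le.trans (by simp only [card_univ, Fintype.card_fin, Std.le_refl])) ?_)
      rw [← (mem_powersetCard.1 hI).2]
      exact card_biUnion_le_card_mul _ _ _ fun i _ => card_image_le.trans (by simp only [card_univ, Fintype.card_fin, Std.le_refl])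
    · rw [card_powersetCard, card_univ, Fintype.card_fin, nsmul_eq_mul]
      gcongr
      exact c1 _ le_rfl
  have u3 := Pr_or_and p (fun S => ∃ G ∈ powersetCard (J - 2 * L) univ, A G S)
    fun S : Finset (Face n d) => ∃ I ∈ powersetCard (2 * L) univ,
      DS d (V I) (2 * L * (d + 2) ^ (j + 1)) y S
  have u4 := Pr_nonneg h0 h2 fun S => (∃ G ∈ powersetCard (J - 2 * L) univ, A G S) ∧
    ∃ I ∈ powersetCard (2 * L) univ, DS d (V I) (2 * L * (d + 2) ^ (j + 1)) y S
  have u5 := Pr_mono h0 h2 key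
  rw [mul_add]
  linarith only [u1, u2, u3, u4, u5]

theorem ev_iso (hd : 2 ≤ d) (j : ℕ) {β ζ : ℕ} (P : Finset (Finset (Fin β ⊕ Fin ζ)))
    (hP : ∀ x ∈ P, x.card = d + 1 ∧ ∃ i, Sum.inr i ∈ x) {g η : ℝ} (h0 : 0 ≤ g) (h1 : g ≤ 1)
    (hy : ys d g j ^ d ≤ 2) (hη : 0 < η) :
    ∀ᶠ n : ℕ in atTop, ∀ z p : ℝ, 0 < z → (d + 1) * (n * z ^ d) = 1 → 0 ≤ p → p ≤ g * z →
      Pr p (fun S : Finset (Face n d) => ¬ Iso j P (Real.exp (-(7 * P.card)) / 2) S) ≤ η := by
  classical
  obtain ⟨c, hc⟩ : ∃ c, Real.exp (-(7 * P.card)) = c := ⟨_, rfl⟩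
  have c0 : 0 < c := hc ▸ Real.exp_pos _
  have c1 : c ≤ 1 := hc ▸ Real.exp_le_one_iff.2 (by simp only [Left.neg_nonpos_iff, Nat.ofNat_pos, mul_nonneg_iff_of_pos_left, Nat.cast_nonneg])
  obtain ⟨s, hs⟩ : ∃ s, 1 - 3 * c / 4 = s := ⟨_, rfl⟩
  obtain ⟨r, hr⟩ : ∃ r, 1 - 7 * c / 8 = r := ⟨_, rfl⟩
  have s0 : 1 / 4 ≤ s := by linarith only [c1, hs]
  have r0 : 1 / 8 ≤ r := by linarith only [c1, hr]
  have s1 : 0 < s := by linarith only [c1, hs]
  have r1 : 0 < r := by linarith only [c1, hr]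
  obtain ⟨κ, hκ⟩ := exists_pow_lt_of_lt_one (x := (1 / 2 : ℝ) ^ (β + 1)) (y := r / s)
    (by positivity) (by rw [div_lt_one s1]; linarith only [c0, hs, hr])
  obtain ⟨y, hy'⟩ : ∃ y, y = d * (β + 1 + 2 * κ) := ⟨_, rfl⟩
  obtain ⟨L, hL⟩ : ∃ L, (2 * d + 3) * y + ((2 * d + 3) * y) ^ (d + 2) < L := ⟨_, Nat.lt_succ_self _⟩
  obtain ⟨C, hC⟩ : ∃ C : ℝ, (cDS d (β + 2 * L * ζ) (2 * L * (d + 2) ^ (j + 1)) y : ℝ) = C :=
    ⟨_, rfl⟩
  have C0 : 0 ≤ C := hC ▸ Nat.cast_nonneg _
  filter_upwards [ev_free hd j h0 h1 hy, ev_small hd (η := 1 / 2) (by norm_num),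
    eventually_ge_atTop (β + ζ + 1), isoev_log (8 ^ (2 * L) + 2 ^ (2 * κ) * C) η hη κ (2 * L),
    isoev_log ((2 * β + 2 * ζ) * ζ) (c / 4) (by positivity) κ 1] with n e1 e2 e3 e4 e5
    z p z0 hz p0 p1
  have n1 : 1 ≤ n := by omega
  have n0 : (0 : ℝ) < n := by exact_mod_cast n1
  have zd : n * z ^ d ≤ 1 := by
    have : 0 ≤ n * z ^ d := by positivity
    have : (0 : ℝ) ≤ d := by positivity
    nlinarith only [hz]
  have pz : p ≤ z := p1.trans (by nlinarith only [h1, z0])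
  have p2 : p ≤ 1 / 2 := by
    have := e2 z 1 z0.le zero_le_one zd (by rw [one_pow]; exact one_le_pow₀ (by norm_num))
    linarith only [pz, this]
  have p3 : p ≤ 1 := by linarith only [p2]
  have pd : n * p ^ d ≤ 1 := le_trans (by gcongr) zd
  obtain ⟨l1, l2⟩ := log_spec n1
  generalize Nat.log 2 n + 1 = w at e4 e5 l1 l2
  obtain ⟨J, hJ⟩ : ∃ J, κ * w = J := ⟨_, rfl⟩
  rw [hJ] at e4 e5
  have l3 : (n : ℝ) ≤ 2 ^ w := by exact_mod_cast l1.le
  have l4 : (2 : ℝ) ^ w ≤ 2 * n := by exact_mod_cast l2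
  have N0 : (0 : ℝ) < n ^ ζ := by positivity
  have main : ∀ b : Fin β → Fin n, Function.Injective b → Pr p (fun S : Finset (Face n d) =>
      ¬ c / 2 * (n : ℝ) ^ ζ ≤ ((univ.filter fun z : Fin ζ → Fin n =>
        Function.Injective (Sum.elim b z) ∧ ∀ x ∈ P, ¬ Rs S j (x.image (Sum.elim b z)) ∧
          ¬ Tch d (Rs S j) (x.image (Sum.elim b z))).card : ℝ)) ≤
      (1 / s) ^ J * (((J : ℝ) + 1) ^ (2 * L) * (r ^ (J - 2 * L) + C * p ^ y)) := by
    intro b hb
    obtain ⟨Ω, hΩ⟩ : ∃ Ω, Ω = univ.filter fun z : Fin ζ → Fin n =>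
      Function.Injective (Sum.elim b z) := ⟨_, rfl⟩
    have m1 : ∀ o ∈ Ω, Function.Injective (Sum.elim b o) := fun o ho => by
      rw [hΩ] at ho
      exact (mem_filter.1 ho).2
    have m2 : (Ω.card : ℝ) ≤ n ^ ζ := by
      exact_mod_cast (card_le_univ Ω).trans (by simp only [Fintype.card_pi, Fintype.card_fin, prod_const, card_univ, Std.le_refl])
    have m3 : (n : ℝ) ^ ζ * (1 - ζ * ((β + ζ) / n)) ≤ Ω.card := by
      have a1 : (((n - (β + ζ) : ℕ) : ℝ)) ^ ζ ≤ Ω.card := by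
        rw [hΩ]
        exact_mod_cast isoev_card (ζ := ζ) hb (by omega)
      have a2 : ((β + ζ : ℕ) : ℝ) ≤ n := by exact_mod_cast (by omega : β + ζ ≤ n)
      rw [Nat.cast_sub (by omega)] at a1
      push_cast at a1 a2
      have a3 := one_add_mul_le_pow (a := -((β + ζ : ℝ) / n)) (by
        have : (β + ζ : ℝ) / n ≤ 1 := (div_le_one n0).2 a2
        linarith only [this]) ζ
      calc _ ≤ (n : ℝ) ^ ζ * (1 + -((β + ζ : ℝ) / n)) ^ ζ := by
            gcongr
            linarith only [a3]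
        _ = (n - (β + ζ)) ^ ζ := by
            rw [← mul_pow]
            congr 1
            field_simp
            ring
        _ ≤ _ := a1
    have m4 : (((univ.image b).card : ℝ) + J * ζ) * ((ζ * n ^ (ζ - 1) : ℕ) : ℝ) ≤
        n ^ ζ * ((β + J * ζ) * ζ / n) := by
      have a1 : ((univ.image b).card : ℝ) ≤ β := by
        exact_mod_cast card_image_le.trans (by simp only [card_univ, Fintype.card_fin, Std.le_refl])
      have a2 : ((ζ * n ^ (ζ - 1) : ℕ) : ℝ) = n ^ ζ * (ζ / n) := by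
        rcases ζ with _ | ζ
        · simp
        · rw [Nat.add_sub_cancel]
          push_cast
          field_simp
          ring
      rw [a2]
      calc _ ≤ (β + J * ζ) * ((n : ℝ) ^ ζ * (ζ / n)) := by gcongr
        _ = _ := by ring
    have m5 : (β + J * ζ) * ζ / (n : ℝ) + ζ * ((β + ζ) / n) ≤ c / 4 := by
      rw [← mul_div_assoc, ← add_div, div_le_iff₀ n0]
      refine le_trans ?_ e5
      have : (0 : ℝ) ≤ β * J * ζ := by positivity
      have : (0 : ℝ) ≤ ζ * J * ζ := by positivity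
      have : (0 : ℝ) ≤ ζ * ζ := by positivity
      linarith
    refine le_trans (Pr_mono p0 p3 fun S hS => ?_) ((tail_tuples p0 p3 Ω (fun o => univ.image o)
      (univ.image b) (ζ := ζ) (D := ζ * n ^ (ζ - 1)) (J := J)
      (fun o _ => card_image_le.trans (by simp only [card_univ, Fintype.card_fin, Std.le_refl])) (fun v => by convert isoev_deg Ω v)
      (fun o (S : Finset (Face n d)) => ¬ ∀ x ∈ P, ¬ Rs S j (x.image (Sum.elim b o)) ∧
        ¬ Tch d (Rs S j) (x.image (Sum.elim b o)))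
      (q := ((J : ℝ) + 1) ^ (2 * L) * (r ^ (J - 2 * L) + C * p ^ y)) (a := s * n ^ ζ)
      (by positivity) (by positivity) fun t a1 a2 => ?_).trans ?_)
    · have a1 := card_filter_add_card_filter_not (s := Ω) fun o => ∀ x ∈ P,
        ¬ Rs S j (x.image (Sum.elim b o)) ∧ ¬ Tch d (Rs S j) (x.image (Sum.elim b o))
      have a2 : (Ω.filter fun o => ∀ x ∈ P, ¬ Rs S j (x.image (Sum.elim b o)) ∧
          ¬ Tch d (Rs S j) (x.image (Sum.elim b o))) = univ.filter fun z : Fin ζ → Fin n =>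
          Function.Injective (Sum.elim b z) ∧ ∀ x ∈ P, ¬ Rs S j (x.image (Sum.elim b z)) ∧
            ¬ Tch d (Rs S j) (x.image (Sum.elim b z)) := by
        rw [hΩ, filter_filter]
      rw [a2] at a1
      have a3 := congrArg (Nat.cast : ℕ → ℝ) a1
      rw [Nat.cast_add] at a3
      have a4 := mul_le_mul_of_nonneg_left m5 N0.le
      rw [not_le] at hS
      have a5 : s * n ^ ζ + (((univ.image b).card : ℝ) + J * ζ) * ((ζ * n ^ (ζ - 1) : ℕ) : ℝ) ≤
          ((Ω.filter fun o => ¬ ∀ x ∈ P, ¬ Rs S j (x.image (Sum.elim b o)) ∧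
            ¬ Tch d (Rs S j) (x.image (Sum.elim b o))).card : ℝ) := by
        rw [← hs]
        linarith only [m3, m4, hS, a3, a4]
      convert a5
    · rw [← hC]
      refine isoev_tuple hd j P hP p0 p2 pd r1.le b t (fun i => m1 _ (a1 i).1) a2 (fun i => ?_) y L hL
      have a3 := e1 z p z0 hz p0 p1 (P.image fun x => x.image (Sum.elim b (t i)))
      have a4 : c ≤ Real.exp (-(7 * (P.image fun x => x.image (Sum.elim b (t i))).card)) := by
        rw [← hc]
        have : ((P.image fun x => x.image (Sum.elim b (t i))).card : ℝ) ≤ P.card := by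
          exact_mod_cast card_image_le
        exact Real.exp_le_exp.2 (by linarith only [this])
      simp only [forall_mem_image] at a3
      rw [Pr_compl]
      linarith only [c0, hr, a4, a3]
    · refine mul_le_mul_of_nonneg_right (pow_le_pow_left₀ (by positivity) ?_ _) (by positivity)
      rw [div_le_div_iff₀ (by positivity) s1, one_mul, mul_comm]
      exact mul_le_mul_of_nonneg_left m2 s1.le
  have fin : (n : ℝ) ^ β * ((1 / s) ^ J * (((J : ℝ) + 1) ^ (2 * L) *
      (r ^ (J - 2 * L) + C * p ^ y))) ≤ η := by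
    have a1 : r ^ (J - 2 * L) ≤ 8 ^ (2 * L) * r ^ J := by
      have b1 : r ^ (J - 2 * L + 2 * L) ≤ r ^ J :=
        pow_le_pow_of_le_one r1.le (by linarith only [c0, hr]) (by omega)
      have b2 : (1 : ℝ) ≤ (8 * r) ^ (2 * L) := one_le_pow₀ (by linarith only [c1, hr])
      calc _ ≤ r ^ (J - 2 * L) * (8 * r) ^ (2 * L) := le_mul_of_one_le_right (by positivity) b2
        _ = 8 ^ (2 * L) * r ^ (J - 2 * L + 2 * L) := by rw [mul_pow, pow_add]; ring
        _ ≤ _ := by gcongr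
    have a2 : (n : ℝ) ^ (β + 1) * (r / s) ^ J ≤ 1 := by
      rw [← hJ, pow_mul]
      calc _ ≤ ((2 : ℝ) ^ w) ^ (β + 1) * ((1 / 2) ^ (β + 1)) ^ w := by gcongr
        _ = 1 := by rw [← pow_mul, ← pow_mul, mul_comm w, ← mul_pow]; norm_num
    have a3 : (1 / s) ^ J ≤ 2 ^ (2 * κ) * n ^ (2 * κ) := by
      calc _ ≤ ((2 : ℝ) ^ 2) ^ J := by
            gcongr
            rw [div_le_iff₀ s1]
            linarith only [c1, hs]
        _ = (2 ^ w) ^ (2 * κ) := by rw [← hJ, ← pow_mul, ← pow_mul]; congr 1; ring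
        _ ≤ (2 * n) ^ (2 * κ) := by gcongr
        _ = _ := mul_pow _ _ _
    have a4 : (n : ℝ) ^ (β + 1) * n ^ (2 * κ) * p ^ y ≤ 1 := by
      rw [hy', ← pow_add, pow_mul, ← mul_pow]
      exact pow_le_one₀ (by positivity) pd
    refine le_of_mul_le_mul_right (le_trans ?_ e4) n0
    calc _ = ((n : ℝ) ^ (β + 1) * (1 / s) ^ J * r ^ (J - 2 * L) +
          C * (n ^ (β + 1) * (1 / s) ^ J * p ^ y)) * ((J : ℝ) + 1) ^ (2 * L) := by ring
      _ ≤ ((n : ℝ) ^ (β + 1) * (1 / s) ^ J * (8 ^ (2 * L) * r ^ J) +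
          C * (n ^ (β + 1) * (2 ^ (2 * κ) * n ^ (2 * κ)) * p ^ y)) * ((J : ℝ) + 1) ^ (2 * L) := by
        gcongr
      _ = (8 ^ (2 * L) * ((n : ℝ) ^ (β + 1) * (r / s) ^ J) +
          2 ^ (2 * κ) * C * (n ^ (β + 1) * n ^ (2 * κ) * p ^ y)) * ((J : ℝ) + 1) ^ (2 * L) := by
        rw [div_eq_mul_one_div r, mul_pow]
        ring
      _ ≤ (8 ^ (2 * L) * 1 + 2 ^ (2 * κ) * C * 1) * ((J : ℝ) + 1) ^ (2 * L) := by gcongr
      _ = _ := by ring
  rw [hc]
  refine (Pr_union p0 p3 (univ.filter fun b : Fin β → Fin n => Function.Injective b) _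
    fun S hS => ?_).trans ((sum_le_card_nsmul _ _ _ fun b hb =>
      main b (mem_filter.1 hb).2).trans (le_trans ?_ fin))
  · simp only [Iso, not_forall] at hS
    obtain ⟨b, hb, h⟩ := hS
    exact ⟨b, mem_filter.2 ⟨mem_univ _, hb⟩, by convert h⟩
  · rw [nsmul_eq_mul]
    gcongr
    exact_mod_cast (card_le_univ _).trans (by simp only [Fintype.card_pi, Fintype.card_fin, prod_const, card_univ, Std.le_refl])

end Pool.Agent.MP_8f9e6e_pr

end

end

section

/-! The bounded structures in the language of the encoding. -/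

open Finset Filter

namespace Pool.Agent.MP_8f9e6e_pr.J

variable {n d : ℕ}

theorem br_adj {H : Fc n → Prop} {g h : Fc n} : Adj d H g h ↔ Gam d H g h := by
  simp only [Adj, Gam, slt, par, forall_mem_image]

theorem br_tch {H : Fc n → Prop} {f : Fc n} (hf : f.card = d + 1) (h : Tch H f) :
    MP_8f9e6e_pr.Tch d H f := by
  obtain ⟨u, a, o, b, c⟩ := h
  exact ⟨_, br_adj.1 ⟨hf, u, a, o, b, rfl, c⟩⟩

theorem br_heavy {r s : ℕ} {S : Finset (Face n d)} {g : Fc n} :
    Heavy d r s (st S) g ↔ Hv r s g S := by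
  classical
  have e : Adj d (Rd d (st S) r) = Gam d (Rs S r) := by
    funext a b
    exact propext br_adj
  unfold Heavy cd
  rw [e]
  refine ⟨fun h => ?_, fun ⟨X, a, b⟩ => b.trans (card_le_card fun k hk =>
    mem_filter.2 ⟨mem_univ _, a.reach k hk⟩)⟩
  have k1 : ∀ k, Relation.ReflTransGen (Gam d (Rs S r)) g k → ∀ X, MP_8f9e6e_pr.Cl d (Rs S r) g X →
      g ∈ X → ∃ Y, MP_8f9e6e_pr.Cl d (Rs S r) g Y ∧ X ⊆ Y ∧ k ∈ Y := fun k hk X hX hg => by
    induction hk with
    | refl => exact ⟨X, hX, Subset.rfl, hg⟩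
    | tail _ c ih =>
      obtain ⟨Y, y1, y2, y3⟩ := ih
      exact ⟨_, .step Y _ _ y1 y3 c, y2.trans (subset_insert _ _), mem_insert_self _ _⟩
  have k2 : ∀ Z : Finset (Fc n), (∀ k ∈ Z, Relation.ReflTransGen (Gam d (Rs S r)) g k) →
      ∃ Y, MP_8f9e6e_pr.Cl d (Rs S r) g Y ∧ g ∈ Y ∧ Z ⊆ Y := fun Z => by
    induction Z using Finset.induction_on with
    | empty => exact fun _ => ⟨_, .base, mem_singleton_self _, empty_subset _⟩
    | insert k Z _ ih =>
      intro hZ
      obtain ⟨X, x1, x2, x3⟩ := ih fun l hl => hZ l (mem_insert_of_mem hl)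
      obtain ⟨Y, y1, y2, y3⟩ := k1 k (hZ k (mem_insert_self _ _)) X x1 x2
      exact ⟨Y, y1, y2 x2, insert_subset y3 (x3.trans y2)⟩
  obtain ⟨Y, y1, -, y2⟩ := k2 _ fun k hk => (mem_filter.1 hk).2
  exact ⟨Y, y1, h.trans (card_le_card (by convert y2))⟩

theorem br_le {α : Type} [Fintype α] {P : α → Prop} {s : Finset α} (h : ∀ x, P x → x ∈ s) :
    cd P ≤ s.card := card_le_card fun x hx => h x (by simpa only [mem_filter, mem_univ, true_and] using hx)

theorem br_ge {α : Type} [Fintype α] {P : α → Prop} {s : Finset α} (h : ∀ x ∈ s, P x) :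
    s.card ≤ cd P := card_le_card fun x hx => by simpa only [mem_filter, mem_univ, true_and] using h x hx

theorem br_cd {P : Fc n → Prop} (h : ∀ x, P x → x.card = d + 1) {s : Finset (Face n d)}
    (hs : ∀ f : Face n d, P f.1 → f ∈ s) : cd P ≤ s.card :=
  (br_le fun x hx => mem_image.2 ⟨⟨x, h x hx⟩, hs _ hx, rfl⟩).trans (card_image_le (f := Subtype.val))

theorem br_unit (hd : 2 ≤ d) (hn : 1 ≤ n) : ∃ z : ℝ, 0 < z ∧ (d + 1) * (n * z ^ d) = 1 ∧
    gc d * mm n d = d / (d + 1) * z ∧ z ≤ mm n d := by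
  have d2 : (2 : ℝ) ≤ d := by exact_mod_cast hd
  have n0 : (0 : ℝ) < n := by exact_mod_cast hn
  have c0 : (0 : ℝ) < (d + 1) ^ (d + 1) / d ^ d := by positivity
  have c1 := inf_root hd c0
  have c2 := inf_root hd n0
  have c3 := Real.rpow_pos_of_pos c0 (-(1 / d : ℝ))
  have c4 := Real.rpow_pos_of_pos n0 (-(1 / d : ℝ))
  unfold gc mm
  generalize ((d + 1) ^ (d + 1) / d ^ d : ℝ) ^ (-(1 / d : ℝ)) = c at *
  generalize (n : ℝ) ^ (-(1 / d : ℝ)) = a at *
  have z1 : (d + 1) * (n * ((d + 1) / d * (c * a)) ^ d) = 1 := by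
    rw [mul_pow, mul_pow, c1, c2, div_pow]
    field_simp
    ring
  refine ⟨_, by positivity, z1, by field_simp, ?_⟩
  refine le_of_pow_le_pow_left₀ (n := d) (by omega) c4.le ?_
  rw [c2, ← mul_le_mul_iff_right₀ n0, mul_inv_cancel₀ n0.ne']
  have : 0 ≤ n * ((d + 1) / d * (c * a)) ^ d := by positivity
  nlinarith only [z1]

theorem br_mono {g g' : ℝ} (h0 : 0 ≤ g) (h : g ≤ g') (j : ℕ) : ys d g j ≤ ys d g' j := by
  induction j with
  | zero => exact h
  | succ j ih =>
    have := ys_nonneg (d := d) h0 j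
    rw [ys, ys]
    gcongr

theorem br_step {g : ℝ} (h0 : 0 ≤ g) : Monotone (ys d g) := monotone_nat_of_le_succ fun j => by
  induction j with
  | zero =>
    have := ys_nonneg (d := d) h0 0
    rw [ys]
    exact le_add_of_nonneg_right (by positivity)
  | succ j ih =>
    have := ys_nonneg (d := d) h0 j
    show g + ys d g j ^ (d + 1) / (d + 1) ≤ g + ys d g (j + 1) ^ (d + 1) / (d + 1)
    gcongr

theorem br_lt (j : ℕ) : ys d (d / (d + 1)) j < 1 := by
  have g0 : (0 : ℝ) ≤ d / (d + 1) := by positivity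
  induction j with
  | zero => rw [ys, div_lt_one (by positivity)]; linarith
  | succ j ih =>
    have := pow_lt_one₀ (ys_nonneg (d := d) g0 j) ih (n := d + 1) (by omega)
    rw [ys, ← add_div, div_lt_one (by positivity)]
    linarith only [this]

theorem br_rho (hd : 2 ≤ d) (j : ℕ) : ∃ ρ : ℝ, 0 < ρ ∧ (1 + ρ) * (d / (d + 1)) ≤ 1 ∧
    ys d ((1 + ρ) * (d / (d + 1))) j ≤ 1 := by
  have d2 : (2 : ℝ) ≤ d := by exact_mod_cast hd
  have c1 : ∀ j, Continuous fun g : ℝ => ys d g j := fun j => by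
    induction j with
    | zero => exact continuous_id
    | succ j ih => simp only [ys]; fun_prop
  have c2 : Continuous fun ρ : ℝ => ys d ((1 + ρ) * (d / (d + 1))) j :=
    (c1 j).comp (by fun_prop)
  have c3 := c2.continuousAt (x := 0) |>.eventually_lt continuousAt_const
    (by simpa using br_lt (d := d) j)
  have c4 : ∀ᶠ ρ : ℝ in nhds 0, ρ < 1 / d := eventually_lt_nhds (by positivity)
  obtain ⟨ρ, ⟨a, b⟩, c⟩ := (((c3.and c4).filter_mono nhdsWithin_le_nhds).and
    (self_mem_nhdsWithin (s := Set.Ioi (0 : ℝ)))).exists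
  refine ⟨ρ, c, ?_, a.le⟩
  rw [lt_div_iff₀ (by positivity)] at b
  rw [← mul_div_assoc, div_le_one (by positivity)]
  linarith only [b]

theorem sizeA (hd : 2 ≤ d) (r : ℕ) : ∃ ρ : ℝ, 0 < ρ ∧ ∀ η : ℝ, 0 < η → ∀ᶠ n : ℕ in atTop,
    ∀ p : ℝ, 0 ≤ p → p ≤ (1 + ρ) * (gc d * mm n d) →
      Pr p (fun S : Finset (Face n d) => 2 * MM n d < cd (Rd d (st S) r)) ≤ η := by
  obtain ⟨ρ, a, b, c⟩ := br_rho hd r
  refine ⟨ρ, a, fun η hη => ?_⟩
  filter_upwards [ev_size hd r (by positivity) b (c.trans (by norm_num)) hη,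
    ev_small hd (η := 1) one_pos, eventually_ge_atTop 1] with n s1 s2 s3 p p0 p1
  obtain ⟨z, z0, z1, z2, z3⟩ := br_unit hd s3
  rw [z2, ← mul_assoc] at p1
  have p2 : p ≤ z := p1.trans (mul_le_of_le_one_left z0.le b)
  have q0 : 0 ≤ n * z ^ d := by positivity
  have z4 := s2 z 1 z0.le zero_le_one (by nlinarith only [z1])
    (by rw [one_pow]; exact_mod_cast Nat.one_le_two_pow)
  refine (Pr_mono p0 (by linarith only [p2, z4]) fun S hS => ?_).trans (s1 z p z0 z1 p0 p1)
  refine lt_of_le_of_lt ?_ (hS.trans_le (Nat.cast_le.2 (br_cd (fun x (hx : Rs S r x) => hx.card)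
    fun f hf => by simpa only [mem_filter, mem_univ, true_and] using hf)))
  unfold MM
  gcongr

theorem ridgeA (hd : 2 ≤ d) (r : ℕ) {η : ℝ} (hη : 0 < η) : ∀ᶠ n : ℕ in atTop,
    ∀ p : ℝ, 0 ≤ p → p ≤ (1 + 1 / d) * (gc d * mm n d) →
      Pr p (fun S : Finset (Face n d) => ¬ Rdg d (Rd d (st S) r) (n * √(mm n d))) ≤ η := by
  have d2 : (2 : ℝ) ≤ d := by exact_mod_cast hd
  filter_upwards [ev_ridge hd r hη, ev_small hd (η := 1) one_pos, eventually_ge_atTop 1]
    with n s1 s2 s3 p p0 p1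
  obtain ⟨z, z0, z1, z2, z3⟩ := br_unit hd s3
  have p2 : p ≤ z := by
    rw [z2] at p1
    exact p1.trans_eq (by field_simp)
  have q0 : 0 ≤ n * z ^ d := by positivity
  have z4 := s2 z 1 z0.le zero_le_one (by nlinarith only [z1])
    (by rw [one_pow]; exact_mod_cast Nat.one_le_two_pow)
  refine (Pr_mono p0 (by linarith only [p2, z4]) fun S hS => ?_).trans (s1 z p z0 z1 p0 p2)
  unfold Rdg at hS
  push Not at hS
  obtain ⟨x, x1, x2⟩ := hS
  refine ⟨x, x1, lt_of_le_of_lt ?_ (x2.trans_le (Nat.cast_le.2 (br_le fun v hv => by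
    simp only [mem_filter, mem_univ, true_and]; exact hv)))⟩
  gcongr

theorem heavyA (hd : 2 ≤ d) (l : ℝ) : ∃ ρ : ℝ, 0 < ρ ∧ ∃ r1 m : ℕ, ∀ r, r1 ≤ r → ∀ γ η : ℝ,
    1 - ρ ≤ γ → γ ≤ 1 → 0 < η → ∀ᶠ n : ℕ in atTop, ∃ s ∈ Icc 1 m, ∃ q : ℝ,
      1 ≤ s * q ∧ l ≤ s * q ∧ q ≤ 1 ∧
      Pr (γ * (gc d * mm n d)) (fun S : Finset (Face n d) => q * n.choose (d + 1) / η <
        cd fun g : Fc n => g.card = d + 1 ∧ Heavy d r s (st S) g) ≤ η ∧
      Pr (γ * (gc d * mm n d)) (fun S : Finset (Face n d) => n.choose (d + 1) * √(mm n d) <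
        cd fun e : Fc n => e.card = d + 1 ∧
          (Xh d r s (st S) e : ℝ) < n * q ^ 2 * (γ * (gc d * mm n d)) ^ (d - 1) / 4) ≤ η := by
  classical
  have d2 : (2 : ℝ) ≤ d := by exact_mod_cast hd
  obtain ⟨μ, μ1, m, hm⟩ := ev_heavy hd l
  obtain ⟨κ, k0, k1, k2⟩ : ∃ κ : ℝ, 0 < κ ∧ κ ≤ 1 ∧ μ ≤ 1 - d * κ :=
    ⟨min 1 ((1 - μ) / d), lt_min one_pos (div_pos (by linarith only [μ1]) (by positivity)), min_le_left _ _,
      by have := (le_div_iff₀ (by positivity)).1 (min_le_right 1 ((1 - μ) / d)); linarith only [this]⟩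
  obtain ⟨r1, hr⟩ := inf_ys hd k0 k1
  refine ⟨κ ^ 2 / 4, by positivity, r1, m, fun r r2 γ η g1 g2 hη => ?_⟩
  have e0 : (0 : ℝ) < d / (d + 1) := by positivity
  have e1 : (d / (d + 1) : ℝ) ≤ 1 := by rw [div_le_one (by positivity)]; linarith only []
  have g3 : 0 < 1 - κ ^ 2 / 4 := by nlinarith only [k0, k1]
  have g4 : 0 < γ * (d / (d + 1)) := mul_pos (by linarith only [g1, g3]) e0
  have g5 : γ * (d / (d + 1)) ≤ d / (d + 1) := mul_le_of_le_one_left e0.le g2
  have y1 : 1 - κ ≤ ys d (γ * (d / (d + 1))) r :=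
    (hr.trans (br_mono (by positivity) (by gcongr) r1)).trans (br_step g4.le r2)
  have y2 : μ ≤ ys d (γ * (d / (d + 1))) r ^ d := by
    have := one_add_mul_le_pow (a := -κ) (by linarith only [k1]) d
    rw [← sub_eq_add_neg] at this
    linarith only [pow_le_pow_left₀ (by linarith only [k1]) y1 d, k2, this]
  filter_upwards [hm r _ η g4 (g5.trans e1) y2 ((br_mono g4.le g5 r).trans (br_lt r).le) hη,
    ev_small hd (η := 1) one_pos, eventually_ge_atTop 1] with n s1 s2 s3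
  obtain ⟨z, z0, z1, z2, z3⟩ := br_unit hd s3
  obtain ⟨s, a1, q, a2, a3, a4, a5, a6⟩ := s1 z z0 z1
  have q0 : 0 ≤ n * z ^ d := by positivity
  have z4 := s2 z 1 z0.le zero_le_one (by nlinarith only [z1])
    (by rw [one_pow]; exact_mod_cast Nat.one_le_two_pow)
  have p1 : γ * (d / (d + 1)) * z ≤ 1 := by nlinarith only [e1, g4, g5, z4]
  rw [z2, ← mul_assoc]
  refine ⟨s, a1, q, a2, a3, a4, (Pr_mono (by positivity) p1 fun S hS => ?_).trans a5,
    (Pr_mono (by positivity) p1 fun S hS => ?_).trans a6⟩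
  · exact hS.trans_le (Nat.cast_le.2 (br_cd (fun x hx => hx.1) fun f hf => by
      simpa only [mem_filter, mem_univ, true_and] using br_heavy.1 hf.2))
  · refine lt_of_le_of_lt (by gcongr) (hS.trans_le (Nat.cast_le.2 (br_cd (fun x hx => hx.1)
      fun f hf => ?_)))
    simp only [mem_filter, mem_univ, true_and]
    refine lt_of_le_of_lt (Nat.cast_le.2 (br_ge fun u hu => ?_)) hf.2
    simp only [mem_filter, mem_univ, true_and] at hu
    obtain ⟨b1, w, b2, w', b3, b4, b5, b6, b7⟩ := hu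
    exact ⟨b1, w, b2, w', b3, b4, br_heavy.2 b5, br_heavy.2 b6, b7⟩

/-- Positions of a template. -/
def brE (d k t : ℕ) (i : ℕ) : Fin (d + 1 + (t - k)) ⊕ Fin k :=
  if h : i < d + 1 then .inl ⟨i, by omega⟩ else if h' : i < d + 1 + k then .inr ⟨i - (d + 1), by omega⟩
  else if h'' : i < d + 1 + k + (t - k) then .inl ⟨i - k, by omega⟩ else .inl ⟨0, by omega⟩

theorem isoA (hd : 2 ≤ d) {k t : ℕ} (h : t ≤ k ∨ (d < k ∧ t ≤ k + d + 1)) :
    ∃ c : ℝ, 0 < c ∧ c ≤ 1 ∧ ∀ r : ℕ, ∃ ρ : ℝ, 0 < ρ ∧ ∀ η : ℝ, 0 < η → ∀ᶠ n : ℕ in atTop,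
      ∀ [NeZero n] (p : ℝ), 0 ≤ p → p ≤ (1 + ρ) * (gc d * mm n d) →
        Pr p (fun S : Finset (Face n d) => ¬ Iso d r k t c (st S)) ≤ η := by
  classical
  set P : Finset (Finset (Fin (d + 1 + (t - k)) ⊕ Fin k)) := (range t ×ˢ Icc 1 d).image fun j =>
    ((range (d + 2)).erase j.2).image fun i => brE d k t (j.1 + i) with hP
  have inj : Set.InjOn (brE d k t) (Set.Iio (t + d + 1)) := fun i hi j hj e => by
    simp only [Set.mem_Iio] at hi hj
    unfold brE at e
    split_ifs at e <;> simp only [Sum.inl.injEq, Sum.inr.injEq, Fin.mk.injEq] at e <;>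
      omega
  have hP1 : ∀ x ∈ P, x.card = d + 1 ∧ ∃ i, Sum.inr i ∈ x := fun x hx => by
    obtain ⟨⟨j, l⟩, a, rfl⟩ := mem_image.1 hx
    simp only [mem_product, mem_range, mem_Icc] at a
    refine ⟨?_, ?_⟩
    · rw [card_image_of_injOn fun i hi i' hi' e => ?_, card_erase_of_mem (by simp; omega),
        card_range]
      · rfl
      · simp only [coe_erase, coe_range, Set.mem_sdiff, Set.mem_Iio] at hi hi'
        have := inj (show j + i < _ by omega) (show j + i' < _ by omega) e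
        omega
    · by_cases hj : j < k
      · refine ⟨⟨j, hj⟩, mem_image.2 ⟨d + 1, by simp only [mem_erase, ne_eq, mem_range, add_lt_add_iff_left, Order.lt_two_iff, Std.le_refl, and_true]; omega, ?_⟩⟩
        simp only [brE]
        rw [dif_neg (by omega), dif_pos (by omega)]
        simp only [add_tsub_cancel_right]
      · refine ⟨⟨j - (d + 1), by omega⟩, mem_image.2 ⟨0, by simp only [mem_erase, ne_eq, mem_range, lt_add_iff_pos_left, add_pos_iff, Order.lt_two_iff, zero_le, or_true, and_true]; omega, ?_⟩⟩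
        simp only [brE]
        rw [dif_neg (by omega), dif_pos (by omega)]
        simp only [add_zero]
  refine ⟨Real.exp (-(7 * P.card)) / 2, by positivity, ?_, fun r => ?_⟩
  · have := Real.exp_le_one_iff.2 (show -(7 * P.card : ℝ) ≤ 0 by simp only [Left.neg_nonpos_iff, Nat.ofNat_pos, mul_nonneg_iff_of_pos_left, Nat.cast_nonneg])
    linarith only [this]
  obtain ⟨ρ, a, b, c⟩ := br_rho hd r
  refine ⟨ρ, a, fun η hη => ?_⟩
  have g0 : 0 ≤ (1 + ρ) * (d / (d + 1) : ℝ) := by positivity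
  filter_upwards [ev_iso hd r P hP1 g0 b ((pow_le_one₀ (ys_nonneg g0 r) c).trans one_le_two) hη,
    ev_small hd (η := 1) one_pos, eventually_ge_atTop 1] with n s1 s2 s3 _ p p0 p1
  obtain ⟨z, z0, z1, z2, z3⟩ := br_unit hd s3
  rw [z2, ← mul_assoc] at p1
  have p2 : p ≤ z := p1.trans (mul_le_of_le_one_left z0.le b)
  have q0 : 0 ≤ n * z ^ d := by positivity
  have z4 := s2 z 1 z0.le zero_le_one (by nlinarith only [z1])
    (by rw [one_pow]; exact_mod_cast Nat.one_le_two_pow)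
  refine (Pr_mono p0 (by linarith only [p2, z4]) fun S hS hI => hS fun a b => ?_).trans (s1 z p z0 z1 p0 p1)
  let B : Fin (d + 1 + (t - k)) → Fin n := fun i => if i.1 < d + 1 then a i else b (i - (d + 1))
  have key : ∀ (w : Fin k → Fin n) (i : ℕ), i < d + 1 + k + (t - k) →
      tpl d a w b i = Sum.elim B w (brE d k t i) := fun w i hi => by
    unfold tpl ext brE fz
    by_cases h1 : i < d + 1
    · simp only [h1, if_true, dite_true, Sum.elim_inl, B]
    · by_cases h2 : i < d + 1 + k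
      · simp only [h1, ↓ reduceIte, show i - (d + 1) < k by omega, ↓ reduceDIte, h2, Sum.elim_inr]
      · simp only [h1, h2, hi, show ¬ i - (d + 1) < k by omega, if_false, dite_false, dite_true,
          Sum.elim_inl, B, show ¬ i - k < d + 1 by omega]
        congr 1
        omega
  by_cases hB : Function.Injective B
  · have e1 := hI B hB
    generalize hG : (univ.filter fun w : Fin k → Fin n => Function.Injective (Sum.elim B w) ∧
      ∀ x ∈ P, ¬ Rs S r (x.image (Sum.elim B w)) ∧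
        ¬ MP_8f9e6e_pr.Tch d (Rs S r) (x.image (Sum.elim B w))) = G at e1
    have e2 : cd (fun w : Fin k → Fin n => Inj (tpl d a w b) (t + d + 1) ∧
        ∃ f ∈ sU d (tpl d a w b) t, Tch (Rd d (st S) r) f) ≤ Gᶜ.card :=
      br_le fun w ⟨w1, f, w2, w3⟩ => mem_compl.2 fun hw => by
        rw [← hG] at hw
        obtain ⟨w4, w5⟩ := (mem_filter.1 hw).2
        obtain ⟨j, j1, j2⟩ := mem_biUnion.1 w2
        obtain ⟨x, x1, rfl⟩ := mem_image.1 j2
        obtain ⟨x2, x3⟩ := mem_erase.1 x1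
        obtain ⟨l, l1, rfl⟩ := mem_image.1 x3
        rw [mem_range] at j1 l1
        have l0 : l ≠ 0 := fun e => x2 (by rw [e]; rfl)
        have hx := mem_image_of_mem (fun j : ℕ × ℕ => ((range (d + 2)).erase j.2).image fun i =>
          brE d k t (j.1 + i)) (show (j, l) ∈ range t ×ˢ Icc 1 d by simp; omega)
        have e3 : par (sf d (tpl d a w b) j) (tpl d a w b (j + d + 1)) (tpl d a w b (j + l)) =
            (((range (d + 2)).erase l).image fun i => brE d k t (j + i)).image (Sum.elim B w) := by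
          rw [image_image]
          ext v
          simp only [par, sf, mem_insert, mem_erase, mem_image, mem_range, Function.comp]
          constructor
          · rintro (rfl | ⟨v1, i, v2, rfl⟩)
            · exact ⟨d + 1, ⟨by omega, by omega⟩, (key w _ (by omega)).symm⟩
            · exact ⟨i, ⟨fun e => v1 (by rw [e]), by omega⟩, (key w _ (by omega)).symm⟩
          · rintro ⟨i, ⟨v1, v2⟩, rfl⟩
            rw [← key w _ (by omega)]
            by_cases hi : i = d + 1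
            · exact Or.inl (by rw [hi]; rfl)
            · refine Or.inr ⟨fun e => v1 ?_, i, by omega, rfl⟩
              have := w1 (show j + i < _ by omega) (show j + l < _ by omega) e
              omega
        rw [e3] at w3
        exact (w5 _ hx).2 (br_tch (by rw [card_image_of_injective _ w4, (hP1 _ hx).1]) w3)
    have e4 := card_add_card_compl G
    rw [Fintype.card_fun, Fintype.card_fin, Fintype.card_fin] at e4
    have e5 := (Nat.cast_le (α := ℝ)).2 ((add_le_add_right e2 G.card).trans_eq e4)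
    push_cast at e5
    linarith only [e1, e5]
  · refine (Nat.cast_le.2 (br_le (s := ∅) fun w hw => absurd (fun i j e => ?_) hB)).trans ?_
    · have f1 : ∀ i : Fin (d + 1 + (t - k)), ∃ i' < t + d + 1,
          i' < d + 1 + k + (t - k) ∧ brE d k t i' = .inl i := fun i => by
        have := i.2
        by_cases h1 : i.1 < d + 1
        · exact ⟨i, by omega, by omega, by simp only [brE, h1, dite_true]⟩
        · refine ⟨i + k, by omega, by omega, ?_⟩
          unfold brE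
          rw [dif_neg (by omega), dif_neg (by omega), dif_pos (by omega)]
          simp
      obtain ⟨i', a1, a2, a3⟩ := f1 i
      obtain ⟨j', b1, b2, b3⟩ := f1 j
      have := hw.1 a1 b1 (by rw [key w _ a2, key w _ b2, a3, b3]; exact e)
      rw [this, b3] at a3
      exact (Sum.inl.inj a3).symm
    · have := Real.exp_le_one_iff.2 (show -(7 * P.card : ℝ) ≤ 0 by simp only [Left.neg_nonpos_iff, Nat.ofNat_pos, mul_nonneg_iff_of_pos_left, Nat.cast_nonneg])
      rw [card_empty, Nat.cast_zero]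
      exact mul_nonneg (by linarith only [this]) (by positivity)

end Pool.Agent.MP_8f9e6e_pr.J

end
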