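import Pool.Agent.MP_8f9e6e_pr.Jump.P1

/-! Faces, ranks, chains and private apexes. -/

section

/-! Ranks, canonical cells, sliding chains and touches. -/

open Finset

namespace Pool.Agent.MP_8f9e6e_pr.J

variable {n d : ℕ} {S : Set (Fc n)} {x y g e : Fc n} {k i j : ℕ} {u w w' a : Fin n}

theorem rk_le (h : Rd d S k x) : rk d S x ≤ k := Nat.sInf_le (s := {k | Rd d S k x}) h

theorem rd_rk (h : Contr d S x) : Rd d S (rk d S x) x :=
  Nat.sInf_mem (s := {k | Rd d S k x}) (exists_rd h)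

theorem rd_card (hS : ∀ f ∈ S, f.card = d + 1) (h : Rd d S k x) : x.card = d + 1 := by
  induction k with
  | zero => exact hS x h
  | succ j ih => exact h.elim ih fun h => h.1

theorem rd_up {T : Set (Fc n)} (h : S ⊆ T) : ∀ {x : Fc n}, Rd d S k x → Rd d T k x := by
  induction k with
  | zero => exact fun hx => h hx
  | succ j ih =>
    rintro x (hx | ⟨h1, u, h2, h3⟩)
    · exact .inl (ih hx)
    · exact .inr ⟨h1, u, h2, fun w hw => ih (h3 w hw)⟩

theorem rd_src (h : x ∈ S) : Rd d S k x := Rd.mono (k := 0) k.zero_le h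

theorem mem_par : a ∈ par x u w ↔ a = u ∨ a ≠ w ∧ a ∈ x := by simp [par]

theorem par_card (h : x.card = d + 1) (hu : u ∉ x) (hw : w ∈ x) : (par x u w).card = d + 1 := by
  rw [par, card_insert_of_notMem (by simp [hu]), card_erase_add_one hw, h]

theorem par_inj (hu : u ∉ x) (hw : w ∈ x) (h : par x u w = par x u w') : w = w' := by
  by_contra c
  have : w ∈ par x u w := h ▸ mem_par.2 (.inr ⟨c, hw⟩)
  simp [mem_par, ne_of_mem_of_not_mem hw hu] at this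

theorem par_sub : par x u w ⊆ insert u x := insert_subset_insert _ (erase_subset _ _)

theorem cell_par (hw : w ∈ x) : insert w (par x u w) = insert u x := by
  rw [par, insert_comm, insert_erase hw]

theorem not_mem_par (hu : u ∉ x) (hw : w ∈ x) : w ∉ par x u w := by
  simp [mem_par, ne_of_mem_of_not_mem hw hu]

theorem par_par (hu : u ∉ x) (hw : w ∈ x) (hw' : w' ∈ x) (h : w' ≠ w) :
    par (par x u w) w w' = par x u w' := by
  ext a
  simp only [mem_par]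
  grind

theorem par_back (hu : u ∉ x) (hw : w ∈ x) : par (par x u w) w u = x := by
  ext a
  simp only [mem_par]
  grind

theorem mem_slt {o : Fin n} : y ∈ slt x u o ↔ ∃ w ∈ x, w ≠ o ∧ y = par x u w := by
  simp only [slt, mem_image, mem_erase]
  grind

theorem slt_card {o : Fin n} (h : x.card = d + 1) (hu : u ∉ x) (ho : o ∈ x) :
    (slt x u o).card = d := by
  rw [slt, card_image_of_injOn fun a ha b _ c => par_inj hu (mem_of_mem_erase ha) c,
    card_erase_of_mem ho, h]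
  rfl

/-- A face of the cell `x + u` other than `x` is a parent. -/
theorem face_par (h : x.card = d + 1) (hu : u ∉ x) (hy : y.card = d + 1) (h1 : y ⊆ insert u x)
    (h2 : y ≠ x) : ∃ w ∈ x, y = par x u w := by
  obtain ⟨w, a1, a2⟩ := exists_mem_notMem_of_card_lt_card (s := y) (t := insert u x)
    (by rw [card_insert_of_notMem hu]; omega)
  have a3 : y = (insert u x).erase w := eq_of_subset_of_card_le
    (subset_erase.2 ⟨h1, a2⟩) (by rw [card_erase_of_mem a1, card_insert_of_notMem hu]; omega)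
  rcases mem_insert.1 a1 with rfl | a4
  · exact absurd (a3.trans (erase_insert hu)) h2
  · exact ⟨w, a4, by rw [a3, par, erase_insert_of_ne (ne_of_mem_of_not_mem a4 hu).symm]⟩

/-- Two faces determine a cell. -/
theorem cell_eq {C C' : Finset (Fin n)} (hx : x.card = d + 1) (hy : y.card = d + 1) (h : x ≠ y)
    (c : C.card = d + 2) (c' : C'.card = d + 2) (h1 : x ⊆ C) (h2 : y ⊆ C) (h3 : x ⊆ C')
    (h4 : y ⊆ C') : C = C' := by
  have e : d + 2 ≤ (x ∪ y).card := by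
    refine hx.symm.trans_lt (card_lt_card ⟨subset_union_left, fun a => h ?_⟩)
    exact (eq_of_subset_of_card_le (subset_union_right.trans a) (by omega)).symm
  rw [← eq_of_subset_of_card_le (union_subset h1 h2) (c ▸ e),
    ← eq_of_subset_of_card_le (union_subset h3 h4) (c' ▸ e)]

theorem sf_succ {p : ℕ → Fin n} (h : (sf d p j).card = d + 1) :
    sf d p (j + 1) = par (sf d p j) (p (j + d + 1)) (p j) := by
  have e : Set.InjOn (fun i => p (j + i)) (range (d + 1) : Finset ℕ) :=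
    card_image_iff.1 (h.trans (card_range _).symm)
  ext a
  simp only [mem_par, sf, mem_image, mem_range]
  constructor
  · rintro ⟨i, hi, rfl⟩
    rcases (Nat.lt_succ_iff.1 hi).eq_or_lt with rfl | hi
    · exact .inl (by congr 1; omega)
    · refine .inr ⟨fun c => ?_, i + 1, by omega, by congr 1; omega⟩
      have := @e (i + 1) (by simp; omega) 0 (by simp)
        (by simpa [add_assoc, add_comm 1 i] using c)
      omega
  · rintro (rfl | ⟨c, i, hi, rfl⟩)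
    · exact ⟨d, by omega, by congr 1; omega⟩
    · cases i with
      | zero => exact absurd rfl c
      | succ i => exact ⟨i, by omega, by congr 1; omega⟩

theorem sf_congr {p p' : ℕ → Fin n} (h : ∀ i ≤ j + d, p i = p' i) : sf d p j = sf d p' j :=
  image_congr fun i hi => h _ (by have := mem_range.1 (mem_coe.1 hi); omega)

theorem su_congr {p p' : ℕ → Fin n} (h : ∀ i ≤ j + d + 1, p i = p' i) : su d p j = su d p' j := by
  rw [su, su, sf_congr fun i hi => h i (by omega), h _ le_rfl, h j (by omega)]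

theorem sU_congr {p p' : ℕ → Fin n} (h : ∀ i < j + d + 1, p i = p' i) : sU d p j = sU d p' j :=
  biUnion_congr rfl fun i hi => su_congr fun k hk => h k (by have := mem_range.1 hi; omega)

theorem sf_shift (p : ℕ → Fin n) (k : ℕ) : sf d (fun i => p (k + i)) j = sf d p (k + j) := by
  simp only [sf, add_assoc]

theorem su_shift (p : ℕ → Fin n) (k : ℕ) : su d (fun i => p (k + i)) j = su d p (k + j) := by
  simp only [su, sf_shift, add_assoc]

theorem mem_sf {p : ℕ → Fin n} (hi : i ≤ d) : p (j + i) ∈ sf d p j :=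
  mem_image.2 ⟨i, mem_range.2 (by omega), rfl⟩

variable [NeZero n]

theorem vx_mem (h : x.card = d + 1) (hi : i ≤ d) : vx x i ∈ x := by
  have : i < (x.sort (· ≤ ·)).length := by rw [length_sort]; omega
  rw [vx, List.getD_eq_getElem _ _ this]
  exact (mem_sort _).1 (List.getElem_mem _)

theorem vx_psn (h : x.card = d + 1) (hw : w ∈ x) : vx x (psn d x w) = w := by
  obtain ⟨i, hi, e⟩ := List.getElem_of_mem ((mem_sort (· ≤ ·)).2 hw)
  have e' : ∃ i : Fin (d + 1), vx x i = w :=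
    ⟨⟨i, by rwa [length_sort, h] at hi⟩, by rw [vx, List.getD_eq_getElem _ _ hi, e]⟩
  rw [psn, dif_pos e']
  exact e'.choose_spec

theorem image_vx (h : x.card = d + 1) : (range (d + 1)).image (vx x) = x := by
  ext a
  simp only [mem_image, mem_range]
  exact ⟨fun ⟨i, hi, e⟩ => e ▸ vx_mem h (by omega), fun c => ⟨_, (psn d x a).2, vx_psn h c⟩⟩

theorem vx_inj (h : x.card = d + 1) (hi : i ≤ d) (hj : j ≤ d) (e : vx x i = vx x j) : i = j :=
  card_image_iff.1 ((congrArg card (image_vx h)).trans (h.trans (card_range _).symm))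
    (by simp; omega) (by simp; omega) e

theorem psn_vx (h : x.card = d + 1) (i : Fin (d + 1)) : psn d x (vx x i) = i :=
  Fin.ext (vx_inj h (Nat.lt_succ_iff.1 (Fin.is_lt _)) (Nat.lt_succ_iff.1 i.2)
    (vx_psn h (vx_mem h (Nat.lt_succ_iff.1 i.2))))

theorem ap_spec (h : Contr d S x) (h' : x ∉ S) : x.card = d + 1 ∧ ap d S x ∉ x ∧
    (∀ w ∈ x, Rd d S (rk d S x - 1) (par x (ap d S x) w)) ∧
    ∃ w ∈ x, rk d S (par x (ap d S x) w) + 1 = rk d S x := by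
  have h1 := rd_rk h
  obtain ⟨k, hk⟩ : ∃ k, rk d S x = k + 1 := Nat.exists_eq_succ_of_ne_zero fun c => h' (c ▸ h1 :)
  rw [hk] at h1
  obtain ⟨c1, c2⟩ := h1.resolve_left fun c => by have := rk_le c; omega
  have c3 : ∃ u, u ∉ x ∧ ∀ w ∈ x, Rd d S (rk d S x - 1) (par x u w) := by rw [hk]; exact c2
  have c4 : ap d S x = c3.choose := by rw [ap, dif_pos c3]
  obtain ⟨c5, c6⟩ := c3.choose_spec
  rw [← c4] at c5 c6
  refine ⟨c1, c5, c6, ?_⟩
  by_contra! c7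
  obtain ⟨v, hv⟩ := card_pos.1 (show 0 < x.card by omega)
  have c8 : ∀ w ∈ x, rk d S (par x (ap d S x) w) < k := fun w hw => by
    have := rk_le (c6 w hw)
    have := c7 w hw
    omega
  obtain ⟨m, rfl⟩ := Nat.exists_eq_succ_of_ne_zero (c8 v hv).ne_bot
  have := rk_le (k := m + 1) (.inr ⟨c1, _, c5, fun w hw =>
    (rd_rk (c6 w hw).contr).mono (Nat.lt_succ_iff.1 (c8 w hw))⟩)
  omega

namespace Cx

variable {c : Cx n d}

omit [NeZero n] in
theorem D.notS (h : c.D x) : x ∉ c.S := fun a => h.2 (rd_src a)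

omit [NeZero n] in
theorem D.lt (h : c.D x) : c.r0 < c.rk x := lt_of_not_ge fun a => h.2 ((rd_rk h.1).mono a)

omit [NeZero n] in
theorem D.rd (h : c.D x) : Rd d c.S (c.rk x) x := rd_rk h.1

theorem D.card (h : c.D x) : x.card = d + 1 := (ap_spec h.1 h.notS).1

theorem D.ap (h : c.D x) : c.ap x ∉ x := (ap_spec h.1 h.notS).2.1

theorem pa_rd (h : Contr d c.S x) (h' : x ∉ c.S) (hw : w ∈ x) :
    Rd d c.S (c.rk x - 1) (c.pa x w) := (ap_spec h h').2.2.1 w hw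

theorem rk_pos (h : Contr d c.S x) (h' : x ∉ c.S) : 0 < c.rk x := by
  obtain ⟨w, -, a⟩ := (ap_spec h h').2.2.2
  exact (Nat.succ_pos _).trans_eq a

theorem pa_lt (h : Contr d c.S x) (h' : x ∉ c.S) (hw : w ∈ x) : c.rk (c.pa x w) < c.rk x :=
  (rk_le (pa_rd h h' hw)).trans_lt (Nat.sub_one_lt (rk_pos h h').ne')

theorem SS.dp (h : c.SS g w) : c.dp g = c.pa g w := by
  have e : ∃ w, c.SS g w := ⟨w, h⟩
  rw [Cx.dp, dif_pos e]
  by_contra a
  exact h.2.2.1.notS (e.choose_spec.2.2.2 w h.1 fun b => a (by rw [← b]))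

theorem SS.D (h : c.SS g w) : c.D (c.dp g) := h.dp ▸ h.2.2.1

theorem SS.rk (h : c.SS g w) : c.rk (c.dp g) + 1 = c.rk g := by
  obtain ⟨v, a, b⟩ := (ap_spec h.2.1.1 h.2.1.notS).2.2.2
  rw [h.dp]
  by_contra e
  have h1 := rk_le (d := d) (k := 0) (h.2.2.2 v a fun f => e (f ▸ b))
  have h2 := pa_lt h.2.1.1 h.2.1.notS h.1
  have h3 := h.2.2.1.lt
  unfold Cx.rk Cx.pa Cx.ap at *
  omega

open Classical in
theorem SS.un (h : c.SS g w) : (g.image (c.pa g)).filter (· ∈ c.S) = slt g (c.ap g) w := by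
  ext y
  rw [mem_filter, mem_image, mem_slt]
  exact ⟨fun ⟨⟨v, a, b⟩, e⟩ => ⟨v, a, fun f => h.2.2.1.notS (f ▸ b ▸ e), b.symm⟩,
    fun ⟨v, a, b, e⟩ => ⟨⟨v, a, e.symm⟩, e ▸ h.2.2.2 v a b⟩⟩

theorem SS.slot (h : c.SS g w) (hy : y ∈ g.image (c.pa g)) : y = c.dp g ∨ y ∈ c.S := by
  obtain ⟨v, a, rfl⟩ := mem_image.1 hy
  exact (eq_or_ne v w).imp (fun e => by rw [e, h.dp]) (h.2.2.2 v a)

omit [NeZero n] in
theorem lev_add (h : c.rk y + i = c.rk x) : c.lev x = (c.lev y + i) % c.Om := by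
  rw [lev, lev, ← h, Nat.mod_add_mod, Nat.add_right_comm]

theorem cq_eq (hi : i ≤ d) : c.cq e j i = c.chn e (j + i) := by
  induction i generalizing j with
  | zero => rfl
  | succ i ih =>
    rw [show j + (i + 1) = j + 1 + i by omega, ← ih (by omega), cq]
    exact (if_pos hi).symm

theorem chn_vx (hi : i ≤ d) : c.chn e i = vx e i := by
  rw [← zero_add i, ← cq_eq hi, zero_add, cq]

theorem chn_ap : c.chn e (j + d + 1) = c.ap (c.cf e j) := by
  rw [show j + d + 1 = j + 1 + d by omega, ← cq_eq le_rfl, cq]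
  exact (if_neg (lt_irrefl _)).trans
    (congrArg _ (image_congr fun i hi => cq_eq (Nat.lt_succ_iff.1 (mem_range.1 hi))))

theorem cf_zero (h : e.card = d + 1) : c.cf e 0 = e :=
  (image_congr fun i hi => by
    rw [zero_add]; exact chn_vx (Nat.lt_succ_iff.1 (mem_range.1 hi))).trans (image_vx h)

theorem su_chn : su d (c.chn e) j = slt (c.cf e j) (c.ap (c.cf e j)) (c.chn e j) := by
  rw [su, chn_ap, cf]

theorem Cpt.mono (h : c.Cpt e j) (hi : i ≤ j) : c.Cpt e i := fun k hk => h k (hk.trans_le hi)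

theorem Cpt.succ (h : c.Cpt e j) (hi : i < j) : c.cf e (i + 1) = c.dp (c.cf e i) := by
  rw [(h i hi).dp, cf, sf_succ (h i hi).2.1.card, chn_ap]
  rfl

theorem Cpt.iter (h : c.Cpt e j) (hi : k + i ≤ j) : c.cf e (k + i) = c.dp^[i] (c.cf e k) := by
  induction i with
  | zero => rfl
  | succ i ih => rw [← add_assoc, h.succ (by omega), ih (by omega), Function.iterate_succ_apply']

theorem Cpt.cf (h : c.Cpt e j) (he : c.D e) (hi : i ≤ j) : c.cf e i = c.dp^[i] e := by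
  have := h.iter (k := 0) (i := i) (by omega)
  rwa [zero_add, cf_zero he.card] at this

theorem Cpt.rk (h : c.Cpt e j) (he : c.D e) (hi : i ≤ j) :
    c.D (c.cf e i) ∧ c.rk (c.cf e i) + i = c.rk e := by
  induction i with
  | zero => rw [cf_zero he.card]; exact ⟨he, rfl⟩
  | succ i ih =>
    rw [h.succ (by omega), ← (ih (by omega)).2, ← (h i hi).rk]
    exact ⟨(h i hi).D, by omega⟩

theorem cpl_le : c.cpl e ≤ c.Om := by
  classical
  exact Nat.findGreatest_le _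

theorem cpt_cpl : c.Cpt e (c.cpl e) := by
  classical
  exact Nat.findGreatest_spec (P := c.Cpt e) (Nat.zero_le _) fun i hi => absurd hi i.not_lt_zero

theorem cpl_lt (h : ¬ c.Cpt e c.Om) :
    c.cpl e < c.Om ∧ ¬ c.SS (c.cf e (c.cpl e)) (c.chn e (c.cpl e)) := by
  classical
  have a : c.cpl e < c.Om := cpl_le.lt_of_ne fun b => h (b ▸ cpt_cpl)
  refine ⟨a, fun b => Nat.findGreatest_is_greatest (P := c.Cpt e) (Nat.lt_succ_self _) a
    fun i hi => ?_⟩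
  rcases (Nat.lt_succ_iff.1 hi).eq_or_lt with rfl | hi
  · exact b
  · exact cpt_cpl i hi

theorem mp_chn (hi : i < j + d + 1) :
    mp d e (fun k : Fin j => c.ap (c.cf e k)) i = c.chn e i := by
  simp only [mp, tpl, ext]
  split_ifs with h1 h2
  · exact (chn_vx (by omega)).symm
  · rw [fz, dif_pos h2, ← chn_ap]
    exact congrArg _ (by dsimp only; omega)
  · omega

theorem Tw.mono {t : Fin n × Fin n × Fin n} (h : c.Tw k g t) (hk : k ≤ j) : c.Tw j g t :=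
  ⟨h.1, h.2.1, h.2.2.1, h.2.2.2.1, h.2.2.2.2.1, fun y hy => (h.2.2.2.2.2 y hy).mono hk⟩

theorem Tw.mx {t : Fin n × Fin n × Fin n} (h : c.Tw k g t) : ∃ t, c.Tw k g t ∧ c.Mx g t := by
  obtain ⟨v, u, o⟩ := t
  obtain ⟨h1, h2, h3, h4, h5, h6⟩ := h
  dsimp only at h1 h2 h3 h4 h5 h6
  by_cases a : Rd d c.S k (par (c.pa g v) u o)
  · obtain ⟨o', b, e⟩ := exists_max_image (c.pa g v) (fun w => c.rk (par (c.pa g v) u w)) ⟨o, h5⟩
    have f : ∀ w ∈ c.pa g v, Rd d c.S k (par (c.pa g v) u w) := fun w hw =>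
      (eq_or_ne w o).elim (fun e => e ▸ a) fun e => h6 _ (mem_slt.2 ⟨w, hw, e, rfl⟩)
    refine ⟨(v, u, o'), ⟨h1, h2, h3, h4, b, fun y hy => ?_⟩, fun y hy m hm => ?_⟩
    · obtain ⟨w, a1, -, rfl⟩ := mem_slt.1 hy
      exact f w a1
    · obtain ⟨w, a1, -, rfl⟩ := mem_slt.1 hy
      exact (rd_rk (f w a1).contr).mono ((e w a1).trans (rk_le hm))
  · exact ⟨(v, u, o), ⟨h1, h2, h3, h4, h5, h6⟩, fun y hy m hm =>
      (h6 y hy).mono (le_of_not_ge fun b => a (hm.mono b))⟩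

theorem TyA.tw (h : c.TyA g) : c.Tw c.r0 g (c.tw g) := by
  obtain ⟨t, h⟩ := h
  rw [Cx.tw, dif_pos h.mx]
  exact h.mx.choose_spec.1

theorem TyA.nf (h : c.TyA g) (hg : c.D g) : ¬ c.Fresh g := fun a =>
  a ⟨_, h.tw.mono (Nat.le_sub_one_of_lt hg.lt)⟩

theorem tw_spec (hg : c.D g) (h : ¬ c.Fresh g) :
    c.Tw (c.rk g - 1) g (c.tw g) ∧ c.Mx g (c.tw g) := by
  rw [Cx.tw]
  split_ifs with h1 h2
  · exact ⟨h1.choose_spec.1.mono (Nat.le_sub_one_of_lt hg.lt), h1.choose_spec.2⟩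
  · exact h2.choose_spec
  · obtain ⟨t, h⟩ := not_not.1 h
    exact absurd h.mx h2

theorem TA.ri (h : c.TA e) : c.ri e < c.Om ∧ c.TyA (c.rs e) := by
  have a : ∃ i, i < c.Om ∧ c.TyA (c.cf e i) := h.2
  rw [rs, Cx.ri, dif_pos a]
  exact a.choose_spec

theorem TT.ri (h : c.TT e) : c.ri e < c.Om ∧ ¬ c.Fresh (c.rs e) ∧ ¬ c.TyA (c.rs e) := by
  have a : ¬ ∃ i, i < c.Om ∧ c.TyA (c.cf e i) := fun a => h.2.1 ⟨h.1, a⟩
  have b : ∃ i, i < c.Om ∧ ¬ c.Fresh (c.cf e i) := by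
    by_contra! b
    exact h.2.2 ⟨h.1, b⟩
  rw [rs, Cx.ri, dif_neg a, dif_pos b]
  exact ⟨b.choose_spec.1, b.choose_spec.2, fun f => a ⟨_, b.choose_spec.1, f⟩⟩

theorem TA.nc (h : c.TA e) : ¬ c.Cmp e := fun a =>
  h.ri.2.nf (h.1.2 _ h.ri.1).2.1 (a.2 _ h.ri.1)

end Cx

end Pool.Agent.MP_8f9e6e_pr.J

end

section

/-! The outcome and the remaining family determine the family. -/

open Finset

namespace Pool.Agent.MP_8f9e6e_pr.J

variable {n d : ℕ}

theorem inj_tch {H H' : Fc n → Prop} (h : ∀ y, H y → H' y) {f : Fc n} (hf : Tch H f) :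
    Tch H' f := by
  obtain ⟨u, h1, o, h2, h3⟩ := hf
  exact ⟨u, h1, o, h2, fun y hy => h y (h3 y hy)⟩

/-- Removal of idle faces. -/
theorem inj_rem {S U : Set (Fc n)} {ρ : ℕ} (hU : ∀ f ∈ U, ¬ Tch (Rd d S (ρ - 1)) f) :
    ∀ j ≤ ρ, ∀ x, Rd d (S \ U) j x ↔ Rd d S j x ∧ x ∉ U := by
  intro j
  induction j with
  | zero => exact fun _ _ => Iff.rfl
  | succ j ih =>
    intro hj x
    have ih := ih (by omega)
    have hm : ∀ y, Rd d S j y → Rd d S (ρ - 1) y := fun y => Rd.mono (by omega)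
    constructor
    · rintro (h | ⟨h1, u, h2, h3⟩)
      · exact ⟨Or.inl ((ih x).1 h).1, ((ih x).1 h).2⟩
      · refine ⟨Or.inr ⟨h1, u, h2, fun w hw => ((ih _).1 (h3 w hw)).1⟩, fun hx => hU x hx ?_⟩
        obtain ⟨o, ho⟩ : x.Nonempty := card_pos.1 (by omega)
        refine ⟨u, h2, o, ho, fun y hy => ?_⟩
        obtain ⟨w, hw, rfl⟩ := mem_image.1 hy
        exact hm _ ((ih _).1 (h3 w (mem_of_mem_erase hw))).1
    · rintro ⟨h | ⟨h1, u, h2, h3⟩, hx⟩
      · exact Or.inl ((ih x).2 ⟨h, hx⟩)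
      · refine Or.inr ⟨h1, u, h2, fun w hw => (ih _).2 ⟨h3 w hw, fun hf => hU _ hf ?_⟩⟩
        have hwu : w ≠ u := fun e => h2 (e ▸ hw)
        refine ⟨w, by simp [hwu], u, mem_insert_self _ _, fun y hy => ?_⟩
        obtain ⟨v, hv, rfl⟩ := mem_image.1 hy
        have hv' : v ∈ x ∧ v ≠ w ∧ v ≠ u := by
          simp only [mem_erase, mem_insert] at hv
          tauto
        have e : par (insert u (x.erase w)) w v = insert u (x.erase v) := by
          ext a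
          simp only [par, mem_insert, mem_erase]
          by_cases e1 : a = w
          · subst e1
            simp [hw, hv'.2.1.symm]
          · by_cases e2 : a = u
            · subst e2
              simp [hv'.2.2.symm]
            · simp [e1, e2]
        rw [e]
        exact hm _ (h3 v hv'.1)

theorem inj_rd {S : Set (Fc n)} {x : Fc n} (h : Contr d S x) : Rd d S (rk d S x) x :=
  Nat.sInf_mem (s := {k | Rd d S k x}) (exists_rd h)

theorem inj_le {S : Set (Fc n)} {x : Fc n} {k : ℕ} (h : Rd d S k x) : rk d S x ≤ k :=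
  Nat.sInf_le (s := {k | Rd d S k x}) h

theorem inj_lt {r0 : ℕ} {S : Set (Fc n)} {x : Fc n} (h : IsD d r0 S x) : r0 < rk d S x :=
  lt_of_not_ge fun e => h.2 (Rd.mono e (inj_rd h.1))

theorem inj_pos_lt {r0 : ℕ} {S : Set (Fc n)} {x y : Fc n} (hx : IsD d r0 S x)
    (h : Bef d S x y) : pos d r0 S x < pos d r0 S y := by
  classical
  unfold pos cd
  refine card_lt_card ⟨fun z hz => ?_, fun hz => ?_⟩
  · simp only [mem_filter, mem_univ, true_and] at hz ⊢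
    refine ⟨hz.1, ?_⟩
    have := hz.2
    unfold Bef at *
    omega
  · have := @hz x (by simp only [mem_filter, mem_univ, true_and]; exact ⟨hx, h⟩)
    simp only [mem_filter, mem_univ, true_and] at this
    have := this.2
    unfold Bef at this
    omega

theorem inj_pos {r0 : ℕ} {S : Set (Fc n)} {x y : Fc n} (hx : IsD d r0 S x) (hy : IsD d r0 S y)
    (h : pos d r0 S x = pos d r0 S y) : x = y := by
  by_contra e
  have e1 : ix x ≠ ix y := fun e1 => e ((Fintype.equivFin (Fc n)).injective (Fin.ext e1))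
  have : Bef d S x y ∨ Bef d S y x := by
    unfold Bef
    omega
  rcases this with e2 | e2
  · exact (inj_pos_lt hx e2).ne h
  · exact (inj_pos_lt hy e2).ne' h

theorem inj_tr {r0 ρ : ℕ} {S S' U U' : Set (Fc n)} (hU : U ⊆ S) (hr : r0 ≤ ρ)
    (H : ∀ j ≤ ρ, ∀ x, Rd d S j x ∧ x ∉ U ↔ Rd d S' j x ∧ x ∉ U') {x : Fc n}
    (hx : IsD d r0 S x) (h : rk d S x ≤ ρ) : IsD d r0 S' x ∧ rk d S' x = rk d S x := by
  have e1 : x ∉ U := fun e => hx.2 (Rd.mono (Nat.zero_le _) (hU e))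
  obtain ⟨e2, e3⟩ := (H _ h x).1 ⟨inj_rd hx.1, e1⟩
  have e4 := inj_le e2
  exact ⟨⟨e2.contr, fun e => hx.2 ((H _ hr x).2 ⟨e, e3⟩).1⟩,
    le_antisymm e4 (inj_le ((H _ (e4.trans h) x).2 ⟨inj_rd e2.contr, e3⟩).1)⟩

theorem inj_eq {r0 ρ : ℕ} {S S' U U' : Set (Fc n)} (hU : U ⊆ S) (hU' : U' ⊆ S') (hr : r0 ≤ ρ)
    (H : ∀ j ≤ ρ, ∀ x, Rd d S j x ∧ x ∉ U ↔ Rd d S' j x ∧ x ∉ U') {y y' : Fc n}
    (hy : IsD d r0 S y) (hy' : IsD d r0 S' y') (h : rk d S y ≤ ρ)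
    (e : pos d r0 S y = pos d r0 S' y') : y = y' := by
  obtain ⟨e1, e2⟩ := inj_tr hU hr H hy h
  refine inj_pos e1 hy' (Eq.trans ?_ e)
  unfold pos
  congr 1
  funext x
  refine propext ⟨fun ⟨h1, h2⟩ => ?_, fun ⟨h1, h2⟩ => ?_⟩
  · obtain ⟨e3, e4⟩ := inj_tr hU' hr (fun j hj x => (H j hj x).symm) h1
      (by unfold Bef at h2; omega)
    exact ⟨e3, by unfold Bef at *; omega⟩
  · obtain ⟨e3, e4⟩ := inj_tr hU hr H h1 (by unfold Bef at h2; omega)
    exact ⟨e3, by unfold Bef at *; omega⟩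

theorem inj_diff {S : Set (Fc n)} {F C : Finset (Fc n)} (h1 : ∀ f ∈ F, f ∈ S) (h2 : C ⊆ F) :
    S \ ((F : Set (Fc n)) \ C) = S \ F ∪ C := by
  ext x
  have := h1 x
  have := @h2 x
  simp only [Set.mem_sdiff, Set.mem_union, mem_coe]
  tauto

variable [NeZero n]

theorem inj_idle {r0 ρ : ℕ} {o : Oc n d} {S : Set (Fc n)} {es : Ct n d → Fc n}
    {G : Finset (Ct n d)} {k : Ct n d} (hk : k ∈ o.2.1)
    (h : ∀ k ∈ o.2.1, IsD d r0 S (es k) ∧ pos d r0 S (es k) = k.2.2.1 ∧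
      ∀ f ∈ sU d (cp k (es k)) (d + 1), ¬ Tch (Rd d S (rk d S (es k) - 1)) f)
    (hm : ∀ l ∈ o.2.1, l ∉ G → k.2.2.1 ≤ l.2.2.1) (hρ : ρ ≤ rk d S (es k)) :
    ∀ f ∈ ((o.1.toFinset ∪ o.2.1.toFinset.biUnion fun k => sU d (cp k (es k)) (d + 1) :
      Finset (Fc n)) : Set (Fc n)) \
      (o.1.toFinset ∪ G.biUnion fun k => sU d (cp k (es k)) (d + 1) : Finset (Fc n)),
      ¬ Tch (Rd d S (ρ - 1)) f := by
  rintro f ⟨h1, h2⟩ ht
  rw [mem_coe, mem_union] at h1 h2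
  obtain ⟨l, hl, hf⟩ := mem_biUnion.1 (h1.resolve_left fun e => h2 (Or.inl e))
  rw [Multiset.mem_toFinset] at hl
  have e1 := hm l hl fun e => h2 (Or.inr (mem_biUnion.2 ⟨l, e, hf⟩))
  have e2 : rk d S (es k) ≤ rk d S (es l) := le_of_not_gt fun e => by
    have := inj_pos_lt (h l hl).1 (y := es k) (Or.inl e)
    rw [(h l hl).2.1, (h k hk).2.1] at this
    omega
  exact (h l hl).2.2 f hf (inj_tch (fun y => Rd.mono (by omega)) ht)

theorem rel_inj {r0 : ℕ} {o : Oc n d} {S S' : Set (Fc n)} {F F' : Finset (Fc n)}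
    (h : Rel d r0 o S F) (h' : Rel d r0 o S' F') (e : S \ F = S' \ F') : S = S' := by
  classical
  obtain ⟨a1, es, rfl, a2⟩ := h
  obtain ⟨b1, es', rfl, b2⟩ := h'
  have key : ∀ k ∈ o.2.1, es k = es' k := by
    by_contra hc
    push Not at hc
    obtain ⟨k, hk, hm⟩ := (o.2.1.toFinset.filter fun k => es k ≠ es' k).exists_min_image
      (fun k => k.2.2.1) (by
        obtain ⟨k, h1, h2⟩ := hc
        exact ⟨k, mem_filter.2 ⟨Multiset.mem_toFinset.2 h1, h2⟩⟩)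
    obtain ⟨hk, hne⟩ := mem_filter.1 hk
    rw [Multiset.mem_toFinset] at hk
    set G := o.2.1.toFinset.filter fun k => es k = es' k with hG
    have hm' : ∀ l ∈ o.2.1, l ∉ G → k.2.2.1 ≤ l.2.2.1 := fun l h1 h2 =>
      hm l (mem_filter.2 ⟨Multiset.mem_toFinset.2 h1, fun e =>
        h2 (mem_filter.2 ⟨Multiset.mem_toFinset.2 h1, e⟩)⟩)
    have c1 := inj_rem (inj_idle hk a2 hm' (min_le_left _ (rk d S' (es' k))))
    have c2 := inj_rem (inj_idle hk b2 hm' (min_le_right (rk d S (es k)) _))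
    have hs : G ⊆ o.2.1.toFinset := filter_subset _ _
    have c3 : (G.biUnion fun k => sU d (cp k (es k)) (d + 1)) =
        G.biUnion fun k => sU d (cp k (es' k)) (d + 1) :=
      biUnion_congr rfl fun l hl => by rw [(mem_filter.1 hl).2]
    rw [inj_diff a1 (union_subset_union_right (biUnion_subset_biUnion_of_subset_left _ hs)), e,
      c3] at c1
    rw [inj_diff b1 (union_subset_union_right (biUnion_subset_biUnion_of_subset_left _ hs))] at c2
    have H := fun j hj x => (c1 j hj x).symm.trans (c2 j hj x)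
    have hr : r0 ≤ min (rk d S (es k)) (rk d S' (es' k)) :=
      le_min (inj_lt (a2 k hk).1).le (inj_lt (b2 k hk).1).le
    have e0 := (a2 k hk).2.1.trans (b2 k hk).2.1.symm
    rcases le_total (rk d S (es k)) (rk d S' (es' k)) with c | c
    · exact hne (inj_eq (fun f hf => a1 f hf.1) (fun f hf => b1 f hf.1) hr H (a2 k hk).1
        (b2 k hk).1 (le_min le_rfl c) e0)
    · exact hne (inj_eq (fun f hf => b1 f hf.1) (fun f hf => a1 f hf.1) hr
        (fun j hj x => (H j hj x).symm) (b2 k hk).1 (a2 k hk).1 (le_min c le_rfl) e0.symm).symm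
  have c3 : (o.2.1.toFinset.biUnion fun k => sU d (cp k (es k)) (d + 1)) =
      o.2.1.toFinset.biUnion fun k => sU d (cp k (es' k)) (d + 1) :=
    biUnion_congr rfl fun l hl => by rw [key l (Multiset.mem_toFinset.1 hl)]
  rw [c3] at a1 e
  rw [← Set.sdiff_union_of_subset (fun f hf => a1 f hf), e]
  exact Set.sdiff_union_of_subset fun f hf => b1 f hf

end Pool.Agent.MP_8f9e6e_pr.J

end

section

/-! Basic facts on counting, scales and cells. -/

open Finset Filter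

namespace Pool.Agent.MP_8f9e6e_pr.J

variable {n d : ℕ} {S S' : Set (Fc n)} {x y g : Fc n} {u w o : Fin n}

theorem cd_mono {α : Type} [Fintype α] {P Q : α → Prop} (h : ∀ a, P a → Q a) : cd P ≤ cd Q := by
  classical
  exact card_le_card fun a ha => mem_filter.2 ⟨mem_univ _, h a (mem_filter.1 ha).2⟩

theorem cd_or {α : Type} [Fintype α] (P Q : α → Prop) : cd (fun a => P a ∨ Q a) ≤ cd P + cd Q := by
  classical
  refine le_trans (card_le_card fun a ha => ?_) (card_union_le _ _)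
  simpa only [mem_union, mem_filter, mem_univ, true_and] using ha

theorem cd_mem {α : Type} [Fintype α] (A : Finset α) : cd (· ∈ A) = A.card := by
  classical
  exact congrArg card (by ext; simp only [subset_univ, filter_mem_eq_of_subset])

theorem cd_le_of_inj {α β : Type} [Fintype α] {P : α → Prop} (A : Finset β) (f : α → β)
    (h : ∀ a, P a → f a ∈ A) (hi : ∀ a b, P a → P b → f a = f b → a = b) : cd P ≤ A.card := by
  classical
  exact card_le_card_of_injOn f (fun a ha => h a (by simpa only [coe_filter, mem_univ, true_and, Set.mem_ofPred_eq] using ha))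
    fun a ha b hb => hi a b (by simpa only [coe_filter, mem_univ, true_and, Set.mem_ofPred_eq] using ha) (by simpa only [coe_filter, mem_univ, true_and, Set.mem_ofPred_eq] using hb)

theorem cd_le_mul {α β : Type} [Fintype α] {P : α → Prop} (A : Finset β) (r : β → α → Prop)
    {k : ℝ} (h : ∀ a, P a → ∃ b ∈ A, r b a) (hk : ∀ b ∈ A, (cd (r b) : ℝ) ≤ k) :
    (cd P : ℝ) ≤ A.card * k := by
  classical
  rw [← nsmul_eq_mul]
  refine le_trans ?_ (sum_le_card_nsmul A _ k hk)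
  rw [← Nat.cast_sum, Nat.cast_le]
  refine le_trans (card_le_card fun a ha => ?_) card_biUnion_le
  simpa only [mem_biUnion, mem_filter, mem_univ, true_and] using h a (by simpa only [mem_filter, mem_univ, true_and] using ha)

theorem P2_count {α ι : Type} [Fintype α] [DecidableEq α] {p1 p2 a : ℝ} (a0 : 0 ≤ p1)
    (a1 : p1 ≤ 1) (b0 : 0 ≤ p2) (b1 : p2 ≤ 1) (I : Finset ι) {E : Finset α → Finset α → Prop}
    (F : ι → Finset α → Finset α → Prop)
    (h : ∀ A R, E A R → ∃ I' ⊆ I, a ≤ I'.card ∧ ∀ i ∈ I', F i A R) :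
    a * P2 p1 p2 E ≤ ∑ i ∈ I, P2 p1 p2 (F i) := by
  classical
  simp only [P2, mul_sum]
  rw [sum_comm (s := I)]
  refine sum_le_sum fun A _ => ?_
  rw [sum_comm (s := I)]
  refine sum_le_sum fun R _ => ?_
  rw [← mul_sum, mul_left_comm]
  refine mul_le_mul_of_nonneg_left ?_ (mul_nonneg (wt_nonneg a0 a1 A) (wt_nonneg b0 b1 R))
  split_ifs with hE
  · obtain ⟨I', h1, h2, h3⟩ := h A R hE
    rw [mul_one, sum_boole]
    exact h2.trans (Nat.cast_le.2 (card_le_card fun i hi => mem_filter.2 ⟨h1 hi, h3 i hi⟩))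
  · rw [mul_zero, sum_boole]
    exact Nat.cast_nonneg _

theorem st_card {A : Finset (Face n d)} (h : x ∈ st A) : x.card = d + 1 := by
  exact h.1

theorem st_mono {A A' : Finset (Face n d)} (h : A ⊆ A') : st A ⊆ st A' := by
  exact fun _ => inS_mono h

theorem st_union (A A' : Finset (Face n d)) : st (A ∪ A') = st A ∪ st A' := by
  ext x
  simp only [st, inS, mem_union, exists_or, Set.mem_ofPred_eq, Set.mem_union]

theorem st_sdiff (A A' : Finset (Face n d)) : st (A \ A') = st A \ st A' := by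
  ext x
  exact ⟨fun ⟨a, b⟩ => ⟨⟨a, (mem_sdiff.1 b).1⟩, fun c => (mem_sdiff.1 b).2 c.2⟩,
    fun ⟨⟨a, b⟩, c⟩ => ⟨a, mem_sdiff.2 ⟨b, fun e => c ⟨a, e⟩⟩⟩⟩

theorem st_inj {A A' : Finset (Face n d)} (h : st A = st A') : A = A' := by
  ext x
  exact ⟨fun a => (h.le ⟨x.2, a⟩).2, fun a => (h.ge ⟨x.2, a⟩).2⟩

theorem exists_st (F : Finset (Fc n)) (h : ∀ f ∈ F, f.card = d + 1) :
    ∃ A : Finset (Face n d), st A = ↑F ∧ A.card = F.card := by
  refine ⟨F.subtype _, ?_, by rw [card_subtype, filter_true_of_mem h]⟩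
  ext x
  exact ⟨fun a => mem_subtype.1 a.2, fun a => ⟨h x a, mem_subtype.2 a⟩⟩

theorem mm_spec (hd : 1 ≤ d) (hn : 1 ≤ n) : 0 < mm n d ∧ mm n d ≤ 1 ∧ n * mm n d ^ d = 1 := by
  have h1 : (1 : ℝ) ≤ n := by exact_mod_cast hn
  have h2 : (d : ℝ) ≠ 0 := by positivity
  refine ⟨Real.rpow_pos_of_pos (by positivity) _,
    Real.rpow_le_one_of_one_le_of_nonpos h1 (neg_nonpos.2 (by positivity)), ?_⟩
  rw [mm, ← Real.rpow_natCast, ← Real.rpow_mul (by positivity), neg_mul, one_div_mul_cancel h2,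
    Real.rpow_neg_one, mul_inv_cancel₀ (by positivity)]

theorem gc_spec (hd : 1 ≤ d) : 0 < gc d ∧ gc d ^ d * (d + 1) ^ (d + 1) = d ^ d := by
  have h2 : (d : ℝ) ≠ 0 := by positivity
  refine ⟨Real.rpow_pos_of_pos (by positivity) _, ?_⟩
  rw [gc, ← Real.rpow_natCast, ← Real.rpow_mul (by positivity), neg_mul, one_div_mul_cancel h2,
    Real.rpow_neg_one, inv_div, div_mul_cancel₀ _ (by positivity)]

theorem pc_eq (hd : 1 ≤ d) (hn : 1 ≤ n) :
    ((d + 1) ^ (d + 1) / d ^ d * n : ℝ) ^ (-(1 / d : ℝ)) = gc d * mm n d := by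
  exact Real.mul_rpow (by positivity) (by positivity)

theorem slt_par (hu : u ∉ x) (ho : o ∈ x) : slt (par x u o) o u = slt x u o := by
  ext y
  simp only [mem_slt]
  constructor
  · rintro ⟨w, h1, h2, rfl⟩
    obtain ⟨h3, h4⟩ := (mem_par.1 h1).resolve_left h2
    exact ⟨w, h4, h3, par_par hu ho h4 h3⟩
  · rintro ⟨w, h1, h2, rfl⟩
    exact ⟨w, mem_par.2 (.inr ⟨h2, h1⟩), ne_of_mem_of_not_mem h1 hu, (par_par hu ho h1 h2).symm⟩

theorem Adj.symm {Q : Fc n → Prop} (h : Adj d Q g y) : Adj d Q y g := by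
  obtain ⟨h1, u, h2, o, h3, rfl, h4⟩ := h
  exact ⟨par_card h1 h2 h3, o, not_mem_par h2 h3, u, mem_par.2 (.inl rfl), (par_back h2 h3).symm,
    by rwa [slt_par h2 h3]⟩

theorem Adj.mono {Q Q' : Fc n → Prop} (h : Adj d Q g y) (hQ : ∀ z, Q z → Q' z) : Adj d Q' g y := by
  obtain ⟨h1, u, h2, o, h3, h4, h5⟩ := h
  exact ⟨h1, u, h2, o, h3, h4, fun z hz => hQ z (h5 z hz)⟩

theorem Adj.card {Q : Fc n → Prop} (h : Adj d Q g y) :
    y.card = d + 1 ∧ (g ∪ y).card = d + 2 ∧ g ≠ y ∧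
      ∀ z ⊆ g ∪ y, z.card = d + 1 → z = g ∨ z = y ∨ Q z := by
  obtain ⟨h1, u, h2, o, h3, rfl, h4⟩ := h
  have e : g ∪ par g u o = insert u g := by
    ext a
    simp only [mem_union, mem_par, mem_insert]
    tauto
  rw [e]
  refine ⟨par_card h1 h2 h3, by rw [card_insert_of_notMem h2, h1],
    fun a => not_mem_par h2 h3 (a ▸ h3), fun z a b => or_iff_not_imp_left.2 fun c => ?_⟩
  obtain ⟨w, a1, rfl⟩ := face_par h1 h2 b a c
  exact (eq_or_ne w o).imp (fun e => by rw [e]) fun e => h4 _ (mem_slt.2 ⟨w, a1, e, rfl⟩)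

theorem Tch.mono {Q Q' : Fc n → Prop} (h : Tch Q g) (hQ : ∀ z, Q z → Q' z) : Tch Q' g := by
  obtain ⟨u, h2, o, h3, h5⟩ := h
  exact ⟨u, h2, o, h3, fun z hz => hQ z (h5 z hz)⟩

end Pool.Agent.MP_8f9e6e_pr.J

end

section

/-! Basic facts on faces, ranks, positions and sliding chains. -/

open Finset Filter

namespace Pool.Agent.MP_8f9e6e_pr.J

variable {n d : ℕ} {S S' : Set (Fc n)} {x y g : Fc n} {u w o : Fin n}

theorem contr_card (hS : ∀ f ∈ S, f.card = d + 1) (h : Contr d S x) : x.card = d + 1 :=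
  rd_card hS (rd_rk h)

theorem rd_iff (h : Contr d S x) {k : ℕ} : Rd d S k x ↔ rk d S x ≤ k :=
  ⟨rk_le, fun hk => (rd_rk h).mono hk⟩

theorem rk_zero (h : Contr d S x) : rk d S x = 0 ↔ x ∈ S :=
  Nat.le_zero.symm.trans (rd_iff h).symm

theorem rk_par {P : Fc n → Prop} (hu : u ∉ g) (ho : o ∈ g) (hg : P g) (h : ∀ z ∈ slt g u o, P z) :
    ∀ w ∈ par g u o, P (par (par g u o) o w) := by
  intro w hw
  rcases mem_par.1 hw with rfl | ⟨h1, h2⟩
  · rwa [par_back hu ho]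
  · rw [par_par hu ho h2 h1]
    exact h _ (mem_slt.2 ⟨w, h2, h1, rfl⟩)

theorem contr_adj {Q : Fc n → Prop} (hQ : ∀ z, Q z → Contr d S z) (h : Adj d Q g y)
    (hg : Contr d S g) : Contr d S y := by
  obtain ⟨h1, u, hu, o, ho, rfl, h2⟩ := h
  exact .step _ o (par_card h1 hu ho) (rk_par hu ho hg fun z hz => hQ z (h2 z hz))

theorem rd_adj {k : ℕ} (h : Adj d (Rd d S k) g y) (hg : Rd d S k g) : Rd d S (k + 1) y := by
  obtain ⟨h1, u, hu, o, ho, rfl, h2⟩ := h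
  exact .inr ⟨par_card h1 hu ho, o, not_mem_par hu ho, rk_par hu ho hg h2⟩

theorem ix_inj (h : ix x = ix y) : x = y := (Fintype.equivFin (Fc n)).injective (Fin.ext h)

theorem ix_lt (x : Fc n) : ix x < Fintype.card (Fc n) := (Fintype.equivFin (Fc n) x).2

theorem rem {U : Set (Fc n)} {k : ℕ} (hd : 1 ≤ d) (hS : ∀ f ∈ S, f.card = d + 1) (hU : U ⊆ S)
    (h : ∀ f ∈ U, ¬ Tch (Rd d S k) f) {j : ℕ} (hj : j ≤ k + 1) (x : Fc n) :
    Rd d (S \ U) j x ↔ Rd d S j x ∧ x ∉ U :=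
  inj_rem (ρ := k + 1) h j hj x

theorem add {U : Set (Fc n)} {k : ℕ} (hd : 1 ≤ d) (hU : ∀ f ∈ U, f.card = d + 1)
    (h : ∀ f ∈ U, ¬ Tch (fun z => Rd d S k z ∨ z ∈ U) f) {j : ℕ} (hj : j ≤ k + 1) (x : Fc n) :
    Rd d (S ∪ U) j x ↔ Rd d S j x ∨ x ∈ U := by
  induction j generalizing x with
  | zero => exact Iff.rfl
  | succ j ih =>
    have ih := ih (by omega)
    refine ⟨?_, fun hx => hx.elim (rd_up Set.subset_union_left) fun hx => rd_src (.inr hx)⟩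
    rintro (hx | ⟨h1, u, h2, h3⟩)
    · exact ((ih x).1 hx).imp_left Or.inl
    · refine .inl (.inr ⟨h1, u, h2, fun w hw => ((ih _).1 (h3 w hw)).resolve_right fun hf =>
        h _ hf ⟨w, not_mem_par h2 hw, u, mem_par.2 (.inl rfl), fun y hy => ?_⟩⟩)
      obtain ⟨v, hv, -, rfl⟩ := mem_slt.1 (slt_par h2 hw ▸ hy : y ∈ slt x u w)
      exact ((ih _).1 (h3 v hv)).imp_left (Rd.mono (by omega))

theorem rk_tr {r0 ρ : ℕ} (h : ∀ j ≤ ρ, ∀ z,
      (Rd d S' j z ∧ ¬ Rd d S' r0 z) ↔ (Rd d S j z ∧ ¬ Rd d S r0 z))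
    (hx : IsD d r0 S x) (h1 : rk d S x ≤ ρ) : IsD d r0 S' x ∧ rk d S' x = rk d S x := by
  obtain ⟨e2, e3⟩ := (h _ h1 x).2 ⟨rd_rk hx.1, hx.2⟩
  have e4 := rk_le e2
  exact ⟨⟨e2.contr, e3⟩,
    le_antisymm e4 (rk_le ((h _ (e4.trans h1) x).1 ⟨rd_rk e2.contr, e3⟩).1)⟩

theorem pos_congr {r0 ρ : ℕ} (h : ∀ j ≤ ρ, ∀ z,
      (Rd d S' j z ∧ ¬ Rd d S' r0 z) ↔ (Rd d S j z ∧ ¬ Rd d S r0 z))
    (h1 : Rd d S ρ x) (h2 : ¬ Rd d S r0 x) :
    IsD d r0 S' x ∧ rk d S' x = rk d S x ∧ pos d r0 S' x = pos d r0 S x := by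
  have e0 := rk_le h1
  obtain ⟨e1, e2⟩ := rk_tr h ⟨h1.contr, h2⟩ e0
  refine ⟨e1, e2, congrArg cd (funext fun z => propext ⟨fun ⟨a1, a2⟩ => ?_, fun ⟨a1, a2⟩ => ?_⟩)⟩
  · obtain ⟨e3, e4⟩ := rk_tr (fun j hj x => (h j hj x).symm) a1 (by unfold Bef at a2; omega)
    exact ⟨e3, by unfold Bef at *; omega⟩
  · obtain ⟨e3, e4⟩ := rk_tr h a1 (by unfold Bef at a2; omega)
    exact ⟨e3, by unfold Bef at *; omega⟩

theorem pos_inj {r0 : ℕ} (hx : IsD d r0 S x) (hy : IsD d r0 S y)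
    (h : pos d r0 S x = pos d r0 S y) : x = y := inj_pos hx hy h

theorem pos_rk {r0 : ℕ} (hx : IsD d r0 S x) (hy : IsD d r0 S y)
    (h : pos d r0 S x ≤ pos d r0 S y) : rk d S x ≤ rk d S y :=
  le_of_not_gt fun e => (inj_pos_lt hy (.inl e)).not_ge h

theorem rk_cd_lt {α : Type} [Fintype α] {P Q : α → Prop} (h : ∀ a, P a → Q a) {b : α} (h1 : Q b)
    (h2 : ¬ P b) : cd P < cd Q := by
  classical
  exact card_lt_card ⟨fun a ha => mem_filter.2 ⟨mem_univ a, h a (mem_filter.1 ha).2⟩,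
    fun c => h2 (mem_filter.1 (c (mem_filter.2 ⟨mem_univ b, h1⟩))).2⟩

theorem rk_irr : ¬ Bef d S x x := by
  unfold Bef
  omega

theorem pos_lt {r0 ρ a : ℕ} (h : Small d r0 S ρ a) (h1 : Rd d S ρ x) (h2 : ¬ Rd d S r0 x) :
    pos d r0 S x < a := by
  refine (rk_cd_lt (fun z hz => ⟨(rd_rk hz.1.1).mono ?_, hz.1.2⟩) ⟨h1, h2⟩
    fun c => rk_irr c.2).trans_le h
  have := rk_le h1
  have := hz.2
  unfold Bef at this
  omega

theorem card_dd {r0 a : ℕ} (h : a ≤ cd (IsD d r0 S)) : cd (DD d r0 S a) = a := by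
  classical
  have e : (univ.filter (IsD d r0 S)).image (pos d r0 S) = range (cd (IsD d r0 S)) := by
    refine eq_of_subset_of_card_le (image_subset_iff.2 fun z hz => mem_range.2
      (rk_cd_lt (fun _ => And.left) (mem_filter.1 hz).2 fun c => rk_irr c.2)) ?_
    rw [card_range, card_image_of_injOn fun z hz z' hz' =>
      pos_inj (mem_filter.1 hz).2 (mem_filter.1 hz').2]
    exact le_rfl
  refine (card_bij (fun z _ => pos d r0 S z) (fun z hz => mem_range.2 (mem_filter.1 hz).2.2)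
    (fun z hz z' hz' => pos_inj (mem_filter.1 hz).2.1 (mem_filter.1 hz').2.1)
    fun i hi => ?_).trans (card_range a)
  have hi := mem_range.1 hi
  obtain ⟨z, hz, rfl⟩ := mem_image.1 (e.ge (mem_range.2 (hi.trans_le h)))
  exact ⟨z, mem_filter.2 ⟨mem_univ z, (mem_filter.1 hz).2, hi⟩, rfl⟩

theorem dd_rd {r0 ρ a : ℕ} (h : ¬ Small d r0 S ρ a) (hx : DD d r0 S a x) : Rd d S ρ x := by
  by_contra c
  exact h ((cd_mono fun z hz => ⟨⟨hz.1.contr, hz.2⟩, .inl ((rk_le hz.1).trans_lt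
    (lt_of_not_ge fun e => c ((rd_rk hx.1.1).mono e)))⟩).trans hx.2.le)

theorem exists_rho {r0 a : ℕ} (h : a < cd (IsD d r0 S)) :
    ∃ ρ, Small d r0 S ρ a ∧ ¬ Small d r0 S (ρ + 1) a := by
  obtain ⟨ρ, h1, h2⟩ := Nat.exists_not_and_succ_of_not_zero_of_exists
    (p := fun ρ => ¬ Small d r0 S ρ a) (fun c => c ((cd_le_of_inj (∅ : Finset Unit) (fun _ => ())
      (fun z hz => (hz.2 (hz.1.mono r0.zero_le)).elim) fun z _ hz =>
        (hz.2 (hz.1.mono r0.zero_le)).elim).trans a.zero_le))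
    ⟨univ.sup (rk d S), fun c => h.not_ge ((cd_mono fun z hz =>
      ⟨(rd_rk hz.1).mono (le_sup (mem_univ z)), hz.2⟩).trans c)⟩
  exact ⟨ρ, not_not.1 h1, h2⟩

variable {p p' : ℕ → Fin n} {j t : ℕ}

theorem card_sf (h : Set.InjOn p (Set.Icc j (j + d))) : (sf d p j).card = d + 1 := by
  rw [sf, card_image_of_injOn, card_range]
  intro a ha b hb e
  have ha := mem_range.1 (mem_coe.1 ha)
  have hb := mem_range.1 (mem_coe.1 hb)
  exact Nat.add_left_cancel (h ⟨by omega, by omega⟩ ⟨by omega, by omega⟩ e)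

theorem rk_sf (h : Inj p (t + d + 1)) (hj : j < t) :
    (sf d p j).card = d + 1 ∧ p (j + d + 1) ∉ sf d p j := by
  refine ⟨card_sf (h.mono fun i hi => Set.mem_Iio.2 (by have := hi.2; omega)), fun c => ?_⟩
  obtain ⟨i, hi, e⟩ := mem_image.1 c
  have hi := mem_range.1 hi
  have := h (Set.mem_Iio.2 (by omega)) (Set.mem_Iio.2 (by omega)) e
  omega

theorem su_spec (h : Inj p (t + d + 1)) (hj : j < t) (hy : y ∈ su d p j) :
    y.card = d + 1 ∧ p j ∈ y ∧ p (j + d + 1) ∈ y ∧ ∀ u ∈ y, ∃ i ≤ d + 1, p (j + i) = u := by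
  obtain ⟨w, h1, h2, rfl⟩ := mem_slt.1 hy
  obtain ⟨h3, h4⟩ := rk_sf h hj
  refine ⟨par_card h3 h4 h1, mem_par.2 (.inr ⟨h2.symm, mem_sf d.zero_le⟩), mem_par.2 (.inl rfl),
    fun u hu => ?_⟩
  rcases mem_par.1 hu with rfl | ⟨-, c⟩
  · exact ⟨d + 1, le_rfl, rfl⟩
  · obtain ⟨i, hi, e⟩ := mem_image.1 c
    exact ⟨i, (mem_range.1 hi).le, e⟩

theorem card_sU (h : Inj p (t + d + 1)) : (sU d p t).card = d * t := by
  have key : ∀ a b, a < b → b < t → Disjoint (su d p a) (su d p b) := fun a b h1 h2 =>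
    disjoint_left.2 fun y c c' => by
      obtain ⟨i, hi, e⟩ := (su_spec h h2 c').2.2.2 _ (su_spec h (h1.trans h2) c).2.1
      have := h (Set.mem_Iio.2 (by omega)) (Set.mem_Iio.2 (by omega)) e
      omega
  rw [sU, card_biUnion fun a ha b hb e => (lt_or_gt_of_ne e).elim
      (fun c => key a b c (mem_range.1 hb)) fun c => (key b a c (mem_range.1 ha)).symm,
    sum_const_nat (f := fun a => (su d p a).card) fun a ha => slt_card (rk_sf h (mem_range.1 ha)).1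
      (rk_sf h (mem_range.1 ha)).2 (mem_sf d.zero_le), card_range, mul_comm]

variable [NeZero n]

theorem sf_vx (hx : x.card = d + 1) (h : ∀ i ≤ d, p i = vx x i) : sf d p 0 = x :=
  (image_congr fun i hi => (congrArg p (zero_add i)).trans
    (h i (Nat.lt_succ_iff.1 (mem_range.1 (mem_coe.1 hi))))).trans (image_vx hx)

theorem mp_lt {k i : ℕ} (z : Fin k → Fin n) (hi : i ≤ d) : mp d x z i = vx x i :=
  if_pos (Nat.lt_succ_of_le hi)

theorem mp_add {k : ℕ} (z : Fin k → Fin n) (i : Fin k) : mp d x z (i + d + 1) = z i := by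
  simp only [mp, tpl, ext, add_assoc, Order.lt_add_one_iff, show ¬ (i : ℕ) + (d + 1) ≤ d by omega, ↓ reduceIte, add_tsub_cancel_right, Fin.is_lt, fz, ↓ reduceDIte, Fin.eta]

theorem cell_inj (h : Contr d S x) (hx : x ∉ S) (h' : Contr d S y) (hy : y ∉ S)
    (he : insert (ap d S x) x = insert (ap d S y) y) : x = y := by
  by_contra c
  obtain ⟨a1, a2, a3, -⟩ := ap_spec h hx
  obtain ⟨b1, b2, b3, -⟩ := ap_spec h' hy
  obtain ⟨w, hw, e⟩ := face_par a1 a2 b1 (he ▸ subset_insert _ _) (Ne.symm c)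
  obtain ⟨w', hw', e'⟩ := face_par b1 b2 a1 (he ▸ subset_insert _ _) c
  have c1 := rk_le (a3 w hw)
  have c2 := rk_le (b3 w' hw')
  rw [← e] at c1
  rw [← e'] at c2
  have := mt (rk_zero h).1 hx
  omega

theorem Iso.anti {r0 k : ℕ} {c : ℝ} (h : Iso d r0 k t c S) (hS : S' ⊆ S) : Iso d r0 k t c S' :=
  fun a b => (Nat.cast_le.2 (cd_mono fun _ hz => ⟨hz.1, hz.2.imp fun _ hf =>
    ⟨hf.1, hf.2.mono fun _ => rd_up hS⟩⟩)).trans (h a b)

omit [NeZero n] in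
theorem Deg.anti {Q Q' : Fc n → Prop} {a : ℝ} (h : Deg d Q a) (hQ : ∀ z, Q' z → Q z) :
    Deg d Q' a :=
  fun g hg => (Nat.cast_le.2 (cd_mono fun _ hz => ⟨hz.1, hz.2.imp fun _ ho =>
    ⟨ho.1, fun y hy => hQ y (ho.2 y hy)⟩⟩)).trans (h g hg)

end Pool.Agent.MP_8f9e6e_pr.J

end

section

/-! Canonical chains, touches and free sets. -/

open Finset Filter

namespace Pool.Agent.MP_8f9e6e_pr.J

namespace Cx

variable {n d : ℕ} [NeZero n] {c : Cx n d} {e g g' x y : Fc n} {w w' : Fin n} {i j : ℕ}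

theorem ch_uniq (hg : c.D g) (hg' : c.D g') (h' : c.Fresh g') (hw : w ∈ g) (hw' : w' ∈ g')
    (hf : c.pa g w ∈ c.S) (he : c.pa g w = c.pa g' w') (hr : c.rk g ≤ c.rk g') : g = g' := by
  by_contra hne
  refine h' ⟨(w', w, c.ap g), hw', he ▸ hf, he ▸ not_mem_par hg.ap hw, ?_,
    he ▸ mem_par.2 (.inl rfl), fun z hz => ?_⟩
  · dsimp only
    rw [← he, pa, cell_par hw]
    exact fun a => hne (cell_inj hg.1 hg.notS hg'.1 hg'.notS a)
  · dsimp only at hz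
    rw [← he] at hz
    obtain ⟨v, a1, a2, rfl⟩ := mem_slt.1 hz
    obtain ⟨a3, a4⟩ := (mem_par.1 a1).resolve_left a2
    rw [pa, par_par hg.ap hw a4 a3]
    exact (pa_rd hg.1 hg.notS a4).mono (by omega)

/-- A source is a unit of at most one fresh face. -/
theorem unit_uniq (hS : ∀ f ∈ c.S, f.card = d + 1) (hg : c.D g) (hg' : c.D g') (h : c.Fresh g)
    (h' : c.Fresh g') (hw : w ∈ g) (hw' : w' ∈ g') (hf : c.pa g w ∈ c.S)
    (he : c.pa g w = c.pa g' w') : g = g' := by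
  have _ := hS
  rcases le_total (c.rk g) (c.rk g') with a | a
  · exact ch_uniq hg hg' h' hw hw' hf he a
  · exact (ch_uniq hg' hg h hw' hw (he ▸ hf) he.symm a).symm

variable {R R' : Finset (Fc n)}

theorem ch_tt (h : c.TT x) : c.D (c.rs x) ∧ c.rk (c.rs x) ≤ c.rk x ∧
    c.Tw (c.rk (c.rs x) - 1) (c.rs x) (c.tw (c.rs x)) := by
  obtain ⟨a1, a2⟩ := h.1.2.rk h.1.1.1 h.ri.1.le
  exact ⟨a1, Nat.le.intro a2, (tw_spec a1 h.ri.2.1).1⟩

theorem ch_rk (hS : ∀ f ∈ c.S, f.card = d + 1) (hQ : 1 ≤ c.Q) (h : c.ch x y)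
    (hx : Contr d c.S x) : Contr d c.S y ∧ c.rk y < c.rk x := by
  have _ := hS
  have _ := hQ
  obtain ⟨h1, -, ⟨-, v, hv, rfl⟩ | ⟨h3, h4⟩⟩ := h
  · exact ⟨(pa_rd hx h1 hv).contr, pa_lt hx h1 hv⟩
  · obtain ⟨a1, a2, a3⟩ := ch_tt h3
    have a4 := a3.2.2.2.2.2 y h4
    have a5 : c.rk y ≤ _ := rk_le a4
    have a6 := a1.lt
    exact ⟨a4.contr, by omega⟩

theorem Fr.mono (h : c.Fr R y) (hR : R ⊆ R') : c.Fr R' y := by
  obtain ⟨a, z, b, e⟩ := h
  exact ⟨a, z, hR b, e⟩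

theorem Fr.step (h : c.Fr R x) (hc : c.ch x y) : c.Fr R y := by
  obtain ⟨-, z, b, e⟩ := h
  exact ⟨hc.2.1, z, b, e.tail hc⟩

theorem Fr.rd (hS : ∀ f ∈ c.S, f.card = d + 1) (hQ : 1 ≤ c.Q) {k : ℕ}
    (hR : ∀ x ∈ R, Rd d c.S k x) (h : c.Fr R y) : Rd d c.S k y := by
  obtain ⟨-, z, b, e⟩ := h
  induction e with
  | refl => exact hR z b
  | tail _ f ih =>
    obtain ⟨a1, a2⟩ := ch_rk hS hQ f ih.contr
    exact (rd_rk a1).mono (a2.le.trans (rk_le ih))

theorem sz_union (c : Cx n d) (R R' : Finset (Fc n)) : c.sz (R ∪ R') ≤ c.sz R + c.sz R' := by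
  refine (cd_mono ?_).trans (cd_or _ _)
  rintro y ⟨a, z, b, e⟩
  exact (mem_union.1 b).imp (fun b => ⟨a, z, b, e⟩) fun b => ⟨a, z, b, e⟩

theorem sz_mono (c : Cx n d) (h : R ⊆ R') : c.sz R ≤ c.sz R' :=
  cd_mono fun _ a => a.mono h

theorem sz_le {a : ℝ} (h : ∀ x ∈ R, (c.sz {x} : ℝ) ≤ a) : (c.sz R : ℝ) ≤ R.card * a := by
  refine cd_le_mul R (fun x => c.Fr {x}) ?_ h
  rintro y ⟨a, z, b, e⟩
  exact ⟨z, b, a, z, mem_singleton_self z, e⟩

open Classical in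
theorem ch_split (c : Cx n d) (g : Fc n) : c.sz {g} ≤ 1 + c.sz (univ.filter (c.ch g)) := by
  rw [← card_singleton g, ← cd_mem]
  refine (cd_mono ?_).trans (cd_or _ _)
  rintro y ⟨a, z, b, e⟩
  obtain rfl := mem_singleton.1 b
  rcases e.cases_head with rfl | ⟨v, f, e⟩
  · exact .inl b
  · exact .inr ⟨a, v, by simpa using f, e⟩

theorem sz_step (hS : ∀ f ∈ c.S, f.card = d + 1) (hQ : 1 ≤ c.Q) (hg : c.H g) {a : ℝ} (ha : 0 ≤ a)
    (h : ∀ y, c.H y → c.rk y < c.rk g → (c.sz {y} : ℝ) ≤ a) :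
    (c.sz {g} : ℝ) ≤ 1 + (2 * d + 1) * a := by
  classical
  have h1 : (c.sz {g} : ℝ) ≤ 1 + c.sz (univ.filter (c.ch g)) := by exact_mod_cast ch_split c g
  have h2 := sz_le (c := c) (R := univ.filter (c.ch g)) (a := a) fun z hz => by
    obtain ⟨a1, a2⟩ := ch_rk hS hQ (mem_filter.1 hz).2 hg.contr
    exact h z ((rd_rk a1).mono (a2.le.trans (rk_le hg))) a2
  have h3 : (g.image (c.pa g)).card ≤ d + 1 := card_image_le.trans (rd_card hS hg).le
  have h4 : (univ.filter (c.ch g)).card ≤ 2 * d + 1 := by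
    by_cases t : c.TT g
    · obtain ⟨-, -, -, b1, b2, -, b3, -⟩ := ch_tt t
      have b4 : (c.ts (c.rs g)).card = d := slt_card (hS _ b1) b2 b3
      refine (card_le_card (t := g.image (c.pa g) ∪ c.ts (c.rs g)) fun z hz => ?_).trans
        ((card_union_le _ _).trans (by omega))
      obtain ⟨-, -, ⟨-, v, hv, rfl⟩ | ⟨-, b⟩⟩ := (mem_filter.1 hz).2
      · exact mem_union_left _ (mem_image_of_mem _ hv)
      · exact mem_union_right _ b
    · refine (card_le_card (t := g.image (c.pa g)) fun z hz => ?_).trans (by omega)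
      obtain ⟨-, -, ⟨-, v, hv, rfl⟩ | ⟨b, -⟩⟩ := (mem_filter.1 hz).2
      · exact mem_image_of_mem _ hv
      · exact absurd b t
  have h5 : ((univ.filter (c.ch g)).card : ℝ) ≤ 2 * d + 1 := by exact_mod_cast h4
  have h6 := mul_le_mul_of_nonneg_right h5 ha
  linarith only [h1, h2, h6]

theorem ch_szle {a : ℕ} (h : ∀ x ∈ R, c.sz {x} ≤ a) : c.sz R ≤ R.card * a := by
  exact_mod_cast sz_le (c := c) (R := R) (a := a) fun x hx => by exact_mod_cast h x hx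

theorem ch_early (hS : ∀ f ∈ c.S, f.card = d + 1) {k : ℕ} (hk : k ≤ c.r0) :
    ∀ y, Rd d c.S k y → c.sz {y} ≤ (d + 2) ^ k := by
  classical
  induction k with
  | zero =>
    intro y hy
    refine (ch_split c y).trans ?_
    have e : univ.filter (c.ch y) = ∅ := filter_eq_empty_iff.2 fun z _ a => a.1 hy
    have f := ch_szle (c := c) (R := ∅) (a := 0) (by simp)
    rw [e]
    simpa using f
  | succ k ih =>
    intro y hy
    have h0 : ∀ z, c.ch y z → y ∉ c.S ∧ ∃ v ∈ y, z = c.pa y v := by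
      rintro z ⟨a, -, ⟨-, b⟩ | ⟨b, -⟩⟩
      · exact ⟨a, b⟩
      · exact absurd (hy.mono hk) b.1.1.1.2
    have h1 := ch_szle (c := c) (R := univ.filter (c.ch y)) (a := (d + 2) ^ k) fun z hz => by
      obtain ⟨a, v, hv, rfl⟩ := h0 z (mem_filter.1 hz).2
      have b : c.rk y ≤ _ := rk_le hy
      exact ih (by omega) _ ((pa_rd hy.contr a hv).mono (by omega))
    have h2 : (univ.filter (c.ch y)).card ≤ d + 1 := by
      refine (card_le_card (t := y.image (c.pa y)) fun z hz => ?_).trans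
        (card_image_le.trans (rd_card hS hy).le)
      obtain ⟨-, v, hv, rfl⟩ := h0 z (mem_filter.1 hz).2
      exact mem_image_of_mem _ hv
    have h3 := ch_split c y
    have h4 := Nat.mul_le_mul_right ((d + 2) ^ k) h2
    have h5 : 1 ≤ (d + 2) ^ k := Nat.one_le_pow _ _ (by omega)
    rw [pow_succ]
    linarith only [h1, h3, h4, h5]

theorem sz_early (hS : ∀ f ∈ c.S, f.card = d + 1) (h : ∀ y ∈ R, c.A y) :
    c.sz R ≤ R.card * (d + 2) ^ c.r0 :=
  ch_szle fun y hy => ch_early hS le_rfl y (h y hy)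

end Cx

end Pool.Agent.MP_8f9e6e_pr.J

end

section

/-! Private apexes. -/

open Finset

namespace Pool.Agent.MP_8f9e6e_pr.J

variable {n d : ℕ} [NeZero n]

namespace Base

section

variable (B : Base n) (c : Cx n d) (X : Set (Bool × Fc n))

open Classical in
/-- Length of the private prefix. -/
noncomputable def pl (x : Fc n) : ℕ :=
  if B.CutW c X x then d + 1 else if B.RN c X x then c.cpl x else
    if RA c X x ∨ B.RT c X x then c.Om else 0

/-- Faces inside a private prefix. -/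
def Inn (y : Fc n) : Prop := ∃ x, B.E c X x ∧ ∃ i, 0 < i ∧ i < B.pl c X x ∧ y = c.dp^[i] x

/-- Faces that are not coded. -/
def Abs (y : Fc n) : Prop :=
  B.Inn c X y ∨ ∃ a, B.CutW c X a ∧ (y = c.dp^[d + 1] a ∨ y ∈ B.cU c a)

end

variable {B : Base n} {c : Cx n d} {X : Set (Bool × Fc n)} {Vi : Finset (Fc n)} {δ γ : ℕ}
  {T : Finset (Finset (Fin n))} {x y g e e' a f : Fc n} {i j : ℕ} {w : Fin n} {σ τ : Stp n}

theorem ex_mem : .ex x ∈ B.St c X ↔ B.E c X x := by simp [St]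

theorem tc_mem : .tc g ∈ B.St c X ↔ B.Tc c X g := by simp [St]

theorem si_mem : .si i ∈ B.St c X ↔ i < B.ns := by simp [St]

theorem tr1_rd {R : Finset (Fc n)} {k : ℕ} (hR : ∀ x ∈ R, Rd d c.S k x) (hy : c.Fr R y) :
    Rd d c.S k y := by
  obtain ⟨-, x, hx, h⟩ := hy
  induction h with
  | refl => exact hR x hx
  | tail _ h ih =>
    have h0 : c.rk _ ≤ k := rk_le ih
    obtain ⟨h1, -, ⟨-, w, hw, rfl⟩ | ⟨h2, h3⟩⟩ := h
    · exact (Cx.pa_rd ih.contr h1 hw).mono (by omega)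
    · obtain ⟨h4, h5⟩ := h2.1.2.rk h2.1.1.1 h2.ri.1.le
      refine ((Cx.tw_spec h4 h2.ri.2.1).1.2.2.2.2.2 _ h3).mono ?_
      omega

theorem tr1_lev (ht : c.Top e) (hc : c.Cpt e j) (hi : i ≤ j) (ho : i < c.Om)
    (h : c.Top (c.cf e i)) : i = 0 := by
  have := Cx.lev_add (hc.rk ht.1 hi).2
  rwa [ht.2, h.2, zero_add, Nat.mod_eq_of_lt ho, eq_comm] at this

theorem tr1_slot (hs : c.SS g w) : c.dp g ∈ B.slot c (.ex g) :=
  mem_image.2 ⟨w, hs.1, hs.dp.symm⟩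

theorem tr1_occ (hτ : τ ∈ B.St c X) (hy : y ∈ B.slot c τ) : y ∈ B.Occ c X :=
  mem_union_right _ (mem_biUnion.2 ⟨τ, hτ, hy⟩)

omit [NeZero n] in
theorem tr1_idx (hi : i < c.Q) (hj : j ≤ d) : i * (d + 1) + j < c.Om :=
  calc i * (d + 1) + j < (i + 1) * (d + 1) := by rw [add_mul, one_mul]; omega
    _ ≤ _ := Nat.mul_le_mul_right _ hi

namespace Good

variable (h : B.Good c X Vi δ T γ)
include h

theorem Om_pos : 0 < c.Om := Nat.mul_pos (by have := h.hQ; omega) d.succ_pos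

theorem tr1_H (hy : c.Fr B.Rs y) : c.H y := by
  refine tr1_rd (fun x hx => ?_) hy
  rcases mem_union.1 hx with hx | hx
  · exact (h.ok.root x hx).2.1
  · obtain ⟨i, hi, hx⟩ := mem_biUnion.1 hx
    exact (h.ok.site i (mem_range.1 hi)).2.2.2.2.1 x hx

theorem tr1_win (ha : (true, a) ∈ X) : ∃ e, c.Fr B.Rs e ∧ c.Cmp e ∧ ∃ i < c.Q,
    a = c.cf e (i * (d + 1)) ∧ ∀ k < i, B.BadW c X (c.cf e (k * (d + 1))) := by
  rw [← h.fix] at ha
  exact (ha.resolve_right fun b => by simpa using b.1).2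

theorem tr1_link (hg : (false, g) ∈ X) : ∃ e, c.Fr B.Rs e ∧ c.TA e ∧ g = c.rs e := by
  rw [← h.fix] at hg
  obtain ⟨-, e, h1, h2, h3, -⟩ := hg.resolve_left fun b => by simpa using b.1
  exact ⟨e, h1, h2, h3⟩

theorem tr1_A (hg : (false, g) ∈ X) (hy : c.Fr (c.ts g) y) : c.A y := by
  obtain ⟨e, -, h2, rfl⟩ := h.tr1_link hg
  exact tr1_rd h2.ri.2.tw.2.2.2.2.2 hy

theorem EH (hy : B.E c X y) : c.H y ∧ y ∉ c.S := by
  rcases hy with hy | ⟨a, ha, j, hj, rfl⟩ | ⟨g, hg, hy⟩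
  · exact ⟨h.tr1_H hy, hy.1⟩
  · obtain ⟨e, h1, h2, i, hi, rfl, -⟩ := h.tr1_win ha
    have h3 := (tr1_idx hi hj).le
    obtain ⟨h4, h5⟩ := h2.1.2.rk h2.1.1.1 h3
    have h6 : c.rk e ≤ c.hh := rk_le (h.tr1_H h1)
    rw [← h2.1.2.iter h3]
    exact ⟨h4.rd.mono (by omega), h4.notS⟩
  · obtain ⟨e, h1, h2, -⟩ := h.tr1_link hg
    exact ⟨Rd.mono (h2.1.1.1.lt.le.trans (rk_le (h.tr1_H h1))) (h.tr1_A hg hy), hy.1⟩

theorem win (ha : (true, a) ∈ X) : ∃ e, c.Fr B.Rs e ∧ c.Cmp e ∧ ∃ i < c.Q,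
    a = c.cf e (i * (d + 1)) ∧ ∀ k < i, B.BadW c X (c.cf e (k * (d + 1))) := by
  exact h.tr1_win ha

theorem chain (he : c.Fr B.Rs e) (ht : c.Top e) (hn : ¬ c.Cmp e) (hc : c.Cpt e j)
    (hj : j ≤ c.Om) (hi : i ≤ j) : c.Fr B.Rs (c.cf e i) := by
  have _ := h.hd
  induction i with
  | zero => rwa [Cx.cf_zero ht.1.card]
  | succ i ih =>
    obtain ⟨h1, x, hx, h2⟩ := ih (by omega)
    have h3 := (hc.rk ht.1 hi).1.notS
    refine ⟨h3, x, hx, h2.tail ⟨h1, h3, .inl ⟨fun b => ?_, _, (hc i hi).1, ?_⟩⟩⟩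
    · have := tr1_lev ht hc (i := i) (by omega) (by omega) b.1.1
      rw [this, Cx.cf_zero ht.1.card] at b
      exact hn b
    · rw [hc.succ hi, (hc i hi).dp]

theorem tc (hg : B.Tc c X g) : B.E c X g ∧ c.D g ∧ ¬ c.Fresh g ∧ ∃ e, c.Fr B.Rs e ∧ g = c.rs e ∧
    (c.TT e ∨ (c.TA e ∧ (false, g) ∈ X)) := by
  rcases hg with ⟨e, h1, h2, rfl⟩ | hg
  · exact ⟨.inl (h.chain h1 h2.1.1 h2.2.2 h2.1.2 le_rfl h2.ri.1.le),
      (h2.1.2 _ h2.ri.1).2.1, h2.ri.2.1, e, h1, rfl, .inl h2⟩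
  · obtain ⟨e, h1, h2, rfl⟩ := h.tr1_link hg
    exact ⟨.inl (h.chain h1 h2.1.1 h2.nc h2.1.2 le_rfl h2.ri.1.le), (h2.1.2 _ h2.ri.1).2.1,
      h2.ri.2.nf (h2.1.2 _ h2.ri.1).2.1, e, h1, rfl, .inr ⟨h2, hg⟩⟩

theorem top (he : B.E c X e) (ht : c.Top e) : c.Fr B.Rs e := by
  rcases he with he | ⟨a, ha, j, hj, rfl⟩ | ⟨g, hg, he⟩
  · exact he
  · obtain ⟨e, h1, h2, i, hi, rfl, -⟩ := h.win ha
    have h3 := tr1_idx hi hj
    rw [← h2.1.2.iter h3.le] at ht ⊢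
    rwa [tr1_lev h2.1.1 h2.1.2 h3.le h3 ht, Cx.cf_zero h2.1.1.1.card]
  · exact absurd (h.tr1_A hg he) ht.1.2

theorem step (hσ : σ ∈ B.St c X) : (B.face c σ).card = d + 1 ∧ B.apex c σ ∉ B.face c σ ∧
    ∀ y ∈ B.slot c σ, c.H y ∧ 2 * c.rk y < B.key c σ ∧
      ∃ w ∈ B.face c σ, y = par (B.face c σ) (B.apex c σ) w := by
  cases σ with
  | ex x =>
    obtain ⟨h1, h2⟩ := h.EH (ex_mem.1 hσ)
    obtain ⟨h3, h4, -⟩ := ap_spec (Rd.contr h1) h2
    refine ⟨h3, h4, fun y hy => ?_⟩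
    obtain ⟨w, hw, rfl⟩ := mem_image.1 hy
    have h5 : c.rk x ≤ c.hh := rk_le h1
    have h6 := Cx.pa_lt (Rd.contr h1) h2 hw
    exact ⟨(Cx.pa_rd (Rd.contr h1) h2 hw).mono (by omega), by simp only [key]; omega, w, hw, rfl⟩
  | tc g =>
    obtain ⟨h1, h2, h3, -⟩ := h.tc (tc_mem.1 hσ)
    obtain ⟨-, h4, h5, -, -, h6⟩ := (Cx.tw_spec h2 h3).1
    refine ⟨h.hS _ h4, h5, fun y hy => ?_⟩
    have h7 : c.rk g ≤ c.hh := rk_le (h.EH h1).1
    have h8 : c.rk y ≤ c.rk g - 1 := rk_le (h6 y hy)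
    have h9 := h2.lt
    obtain ⟨w, hw, -, h10⟩ := mem_slt.1 hy
    exact ⟨(h6 y hy).mono (by omega), by simp only [key]; omega, w, hw, h10⟩
  | si i =>
    obtain ⟨h1, -, h2, -, h3, -⟩ := h.ok.site i (si_mem.1 hσ)
    refine ⟨h1, h2, fun y hy => ?_⟩
    have h4 : c.rk y ≤ c.hh := rk_le (h3 y hy)
    obtain ⟨w, hw, -, h5⟩ := mem_slt.1 hy
    exact ⟨h3 y hy, by simp only [key]; omega, w, hw, h5⟩

theorem tr1_fr (hy : c.Fr B.Rs y) : y ∈ B.Occ c X := by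
  have _ := h.hd
  obtain ⟨-, x, hx, h1⟩ := hy
  rcases h1.cases_tail with rfl | ⟨z, h2, h3, -, ⟨-, w, hw, rfl⟩ | ⟨h4, h5⟩⟩
  · rcases mem_union.1 hx with hx | hx
    · exact mem_union_left _ hx
    · obtain ⟨i, hi, hx⟩ := mem_biUnion.1 hx
      exact tr1_occ (si_mem.2 (mem_range.1 hi)) hx
  · exact tr1_occ (ex_mem.2 (.inl ⟨h3, x, hx, h2⟩)) (mem_image_of_mem _ hw)
  · exact tr1_occ (tc_mem.2 (.inl ⟨z, ⟨h3, x, hx, h2⟩, h4, rfl⟩)) h5

theorem tr1_E (h1 : c.Fr B.Rs e) (h2 : c.Cmp e) (hi : i < c.Q)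
    (h3 : ∀ k < i, B.BadW c X (c.cf e (k * (d + 1)))) (hj : j < (i + 1) * (d + 1)) :
    B.E c X (c.cf e j) := by
  have h4 : j / (d + 1) < i + 1 := (Nat.div_lt_iff_lt_mul d.succ_pos).2 hj
  have h5 : j % (d + 1) ≤ d := Nat.lt_succ_iff.1 (Nat.mod_lt _ d.succ_pos)
  refine .inr (.inl ⟨c.cf e (j / (d + 1) * (d + 1)), ?_, _, h5, ?_⟩)
  · rw [← h.fix]
    exact .inl ⟨rfl, e, h1, h2, _, by omega, rfl, fun k hk => h3 k (by omega)⟩
  · rw [← h2.1.2.iter (tr1_idx (by omega) h5).le, Nat.div_add_mod']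

theorem occ (hy : B.E c X y) : y ∈ B.Occ c X := by
  rcases hy with hy | ⟨a, ha, j, hj, rfl⟩ | ⟨g, hg, -, x, hx, h1⟩
  · exact h.tr1_fr hy
  · obtain ⟨e, h1, h2, i, hi, rfl, h3⟩ := h.win ha
    have h4 := tr1_idx hi hj
    rw [← h2.1.2.iter h4.le]
    have h5 : i * (d + 1) + j < (i + 1) * (d + 1) := by rw [add_mul, one_mul]; omega
    generalize i * (d + 1) + j = m at h4 h5
    cases m with
    | zero =>
      rw [Cx.cf_zero h2.1.1.1.card]
      exact h.tr1_fr h1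
    | succ m =>
      rw [h2.1.2.succ (by omega)]
      exact tr1_occ (ex_mem.2 (h.tr1_E h1 h2 hi h3 (by omega))) (tr1_slot (h2.1.2 m (by omega)))
  · rcases h1.cases_tail with rfl | ⟨z, h2, h3, -, ⟨-, w, hw, rfl⟩ | ⟨h4, -⟩⟩
    · exact tr1_occ (tc_mem.2 (.inr hg)) hx
    · exact tr1_occ (ex_mem.2 (.inr (.inr ⟨g, hg, h3, x, hx, h2⟩))) (mem_image_of_mem _ hw)
    · exact absurd (h.tr1_A hg ⟨h3, x, hx, h2⟩) h4.1.1.1.2

theorem tr1_up (hτ : τ ∈ B.St c X) : B.face c τ ⊆ B.V0 ∨ ∃ σ ∈ B.St c X,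
    B.key c τ < B.key c σ ∧ B.face c τ ⊆ insert (B.apex c σ) (B.face c σ) := by
  cases τ with
  | ex x =>
    rcases mem_union.1 (h.occ (ex_mem.1 hτ)) with h1 | h1
    · exact .inl (h.ok.root x h1).1
    · obtain ⟨σ, h2, h3⟩ := mem_biUnion.1 h1
      obtain ⟨-, h4, w, -, h5⟩ := (h.step h2).2.2 x h3
      exact .inr ⟨σ, h2, h4, h5.subset.trans par_sub⟩
  | tc g =>
    obtain ⟨h1, h2, -⟩ := h.tc (tc_mem.1 hτ)
    have := h2.lt
    exact .inr ⟨.ex g, ex_mem.2 h1, by simp only [key]; omega, par_sub⟩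
  | si i =>
    have h1 := si_mem.1 hτ
    by_cases h2 : B.Start i
    · exact .inl ((h.ok.site i h1).2.2.2.2.2.2.2.1 h2)
    · simp only [Start, not_or, not_forall, not_and_or, not_not] at h2
      obtain ⟨-, k, hk, h3⟩ := h2
      refine .inr ⟨.si k, si_mem.2 (by omega), by simp only [key]; omega, ?_⟩
      rcases h3 with h3 | h3
      · exact h3.symm.subset.trans (subset_insert _ _)
      · exact h3.symm.subset.trans par_sub

theorem trace (hσ : σ ∈ B.St c X) (hp : ¬ B.Shared c X σ) (hτ : τ ∈ B.St c X)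
    (ha : B.apex c σ ∈ B.face c τ) : B.key c τ < B.key c σ := by
  classical
  by_contra h1
  obtain ⟨ρ, h2, h3⟩ := exists_max_image ((B.St c X).filter fun τ =>
    B.apex c σ ∈ B.face c τ ∧ ¬ B.key c τ < B.key c σ) (B.key c) ⟨τ, mem_filter.2 ⟨hτ, ha, h1⟩⟩
  obtain ⟨h4, h5, h6⟩ := mem_filter.1 h2
  rcases h.tr1_up h4 with h7 | ⟨ρ', h7, h8, h9⟩
  · exact hp (.inl (h7 h5))
  · rcases mem_insert.1 (h9 h5) with h10 | h10
    · exact hp (.inr ⟨ρ', h7, fun b => h6 (b ▸ h8), h10.symm⟩)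
    · exact (h3 ρ' (mem_filter.2 ⟨h7, h10, by omega⟩)).not_gt h8

theorem only (hg : B.E c X g) (hp : ¬ B.Shared c X (.ex g)) (hs : c.SS g w) :
    c.dp g ∉ B.rt ∧ ∀ τ ∈ B.St c X, c.dp g ∈ B.slot c τ → τ = .ex g := by
  have h1 : c.ap g ∈ c.dp g := hs.dp ▸ mem_par.2 (.inl rfl)
  refine ⟨fun b => hp (.inl ((h.ok.root _ b).1 h1)), fun τ hτ hy => ?_⟩
  by_contra h2
  obtain ⟨h3, h4, h5⟩ := h.step hτ
  obtain ⟨-, h6, v, -, h7⟩ := h5 _ hy
  have h8 : c.ap g ∈ B.face c τ := (mem_insert.1 ((h7.subset.trans par_sub) h1)).resolve_left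
    fun b => hp (.inr ⟨τ, hτ, h2, b.symm⟩)
  have h9 := h.trace (ex_mem.2 hg) hp hτ h8
  have h10 := hs.rk
  have h11 : c.rk g ≤ c.hh := rk_le (h.EH hg).1
  cases τ with
  | ex x => simp only [key] at h6 h9; omega
  | si i => simp only [key] at h9; omega
  | tc g' =>
    obtain ⟨h12, h13, h14, -⟩ := h.tc (tc_mem.1 hτ)
    obtain ⟨-, h15, -, h16, -⟩ := (Cx.tw_spec h13 h14).1
    have h17 : c.ap g = c.ap g' := (mem_insert.1 (par_sub h8)).resolve_right fun b => by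
      have := h.trace (ex_mem.2 hg) hp (ex_mem.2 h12) b
      simp only [key] at h6 this
      omega
    obtain rfl : g' = g := by
      by_contra b
      exact hp (.inr ⟨.ex g', ex_mem.2 h12, fun a => b (Stp.ex.inj a), h17.symm⟩)
    refine h16 (cell_eq h3 hs.D.card (fun b => hs.D.notS (b ▸ h15)) ?_ ?_ (subset_insert _ _)
      (h7.subset.trans par_sub) par_sub (hs.dp.subset.trans par_sub))
    · exact (card_insert_of_notMem h4).trans (congrArg (· + 1) h3)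
    · exact (card_insert_of_notMem h13.ap).trans (congrArg (· + 1) h13.card)

theorem back (h1 : ∀ m < i, B.E c X (c.dp^[m] x) ∧ ∃ w, c.SS (c.dp^[m] x) w)
    (h2 : ∀ m < j + i, B.E c X (c.dp^[m] y) ∧ ¬ B.Shared c X (.ex (c.dp^[m] y)) ∧
      ∃ w, c.SS (c.dp^[m] y) w) (h3 : c.dp^[i] x = c.dp^[j + i] y) : x = c.dp^[j] y := by
  induction i with
  | zero => exact h3
  | succ i ih =>
    refine ih (fun m hm => h1 m (by omega)) (fun m hm => h2 m (by omega)) ?_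
    obtain ⟨h4, v, h5⟩ := h1 i (by omega)
    obtain ⟨h6, h7, v', h8⟩ := h2 (j + i) (by omega)
    rw [← add_assoc, Function.iterate_succ_apply', Function.iterate_succ_apply'] at h3
    exact Stp.ex.inj ((h.only h6 h7 h8).2 _ (ex_mem.2 h4) (h3 ▸ tr1_slot h5))

omit [NeZero n] h in
theorem tr2_idx (hi : i < c.Q) (hj : j ≤ d) : i * (d + 1) + j < c.Om := by
  have := Nat.mul_le_mul_right (d + 1) (Nat.succ_le_of_lt hi)
  rw [Nat.succ_mul] at this
  unfold Cx.Om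
  omega

omit [NeZero n] h in
theorem tr2_lev (he : c.Top e) (he' : c.Top e') (h1 : c.rk y + i = c.rk e)
    (h2 : c.rk y + j = c.rk e') : i ≡ j [MOD c.Om] :=
  Nat.ModEq.add_left_cancel' (c.lev y)
    (((Cx.lev_add h1).symm.trans he.2).trans ((Cx.lev_add h2).symm.trans he'.2).symm)

omit [NeZero n] h in
theorem tr2_mod {k k' : ℕ} (hi : i ≤ d) (h1 : k * (d + 1) ≡ k' * (d + 1) + i [MOD c.Om]) :
    i = 0 := by
  have h2 := h1.of_dvd (Dvd.intro_left _ rfl : d + 1 ∣ c.Om)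
  rw [Nat.ModEq, Nat.mul_mod_left, Nat.mul_add_mod_self_right, Nat.mod_eq_of_lt (by omega)] at h2
  exact h2.symm

theorem tr2_in (he : c.Fr B.Rs e) (hc : c.Cmp e) (hi : i < c.Q)
    (hb : ∀ k < i, B.BadW c X (c.cf e (k * (d + 1)))) : (true, c.cf e (i * (d + 1))) ∈ X := by
  rw [← h.fix]
  exact .inl ⟨rfl, e, he, hc, i, hi, rfl, hb⟩

theorem tr2_win (he : c.Fr B.Rs e) (hc : c.Cmp e) (hi : i < c.Q)
    (hb : ∀ k < i, B.BadW c X (c.cf e (k * (d + 1)))) (hj : j < i * (d + 1)) :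
    B.E c X (c.cf e j) := by
  have h1 : j / (d + 1) < i := Nat.div_lt_of_lt_mul (by rwa [mul_comm])
  have h2 : j % (d + 1) ≤ d := Nat.lt_succ_iff.1 (Nat.mod_lt _ d.succ_pos)
  refine .inr (.inl ⟨_, h.tr2_in he hc (h1.trans hi) fun k hk => hb k (hk.trans h1), _, h2, ?_⟩)
  rw [← hc.1.2.iter (tr2_idx (h1.trans hi) h2).le, Nat.div_add_mod']

theorem tr2_pl (hx : B.E c X x) (hp : 0 < B.pl c X x) : (B.CutW c X x ∧ B.pl c X x = d + 1) ∨
    (c.Top x ∧ ¬ c.Cmp x ∧ c.Cpt x (B.pl c X x) ∧ B.pl c X x ≤ c.Om ∧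
      B.Priv c X x (B.pl c X x) ∧ (B.RN c X x ∨ RA c X x ∨ B.RT c X x)) := by
  unfold pl at hp ⊢
  split_ifs at hp ⊢ with h1 h2 h3
  · exact .inl ⟨h1, rfl⟩
  · exact .inr ⟨h2.1, fun a => h2.2.1 a.1.2, Cx.cpt_cpl, Cx.cpl_le, h2.2.2, .inl h2⟩
  · rcases h3 with h3 | h3
    · refine .inr ⟨h3.1.1.1, h3.1.nc, h3.1.1.2, le_rfl, fun i hi a => h3.2 ?_, .inr (.inl h3)⟩
      rw [← h.fix]
      exact .inr ⟨rfl, x, h.top hx h3.1.1.1, h3.1, rfl, .inl ⟨i, hi, a⟩⟩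
    · exact .inr ⟨h3.1.1.1, h3.1.2.2, h3.1.1.2, le_rfl, h3.2, .inr (.inr h3)⟩
  · exact absurd hp (lt_irrefl _)

theorem pl_spec (hx : B.E c X x) (hi : i < B.pl c X x) : B.E c X (c.dp^[i] x) ∧
    ¬ B.Shared c X (.ex (c.dp^[i] x)) ∧ ∃ w, c.SS (c.dp^[i] x) w := by
  rcases h.tr2_pl hx (by omega) with ⟨h1, h2⟩ | ⟨h1, h2, h3, h4, h5, -⟩
  · have hd : i ≤ d := by omega
    obtain ⟨e, -, a2, k, a3, a4, -⟩ := h.win h1.1
    refine ⟨.inr (.inl ⟨x, h1.1, i, hd, rfl⟩), fun a => h1.2 (.inl ⟨i, hd, a⟩), ?_⟩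
    rw [a4, ← a2.1.2.iter (tr2_idx a3 hd).le]
    exact ⟨_, a2.1.2 _ (tr2_idx a3 hd)⟩
  · rw [← h3.cf h1.1 hi.le]
    exact ⟨.inl (h.chain (h.top hx h1) h1 h2 h3 h4 hi.le), h5 i hi, _, h3 i hi⟩

theorem tr2_rk (hx : B.E c X x) (hi : i ≤ B.pl c X x) : c.rk (c.dp^[i] x) + i = c.rk x := by
  induction i with
  | zero => rfl
  | succ i ih =>
    obtain ⟨-, -, w, a⟩ := h.pl_spec hx hi
    have := a.rk
    have := ih (by omega)
    rw [Function.iterate_succ_apply']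
    omega

omit h in
theorem tr2_cut (ha : B.CutW c X a) : B.E c X a ∧ B.pl c X a = d + 1 :=
  ⟨.inr (.inl ⟨a, ha.1, 0, d.zero_le, rfl⟩), if_pos ha⟩

theorem tr2_up (hg : B.E c X g) (hp : ¬ B.Shared c X (.ex g)) (hs : c.SS g w)
    (hf : c.Fr B.Rs (c.dp g)) : c.Fr B.Rs g ∧ ¬ c.Cmp g := by
  obtain ⟨h1, h2⟩ := h.only hg hp hs
  obtain ⟨-, x, h3, h4⟩ := hf
  rcases h4.cases_tail with a | ⟨y, a1, a2, -, a3⟩
  · rcases mem_union.1 h3 with b | b
    · exact absurd (a ▸ b) h1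
    · obtain ⟨i, b1, b2⟩ := mem_biUnion.1 b
      cases h2 (.si i) (si_mem.2 (mem_range.1 b1)) (a ▸ b2)
  · have b : c.Fr B.Rs y := ⟨a2, x, h3, a1⟩
    rcases a3 with ⟨b1, v, b2, b3⟩ | ⟨b1, b2⟩
    · cases h2 (.ex y) (ex_mem.2 (.inl b)) (mem_image.2 ⟨v, b2, b3.symm⟩)
      exact ⟨b, b1⟩
    · cases h2 (.tc (c.rs y)) (tc_mem.2 (.inl ⟨y, b, b1, rfl⟩)) b2

theorem tr2_link (hg : (false, g) ∈ X) (hy : c.Fr (c.ts g) y) : c.A y := by
  rw [← h.fix] at hg
  obtain ⟨a, -⟩ | ⟨-, e, -, a1, a2, -⟩ := hg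
  · cases a
  obtain ⟨-, x, b1, b2⟩ := hy
  induction b2 with
  | refl => exact (show c.TyA g from (show g = c.rs e from a2) ▸ a1.ri.2).tw.2.2.2.2.2 _ b1
  | tail _ b3 ih =>
    rcases b3.2.2 with ⟨-, v, b4, rfl⟩ | ⟨b4, -⟩
    · exact (Cx.pa_rd ih.contr b3.1 b4).mono ((Nat.sub_le _ _).trans (rk_le ih))
    · exact absurd ih b4.1.1.1.2

theorem cut (ha : B.CutW c X a) : B.E c X a ∧ ¬ B.E c X (c.dp^[d + 1] a) ∧
    ∀ j ≤ d, c.Fresh (c.dp^[j] a) := by
  obtain ⟨h1, h2⟩ := tr2_cut ha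
  obtain ⟨e, -, a2, k, a3, a4, -⟩ := h.win ha.1
  have sp : ∀ j < d + 1, _ := fun j hj => h.pl_spec h1 (i := j) (h2 ▸ hj)
  have nf : ∀ j ≤ d, ¬ c.Fr B.Rs (c.dp^[j + 1] a) := fun j hj => by
    induction j with
    | zero =>
      obtain ⟨b1, b2, w, b3⟩ := sp 0 d.succ_pos
      exact fun b => ha.2 (.inr (h.tr2_up b1 b2 b3 b))
    | succ j ih =>
      obtain ⟨b1, b2, w, b3⟩ := sp (j + 1) (by omega)
      rw [Function.iterate_succ_apply']
      exact fun b => ih (by omega) (h.tr2_up b1 b2 b3 b).1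
  refine ⟨h1, ?_, fun j hj => ?_⟩
  · rintro (b | ⟨a', b1, j, hj, b2⟩ | ⟨g, b1, b2⟩)
    · exact nf d le_rfl b
    · obtain ⟨e', c1, c2, k', c3, c4, c5⟩ := h.win b1
      have r1 := h.tr2_rk h1 h2.ge
      have r2 := (a2.1.2.rk a2.1.1.1 (tr2_idx a3 d.zero_le).le).2
      have r3 := (c2.1.2.rk c2.1.1.1 (tr2_idx c3 hj).le).2
      rw [add_zero, ← a4] at r2
      rw [c2.1.2.iter (tr2_idx c3 hj).le, ← c4, ← b2] at r3
      obtain rfl := tr2_mod hj (tr2_lev (i := (k + 1) * (d + 1)) a2.1.1 c2.1.1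
        (by rw [Nat.succ_mul]; omega) r3)
      rw [Function.iterate_zero_apply, c4] at b2
      cases k' with
      | zero =>
        rw [zero_mul, Cx.cf_zero c2.1.1.1.card] at b2
        exact nf d le_rfl (b2 ▸ c1)
      | succ m =>
        have d1 := h.tr2_in c1 c2 (by omega : m < c.Q) fun l hl => c5 l (by omega)
        have d2 := tr2_idx c3 d.zero_le
        rw [Nat.succ_mul] at b2 d2
        rw [c2.1.2.iter (by omega)] at b2
        have d3 := h.back (x := c.cf e' (m * (d + 1))) (y := a) (j := 0) (i := d + 1)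
          (fun l hl => ⟨.inr (.inl ⟨_, d1, l, by omega, rfl⟩), by
            rw [← c2.1.2.iter (by omega)]
            exact ⟨_, c2.1.2 _ (by omega)⟩⟩)
          (fun l hl => sp l (by omega)) (by rw [zero_add, b2])
        exact ha.2 (by simpa only [d3, Function.iterate_zero_apply] using c5 m (by omega))
    · obtain ⟨-, -, w, b3⟩ := sp d (by omega)
      rw [Function.iterate_succ_apply'] at b2
      exact b3.D.2 (h.tr2_link b1 b2)
  · rw [a4, ← a2.1.2.iter (tr2_idx a3 hj).le]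
    exact a2.2 _ (tr2_idx a3 hj)

theorem tr2_key (hg : B.E c X g) (hp : ¬ B.Shared c X (.ex g)) (hf : c.ap g ∈ f)
    (hτ : τ ∈ B.St c X) (h1 : f ∈ B.slot c τ) (h2 : τ ≠ .ex g) : B.key c τ < 2 * c.rk g := by
  obtain ⟨-, v, -, rfl⟩ := ((h.step hτ).2.2 f h1).2
  exact h.trace (ex_mem.2 hg) hp hτ
    ((mem_par.1 hf).resolve_left fun a => hp (.inr ⟨τ, hτ, h2, a.symm⟩)).2

theorem tr2_ex (hg : B.E c X g) (hp : ¬ B.Shared c X (.ex g)) (hr : c.Fresh g) (hw : w ∈ g)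
    (hS : c.pa g w ∈ c.S) (hx : B.E c X x) (h1 : c.pa g w ∈ B.slot c (.ex x)) : x = g := by
  by_contra hn
  have k1 : 2 * c.rk x < 2 * c.rk g := h.tr2_key hg hp (mem_insert_self _ _) (ex_mem.2 hx) h1
    fun a => hn (by cases a; rfl)
  obtain ⟨v, hv, a⟩ := mem_image.1 h1
  obtain ⟨b1, b2, -⟩ := h.step (ex_mem.2 hx)
  obtain ⟨b3, b4⟩ := h.EH hx
  refine hr ⟨(w, v, c.ap x), hw, hS, a ▸ not_mem_par b2 hv, fun b => ?_,
    a ▸ mem_insert_self _ _, fun y hy => ?_⟩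
  · rw [← a, Cx.pa, cell_par hv] at b
    obtain ⟨u, hu, b5⟩ := face_par b1 b2 (h.step (ex_mem.2 hg)).1 (b ▸ subset_insert _ _)
      (Ne.symm hn)
    have := Cx.pa_lt b3.contr b4 hu
    rw [Cx.pa, ← show g = par x (c.ap x) u from b5] at this
    omega
  · obtain ⟨u, hu, b5, rfl⟩ := mem_slt.1 hy
    dsimp only at hu b5 ⊢
    rw [← a] at hu ⊢
    obtain ⟨b6, b7⟩ := (mem_par.1 hu).resolve_left b5
    rw [Cx.pa, par_par (show c.ap x ∉ x from b2) hv b7 b6]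
    exact (Cx.pa_rd b3.contr b4 b7).mono (by omega)

theorem unit (ha : B.CutW c X a) (hj : j ≤ d) (hf : f ∈ B.slot c (.ex (c.dp^[j] a)))
    (hS : f ∈ c.S) : f ∉ B.rt ∧ ∀ τ ∈ B.St c X, f ∈ B.slot c τ → τ = .ex (c.dp^[j] a) := by
  obtain ⟨h1, h2⟩ := tr2_cut ha
  obtain ⟨hg, hp, -⟩ := h.pl_spec h1 (i := j) (by omega)
  have hr := (h.cut ha).2.2 j hj
  generalize c.dp^[j] a = g at *
  obtain ⟨w, hw, rfl⟩ := mem_image.1 hf
  refine ⟨fun b => hp (.inl ((h.ok.root _ b).1 (mem_insert_self _ _))), fun τ hτ b => ?_⟩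
  by_contra hn
  have k1 := h.tr2_key hg hp (mem_insert_self _ _) hτ b hn
  cases τ with
  | ex x => exact hn (congrArg _ (h.tr2_ex hg hp hr hw hS (ex_mem.1 hτ) b))
  | si i =>
    have := rk_le (h.EH hg).1
    simp only [key, Cx.rk] at k1
    omega
  | tc g' =>
    obtain ⟨c1, c2, c3, -⟩ := h.tc (tc_mem.1 hτ)
    obtain ⟨⟨t1, t2, t3, -, t5, t6⟩, -⟩ := Cx.tw_spec c2 c3
    obtain ⟨v, hv, d1, d2⟩ := mem_slt.1 b
    rw [Cx.tf] at hv d2
    simp only [key] at k1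
    refine hr ⟨(w, v, (c.tw g').2.2), hw, hS, d2 ▸ not_mem_par t3 hv, fun b => ?_,
      d2 ▸ mem_par.2 (.inr ⟨d1.symm, t5⟩), fun y hy => ?_⟩
    · rw [d2, cell_par hv] at b
      obtain ⟨e1, e2, -⟩ := h.step (ex_mem.2 hg)
      obtain ⟨u, hu, e3⟩ := face_par e1 e2 (h.hS _ t2) (b ▸ subset_insert _ _)
        fun e3 => (h.EH hg).2 ((show c.pa g' _ = g from e3) ▸ t2)
      have e4 : c.pa g' (c.tw g').1 = c.pa g u := e3
      exact c3 (h.tr2_ex hg hp hr hu (e4 ▸ t2) c1 (mem_image.2 ⟨_, t1, e4⟩) ▸ hr)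
    · obtain ⟨u, hu, e1, rfl⟩ := mem_slt.1 hy
      dsimp only at hu e1 ⊢
      rw [d2] at hu ⊢
      rcases mem_par.1 hu with rfl | ⟨e2, e3⟩
      · rw [par_back t3 hv]
        exact rd_src t2
      · rw [par_par t3 hv e3 e2]
        exact (t6 _ (mem_slt.2 ⟨u, e3, e1, rfl⟩)).mono (by omega)

theorem head (hx : B.E c X x) (hp : 0 < B.pl c X x) : ¬ B.Inn c X x := by
  rintro ⟨y, hy, i, h0, hi, a⟩
  have r1 := h.tr2_rk hy hi.le
  rw [← a] at r1
  have cw : ∀ z, B.CutW c X z → ∃ e, c.Top e ∧ ∃ k < c.Q, c.rk z + k * (d + 1) = c.rk e :=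
    fun z hz => by
      obtain ⟨e, -, a2, k, a3, rfl, -⟩ := h.win hz.1
      exact ⟨e, a2.1.1, k, a3, (a2.1.2.rk a2.1.1.1 (tr2_idx a3 d.zero_le).le).2⟩
  rcases h.tr2_pl hy (by omega) with ⟨b1, b2⟩ | ⟨b1, b2, b3, b4, -⟩
  · obtain ⟨e', c1, k', -, c2⟩ := cw y b1
    have c3 : c.rk x + (k' * (d + 1) + i) = c.rk e' := by omega
    rcases h.tr2_pl hx hp with ⟨d1, -⟩ | ⟨d1, -⟩
    · obtain ⟨e, d2, k, -, d3⟩ := cw x d1
      exact h0.ne' (tr2_mod (by omega) (tr2_lev d2 c1 d3 c3))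
    · exact h0.ne' (tr2_mod (k := 0) (by omega) (tr2_lev d1 c1 (by omega) c3))
  · rcases h.tr2_pl hx hp with ⟨d1, -⟩ | ⟨d1, -⟩
    · obtain ⟨e, a1, a2, k, a3, a4, a5⟩ := h.win d1.1
      have d2 := tr2_idx a3 d.zero_le
      have d3 := (a2.1.2.rk a2.1.1.1 d2.le).2
      rw [add_zero] at d2 d3
      obtain rfl := (tr2_lev b1 a2.1.1 r1 (a4 ▸ d3)).eq_of_lt_of_lt (by omega) d2
      have d4 := h.back (x := e) (y := y) (j := 0) (i := k * (d + 1)) (fun l hl => by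
        rw [← a2.1.2.cf a2.1.1.1 (by omega)]
        exact ⟨h.tr2_win a1 a2 a3 a5 hl, _, a2.1.2 _ (by omega)⟩)
        (fun l hl => h.pl_spec hy (by omega))
        (by rw [zero_add, ← a, a4, a2.1.2.cf a2.1.1.1 d2.le])
      exact b2 ((show e = y from d4) ▸ a2)
    · exact h0.ne' ((tr2_lev (j := 0) b1 d1 r1 rfl).eq_of_lt_of_lt (by omega) h.Om_pos)

theorem tr2_top (he : c.Top e) (hc : B.CutW c X e) : c.Cmp e := by
  obtain ⟨e', -, a2, k, a3, a4, -⟩ := h.win hc.1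
  have d2 := tr2_idx a3 d.zero_le
  have d3 := (a2.1.2.rk a2.1.1.1 d2.le).2
  rw [add_zero] at d2 d3
  rw [(tr2_lev (j := 0) a2.1.1 he (a4 ▸ d3) rfl).eq_of_lt_of_lt d2 h.Om_pos,
    Cx.cf_zero a2.1.1.1.card] at a4
  exact a4 ▸ a2

theorem pl_top (he : B.E c X e) : (B.RN c X e → B.pl c X e = c.cpl e) ∧
    (RA c X e ∨ B.RT c X e → B.pl c X e = c.Om ∧ ¬ B.CutW c X e ∧ ¬ B.RN c X e) ∧
    (B.RN c X e → ¬ B.CutW c X e) ∧ (B.RT c X e → ¬ RA c X e) := by
  have a : B.RN c X e → ¬ B.CutW c X e := fun a b => a.2.1 (h.tr2_top a.1 b).1.2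
  refine ⟨fun b => by rw [pl, if_neg (a b), if_pos b], fun b => ?_, a, fun b b' => b.1.2.1 b'.1⟩
  have b1 : c.Compat e ∧ ¬ c.Cmp e := b.elim (fun b => ⟨b.1.1, b.1.nc⟩) fun b => ⟨b.1.1, b.1.2.2⟩
  have b2 : ¬ B.CutW c X e := fun b2 => b1.2 (h.tr2_top b1.1.1 b2)
  have b3 : ¬ B.RN c X e := fun b3 => b3.2.1 b1.1.2
  exact ⟨by rw [pl, if_neg b2, if_neg b3, if_pos b], b2, b3⟩

theorem tr2_same (he : c.Fr B.Rs e) (h1 : c.Compat e) (h2 : ¬ c.Cmp e) (h3 : j < c.Om)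
    (hy : B.E c X y) (h4 : c.Top y) (hi : i < B.pl c X y) (h5 : B.pl c X y ≤ c.Om)
    (h6 : c.cf e j = c.dp^[i] y) : e = y := by
  obtain rfl := (tr2_lev h4 h1.1 (h.tr2_rk hy hi.le)
    (h6 ▸ (h1.2.rk h1.1.1 h3.le).2)).eq_of_lt_of_lt (by omega) h3
  refine h.back (j := 0) (i := i) (fun l hl => ?_) (fun l hl => h.pl_spec hy (by omega))
    (by rw [zero_add, ← h6, h1.2.cf h1.1.1 h3.le])
  rw [← h1.2.cf h1.1.1 (by omega)]
  exact ⟨.inl (h.chain he h1.1 h2 h1.2 le_rfl (by omega)), _, h1.2 _ (by omega)⟩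

theorem tc_par (hg : B.Tc c X g) (hn : ¬ ∃ e, B.E c X e ∧ B.RT c X e ∧ g = c.rs e) :
    B.pl c X g = 0 ∧ ¬ B.Abs c X g := by
  obtain ⟨a1, a2, a3, e, a4, a5, a6⟩ := h.tc hg
  have a7 : c.Compat e ∧ ¬ c.Cmp e ∧ c.ri e < c.Om :=
    a6.elim (fun b => ⟨b.1, b.2.2, b.ri.1⟩) fun b => ⟨b.1.1, b.1.nc, b.1.ri.1⟩
  have key : ∀ y, B.E c X y → ∀ i < B.pl c X y, g ≠ c.dp^[i] y := fun y hy i hi b => by
    rcases h.tr2_pl hy (by omega) with ⟨b1, b2⟩ | ⟨b1, -, -, b4, -, b5⟩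
    · exact a3 (b ▸ (h.cut b1).2.2 i (by omega))
    · obtain rfl := h.tr2_same a4 a7.1 a7.2.1 a7.2.2 hy b1 hi b4 (a5.symm.trans b)
      rcases b5 with b5 | b5 | b5
      · exact b5.2.1 a7.1.2
      · exact a6.elim (fun b6 => b6.2.1 b5.1) fun b6 => b5.2 (a5 ▸ b6.2)
      · exact hn ⟨e, hy, b5, a5⟩
  refine ⟨Nat.eq_zero_of_not_pos fun b => key g a1 0 b rfl, ?_⟩
  rintro (⟨y, hy, i, -, hi, b⟩ | ⟨a, b, rfl | b1⟩)
  · exact key y hy i hi b
  · exact (h.cut b).2.1 a1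
  · classical
    obtain ⟨j, -, b2⟩ := mem_biUnion.1 b1
    exact a2.notS (mem_filter.1 b2).2

theorem rt_uniq (he : B.E c X e) (he' : B.E c X e') (h1 : B.RT c X e) (h2 : B.RT c X e')
    (h3 : c.rs e = c.rs e') : e = e' := by
  have a := ((h.pl_top he').2.1 (.inr h2)).1
  exact h.tr2_same (h.top he h1.1.1.1) h1.1.1 h1.1.2.2 h1.1.ri.1 he' h2.1.1.1
    (a ▸ h2.1.ri.1) a.le (h3.trans (h2.1.1.2.cf h2.1.1.1.1 h2.1.ri.1.le))

end Good

end Base

end Pool.Agent.MP_8f9e6e_pr.J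

end

section

/-! Windows that are cut and dense chains. -/

open Finset

namespace Pool.Agent.MP_8f9e6e_pr.J.Base.Good

variable {n d : ℕ} [NeZero n] {B : Base n} {c : Cx n d} {X : Set (Bool × Fc n)}
  {Vi : Finset (Fc n)} {δ γ : ℕ} {T : Finset (Finset (Fin n))} {e a a' : Fc n}

theorem cut1_cd {α : Type} [Fintype α] {P Q : α → Prop} {z : α} (h1 : ∀ x, P x → Q x) (h2 : Q z)
    (h3 : ¬ P z) : cd P < cd Q := by
  classical
  unfold cd
  exact card_lt_card ⟨fun x hx => mem_filter.2 ⟨mem_univ _, h1 x (mem_filter.1 hx).2⟩,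
    fun f => h3 (mem_filter.1 (f (mem_filter.2 ⟨mem_univ _, h2⟩))).2⟩

theorem cut1_pl (hc : ¬ B.CutW c X e) : c.Cpt e (B.pl c X e) := by
  rw [pl, if_neg hc]
  split_ifs with h1 h2
  · exact Cx.cpt_cpl
  · exact h2.elim (·.1.1.2) (·.1.1.2)
  · exact fun i hi => absurd hi i.not_lt_zero

theorem cut1_low {R : Finset (Fc n)} {F : Set (Fc n)} (hF : ∀ f, c.Lf R f → f ∉ F) {k : ℕ}
    (hk : k ≤ c.r0) : ∀ y, (y ∈ c.S → c.Lf R y) → (y ∉ c.S → c.Fr R y) → Rd d c.S k y →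
      Rd d (c.S \ F) k y := by
  induction k with
  | zero => exact fun y h1 _ h3 => ⟨h3, hF y (h1 h3)⟩
  | succ k ih =>
    intro y h1 h2 h3
    by_cases hy : y ∈ c.S
    · exact rd_src ⟨hy, hF y (h1 hy)⟩
    obtain ⟨b1, b2, b3, -⟩ := ap_spec h3.contr hy
    refine .inr ⟨b1, _, b2, fun w hw => ih (by omega) (c.pa y w)
      (fun f => ⟨f, .inr ⟨y, h2 hy, w, hw, rfl⟩⟩) (fun f => ?_)
      ((b3 w hw).mono (by have := rk_le h3; omega))⟩
    obtain ⟨-, x, a1, a2⟩ := h2 hy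
    exact ⟨f, x, a1, a2.tail ⟨hy, f, .inl ⟨fun b => b.1.1.1.2 (h3.mono hk), w, hw, rfl⟩⟩⟩

variable (h : B.Good c X Vi δ T γ)
include h

theorem inj (he : B.E c X e) (ht : c.Top e) (hc : ¬ B.CutW c X e) :
    Inj (c.chn e) (B.pl c X e + d + 1) := by
  have hp := cut1_pl hc
  have k1 : ∀ i j, i < j → j < B.pl c X e + d + 1 → c.chn e i ≠ c.chn e j := by
    intro i j hij hj b
    by_cases hd : j ≤ d
    · rw [Cx.chn_vx hd, Cx.chn_vx (by omega)] at b
      exact hij.ne (vx_inj ht.1.card (by omega) hd b)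
    obtain ⟨k, rfl⟩ : ∃ k, j = k + d + 1 := ⟨j - d - 1, by omega⟩
    obtain ⟨a1, a2, -⟩ := h.pl_spec he (show k < _ by omega)
    rw [← hp.cf ht.1 (by omega)] at a1 a2
    have a3 := (hp.rk ht.1 (show k ≤ _ by omega)).2
    rw [Cx.chn_ap] at b
    by_cases hi : i ≤ d
    · have := h.trace (ex_mem.2 a1) a2 (ex_mem.2 he) (show c.ap (c.cf e k) ∈ e by
        rw [← b, Cx.chn_vx hi]; exact vx_mem ht.1.card hi)
      simp only [key] at this
      omega
    obtain ⟨l, rfl⟩ : ∃ l, i = l + d + 1 := ⟨i - d - 1, by omega⟩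
    obtain ⟨a4, -, -⟩ := h.pl_spec he (show l < _ by omega)
    rw [← hp.cf ht.1 (by omega)] at a4
    have a5 := (hp.rk ht.1 (show l ≤ _ by omega)).2
    rw [Cx.chn_ap] at b
    refine a2 (.inr ⟨_, ex_mem.2 a4, fun f => ?_, b⟩)
    rw [Stp.ex.inj f] at a5
    omega
  intro i hi j hj b
  rcases lt_trichotomy i j with f | f | f
  · exact absurd b (k1 i j f hj)
  · exact f
  · exact absurd b.symm (k1 j i f hi)

theorem dense (he : B.E c X e) (hA : RA c X e) :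
    ∃ f ∈ sU d (c.chn e) c.Om, Tch (Rd d (c.S \ B.F c X) c.r0) f := by
  classical
  obtain ⟨a1, a2⟩ := hA.1.ri
  obtain ⟨t1, t2, t3, -, t5, t6⟩ := a2.tw
  have k1 : ∀ f, c.Lf (c.ts (c.rs e)) f → f ∉ (B.F c X : Set (Fc n)) := fun f b1 b2 => by
    refine hA.2 (h.fix ▸ .inr ⟨rfl, e, h.top he hA.1.1.1, hA.1, rfl, .inr ⟨f, b1, ?_⟩⟩)
    rw [Set.sdiff_singleton_eq_self hA.2]
    exact (mem_filter.1 (mem_coe.1 b2)).1
  refine ⟨c.tf (c.rs e), mem_biUnion.2 ⟨_, mem_range.2 a1, ?_⟩, _, t3, _, t5, fun y hy =>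
    cut1_low k1 le_rfl y (fun f => ⟨f, .inl hy⟩) (fun f => ⟨f, y, hy, .refl⟩) (t6 y hy)⟩
  rw [Cx.su_chn, ← (hA.1.1.2 _ a1).un]
  exact mem_filter.2 ⟨mem_image_of_mem _ t1, t2⟩

theorem cut1_win (ha : B.CutW c X a) : ∃ e s, c.Fr B.Rs e ∧ c.Cmp e ∧ s + (d + 1) ≤ c.Om ∧
    ∀ j ≤ d + 1, c.dp^[j] a = c.cf e (s + j) := by
  obtain ⟨e, h1, h2, i, hi, rfl, -⟩ := h.win ha.1
  have b : i * (d + 1) + (d + 1) ≤ c.Om := by
    rw [← Nat.succ_mul]
    exact Nat.mul_le_mul_right _ hi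
  exact ⟨e, _, h1, h2, b, fun j hj => (h2.1.2.iter (by omega)).symm⟩

theorem cut_code (ha : B.CutW c X a) : ∃ π σ : Fin (d + 1) → Fin (d + 1), ∀ m,
    sU d (cp (a, π, m, σ) (c.dp^[d + 1] a)) (d + 1) = B.cU c a := by
  obtain ⟨e, s, -, h2, h3, h4⟩ := h.cut1_win ha
  have b1 : a = c.cf e s := h4 0 (by omega)
  have b2 := h4 _ le_rfl
  have b3 := fun i hi => (h2.1.2.rk h2.1.1.1 (i := i) hi).1.card
  refine ⟨fun k => psn d a (c.chn e (s + k)),
    fun k => psn d (c.dp^[d + 1] a) (c.chn e (s + (d + 1) + k)), fun m => ?_⟩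
  rw [sU_congr (p' := fun i => c.chn e (s + i)) fun i hi => ?_]
  · refine biUnion_congr rfl fun j hj => ?_
    have := mem_range.1 hj
    rw [su_shift, Cx.su_chn, ← (h2.1.2 _ (by omega)).un, h4 j (by omega)]
    rfl
  simp only [cp, ext]
  split_ifs with f
  · rw [fz, dif_pos f]
    exact vx_psn (b1 ▸ b3 s (by omega)) (b1 ▸ mem_sf (Nat.lt_succ_iff.1 f))
  · rw [fz, dif_pos (by omega), b2]
    exact (vx_psn (b3 _ h3) (mem_sf (by dsimp only; omega))).trans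
      (congrArg _ (by dsimp only; omega))

theorem cut_end {c3 : ℝ} {a2 : ℕ} (hw : c.World c3 a2) (ha : B.CutW c X a) :
    c.D (c.dp^[d + 1] a) ∧ pos d c.r0 c.S (c.dp^[d + 1] a) < a2 ∧
      ∀ f ∈ B.cU c a, ¬ Tch (Rd d c.S (c.rk (c.dp^[d + 1] a) - 1)) f := by
  classical
  obtain ⟨e, s, h1, h2, h3, h4⟩ := h.cut1_win ha
  rw [h4 _ le_rfl]
  obtain ⟨b1, b2⟩ := h2.1.2.rk h2.1.1.1 h3
  have b3 : c.rk e ≤ c.hh := rk_le (h.EH (.inl h1)).1
  have b4 := h2.1.1.1.lt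
  obtain ⟨-, w2, w3⟩ := hw.resolve_left (by omega)
  have b5 : c.rk e ≤ c.ρ := by
    by_contra! f
    obtain ⟨t, ht⟩ := Nat.exists_eq_add_of_lt f
    have b6 : c.lev e = 0 := h2.1.1.2
    obtain ⟨o, ho⟩ := Nat.exists_eq_succ_of_ne_zero h.Om_pos.ne'
    rw [Cx.lev, show c.rk e + (c.Om - 1) * c.ρ = t + 1 + c.Om * c.ρ by
      rw [ht, ho, Nat.succ_sub_one, Nat.succ_mul]; omega, Nat.add_mul_mod_self_left,
      Nat.mod_eq_of_lt (by omega)] at b6
    omega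
  refine ⟨b1, lt_of_lt_of_le (cut1_cd (z := c.cf e (s + (d + 1))) (fun x hx => ?_)
    ⟨b1.rd.mono (by omega), b1.2⟩ fun f => ?_) w2, fun f hf => ?_⟩
  · refine ⟨(rd_rk hx.1.1).mono ?_, hx.1.2⟩
    have := hx.2
    unfold Bef Cx.rk at *
    omega
  · have := f.2
    unfold Bef at this
    omega
  obtain ⟨j, hj, hf⟩ := mem_biUnion.1 hf
  have hj := mem_range.1 hj
  rw [h4 j hj.le] at hf
  obtain ⟨hf, hS⟩ := mem_filter.1 hf
  obtain ⟨w, w1, rfl⟩ := mem_image.1 hf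
  rintro ⟨u, u1, o, o1, u2⟩
  have s1 := h2.1.2 (s + j) (by omega)
  have s2 := (h2.1.2.rk h2.1.1.1 (show s + j ≤ _ by omega)).2
  have s3 := s1.rk
  have s4 := b1.lt
  by_cases f : insert u (c.pa (c.cf e (s + j)) w) = insert (c.ap (c.cf e (s + j))) (c.cf e (s + j))
  · have k : ∀ y, c.D y → y ⊆ insert (c.ap (c.cf e (s + j))) (c.cf e (s + j)) →
        c.rk (c.cf e (s + (d + 1))) ≤ c.rk y → y = par (c.pa (c.cf e (s + j)) w) u o := by
      intro y y1 y2 y3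
      obtain ⟨v, v1, v2⟩ := face_par (h.hS _ hS) u1 y1.card (f ▸ y2) fun b => y1.notS (b ▸ hS)
      by_contra b
      have := rk_le (u2 y (mem_slt.2 ⟨v, v1, fun q => b (q ▸ v2), v2⟩))
      unfold Cx.rk at *
      omega
    rw [k _ s1.D (s1.dp ▸ par_sub) (by omega), ← k _ s1.2.1 (subset_insert _ _) (by omega)] at s3
    omega
  · exact h2.2 (s + j) (by omega) ⟨(w, u, o),
      Cx.Tw.mono ⟨w1, hS, u1, f, o1, u2⟩ (by omega)⟩

theorem cut2_pl (ha : B.CutW c X a) {i : ℕ} (hi : i < d + 1) : B.E c X (c.dp^[i] a) ∧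
    ¬ B.Shared c X (.ex (c.dp^[i] a)) ∧ ∃ w, c.SS (c.dp^[i] a) w :=
  h.pl_spec (h.cut ha).1 (by rwa [pl, if_pos ha])

theorem cut2_le (ha : B.CutW c X a) (ha' : B.CutW c X a') {j k : ℕ} (hj : k + j ≤ d + 1)
    (hk : k ≤ d) (e : c.dp^[j] a = c.dp^[k + j] a') : a = a' ∧ k = 0 := by
  have h1 := h.back (fun m hm => ⟨(h.cut2_pl ha (by omega)).1, (h.cut2_pl ha (by omega)).2.2⟩)
    (fun m hm => h.cut2_pl ha' (by omega)) e
  obtain rfl | h2 := k.eq_zero_or_pos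
  · exact ⟨h1, rfl⟩
  · exact absurd ⟨a', (h.cut ha').1, k, h2, by rw [pl, if_pos ha']; omega, h1⟩
      (h.head (h.cut ha).1 (by rw [pl, if_pos ha]; omega))

theorem cut2_uniq (ha : B.CutW c X a) (ha' : B.CutW c X a') {j j' : ℕ} (hj : j < d + 1)
    (hj' : j' < d + 1) {f : Fc n} (hS : f ∈ c.S) (h1 : f ∈ B.slot c (.ex (c.dp^[j] a)))
    (h2 : f ∈ B.slot c (.ex (c.dp^[j'] a'))) : a = a' ∧ j = j' := by
  have e := Stp.ex.inj
    ((h.unit ha (by omega) h1 hS).2 _ (ex_mem.2 (h.cut2_pl ha' hj').1) h2)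
  rcases le_total j j' with c | c
  · obtain ⟨k, rfl⟩ := Nat.exists_eq_add_of_le' c
    exact (h.cut2_le ha ha' (by omega) (by omega) e.symm).imp_right fun a => by omega
  · obtain ⟨k, rfl⟩ := Nat.exists_eq_add_of_le' c
    exact (h.cut2_le ha' ha (by omega) (by omega) e).imp Eq.symm fun a => by omega

theorem cut_card : (B.Cuts c X).biUnion (B.cU c) ⊆ B.F c X ∧
    (B.F0 c X).card + d * (d + 1) * (B.Cuts c X).card = (B.F c X).card := by
  classical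
  have hm : ∀ {a}, a ∈ B.Cuts c X ↔ B.CutW c X a := by simp [Cuts]
  have hu : ∀ {a f}, f ∈ B.cU c a ↔
      ∃ j < d + 1, f ∈ B.slot c (.ex (c.dp^[j] a)) ∧ f ∈ c.S := by
    simp only [cU, mem_biUnion, mem_range, mem_filter, implies_true]
  have h1 : (B.Cuts c X).biUnion (B.cU c) ⊆ B.F c X := fun f hf => by
    obtain ⟨a, ha, hf⟩ := mem_biUnion.1 hf
    obtain ⟨j, hj, h1, h2⟩ := hu.1 hf
    exact mem_filter.2 ⟨mem_union_right _
      (mem_biUnion.2 ⟨_, ex_mem.2 (h.cut2_pl (hm.1 ha) hj).1, h1⟩), h2⟩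
  have h2 : ∀ a ∈ B.Cuts c X, (B.cU c a).card = d * (d + 1) := fun a ha => by
    rw [cU, card_biUnion, sum_const_nat (m := d), card_range, mul_comm]
    · intro j hj
      obtain ⟨w, hw⟩ := (h.cut2_pl (hm.1 ha) (mem_range.1 hj)).2.2
      exact (congrArg card hw.un).trans (slt_card hw.2.1.card hw.2.1.ap hw.1)
    · intro j hj j' hj' e
      exact disjoint_left.2 fun f a1 a2 => e (h.cut2_uniq (hm.1 ha) (hm.1 ha) (mem_range.1 hj)
        (mem_range.1 hj') (mem_filter.1 a1).2 (mem_filter.1 a1).1 (mem_filter.1 a2).1).2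
  refine ⟨h1, ?_⟩
  rw [← card_sdiff_add_card_eq_card h1, F0, card_biUnion, sum_const_nat h2, mul_comm]
  intro a ha a' ha' e
  refine disjoint_left.2 fun f a1 a2 => e ?_
  obtain ⟨j, hj, b1, b2⟩ := hu.1 a1
  obtain ⟨j', hj', b3, -⟩ := hu.1 a2
  exact (h.cut2_uniq (hm.1 ha) (hm.1 ha') hj hj' b2 b1 b3).1

theorem cut_L :
    (B.L c X).card = (B.F c X).card + (B.T0 c X).card + (B.Cuts c X).card := by
  classical
  have hm : ∀ {a}, a ∈ B.Cuts c X ↔ B.CutW c X a := by simp [Cuts]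
  have h1 : (B.L c X).filter (· ∈ c.S) = B.F c X := by
    ext x
    simp only [L, F, mem_filter]
    exact ⟨fun a => ⟨a.1.1, a.2⟩, fun a => ⟨⟨a.1, fun e => (h.EH e).2 a.2⟩, a.2⟩⟩
  have h2 : ((B.L c X).filter (· ∉ c.S)).filter (· ∈ (B.Cuts c X).image c.dp^[d + 1]) =
      (B.Cuts c X).image c.dp^[d + 1] := by
    refine filter_mem_eq_inter.trans (inter_eq_right.2 fun x hx => ?_)
    obtain ⟨a, ha, rfl⟩ := mem_image.1 hx
    obtain ⟨h1, -, w, hw⟩ := h.cut2_pl (hm.1 ha) d.lt_succ_self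
    refine mem_filter.2 ⟨mem_filter.2 ⟨?_, (h.cut (hm.1 ha)).2.1⟩, ?_⟩ <;>
      rw [Function.iterate_succ_apply']
    · exact mem_union_right _ (mem_biUnion.2 ⟨_, ex_mem.2 h1, mem_image.2 ⟨w, hw.1, hw.dp.symm⟩⟩)
    · exact hw.D.notS
  have h3 := card_filter_add_card_filter_not (s := B.L c X) (· ∈ c.S)
  have h4 := card_filter_add_card_filter_not (s := (B.L c X).filter (· ∉ c.S))
    (· ∈ (B.Cuts c X).image c.dp^[d + 1])
  rw [h2, card_image_of_injOn fun a ha a' ha' e => (h.cut2_le (hm.1 ha) (hm.1 ha') (k := 0)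
    (j := d + 1) (by omega) d.zero_le (by rwa [zero_add])).1, filter_filter] at h4
  rw [h1] at h3
  have h5 : (B.T0 c X).card = ((B.L c X).filter fun x =>
      x ∉ c.S ∧ x ∉ (B.Cuts c X).image c.dp^[d + 1]).card := by
    rw [T0]
  omega

theorem rep_eq : B.rep c X + (B.L c X).card = B.rt.card + d * (B.St c X).card := by
  classical
  set E : Finset (Stp n) := (univ.filter (B.E c X)).image .ex with hE
  have h1 : ∀ σ ∈ B.St c X, (B.slot c σ).card = d + if σ ∈ E then 1 else 0 := fun σ hσ => by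
    obtain ⟨a1, a2, -⟩ := h.step hσ
    cases σ with
    | ex x =>
      rw [if_pos (mem_image_of_mem _ (mem_filter.2 ⟨mem_univ _, ex_mem.1 hσ⟩))]
      exact (card_image_of_injOn fun a ha b _ e => par_inj a2 ha e).trans a1
    | tc g =>
      obtain ⟨-, b1, b2, -⟩ := h.tc (tc_mem.1 hσ)
      rw [if_neg (by simp [hE])]
      exact slt_card a1 a2 (Cx.tw_spec b1 b2).1.2.2.2.2.1
    | si i =>
      rw [if_neg (by simp [hE])]
      exact slt_card a1 a2 (h.ok.site i (si_mem.1 hσ)).2.2.2.1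
  have h2 : (B.St c X).filter (· ∈ E) = E :=
    filter_mem_eq_inter.trans (inter_eq_right.2 fun σ hσ => by
      obtain ⟨x, hx, rfl⟩ := mem_image.1 hσ
      exact ex_mem.2 (mem_filter.1 hx).2)
  have h3 : (B.Occ c X).filter (B.E c X) = univ.filter (B.E c X) := by
    ext x
    simp only [mem_filter, mem_univ, true_and]
    exact ⟨fun a => a.2, fun a => ⟨h.occ a, a⟩⟩
  have h4 := card_filter_add_card_filter_not (s := B.Occ c X) (B.E c X)
  have h5 : (B.Occ c X).card ≤ B.rt.card + ∑ σ ∈ B.St c X, (B.slot c σ).card :=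
    (card_union_le _ _).trans (Nat.add_le_add_left card_biUnion_le _)
  have h6 : ∑ σ ∈ B.St c X, (B.slot c σ).card =
      d * (B.St c X).card + (univ.filter (B.E c X)).card := by
    rw [sum_congr rfl h1, sum_add_distrib, ← card_filter, h2, sum_const, smul_eq_mul, mul_comm,
      card_image_of_injective _ fun _ _ => Stp.ex.inj]
  have h7 : (B.L c X).card = ((B.Occ c X).filter fun x => ¬ B.E c X x).card := by rw [L]
  rw [h3] at h4
  rw [rep]
  omega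

end Pool.Agent.MP_8f9e6e_pr.J.Base.Good

end

section

/-! The productions used by the steps of an explanation. -/

open Finset

namespace Pool.Agent.MP_8f9e6e_pr.J

variable {n d : ℕ} [NeZero n] {x y g : Fc n} {i : ℕ} {u w o : Fin n}

theorem mem_mark {a : Oc n d} {A : Op n d} {z : Oc n d × Multiset (Tk n d)} (h : z ∈ A) :
    (a + z.1, z.2) ∈ mark a A := Multiset.mem_map_of_mem _ h

theorem mem_stp {B0 : Finset (Fin n)} {ps : Finset (Pd d)} {ex : Fin n → Op n d} {τ : Pd d}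
    {z : Oc n d × Multiset (Tk n d)} (P : Prop) [Decidable P] (h1 : τ ∈ ps) (h2 : z ∈ ex u)
    (h3 : P → u ∈ B0) : ((if P then oOl else oFr 1) + z.1, kids x u τ + z.2) ∈ stp B0 x ps ex := by
  rw [stp, Multiset.mem_add]
  split_ifs with h
  · exact .inr (mem_mark (z := (z.1, kids x u τ + z.2)) (Multiset.mem_bind.2 ⟨u, h3 h,
      Multiset.mem_bind.2 ⟨τ, h1, Multiset.mem_map_of_mem _ h2⟩⟩))
  · exact .inl (mem_mark (z := (z.1, kids x u τ + z.2)) (Multiset.mem_bind.2 ⟨u, mem_univ u,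
      Multiset.mem_bind.2 ⟨τ, h1, Multiset.mem_map_of_mem _ h2⟩⟩))

namespace Cx

open Classical in
/-- The plain type of a face. -/
noncomputable def bt (c : Cx n d) (y : Fc n) : Ty d :=
  if c.A y then .E (c.rk y) else .D (c.lev y) none

/-- The production of a canonical step. -/
noncomputable def pdx (c : Cx n d) (x : Fc n) : Pd d := fun i => some (c.bt (c.pa x (vx x i)))

/-- The production of a probe. -/
noncomputable def pds (c : Cx n d) (g : Fc n) (u o : Fin n) : Pd d :=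
  fun i => if vx g i = o then none else some (c.bt (par g u (vx g i)))

variable {c : Cx n d}

theorem prd_vx (h : x.card = d + 1) (i : Fin (d + 1)) : vx x i ∈ x :=
  vx_mem h (Nat.lt_succ_iff.1 i.2)

theorem prd_kids (h : g.card = d + 1) (hu : u ∉ g) :
    kids g u (c.pds g u o) = (slt g u o).val.map fun y => (y, c.bt y) := by
  have e : slt g u o = (univ.filter fun i : Fin (d + 1) => vx g i ≠ o).image
      fun i : Fin (d + 1) => par g u (vx g i) := by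
    ext y
    simp only [mem_slt, mem_image, mem_filter, mem_univ, true_and]
    exact ⟨fun ⟨w, a, b, e⟩ => ⟨psn d g w, by rwa [vx_psn h a], by rw [vx_psn h a, e]⟩,
      fun ⟨i, a, b⟩ => ⟨_, prd_vx h i, a, b.symm⟩⟩
  rw [e, image_val_of_injOn fun i _ j _ a => by
    rw [← psn_vx h i, par_inj hu (prd_vx h i) a, psn_vx h j], Multiset.map_map, filter_val, kids]
  generalize (univ : Finset (Fin (d + 1))).val = s
  induction s using Multiset.induction_on with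
  | empty => simp
  | cons i s ih =>
    rw [Multiset.cons_bind, ih, Multiset.filter_cons, Multiset.map_add]
    by_cases a : vx g i = o <;> simp [pds, a]

theorem kids_pdx (h : Contr d c.S x) (h' : x ∉ c.S) :
    kids x (c.ap x) (c.pdx x) = (x.image (c.pa x)).val.map fun y => (y, c.bt y) := by
  obtain ⟨h1, h2, -⟩ := ap_spec h h'
  have e : c.pdx x = c.pds x (c.ap x) (c.ap x) :=
    funext fun i => (if_neg (ne_of_mem_of_not_mem (prd_vx h1 i) h2)).symm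
  rw [e, prd_kids (u := c.ap x) h1 h2, slt, erase_eq_of_notMem (a := c.ap x) h2]
  rfl

theorem kids_pds (h : g.card = d + 1) (hu : u ∉ g) :
    kids g u (c.pds g u o) = (slt g u o).val.map fun y => (y, c.bt y) := by
  exact prd_kids h hu

omit [NeZero n] in
theorem prd_tB {k : ℕ} (h : c.A y) : some (c.bt y) ∈ tB d k ↔ c.rk y < k := by
  simp [bt, tB, h]

omit [NeZero n] in
theorem prd_A (h : c.A y) : some (c.bt y) ∈ tB d (c.r0 + 1) :=
  (prd_tB h).2 (Nat.lt_succ_of_le (rk_le h))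

omit [NeZero n] in
theorem prd_D (hO : 0 < c.Om) (h : ¬ c.A y) : some (c.bt y) ∈ tD d c.Om := by
  have : c.lev y < c.Om := Nat.mod_lt _ hO
  simpa [bt, tD, h]

omit [NeZero n] in
theorem prd_H (hO : 0 < c.Om) (y : Fc n) : some (c.bt y) ∈ tB d (c.r0 + 1) ∪ tD d c.Om :=
  mem_union.2 ((em (c.A y)).imp prd_A (prd_D hO))

theorem pdx_A (h : c.A x) (h' : x ∉ c.S) : c.pdx x ∈ pE d (c.rk x - 1) := by
  obtain ⟨h1, -, h2, w, h3, h4⟩ := ap_spec (Rd.contr h) h'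
  have h5 : c.rk x ≤ c.r0 := rk_le h
  have h6 : ∀ v ∈ x, c.A (c.pa x v) := fun v hv => (h2 v hv).mono ((Nat.sub_le _ _).trans h5)
  rw [pE, mem_sdiff, Fintype.mem_piFinset, Fintype.mem_piFinset]
  refine ⟨fun i => (prd_tB (h6 _ (prd_vx h1 i))).2 (Nat.lt_succ_of_le (rk_le (h2 _ (prd_vx h1 i)))),
    fun a => ?_⟩
  have h7 := (prd_tB (h6 _ (prd_vx h1 _))).1 (a (psn d x w))
  rw [vx_psn h1 h3] at h7
  unfold Cx.rk Cx.pa Cx.ap at *
  omega

theorem pdx_D (h : c.D x) (hi : i < c.Om) (hl : c.lev x = (i + 1) % c.Om) :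
    c.pdx x ∈ pD d c.r0 c.Om i none := by
  obtain ⟨h1, -, h2, w, h3, h4⟩ := ap_spec h.1 h.notS
  have h5 := h.lt
  have h6 : c.rk (c.pa x (vx x (psn d x w))) + 1 = c.rk x := by rw [vx_psn h1 h3]; exact h4
  have hO : 0 < c.Om := by omega
  rw [pD, Option.map_none, Option.toFinset_none, sdiff_empty, mem_union, mem_union]
  by_cases a : ∀ l : Fin (d + 1), c.A (c.pa x (vx x l))
  · refine .inl (.inl ?_)
    rw [pE, mem_sdiff, Fintype.mem_piFinset, Fintype.mem_piFinset]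
    refine ⟨fun l => prd_A (a l), fun b => ?_⟩
    have h7 := (prd_tB (a _)).1 (b (psn d x w))
    omega
  obtain ⟨k, hk⟩ := not_forall.1 a
  by_cases b : ∀ l : Fin (d + 1), l ≠ k → c.A (c.pa x (vx x l))
  · refine .inl (.inr (mem_biUnion.2 ⟨k, mem_univ k, Fintype.mem_piFinset.2 fun l => ?_⟩))
    split_ifs with e
    · subst e
      have h7 := pa_lt h.1 h.notS (prd_vx h1 l)
      have h8 := D.lt (c := c) ⟨(h2 _ (prd_vx h1 l)).contr, hk⟩
      have h9 : c.rk (c.pa x (vx x l)) + 1 = c.rk x := by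
        by_contra f
        have : c.rk _ ≤ c.r0 := rk_le (b (psn d x w) fun e => f (e ▸ h6))
        unfold Cx.pa Cx.ap at *
        omega
      have h10 : c.lev (c.pa x (vx x l)) = i :=
        Nat.ModEq.eq_of_lt_of_lt (Nat.ModEq.add_right_cancel' 1 ((lev_add h9).symm.trans hl))
          (Nat.mod_lt _ hO) hi
      simp [pdx, bt, hk, h10]
    · exact prd_A (b l e)
  · push Not at b
    obtain ⟨k', e, hk'⟩ := b
    refine .inr (mem_biUnion.2 ⟨(k', k), mem_offDiag.2 ⟨mem_univ _, mem_univ _, e⟩,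
      Fintype.mem_piFinset.2 fun l => ?_⟩)
    split_ifs with f
    · exact prd_D hO (f.elim (fun f => f ▸ hk') fun f => f ▸ hk)
    · exact prd_H hO _

theorem pdx_N (h : c.D x) (hi : i < c.Om) (hl : c.lev x = (i + 1) % c.Om) (hw : w ∈ x)
    (hs : ¬ c.SS x w) : c.pdx x ∈ pD d c.r0 c.Om i (some (psn d x w)) := by
  have h1 := pdx_D h hi hl
  rw [pD, Option.map_none, Option.toFinset_none, sdiff_empty] at h1
  rw [pD, Option.map_some, Option.toFinset_some, mem_sdiff, mem_singleton]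
  refine ⟨h1, fun e => hs ⟨hw, h, ⟨(pa_rd h.1 h.notS hw).contr, fun a => ?_⟩, fun v hv a => ?_⟩⟩
  · have h2 := congrFun e (psn d x w)
    have a' : c.A (c.pa x w) := a
    simp [pdx, p0, vx_psn h.card hw, bt, a'] at h2
  · have h2 := congrFun e (psn d x v)
    have h3 : psn d x v ≠ psn d x w := fun f => a (by rw [← vx_psn h.card hv, f, vx_psn h.card hw])
    have h4 := rd_rk (pa_rd h.1 h.notS hv).contr
    rw [pdx, p0, vx_psn h.card hv, bt, if_neg h3] at h2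
    split_ifs at h2
    · rwa [show J.rk d c.S _ = 0 from Ty.E.inj (Option.some.inj h2)] at h4
    · cases h2

theorem bt_tC (hO : 0 < c.Om) {k : Cl} (h : Contr d c.S y) (hA : k = .A → c.A y)
    (hD : k = .D → c.D y) : some (c.bt y) ∈ tC d c.r0 c.Om k := by
  cases k
  exacts [prd_A (hA rfl), prd_D hO (hD rfl).2, prd_H hO y]

theorem pds_qP (hO : 0 < c.Om) {k : Cl} (h : g.card = d + 1) (ho : o ∈ g)
    (hH : ∀ y ∈ slt g u o, Contr d c.S y) (hA : k = .A → ∀ y ∈ slt g u o, c.A y)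
    (hD : k = .D → ∃ y ∈ slt g u o, c.D y) : c.pds g u o ∈ qP d c.r0 c.Om (psn d g o) k := by
  have e : ∀ l : Fin (d + 1), vx g l = o ↔ l = psn d g o := fun l =>
    ⟨fun a => by rw [← a, psn_vx h], fun a => by rw [a, vx_psn h ho]⟩
  cases k
  · refine Fintype.mem_piFinset.2 fun l => ?_
    rw [pds]
    simp only [e]
    split_ifs with a
    · exact mem_singleton_self _
    · exact prd_A (hA rfl _ (mem_slt.2 ⟨_, prd_vx h l, mt (e l).1 a, rfl⟩))
  · obtain ⟨y, a, b⟩ := hD rfl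
    obtain ⟨v, a1, a2, rfl⟩ := mem_slt.1 a
    refine mem_biUnion.2 ⟨psn d g v, mem_erase.2 ⟨fun f => a2 (by
      rw [← (e _).2 f, vx_psn h a1]), mem_univ _⟩, Fintype.mem_piFinset.2 fun l => ?_⟩
    rw [pds]
    simp only [e]
    split_ifs with f f'
    · exact mem_singleton_self _
    · rw [f', vx_psn h a1]
      exact prd_D hO b.2
    · exact prd_H hO _
  · refine Fintype.mem_piFinset.2 fun l => ?_
    rw [pds]
    simp only [e]
    split_ifs with a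
    · exact mem_singleton_self _
    · exact prd_H hO _

end Cx

end Pool.Agent.MP_8f9e6e_pr.J

end
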