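import Pool.Agent.MP_8f9e6e_pr.Jump.P4
import Pool.Agent.MP_8f9e6e_pr.Jump.P1

attribute [-instance] AddQuantale.instAddLeftMono NonUnitalNonAssocSemiring.toAddCommMonoid
  SubNegMonoid.toAddMonoid Semiring.toAddCommMonoid AddMonoidWithOne.toAddMonoid
  IdemSemiring.toCanonicallyOrderedAdd NumberField.to_charZero FiniteField.instGrindPowIdentity
  Group.IsPerfect.subsingleton_of_isMulCommutative Nontrivial.to_nonempty
  SemilinearMapClass.toAddHomClass RKHS.instFunLike MonoidWithZeroHomClass.toZeroHomClass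
  CompletePartialOrder.toPartialOrder Field.toGrindField AddQuantale.instAddRightMono
  Quantale.instMulRightMono instCoeTCOfCoe AddCommGroupWithOne.toAddGroupWithOne
  AddCommGroup.toAddCommMonoid NormedRing.toRing bot_nonempty CategoryTheory.FinCategory.fintypeObj
  CommRing.toRing DivisionRing.toRing NonUnitalNonAssocSemiring.toMulZeroClass
  CategoryTheory.Limits.Concrete.instUniqueToTypeTerminal

/-! The code of an explanation. -/

section

/-! The system of keys of an explanation. -/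

open Finset

namespace Pool.Agent.MP_8f9e6e_pr.J

theorem der_keysF {T O K : Type} [AddCommMonoid O] [DecidableEq K]
    {op : T → Multiset (O × Multiset T)} (Ks : Finset K) (tk : K → T) (kc : K → Finset K)
    (rk : K → ℕ) (R : Finset K) (rp : O) (P : K → O → Prop)
    (h1 : ∀ k ∈ Ks, ∃ o, (o, (kc k).val.map tk) ∈ op (tk k) ∧ P k o)
    (h2 : ∀ k ∈ Ks, ∀ k' ∈ kc k, k' ∈ Ks ∧ rk k' < rk k) (h3 : R ⊆ Ks)
    (h4 : ∀ k ∈ Ks, k ∈ R ∨ ∃ k' ∈ Ks, k ∈ kc k')
    (h5 : ∀ k ∈ Ks, (rp, 0) ∈ op (tk k) ∨ ((k ∈ R → ∀ k' ∈ Ks, k ∉ kc k') ∧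
      ∀ a ∈ Ks, ∀ b ∈ Ks, k ∈ kc a → k ∈ kc b → a = b)) :
    ∃ (ko : K → O) (r : ℕ), (∀ k ∈ Ks, P k (ko k)) ∧
      Der op (R.val.map tk) (∑ k ∈ Ks, ko k + r • rp) := by
  choose! ko a1 a2 using h1
  obtain ⟨r, hr⟩ := der_keys Ks tk ko (fun k => (kc k).val) rk R.val rp a1 h2 h3 h4
    fun k hk h => (h5 k hk).resolve_right fun ⟨b1, b2⟩ => by
      have e : ∀ A : Finset K, A.val.count k = if k ∈ A then 1 else 0 := fun A =>
        Multiset.count_eq_of_nodup A.nodup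
      rw [Multiset.count_add, Multiset.count_sum', sum_congr rfl fun a _ => e (kc a), e,
        ← card_filter] at h
      have e1 : (Ks.filter fun a => k ∈ kc a).card ≤ 1 := card_le_one.2 fun a ha b hb =>
        b2 a (mem_filter.1 ha).1 b (mem_filter.1 hb).1 (mem_filter.1 ha).2 (mem_filter.1 hb).2
      split_ifs at h with e2
      · rw [filter_false_of_mem (b1 e2)] at h
        simp at h
      · omega
  exact ⟨ko, r, a2, hr⟩

variable {n d : ℕ}

namespace Base

section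

variable (B : Base n)

/-- The next step at the same site. -/
def sib (k i : ℕ) : Prop :=
  B.sty = none ∧ k < i ∧ i < B.ns ∧ B.g i = B.g k ∧ ∀ j, k < j → j < i → B.g j ≠ B.g k

/-- The first step at the site reached. -/
def con (k i : ℕ) : Prop :=
  B.sty = none ∧ k < i ∧ i < B.ns ∧ B.g i = B.out k ∧ (∀ j < i, B.g j ≠ B.g i) ∧
    ∀ j < k, B.out j ≠ B.g i

open Classical in
/-- The children of a site step. -/
noncomputable def sch (k : ℕ) : Finset ℕ := (range B.ns).filter fun i => B.con k i ∨ B.sib k i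

variable {B} {i j k : ℕ}

theorem mem_sch : i ∈ B.sch k ↔ B.con k i ∨ B.sib k i := by
  classical
  rw [sch, mem_filter, mem_range]
  exact ⟨fun h => h.2, fun h => ⟨h.elim (fun h => h.2.2.1) fun h => h.2.2.1, h⟩⟩

theorem sib_uniq (h : B.sib k i) (h' : B.sib k j) : i = j := by
  unfold sib at h h'
  grind

theorem sch_par (h : i ∈ B.sch k) (h' : i ∈ B.sch j) : k = j := by
  rw [mem_sch] at h h'
  unfold sib con at h h'
  grind

theorem sch_start (h : i ∈ B.sch k) : ¬ B.Start i := by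
  rw [mem_sch] at h
  unfold sib con at h
  unfold Start
  grind

theorem sch_ex (hi : i < B.ns) (h : ¬ B.Start i) : ∃ k < i, i ∈ B.sch k := by
  classical
  obtain ⟨h1, h2⟩ := not_or.1 h
  rw [not_not] at h1
  by_cases a : ∃ k < i, B.g k = B.g i
  · obtain ⟨k, a1, a2⟩ := exists_max_image ((range i).filter fun k => B.g k = B.g i) id
      (a.imp fun k b => by simpa using b)
    simp only [mem_filter, mem_range, id] at a1 a2
    exact ⟨k, a1.1, mem_sch.2 (.inr ⟨h1, a1.1, hi, a1.2.symm, fun j b1 b2 b3 =>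
      (a2 j ⟨b2, b3.trans a1.2⟩).not_gt b1⟩)⟩
  · have b : ∃ k, k < i ∧ B.out k = B.g i := by grind
    obtain ⟨b1, b2⟩ := Nat.find_spec b
    exact ⟨_, b1, mem_sch.2 (.inl ⟨h1, b1, hi, b2.symm, fun j c1 c2 => a ⟨j, c1, c2⟩,
      fun j c1 c2 => Nat.find_min b c1 ⟨c1.trans b1, c2⟩⟩)⟩

open Classical in
theorem sch_exP [NeZero n] {l : Fin (d + 1)} (hl : vx (B.g k) l = B.o k) :
    (if ∃ i, B.sib k i then oMk else 0, (B.sch k).val.map fun i => (B.g i, Ty.P)) ∈
      exP (d := d) (B.g k) l (B.u k) := by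
  have u1 : ∀ i j, B.con k i → B.con k j → i = j := by unfold con; grind
  have u2 : ∀ i j, B.con k i → B.sib k j → i ≠ j := by unfold con sib; grind
  rw [exP, hl]
  by_cases a : ∃ i, B.con k i <;> by_cases b : ∃ j, B.sib k j
  · obtain ⟨i, a⟩ := a
    rw [if_pos b]
    obtain ⟨j, b⟩ := b
    have : B.sch k = cons i {j} (by simpa using u2 i j a b) := by
      ext m
      rw [mem_sch, mem_cons, mem_singleton]
      exact ⟨Or.imp (u1 _ _ · a) (sib_uniq · b), Or.imp (· ▸ a) (· ▸ b)⟩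
    rw [this, cons_val, Multiset.map_cons]
    simp [a.2.2.2.1, b.2.2.2.1, out]
  · obtain ⟨i, a⟩ := a
    have : B.sch k = {i} := by
      ext m
      rw [mem_sch, mem_singleton]
      exact ⟨fun e => e.elim (u1 _ _ · a) fun e => absurd ⟨m, e⟩ b, fun e => .inl (e ▸ a)⟩
    simp [this, a.2.2.2.1, out, b]
  · rw [if_pos b]
    obtain ⟨j, b⟩ := b
    have : B.sch k = {j} := by
      ext m
      rw [mem_sch, mem_singleton]
      exact ⟨fun e => e.elim (fun e => absurd ⟨m, e⟩ a) (sib_uniq · b), fun e => .inr (e ▸ b)⟩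
    simp [this, b.2.2.2.1]
  · have : B.sch k = ∅ := eq_empty_of_forall_notMem fun m e =>
      (mem_sch.1 e).elim (fun e => a ⟨m, e⟩) fun e => b ⟨m, e⟩
    simp [this, b]

theorem sib_le : cn B.ns (fun k => ∃ i, B.sib k i) ≤ B.nsib := by
  classical
  have : ∀ k, (∃ i, B.sib k i) → ∃ i, B.sib k i := fun _ => id
  choose! f hf using this
  unfold nsib cn
  refine card_le_card_of_injOn f (fun k hk => ?_) fun k hk j hj e => ?_
  · have := hf k (by simpa using (mem_filter.1 (mem_coe.1 hk)).2)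
    simp only [coe_filter, mem_range, Set.mem_setOf_eq]
    exact ⟨this.2.2.1, this.1, k, this.2.1, this.2.2.2.1.symm⟩
  · have a := hf k (by simpa using (mem_filter.1 (mem_coe.1 hk)).2)
    have b := hf j (by simpa using (mem_filter.1 (mem_coe.1 hj)).2)
    exact sch_par (mem_sch.2 (.inr a)) (mem_sch.2 (.inr (e ▸ b)))

end

variable [NeZero n]

section

variable (B : Base n) (c : Cx n d) (X : Set (Bool × Fc n))

/-- Ends of sliding prefixes. -/
def En (y e : Fc n) : Prop :=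
  B.E c X e ∧ B.RN c X e ∧ 0 < c.cpl e ∧ y = c.cf e (c.cpl e)

open Classical in
/-- The type of a face. -/
noncomputable def ty (y : Fc n) : Ty d :=
  if h : ∃ e, B.En c X y e then
    .D (c.lev y) (some (psn d y (c.chn h.choose (c.cpl h.choose)))) else c.bt y

open Classical in
/-- The coded faces. -/
noncomputable def Kf : Finset (Fc n) := (B.Occ c X).filter fun y => ¬ B.Abs c X y

open Classical in
/-- The keys. -/
noncomputable def Ks : Finset (Fc n ⊕ Stp n) :=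
  B.rt.disjSum ((B.Kf c X).image .ex ∪ (univ.filter (B.Tc c X)).image .tc ∪
    (range B.ns).image .si)

open Classical in
/-- The steps coded by a key. -/
noncomputable def ow : Fc n ⊕ Stp n → Finset (Stp n)
  | .inl _ => ∅
  | .inr (.ex x) =>
      if B.E c X x then (range (max 1 (B.pl c X x))).image fun i => .ex (c.dp^[i] x) else ∅
  | .inr σ => {σ}

open Classical in
/-- The faces below a key. -/
noncomputable def kf : Fc n ⊕ Stp n → Finset (Fc n)
  | .inl x => {x}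
  | .inr σ => ((B.ow c X (.inr σ)).biUnion (B.slot c)).filter fun y => ¬ B.Abs c X y

open Classical in
/-- The other keys below a key. -/
noncomputable def ke : Fc n ⊕ Stp n → Finset (Stp n)
  | .inr (.ex x) => if B.E c X x ∧ B.RT c X x then {.tc (c.rs x)} else
      if B.pl c X x = 0 ∧ B.Tc c X x then {.tc x} else ∅
  | .inr (.si k) => (B.sch k).image .si
  | _ => ∅

/-- The children of a key. -/
noncomputable def kc (k : Fc n ⊕ Stp n) : Finset (Fc n ⊕ Stp n) :=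
  ((B.kf c X k).image .ex ∪ B.ke c X k).image .inr

open Classical in
/-- The task of a key. -/
noncomputable def tk : Fc n ⊕ Stp n → Tk n d
  | .inl x => (x, .cl (B.rc x))
  | .inr (.ex x) => (x, B.ty c X x)
  | .inr (.tc g) => (c.tf g, .pr (if B.IrT c X g then .H else .D))
  | .inr (.si i) => (B.g i, B.sT d)

/-- The priority of a key. -/
noncomputable def kr : Fc n ⊕ Stp n → ℕ
  | .inl _ => 2 * c.hh + 1
  | .inr σ => B.key c σ

open Classical in
/-- The roots. -/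
noncomputable def kR : Finset (Fc n ⊕ Stp n) :=
  B.rt.disjSum (((range B.ns).filter B.Start).image .si)

end

variable {B : Base n} {c : Cx n d} {X : Set (Bool × Fc n)} {Vi : Finset (Fc n)} {δ γ : ℕ}
  {T : Finset (Finset (Fin n))} {x y g e a f : Fc n} {i j : ℕ} {σ τ : Stp n}
  {k k' : Fc n ⊕ Stp n}

theorem mem_Kf : y ∈ B.Kf c X ↔ y ∈ B.Occ c X ∧ ¬ B.Abs c X y := by simp [Kf]

theorem inl_Ks : .inl x ∈ B.Ks c X ↔ x ∈ B.rt := by simp [Ks]

theorem ex_Ks : .inr (.ex x) ∈ B.Ks c X ↔ x ∈ B.Kf c X := by simp [Ks]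

theorem tc_Ks : .inr (.tc x) ∈ B.Ks c X ↔ B.Tc c X x := by simp [Ks]

theorem si_Ks : .inr (.si i) ∈ B.Ks c X ↔ i < B.ns := by simp [Ks]

theorem mem_ow : τ ∈ B.ow c X (.inr (.ex x)) ↔
    B.E c X x ∧ ∃ i, (i = 0 ∨ i < B.pl c X x) ∧ τ = .ex (c.dp^[i] x) := by
  rw [ow]
  split_ifs with h
  · simp only [mem_image, mem_range, h, true_and]
    exact exists_congr fun i => and_congr (by omega) eq_comm
  · simp [h]

theorem mem_kf : y ∈ B.kf c X (.inr σ) ↔
    (∃ τ ∈ B.ow c X (.inr σ), y ∈ B.slot c τ) ∧ ¬ B.Abs c X y := by simp only [kf, mem_filter, mem_biUnion]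

theorem ke_ex : .ex y ∉ B.ke c X k := by
  rcases k with x | x | x | x <;> simp only [ke] <;> (try split_ifs) <;> simp

theorem mem_kc : k' ∈ B.kc c X k ↔
    (∃ y ∈ B.kf c X k, k' = .inr (.ex y)) ∨ ∃ σ ∈ B.ke c X k, k' = .inr σ := by
  simp only [kc, mem_image, mem_union]
  grind

theorem ex_kc : .inr (.ex y) ∈ B.kc c X k ↔ y ∈ B.kf c X k := by simp only [mem_kc, Sum.inr.injEq, Stp.ex.injEq, exists_eq_right', ke_ex, or_false]

theorem map_kc : (B.kc c X k).val.map (B.tk c X) =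
    (B.kf c X k).val.map (fun y => (y, B.ty c X y)) +
      (B.ke c X k).val.map fun σ => B.tk c X (.inr σ) := by
  have e : Disjoint ((B.kf c X k).image .ex) (B.ke c X k) := disjoint_left.2 fun σ a b => by
    obtain ⟨y, -, rfl⟩ := mem_image.1 a
    exact ke_ex b
  rw [kc, image_val_of_injOn Sum.inr_injective.injOn, ← disjUnion_eq_union _ _ e, disjUnion_val,
    image_val_of_injOn fun _ _ _ _ => Stp.ex.inj, Multiset.map_map, Multiset.map_add,
    Multiset.map_map]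
  rfl

theorem map_kR : B.kR.val.map (B.tk c X) = (B.shape d).2 := by
  rw [kR, val_disjSum, Multiset.disjSum, image_val_of_injOn fun _ _ _ _ => Stp.si.inj,
    Multiset.map_add, Multiset.map_map, Multiset.map_map, Multiset.map_map]
  rfl

theorem sum_Ks {M : Type} [AddCommMonoid M] (φ : Fc n ⊕ Stp n → M) (h1 : ∀ x, φ (.inl x) = 0)
    (h2 : ∀ x, φ (.inr (.tc x)) = 0) : ∑ k ∈ B.Ks c X, φ k =
      ∑ x ∈ B.Kf c X, φ (.inr (.ex x)) + ∑ i ∈ range B.ns, φ (.inr (.si i)) := by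
  rw [Ks, sum_disjSum, sum_union (by simp only [disjoint_left, mem_union, mem_image, mem_filter, mem_univ, true_and, mem_range, not_exists, not_and]; grind),
    sum_union (by simp only [disjoint_left, mem_image, mem_filter, mem_univ, true_and, not_exists, not_and, forall_exists_index, and_imp, forall_apply_eq_imp_iff₂, reduceCtorEq, not_false_eq_true, implies_true]), sum_image fun _ _ _ _ => Stp.ex.inj,
    sum_image fun _ _ _ _ => Stp.tc.inj, sum_image fun _ _ _ _ => Stp.si.inj]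
  simp [h1, h2]

end Base

end Pool.Agent.MP_8f9e6e_pr.J

end

section

/-! Every step is coded by exactly one key. -/

open Finset

namespace Pool.Agent.MP_8f9e6e_pr.J.Base.Good

variable {n d : ℕ} [NeZero n] {B : Base n} {c : Cx n d} {X : Set (Bool × Fc n)}
  {Vi : Finset (Fc n)} {δ γ : ℕ} {T : Finset (Finset (Fin n))} {x y g e a f : Fc n} {i j : ℕ}
  {σ τ : Stp n} {k k' : Fc n ⊕ Stp n}

variable (h : B.Good c X Vi δ T γ)
include h

theorem pl_rk (hx : B.E c X x) (hi : i ≤ B.pl c X x) : c.rk (c.dp^[i] x) + i = c.rk x := by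
  induction i with
  | zero => rfl
  | succ i ih =>
    obtain ⟨-, -, w, a⟩ := h.pl_spec hx hi
    rw [Function.iterate_succ_apply', ← ih (by omega), ← a.rk]
    omega

theorem pl_only (hx : B.E c X x) (hi : i < B.pl c X x) : c.D (c.dp^[i + 1] x) ∧
    c.dp^[i + 1] x ∉ B.rt ∧ c.dp^[i + 1] x ∈ B.slot c (.ex (c.dp^[i] x)) ∧
    ∀ τ ∈ B.St c X, c.dp^[i + 1] x ∈ B.slot c τ → τ = .ex (c.dp^[i] x) := by
  obtain ⟨a1, a2, w, a3⟩ := h.pl_spec hx hi
  rw [Function.iterate_succ_apply']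
  exact ⟨a3.D, (h.only a1 a2 a3).1, mem_image.2 ⟨w, a3.1, a3.dp.symm⟩, (h.only a1 a2 a3).2⟩

theorem pl_cut (ha : B.CutW c X a) : B.pl c X a = d + 1 := by rw [pl, if_pos ha]

theorem mem_cU : f ∈ B.cU c a ↔ f ∈ c.S ∧ ∃ j ≤ d, f ∈ B.slot c (.ex (c.dp^[j] a)) := by
  simp only [cU, mem_biUnion, mem_filter, mem_range, Nat.lt_succ_iff]
  grind

theorem key (hx : B.E c X x) (hn : ¬ B.Inn c X x) : x ∈ B.Kf c X :=
  mem_Kf.2 ⟨h.occ hx, fun a => a.elim hn fun ⟨_, b, e⟩ => e.elim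
    (fun e => (h.cut b).2.1 (e ▸ hx)) fun e => (h.EH hx).2 (h.mem_cU.1 e).1⟩

theorem ow_St (hk : k ∈ B.Ks c X) (hτ : τ ∈ B.ow c X k) : τ ∈ B.St c X ∧
    B.key c τ ≤ B.kr c k := by
  rcases k with x | x | x | x
  · simp [ow] at hτ
  · obtain ⟨a, i, b, rfl⟩ := mem_ow.1 hτ
    have := h.pl_rk a (i := i) (by omega)
    refine ⟨ex_mem.2 ?_, by simp only [kr, Base.key]; omega⟩
    exact b.elim (fun b => b ▸ a) fun b => (h.pl_spec a b).1
  · rw [mem_singleton.1 hτ]
    exact ⟨tc_mem.2 (tc_Ks.1 hk), le_rfl⟩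
  · rw [mem_singleton.1 hτ]
    exact ⟨si_mem.2 (si_Ks.1 hk), le_rfl⟩

theorem ow_ex (hk : .inr (.ex x) ∈ B.Ks c X) (hx : B.E c X x) (hy : B.E c X y)
    (hi : i = 0 ∨ i < B.pl c X x) (hj : j + i = 0 ∨ j + i < B.pl c X y)
    (e : c.dp^[i] x = c.dp^[j + i] y) : x = y := by
  have a := h.back (fun m hm => ⟨(h.pl_spec hx (by omega)).1, (h.pl_spec hx (by omega)).2.2⟩)
    (fun m hm => h.pl_spec hy (by omega)) e
  rcases j.eq_zero_or_pos with rfl | b
  · exact a
  · exact absurd (.inl ⟨y, hy, j, b, by omega, a⟩) (mem_Kf.1 (ex_Ks.1 hk)).2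

theorem ow_disj (hk : k ∈ B.Ks c X) (hk' : k' ∈ B.Ks c X) (h1 : τ ∈ B.ow c X k)
    (h2 : τ ∈ B.ow c X k') : k = k' := by
  have e0 : ∀ {z : Fc n}, τ ∉ B.ow c X (.inl z) := notMem_empty _
  have e1 : ∀ {z : Fc n}, τ ∈ B.ow c X (.inr (.tc z)) → τ = .tc z := mem_singleton.1
  have e2 : ∀ {z : ℕ}, τ ∈ B.ow c X (.inr (.si z)) → τ = .si z := mem_singleton.1
  have e3 : ∀ {z : Fc n}, τ ∈ B.ow c X (.inr (.ex z)) → ∃ y, τ = .ex y := fun a =>
    (mem_ow.1 a).2.elim fun _ a => ⟨_, a.2⟩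
  rcases k with x | x | x | x <;> rcases k' with y | y | y | y
  case inr.ex.inr.ex =>
    rw [mem_ow] at h1 h2
    obtain ⟨a1, i, a2, rfl⟩ := h1
    obtain ⟨b1, j, b2, b3⟩ := h2
    replace b3 := Stp.ex.inj b3
    rcases le_total i j with e | e <;> obtain ⟨m, rfl⟩ := Nat.exists_eq_add_of_le' e
    · rw [h.ow_ex hk a1 b1 a2 b2 b3]
    · rw [h.ow_ex hk' b1 a1 b2 a2 b3.symm]
  all_goals grind

theorem ow_cover (hτ : τ ∈ B.St c X) : ∃ k ∈ B.Ks c X, τ ∈ B.ow c X k := by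
  rcases τ with y | y | y
  · by_cases a : B.Inn c X y
    · obtain ⟨x, a1, i, a2, a3, rfl⟩ := a
      exact ⟨_, ex_Ks.2 (h.key a1 (h.head a1 (by omega))), mem_ow.2 ⟨a1, i, .inr a3, rfl⟩⟩
    · exact ⟨_, ex_Ks.2 (h.key (ex_mem.1 hτ) a), mem_ow.2 ⟨ex_mem.1 hτ, 0, .inl rfl, rfl⟩⟩
  · exact ⟨_, tc_Ks.2 (tc_mem.1 hτ), mem_singleton_self _⟩
  · exact ⟨_, si_Ks.2 (si_mem.1 hτ), mem_singleton_self _⟩

theorem ow_sum (P : Stp n → Prop) [DecidablePred P] :
    ∑ k ∈ B.Ks c X, ((B.ow c X k).filter P).card = ((B.St c X).filter P).card := by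
  rw [← card_biUnion fun k hk k' hk' e => disjoint_left.2 fun τ a b =>
    e (h.ow_disj hk hk' (mem_filter.1 a).1 (mem_filter.1 b).1)]
  congr 1
  ext τ
  simp only [mem_biUnion, mem_filter]
  exact ⟨fun ⟨k, a, b, e⟩ => ⟨(h.ow_St a b).1, e⟩,
    fun ⟨a, b⟩ => (h.ow_cover a).imp fun k e => ⟨e.1, e.2, b⟩⟩

/-- The owner of the step above a face of a private prefix. -/
theorem ow_pl (hk : k ∈ B.Ks c X) (hτ : τ ∈ B.ow c X k) (hx : B.E c X x) (hi : i < B.pl c X x)
    (hy : c.dp^[i + 1] x ∈ B.slot c τ) : k = .inr (.ex x) :=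
  h.ow_disj hk (ex_Ks.2 (h.key hx (h.head hx (by omega)))) hτ (mem_ow.2 ⟨hx, i, .inr hi,
    (h.pl_only hx hi).2.2.2 τ (h.ow_St hk hτ).1 hy⟩)

theorem abs (hk : k ∈ B.Ks c X) (hτ : τ ∈ B.ow c X k) (hy : y ∈ B.slot c τ) (ha : B.Abs c X y) :
    ∃ x, k = .inr (.ex x) ∧
      (B.CutW c X x ∨ ∃ i, 0 < i ∧ i < B.pl c X x ∧ y = c.dp^[i] x) := by
  rcases ha with ⟨x, a1, i, a2, a3, rfl⟩ | ⟨x, a1, rfl | a2⟩
  · obtain ⟨i, rfl⟩ := Nat.exists_eq_succ_of_ne_zero a2.ne'
    exact ⟨x, h.ow_pl hk hτ a1 (by omega) hy, .inr ⟨_, a2, a3, rfl⟩⟩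
  · exact ⟨x, h.ow_pl hk hτ (h.cut a1).1 (by rw [h.pl_cut a1]; omega) hy, .inl a1⟩
  · obtain ⟨b1, j, b2, b3⟩ := h.mem_cU.1 a2
    have b4 := (h.cut a1).1
    have b5 : j < B.pl c X x := by rw [h.pl_cut a1]; omega
    exact ⟨x, h.ow_disj hk (ex_Ks.2 (h.key b4 (h.head b4 (by omega)))) hτ (mem_ow.2 ⟨b4, j,
      .inr b5, (h.unit a1 b2 b3 b1).2 τ (h.ow_St hk hτ).1 hy⟩), .inl a1⟩

theorem cf_dp (he : B.E c X e) (ht : c.Top e) (hc : ¬ B.CutW c X e) :
    c.Cpt e (B.pl c X e) ∧ B.pl c X e ≤ c.Om ∧ ∀ i ≤ B.pl c X e, c.cf e i = c.dp^[i] e := by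
  have a : c.Cpt e (B.pl c X e) ∧ B.pl c X e ≤ c.Om := by
    rw [pl, if_neg hc]
    split_ifs with a b
    · exact ⟨Cx.cpt_cpl, Cx.cpl_le⟩
    · exact ⟨b.elim (fun b => b.1.1.2) fun b => b.1.1.2, le_rfl⟩
    · exact ⟨fun i hi => absurd hi i.not_lt_zero, Nat.zero_le _⟩
  exact ⟨a.1, a.2, fun i hi => a.1.cf ht.1 hi⟩

theorem en (he : B.En c X y e) : ∃ i, i + 1 = B.pl c X e ∧ y = c.dp^[i + 1] e := by
  obtain ⟨a1, a2, a3, rfl⟩ := he
  have b := (h.pl_top a1).1 a2
  obtain ⟨i, hi⟩ := Nat.exists_eq_succ_of_ne_zero a3.ne'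
  exact ⟨i, by omega, by rw [(h.cf_dp a1 a2.1 ((h.pl_top a1).2.2.1 a2)).2.2 _ b.ge, hi]⟩

theorem en_ow (hk : k ∈ B.Ks c X) (hτ : τ ∈ B.ow c X k) (hy : y ∈ B.slot c τ)
    (he : B.En c X y e) : k = .inr (.ex e) := by
  obtain ⟨i, a, rfl⟩ := h.en he
  exact h.ow_pl hk hτ he.1 (by omega) hy

theorem root (hx : x ∈ B.rt) : ¬ B.Abs c X x ∧ ¬ ∃ e, B.En c X x e := by
  refine ⟨?_, fun ⟨e, he⟩ => ?_⟩
  · rintro (⟨x, a1, i, a2, a3, rfl⟩ | ⟨x, a1, rfl | a2⟩)
    · obtain ⟨i, rfl⟩ := Nat.exists_eq_succ_of_ne_zero a2.ne'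
      exact (h.pl_only a1 (by omega)).2.1 hx
    · exact (h.pl_only (h.cut a1).1 (by rw [h.pl_cut a1]; omega)).2.1 hx
    · obtain ⟨b1, j, b2, b3⟩ := h.mem_cU.1 a2
      exact (h.unit a1 b2 b3 b1).1 hx
  · obtain ⟨i, a, rfl⟩ := h.en he
    exact (h.pl_only he.1 (by omega)).2.1 hx

/-- Keys that code one step. -/
theorem kf_one (hk : .inr σ ∈ B.Ks c X) (h1 : B.ow c X (.inr σ) = {σ})
    (h2 : ∀ x, σ = .ex x → B.pl c X x = 0) :
    (B.kf c X (.inr σ)).val.map (fun y => (y, B.ty c X y)) =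
      (B.slot c σ).val.map fun y => (y, c.bt y) := by
  have a : σ ∈ B.ow c X (.inr σ) := h1 ▸ mem_singleton_self σ
  have b : B.kf c X (.inr σ) = B.slot c σ := by
    ext y
    rw [mem_kf, h1]
    refine ⟨fun ⟨⟨τ, e1, e2⟩, _⟩ => mem_singleton.1 e1 ▸ e2,
      fun e => ⟨⟨σ, mem_singleton_self σ, e⟩, fun e' => ?_⟩⟩
    obtain ⟨x, e1, e2⟩ := h.abs hk a e e'
    have := h2 x (Sum.inr.inj e1)
    exact e2.elim (fun e2 => by have := h.pl_cut e2; omega) fun ⟨i, _, _, _⟩ => by omega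
  refine Multiset.map_congr (congrArg _ b) fun y hy => ?_
  rw [ty, dif_neg]
  rintro ⟨e, he⟩
  obtain ⟨i, e1, -⟩ := h.en he
  have := h2 e (Sum.inr.inj (h.en_ow hk a hy he))
  omega

theorem rs_dp (he : B.E c X e) (hr : B.RT c X e) : c.ri e < B.pl c X e ∧
    c.rs e = c.dp^[c.ri e] e ∧ B.Tc c X (c.rs e) := by
  obtain ⟨a1, a2, -⟩ := (h.pl_top he).2.1 (.inr hr)
  have a3 : c.ri e < B.pl c X e := a1 ▸ hr.1.ri.1
  exact ⟨a3, (h.cf_dp he hr.1.1.1 a2).2.2 _ a3.le, .inl ⟨e, h.top he hr.1.1.1, hr.1, rfl⟩⟩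

theorem irT (hx : x ∈ B.Kf c X) (h0 : B.pl c X x = 0) (ht : B.Tc c X x) : B.IrT c X x := by
  refine ⟨ht, fun ⟨e, a1, a2, a3⟩ => ?_⟩
  obtain ⟨b1, b2, -⟩ := h.rs_dp a1 a2
  rcases (c.ri e).eq_zero_or_pos with b3 | b3
  · rw [b3] at b2
    rw [a3.trans b2] at h0
    exact (h0 ▸ b1 :).not_ge (Nat.zero_le _)
  · exact (mem_Kf.1 hx).2 (.inl ⟨e, a1, _, b3, b1, a3.trans b2⟩)

theorem tc_ke (hk : k ∈ B.Ks c X) (hg : .tc g ∈ B.ke c X k) : B.Tc c X g ∧
    ((∃ e, k = .inr (.ex e) ∧ B.E c X e ∧ B.RT c X e ∧ g = c.rs e) ∨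
      (k = .inr (.ex g) ∧ B.IrT c X g)) := by
  rcases k with x | x | x | x <;> simp only [ke] at hg
  · simp at hg
  · split_ifs at hg with a b
    · obtain rfl := Stp.tc.inj (mem_singleton.1 hg)
      exact ⟨(h.rs_dp a.1 a.2).2.2, .inl ⟨x, rfl, a.1, a.2, rfl⟩⟩
    · obtain rfl := Stp.tc.inj (mem_singleton.1 hg)
      exact ⟨b.2, .inr ⟨rfl, h.irT (ex_Ks.1 hk) b.1 b.2⟩⟩
    · simp at hg
  · simp at hg
  · simp at hg

omit h in
theorem si_ke (hg : .si i ∈ B.ke c X k) : ∃ j, k = .inr (.si j) ∧ i ∈ B.sch j := by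
  rcases k with x | x | x | x <;> simp only [ke] at hg
  · simp at hg
  · split_ifs at hg <;> simp at hg
  · simp at hg
  · exact ⟨x, rfl, by simpa using hg⟩

theorem child (hk : k ∈ B.Ks c X) (hk' : k' ∈ B.kc c X k) :
    k' ∈ B.Ks c X ∧ B.kr c k' < B.kr c k := by
  rcases mem_kc.1 hk' with ⟨y, a, rfl⟩ | ⟨σ, a, rfl⟩
  · rcases k with x | σ
    · obtain rfl := mem_singleton.1 a
      have b := inl_Ks.1 hk
      have := rk_le (h.ok.root y b).2.1
      exact ⟨ex_Ks.2 (mem_Kf.2 ⟨mem_union_left _ b, (h.root b).1⟩),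
        by simp only [kr, Base.key, Cx.rk]; omega⟩
    · obtain ⟨⟨τ, b1, b2⟩, b3⟩ := mem_kf.1 a
      obtain ⟨b4, b5⟩ := h.ow_St hk b1
      exact ⟨ex_Ks.2 (mem_Kf.2 ⟨mem_union_right _ (mem_biUnion.2 ⟨τ, b4, b2⟩), b3⟩),
        ((h.step b4).2.2 y b2).2.1.trans_le b5⟩
  · rcases σ with g | g | i
    · exact absurd a ke_ex
    · obtain ⟨b1, b2⟩ := h.tc_ke hk a
      have := (h.tc b1).2.1.lt
      refine ⟨tc_Ks.2 b1, ?_⟩
      rcases b2 with ⟨e, rfl, b2, b3, rfl⟩ | ⟨rfl, -⟩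
      · obtain ⟨e1, e2, -⟩ := h.rs_dp b2 b3
        have := h.pl_rk b2 e1.le
        rw [← e2] at this
        simp only [kr, Base.key]
        omega
      · simp only [kr, Base.key]
        omega
    · obtain ⟨j, rfl, b⟩ := si_ke a
      have : j < i ∧ i < B.ns :=
        (mem_sch.1 b).elim (fun b => ⟨b.2.1, b.2.2.1⟩) fun b => ⟨b.2.1, b.2.2.1⟩
      exact ⟨si_Ks.2 this.2, by simp only [kr, Base.key]; omega⟩

omit h in
theorem kR_sub : B.kR ⊆ B.Ks c X := by
  classical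
  exact disjSum_mono le_rfl ((image_subset_image (filter_subset _ _)).trans subset_union_right)

theorem parent (hk : k ∈ B.Ks c X) : k ∈ B.kR ∨ ∃ k' ∈ B.Ks c X, k ∈ B.kc c X k' := by
  rcases k with x | x | x | x
  · exact .inl (by simpa [kR] using inl_Ks.1 hk)
  · obtain ⟨a, b⟩ := mem_Kf.1 (ex_Ks.1 hk)
    rcases mem_union.1 a with a | a
    · exact .inr ⟨_, inl_Ks.2 a, ex_kc.2 (mem_singleton_self _)⟩
    · obtain ⟨τ, a1, a2⟩ := mem_biUnion.1 a
      obtain ⟨k, a3, a4⟩ := h.ow_cover a1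
      rcases k with y | σ
      · simp [ow] at a4
      · exact .inr ⟨_, a3, ex_kc.2 (mem_kf.2 ⟨⟨τ, a4, a2⟩, b⟩)⟩
  · have a := tc_Ks.1 hk
    by_cases b : ∃ e, B.E c X e ∧ B.RT c X e ∧ x = c.rs e
    · obtain ⟨e, b1, b2, rfl⟩ := b
      exact .inr ⟨_, ex_Ks.2 (h.key b1 (h.head b1 (h.rs_dp b1 b2).1.pos)),
        mem_kc.2 (.inr ⟨_, by simp [ke, b1, b2], rfl⟩)⟩
    · obtain ⟨b1, b2⟩ := h.tc_par a b
      have b3 := (h.tc a).1
      have b4 : ¬ B.RT c X x := fun e => (b1 ▸ (h.rs_dp b3 e).1 :).not_ge (Nat.zero_le _)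
      exact .inr ⟨_, ex_Ks.2 (mem_Kf.2 ⟨h.occ b3, b2⟩),
        mem_kc.2 (.inr ⟨_, by simp [ke, b1, b4, a], rfl⟩)⟩
  · by_cases a : B.Start x
    · exact .inl (by simpa [kR, a] using si_Ks.1 hk)
    · obtain ⟨j, a1, a2⟩ := sch_ex (si_Ks.1 hk) a
      exact .inr ⟨_, si_Ks.2 (a1.trans (si_Ks.1 hk)),
        mem_kc.2 (.inr ⟨_, mem_image_of_mem _ a2, rfl⟩)⟩

theorem once (h0 : ∀ y, k = .inr (.ex y) → ∃ e, B.En c X y e) :
    (k ∈ B.kR → ∀ k' ∈ B.Ks c X, k ∉ B.kc c X k') ∧ ∀ a ∈ B.Ks c X, ∀ b ∈ B.Ks c X,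
      k ∈ B.kc c X a → k ∈ B.kc c X b → a = b := by
  rcases k with x | x | x | x
  · simp [mem_kc]
  · obtain ⟨e, he⟩ := h0 x rfl
    have key : ∀ a ∈ B.Ks c X, .inr (.ex x) ∈ B.kc c X a → a = .inr (.ex e) := fun a ha a1 => by
      rcases a with y | σ
      · obtain rfl := mem_singleton.1 (ex_kc.1 a1)
        exact absurd ⟨e, he⟩ (h.root (inl_Ks.1 ha)).2
      · obtain ⟨⟨τ, b1, b2⟩, -⟩ := mem_kf.1 (ex_kc.1 a1)
        exact h.en_ow ha b1 b2 he
    exact ⟨by simp only [kR, inr_mem_disjSum, mem_image, mem_filter, mem_range, reduceCtorEq, and_false, exists_const, Sum.forall, IsEmpty.forall_iff], fun a ha b hb a1 b1 => (key a ha a1).trans (key b hb b1).symm⟩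
  · refine ⟨by simp only [kR, inr_mem_disjSum, mem_image, mem_filter, mem_range, reduceCtorEq, and_false, exists_const, Sum.forall, IsEmpty.forall_iff], fun a ha b hb a1 b1 => ?_⟩
    rcases (h.tc_ke (g := x) ha (by simpa only [mem_kc, Sum.inr.injEq, reduceCtorEq, and_false, exists_const, exists_eq_right', false_or] using a1)).2 with
      ⟨e, rfl, a2, a3, a4⟩ | ⟨rfl, a2⟩ <;>
    rcases (h.tc_ke (g := x) hb (by simpa only [mem_kc, Sum.inr.injEq, reduceCtorEq, and_false, exists_const, exists_eq_right', false_or] using b1)).2 with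
      ⟨e', rfl, b2, b3, b4⟩ | ⟨rfl, b2⟩
    · rw [h.rt_uniq a2 b2 a3 b3 (a4.symm.trans b4)]
    · exact absurd ⟨e, a2, a3, a4⟩ b2.2
    · exact absurd ⟨e', b2, b3, b4⟩ a2.2
    · rfl
  · refine ⟨fun a k' _ b => ?_, fun a ha b hb a1 b1 => ?_⟩
    · obtain ⟨j, -, b⟩ := si_ke (i := x) (by simpa only [mem_kc, Sum.inr.injEq, reduceCtorEq, and_false, exists_const, exists_eq_right', false_or] using b)
      exact sch_start b (by simp [kR] at a; exact a.2)
    · obtain ⟨i, rfl, a2⟩ := si_ke (i := x) (by simpa only [mem_kc, Sum.inr.injEq, reduceCtorEq, and_false, exists_const, exists_eq_right', false_or] using a1)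
      obtain ⟨j, rfl, b2⟩ := si_ke (i := x) (by simpa only [mem_kc, Sum.inr.injEq, reduceCtorEq, and_false, exists_const, exists_eq_right', false_or] using b1)
      rw [sch_par a2 b2]

end Pool.Agent.MP_8f9e6e_pr.J.Base.Good

end

section

/-! The option of every key. -/

open Finset

namespace Pool.Agent.MP_8f9e6e_pr.J.Base

variable {n d : ℕ} [NeZero n]

section

variable (B : Base n) (c : Cx n d) (X : Set (Bool × Fc n))

open Classical in
/-- The leaf of a key. -/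
noncomputable def lf : Fc n ⊕ Stp n → Multiset (Fc n)
  | .inr (.ex x) => if x ∈ c.S then {x} else 0
  | _ => 0

open Classical in
/-- The cut of a key. -/
noncomputable def ct : Fc n ⊕ Stp n → Multiset (Fc n)
  | .inr (.ex x) => if B.CutW c X x then {x} else 0
  | _ => 0

open Classical in
/-- The markers of a key. -/
noncomputable def mr : Fc n ⊕ Stp n → ℕ
  | .inr (.ex x) => (if B.Irr c X x then 1 else 0) + if B.IrT c X x then 1 else 0
  | .inr (.si i) => if ∃ j, B.sib i j then 1 else 0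
  | _ => 0

open Classical in
/-- The late edges of a key. -/
noncomputable def ed : Fc n ⊕ Stp n → ℕ
  | .inr (.si i) => if B.sty = none ∧ ∃ y ∈ B.sl i, c.D y then 1 else 0
  | _ => 0

open Classical in
/-- The outcome of a key. -/
structure Pk (k : Fc n ⊕ Stp n) (o : Oc n d) : Prop where
  lf : o.1 = lf c k
  ct : o.2.1.map Prod.fst = B.ct c X k
  ok : ∀ z ∈ o.2.1, pos d c.r0 c.S (c.dp^[d + 1] z.1) = z.2.2.1 ∧
    sU d (cp z (c.dp^[d + 1] z.1)) (d + 1) = B.cU c z.1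
  st : o.2.2.1 + o.2.2.2.1 + (d + 1) * o.2.1.card = (B.ow c X k).card
  ol : o.2.2.2.1 = ((B.ow c X k).filter (B.Shared c X)).card
  mr : o.2.2.2.2.2.1 ≤ B.mr c X k
  ed : o.2.2.2.2.2.2 ≤ B.ed c k

end

variable {B : Base n} {c : Cx n d} {X : Set (Bool × Fc n)}
  {Vi : Finset (Fc n)} {δ γ : ℕ} {T : Finset (Finset (Fin n))} {x y g e a f : Fc n} {i j : ℕ}
  {σ τ : Stp n} {k : Fc n ⊕ Stp n} {c3 : ℝ} {a2 : ℕ} {S0 : Set (Fc n)} {B0 : Finset (Fin n)}

open Classical in
theorem pk_one (h1 : B.ow c X k = {σ}) (h2 : lf c k = 0) (h3 : B.ct c X k = 0) {m : Oc n d}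
    (h4 : m.1 = 0 ∧ m.2.1 = 0 ∧ m.2.2.1 = 0 ∧ m.2.2.2.1 = 0 ∧ m.2.2.2.2.2.1 ≤ B.mr c X k ∧
      m.2.2.2.2.2.2 ≤ B.ed c k) :
    B.Pk c X k ((if B.Shared c X σ then oOl else oFr 1) + m) := by
  obtain ⟨a1, a2, a3, a4, a5, a6⟩ := h4
  split_ifs with h <;> constructor <;> simp [*, oOl, oFr, filter_singleton]

theorem rp_mem : (oRp, 0) ∈ opts c.r0 c.Om a2 c3 S0 B0 (y, c.bt y) := by
  rw [Cx.bt]
  split_ifs
  · cases c.rk y <;> simp [opts]
  · cases c.lev y <;> simp only [opts, Multiset.insert_eq_cons, Multiset.add_cons, Multiset.mem_cons, Multiset.mem_add, Multiset.mem_bind, mem_val, mem_Ico, Multiset.mem_map, Prod.mk.injEq, AddLeftCancelMonoid.add_eq_zero, Multiset.singleton_ne_zero, and_false, exists_const, or_false, Multiset.cons_ne_zero, true_or]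

theorem sh_mem (hσ : σ ∈ B.St c X) (h : B.Shared c X σ) : B.apex c σ ∈ B.V0 ∪ B.Vs c X := by
  classical
  rw [Vs, union_sdiff_self_eq_union]
  exact mem_union_right _ (mem_image_of_mem _ (mem_filter.2 ⟨hσ, h⟩))

omit [NeZero n] in
theorem bt_S (h : f ∈ c.S) : c.bt f = .E 0 := by
  rw [Cx.bt, if_pos (show c.A f from rd_src h), Cx.rk, Nat.le_zero.1 (rk_le (k := 0) h)]

omit [NeZero n] in
theorem bt_D (h : c.D f) : c.bt f = .D (c.lev f) none := if_neg h.2

namespace Good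

variable (h : B.Good c X Vi δ T γ)
include h

theorem lev_eq (he : c.Top e) (hi : i ≤ c.Om) (hr : c.rk y + i = c.rk e) :
    (i = 0 ∨ i = c.Om) ∧ c.lev y = 0 ∨ 0 < i ∧ i < c.Om ∧ c.lev y = c.Om - i := by
  have a := (Cx.lev_add hr).symm.trans he.2
  have b : c.lev y < c.Om := Nat.mod_lt _ h.Om_pos
  rcases lt_or_ge (c.lev y + i) c.Om with e | e
  · rw [Nat.mod_eq_of_lt e] at a
    omega
  · rw [Nat.mod_eq_sub_mod e, Nat.mod_eq_of_lt (by omega)] at a
    omega

theorem ty_head (hp : 0 < B.pl c X x) : B.ty c X x = c.bt x := by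
  rw [ty, dif_neg]
  rintro ⟨e, he⟩
  obtain ⟨i, a1, a2⟩ := h.en he
  have a3 := h.pl_rk he.1 a1.le
  have a4 := (Cx.cpl_lt he.2.1.2.1).1
  rw [← (h.pl_top he.1).1 he.2.1, ← a1] at a4
  rw [← a2] at a3
  have a5 := h.lev_eq he.2.1.1 a4.le a3
  have a6 : ¬ c.Top x := fun b => by have := b.2; omega
  have a7 : B.CutW c X x := by
    by_contra b
    rw [pl, if_neg b, if_neg fun b => a6 b.1, if_neg fun b => a6 (b.elim (·.1.1.1) (·.1.1.1))] at hp
    exact hp.false
  obtain ⟨e', b1, b2, m, b3, b4, b5⟩ := h.win a7.1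
  have b6 : (m + 1) * (d + 1) ≤ c.Om := Nat.mul_le_mul_right _ b3
  rw [add_mul] at b6
  have b7 := h.lev_eq b2.1.1 (by omega) (b4 ▸ (b2.1.2.rk b2.1.1.1 (by omega)).2)
  have b8 : m * (d + 1) = i + 1 := by omega
  have b9 := h.back (i := i + 1) (j := 0) (x := e') (y := e) (fun l hl => ?_)
    (fun l hl => h.pl_spec he.1 (by omega))
    (by rw [zero_add, ← a2, b4, b8, b2.1.2.cf b2.1.1.1 a4.le])
  · exact he.2.1.2.1 (b9 ▸ b2.1.2 :)
  · have e1 := Nat.div_add_mod' l (d + 1)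
    have e2 : l / (d + 1) < m := Nat.div_lt_of_lt_mul (by rw [mul_comm]; omega)
    rw [← b2.1.2.cf b2.1.1.1 (by omega)]
    refine ⟨.inr (.inl ⟨c.cf e' (l / (d + 1) * (d + 1)), ?_, l % (d + 1),
      Nat.lt_succ_iff.1 (Nat.mod_lt _ d.succ_pos), ?_⟩), _, b2.1.2 l (by omega)⟩
    · rw [← h.fix]
      exact .inl ⟨rfl, e', b1, b2, _, e2.trans b3, rfl, fun k hk => b5 k (hk.trans e2)⟩
    · rw [← b2.1.2.iter (by omega), e1]

open Classical in
theorem ow_card (hx : B.E c X x) (hp : 0 < B.pl c X x) :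
    (B.ow c X (.inr (.ex x))).card = B.pl c X x ∧
      (B.ow c X (.inr (.ex x))).filter (B.Shared c X) = ∅ := by
  refine ⟨?_, filter_false_of_mem fun τ a => ?_⟩
  · rw [ow, if_pos hx, max_eq_right hp, card_image_of_injOn, card_range]
    intro i hi j hj e
    have a := h.pl_rk hx (mem_range.1 hi).le
    have b := h.pl_rk hx (mem_range.1 hj).le
    rw [Stp.ex.inj e] at a
    omega
  · obtain ⟨-, i, a, rfl⟩ := mem_ow.1 a
    exact (h.pl_spec hx (by omega)).2.1

theorem opt_cut (hw : c.World c3 a2) (hk : .inr (.ex x) ∈ B.Ks c X) (hx : B.CutW c X x) :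
    ∃ o, (o, (B.kc c X (.inr (.ex x))).val.map (B.tk c X)) ∈
      opts c.r0 c.Om a2 c3 S0 B0 (B.tk c X (.inr (.ex x))) ∧ B.Pk c X (.inr (.ex x)) o := by
  obtain ⟨π, s, a⟩ := h.cut_code hx
  have b1 := (h.cut hx).1
  have b2 := h.pl_cut hx
  have b3 : 0 < B.pl c X x := by omega
  have b4 : B.kf c X (.inr (.ex x)) = ∅ := eq_empty_of_forall_notMem fun y hy => by
    obtain ⟨⟨τ, e1, e2⟩, e3⟩ := mem_kf.1 hy
    obtain ⟨-, i, e4, rfl⟩ := mem_ow.1 e1
    obtain ⟨-, -, w, e5⟩ := h.pl_spec b1 (show i < _ by omega)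
    rcases e5.slot e2 with rfl | e6
    · rw [← Function.iterate_succ_apply' c.dp] at e3
      rcases (show i ≤ d by omega).eq_or_lt with rfl | e6
      · exact e3 (.inr ⟨x, hx, .inl rfl⟩)
      · exact e3 (.inl ⟨x, b1, _, i.succ_pos, by omega, rfl⟩)
    · exact e3 (.inr ⟨x, hx, .inr (h.mem_cU.2 ⟨e6, i, by omega, e2⟩)⟩)
  have b5 : B.ke c X (.inr (.ex x)) = ∅ := by
    rw [ke, if_neg fun e => ((h.pl_top b1).2.1 (.inr e.2)).2.1 hx, if_neg fun e => b3.ne' e.1]
  obtain ⟨-, -, w, b6⟩ := h.pl_spec b1 b3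
  refine ⟨oCt (x, π, pos d c.r0 c.S (c.dp^[d + 1] x), s), ?_, ?_⟩
  · have : (oCt (x, π, pos d c.r0 c.S (c.dp^[d + 1] x), s), 0) ∈ J.cut (d := d) a2 x := by
      simp only [J.cut, Multiset.mem_bind, Multiset.mem_map]
      exact ⟨π, mem_univ _, _, mem_range.2 (h.cut_end hw hx).2.1, s, mem_univ _, rfl⟩
    rw [map_kc, b4, b5, tk, h.ty_head b3, bt_D (f := x) b6.2.1]
    cases c.lev x <;> simp only [opts, Multiset.insert_eq_cons, Multiset.add_cons, empty_val, Multiset.map_zero, Multiset.add_zero, Multiset.mem_cons, Prod.mk.injEq, and_true, Multiset.mem_add, this, true_or, Multiset.mem_bind, mem_val, mem_Ico, Multiset.mem_map, AddLeftCancelMonoid.add_eq_zero, Multiset.singleton_ne_zero, and_false, exists_const, or_false, Multiset.cons_ne_zero, or_true]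
  · obtain ⟨e1, e2⟩ := h.ow_card b1 b3
    constructor <;> simp [oCt, lf, ct, (h.EH b1).2, -Function.iterate_succ, *]

theorem kf_mac (hk : .inr (.ex x) ∈ B.Ks c X) (hx : B.E c X x) (ht : c.Top x)
    (hc : ¬ B.CutW c X x) (hj : B.pl c X x = j) (h0 : 0 < j) :
    (B.kf c X (.inr (.ex x))).val.map (fun y => (y, B.ty c X y)) =
      uT d (mp d x fun k : Fin j => c.ap (c.cf x k)) j + {(c.cf x j, B.ty c X (c.cf x j))} := by
  obtain ⟨a1, a2, a3⟩ := h.cf_dp hx ht hc
  rw [hj] at a1 a2 a3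
  have a4 : ∀ f, f ∈ sU d (c.chn x) j ↔ f ∈ c.S ∧ ∃ i < j, f ∈ B.slot c (.ex (c.cf x i)) := by
    intro f
    rw [sU, biUnion_congr rfl fun i hi => Cx.su_chn.trans (a1 i (mem_range.1 hi)).un.symm]
    simp only [mem_biUnion, mem_filter, mem_range, slot]
    grind
  have a5 : ∀ i < j, .ex (c.cf x i) ∈ B.ow c X (.inr (.ex x)) := fun i hi =>
    mem_ow.2 ⟨hx, i, .inr (hj ▸ hi), by rw [a3 i hi.le]⟩
  have a6 := (a1.rk ht.1 le_rfl).1.notS
  have a7 : B.kf c X (.inr (.ex x)) = cons (c.cf x j) (sU d (c.chn x) j) fun e =>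
      a6 ((a4 _).1 e).1 := by
    ext y
    rw [mem_kf, mem_cons, a4]
    constructor
    · rintro ⟨⟨τ, e1, e2⟩, e3⟩
      obtain ⟨-, i, e4, rfl⟩ := mem_ow.1 e1
      have e5 : i < j := by omega
      rw [← a3 i e5.le] at e2
      refine ((a1 i e5).slot e2).imp (fun e6 => ?_) fun e6 => ⟨e6, i, e5, e2⟩
      rw [← a1.succ e5] at e6
      by_contra e7
      have e8 : i + 1 < j := (Nat.succ_le_of_lt e5).lt_of_ne fun e => e7 (e ▸ e6)
      exact e3 (.inl ⟨x, hx, _, i.succ_pos, hj ▸ e8, e6.trans (a3 _ e5)⟩)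
    · have key : ∀ i < j, y ∈ B.slot c (.ex (c.cf x i)) →
          (∀ l < j, y ≠ c.cf x l) → _ ∧ ¬ B.Abs c X y := fun i e1 e2 e3 =>
        ⟨(⟨_, a5 i e1, e2⟩ : ∃ τ ∈ _, y ∈ B.slot c τ), fun e4 => by
          obtain ⟨x', e5, e6⟩ := h.abs hk (a5 i e1) e2 e4
          obtain rfl := Stp.ex.inj (Sum.inr.inj e5)
          exact e6.elim hc fun ⟨l, _, e7, e8⟩ => e3 l (hj ▸ e7) (e8.trans (a3 l (by omega)).symm)⟩
      rintro (rfl | ⟨e1, i, e2, e3⟩)
      · obtain ⟨i, rfl⟩ := Nat.exists_eq_succ_of_ne_zero h0.ne'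
        refine key i i.lt_succ_self ?_ fun l e1 e2 => ?_
        · rw [a3 _ le_rfl, a3 i i.le_succ]
          exact (h.pl_only hx (by omega)).2.2.1
        · have e3 := (a1.rk ht.1 le_rfl).2
          have e4 := (a1.rk ht.1 e1.le).2
          rw [e2] at e3
          omega
      · exact key i e2 e3 fun l e4 e5 => (a1.rk ht.1 e4.le).1.notS (e5 ▸ e1)
  rw [a7, cons_val, Multiset.map_cons, uT, sU_congr fun i hi => Cx.mp_chn hi, add_comm,
    Multiset.singleton_add]
  refine congrArg _ (Multiset.map_congr rfl fun f hf => ?_)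
  have e := ((a4 f).1 hf).1
  rw [ty, dif_neg, bt_S e]
  rintro ⟨e', he⟩
  obtain ⟨i, e1, rfl⟩ := h.en he
  exact (h.pl_only he.1 (by omega)).1.notS e

open Classical in
theorem opt_mac (hw : c.World c3 a2) (hk : .inr (.ex x) ∈ B.Ks c X) (hx : B.E c X x)
    (hc : ¬ B.CutW c X x) (hp : 0 < B.pl c X x) :
    (oFr (B.pl c X x), (B.kc c X (.inr (.ex x))).val.map (B.tk c X)) ∈
      opts c.r0 c.Om a2 c3 (c.S \ B.F c X) B0 (B.tk c X (.inr (.ex x))) := by
  have a0 : B.RN c X x ∨ RA c X x ∨ B.RT c X x := by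
    by_contra! b
    rw [pl, if_neg hc, if_neg b.1, if_neg (not_or.2 b.2)] at hp
    exact hp.false
  have ht : c.Top x := a0.elim (·.1) fun a => a.elim (·.1.1.1) (·.1.1.1)
  obtain ⟨j, hj⟩ : ∃ j, B.pl c X x = j := ⟨_, rfl⟩
  obtain ⟨a1, a2, a3⟩ := h.cf_dp hx ht hc
  have a4 := h.inj hx ht hc
  obtain ⟨b1, b2, b3, b4⟩ := h.pl_top hx
  rw [map_kc, tk, h.ty_head hp, bt_D ht.1, ht.2, h.kf_mac hk hx ht hc hj (hj ▸ hp), opts]
  rw [hj] at a1 a2 a3 a4 hp b1 b2 ⊢
  have a5 : (fun k : Fin j => c.ap (c.cf x k)) ∈ tup d x j := by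
    rw [tup, mem_filter]
    exact ⟨mem_univ _, a4.congr fun i hi => (Cx.mp_chn hi).symm⟩
  have a6 : sf d (mp d x fun k : Fin j => c.ap (c.cf x k)) j = c.cf x j :=
    sf_congr fun i hi => Cx.mp_chn (by omega)
  have a7 := h.lev_eq ht a2 (a1.rk ht.1 le_rfl).2
  have a8 : ∀ e, B.En c X (c.cf x j) e → x = e := fun e he => by
    obtain ⟨i, rfl⟩ := Nat.exists_eq_succ_of_ne_zero hp.ne'
    refine Stp.ex.inj (Sum.inr.inj (h.en_ow hk (mem_ow.2 ⟨hx, i, .inr (by omega), rfl⟩) ?_ he))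
    rw [a3 _ le_rfl]
    exact (h.pl_only hx (by omega)).2.2.1
  simp only [Multiset.mem_cons, Multiset.mem_add, Multiset.mem_bind, Multiset.mem_map]
  by_cases hn : B.RN c X x
  · have e1 := (Cx.cpl_lt hn.2.1).1
    have e2 := b1 hn
    have e3 : ∃ e, B.En c X (c.cf x j) e := ⟨x, hx, hn, by omega, by rw [e2]⟩
    refine .inr (.inl (.inl (.inr ⟨j, mem_Ico.2 ⟨hp, e2 ▸ e1⟩, _, a5, ?_⟩)))
    rw [ke, if_neg fun e => (b2 (.inr e.2)).2.2 hn, if_neg fun e => by omega, ty, dif_pos e3,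
      ← a8 _ e3.choose_spec, a6, Cx.mp_chn (by omega), ← e2,
      show c.lev (c.cf x j) = c.Om - j by omega]
    simp
  · obtain ⟨rfl, -⟩ := b2 (a0.resolve_left hn)
    have e1 : B.ty c X (c.cf x c.Om) = .D 0 none := by
      rw [ty, dif_neg fun ⟨e, he⟩ => hn (a8 e he ▸ he.2.1), bt_D (a1.rk ht.1 le_rfl).1,
        show c.lev (c.cf x c.Om) = 0 by omega]
    rw [e1]
    by_cases hr : B.RT c X x
    · refine .inr (.inr ⟨_, a5, c.tf (c.rs x), ?_, ?_⟩)
      · obtain ⟨e2, e3, -⟩ := hr.1.ri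
        have e4 := (Cx.tw_spec (a1 _ e2).2.1 e3).1
        rw [sU_congr fun i hi => Cx.mp_chn hi]
        refine mem_biUnion.2 ⟨_, mem_range.2 e2, ?_⟩
        rw [Cx.su_chn, ← (a1 _ e2).un, mem_filter]
        exact ⟨mem_image_of_mem _ e4.1, e4.2.1⟩
      · have e2 : ¬ B.IrT c X (c.rs x) := fun e => e.2 ⟨x, hx, hr, rfl⟩
        rw [ke, if_pos ⟨hx, hr⟩, a6, add_assoc]
        simp [tk, e2]
    · refine .inr (.inl (.inr ⟨fun k => c.ap (c.cf x k), ?_, ?_⟩))
      · have e2 : Iso d c.r0 c.Om c.Om c3 (c.S \ B.F c X) := fun a b => by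
          refine le_trans (Nat.cast_le.2 (card_le_card fun z hz => ?_)) ((hw.resolve_left
            (ht.1.lt.trans_le (rk_le (h.EH hx).1)).not_ge).1 a b)
          simp only [mem_filter, mem_univ, true_and] at hz ⊢
          obtain ⟨e2, f, e3, u, e4, o, e5, e6⟩ := hz
          exact ⟨e2, f, e3, u, e4, o, e5, fun y hy => rd_up Set.sdiff_subset (e6 y hy)⟩
        rw [Dn, if_pos e2, mem_val, mem_filter, sU_congr fun i hi => Cx.mp_chn hi]
        exact ⟨a5, h.dense hx ((a0.resolve_left hn).resolve_right hr)⟩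
      · rw [ke, if_neg fun e => hr e.2, if_neg fun e => by omega, a6]
        simp

open Classical in
theorem opt_std (hk : .inr (.ex x) ∈ B.Ks c X) (hx : B.E c X x) (hp : B.pl c X x = 0) :
    ∃ o, (o, (B.kc c X (.inr (.ex x))).val.map (B.tk c X)) ∈
      opts c.r0 c.Om a2 c3 S0 (B.V0 ∪ B.Vs c X) (B.tk c X (.inr (.ex x))) ∧
      B.Pk c X (.inr (.ex x)) o := by
  obtain ⟨a1, a2⟩ := h.EH hx
  have a3 : B.ow c X (.inr (.ex x)) = {.ex x} := by simp [ow, hx, hp]
  have a4 : ¬ B.CutW c X x := fun e => by have := h.pl_cut e; omega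
  have a5 : ¬ (RA c X x ∨ B.RT c X x) := fun e => by
    have := ((h.pl_top hx).2.1 e).1
    have := h.Om_pos
    omega
  have a6 := ap_spec a1.contr a2
  have a7 : B.ke c X (.inr (.ex x)) = if B.Tc c X x then {.tc x} else ∅ := by
    rw [ke, if_neg fun e => a5 (.inr e.2)]
    simp only [hp, true_and]
  have a8 := h.irT (ex_Ks.1 hk) hp
  have a9 : (if B.Tc c X x then oMk else 0,
      (B.ke c X (.inr (.ex x))).val.map fun σ => B.tk c X (.inr σ)) ∈ exT x (c.ap x) := by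
    rw [a7]
    split_ifs with e
    · have := vx_psn a6.1 (Cx.tw_spec (h.tc e).2.1 (h.tc e).2.2.1).1.1
      simp only [exT, Multiset.mem_cons, Multiset.mem_map]
      refine .inr ⟨psn d x (c.tw x).1, Multiset.mem_bind.2
        ⟨_, mem_univ_val _, Multiset.mem_singleton_self _⟩, ?_⟩
      simp [tk, a8 e, this, Cx.tf, Cx.pa]
    · simp only [exT, Multiset.pure_def, Multiset.bind_def, Multiset.bind_singleton, Fin.univ_val_map, List.ofFn_succ, Fin.coe_ofNat_eq_mod, Nat.zero_mod, Fin.val_succ, Multiset.map_coe, List.map_cons, List.map_ofFn, Multiset.cons_coe, empty_val, Multiset.map_zero, Multiset.mem_coe, List.mem_cons, Prod.mk.injEq, Multiset.zero_ne_singleton, and_false, List.mem_ofFn, Function.comp_apply, Multiset.singleton_ne_zero, exists_false, or_self, or_false]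
  have b1 : ∀ {ps : Finset (Pd d)} {ex : Fin n → Op n d} {z}, c.pdx x ∈ ps → z ∈ ex (c.ap x) →
      _ ∈ stp (B.V0 ∪ B.Vs c X) x ps ex := fun e1 e2 =>
    mem_stp (B.Shared c X (.ex x)) e1 e2 (sh_mem (ex_mem.2 hx))
  have b2 := fun m => pk_one (m := m) a3 (if_neg a2) (if_neg a4)
  have b3 := b2 (if B.Tc c X x then oMk else 0) (by
    by_cases e : B.Tc c X x <;> simp only [e, ↓ reduceIte, oMk, mr, a8, le_add_iff_nonneg_left, zero_le, and_self, Prod.fst_zero, Prod.snd_zero])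
  rw [map_kc, h.kf_one hk a3 fun y e => Stp.ex.inj e ▸ hp, slot, ← Cx.kids_pdx a1.contr a2, tk]
  by_cases hA : c.A x
  · obtain ⟨j, hj⟩ := Nat.exists_eq_succ_of_ne_zero (Cx.rk_pos a1.contr a2).ne'
    have e1 : j < c.r0 := hj.ge.trans (rk_le hA)
    have e2 := Cx.pdx_A hA a2
    rw [hj] at e2
    have e3 : ¬ B.Tc c X x := fun e => (h.tc e).2.1.2 hA
    rw [ty, dif_neg, Cx.bt, if_pos hA, hj, opts, if_pos e1, a7, if_neg e3]
    · exact ⟨_, Multiset.mem_cons_of_mem (b1 (z := (0, 0)) e2 (Multiset.mem_singleton_self _)),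
        b2 0 (by simp only [Prod.fst_zero, Prod.snd_zero, zero_le, and_self])⟩
    · rintro ⟨e, he⟩
      obtain ⟨i, e4, rfl⟩ := h.en he
      exact (h.pl_only he.1 (by omega)).1.2 hA
  have hD : c.D x := ⟨a1.contr, hA⟩
  have hO := h.Om_pos
  have hl : c.lev x < c.Om := Nat.mod_lt _ hO
  by_cases he : ∃ e, B.En c X x e
  · rw [ty, dif_pos he]
    obtain ⟨e1, e2, e3, e4⟩ := he.choose_spec
    generalize he.choose = e at *
    obtain ⟨e5, e6⟩ := Cx.cpl_lt e2.2.1
    have e7 := h.lev_eq e2.1 e5.le (e4 ▸ (Cx.cpt_cpl.rk e2.1.1 le_rfl).2)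
    obtain ⟨i, hi⟩ : ∃ i, c.lev x = i + 1 := ⟨c.lev x - 1, by omega⟩
    rw [hi, opts, if_pos (hi ▸ hl)]
    exact ⟨_, b1 (Cx.pdx_N hD (by omega) (by rw [Nat.mod_eq_of_lt (hi ▸ hl), hi])
      (e4 ▸ mem_sf (Nat.zero_le d)) (e4 ▸ e6)) a9, b3⟩
  rw [ty, dif_neg he, bt_D hD]
  rcases hi : c.lev x with _ | i
  · have e1 : c.lev x = (c.Om - 1 + 1) % c.Om := by rw [Nat.sub_add_cancel hO, Nat.mod_self, hi]
    rw [opts]
    simp only [Multiset.mem_cons, Multiset.mem_add]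
    by_cases hn : B.RN c X x
    · have e2 := (Cx.cpl_lt hn.2.1).2
      rw [← (h.pl_top hx).1 hn, hp, Cx.cf_zero a6.1, Cx.chn_vx d.zero_le] at e2
      have e3 := Cx.pdx_N hD (by omega) e1 (vx_mem a6.1 d.zero_le) e2
      rw [show psn d x (vx x 0) = 0 from psn_vx a6.1 0] at e3
      exact ⟨_, .inr (.inl (.inl (.inl (.inr (b1 e3 a9))))), b3⟩
    · have e2 : B.Irr c X x := ⟨hx, ⟨hD, hi⟩, hn, fun e => a5 (.inl e), fun e => a5 (.inr e), a4⟩
      refine ⟨_, .inr (.inl (.inl (.inl (.inl (.inr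
        (mem_mark (b1 (Cx.pdx_D hD (by omega) e1) a9))))))), ?_⟩
      rw [add_left_comm]
      exact b2 _ (by by_cases e : B.Tc c X x <;> simp [e, oMk, mr, a8, e2])
  · rw [opts, if_pos (hi ▸ hl)]
    exact ⟨_, Multiset.mem_cons_of_mem (Multiset.mem_add.2 (.inr (b1 (Cx.pdx_D hD (by omega)
      (by rw [Nat.mod_eq_of_lt (hi ▸ hl), hi])) a9))), b3⟩

open Classical in
theorem opt_tc (hk : .inr (.tc g) ∈ B.Ks c X) :
    ∃ o, (o, (B.kc c X (.inr (.tc g))).val.map (B.tk c X)) ∈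
      opts c.r0 c.Om a2 c3 S0 (B.V0 ∪ B.Vs c X) (B.tk c X (.inr (.tc g))) ∧
      B.Pk c X (.inr (.tc g)) o := by
  have a1 := tc_Ks.1 hk
  obtain ⟨a2, a3, a4⟩ := h.step (tc_mem.2 a1)
  have a5 := (Cx.tw_spec (h.tc a1).2.1 (h.tc a1).2.2.1).1
  refine ⟨_, ?_, pk_one (m := 0) (σ := .tc g) rfl rfl rfl (by simp only [Prod.fst_zero, Prod.snd_zero, zero_le, and_self])⟩
  rw [map_kc, h.kf_one hk rfl fun y e => by simp at e, slot, Cx.ts,
    ← Cx.kids_pds (g := c.tf g) (u := (c.tw g).2.1) a2 a3, tk, opts]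
  refine Multiset.mem_bind.2 ⟨_, mem_univ_val _, mem_stp (z := (0, 0)) _ (Cx.pds_qP h.Om_pos a2
    a5.2.2.2.2.1 (fun y hy => (a4 y hy).1.contr) (fun e => ?_) fun e => ?_)
    (Multiset.mem_singleton_self _) (sh_mem (tc_mem.2 a1))⟩
  · split_ifs at e
  · split_ifs at e with b
    obtain ⟨e, -, b1, rfl⟩ := not_not.1 fun b1 => b ⟨a1, b1⟩
    by_contra! b2
    exact b1.1.ri.2.2 ⟨_, a5.1, a5.2.1, a5.2.2.1, a5.2.2.2.1, a5.2.2.2.2.1, fun y hy =>
      not_not.1 fun b3 => b2 y hy ⟨(a4 y hy).1.contr, b3⟩⟩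

open Classical in
theorem opt_si (hk : .inr (.si i) ∈ B.Ks c X) :
    ∃ o, (o, (B.kc c X (.inr (.si i))).val.map (B.tk c X)) ∈
      opts c.r0 c.Om a2 c3 S0 (B.V0 ∪ B.Vs c X) (B.tk c X (.inr (.si i))) ∧
      B.Pk c X (.inr (.si i)) o := by
  have a1 := si_Ks.1 hk
  obtain ⟨a2, -, a3, a4, a5, a6, a7, -⟩ := h.ok.site i a1
  have b1 : ∀ {k : Cl} {ex : Fin n → Op n d} {z}, (k = .A → ∀ y ∈ B.sl i, c.A y) →
      (k = .D → ∃ y ∈ B.sl i, c.D y) → z ∈ ex (B.u i) →
      _ ∈ stp (B.V0 ∪ B.Vs c X) (B.g i) (qP d c.r0 c.Om (psn d (B.g i) (B.o i)) k) ex :=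
    fun e1 e2 e3 => mem_stp (B.Shared c X (.si i)) (Cx.pds_qP h.Om_pos a2 a4
      (fun y hy => (a5 y hy).contr) e1 e2) e3 (sh_mem (si_mem.2 a1))
  have b2 := fun m => pk_one (B := B) (c := c) (X := X) (k := .inr (.si i)) (m := m) rfl rfl rfl
  rw [map_kc, h.kf_one hk rfl fun y e => by simp at e, slot, sl, ← Cx.kids_pds a2 a3, ke,
    image_val_of_injOn fun _ _ _ _ => Stp.si.inj, Multiset.map_map]
  simp only [Function.comp_def, tk, sT]
  rcases hs : B.sty with _ | k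
  · have e1 := sch_exP (B := B) (vx_psn a2 a4)
    simp only [opts, Multiset.mem_bind, Multiset.mem_add]
    by_cases e2 : ∃ y ∈ B.sl i, c.D y
    · refine ⟨_, ⟨_, mem_univ_val _, .inr (mem_mark (b1 (by simp) (fun _ => e2) e1))⟩, ?_⟩
      rw [add_left_comm]
      exact b2 _ (by by_cases e : ∃ j, B.sib i j <;> simp [-not_exists, e, oMk, oEd, mr, ed, hs, e2])
    · exact ⟨_, ⟨_, mem_univ_val _, .inl (b1 (fun _ y hy => not_not.1 fun e =>
        e2 ⟨y, hy, (a5 y hy).contr, e⟩) (by simp) e1)⟩,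
        b2 _ (by by_cases e : ∃ j, B.sib i j <;> simp [-not_exists, e, oMk, mr])⟩
  · have e1 : B.sch i = ∅ := eq_empty_of_forall_notMem fun j e =>
      sch_start e (.inl (by simp [hs]))
    rw [e1, opts]
    exact ⟨_, Multiset.mem_bind.2 ⟨_, mem_univ_val _, b1 (z := (0, 0)) (fun e => a6 (e ▸ hs))
      (fun e => a7 (e ▸ hs)) (Multiset.mem_singleton_self _)⟩, b2 0 (by simp only [Prod.fst_zero, Prod.snd_zero, zero_le, and_self])⟩

theorem opt (hw : c.World c3 a2) (hk : k ∈ B.Ks c X) :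
    ∃ o, (o, (B.kc c X k).val.map (B.tk c X)) ∈
      opts c.r0 c.Om a2 c3 (c.S \ B.F c X) (B.V0 ∪ B.Vs c X) (B.tk c X k) ∧ B.Pk c X k o := by
  rcases k with x | x | x | x
  · obtain ⟨-, a1, a2, a3⟩ := h.ok.root x (inl_Ks.1 hk)
    refine ⟨0, ?_, by constructor <;> simp [lf, ct, ow]⟩
    rw [map_kc, tk, opts]
    refine Multiset.mem_map.2 ⟨_, Cx.bt_tC h.Om_pos a1.contr a2 a3, ?_⟩
    simp [kf, ke, ty, (h.root (inl_Ks.1 hk)).2]
  · by_cases hx : B.E c X x
    · by_cases hc : B.CutW c X x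
      · exact h.opt_cut hw hk hc
      rcases (B.pl c X x).eq_zero_or_pos with hp | hp
      · exact h.opt_std hk hx hp
      · obtain ⟨e1, e2⟩ := h.ow_card hx hp
        refine ⟨_, h.opt_mac hw hk hx hc hp, ?_⟩
        constructor <;> simp [oFr, lf, ct, (h.EH hx).2, *]
    · have e1 : B.ow c X (.inr (.ex x)) = ∅ := if_neg hx
      have e2 : ¬ B.CutW c X x := fun e => hx (h.cut e).1
      have e3 : B.ty c X x = c.bt x := dif_neg fun ⟨e, a1, a2, _, a3⟩ => hx (.inl (a3 ▸ h.chain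
        (h.top a1 a2.1) a2.1 (fun b => a2.2.1 b.1.2) Cx.cpt_cpl Cx.cpl_le le_rfl))
      have e4 : ¬ B.Tc c X x := fun e => hx (h.tc e).1
      have e5 : (B.kc c X (.inr (.ex x))).val.map (B.tk c X) = 0 := by
        simp [map_kc, kf, ke, e1, hx, e4]
      rw [e5, tk, e3]
      by_cases hS : x ∈ c.S
      · exact ⟨oLv x, by simp [bt_S hS, opts], by constructor <;> simp [oLv, lf, ct, *]⟩
      · exact ⟨oRp, rp_mem, by constructor <;> simp [oRp, lf, ct, *]⟩
  · exact h.opt_tc hk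
  · exact h.opt_si hk

end Good

end Pool.Agent.MP_8f9e6e_pr.J.Base

end

section

/-! The weights dominate the options of every task. -/

open Finset

namespace Pool.Agent.MP_8f9e6e_pr.J

variable {n d : ℕ} [NeZero n]

/-- Total weight of a family of options. -/
noncomputable def supS (w : Oc n d → ℝ) (T : Ty d → ℝ) (A : Op n d) : ℝ :=
  (A.map fun c => w c.1 * (c.2.map fun t => T t.2).prod).sum

/-- Weight of an optional type. -/
noncomputable def supU (T : Ty d → ℝ) (t : Option (Ty d)) : ℝ := t.elim 1 T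

/-- Total weight of a family of productions. -/
noncomputable def supP (T : Ty d → ℝ) (ps : Finset (Pd d)) : ℝ :=
  ∑ τ ∈ ps, ∏ i, supU T (τ i)

section

variable {w : Oc n d → ℝ} {T : Ty d → ℝ}

omit [NeZero n] in
theorem sup_add (A B : Op n d) : supS w T (A + B) = supS w T A + supS w T B := by
  simp [supS]

omit [NeZero n] in
theorem sup_zero : supS w T 0 = 0 := by simp [supS]

omit [NeZero n] in
theorem sup_cons (c : Oc n d × Multiset (Tk n d)) (A : Op n d) :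
    supS w T (c ::ₘ A) = w c.1 * (c.2.map fun t => T t.2).prod + supS w T A := by
  simp [supS]

omit [NeZero n] in
theorem sup_mark (wa : ∀ a b, w (a + b) = w a * w b) (o : Oc n d) (A : Op n d) :
    supS w T (mark o A) = w o * supS w T A := by
  simp only [supS, mark, Multiset.map_map, Function.comp_def, wa, mul_assoc,
    Multiset.sum_map_mul_left]

omit [NeZero n] in
theorem sup_bind {ι : Type} (s : Finset ι) (f : ι → Op n d) :
    supS w T (s.val.bind f) = ∑ a ∈ s, supS w T (f a) := by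
  simp only [supS, Multiset.map_bind, Multiset.sum_bind]
  rfl

omit [NeZero n] in
theorem sup_map {ι : Type} (s : Finset ι) (f : ι → Oc n d × Multiset (Tk n d)) :
    supS w T (s.val.map f) = ∑ a ∈ s, w (f a).1 * ((f a).2.map fun t => T t.2).prod := by
  simp only [supS, Multiset.map_map, Function.comp_def]
  rfl

omit [NeZero n] in
theorem sup_const {ι : Type} (M : Multiset ι) (o : Oc n d) (g : ι → Fc n) (t : Ty d) :
    supS w T (M.map fun k => (o, {(g k, t)})) = M.card * (w o * T t) := by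
  simp [supS]

omit [NeZero n] in
theorem sup_opt (y : Fc n) (t : Option (Ty d)) :
    ((((t.map fun t => (y, t)).toList : List (Tk n d)) : Multiset (Tk n d)).map
      fun t => T t.2).prod = supU T t := by
  cases t <;> simp [supU]

theorem sup_kids (x : Fc n) (u : Fin n) (τ : Pd d) :
    ((kids x u τ).map fun t => T t.2).prod = ∏ i, supU T (τ i) := by
  simp only [kids, Multiset.map_bind, Multiset.prod_bind, sup_opt]
  rfl

theorem sup_inner (x : Fc n) (ps : Finset (Pd d)) (ex : Fin n → Op n d) (s : Finset (Fin n)) :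
    supS w T (s.val.bind fun u => ps.val.bind fun τ =>
      (ex u).map fun z => (z.1, kids x u τ + z.2)) = ∑ u ∈ s, supP T ps * supS w T (ex u) := by
  rw [sup_bind]
  refine sum_congr rfl fun u _ => ?_
  rw [sup_bind, supP, sum_mul]
  refine sum_congr rfl fun τ _ => ?_
  simp only [supS, Multiset.map_map, Function.comp_def, Multiset.map_add, Multiset.prod_add,
    sup_kids, ← Multiset.sum_map_mul_left, mul_left_comm]

omit [NeZero n] in
theorem sup_U0 (hT : ∀ t, 0 ≤ T t) (t : Option (Ty d)) : 0 ≤ supU T t := by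
  cases t
  · exact zero_le_one
  · exact hT _

omit [NeZero n] in
theorem sup_P0 (hT : ∀ t, 0 ≤ T t) (ps : Finset (Pd d)) : 0 ≤ supP T ps :=
  sum_nonneg fun _ _ => prod_nonneg fun _ _ => sup_U0 hT _

theorem sup_stp (wa : ∀ a b, w (a + b) = w a * w b) (hT : ∀ t, 0 ≤ T t) {θ ε : ℝ} {K : ℕ}
    (hθ : 0 ≤ θ) (hε : 0 ≤ ε) (hK : 0 < K) (w1 : w (oFr 1) = θ) (w2 : w oOl = θ * (ε * n / K))
    {B0 : Finset (Fin n)} (hB : B0.card ≤ K) (x : Fc n) (ps : Finset (Pd d))
    (ex : Fin n → Op n d) {P E : ℝ} (hP : supP T ps ≤ P) (hE0 : 0 ≤ E)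
    (hE : ∀ u, supS w T (ex u) = E) :
    supS w T (stp B0 x ps ex) ≤ θ * (1 + ε) * E * (n * P) := by
  have h0 := sup_P0 hT ps
  have hK' : (0 : ℝ) < K := by exact_mod_cast hK
  have hB' : (B0.card : ℝ) ≤ K := by exact_mod_cast hB
  rw [stp, sup_add, sup_mark wa, sup_mark wa, sup_inner, sup_inner, w1, w2]
  simp only [hE, sum_const, card_univ, Fintype.card_fin, nsmul_eq_mul]
  have h1 : supP T ps * E ≤ P * E := mul_le_mul_of_nonneg_right hP hE0
  have h2 : (B0.card : ℝ) * (supP T ps * E) ≤ K * (P * E) :=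
    mul_le_mul hB' h1 (mul_nonneg h0 hE0) hK'.le
  have h3 : θ * (ε * n / K) * (K * (P * E)) = θ * ε * E * (n * P) := by field_simp
  have h4 := mul_le_mul_of_nonneg_left h2 (show 0 ≤ θ * (ε * n / K) by positivity)
  have h5 := mul_le_mul_of_nonneg_left h1 (show 0 ≤ θ * n by positivity)
  linarith only [h3, h4, h5]

omit [NeZero n] in
theorem sup_pi (t : Fin (d + 1) → Finset (Option (Ty d))) :
    supP T (Fintype.piFinset t) = ∏ i, ∑ a ∈ t i, supU T a := (prod_univ_sum _ _).symm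

omit [NeZero n] in
theorem sup_union (hT : ∀ t, 0 ≤ T t) (A B : Finset (Pd d)) :
    supP T (A ∪ B) ≤ supP T A + supP T B := by
  have := sup_P0 hT (A ∩ B)
  have h := sum_union_inter (s₁ := A) (s₂ := B) (f := fun τ : Pd d => ∏ i, supU T (τ i))
  unfold supP at *
  linarith

omit [NeZero n] in
theorem sup_biU (hT : ∀ t, 0 ≤ T t) {ι : Type} [DecidableEq ι] (s : Finset ι)
    (f : ι → Finset (Pd d)) {b : ℝ} (h : ∀ a ∈ s, supP T (f a) ≤ b) :
    supP T (s.biUnion f) ≤ s.card * b := by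
  induction s using Finset.induction_on with
  | empty => simp [supP]
  | insert a s ha ih =>
    rw [biUnion_insert, card_insert_of_notMem ha]
    have h1 := sup_union hT (f a) (s.biUnion f)
    have h2 := ih fun a' ha' => h a' (mem_insert_of_mem ha')
    have h3 := h a (mem_insert_self _ _)
    push_cast
    linarith

omit [NeZero n] in
theorem sup_prod1 (k : Fin (d + 1)) (f : Fin (d + 1) → ℝ) (b : ℝ) (h : ∀ l, l ≠ k → f l = b) :
    ∏ l, f l = f k * b ^ d := by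
  rw [← mul_prod_erase _ _ (mem_univ k), prod_congr rfl fun l hl => h l (mem_erase.1 hl).1]
  simp only [prod_const, mem_univ, card_erase_of_mem, card_univ, Fintype.card_fin, add_tsub_cancel_right]

omit [NeZero n] in
theorem sup_prod2 {k j : Fin (d + 1)} (hj : j ≠ k) (f : Fin (d + 1) → ℝ) (b : ℝ)
    (h : ∀ l, l ≠ k → l ≠ j → f l = b) : ∏ l, f l = f k * f j * b ^ (d - 1) := by
  have h1 : j ∈ univ.erase k := mem_erase.2 ⟨hj, mem_univ _⟩
  rw [← mul_prod_erase _ _ (mem_univ k), ← mul_prod_erase _ _ h1, prod_congr rfl fun l hl =>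
    h l (mem_erase.1 (mem_erase.1 hl).2).1 (mem_erase.1 hl).1, mul_assoc]
  simp only [prod_const, card_erase_of_mem h1, mem_univ, card_erase_of_mem, card_univ, Fintype.card_fin, add_tsub_cancel_right]

end

omit [NeZero n] in
theorem sup_card_sU {p : ℕ → Fin n} {j : ℕ} (h : Inj p (j + d + 1)) :
    (sU d p j).card = d * j := by
  have hin : ∀ a b, a < j + d + 1 → b < j + d + 1 → p a = p b → a = b :=
    fun a b ha hb hab => h ha hb hab
  have hs : ∀ i v, v ∈ sf d p i ↔ ∃ l < d + 1, p (i + l) = v := fun i v => by simp only [sf, mem_image, mem_range, Order.lt_add_one_iff]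
  have h1 : ∀ i, p i ∈ sf d p i := fun i => (hs i _).2 ⟨0, by omega, rfl⟩
  have key : ∀ i i', i < i' → i' < j → Disjoint (su d p i) (su d p i') := fun i i' hi hi' => by
    refine disjoint_left.2 fun f hf hf' => ?_
    obtain ⟨v, hv, rfl⟩ := mem_image.1 hf
    obtain ⟨v', -, hv'⟩ := mem_image.1 hf'
    have h2 : p i ∈ par (sf d p i') (p (i' + d + 1)) v' :=
      hv' ▸ mem_insert_of_mem (mem_erase.2 ⟨(mem_erase.1 hv).1.symm, h1 i⟩)
    rcases mem_insert.1 h2 with h3 | h3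
    · have := hin _ _ (by omega) (by omega) h3
      omega
    · obtain ⟨l, hl, h4⟩ := (hs _ _).1 (mem_of_mem_erase h3)
      have := hin _ _ (by omega) (by omega) h4
      omega
  rw [sU, card_biUnion, sum_congr rfl (g := fun _ => d), sum_const, card_range, smul_eq_mul,
    mul_comm]
  · intro i hi
    have hi' := mem_range.1 hi
    have h2 : p (i + d + 1) ∉ sf d p i := fun h3 => by
      obtain ⟨l, hl, h4⟩ := (hs _ _).1 h3
      have := hin _ _ (by omega) (by omega) h4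
      omega
    rw [su, slt, card_image_of_injOn, card_erase_of_mem (h1 i), sf, card_image_of_injOn,
      card_range, Nat.add_sub_cancel]
    · intro a ha b hb hab
      have := hin _ _ (by have := mem_range.1 ha; omega) (by have := mem_range.1 hb; omega) hab
      omega
    · intro a ha b hb hab
      by_contra h3
      have h4 : a ∈ par (sf d p i) (p (i + d + 1)) a :=
        hab ▸ mem_insert_of_mem (mem_erase.2 ⟨h3, mem_of_mem_erase ha⟩)
      rcases mem_insert.1 h4 with h5 | h5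
      · exact h2 (h5 ▸ mem_of_mem_erase ha)
      · exact notMem_erase _ _ h5
  · intro i hi i' hi' hne
    rcases lt_or_gt_of_ne hne with h2 | h2
    · exact key _ _ h2 (mem_range.1 hi')
    · exact (key _ _ h2 (mem_range.1 hi)).symm

section

variable (W : Wt) (r0 Om : ℕ) (m : ℝ)

omit [NeZero n] in
theorem sup_tB (j : ℕ) : ∑ a ∈ tB d j, supU (W.wT d r0 Om m) a = W.Xb j * m := by
  rw [tB, sum_image fun a _ b _ h => by simpa using h, Wt.Xb, sum_mul]
  rfl

omit [NeZero n] in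
theorem sup_Dn (i : ℕ) : supU (W.wT d r0 Om m) (some (.D i none)) = W.G i * m := by
  cases i <;> rfl

omit [NeZero n] in
theorem sup_tD : ∑ a ∈ tD d Om, supU (W.wT d r0 Om m) a = W.SG Om * m := by
  rw [tD, sum_image fun a _ b _ h => by simpa using h, Wt.SG, sum_mul]
  exact sum_congr rfl fun i _ => sup_Dn W r0 Om m i

omit [NeZero n] in
theorem sup_tC (k : Cl) : ∑ a ∈ tC d r0 Om k, supU (W.wT d r0 Om m) a = W.xC r0 Om k * m := by
  cases k
  · exact sup_tB W r0 Om m _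
  · exact sup_tD W r0 Om m
  · rw [tC, sum_union, sup_tB, sup_tD, Wt.xC, add_mul]
    simp only [tB, tD, disjoint_left, mem_image, mem_range, Order.lt_add_one_iff, not_exists, not_and, forall_exists_index, and_imp, forall_apply_eq_imp_iff₂, Option.some.injEq, reduceCtorEq, not_false_eq_true, implies_true]

omit [NeZero n] in
theorem sup_tH : ∑ a ∈ tB d (r0 + 1) ∪ tD d Om, supU (W.wT d r0 Om m) a = W.xC r0 Om .H * m :=
  sup_tC W r0 Om m .H

omit [NeZero n] in
theorem sup_pE (j : ℕ) : supP (W.wT d r0 Om m) (pE d j) =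
    (W.Xb (j + 1) ^ (d + 1) - W.Xb j ^ (d + 1)) * m ^ (d + 1) := by
  have h1 : ∀ j, supP (W.wT d r0 Om m) (Fintype.piFinset fun _ => tB d j) =
      W.Xb j ^ (d + 1) * m ^ (d + 1) := fun j => by
    rw [sup_pi]
    simp [sup_tB, mul_pow]
  have h2 : (Fintype.piFinset fun _ : Fin (d + 1) => tB d j) ⊆
      Fintype.piFinset fun _ => tB d (j + 1) :=
    Fintype.piFinset_subset _ _ fun _ => image_subset_image (range_subset_range.2 j.le_succ)
  rw [sub_mul, ← h1, ← h1, pE, supP, sum_sdiff_eq_sub h2]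
  rfl

variable {W r0 Om m}

omit [NeZero n] in
theorem sup_p1 (hT : ∀ t, 0 ≤ W.wT d r0 Om m t) (i : ℕ) : supP (W.wT d r0 Om m) (p1 d r0 i) ≤
    (d + 1) * W.Xb (r0 + 1) ^ d * W.G i * m ^ (d + 1) := by
  refine (sup_biU hT _ _ (b := W.Xb (r0 + 1) ^ d * W.G i * m ^ (d + 1)) fun k _ => ?_).trans_eq ?_
  · rw [sup_pi, sup_prod1 k _ (W.Xb (r0 + 1) * m) fun l hl => by rw [if_neg hl, sup_tB]]
    rw [if_pos rfl, sum_singleton, sup_Dn]
    exact le_of_eq (by ring)
  · simp [mul_assoc]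

omit [NeZero n] in
theorem sup_p2 (hd : 1 ≤ d) (hT : ∀ t, 0 ≤ W.wT d r0 Om m t) (hm : 0 ≤ m)
    (hH : 0 ≤ W.xC r0 Om .H) : supP (W.wT d r0 Om m) (p2 d r0 Om) ≤
    (d + 1) ^ 2 * W.SG Om ^ 2 * W.xC r0 Om .H ^ (d - 1) * m ^ (d + 1) := by
  have h1 : m ^ (d + 1) = m ^ (d - 1) * m ^ 2 := by
    rw [← pow_add]
    congr 1
    omega
  refine (sup_biU hT _ _ (b := W.SG Om ^ 2 * W.xC r0 Om .H ^ (d - 1) * m ^ (d + 1))
    fun k hk => ?_).trans ?_
  · rw [sup_pi, sup_prod2 (mem_offDiag.1 hk).2.2.symm _ (W.xC r0 Om .H * m) fun l h2 h3 => by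
      rw [if_neg (not_or.2 ⟨h2, h3⟩), sup_tH]]
    rw [if_pos (.inl rfl), if_pos (.inr rfl), sup_tD, h1]
    exact le_of_eq (by ring)
  · have h2 : ((univ : Finset (Fin (d + 1))).offDiag.card : ℝ) ≤ (d + 1) ^ 2 := by
      have : (univ : Finset (Fin (d + 1))).offDiag.card ≤ (d + 1) ^ 2 := by
        rw [offDiag_card, card_univ, Fintype.card_fin, sq]
        omega
      exact_mod_cast this
    rw [mul_assoc ((d + 1 : ℝ) ^ 2), mul_assoc ((d + 1 : ℝ) ^ 2)]
    exact mul_le_mul_of_nonneg_right h2 (by positivity)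

omit [NeZero n] in
theorem sup_pD (hd : 1 ≤ d) (hT : ∀ t, 0 ≤ W.wT d r0 Om m t) (hm : 0 ≤ m)
    (hH : 0 ≤ W.xC r0 Om .H) (i : ℕ) (k : Option (Fin (d + 1))) :
    supP (W.wT d r0 Om m) (pD d r0 Om i k) ≤
    (W.Xb (r0 + 1) ^ (d + 1) - W.Xb r0 ^ (d + 1) +
      (d + 1) ^ 2 * W.SG Om ^ 2 * W.xC r0 Om .H ^ (d - 1) +
      ((d + 1) * W.Xb (r0 + 1) ^ d - k.elim 0 (fun _ => 1) * W.y 0 ^ d) * W.G i) * m ^ (d + 1) := by
  have h1 := sup_union hT (pE d r0 ∪ p1 d r0 i) (p2 d r0 Om)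
  have h2 := sup_union hT (pE d r0) (p1 d r0 i)
  have h3 := sup_p1 hT i
  have h4 := sup_p2 hd hT hm hH
  rw [sup_pE] at h2
  cases k with
  | none =>
    simp only [pD, Option.map_none, Option.toFinset_none, sdiff_empty, Option.elim]
    linarith only [h1, h2, h3, h4]
  | some k =>
    have h5 : {p0 d i k} ⊆ pE d r0 ∪ p1 d r0 i ∪ p2 d r0 Om := by
      refine singleton_subset_iff.2 (mem_union_left _ (mem_union_right _ ?_))
      refine mem_biUnion.2 ⟨k, mem_univ _, Fintype.mem_piFinset.2 fun l => ?_⟩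
      by_cases hl : l = k <;> simp [p0, hl, tB]
    have h6 : ∏ l, supU (W.wT d r0 Om m) (p0 d i k l) = W.y 0 ^ d * W.G i * m ^ (d + 1) := by
      rw [sup_prod1 k _ (W.y 0 * m) fun l hl => by rw [p0, if_neg hl]; rfl, p0, if_pos rfl, sup_Dn]
      ring
    simp only [pD, Option.map_some, Option.toFinset_some, Option.elim]
    rw [supP, sum_sdiff_eq_sub h5, sum_singleton, h6]
    unfold supP at *
    linarith only [h1, h2, h3, h4]

/-- The weight of a probe with a fixed apex and a fixed ignored position. -/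
noncomputable def supQ (W : Wt) (d r0 Om : ℕ) : Cl → ℝ
  | .A => W.xC r0 Om .A ^ d
  | .D => d * W.SG Om * W.xC r0 Om .H ^ (d - 1)
  | .H => W.xC r0 Om .H ^ d

omit [NeZero n] in
theorem sup_xP (c : Cl) : W.xP d r0 Om c = W.nu * (d + 1) * supQ W d r0 Om c := by
  cases c <;> rfl

omit [NeZero n] in
theorem sup_qP (hd : 1 ≤ d) (hT : ∀ t, 0 ≤ W.wT d r0 Om m t) (k : Fin (d + 1)) (c : Cl) :
    supP (W.wT d r0 Om m) (qP d r0 Om k c) ≤ supQ W d r0 Om c * m ^ d := by
  cases c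
  · rw [qP, sup_pi, sup_prod1 k _ (W.Xb (r0 + 1) * m) fun l hl => by rw [if_neg hl, sup_tB]]
    simp [supU, supQ, Wt.xC, mul_pow]
  · have h1 : m ^ d = m ^ (d - 1) * m := by rw [← pow_succ, Nat.sub_add_cancel hd]
    refine (sup_biU hT _ _ (b := W.SG Om * W.xC r0 Om .H ^ (d - 1) * m ^ d)
      fun j hj => ?_).trans_eq ?_
    · have h2 := (mem_erase.1 hj).1
      rw [sup_pi, sup_prod2 h2 _ (W.xC r0 Om .H * m) fun l h3 h4 => by
        rw [if_neg h3, if_neg h4, sup_tH]]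
      rw [if_pos rfl, if_neg h2, if_pos rfl, sup_tD, sum_singleton, h1]
      exact le_of_eq (by simp only [supU, Option.elim]; ring)
    · simp only [mem_univ, card_erase_of_mem, card_univ, Fintype.card_fin, add_tsub_cancel_right, mul_assoc, supQ]
  · rw [qP, sup_pi, sup_prod1 k _ (W.xC r0 Om .H * m) fun l hl => by rw [if_neg hl, sup_tH]]
    simp [supU, supQ, mul_pow]

end

theorem sup_mm (hd : 1 ≤ d) : 0 < mm n d ∧ n * mm n d ^ d = 1 := by
  have hn : (0 : ℝ) < n := by exact_mod_cast Nat.pos_of_ne_zero (NeZero.ne n)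
  have hd' : (d : ℝ) ≠ 0 := by exact_mod_cast (by omega : d ≠ 0)
  refine ⟨Real.rpow_pos_of_pos hn _, ?_⟩
  rw [mm, ← Real.rpow_natCast, ← Real.rpow_mul hn.le, neg_mul, one_div, inv_mul_cancel₀ hd',
    Real.rpow_neg_one, mul_inv_cancel₀ hn.ne']

theorem sup_tup (x : Fc n) (j : ℕ) : ((tup d x j).card : ℝ) ≤ (n : ℝ) ^ j := by
  have := card_le_univ (tup d x j)
  rw [Fintype.card_fun, Fintype.card_fin, Fintype.card_fin] at this
  exact_mod_cast this

theorem sup_dense {r0 Om : ℕ} {c3 : ℝ} (hc : c3 ≤ 1) (S0 : Set (Fc n)) (x : Fc n) :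
    ((Dn d r0 Om c3 S0 x).card : ℝ) ≤ (1 - c3) * (n : ℝ) ^ Om ∧
      Dn d r0 Om c3 S0 x ⊆ tup d x Om := by
  classical
  unfold Dn
  split_ifs with h
  · refine ⟨le_trans (le_of_eq ?_) (h (vx x) fun _ => 0), filter_subset _ _⟩
    rw [tup, filter_filter, cd]
    congr
  · exact ⟨by rw [card_empty, Nat.cast_zero]; exact mul_nonneg (by linarith) (by positivity),
      empty_subset _⟩

theorem sup_uT {T : Ty d → ℝ} {x : Fc n} {j : ℕ} {z : Fin j → Fin n} (hz : z ∈ tup d x j) :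
    ((uT d (mp d x z) j).map fun t => T t.2).prod = T (.E 0) ^ (d * j) := by
  classical
  rw [← sup_card_sU (mem_filter.1 hz).2]
  simp [uT]

theorem sup (hd : 1 ≤ d) (W : Wt) {r0 Om a2 K : ℕ} {c3 kc q : ℝ} (hW : W.GF d r0 Om c3 kc)
    (S0 : Set (Fc n)) (B0 : Finset (Fin n)) (hB : B0.card ≤ K) (hK : 0 < K) (hq0 : 0 ≤ q)
    (hq : q ≤ W.γ * mm n d)
    (hcut : a2 * ((d + 1 : ℝ) ^ (d + 1)) ^ 2 * (q ^ (d * (d + 1)) * W.θ ^ (d + 1)) ≤ kc * mm n d)
    (sh : Finset (Fin n) × Multiset (Tk n d)) (A : Finset (Oc n d))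
    (hA : ∀ o ∈ A, Der (opts r0 Om a2 c3 S0 B0) sh.2 o) :
    ∑ o ∈ A, W.wO q (mm n d) K o ≤ W.wS r0 Om sh := by
  obtain ⟨hm, hn⟩ := sup_mm (n := n) hd
  have hε := hW.hε.1
  have hθ : 0 < W.θ := by linarith only [hW.hθ.1]
  have hκ := hW.hκ.1
  have hkc := hW.hc.2.2
  have hy : ∀ j, 0 ≤ W.y j := fun j => hε.le.trans (hW.y0 j)
  have hG : ∀ j, 0 ≤ W.G j := fun j => by linarith only [hW.G0 j, hε, hkc]
  have hX : ∀ j, 0 ≤ W.Xb j := fun j => sum_nonneg fun i _ => hy i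
  have hS : 0 ≤ W.SG Om := sum_nonneg fun i _ => hG i
  have hC : ∀ k, 0 ≤ W.xC r0 Om k := fun k => by
    cases k
    exacts [hX _, hS, add_nonneg (hX _) hS]
  have hP : ∀ k, 0 ≤ W.xP d r0 Om k := fun k => by
    have := hC .A
    have := hC .H
    cases k <;> simp only [Wt.xP, Wt.nu] <;> positivity
  have hWP : 0 ≤ W.WP := zero_le_one.trans hW.wp.1
  unfold Wt.wS
  generalize mm n d = m at *
  have hT : ∀ t, 0 ≤ W.wT d r0 Om m t := by
    rintro (j | ⟨_ | i, _ | k⟩ | k | k | _)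
    exacts [mul_nonneg (hy _) hm.le, mul_nonneg (hG _) hm.le, mul_nonneg (hG _) hm.le,
      mul_nonneg (hG _) hm.le, mul_nonneg (hW.N0 _) hm.le, mul_nonneg (hC _) hm.le, hP _, hWP]
  have wa : ∀ a b : Oc n d, W.wO q m K (a + b) = W.wO q m K a * W.wO q m K b := fun a b => by
    simp only [Wt.wO, Prod.fst_add, Prod.snd_add, Multiset.card_add, pow_add]
    ring
  have w0 : W.wO q m K (0 : Oc n d) = 1 := by simp only [Wt.wO, Prod.fst_zero, Multiset.card_zero, pow_zero, Prod.snd_zero, mul_one]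
  have wF : ∀ j, W.wO q m K (oFr j : Oc n d) = W.θ ^ j := fun j => by simp [Wt.wO, oFr]
  have wOl : W.wO q m K (oOl : Oc n d) = W.θ * (W.ε * n / K) := by simp [Wt.wO, oOl]
  have wR : W.wO q m K (oRp : Oc n d) = W.ε * m := by simp [Wt.wO, oRp]
  have wM : W.wO q m K (oMk : Oc n d) = W.ε := by simp [Wt.wO, oMk]
  have wE : W.wO q m K (oEd : Oc n d) = W.κ := by simp [Wt.wO, oEd]
  have wL : ∀ x, W.wO q m K (oLv x : Oc n d) = q := fun x => by simp [Wt.wO, oLv]
  have wC : ∀ k, W.wO q m K (oCt k : Oc n d) = q ^ (d * (d + 1)) * W.θ ^ (d + 1) := fun k => by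
    simp [Wt.wO, oCt]
  have hw : ∀ o : Oc n d, 0 ≤ W.wO q m K o := fun o => by
    unfold Wt.wO
    positivity
  generalize W.wO q m K = w at *
  refine der_sum w (fun t => W.wT d r0 Om m t.2) w0 wa hw (fun t => hT t.2) ?_ _ A hA
  have hn1 : n * m ^ (d + 1) = m := by rw [pow_succ, ← mul_assoc, hn, one_mul]
  have st := fun x ps ex P E => sup_stp (P := P) (E := E) wa hT hθ.le hε.le hK
    ((wF 1).trans (pow_one _)) wOl hB x ps ex
  have x0 : ∀ u, supS w (W.wT d r0 Om m) (ex0 u) = 1 := fun u => by simp [supS, ex0, w0]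
  have cu : ∀ x, supS w (W.wT d r0 Om m) (cut a2 x) ≤ kc * m := fun x => by
    refine le_trans (le_of_eq ?_) hcut
    simp only [cut, sup_bind, sup_map, wC]
    simp only [Multiset.map_zero, Multiset.prod_zero, mul_one, sum_const, card_univ, Fintype.card_pi, Fintype.card_fin, prod_const, nsmul_eq_mul, Nat.cast_pow, Nat.cast_add, Nat.cast_one, card_range]
    ring
  have sd : ∀ x i k, supS w (W.wT d r0 Om m) (stp B0 x (pD d r0 Om i k) (exT x)) ≤
      W.sD d r0 Om i (k.elim 0 fun _ => 1) * m := fun x i k => by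
    have := hP .H
    refine (st x _ _ _ (1 + W.ε * (d + 1) * W.xP d r0 Om .H) (sup_pD hd hT hm.le (hC _) i k)
      (by positivity) fun u => ?_).trans_eq ?_
    · rw [exT, sup_cons, sup_const]
      simp only [w0, Wt.wT, Multiset.map_zero, Multiset.prod_zero, mul_one, Multiset.pure_def, Multiset.bind_def, Multiset.bind_singleton, Fin.univ_val_map, List.ofFn_succ, Fin.coe_ofNat_eq_mod, Nat.zero_mod, Fin.val_succ, Multiset.coe_card, List.length_cons, List.length_ofFn, Nat.cast_add, Nat.cast_one, wM, add_right_inj]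
      ring
    · rw [mul_left_comm (n : ℝ), hn1, Wt.sD, Wt.nu]
      ring
  have sq : ∀ x j c ex E, 0 ≤ E → (∀ u, supS w (W.wT d r0 Om m) (ex u) = E) →
      supS w (W.wT d r0 Om m) (stp B0 x (qP d r0 Om j c) ex) ≤
        W.nu * supQ W d r0 Om c * E := fun x j c ex E h1 h2 => by
    refine (st x _ _ _ E (sup_qP hd hT j c) h1 h2).trans_eq ?_
    rw [mul_left_comm (n : ℝ), hn, Wt.nu]
    ring
  have ch : ∀ j : ℕ, (n : ℝ) ^ j * (W.θ ^ j * (W.y 0 * m) ^ (d * j)) =
      (W.θ * W.y 0 ^ d) ^ j := fun j => by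
    rw [pow_mul, ← mul_pow, ← mul_pow, mul_pow _ m, mul_left_comm, mul_left_comm (n : ℝ), hn,
      mul_one]
  have c0 : ∀ j : ℕ, 0 ≤ W.θ ^ j * (W.y 0 * m) ^ (d * j) := fun j => by
    have := hy 0
    positivity
  rintro ⟨x, t⟩
  change supS w (W.wT d r0 Om m) (opts r0 Om a2 c3 S0 B0 (x, t)) ≤ W.wT d r0 Om m t
  rcases t with ((_ | j) | ⟨_ | i, k⟩ | k | k | _)
  · simp only [opts, Wt.wT, supS, Multiset.insert_eq_cons, Multiset.map_cons, Multiset.sum_cons,
      Multiset.map_singleton, Multiset.sum_singleton, Multiset.map_zero, Multiset.prod_zero, wL,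
      wR]
    nlinarith only [hW.e0, hq, hm]
  · simp only [opts, Wt.wT, sup_cons, wR, Multiset.map_zero, Multiset.prod_zero]
    split_ifs with h
    · have h1 := st x _ _ _ 1 (sup_pE W r0 Om m j).le zero_le_one x0
      rw [mul_left_comm (n : ℝ), hn1] at h1
      have h2 := mul_le_mul_of_nonneg_right (hW.e1 j h) hm.le
      rw [Wt.nu] at h2
      linarith only [h1, h2]
    · rw [sup_zero]
      nlinarith only [hW.y0 (j + 1), hm]
  · have e0 : W.wT d r0 Om m (.D 0 k) = W.G 0 * m := by cases k <;> rfl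
    have h1 := mul_le_mul_of_nonneg_left (sd x (Om - 1) none) hε.le
    have h2 := sd x (Om - 1) (some 0)
    have h3 := mul_le_mul_of_nonneg_right hW.d0 hm.le
    have h4 : ∑ j ∈ Ico 1 Om, ∑ z ∈ tup d x j, w (oFr j) * ((uT d (mp d x z) j +
        {(sf d (mp d x z) j, Ty.D (Om - j) (some (psn d (sf d (mp d x z) j) (mp d x z j))))}).map
          fun t => W.wT d r0 Om m t.2).prod ≤
        (∑ j ∈ Ico 1 Om, (W.θ * W.y 0 ^ d) ^ j * W.GN (Om - j)) * m := by
      rw [sum_mul]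
      refine sum_le_sum fun j hj => ?_
      obtain ⟨l, hl⟩ : ∃ l, Om - j = l + 1 := ⟨Om - j - 1, by have := mem_Ico.1 hj; omega⟩
      rw [sum_congr rfl (g := fun _ => W.θ ^ j * (W.y 0 * m) ^ (d * j) * (W.GN (l + 1) * m))
        fun z hz => by
          rw [Multiset.map_add, Multiset.prod_add, sup_uT hz, wF, hl, mul_assoc]
          simp [Wt.wT], sum_const, nsmul_eq_mul, hl, ← ch]
      refine (mul_le_mul_of_nonneg_right (sup_tup x j)
        (mul_nonneg (c0 j) (mul_nonneg (hW.N0 _) hm.le))).trans_eq (by ring)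
    have h5 : ∑ z ∈ Dn d r0 Om c3 S0 x, w (oFr Om) * ((uT d (mp d x z) Om +
        {(sf d (mp d x z) Om, Ty.D 0 none)}).map fun t => W.wT d r0 Om m t.2).prod ≤
        (1 - c3) * (W.θ * W.y 0 ^ d) ^ Om * W.G 0 * m := by
      obtain ⟨h6, h7⟩ := sup_dense (d := d) (r0 := r0) (Om := Om) hW.hc.2.1 S0 x
      rw [sum_congr rfl (g := fun _ => W.θ ^ Om * (W.y 0 * m) ^ (d * Om) * (W.G 0 * m))
        fun z hz => by
          rw [Multiset.map_add, Multiset.prod_add, sup_uT (h7 hz), wF, mul_assoc]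
          simp [Wt.wT], sum_const, nsmul_eq_mul, ← ch]
      refine (mul_le_mul_of_nonneg_right h6
        (mul_nonneg (c0 Om) (mul_nonneg (hG _) hm.le))).trans_eq (by ring)
    have h6 : ∑ z ∈ tup d x Om, ∑ f ∈ sU d (mp d x z) Om, w (oFr Om) * ((uT d (mp d x z) Om +
        {(sf d (mp d x z) Om, Ty.D 0 none), (f, Ty.pr Cl.D)}).map
          fun t => W.wT d r0 Om m t.2).prod ≤
        (W.θ * W.y 0 ^ d) ^ Om * W.G 0 * (d * Om * W.xP d r0 Om .D) * m := by
      classical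
      have := hP .D
      have := hG 0
      rw [sum_congr rfl (g := fun _ => W.θ ^ Om * (W.y 0 * m) ^ (d * Om) *
        (W.G 0 * m * (d * Om * W.xP d r0 Om .D))) fun z hz => by
          simp only [Multiset.map_add, Multiset.prod_add, sup_uT hz, wF]
          simp only [Wt.wT, Multiset.insert_eq_cons, Multiset.map_cons, Multiset.map_singleton, Multiset.prod_cons, Multiset.prod_singleton, sum_const, sup_card_sU (mem_filter.1 hz).2, nsmul_eq_mul, Nat.cast_mul]
          ring, sum_const, nsmul_eq_mul, ← ch]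
      refine (mul_le_mul_of_nonneg_right (sup_tup x Om)
        (mul_nonneg (c0 Om) (by positivity))).trans_eq (by ring)
    have h7 := cu x
    simp only [Option.elim] at h1 h2
    simp only [opts, e0, sup_cons, sup_add, sup_mark wa, sup_bind, sup_map, wR, wM,
      Multiset.map_zero, Multiset.prod_zero]
    linarith only [h1, h2, h3, h4, h5, h6, h7]
  · have h1 := sd x i k
    have h2 := cu x
    cases k with
    | none =>
      simp only [opts, Wt.wT, sup_cons, sup_add, wR, Multiset.map_zero, Multiset.prod_zero]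
      split_ifs with h
      · have h3 := mul_le_mul_of_nonneg_right (hW.d1 i h) hm.le
        simp only [Option.elim] at h1
        linarith only [h2, h1, h3]
      · rw [sup_zero]
        nlinarith only [hW.G0 (i + 1), hm, h2]
    | some k =>
      simp only [opts, Wt.wT]
      split_ifs with h
      · exact h1.trans (mul_le_mul_of_nonneg_right (hW.d2 i h) hm.le)
      · exact sup_zero.trans_le (mul_nonneg (hW.N0 _) hm.le)
  · simp only [opts, sup_map, w0, one_mul, sup_opt, sup_tC]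
    rfl
  · simp only [opts, Wt.wT, sup_bind]
    refine (sum_le_sum fun j _ => sq x j k _ 1 zero_le_one x0).trans_eq ?_
    simp only [mul_one, sum_const, card_univ, Fintype.card_fin, nsmul_eq_mul, Nat.cast_add, Nat.cast_one, sup_xP]
    ring
  · simp only [opts, Wt.wT, sup_bind, sup_add, sup_mark wa, wE]
    have h1 : ∀ j u, supS w (W.wT d r0 Om m) (exP x j u) = (1 + W.WP) * (1 + W.ε * W.WP) :=
      fun j u => by
        simp only [supS, exP, Multiset.insert_eq_cons, Wt.wT, Multiset.map_cons, w0, Multiset.map_zero, Multiset.prod_zero, mul_one, Multiset.map_singleton, Multiset.prod_singleton, one_mul, wM, Multiset.prod_cons, Multiset.sum_cons, Multiset.sum_singleton]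
        ring
    refine (sum_le_sum fun j _ => add_le_add (sq x j .A _ _ (by positivity) (h1 j))
      (mul_le_mul_of_nonneg_left (sq x j .D _ _ (by positivity) (h1 j)) hκ.le)).trans
      (le_trans (le_of_eq ?_) hW.wp.2)
    simp only [sum_const, card_univ, Fintype.card_fin, smul_add, nsmul_eq_mul, Nat.cast_add, Nat.cast_one, sup_xP]
    ring

/-- Number of face tasks. -/
def nF : Ty d → ℤ
  | .E _ => 1
  | .D _ _ => 1
  | .cl _ => 1
  | .pr _ => 0
  | .P => 0

omit [NeZero n] in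
theorem inv_card_sU {p : ℕ → Fin n} {j : ℕ} (h : Inj p (j + d + 1)) :
    (sU d p j).card = d * j := by
  have m : ∀ i a, a ∈ sf d p i ↔ ∃ k ≤ d, p (i + k) = a := fun i a => by
    simp only [sf, mem_image, mem_range, Order.lt_add_one_iff]
  have e : ∀ {a b}, a < j + d + 1 → b < j + d + 1 → p a = p b → a = b := fun ha hb c => h ha hb c
  have u : ∀ i < j, p (i + d + 1) ∉ sf d p i := fun i hi c => by
    obtain ⟨k, hk, c⟩ := (m _ _).1 c
    have := e (by omega) (by omega) c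
    omega
  have o : ∀ i, p i ∈ sf d p i := fun i => (m _ _).2 ⟨0, d.zero_le, rfl⟩
  rw [sU, card_biUnion, sum_const_nat (m := d), card_range, mul_comm]
  · intro i hi
    have hi := mem_range.1 hi
    have c : (sf d p i).card = d + 1 := by
      rw [sf, card_image_of_injOn, card_range]
      intro a ha b hb c
      have ha := mem_range.1 (mem_coe.1 ha)
      have hb := mem_range.1 (mem_coe.1 hb)
      have := e (by omega) (by omega) c
      omega
    rw [su, slt, card_image_of_injOn, card_erase_of_mem (o i), c]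
    · rfl
    · intro a ha b _ c
      by_contra c'
      have ha := mem_of_mem_erase ha
      have : a ∈ par (sf d p i) (p (i + d + 1)) a := by rw [c]; simp [par, c', ha]
      simp [par, ne_of_mem_of_not_mem ha (u i hi)] at this
  · have k : ∀ a b, a < b → b < j → Disjoint (su d p a) (su d p b) := fun a b ab hb => by
      refine disjoint_left.2 fun f h1 h2 => ?_
      obtain ⟨w, hw, rfl⟩ := mem_image.1 h1
      obtain ⟨w', _, c⟩ := mem_image.1 h2
      have : p a ∈ par (sf d p b) (p (b + d + 1)) w' := by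
        rw [c]; simp [par, o a, (mem_erase.1 hw).1.symm]
      rcases mem_insert.1 this with c | c
      · have := e (by omega) (by omega) c
        omega
      · obtain ⟨k, hk, c⟩ := (m _ _).1 (mem_of_mem_erase c)
        have := e (by omega) (by omega) c
        omega
    intro a ha b hb ab
    rcases lt_or_gt_of_ne ab with c | c
    · exact k a b c (mem_range.1 (mem_coe.1 hb))
    · exact (k b a c (mem_range.1 (mem_coe.1 ha))).symm

/-- The dimension count of an outcome. -/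
def inv_psi (n d : ℕ) : Oc n d →+ ℤ where
  toFun o := (o.1.card + o.2.1.card + o.2.2.2.2.1 : ℕ) - d * (o.2.2.1 + o.2.2.2.1 : ℕ)
  map_zero' := by simp
  map_add' a b := by
    simp only [Prod.fst_add, Prod.snd_add, Multiset.card_add]
    push_cast
    ring

/-- All options have the count `v`. -/
def inv_All (v : ℤ) (A : Op n d) : Prop :=
  ∀ c ∈ A, v = inv_psi n d c.1 + (c.2.map fun t => nF t.2).sum

/-- The count of a production. -/
def inv_nP (τ : Pd d) : ℤ := ∑ i, (τ i).elim 0 nF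

omit [NeZero n] in
theorem inv_add {v : ℤ} {A B : Op n d} (h : inv_All v A) (h' : inv_All v B) : inv_All v (A + B) :=
  fun c hc => (Multiset.mem_add.1 hc).elim (h c) (h' c)

omit [NeZero n] in
theorem inv_rp {A : Op n d} (h : inv_All 1 A) : inv_All 1 ((oRp, 0) ::ₘ A) := fun c hc => by
  rcases Multiset.mem_cons.1 hc with rfl | hc
  · simp only [inv_psi, Nat.cast_add, oRp, AddMonoidHom.coe_mk, ZeroHom.coe_mk, Multiset.card_zero, CharP.cast_eq_zero, add_zero, Nat.cast_one, zero_add, mul_zero, sub_zero, Multiset.map_zero, Multiset.sum_zero]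
  · exact h c hc

omit [NeZero n] in
theorem inv_bind {β : Type} {v : ℤ} {s : Multiset β} {f : β → Op n d}
    (h : ∀ b ∈ s, inv_All v (f b)) : inv_All v (s.bind f) := fun c hc => by
  obtain ⟨b, hb, hc⟩ := Multiset.mem_bind.1 hc
  exact h b hb c hc

omit [NeZero n] in
theorem inv_mark {v w : ℤ} {A : Op n d} {o : Oc n d} (h : inv_All v A) (e : w = inv_psi n d o + v) :
    inv_All w (mark o A) := fun c hc => by
  obtain ⟨z, hz, rfl⟩ := Multiset.mem_map.1 hc
  rw [e, h z hz, map_add, add_assoc]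

omit [NeZero n] in
theorem inv_ite {v : ℤ} {A : Op n d} {P : Prop} [Decidable P] (h : inv_All v A) :
    inv_All v (if P then A else 0) := by
  split_ifs
  · exact h
  · exact fun c hc => absurd hc (Multiset.notMem_zero c)

theorem inv_kids (x : Fc n) (u : Fin n) (τ : Pd d) :
    ((kids x u τ).map fun t => nF t.2).sum = inv_nP τ := by
  rw [kids, Multiset.map_bind, Multiset.sum_bind, inv_nP, Finset.sum]
  congr 2
  funext i
  cases τ i <;> simp

theorem inv_stp {v : ℤ} {B0 : Finset (Fin n)} {x : Fc n} {ps : Finset (Pd d)}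
    {ex : Fin n → Op n d} (h : ∀ τ ∈ ps, inv_nP τ = d + v) (h' : ∀ u, inv_All 0 (ex u)) :
    inv_All v (stp B0 x ps ex) := by
  have k : ∀ s : Multiset (Fin n), inv_All (d + v) (s.bind fun u => ps.val.bind fun τ =>
      (ex u).map fun z => (z.1, kids x u τ + z.2)) := fun s =>
    inv_bind fun u _ => inv_bind fun τ hτ c hc => by
      obtain ⟨z, hz, rfl⟩ := Multiset.mem_map.1 hc
      have := h' u z hz
      rw [Multiset.map_add, Multiset.sum_add, inv_kids, h τ hτ]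
      linarith only [this]
  exact inv_add (inv_mark (k _) (by simp only [inv_psi, Nat.cast_add, oFr, AddMonoidHom.coe_mk, ZeroHom.coe_mk, Multiset.card_zero, CharP.cast_eq_zero, add_zero, Nat.cast_one, mul_one, zero_sub, neg_add_cancel_left])) (inv_mark (k _) (by simp only [inv_psi, Nat.cast_add, oOl, AddMonoidHom.coe_mk, ZeroHom.coe_mk, Multiset.card_zero, CharP.cast_eq_zero, add_zero, Nat.cast_one, zero_add, mul_one, zero_sub, neg_add_cancel_left]))

theorem inv_tB {j : ℕ} {t : Option (Ty d)} (h : t ∈ tB d j) : t.elim 0 nF = 1 := by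
  obtain ⟨i, _, rfl⟩ := mem_image.1 h
  rfl

theorem inv_tD {j : ℕ} {t : Option (Ty d)} (h : t ∈ tD d j) : t.elim 0 nF = 1 := by
  obtain ⟨i, _, rfl⟩ := mem_image.1 h
  rfl

theorem inv_tH {i j : ℕ} {t : Option (Ty d)} (h : t ∈ tB d i ∪ tD d j) : t.elim 0 nF = 1 :=
  (mem_union.1 h).elim inv_tB inv_tD

theorem inv_full {τ : Pd d} (h : ∀ i, (τ i).elim 0 nF = 1) : inv_nP τ = d + 1 := by
  simp [inv_nP, h]

theorem inv_pE {j : ℕ} : ∀ τ ∈ pE d j, inv_nP τ = d + 1 := fun _ h =>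
  inv_full fun i => inv_tB (Fintype.mem_piFinset.1 (mem_sdiff.1 h).1 i)

theorem inv_pD {r0 Om i : ℕ} {k : Option (Fin (d + 1))} :
    ∀ τ ∈ pD d r0 Om i k, inv_nP τ = d + 1 := fun τ h => by
  rcases mem_union.1 (mem_sdiff.1 h).1 with h | h
  · rcases mem_union.1 h with h | h
    · exact inv_pE τ h
    · obtain ⟨k, _, h⟩ := mem_biUnion.1 h
      refine inv_full fun l => ?_
      have := Fintype.mem_piFinset.1 h l
      split_ifs at this
      · rw [mem_singleton.1 this]; rfl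
      · exact inv_tB this
  · obtain ⟨k, _, h⟩ := mem_biUnion.1 h
    refine inv_full fun l => ?_
    have := Fintype.mem_piFinset.1 h l
    split_ifs at this
    · exact inv_tD this
    · exact inv_tH this

theorem inv_qP {r0 Om : ℕ} {k : Fin (d + 1)} {c : Cl} :
    ∀ τ ∈ qP d r0 Om k c, inv_nP τ = d + 0 := fun τ h => by
  have e : τ k = none ∧ ∀ l ≠ k, (τ l).elim 0 nF = 1 := by
    cases c with
    | A =>
      have := Fintype.mem_piFinset.1 h
      exact ⟨by simpa using this k, fun l hl => inv_tB (by simpa only [if_neg hl] using this l)⟩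
    | D =>
      obtain ⟨j, _, h⟩ := mem_biUnion.1 h
      have := Fintype.mem_piFinset.1 h
      refine ⟨by simpa using this k, fun l hl => ?_⟩
      have := this l
      rw [if_neg hl] at this
      split_ifs at this
      · exact inv_tD this
      · exact inv_tH this
    | H =>
      have := Fintype.mem_piFinset.1 h
      exact ⟨by simpa using this k, fun l hl => inv_tH (by simpa only [if_neg hl] using this l)⟩
  rw [inv_nP, ← add_sum_erase _ _ (mem_univ k), e.1,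
    sum_congr rfl fun l hl => e.2 l (mem_erase.1 hl).1]
  simp only [Option.elim_none, sum_const, mem_univ, card_erase_of_mem, card_univ, Fintype.card_fin, add_tsub_cancel_right, Int.nsmul_eq_mul, mul_one, zero_add, add_zero]

omit [NeZero n] in
theorem inv_ex0 (u : Fin n) : inv_All 0 (ex0 (d := d) u) := fun c hc => by
  rw [Multiset.mem_singleton.1 hc]; simp

theorem inv_exT (x : Fc n) (u : Fin n) : inv_All 0 (exT (d := d) x u) := fun c hc => by
  rcases Multiset.mem_cons.1 hc with rfl | hc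
  · simp
  · obtain ⟨k, _, rfl⟩ := Multiset.mem_map.1 hc
    simp only [inv_psi, Nat.cast_add, oMk, AddMonoidHom.coe_mk, ZeroHom.coe_mk, Multiset.card_zero, CharP.cast_eq_zero, add_zero, mul_zero, sub_self, nF, Multiset.map_singleton, Multiset.sum_singleton]

theorem inv_exP (x : Fc n) (k : Fin (d + 1)) (u : Fin n) : inv_All 0 (exP x k u) := fun c hc => by
  simp only [exP, Multiset.insert_eq_cons, Multiset.mem_cons, Multiset.mem_singleton] at hc
  rcases hc with rfl | rfl | rfl | rfl <;> simp only [inv_psi, Nat.cast_add, AddMonoidHom.coe_mk, ZeroHom.coe_mk, Prod.fst_zero, Multiset.card_zero, CharP.cast_eq_zero, Prod.snd_zero, add_zero, mul_zero, sub_self, nF, Multiset.map_zero, Multiset.sum_zero, Multiset.map_singleton, Multiset.sum_singleton, oMk, Multiset.map_cons, Multiset.sum_cons]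

omit [NeZero n] in
theorem inv_cut (a2 : ℕ) (x : Fc n) : inv_All 1 (cut (d := d) a2 x) :=
  inv_bind fun _ _ => inv_bind fun _ _ c hc => by
    obtain ⟨k, _, rfl⟩ := Multiset.mem_map.1 hc
    simp only [inv_psi, Nat.cast_add, oCt, AddMonoidHom.coe_mk, ZeroHom.coe_mk, Multiset.card_zero, CharP.cast_eq_zero, Multiset.card_singleton, Nat.cast_one, zero_add, add_zero, mul_zero, sub_zero, Multiset.map_zero, Multiset.sum_zero]

theorem inv_uT {x : Fc n} {j : ℕ} {z : Fin j → Fin n} (h : z ∈ tup d x j)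
    {s : Multiset (Tk n d)} (e : (s.map fun t => nF t.2).sum = 1) :
    1 = inv_psi n d (oFr j) + ((uT d (mp d x z) j + s).map fun t => nF t.2).sum := by
  have := inv_card_sU ((@mem_filter _ _ (_) _ _).1 h).2
  rw [Multiset.map_add, Multiset.sum_add, e, uT, Multiset.map_map]
  simp only [inv_psi, Nat.cast_add, oFr, AddMonoidHom.coe_mk, ZeroHom.coe_mk, Multiset.card_zero, CharP.cast_eq_zero, add_zero, zero_sub, nF, Function.comp_apply, Multiset.map_const', card_val, this, Multiset.sum_replicate, Int.nsmul_eq_mul, Nat.cast_mul, mul_one, neg_add_cancel_left]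

theorem inv {r0 Om a2 : ℕ} {c3 : ℝ} {S0 : Set (Fc n)} {B0 : Finset (Fin n)}
    {R : Multiset (Tk n d)} {o : Oc n d} (h : Der (opts r0 Om a2 c3 S0 B0) R o) :
    (R.map fun t => nF t.2).sum + d * (o.2.2.1 + o.2.2.2.1 : ℕ) =
      (o.1.card + o.2.1.card + o.2.2.2.2.1 : ℕ) := by
  have k : ∀ t : Tk n d, inv_All (nF t.2) (opts r0 Om a2 c3 S0 B0 t) := by
    rintro ⟨x, (_ | j) | ⟨_ | i, k⟩ | k | k | _⟩
    · intro c hc
      simp only [opts, Multiset.insert_eq_cons, Multiset.mem_cons, Multiset.mem_singleton] at hc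
      rcases hc with rfl | rfl <;> simp only [nF, inv_psi, Nat.cast_add, oLv, AddMonoidHom.coe_mk, ZeroHom.coe_mk, Multiset.card_singleton, Nat.cast_one, Multiset.card_zero, CharP.cast_eq_zero, add_zero, mul_zero, sub_zero, Multiset.map_zero, Multiset.sum_zero, oRp, zero_add]
    · exact inv_rp (inv_ite (inv_stp inv_pE inv_ex0))
    · rw [opts]
      refine inv_rp (inv_add (inv_add (inv_add (inv_add (inv_add (inv_cut _ _)
        (inv_mark (inv_stp inv_pD (inv_exT x)) (by simp only [inv_psi, Nat.cast_add, oMk, AddMonoidHom.coe_mk, ZeroHom.coe_mk, Multiset.card_zero, CharP.cast_eq_zero, add_zero, mul_zero, sub_self, zero_add])))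
        (inv_stp inv_pD (inv_exT x))) (inv_bind fun j _ c hc => ?_)) fun c hc => ?_)
        (inv_bind fun z hz c hc => ?_))
      · obtain ⟨z, hz, rfl⟩ := Multiset.mem_map.1 hc
        exact inv_uT hz (by simp [nF])
      · obtain ⟨z, hz, rfl⟩ := Multiset.mem_map.1 hc
        refine inv_uT ?_ (by simp [nF])
        have hz : z ∈ Dn d r0 Om c3 S0 x := hz
        rw [Dn] at hz
        split_ifs at hz
        · exact ((@mem_filter _ _ (_) _ _).1 hz).1
        · exact absurd hz (notMem_empty z)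
      · obtain ⟨f, _, rfl⟩ := Multiset.mem_map.1 hc
        exact inv_uT hz (by simp [nF])
    · cases k with
      | none => exact inv_rp (inv_add (inv_cut _ _) (inv_ite (inv_stp inv_pD (inv_exT x))))
      | some k => exact inv_ite (inv_stp inv_pD (inv_exT x))
    · intro c hc
      obtain ⟨t, ht, rfl⟩ := Multiset.mem_map.1 hc
      have : t.elim 0 nF = 1 := by
        cases k
        exacts [inv_tB ht, inv_tD ht, inv_tH ht]
      cases t with
      | none => simp at this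
      | some t => simpa [nF] using this.symm
    · exact inv_bind fun j _ => inv_stp inv_qP inv_ex0
    · exact inv_bind fun j _ => inv_add (inv_stp inv_qP (inv_exP x j))
        (inv_mark (inv_stp inv_qP (inv_exP x j)) (by simp only [nF, inv_psi, Nat.cast_add, oEd, AddMonoidHom.coe_mk, ZeroHom.coe_mk, Multiset.card_zero, CharP.cast_eq_zero, add_zero, mul_zero, sub_self]))
  rw [der_inv (fun t => nF t.2) (inv_psi n d) k h]
  simp only [inv_psi, Nat.cast_add, AddMonoidHom.coe_mk, ZeroHom.coe_mk, sub_add_cancel]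

end Pool.Agent.MP_8f9e6e_pr.J

end

section

/-! The structure is found by the code. -/

open Finset

namespace Pool.Agent.MP_8f9e6e_pr.J

namespace Base.Good

variable {n d : ℕ} [NeZero n] {c : Cx n d} {B : Base n} {X : Set (Bool × Fc n)}
  {Vi : Finset (Fc n)} {δ γ : ℕ} {T : Finset (Finset (Fin n))}

theorem code_exists (G : B.Good c X Vi δ T γ) {c3 : ℝ} {a2 : ℕ} (hW : c.World c3 a2) :
    ∃ o : Oc n d, Der (opts c.r0 c.Om a2 c3 (c.S \ ↑(B.F c X)) (B.V0 ∪ B.Vs c X)) (B.shape d).2 o ∧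
      Rel d c.r0 o c.S (B.F c X) ∧ o.1.card + d * (d + 1) * o.2.1.card ≤ (B.F c X).card ∧
      o.2.2.1 + o.2.2.2.1 + (d + 1) * o.2.1.card = (B.St c X).card ∧
      o.2.2.2.1 = (B.ShS c X).card ∧ o.2.2.2.2.1 ≤ B.rep c X + (B.T0 c X).card ∧
      o.2.2.2.2.2.1 ≤ cd (B.Irr c X) + cd (B.IrT c X) + B.nsib ∧ o.2.2.2.2.2.2 ≤ B.eD c := by
  classical
  obtain ⟨ko, r, h1, h2⟩ := der_keysF (B.Ks c X) (B.tk c X) (B.kc c X) (B.kr c) B.kR oRp
    (B.Pk c X) (fun k hk => G.opt hW hk) (fun k hk k' => G.child hk) kR_sub (fun k => G.parent)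
    fun k _ => by
      by_cases e : ∀ y, k = .inr (.ex y) → ∃ e, B.En c X y e
      · exact .inr (G.once e)
      · obtain ⟨y, e⟩ := not_forall.1 e
        obtain ⟨rfl, e'⟩ := Classical.not_imp.1 e
        rw [tk, ty, dif_neg e']
        exact .inl rp_mem
  rw [map_kR] at h2
  have mc : ∀ a, a ∈ B.Cuts c X ↔ B.CutW c X a := by simp [Cuts]
  obtain ⟨o, ho⟩ : ∃ o, o = ∑ k ∈ B.Ks c X, ko k + r • oRp := ⟨_, rfl⟩
  have e0 : o.1 = ∑ k ∈ B.Ks c X, (ko k).1 ∧ o.2.1 = ∑ k ∈ B.Ks c X, (ko k).2.1 ∧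
      o.2.2.1 = ∑ k ∈ B.Ks c X, (ko k).2.2.1 ∧ o.2.2.2.1 = ∑ k ∈ B.Ks c X, (ko k).2.2.2.1 ∧
      o.2.2.2.2.2.1 = ∑ k ∈ B.Ks c X, (ko k).2.2.2.2.2.1 ∧
      o.2.2.2.2.2.2 = ∑ k ∈ B.Ks c X, (ko k).2.2.2.2.2.2 := by
    simp [ho, oRp, Prod.fst_sum, Prod.snd_sum]
  obtain ⟨a1, a2, a3, a4, a5, a6⟩ := e0
  have e1 : o.1 = (B.F0 c X).val := by
    rw [a1, sum_congr rfl fun k hk => (h1 k hk).lf, sum_Ks _ (fun _ => rfl) fun _ => rfl]
    simp only [lf, sum_const_zero, add_zero]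
    rw [← sum_filter, sum_multiset_singleton]
    congr 1
    ext x
    simp only [F0, F, mem_sdiff, mem_filter, mem_Kf, mem_biUnion, mc]
    refine ⟨fun ⟨⟨b1, b2⟩, b3⟩ => ⟨⟨b1, b3⟩, fun ⟨a, b4, b5⟩ => b2 (.inr ⟨a, b4, .inr b5⟩)⟩,
      fun ⟨⟨b1, b2⟩, b3⟩ => ⟨⟨b1, ?_⟩, b2⟩⟩
    rintro (⟨y, b4, i, -, b5, rfl⟩ | ⟨a, b4, rfl | b5⟩)
    · exact (G.EH (G.pl_spec b4 b5).1).2 b2
    · exact (G.cut_end hW b4).1.notS b2
    · exact b3 ⟨a, b4, b5⟩
  have e2 : o.2.1.map Prod.fst = (B.Cuts c X).val := by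
    rw [a2, ← Multiset.coe_mapAddMonoidHom, map_sum, Multiset.coe_mapAddMonoidHom, sum_congr rfl fun k hk => (h1 k hk).ct,
      sum_Ks _ (fun _ => rfl) fun _ => rfl]
    simp only [ct, sum_const_zero, add_zero]
    rw [← sum_filter, sum_multiset_singleton]
    congr 1
    ext x
    rw [mem_filter, mc]
    exact and_iff_right_of_imp fun b => G.key (G.cut b).1
      (G.head (G.cut b).1 (G.pl_cut b ▸ d.succ_pos))
  have e3 : o.2.1.card = (B.Cuts c X).card := by rw [card_def, ← e2, Multiset.card_map]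
  have e4 : ∀ z ∈ o.2.1, B.CutW c X z.1 ∧ pos d c.r0 c.S (c.dp^[d + 1] z.1) = z.2.2.1 ∧
      sU d (cp z (c.dp^[d + 1] z.1)) (d + 1) = B.cU c z.1 := fun z hz => by
    refine ⟨(mc _).1 (e2 ▸ Multiset.mem_map_of_mem _ hz :), ?_⟩
    obtain ⟨k, hk, b⟩ := Multiset.mem_sum.1 (a2 ▸ hz)
    exact (h1 k hk).ok z b
  have e5 : o.2.2.1 + o.2.2.2.1 + (d + 1) * o.2.1.card = (B.St c X).card := by
    have := G.ow_sum fun _ => True
    simp only [filter_true] at this
    rw [← this, ← sum_congr rfl fun k hk => (h1 k hk).st, a2, a3, a4, Multiset.card_sum,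
      mul_sum, ← sum_add_distrib, ← sum_add_distrib]
  have e6 := G.cut_card.2
  rw [card_def (B.F0 c X), ← e1, ← e3] at e6
  refine ⟨o, ho ▸ h2, ⟨fun f hf => (mem_filter.1 hf).2, fun z => c.dp^[d + 1] z.1, ?_,
    fun z hz => ?_⟩, e6.le, e5, ?_, ?_, ?_, ?_⟩
  · rw [e1, val_toFinset, biUnion_congr rfl fun z hz => (e4 z (Multiset.mem_toFinset.1 hz)).2.2,
      ← image_biUnion (f := Prod.fst), ← Multiset.toFinset_map, e2, val_toFinset, F0,
      sdiff_union_of_subset G.cut_card.1]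
  · obtain ⟨b1, b2, b3⟩ := e4 z hz
    exact ⟨(G.cut_end hW b1).1, b2, b3 ▸ (G.cut_end hW b1).2.2⟩
  · rw [a4, sum_congr rfl fun k hk => (h1 k hk).ol, G.ow_sum, ShS]
  · have b1 := inv (ho ▸ h2)
    have b2 : ((B.shape d).2.map fun t => nF t.2).sum = B.rt.card := by
      have : nF (B.sT d) = 0 := by unfold sT; split <;> rfl
      simp [shape, this, show ∀ k, nF (d := d) (.cl k) = 1 from fun _ => rfl, Function.comp_def]
    have b3 := G.cut_L
    have b4 := G.rep_eq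
    rw [b2] at b1
    rw [← e5] at b4
    rw [← e3] at b3
    have b5 : B.rt.card + d * (o.2.2.1 + o.2.2.2.1) = o.1.card + o.2.1.card + o.2.2.2.2.1 := by
      exact_mod_cast b1
    rw [mul_add, ← mul_assoc] at b4
    omega
  · rw [a5]
    refine (sum_le_sum fun k hk => (h1 k hk).mr).trans ?_
    rw [sum_Ks _ (fun _ => rfl) fun _ => rfl]
    simp only [mr, sum_add_distrib, ← card_filter]
    exact add_le_add (add_le_add (card_le_card (filter_subset_filter _ (subset_univ _)))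
      (card_le_card (filter_subset_filter _ (subset_univ _)))) sib_le
  · rw [a6]
    refine (sum_le_sum fun k hk => (h1 k hk).ed).trans ?_
    rw [sum_Ks _ (fun _ => rfl) fun _ => rfl]
    simp only [ed, sum_const_zero, zero_add, ← card_filter]
    unfold eD cn
    convert le_rfl

end Base.Good

end Pool.Agent.MP_8f9e6e_pr.J

end
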