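import Pool.Agent.MP_8f9e6e_pr.Jump.P4
import Pool.Agent.MP_8f9e6e_pr.Jump.P5

attribute [-instance] IdemSemiring.toCanonicallyOrderedAdd AddQuantale.instAddLeftMono
  Fintype.decidableForallFintype covariant_swap_mul_of_covariant_mul instCoeOTCOfCoeOut
  CategoryTheory.CountableCategory.countableObj IsOrderedMonoid.toMulLeftMono NumberField.to_charZero
  instNonemptyOfMonad RKHS.instFunLike Quantale.instMulLeftMono AddQuantale.instAddRightMono
  instCoeHTCOfCoeHeadOfCoeOTC instCoeHTCTOfCoeTailOfCoeHTC IdemSemiring.toMulLeftMono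
  Quantale.instMulRightMono instCoeTCOfCoe Group.IsPerfect.subsingleton_of_isMulCommutative
  CanonicallyOrderedAdd.toMulLeftMono instCoeTOfCoeDep Finset.decidableDforallFinset
  Multiset.decidableDforallMultiset Vector.instDecidableForallForallMemOfDecidablePred

/-! The structure bounds and the encoding theorem. -/

section

/-! The structure: steps and slots. -/

open Finset Filter

namespace Pool.Agent.MP_8f9e6e_pr.J

namespace Base

variable {n d : ℕ} [NeZero n] {c : Cx n d} {B : Base n} {X : Set (Bool × Fc n)}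
  {Vi : Finset (Fc n)} {δ γ : ℕ} {T : Finset (Finset (Fin n))} {a e g x y : Fc n} {σ τ : Stp n}
  {w : Fin n} {i j : ℕ}

theorem St_mono {X' : Set (Bool × Fc n)} (h : X ⊆ X') : B.St c X ⊆ B.St c X' := by
  intro σ hσ
  cases σ with
  | ex x =>
    rw [ex_mem] at hσ ⊢
    rcases hσ with a | ⟨a, b, e⟩ | ⟨a, b, e⟩
    exacts [.inl a, .inr (.inl ⟨a, h b, e⟩), .inr (.inr ⟨a, h b, e⟩)]
  | tc g =>
    rw [tc_mem] at hσ ⊢
    exact hσ.imp_right fun a => h a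
  | si i => rwa [si_mem] at hσ ⊢

theorem sa_shared {X' : Set (Bool × Fc n)} (h : X ⊆ X') (a : B.Shared c X σ) :
    B.Shared c X' σ :=
  a.imp_right fun ⟨τ, b, e⟩ => ⟨τ, St_mono h b, e⟩

theorem sa_bad {X' : Set (Bool × Fc n)} (h : X ⊆ X') (b : B.BadW c X a) : B.BadW c X' a :=
  b.imp_left fun ⟨j, e, f⟩ => ⟨j, e, sa_shared h f⟩

theorem sa_occ {X' : Set (Bool × Fc n)} (h : X ⊆ X') : B.Occ c X ⊆ B.Occ c X' :=
  union_subset_union_right (biUnion_subset_biUnion_of_subset_left _ (St_mono h))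

theorem sa_phi (B : Base n) (c : Cx n d) : Monotone (B.Phi c) := by
  rintro X X' h z (⟨a, e, b, f, i, hi, k, l⟩ | ⟨a, e, b, f, k, l⟩)
  · exact .inl ⟨a, e, b, f, i, hi, k, fun j hj => sa_bad h (l j hj)⟩
  · exact .inr ⟨a, e, b, f, k, l.imp (fun ⟨j, p, q⟩ => ⟨j, p, sa_shared h q⟩)
      fun ⟨y, p, q⟩ => ⟨y, p, sa_occ (Set.sdiff_subset_sdiff_left h) q⟩⟩

theorem exists_fix (B : Base n) (c : Cx n d) : ∃ X, B.Phi c X = X := by
  exact ⟨_, OrderHom.map_lfp ⟨B.Phi c, sa_phi B c⟩⟩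

theorem lev_sub {C : Finset (Fin n) → Prop} {V : Finset (Fin n)} (h : Lev d C V δ T) :
    ∀ t ∈ T, t ⊆ V := by
  induction h with
  | nil => simp
  | step V δ T u v H J _ _ hH _ _ _ _ ih =>
    intro t ht
    have a : ∀ t ∈ T, t ⊆ insert u V := fun t b => (ih t b).trans (subset_insert _ _)
    split_ifs at ht
    · rcases mem_insert.1 ht with rfl | b
      exacts [insert_subset_insert _ hH, a t b]
    · exact a t ht

namespace Good

theorem rs_H (G : B.Good c X Vi δ T γ) (h : x ∈ B.Rs) : c.H x := by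
  rcases mem_union.1 h with a | a
  · exact (G.ok.root x a).2.1
  · obtain ⟨i, hi, b⟩ := mem_biUnion.1 a
    exact (G.ok.site i (mem_range.1 hi)).2.2.2.2.1 x b

theorem open_spec (G : B.Good c X Vi δ T γ) (h : (true, a) ∈ X) :
    ∃ e, c.Fr B.Rs e ∧ c.Cmp e ∧ ∃ i < c.Q, a = c.cf e (i * (d + 1)) ∧
      (∀ k < i, B.BadW c X (c.cf e (k * (d + 1)))) ∧
      ∀ k ≤ i, (true, c.cf e (k * (d + 1))) ∈ X := by
  rw [← G.fix] at h
  rcases h with ⟨-, e, b, f, i, hi, k, l⟩ | ⟨a, -⟩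
  · refine ⟨e, b, f, i, hi, k, l, fun j hj => ?_⟩
    rw [← G.fix]
    exact .inl ⟨rfl, e, b, f, j, hj.trans_lt hi, rfl, fun m hm => l m (hm.trans_le hj)⟩
  · cases a

theorem open_of (G : B.Good c X Vi δ T γ) (h1 : c.Fr B.Rs e) (h2 : c.Cmp e) (hi : i < c.Q)
    (h3 : ∀ k < i, B.BadW c X (c.cf e (k * (d + 1)))) : (true, c.cf e (i * (d + 1))) ∈ X := by
  rw [← G.fix]
  exact .inl ⟨rfl, e, h1, h2, i, hi, rfl, h3⟩

theorem link_spec (G : B.Good c X Vi δ T γ) : (false, g) ∈ X ↔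
    ∃ e, c.Fr B.Rs e ∧ c.TA e ∧ g = c.rs e ∧ ((∃ j < c.Om, B.Shared c X (.ex (c.cf e j))) ∨
      ∃ f, c.Lf (c.ts g) f ∧ f ∈ B.Occ c (X \ {(false, g)})) := by
  refine (Set.ext_iff.1 G.fix _).symm.trans ⟨?_, fun h => .inr ⟨rfl, h⟩⟩
  rintro (⟨a, -⟩ | ⟨-, a⟩)
  · cases a
  · exact a

theorem card_slot (G : B.Good c X Vi δ T γ) (h : σ ∈ B.St c X) :
    (B.slot c σ).card = match σ with
      | .ex _ => d + 1
      | _ => d := by
  obtain ⟨h1, h2, -⟩ := G.step h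
  cases σ with
  | ex x => exact (card_image_of_injOn fun u hu v _ e => par_inj h2 hu e).trans h1
  | tc g =>
    obtain ⟨-, a, b, -⟩ := G.tc (tc_mem.1 h)
    exact slt_card h1 h2 (Cx.tw_spec a b).1.2.2.2.2.1
  | si i => exact slt_card h1 h2 (G.ok.site i (si_mem.1 h)).2.2.2.1

theorem tf_slot (G : B.Good c X Vi δ T γ) (h : B.Tc c X g) :
    c.tf g ∈ c.S ∧ c.tf g ∈ B.slot c (.ex g) ∧ B.cell c (.tc g) ≠ B.cell c (.ex g) := by
  obtain ⟨-, a, b, -⟩ := G.tc h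
  obtain ⟨h1, h2, -, h4, -⟩ := (Cx.tw_spec a b).1
  exact ⟨h2, mem_image_of_mem _ h1, h4⟩

end Good

end Base

end Pool.Agent.MP_8f9e6e_pr.J

end

section

/-! The structure: steps, occurrences and priorities. -/

open Finset Filter

namespace Pool.Agent.MP_8f9e6e_pr.J

namespace Base

variable {n d : ℕ} [NeZero n] {c : Cx n d} {B : Base n} {X : Set (Bool × Fc n)}
  {Vi : Finset (Fc n)} {δ γ : ℕ} {T : Finset (Finset (Fin n))} {a e g x y : Fc n} {σ τ : Stp n}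
  {w : Fin n} {i j : ℕ}

namespace Good

theorem occ_H (G : B.Good c X Vi δ T γ) (h : x ∈ B.Occ c X) : c.H x := by
  rcases mem_union.1 h with h | h
  · exact (G.ok.root x h).2.1
  · obtain ⟨σ, h1, h2⟩ := mem_biUnion.1 h
    exact ((G.step h1).2.2 x h2).1

/-- A slot is a source, explained, or the end of an included window. -/
theorem occ_cases (G : B.Good c X Vi δ T γ) (h : y ∈ B.Occ c X) :
    y ∈ c.S ∨ B.E c X y ∨ ∃ a, (true, a) ∈ X ∧ y = c.dp^[d + 1] a := by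
  by_cases hS : y ∈ c.S
  · exact .inl hS
  refine .inr ?_
  have hw : ∀ a, (true, a) ∈ X → ∀ j ≤ d, y ∈ B.slot c (.ex (c.dp^[j] a)) →
      B.E c X y ∨ ∃ a, (true, a) ∈ X ∧ y = c.dp^[d + 1] a := fun a ha j hj hy => by
    have h1 : y = c.dp^[j + 1] a := by
      obtain ⟨e, -, h2, i, hi, rfl, -⟩ := G.win ha
      have h3 := tr1_idx hi hj
      rw [Function.iterate_succ_apply']
      rw [← h2.1.2.iter h3.le] at hy ⊢
      exact ((h2.1.2 _ h3).slot hy).resolve_right hS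
    rcases hj.eq_or_lt with rfl | hj
    · exact .inr ⟨a, ha, h1⟩
    · exact .inl (.inr (.inl ⟨a, ha, j + 1, hj, h1⟩))
  rcases mem_union.1 h with h | h
  · exact .inl (.inl ⟨hS, y, mem_union_left _ h, .refl⟩)
  obtain ⟨σ, h1, h2⟩ := mem_biUnion.1 h
  cases σ with
  | ex x =>
    obtain ⟨w, h3, h4⟩ := mem_image.1 h2
    rcases ex_mem.1 h1 with hx | ⟨a, ha, j, hj, rfl⟩ | ⟨g, hg, hx⟩
    · by_cases hc : c.Cmp x
      · have := G.tr2_in hx hc (i := 0) (by have := G.hQ; omega) fun k hk => absurd hk k.not_lt_zero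
        rw [zero_mul, Cx.cf_zero hc.1.1.1.card] at this
        exact hw x this 0 d.zero_le h2
      · exact .inl (.inl (hx.step ⟨hx.1, hS, .inl ⟨hc, w, h3, h4.symm⟩⟩))
    · exact hw a ha j hj h2
    · exact .inl (.inr (.inr ⟨g, hg, hx.step ⟨hx.1, hS,
        .inl ⟨fun hc => hc.1.1.1.2 (G.tr1_A hg hx), w, h3, h4.symm⟩⟩⟩))
  | tc g =>
    rcases tc_mem.1 h1 with ⟨e, h3, h4, rfl⟩ | hg
    · exact .inl (.inl (h3.step ⟨h3.1, hS, .inr ⟨h4, h2⟩⟩))
    · exact .inl (.inr (.inr ⟨g, hg, hS, y, h2, .refl⟩))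
  | si i =>
    exact .inl (.inl ⟨hS, y, mem_union_right _
      (mem_biUnion.2 ⟨i, mem_range.2 (si_mem.1 h1), h2⟩), .refl⟩)

/-- A free face is a root, a site slot, or a slot of a step of a free face. -/
theorem fr_occ (G : B.Good c X Vi δ T γ) (h : c.Fr B.Rs y) : y ∈ B.Rs ∨
    (∃ x, c.Fr B.Rs x ∧ ¬ c.Cmp x ∧ y ∈ B.slot c (.ex x)) ∨
    ∃ g, B.Tc c X g ∧ y ∈ B.slot c (.tc g) := by
  have _ := G.hd
  obtain ⟨-, x, hx, h1⟩ := h
  rcases h1.cases_tail with rfl | ⟨z, h2, h3, -, ⟨h4, w, hw, rfl⟩ | ⟨h4, h5⟩⟩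
  · exact .inl hx
  · exact .inr (.inl ⟨z, ⟨h3, x, hx, h2⟩, h4, mem_image_of_mem _ hw⟩)
  · exact .inr (.inr ⟨_, .inl ⟨z, ⟨h3, x, hx, h2⟩, h4, rfl⟩, h5⟩)

open Classical in
theorem key_spec (G : B.Good c X Vi δ T γ) (h : σ ∈ B.St c X) : B.face c σ ⊆
    B.V0 ∪ ((B.St c X).filter fun τ => B.key c σ < B.key c τ).image (B.apex c) := by
  intro v hv
  obtain ⟨ρ, h2, h3⟩ := exists_max_image ((B.St c X).filter fun τ =>
    v ∈ B.face c τ ∧ B.key c σ ≤ B.key c τ) (B.key c) ⟨σ, mem_filter.2 ⟨h, hv, le_rfl⟩⟩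
  obtain ⟨h4, h5, h6⟩ := mem_filter.1 h2
  rcases G.tr1_up h4 with h7 | ⟨ρ', h7, h8, h9⟩
  · exact mem_union_left _ (h7 h5)
  · rcases mem_insert.1 (h9 h5) with h10 | h10
    · exact mem_union_right _ (mem_image.2 ⟨ρ', mem_filter.2 ⟨h7, by omega⟩, h10.symm⟩)
    · exact absurd h8 (h3 ρ' (mem_filter.2 ⟨h7, h10, by omega⟩)).not_gt

theorem s1_key (G : B.Good c X Vi δ T γ) (h : σ ∈ B.St c X) : match σ with
    | .ex x => c.rk x ≤ c.hh
    | .tc g => 0 < c.rk g ∧ c.rk g ≤ c.hh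
    | .si i => i < B.ns := by
  cases σ with
  | ex x => exact rk_le (G.EH (ex_mem.1 h)).1
  | tc g =>
    obtain ⟨h1, h2, -⟩ := G.tc (tc_mem.1 h)
    exact ⟨h2.lt.bot_lt, rk_le (G.EH h1).1⟩
  | si i => exact si_mem.1 h

theorem s1_lt (G : B.Good c X Vi δ T γ) (h' : τ ∈ B.St c X) (hk : B.key c σ < B.key c τ) :
    B.ord c τ < B.ord c σ := by
  have k1 : B.key c τ ≤ 2 * c.hh + 2 + B.ns := by
    have := G.s1_key h'
    cases τ <;> simp only [Base.key] at this ⊢ <;> omega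
  calc B.ord c τ < (2 * c.hh + 2 + B.ns - B.key c τ + 1) * Fintype.card (Fc n) := by
        rw [add_mul, one_mul]
        refine Nat.add_lt_add_left ?_ _
        cases τ
        exacts [ix_lt _, ix_lt _, Fintype.card_pos]
    _ ≤ _ := (Nat.mul_le_mul_right _ (by omega)).trans (Nat.le_add_right _ _)

theorem ord_inj (G : B.Good c X Vi δ T γ) : Set.InjOn (B.ord c) (B.St c X) := by
  intro σ h τ h' e
  have e1 : B.key c σ = B.key c τ := by
    by_contra hne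
    rcases lt_or_gt_of_ne hne with a | a
    exacts [(G.s1_lt h' a).ne' e, (G.s1_lt h a).ne e]
  unfold ord at e
  rw [e1, Nat.add_left_cancel_iff] at e
  have k1 := G.s1_key h
  have k2 := G.s1_key h'
  cases σ <;> cases τ <;> simp only [Base.key] at e1 k1 k2 <;>
    first
    | exact congrArg _ (ix_inj e)
    | omega
    | exact congrArg _ (by omega)

theorem ord_lt (G : B.Good c X Vi δ T γ) (h : σ ∈ B.St c X) (h' : τ ∈ B.St c X)
    (hk : B.key c σ < B.key c τ) : B.ord c τ < B.ord c σ := by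
  have _ := h
  exact G.s1_lt h' hk

theorem ord_spec (G : B.Good c X Vi δ T γ) (h : σ ∈ B.St c X) : B.face c σ ⊆
    B.V0 ∪ ((B.St c X).filter fun τ => B.ord c τ < B.ord c σ).image (B.apex c) :=
  (G.key_spec h).trans (union_subset_union_right (image_subset_image fun _ hτ =>
    mem_filter.2 ⟨(mem_filter.1 hτ).1, G.s1_lt (mem_filter.1 hτ).1 (mem_filter.1 hτ).2⟩))

/-- A new apex lies only in faces of later steps. -/
theorem tree_lt (G : B.Good c X Vi δ T γ) (h : σ ∈ B.St c X) (h' : τ ∈ B.St c X)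
    (ht : B.Tree c X σ) (hm : B.apex c σ ∈ B.face c τ) : B.ord c σ < B.ord c τ := by
  have _ := h
  rcases mem_union.1 (G.ord_spec h' hm) with a | a
  · exact absurd (mem_union_left _ a) ht
  · obtain ⟨ρ, h1, h2⟩ := mem_image.1 a
    refine lt_of_le_of_lt (not_lt.1 fun b => ht (mem_union_right _ ?_)) (mem_filter.1 h1).2
    exact mem_image.2 ⟨ρ, mem_filter.2 ⟨(mem_filter.1 h1).1, b⟩, h2⟩

theorem tree_inj (G : B.Good c X Vi δ T γ) (h : σ ∈ B.St c X) (h' : τ ∈ B.St c X)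
    (ht : B.Tree c X σ) (ht' : B.Tree c X τ) (he : B.apex c σ = B.apex c τ) : σ = τ :=
  G.ord_inj h h' (le_antisymm
    (not_lt.1 fun b => ht (mem_union_right _ (mem_image.2 ⟨τ, mem_filter.2 ⟨h', b⟩, he.symm⟩)))
    (not_lt.1 fun b => ht' (mem_union_right _ (mem_image.2 ⟨σ, mem_filter.2 ⟨h, b⟩, he⟩))))

theorem tree_of (G : B.Good c X Vi δ T γ) (h : ¬ B.Shared c X σ) : B.Tree c X σ := by
  have _ := G.hd
  intro a
  rcases mem_union.1 a with a | a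
  · exact h (.inl a)
  · obtain ⟨ρ, h1, h2⟩ := mem_image.1 a
    exact h (.inr ⟨ρ, (mem_filter.1 h1).1, fun e => (e ▸ (mem_filter.1 h1).2).false, h2⟩)

theorem shared_iff (G : B.Good c X Vi δ T γ) (h : σ ∈ B.St c X) :
    B.Shared c X σ ↔ B.apex c σ ∈ B.V0 ∪ B.Vs c X := by
  classical
  have _ := G.hd
  refine ⟨fun a => ?_, fun a => ?_⟩
  · rw [Vs, union_sdiff_self_eq_union]
    exact mem_union_right _ (mem_image_of_mem _ (mem_filter.2 ⟨h, a⟩))
  · rcases mem_union.1 a with a | a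
    · exact .inl a
    · obtain ⟨ρ, h1, h2⟩ := mem_image.1 (mem_sdiff.1 a).1
      by_cases e : ρ = σ
      · exact e ▸ (mem_filter.1 h1).2
      · exact .inr ⟨ρ, (mem_filter.1 h1).1, e, h2⟩

end Good

end Base

end Pool.Agent.MP_8f9e6e_pr.J

end

section

/-! Private chains and their ends. -/

open Finset Filter

namespace Pool.Agent.MP_8f9e6e_pr.J

namespace Base.Good

variable {n d : ℕ} [NeZero n] {c : Cx n d} {B : Base n} {X : Set (Bool × Fc n)}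
  {Vi : Finset (Fc n)} {δ γ : ℕ} {T : Finset (Finset (Fin n))} {a e g x y : Fc n} {σ τ : Stp n}
  {w : Fin n} {i j : ℕ}

theorem up_uniq (G : B.Good c X Vi δ T γ) {e' : Fc n} (hD : c.D e) (hD' : c.D e') (h : c.Cpt e j)
    (h' : c.Cpt e' j) (hE : ∀ i < j, B.E c X (c.cf e i)) (hE' : ∀ i < j, B.E c X (c.cf e' i))
    (hp : B.Priv c X e j) (he : c.cf e j = c.cf e' j) : e = e' := by
  refine (G.back (x := e') (y := e) (i := j) (j := 0) (fun m hm => ?_) (fun m hm => ?_) ?_).symm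
  · rw [← h'.cf hD' hm.le]
    exact ⟨hE' m hm, _, h' m hm⟩
  · rw [zero_add] at hm
    rw [← h.cf hD hm.le]
    exact ⟨hE m hm, hp m hm, _, h m hm⟩
  · rw [zero_add, ← h.cf hD le_rfl, ← h'.cf hD' le_rfl, he]

/-- From a free inner face of a sliding chain the rest of the chain is free. -/
theorem s2_fr {R : Finset (Fc n)} (he : c.Compat e) (h0 : 0 < i) (hf : c.Fr R (c.cf e i))
    (hj : i + j ≤ c.Om) : c.Fr R (c.cf e (i + j)) := by
  induction j with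
  | zero => exact hf
  | succ j ih =>
    have h1 := he.2.rk he.1.1 (i := i + j) (by omega)
    have h2 := he.2.rk he.1.1 (i := i + j + 1) (by omega)
    have h3 := he.2 (i + j) (by omega)
    refine (ih (by omega)).step ⟨h1.1.notS, h2.1.notS, .inl ⟨fun hc => ?_, _, h3.1, ?_⟩⟩
    · have h4 := Cx.lev_add h1.2
      rw [he.1.2, hc.1.1.2, zero_add, Nat.mod_eq_of_lt (by omega)] at h4
      omega
    · exact (he.2.succ (i := i + j) (by omega)).trans h3.dp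

theorem t0_spec (G : B.Good c X Vi δ T γ) (h : x ∈ B.T0 c X) :
    ∃ e, c.Fr B.Rs e ∧ c.Cmp e ∧ x = c.cf e c.Om ∧ ∀ i < c.Q, ∃ j ≤ d,
      B.E c X (c.cf e (i * (d + 1) + j)) ∧ B.Shared c X (.ex (c.cf e (i * (d + 1) + j))) := by
  classical
  simp only [T0, L, Cuts, mem_filter, mem_image, mem_univ, true_and] at h
  obtain ⟨⟨ho, hE⟩, hS, hC⟩ := h
  obtain h1 | h1 | ⟨a, ha, rfl⟩ := G.occ_cases ho
  · exact absurd h1 hS
  · exact absurd h1 hE
  have hb : B.BadW c X a := by_contra fun hb => hC ⟨a, ⟨ha, hb⟩, rfl⟩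
  obtain ⟨e, h1, h2, i, hi, rfl, h3, h4⟩ := G.open_spec ha
  have hle : ∀ k < c.Q, k * (d + 1) + (d + 1) ≤ c.Om := fun k hk => by
    rw [← Nat.succ_mul]
    exact Nat.mul_le_mul_right _ hk
  have h5 : ∀ k < i + 1, B.BadW c X (c.cf e (k * (d + 1))) := fun k hk =>
    (Nat.lt_succ_iff.1 hk).eq_or_lt.elim (fun a => a ▸ hb) (h3 k)
  rw [← h2.1.2.iter (hle i hi)] at hE ⊢
  have hQ : i + 1 = c.Q := by
    by_contra hQ
    refine hE (.inr (.inl ⟨_, G.open_of h1 h2 (i := i + 1) (by omega) h5, 0, d.zero_le, ?_⟩))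
    rw [Nat.succ_mul]
    rfl
  have hO : i * (d + 1) + (d + 1) = c.Om := by rw [← Nat.succ_mul, Cx.Om, ← hQ]
  rw [hO] at hE ⊢
  refine ⟨e, h1, h2, rfl, fun k hk => ?_⟩
  have h6 := hle k hk
  obtain ⟨j, hj, h7⟩ | ⟨h7, h8⟩ := h5 k (by omega)
  · refine ⟨j, hj, ?_⟩
    rw [h2.1.2.iter (by omega)]
    exact ⟨.inr (.inl ⟨_, h4 k (by omega), j, hj, rfl⟩), h7⟩
  · rcases Nat.eq_zero_or_pos (k * (d + 1)) with h9 | h9
    · rw [h9, Cx.cf_zero h2.1.1.1.card] at h8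
      exact absurd h2 h8
    · have := s2_fr h2.1 h9 h7 (j := c.Om - k * (d + 1)) (by omega)
      rw [Nat.add_sub_cancel' (by omega)] at this
      exact absurd (.inl this) hE

end Base.Good

end Pool.Agent.MP_8f9e6e_pr.J

end

section

/-! Counting identities. -/

open Finset Filter

namespace Pool.Agent.MP_8f9e6e_pr.J

namespace Base.Good

variable {n d : ℕ} [NeZero n] {c : Cx n d} {B : Base n} {X : Set (Bool × Fc n)}
  {Vi : Finset (Fc n)} {δ γ : ℕ} {T : Finset (Finset (Fin n))} {a e g x y : Fc n} {σ τ : Stp n}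
  {w : Fin n} {i j : ℕ}

theorem rep_add (G : B.Good c X Vi δ T γ) :
    B.rep c X + (B.Occ c X).card = B.rt.card + ∑ σ ∈ B.St c X, (B.slot c σ).card :=
  Nat.sub_add_cancel ((card_union_le _ _).trans (Nat.add_le_add_left card_biUnion_le _))

theorem sc_tree (h : σ ∈ B.St c X) (hv : B.apex c σ ∉ B.V0) :
    ∃ τ ∈ B.St c X, B.Tree c X τ ∧ B.apex c τ = B.apex c σ := by
  obtain ⟨τ, hτ, hm⟩ := exists_min_image ((B.St c X).filter fun τ => B.apex c τ = B.apex c σ)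
    (B.ord c) ⟨σ, mem_filter.2 ⟨h, rfl⟩⟩
  obtain ⟨h1, h2⟩ := mem_filter.1 hτ
  refine ⟨τ, h1, fun h3 => ?_, h2⟩
  rcases mem_union.1 h3 with h3 | h3
  · exact hv (h2 ▸ h3)
  · obtain ⟨ρ, h4, h5⟩ := mem_image.1 h3
    exact (hm ρ (mem_filter.2 ⟨(mem_filter.1 h4).1, h5.trans h2⟩)).not_gt (mem_filter.1 h4).2

open Classical in
theorem card_tree (G : B.Good c X Vi δ T γ) :
    ((B.St c X).filter (B.Tree c X)).card = B.nv c X ∧
      ((B.St c X).filter fun σ => ¬ B.Tree c X σ).card = B.nb c X ∧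
      B.nv c X + B.nb c X = (B.St c X).card := by
  have h1 : ((B.St c X).filter (B.Tree c X)).card = B.nv c X := by
    rw [← card_image_of_injOn (f := B.apex c) fun σ h τ h' =>
      G.tree_inj (mem_filter.1 h).1 (mem_filter.1 h').1 (mem_filter.1 h).2 (mem_filter.1 h').2]
    refine congrArg card (Subset.antisymm (fun v hv => ?_) fun v hv => ?_)
    · obtain ⟨σ, h, rfl⟩ := mem_image.1 hv
      exact mem_sdiff.2 ⟨mem_image_of_mem _ (mem_filter.1 h).1,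
        fun h0 => (mem_filter.1 h).2 (mem_union_left _ h0)⟩
    · obtain ⟨σ, h, rfl⟩ := mem_image.1 (mem_sdiff.1 hv).1
      obtain ⟨τ, h2, h3, h4⟩ := sc_tree h (mem_sdiff.1 hv).2
      exact mem_image.2 ⟨τ, mem_filter.2 ⟨h2, h3⟩, h4⟩
  have h2 := card_filter_add_card_filter_not (s := B.St c X) (B.Tree c X)
  unfold nb
  omega

theorem card_ShS (G : B.Good c X Vi δ T γ) :
    (B.ShS c X).card = B.nb c X + (B.Vs c X).card ∧ (B.Vs c X).card ≤ B.nb c X := by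
  classical
  have hS : ∀ σ, σ ∈ B.ShS c X ↔ σ ∈ B.St c X ∧ B.Shared c X σ := fun σ => mem_filter
  have h1 : ((B.ShS c X).filter (B.Tree c X)).card = (B.Vs c X).card := by
    rw [← card_image_of_injOn (f := B.apex c) fun σ h τ h' =>
      G.tree_inj ((hS _).1 (mem_filter.1 h).1).1 ((hS _).1 (mem_filter.1 h').1).1
        (mem_filter.1 h).2 (mem_filter.1 h').2]
    refine congrArg card (Subset.antisymm (fun v hv => ?_) fun v hv => ?_)
    · obtain ⟨σ, h, rfl⟩ := mem_image.1 hv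
      exact mem_sdiff.2 ⟨mem_image_of_mem _ (mem_filter.1 h).1,
        fun h0 => (mem_filter.1 h).2 (mem_union_left _ h0)⟩
    · obtain ⟨σ, h, rfl⟩ := mem_image.1 (mem_sdiff.1 hv).1
      obtain ⟨τ, h2, h3, h4⟩ := sc_tree ((hS _).1 h).1 (mem_sdiff.1 hv).2
      exact mem_image.2 ⟨τ, mem_filter.2 ⟨(hS _).2 ⟨h2, (G.shared_iff h2).2
        (mem_union_right _ (h4 ▸ hv))⟩, h3⟩, h4⟩
  have h2 : ((B.ShS c X).filter fun σ => ¬ B.Tree c X σ) =
      (B.St c X).filter fun σ => ¬ B.Tree c X σ := by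
    ext σ
    rw [mem_filter, mem_filter, hS]
    exact ⟨fun h => ⟨h.1.1, h.2⟩, fun h => ⟨⟨h.1, not_not.1 fun h0 => h.2 (G.tree_of h0)⟩, h.2⟩⟩
  have h3 := card_filter_add_card_filter_not (s := B.ShS c X) (B.Tree c X)
  have h4 := G.card_tree.2.1
  rw [h1, h2, h4] at h3
  refine ⟨by omega, h4 ▸ (card_le_card fun v hv => ?_).trans (card_image_le (f := B.apex c))⟩
  obtain ⟨σ, h, rfl⟩ := mem_image.1 (mem_sdiff.1 hv).1
  obtain ⟨h5, h6 | ⟨τ, h6, h7, h8⟩⟩ := (hS _).1 h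
  · exact absurd h6 (mem_sdiff.1 hv).2
  · by_cases h9 : B.Tree c X σ
    · exact mem_image.2 ⟨τ, mem_filter.2 ⟨h6, fun h0 => h7 (G.tree_inj h6 h5 h0 h9 h8)⟩, h8⟩
    · exact mem_image_of_mem _ (mem_filter.2 ⟨h5, h9⟩)

end Base.Good

end Pool.Agent.MP_8f9e6e_pr.J

end

section

/-! Counting identities and the rank bound. -/

open Finset Filter

namespace Pool.Agent.MP_8f9e6e_pr.J

namespace Base.Good

variable {n d : ℕ} [NeZero n] {c : Cx n d} {B : Base n} {X : Set (Bool × Fc n)}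
  {Vi : Finset (Fc n)} {δ γ : ℕ} {T : Finset (Finset (Fin n))} {a e g x y : Fc n} {σ τ : Stp n}
  {w : Fin n} {i j : ℕ}

theorem nold_le (G : B.Good c X Vi δ T γ) : B.nold ≤ B.nb c X := by
  classical
  rw [← G.card_tree.2.1, Base.nold, cn]
  refine card_le_card_of_injOn Stp.si (fun i hi => ?_) fun i _ j _ h => Stp.si.inj h
  simp only [mem_coe, mem_filter] at hi
  obtain ⟨h1, h2⟩ := hi
  have h3 := mem_range.1 h1
  refine mem_coe.2 (mem_filter.2 ⟨si_mem.2 h3, fun ht => ht ?_⟩)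
  rcases h2 with h | ⟨k, hk, h⟩
  · exact mem_union_left _ h
  · have h4 : Stp.si k ∈ B.St c X := si_mem.2 (hk.trans h3)
    refine mem_union_right _ (mem_image.2 ⟨.si k, mem_filter.2 ⟨h4,
      G.ord_lt (si_mem.2 h3) h4 ?_⟩, h⟩)
    simp only [Base.key]
    omega

theorem s3_slot (hσ : σ ∈ B.St c X) (hy : y ∈ B.slot c σ) : y ∈ B.Occ c X :=
  mem_union_right _ (mem_biUnion.2 ⟨σ, hσ, hy⟩)

omit [NeZero n] in
theorem s3_all (M : Submodule (ZMod 2) (Finset (Fin n) → ZMod 2)) {u o : Fin n}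
    (h1 : x.card = d + 1) (h2 : u ∉ x) (h3 : o ∈ x) (h4 : bd d x ∈ M)
    (h5 : ∀ y ∈ slt x u o, bd d y ∈ M) : ∀ w ∈ x, bd d (insert u (x.erase w)) ∈ M := by
  intro w hw
  by_cases e : w = o
  · rw [e]
    exact bd_last M h1 h2 h3 h4 fun v hv =>
      h5 _ (mem_slt.2 ⟨v, mem_of_mem_erase hv, ne_of_mem_erase hv, rfl⟩)
  · exact h5 _ (mem_slt.2 ⟨w, hw, e, rfl⟩)

theorem s3_occ (G : B.Good c X Vi δ T γ) (M : Submodule (ZMod 2) (Finset (Fin n) → ZMod 2))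
    (hM : ∀ x ∈ B.L c X, bd d x ∈ M) : ∀ x ∈ B.Occ c X, bd d x ∈ M := by
  classical
  intro x
  induction hk : c.rk x using Nat.strong_induction_on generalizing x with
  | _ k ih =>
    intro hx
    by_cases hE : B.E c X x
    · have h1 : Stp.ex x ∈ B.St c X := ex_mem.2 hE
      obtain ⟨h2, h3, h4⟩ := G.step h1
      refine bd_first M h2 h3 fun w hw => ?_
      have h5 : c.pa x w ∈ B.slot c (.ex x) := mem_image_of_mem _ hw
      have h6 := (h4 _ h5).2.1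
      simp only [Base.key] at h6
      exact ih _ (by omega) (c.pa x w) rfl (s3_slot h1 h5)
    · exact hM x (mem_filter.2 ⟨hx, hE⟩)

theorem s3_cell (G : B.Good c X Vi δ T γ) (M : Submodule (ZMod 2) (Finset (Fin n) → ZMod 2))
    (hM : ∀ x ∈ B.L c X ∪ Vi, bd d x ∈ M) : Lev d (fun x => bd d x ∈ M) B.V0 δ T ∧
      ∀ σ ∈ B.St c X, ∀ w ∈ B.face c σ,
        bd d (insert (B.apex c σ) ((B.face c σ).erase w)) ∈ M := by
  have h1 := G.s3_occ M fun x hx => hM x (mem_union_left _ hx)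
  obtain ⟨h2, h3⟩ := G.ok.lev M fun x hx => by
    rcases mem_union.1 hx with h | h
    · rcases mem_union.1 h with h | h
      · exact h1 x (mem_union_left _ h)
      · obtain ⟨i, a1, a2⟩ := mem_biUnion.1 h
        exact h1 x (s3_slot (σ := .si i) (si_mem.2 (mem_range.1 a1)) a2)
    · exact hM x (mem_union_right _ h)
  have h4 : ∀ i < B.ns, bd d (B.g i) ∈ M → ∀ w ∈ B.g i,
      bd d (insert (B.u i) ((B.g i).erase w)) ∈ M := fun i hi h =>
    s3_all M (G.ok.site i hi).1 (G.ok.site i hi).2.2.1 (G.ok.site i hi).2.2.2.1 h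
      fun y hy => h1 y (s3_slot (σ := .si i) (si_mem.2 hi) hy)
  have h5 : ∀ i < B.ns, bd d (B.g i) ∈ M := fun i => by
    induction i using Nat.strong_induction_on with
    | _ i ih =>
      intro hi
      by_cases hs : B.Start i
      · exact h3 i hi hs
      · obtain ⟨k, hk, h⟩ : ∃ k < i, B.g k = B.g i ∨ B.out k = B.g i := by
          by_contra hn
          exact hs (Or.inr fun k hk => not_or.1 fun h => hn ⟨k, hk, h⟩)
        have h6 := ih k hk (hk.trans hi)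
        rcases h with h | h
        · rwa [← h]
        · rw [← h]
          exact h4 k (hk.trans hi) h6 _ (G.ok.site k (hk.trans hi)).2.2.2.1
  refine ⟨h2, fun σ hσ => ?_⟩
  cases σ with
  | ex x => exact fun w hw => h1 _ (s3_slot hσ (mem_image_of_mem (c.pa x) hw))
  | tc g =>
    have a1 := tc_mem.1 hσ
    obtain ⟨a2, a3, a4, -⟩ := G.tc a1
    exact s3_all M (G.step hσ).1 (G.step hσ).2.1 (Cx.tw_spec a3 a4).1.2.2.2.2.1
      (h1 _ (s3_slot (ex_mem.2 a2) (G.tf_slot a1).2.1)) fun y hy => h1 y (s3_slot hσ hy)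
  | si i => exact h4 i (si_mem.1 hσ) (h5 i (si_mem.1 hσ))

theorem rank_out (G : B.Good c X Vi δ T γ) : B.rt.card + d * B.nv c X ≤ (B.L c X).card ∧
    (∃ Z : Finset (Fin n), Z.card ≤ (2 * d + 3) * B.xi c X ∧ ∀ σ ∈ B.St c X,
      B.cell c σ ⊆ Z ∨ B.cell c σ ∈ T ∨ ∃ τ ∈ B.St c X, B.Tree c X τ ∧ B.cell c σ = B.cell c τ) ∧
    ∀ Z : Finset (Fin n), ((B.L c X).filter (· ⊆ Z)).card ≤ B.xi c X + d * Z.card := by
  obtain ⟨h1, h2⟩ := G.s3_cell (Submodule.span (ZMod 2)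
    (bd d '' ((B.L c X ∪ Vi : Finset (Fc n)) : Set (Finset (Fin n)))))
    fun x hx => Submodule.subset_span ⟨x, mem_coe.2 hx, rfl⟩
  obtain ⟨y, Z, -, z2, z3, z4⟩ := rank_steps G.hd _ (fun _ h => h) (B.face c) (B.apex c) (B.ord c)
    h1 (B.St c X) G.ord_inj fun σ hσ =>
      ⟨G.ord_spec hσ, (G.step hσ).1, (G.step hσ).2.1, h2 σ hσ⟩
  obtain ⟨T', t1, -⟩ := h1.steps (B.face c) (B.apex c) (B.ord c) (B.St c X) G.ord_inj
    fun σ hσ => ⟨G.ord_spec hσ, (G.step hσ).1, h2 σ hσ⟩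
  have a1 := z3.trans ((finrank_span_bd _).trans (card_union_le _ _))
  have a2 := G.ok.gain
  have a3 : ((B.St c X).image (B.apex c) \ B.V0).card = B.nv c X := rfl
  rw [a3] at a1 t1
  refine ⟨by omega, ⟨Z, z2.trans (Nat.mul_le_mul_left _ (by rw [Base.xi]; omega)), fun σ hσ =>
    (z4 σ hσ).imp_right fun h => h.imp_right fun ⟨τ, b1, _, b2, b3⟩ => ⟨τ, b1, b2, b3⟩⟩,
    fun Z => ?_⟩
  obtain ⟨A, b0, b1⟩ : ∃ A : Finset (Fc n), (∀ x ∈ A, x ∈ B.L c X ∪ Vi ∧ ¬ x ⊆ Z) ∧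
      δ + d * B.nv c X ≤ A.card + d * (Z ∩ (B.V0 ∪ (B.St c X).image (B.apex c))).card :=
    ⟨_, fun x hx => mem_filter.1 hx, t1.proj _ (fun _ h => h) Z⟩
  refine (?_ : ∀ A' : Finset (Fc n), (∀ x ∈ A', x ∈ B.L c X ∧ x ⊆ Z) →
    A'.card ≤ B.xi c X + d * Z.card) _ fun x hx => by simpa only [mem_filter] using hx
  intro A' b3
  have b2 := (card_union_of_disjoint (s := A) (t := A')
    (disjoint_left.2 fun x h h' => (b0 x h).2 (b3 x h').2)).symm.trans_le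
    ((card_le_card (union_subset (fun x h => (b0 x h).1)
      fun x h => mem_union_left _ (b3 x h).1)).trans (card_union_le _ _))
  have b5 := Nat.mul_le_mul_left d (card_le_card (inter_subset_left (s₁ := Z)
    (s₂ := B.V0 ∪ (B.St c X).image (B.apex c))))
  rw [Base.xi]
  omega

theorem xi_rep (G : B.Good c X Vi δ T γ) : B.xi c X + B.rep c X = d * B.nb c X := by
  have h1 := G.rank_out.1
  have h2 := G.rep_eq
  rw [← G.card_tree.2.2, mul_add] at h2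
  rw [Base.xi]
  omega

open Classical in
theorem s3_E (G : B.Good c X Vi δ T γ) : (univ.filter (B.E c X)).card ≤
    c.sz B.Rs * (1 + c.Om + d * (d + 2) ^ c.r0) := by
  refine (card_le_card (t := (univ.filter (c.Fr B.Rs)).biUnion fun e => {e} ∪
    (range c.Q ×ˢ range (d + 1)).image (fun z => c.dp^[z.2] (c.cf e (z.1 * (d + 1)))) ∪
    univ.filter fun y => c.TA e ∧ (false, c.rs e) ∈ X ∧ c.Fr (c.ts (c.rs e)) y)
    fun y hy => ?_).trans (card_biUnion_le_card_mul _ _ _ fun e _ => ?_)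
  · rcases (mem_filter.1 hy).2 with h | ⟨a, h1, j, h2, rfl⟩ | ⟨g, h1, h2⟩
    · exact mem_biUnion.2 ⟨y, mem_filter.2 ⟨mem_univ _, h⟩,
        mem_union_left _ (mem_union_left _ (mem_singleton_self _))⟩
    · obtain ⟨e, b1, -, i, b2, rfl, -⟩ := G.win h1
      exact mem_biUnion.2 ⟨e, mem_filter.2 ⟨mem_univ _, b1⟩, mem_union_left _ (mem_union_right _
        (mem_image.2 ⟨(i, j), mem_product.2 ⟨mem_range.2 b2, mem_range.2 (by omega)⟩, rfl⟩))⟩
    · obtain ⟨e, b1, b2, rfl, -⟩ := G.link_spec.1 h1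
      exact mem_biUnion.2 ⟨e, mem_filter.2 ⟨mem_univ _, b1⟩,
        mem_union_right _ (mem_filter.2 ⟨mem_univ _, b2, h1, h2⟩)⟩
  · refine (card_union_le _ _).trans (add_le_add ((card_union_le _ _).trans (add_le_add
      (card_singleton _).le (card_image_le.trans_eq ?_))) ?_)
    · rw [card_product, card_range, card_range, Cx.Om]
    · by_cases h : c.TA e ∧ (false, c.rs e) ∈ X
      · have a1 : (c.ts (c.rs e)).card = d :=
          G.card_slot (σ := .tc (c.rs e)) (tc_mem.2 (Or.inr h.2))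
        have a2 := Cx.sz_early (R := c.ts (c.rs e)) G.hS h.1.ri.2.tw.2.2.2.2.2
        rw [a1] at a2
        exact (card_le_card (monotone_filter_right _ fun y _ hy => hy.2.2)).trans a2
      · rw [filter_false_of_mem fun y _ hy => h ⟨hy.1, hy.2.1⟩]
        exact Nat.zero_le _

theorem size (G : B.Good c X Vi δ T γ) : c.sz B.Rs + B.ns ≤ (B.St c X).card ∧
    (B.St c X).card ≤ (c.Om + d * (d + 2) ^ c.r0 + 2) * (c.sz B.Rs + B.ns) ∧
    (B.F c X).card ≤ B.rt.card + (d + 1) * (B.St c X).card := by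
  classical
  refine ⟨?_, ?_, ?_⟩
  · refine le_trans (le_of_eq ?_) (card_le_card (s := (univ.filter (c.Fr B.Rs)).image Stp.ex ∪
      (range B.ns).image Stp.si) (union_subset (image_subset_iff.2 fun x hx =>
        ex_mem.2 (Or.inl (mem_filter.1 hx).2))
        (image_subset_iff.2 fun i hi => si_mem.2 (mem_range.1 hi))))
    rw [card_union_of_disjoint (by simp only [disjoint_left, mem_image, mem_filter, mem_univ, true_and, mem_range, not_exists, not_and, forall_exists_index, and_imp, forall_apply_eq_imp_iff₂, reduceCtorEq, not_false_eq_true, implies_true]),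
      card_image_of_injective _ fun _ _ h => Stp.ex.inj h,
      card_image_of_injective _ fun _ _ h => Stp.si.inj h, card_range]
    rfl
  · have h1 := G.s3_E
    have h2 : (univ.filter (B.Tc c X)).card ≤ c.sz B.Rs :=
      (card_le_card (t := (univ.filter (c.Fr B.Rs)).image c.rs) fun g hg => by
        obtain ⟨-, -, -, e, a1, a2, -⟩ := G.tc (mem_filter.1 hg).2
        exact mem_image.2 ⟨e, mem_filter.2 ⟨mem_univ _, a1⟩, a2.symm⟩).trans card_image_le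
    have h3 : (B.St c X).card ≤ (univ.filter (B.E c X)).card + (univ.filter (B.Tc c X)).card +
        B.ns := (card_union_le _ _).trans (add_le_add ((card_union_le _ _).trans
      (add_le_add card_image_le card_image_le)) (card_image_le.trans_eq (card_range _)))
    linarith only [Nat.zero_le (B.ns * (c.Om + d * (d + 2) ^ c.r0 + 1)), h1, h2, h3]
  · refine (card_filter_le _ _).trans ((card_union_le _ _).trans (Nat.add_le_add_left
      ((card_biUnion_le_card_mul _ _ (d + 1) fun σ hσ => ?_).trans_eq (mul_comm _ _)) _))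
    rw [G.card_slot hσ]
    cases σ <;> simp only [Std.le_refl, le_add_iff_nonneg_right, zero_le]

end Base.Good

end Pool.Agent.MP_8f9e6e_pr.J

end

section

/-! Steps without a new vertex lie in a small set. -/

open Finset Filter

namespace Pool.Agent.MP_8f9e6e_pr.J

namespace Base.Good

variable {n d : ℕ} [NeZero n] {c : Cx n d} {B : Base n} {X : Set (Bool × Fc n)}
  {Vi : Finset (Fc n)} {δ γ : ℕ} {T : Finset (Finset (Fin n))} {a e g x y : Fc n} {σ τ : Stp n}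
  {w : Fin n} {i j : ℕ}

theorem s4_tt (G : B.Good c X Vi δ T γ) (h : σ ∈ B.St c X) (h' : τ ∈ B.St c X)
    (ht : B.Tree c X σ) (ht' : B.Tree c X τ) (h1 : B.apex c σ ∈ B.cell c τ)
    (h2 : B.apex c τ ∈ B.cell c σ) : σ = τ := by
  by_contra hne
  have e : B.apex c σ ≠ B.apex c τ := fun e => hne (G.tree_inj h h' ht ht' e)
  exact lt_asymm (G.tree_lt h h' ht ((mem_insert.1 h1).resolve_left e))
    (G.tree_lt h' h ht' ((mem_insert.1 h2).resolve_left e.symm))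

theorem s4_T (G : B.Good c X Vi δ T γ) {t : Finset (Fin n)} (h : t ∈ T) (ht : B.Tree c X σ) :
    B.apex c σ ∉ t := fun a =>
  ht (mem_union_left _ (lev_sub (G.ok.lev ⊤ fun _ _ => trivial).1 t h a))

omit [NeZero n] in
theorem s4_cd {P Q : Fc n → Prop} (r : Fc n → Fc n → Prop) (h : ∀ a, P a → ∃ b, Q b ∧ r a b)
    (h' : ∀ a a' b, P a → P a' → r a b → r a' b → a = a') : cd P ≤ cd Q := by
  classical
  refine card_le_card_of_forall_subsingleton r (fun a ha => ?_) fun b _ a ha a' ha' => ?_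
  · simpa only [mem_filter, mem_univ, true_and] using h a (by simpa using ha)
  · exact h' a a' b (by simpa only [mem_filter, mem_univ, true_and] using ha.1) (by simpa only [mem_filter, mem_univ, true_and] using ha'.1) ha.2 ha'.2

omit [NeZero n] in
theorem s4_S (h : x ∈ c.S) : c.H x := Rd.mono (k := 0) (Nat.zero_le _) h

/-- The faces of the cell of an explained face. -/
theorem s4_face (G : B.Good c X Vi δ T γ) (hx : B.E c X x) (h1 : y ⊆ B.cell c (.ex x))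
    (h2 : y.card = d + 1) : c.H y ∧ (y ≠ x → Rd d c.S (c.rk x - 1) y) := by
  obtain ⟨a1, a2, a3⟩ := G.step (ex_mem.2 hx)
  by_cases e : y = x
  · exact ⟨e ▸ (G.EH hx).1, fun h => absurd e h⟩
  · obtain ⟨w, hw, rfl⟩ := face_par a1 a2 h2 h1 e
    exact ⟨(a3 _ (mem_image_of_mem _ hw)).1, fun _ => Cx.pa_rd (G.EH hx).1.contr (G.EH hx).2 hw⟩

theorem s4_eq (G : B.Good c X Vi δ T γ) (h : σ ∈ B.St c X) (h1 : y ⊆ B.cell c σ)
    (h2 : y.card = d + 1) (h3 : B.apex c σ ∉ y) : B.face c σ = y :=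
  (eq_of_subset_of_card_le ((subset_insert_iff_of_notMem h3).1 h1)
    ((G.step h).1.trans h2.symm).le).symm

theorem s4_site (G : B.Good c X Vi δ T γ) (hx : B.E c X x) (hi : i < B.ns) :
    B.cell c (.si i) ≠ B.cell c (.ex x) := fun e =>
  (G.ok.site i hi).2.1 (G.s4_face hx (e ▸ subset_insert _ _) (G.ok.site i hi).1).1

theorem s4_ex (G : B.Good c X Vi δ T γ) (hx : B.E c X x) (hy : B.E c X y)
    (e : B.cell c (.ex x) = B.cell c (.ex y)) : x = y :=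
  cell_inj (G.EH hx).1.contr (G.EH hx).2 (G.EH hy).1.contr (G.EH hy).2 e

/-- An explained face is not a slot of a step with its own cell. -/
theorem s4_own (G : B.Good c X Vi δ T γ) (hx : B.E c X x) (h : σ ∈ B.St c X)
    (hs : x ∈ B.slot c σ) : B.cell c σ ≠ B.cell c (.ex x) := fun e => by
  obtain ⟨a1, a2, a3⟩ := G.step h
  cases σ with
  | ex y =>
    obtain rfl := G.s4_ex (ex_mem.1 h) hx e
    exact lt_irrefl _ (a3 _ hs).2.1
  | si i => exact G.s4_site hx (si_mem.1 h) e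
  | tc g =>
    obtain ⟨-, b1, b2, -⟩ := G.tc (tc_mem.1 h)
    obtain ⟨b3, b4⟩ := Cx.tw_spec b1 b2
    obtain ⟨w, hw, b5, b6⟩ := mem_slt.1 hs
    have b7 := rk_le (b4 x hs _ ((G.s4_face hx (e ▸ par_sub)
      (par_card a1 a2 b3.2.2.2.2.1)).2 fun e' => b5 (par_inj a2 hw (b6.symm.trans e'.symm))))
    have b8 := Cx.rk_pos (G.EH hx).1.contr (G.EH hx).2
    have b9 : c.rk x = rk d c.S x := rfl
    omega

theorem s4_unit (G : B.Good c X Vi δ T γ) (h : B.Tc c X g) : B.E c X g ∧ c.ap g ∈ c.tf g ∧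
    c.tf g ⊆ B.cell c (.ex g) ∧ c.tf g ⊆ B.cell c (.tc g) ∧ (c.tf g).card = d + 1 :=
  ⟨(G.tc h).1, mem_insert_self _ _, par_sub, subset_insert _ _,
    (G.step (tc_mem.2 h)).1⟩

/-- A touch in the cell of a tree step whose apex lies in the unit has an owner that is not a tree
step. -/
theorem s4_owner (G : B.Good c X Vi δ T γ) (h : B.Tc c X g) (hτ : τ ∈ B.St c X) (ht : B.Tree c X τ)
    (e : B.cell c (.tc g) = B.cell c τ) (ha : B.apex c τ ∈ c.tf g) : ¬ B.Tree c X (.ex g) :=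
  fun hg => by
    obtain ⟨a1, a2, a3, a4, -⟩ := G.s4_unit h
    exact (G.tf_slot h).2.2 (e.trans (congrArg _ (G.s4_tt hτ (ex_mem.2 a1) ht hg (a3 ha)
      (e ▸ a4 a2))))

theorem s4_two (G : B.Good c X Vi δ T γ) {g' : Fc n} (h : B.Tc c X g) (h' : B.Tc c X g')
    (ht : B.Tree c X (.ex g)) (ht' : B.Tree c X (.ex g')) (e : c.tf g = c.tf g') : g = g' := by
  obtain ⟨a1, a2, a3, -⟩ := G.s4_unit h
  obtain ⟨b1, b2, b3, -⟩ := G.s4_unit h'
  exact Stp.ex.inj (G.s4_tt (ex_mem.2 a1) (ex_mem.2 b1) ht ht' (b3 (e ▸ a2)) (a3 (e ▸ b2)))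

/-- Adding the cells of the tree steps with the apex in a set. -/
theorem s4_grow (G : B.Good c X Vi δ T γ) (Z : Finset (Fin n)) : ∃ Z' : Finset (Fin n), Z ⊆ Z' ∧
    Z'.card ≤ (d + 3) * Z.card ∧
    ∀ τ ∈ B.St c X, B.Tree c X τ → B.apex c τ ∈ Z → B.cell c τ ⊆ Z' := by
  classical
  set A := (B.St c X).filter fun τ => B.Tree c X τ ∧ B.apex c τ ∈ Z with hA
  refine ⟨Z ∪ A.biUnion (B.cell c), subset_union_left, ?_, fun τ h1 h2 h3 =>
    (subset_biUnion_of_mem _ (mem_filter.2 ⟨h1, h2, h3⟩)).trans subset_union_right⟩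
  have h1 : A.card ≤ Z.card := card_le_card_of_injOn (B.apex c)
    (fun τ hτ => (mem_filter.1 hτ).2.2) fun σ hσ τ hτ e => G.tree_inj (mem_filter.1 hσ).1
      (mem_filter.1 hτ).1 (mem_filter.1 hσ).2.1 (mem_filter.1 hτ).2.1 e
  have h2 := card_biUnion_le_card_mul A (B.cell c) (d + 2) fun τ hτ =>
    (card_insert_le _ _).trans (by rw [(G.step (mem_filter.1 hτ).1).1])
  have h3 := card_union_le Z (A.biUnion (B.cell c))
  nlinarith

/-- A face that is explained without a new vertex in the cell of a tree step. -/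
theorem s4_main (G : B.Good c X Vi δ T γ) {Z : Finset (Fin n)} (hZ : ∀ σ ∈ B.St c X,
      B.cell c σ ⊆ Z ∨ B.cell c σ ∈ T ∨ ∃ τ ∈ B.St c X, B.Tree c X τ ∧ B.cell c σ = B.cell c τ)
    (hx : B.E c X x) (hn : ¬ B.Tree c X (.ex x)) (hτ : τ ∈ B.St c X) (ht : B.Tree c X τ)
    (e : B.cell c (.ex x) = B.cell c τ) : B.apex c τ ∈ Z := by
  have hc := (G.step (ex_mem.2 hx)).1
  have key : ∀ t ∈ B.St c X, B.Tree c X t → x ⊆ B.cell c t → B.apex c t ∈ x := fun t h1 h2 h3 => by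
    by_contra h4
    have h5 := G.s4_eq h1 h3 hc h4
    cases t with
    | ex y => exact hn ((show y = x from h5) ▸ h2)
    | tc g => exact (G.EH hx).2 (h5 ▸ (G.tf_slot (tc_mem.1 h1)).1)
    | si i => exact (G.ok.site i (si_mem.1 h1)).2.1 ((show B.g i = x from h5) ▸ (G.EH hx).1)
  have h1 : x ⊆ B.cell c τ := e ▸ subset_insert _ _
  have h2 := key τ hτ ht h1
  rcases mem_union.1 (G.occ hx) with h3 | h3
  · exact absurd (mem_union_left _ ((G.ok.root x h3).1 h2)) ht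
  obtain ⟨σ, hσ, h4⟩ := mem_biUnion.1 h3
  obtain ⟨-, -, w, -, h5⟩ := (G.step hσ).2.2 x h4
  have h6 : x ⊆ B.cell c σ := h5 ▸ par_sub
  rcases hZ σ hσ with h7 | h7 | ⟨t, h7, h8, h9⟩
  · exact h7 (h6 h2)
  · exact absurd (h6 h2) (G.s4_T h7 ht)
  · obtain rfl := G.s4_tt hτ h7 ht h8 (h9 ▸ h6 h2) (h1 (key t h7 h8 (h9 ▸ h6)))
    exact absurd (h9.trans e.symm) (G.s4_own hx hσ h4)

open Classical in
theorem nt_main (G : B.Good c X Vi δ T γ) : ∃ Z1 Z2 : Finset (Fin n),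
    Z1.card ≤ (d + 3) * (2 * d + 3) * B.xi c X ∧ Z2.card ≤ (d + 3) ^ 2 * (2 * d + 3) * B.xi c X ∧
    (∀ x, B.E c X x → ¬ B.Tree c X (.ex x) → B.cell c (.ex x) ⊆ Z1) ∧
    (∀ i < B.ns, ¬ B.Tree c X (.si i) → B.cell c (.si i) ⊆ Z1) ∧
    (∀ x, B.E c X x → B.Tree c X (.ex x) → B.Shared c X (.ex x) → c.ap x ∈ Z2) ∧
    cd (fun g => B.Tc c X g ∧ ¬ B.Tree c X (.tc g)) ≤
      2 * cd (fun x => B.E c X x ∧ ¬ B.Tree c X (.ex x)) + (2 * d + 3) * B.xi c X := by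
  obtain ⟨-, ⟨Z, hc, hZ⟩, -⟩ := G.rank_out
  obtain ⟨Z1, a1, a2, a3⟩ := G.s4_grow Z
  obtain ⟨Z2, b1, b2, b3⟩ := G.s4_grow Z1
  have h1 : ∀ x, B.E c X x → ¬ B.Tree c X (.ex x) → B.cell c (.ex x) ⊆ Z1 := fun x hx hn => by
    rcases hZ _ (ex_mem.2 hx) with h | h | ⟨τ, h1, h2, h3⟩
    · exact h.trans a1
    · exact absurd h (G.ok.home x (G.EH hx).1 (G.EH hx).2)
    · exact h3 ▸ a3 τ h1 h2 (G.s4_main hZ hx hn h1 h2 h3)
  have h2 : ∀ i < B.ns, ¬ B.Tree c X (.si i) → B.cell c (.si i) ⊆ Z1 := fun i hi hn => by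
    have hs := G.ok.site i hi
    rcases hZ _ (si_mem.2 hi) with h | h | ⟨τ, h1, h2, h3⟩
    · exact h.trans a1
    · exact absurd h hs.2.2.2.2.2.2.2.2.1
    exfalso
    cases τ with
    | ex y => exact G.s4_site (ex_mem.1 h1) hi h3
    | si k =>
      rcases lt_trichotomy k i with h | rfl | h
      · exact hs.2.2.2.2.2.2.2.2.2 k h h3.symm
      · exact hn h2
      · exact (G.ok.site k (si_mem.1 h1)).2.2.2.2.2.2.2.2.2 i h h3
    | tc g =>
      have h4 : B.apex c (.tc g) ∈ B.face c (.si i) := by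
        by_contra h4
        exact hs.2.1 ((show c.tf g = B.g i from G.s4_eq h1 (h3 ▸ subset_insert _ _) hs.1 h4) ▸
          s4_S (G.tf_slot (tc_mem.1 h1)).1)
      refine lt_asymm (G.tree_lt h1 (si_mem.2 hi) h2 h4) (G.ord_lt h1 (si_mem.2 hi) ?_)
      have h5 : c.rk g ≤ c.hh := rk_le (G.EH (G.s4_unit (tc_mem.1 h1)).1).1
      simp only [Base.key]
      omega
  refine ⟨Z1, Z2, by nlinarith, ?_, h1, h2, fun x hx ht hs => ?_, ?_⟩
  · calc Z2.card ≤ (d + 3) * ((d + 3) * ((2 * d + 3) * B.xi c X)) :=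
          b2.trans (Nat.mul_le_mul_left _ (a2.trans (Nat.mul_le_mul_left _ hc)))
      _ = _ := by ring
  · obtain ⟨τ, h3, h4, h5⟩ := hs.resolve_left fun h => ht (mem_union_left _ h)
    have h6 : ¬ B.Tree c X τ := fun h => h4 (G.tree_inj h3 (ex_mem.2 hx) h ht h5)
    have h7 : c.ap x ∈ B.cell c τ := (show B.apex c τ = c.ap x from h5) ▸ mem_insert_self _ _
    cases τ with
    | ex y => exact b1 (h1 y (ex_mem.1 h3) h6 h7)
    | si i => exact b1 (h2 i (si_mem.1 h3) h6 h7)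
    | tc g =>
      have hg := tc_mem.1 h3
      obtain ⟨c1, c2, c3, c4, c5⟩ := G.s4_unit hg
      rcases hZ _ h3 with h | h | ⟨t, h8, h9, h10⟩
      · exact b1 (a1 (h h7))
      · exact absurd h7 (G.s4_T h ht)
      have h11 : B.apex c t ∈ c.tf g := by
        refine (mem_insert.1 (show B.apex c t ∈ B.cell c (.tc g) from
          h10 ▸ mem_insert_self _ _)).resolve_left fun e => ?_
        obtain rfl := G.tree_inj h8 (ex_mem.2 hx) h9 ht (e.trans h5)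
        refine (G.EH hx).2 ((show x = c.tf g from
          G.s4_eq h8 (h10 ▸ c4) c5 (e ▸ (G.step h3).2.1)) ▸ (G.tf_slot hg).1)
      exact b3 t h8 h9 (h1 g c1 (G.s4_owner hg h8 h9 h10 h11) (c3 h11)) (h10 ▸ h7)
  · have e2 : cd (fun g => B.Tc c X g ∧ B.Tree c X (.ex g) ∧ c.ap g ∈ Z) ≤ Z.card :=
      cd_le_of_inj Z c.ap (fun g h => h.2.2) fun g g' h h' e => Stp.ex.inj (G.tree_inj
        (ex_mem.2 (G.s4_unit h.1).1) (ex_mem.2 (G.s4_unit h'.1).1) h.2.1 h'.2.1 e)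
    have e3 : cd (fun g => B.Tc c X g ∧ B.Tree c X (.ex g) ∧
        ∃ g', (B.E c X g' ∧ ¬ B.Tree c X (.ex g')) ∧ c.tf g' = c.tf g) ≤
        cd fun x => B.E c X x ∧ ¬ B.Tree c X (.ex x) :=
      s4_cd (fun g g' => c.tf g' = c.tf g) (fun g hg => hg.2.2) fun g g' _ k1 k2 k3 k4 =>
        G.s4_two k1.1 k2.1 k1.2.1 k2.2.1 (k3.symm.trans k4)
    refine (cd_mono (Q := fun g => (B.E c X g ∧ ¬ B.Tree c X (.ex g)) ∨
      ((B.Tc c X g ∧ B.Tree c X (.ex g) ∧ c.ap g ∈ Z) ∨ (B.Tc c X g ∧ B.Tree c X (.ex g) ∧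
        ∃ g', (B.E c X g' ∧ ¬ B.Tree c X (.ex g')) ∧ c.tf g' = c.tf g)))
      fun g ⟨hg, hn⟩ => ?_).trans
      ((cd_or _ _).trans ((Nat.add_le_add_left (cd_or _ _) _).trans (by omega)))
    obtain ⟨c1, c2, c3, c4, c5⟩ := G.s4_unit hg
    by_cases ht : B.Tree c X (.ex g)
    swap
    · exact .inl ⟨c1, ht⟩
    rcases hZ _ (tc_mem.2 hg) with h | h | ⟨t, h8, h9, h10⟩
    · exact .inr (.inl ⟨hg, ht, h (c4 c2)⟩)
    · exact absurd (c4 c2) (G.s4_T h ht)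
    have h11 := G.s4_eq h8 (h10 ▸ c4) c5 fun h => G.s4_owner hg h8 h9 h10 h ht
    have h12 := (G.tf_slot hg).1
    cases t with
    | ex y => exact absurd ((show y = c.tf g from h11) ▸ h12) (G.EH (ex_mem.1 h8)).2
    | si i =>
      exact absurd ((show B.g i = c.tf g from h11) ▸ s4_S h12) (G.ok.site i (si_mem.1 h8)).2.1
    | tc g' =>
      have hg' := tc_mem.1 h8
      refine .inr (.inr ⟨hg, ht, g', ⟨(G.s4_unit hg').1, fun h => ?_⟩, h11⟩)
      obtain rfl := G.s4_two hg' hg h ht h11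
      exact hn h9

end Base.Good

end Pool.Agent.MP_8f9e6e_pr.J

end

section

/-! The excess bounds. -/

open Finset Filter

namespace Pool.Agent.MP_8f9e6e_pr.J

namespace Base.Good

variable {n d : ℕ} [NeZero n] {c : Cx n d} {B : Base n} {X : Set (Bool × Fc n)}
  {Vi : Finset (Fc n)} {δ γ : ℕ} {T : Finset (Finset (Fin n))} {a e g x y : Fc n} {σ τ : Stp n}
  {w : Fin n} {i j : ℕ}

theorem s5_cells (G : B.Good c X Vi δ T γ) (A : Finset (Stp n)) (Z : Finset (Fin n))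
    (hA : A ⊆ B.St c X) (hZ : ∀ σ ∈ A, B.cell c σ ⊆ Z) (hi : Set.InjOn (B.cell c) A) :
    A.card ≤ Z.card ^ (d + 2) := by
  refine le_trans ?_ (Nat.choose_le_pow Z.card (d + 2))
  rw [← card_powersetCard]
  refine card_le_card_of_injOn (B.cell c) (fun σ hσ => ?_) hi
  have h := G.step (hA hσ)
  rw [mem_coe, mem_powersetCard]
  refine ⟨hZ σ hσ, ?_⟩
  rw [Base.cell, card_insert_of_notMem h.2.1, h.1]

theorem nb_le (G : B.Good c X Vi δ T γ) : B.nb c X ≤ (Cb d * B.xi c X) ^ (d + 2) := by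
  classical
  obtain ⟨Z1, Z2, h1, -, h3, h4, -, h6⟩ := G.nt_main
  set A1 : Finset (Fc n) := univ.filter fun x => B.E c X x ∧ ¬ B.Tree c X (.ex x) with hA1
  set A2 : Finset (Fc n) := univ.filter fun x => B.Tc c X x ∧ ¬ B.Tree c X (.tc x) with hA2
  set A3 : Finset ℕ := (range B.ns).filter fun i => ¬ B.Tree c X (.si i) with hA3
  have e1 : cd (fun x => B.E c X x ∧ ¬ B.Tree c X (.ex x)) = A1.card := by
    rw [cd]; congr
  have e2 : cd (fun g => B.Tc c X g ∧ ¬ B.Tree c X (.tc g)) = A2.card := by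
    rw [cd]; congr
  rw [e1, e2] at h6
  have hs : ((B.St c X).filter fun σ => ¬ B.Tree c X σ) ⊆
      A1.image Stp.ex ∪ A2.image Stp.tc ∪ A3.image Stp.si := by
    intro σ hσ
    rw [mem_filter] at hσ
    rcases σ with x | g | i
    · exact mem_union_left _ (mem_union_left _ (mem_image_of_mem _
        (mem_filter.2 ⟨mem_univ _, ex_mem.1 hσ.1, hσ.2⟩)))
    · exact mem_union_left _ (mem_union_right _ (mem_image_of_mem _
        (mem_filter.2 ⟨mem_univ _, tc_mem.1 hσ.1, hσ.2⟩)))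
    · exact mem_union_right _ (mem_image_of_mem _
        (mem_filter.2 ⟨mem_range.2 (si_mem.1 hσ.1), hσ.2⟩))
  have b1 : (A1.image Stp.ex).card ≤ Z1.card ^ (d + 2) := by
    refine G.s5_cells _ Z1 (fun σ hσ => ?_) (fun σ hσ => ?_) (fun σ hσ τ hτ he => ?_)
    · obtain ⟨x, hx, rfl⟩ := mem_image.1 hσ
      exact ex_mem.2 (mem_filter.1 hx).2.1
    · obtain ⟨x, hx, rfl⟩ := mem_image.1 hσ
      exact h3 x (mem_filter.1 hx).2.1 (mem_filter.1 hx).2.2
    · obtain ⟨x, hx, rfl⟩ := mem_image.1 (mem_coe.1 hσ)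
      obtain ⟨y, hy, rfl⟩ := mem_image.1 (mem_coe.1 hτ)
      have a := G.EH (mem_filter.1 hx).2.1
      have b := G.EH (mem_filter.1 hy).2.1
      rw [cell_inj (Rd.contr a.1) a.2 (Rd.contr b.1) b.2 he]
  have b3 : (A3.image (Stp.si (n := n))).card ≤ Z1.card ^ (d + 2) := by
    refine G.s5_cells _ Z1 (fun σ hσ => ?_) (fun σ hσ => ?_) (fun σ hσ τ hτ he => ?_)
    · obtain ⟨x, hx, rfl⟩ := mem_image.1 hσ
      exact si_mem.2 (mem_range.1 (mem_filter.1 hx).1)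
    · obtain ⟨x, hx, rfl⟩ := mem_image.1 hσ
      exact h4 x (mem_range.1 (mem_filter.1 hx).1) (mem_filter.1 hx).2
    · obtain ⟨x, hx, rfl⟩ := mem_image.1 (mem_coe.1 hσ)
      obtain ⟨y, hy, rfl⟩ := mem_image.1 (mem_coe.1 hτ)
      have a := (G.ok.site x (mem_range.1 (mem_filter.1 hx).1)).2.2.2.2.2.2.2.2.2
      have b := (G.ok.site y (mem_range.1 (mem_filter.1 hy).1)).2.2.2.2.2.2.2.2.2
      rcases lt_trichotomy x y with h | h | h
      · exact absurd he (b x h)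
      · rw [h]
      · exact absurd he.symm (a y h)
  have c1 : (A1.image Stp.ex).card = A1.card :=
    card_image_of_injective _ fun _ _ h => Stp.ex.inj h
  have c2 : (A2.image Stp.tc).card ≤ A2.card := card_image_le
  have hn : B.nb c X ≤ (A1.image Stp.ex).card + (A2.image Stp.tc).card +
      (A3.image (Stp.si (n := n))).card := by
    have := G.card_tree.2.1
    refine le_trans (le_of_eq ?_) ((card_le_card hs).trans ((card_union_le _ _).trans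
      (Nat.add_le_add_right (card_union_le _ _) _)))
    rw [← this]
  set z := (d + 3) * (2 * d + 3) * B.xi c X with hz
  have p1 : Z1.card ^ (d + 2) ≤ z ^ (d + 2) := Nat.pow_le_pow_left h1 _
  have p2 : (2 * d + 3) * B.xi c X ≤ z ^ (d + 2) :=
    le_trans (by rw [hz, mul_assoc]; exact Nat.le_mul_of_pos_left _ (by omega))
      (Nat.le_self_pow (by omega) z)
  have p3 : (Cb d * B.xi c X) ^ (d + 2) = (2 * (d + 3)) ^ (d + 2) * z ^ (d + 2) := by
    rw [← mul_pow, Cb, hz]; congr 1; ring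
  have p4 : 5 ≤ (2 * (d + 3)) ^ (d + 2) := le_trans (by omega) (Nat.le_self_pow (by omega) _)
  have p5 := Nat.mul_le_mul_right (z ^ (d + 2)) p4
  omega

theorem s5_lev {e' : Fc n} {k k' : ℕ} (h : c.Compat e) (h' : c.Compat e') (hk : k < c.Om)
    (hk' : k' < c.Om) (he : c.cf e k = c.cf e' k') : k = k' ∧ c.cf e c.Om = c.cf e' c.Om := by
  have a := Cx.lev_add (h.2.rk h.1.1 hk.le).2
  have b := Cx.lev_add (h'.2.rk h'.1.1 hk'.le).2
  rw [h.1.2] at a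
  rw [h'.1.2, ← he] at b
  have q : k = k' := by
    have : k ≡ k' [MOD c.Om] := Nat.ModEq.add_left_cancel' (c.lev (c.cf e k)) (a.symm.trans b)
    exact Nat.ModEq.eq_of_lt_of_lt this hk hk'
  subst q
  refine ⟨rfl, ?_⟩
  obtain ⟨m, hm⟩ := Nat.exists_eq_add_of_le hk.le
  have u := h.2.iter (k := k) (i := m) hm.ge
  have v := h'.2.iter (k := k) (i := m) hm.ge
  rw [← hm] at u v
  rw [u, v, he]

theorem t0_le (G : B.Good c X Vi δ T γ) : c.Q * (B.T0 c X).card ≤ Cb d * B.xi c X := by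
  classical
  obtain ⟨Z1, Z2, h1, h2, h3, -, h5, -⟩ := G.nt_main
  have h7 := G.rank_out.2.2 Z1
  set P : Finset (Fc n) := univ.filter fun g => B.E c X g ∧ B.Shared c X (.ex g) ∧ c.Fresh g ∧
    ∃ w, c.SS g w with hP
  have hlt : ∀ i < c.Q, ∀ j ≤ d, i * (d + 1) + j < c.Om := fun i hi j hj => by
    have := Nat.mul_le_mul_right (d + 1) (Nat.succ_le_of_lt hi)
    rw [Nat.succ_mul] at this
    rw [Cx.Om]; omega
  have a1 : c.Q * (B.T0 c X).card ≤ P.card := by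
    choose! E e1 e2 e3 e4 using fun x (h : x ∈ B.T0 c X) => G.t0_spec h
    choose! J j1 j2 j3 using e4
    rw [mul_comm, ← card_range c.Q, ← card_product]
    refine card_le_card_of_injOn (fun z => c.cf (E z.1) (z.2 * (d + 1) + J z.1 z.2))
      (fun z hz => ?_) (fun z hz z' hz' he => ?_)
    · obtain ⟨hx, hi⟩ := mem_product.1 (mem_coe.1 hz)
      have hi := mem_range.1 hi
      have l := hlt _ hi _ (j1 _ hx _ hi)
      exact mem_coe.2 (mem_filter.2 ⟨mem_univ _, j2 _ hx _ hi, j3 _ hx _ hi, (e2 _ hx).2 _ l,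
        _, (e2 _ hx).1.2 _ l⟩)
    · obtain ⟨hx, hi⟩ := mem_product.1 (mem_coe.1 hz)
      obtain ⟨hx', hi'⟩ := mem_product.1 (mem_coe.1 hz')
      have hi := mem_range.1 hi
      have hi' := mem_range.1 hi'
      have l := j1 _ hx _ hi
      have l' := j1 _ hx' _ hi'
      obtain ⟨q1, q2⟩ := s5_lev (e2 _ hx).1 (e2 _ hx').1 (hlt _ hi _ l) (hlt _ hi' _ l') he
      refine Prod.ext ((e3 _ hx).trans (q2.trans (e3 _ hx').symm)) ?_
      have r : ∀ a b : ℕ, b ≤ d → (a * (d + 1) + b) / (d + 1) = a := fun a b hb => by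
        rw [add_comm, Nat.add_mul_div_right _ _ d.succ_pos, Nat.div_eq_of_lt (by omega), zero_add]
      rw [← r z.2 _ l, q1, r _ _ l']
  have a2 : (P.filter fun g => B.Tree c X (.ex g)).card ≤ Z2.card := by
    refine card_le_card_of_injOn c.ap (fun g hg => ?_) (fun g hg g' hg' he => ?_)
    · obtain ⟨u, v⟩ := mem_filter.1 (mem_coe.1 hg)
      have u := (mem_filter.1 u).2
      exact h5 g u.1 v u.2.1
    · obtain ⟨u, v⟩ := mem_filter.1 (mem_coe.1 hg)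
      obtain ⟨u', v'⟩ := mem_filter.1 (mem_coe.1 hg')
      exact Stp.ex.inj (G.tree_inj (ex_mem.2 (mem_filter.1 u).2.1)
        (ex_mem.2 (mem_filter.1 u').2.1) v v' he)
  have a3 : (P.filter fun g => ¬ B.Tree c X (.ex g)).card ≤
      ((B.L c X).filter (· ⊆ Z1)).card := by
    have k : ∀ g ∈ P, ∃ w ∈ g, c.pa g w ∈ c.S ∧ c.D g := fun g hg => by
      obtain ⟨w, hw⟩ := (mem_filter.1 hg).2.2.2.2
      obtain ⟨w', m, ne⟩ := exists_mem_ne (s := g) (by rw [hw.2.1.card]; have := G.hd; omega) w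
      exact ⟨w', m, hw.2.2.2 w' m ne, hw.2.1⟩
    choose! W w1 w2 w3 using k
    refine card_le_card_of_injOn (fun g => c.pa g (W g)) (fun g hg => ?_)
      (fun g hg g' hg' he => ?_)
    · obtain ⟨u, v⟩ := mem_filter.1 (mem_coe.1 hg)
      have u' := (mem_filter.1 u).2
      refine mem_coe.2 (mem_filter.2 ⟨mem_filter.2 ⟨mem_union_right _ (mem_biUnion.2
        ⟨.ex g, ex_mem.2 u'.1, mem_image_of_mem _ (w1 g u)⟩), fun h => (G.EH h).2 (w2 g u)⟩, ?_⟩)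
      exact par_sub.trans (h3 g u'.1 v)
    · obtain ⟨u, -⟩ := mem_filter.1 (mem_coe.1 hg)
      obtain ⟨u', -⟩ := mem_filter.1 (mem_coe.1 hg')
      exact Cx.unit_uniq G.hS (w3 g u) (w3 g' u') (mem_filter.1 u).2.2.2.1
        (mem_filter.1 u').2.2.2.1 (w1 g u) (w1 g' u') (w2 g u) he
  have a4 := card_filter_add_card_filter_not (s := P) fun g => B.Tree c X (.ex g)
  have a5 : d * Z1.card ≤ d * ((d + 3) * (2 * d + 3) * B.xi c X) := Nat.mul_le_mul_left _ h1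
  have a6 : Cb d * B.xi c X = (d + 3) ^ 2 * (2 * d + 3) * B.xi c X +
      d * ((d + 3) * (2 * d + 3) * B.xi c X) + 3 * ((d + 3) * (2 * d + 3)) * B.xi c X := by
    rw [Cb]; ring
  have a7 : B.xi c X ≤ 3 * ((d + 3) * (2 * d + 3)) * B.xi c X :=
    Nat.le_mul_of_pos_left _ (by positivity)
  omega

end Base.Good

end Pool.Agent.MP_8f9e6e_pr.J

end

section

/-! The number of markers. -/

open Finset Filter

namespace Pool.Agent.MP_8f9e6e_pr.J

namespace Base.Good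

variable {n d : ℕ} [NeZero n] {c : Cx n d} {B : Base n} {X : Set (Bool × Fc n)}
  {Vi : Finset (Fc n)} {δ γ : ℕ} {T : Finset (Finset (Fin n))} {a e g x y : Fc n} {σ τ : Stp n}
  {w : Fin n} {i j : ℕ}

/-- Faces with a second occurrence. -/
theorem multi_le (G : B.Good c X Vi δ T γ) (A : Finset (Stp n × Fc n))
    (h : ∀ z ∈ A, z.1 ∈ B.St c X ∧ z.2 ∈ B.slot c z.1 ∧
      (z.2 ∈ B.rt ∨ ∃ τ ∈ B.St c X, τ ≠ z.1 ∧ z.2 ∈ B.slot c τ)) : A.card ≤ 2 * B.rep c X := by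
  classical
  have h1 : ∑ x ∈ B.Occ c X, ((B.St c X).filter fun σ => x ∈ B.slot c σ).card =
      ∑ σ ∈ B.St c X, (B.slot c σ).card := by
    simp only [card_filter]
    rw [sum_comm]
    refine sum_congr rfl fun σ hσ => ?_
    rw [← card_filter, filter_mem_eq_inter, inter_eq_right.2 fun y hy => tr1_occ hσ hy]
  have h2 : ∑ x ∈ B.Occ c X, (if x ∈ B.rt then 1 else 0) = B.rt.card := by
    rw [← card_filter, filter_mem_eq_inter,
      inter_eq_right.2 (show B.rt ⊆ B.Occ c X from subset_union_left)]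
  have h3 : A.card = ∑ x ∈ B.Occ c X, (A.filter fun z => z.2 = x).card :=
    card_eq_sum_card_fiberwise fun z hz => tr1_occ (h z hz).1 (h z hz).2.1
  have h4 : ∑ x ∈ B.Occ c X, ((A.filter fun z => z.2 = x).card + 2) ≤ ∑ x ∈ B.Occ c X,
      2 * ((if x ∈ B.rt then 1 else 0) + ((B.St c X).filter fun σ => x ∈ B.slot c σ).card) := by
    refine sum_le_sum fun x hx => ?_
    have h5 : (A.filter fun z => z.2 = x).card ≤
        ((B.St c X).filter fun σ => x ∈ B.slot c σ).card :=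
      card_le_card_of_injOn Prod.fst (fun z hz => by
        obtain ⟨a1, a2⟩ := mem_filter.1 hz
        exact mem_filter.2 ⟨(h z a1).1, a2 ▸ (h z a1).2.1⟩)
        fun z hz z' hz' b => Prod.ext b ((mem_filter.1 hz).2.trans (mem_filter.1 hz').2.symm)
    split_ifs with h6
    · omega
    · rcases (A.filter fun z => z.2 = x).eq_empty_or_nonempty with h7 | ⟨z, hz⟩
      · obtain ⟨σ, h8⟩ := mem_biUnion.1 ((mem_union.1 hx).resolve_left h6)
        have := card_pos.2 ⟨σ, (mem_filter (p := fun σ => x ∈ B.slot c σ)).2 h8⟩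
        rw [h7, card_empty]
        omega
      · obtain ⟨a1, rfl⟩ := mem_filter.1 hz
        obtain ⟨a2, a3, a4⟩ := h z a1
        obtain ⟨τ, a5, a6, a7⟩ := a4.resolve_left h6
        have := one_lt_card.2 ⟨τ, (mem_filter (p := fun σ => z.2 ∈ B.slot c σ)).2 ⟨a5, a7⟩, z.1,
          mem_filter.2 ⟨a2, a3⟩, a6⟩
        omega
  rw [sum_add_distrib, ← mul_sum, sum_add_distrib, h1, h2, ← h3, sum_const, smul_eq_mul,
    ← G.rep_add] at h4
  omega

/-- Early faces that are explained occur. -/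
theorem s6_occ (G : B.Good c X Vi δ T γ) {X' : Set (Bool × Fc n)} (hX : X' ⊆ X) (hA : c.A y)
    (hy : B.E c X' y) : y ∈ B.Occ c X' := by
  rcases hy with ⟨-, x, hx, h1⟩ | ⟨a, ha, j, hj, rfl⟩ | ⟨g, hg, -, x, hx, h1⟩
  · rcases h1.cases_tail with rfl | ⟨z, h2, h3, -, ⟨-, w, hw, rfl⟩ | ⟨h4, h5⟩⟩
    · rcases mem_union.1 hx with hx | hx
      · exact mem_union_left _ hx
      · obtain ⟨i, hi, hx⟩ := mem_biUnion.1 hx
        exact tr1_occ (si_mem.2 (mem_range.1 hi)) hx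
    · exact tr1_occ (ex_mem.2 (.inl ⟨h3, x, hx, h2⟩)) (mem_image_of_mem _ hw)
    · exact tr1_occ (tc_mem.2 (.inl ⟨z, ⟨h3, x, hx, h2⟩, h4, rfl⟩)) h5
  · obtain ⟨e, -, h2, i, hi, rfl, -⟩ := G.win (hX ha)
    have h3 := (tr1_idx hi hj).le
    rw [← h2.1.2.iter h3] at hA
    exact absurd hA (h2.1.2.rk h2.1.1.1 h3).1.2
  · rcases h1.cases_tail with rfl | ⟨z, h2, h3, -, ⟨-, w, hw, rfl⟩ | ⟨h4, -⟩⟩
    · exact tr1_occ (tc_mem.2 (.inr hg)) hx
    · exact tr1_occ (ex_mem.2 (.inr (.inr ⟨g, hg, h3, x, hx, h2⟩))) (mem_image_of_mem _ hw)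
    · exact absurd (G.tr1_A (hX hg) ⟨h3, x, hx, h2⟩) h4.1.1.1.2

/-- The first face on the way down that occurs without the link. -/
theorem s6_first (G : B.Good c X Vi δ T γ) (hg : (false, g) ∈ X) {O : Finset (Fc n)} {f : Fc n}
    (hf : c.Lf (c.ts g) f) (hO : f ∈ O) : ∃ z : Stp n × Fc n, z.2 ∈ B.slot c z.1 ∧ z.2 ∈ O ∧
      (z.1 = .tc g ∨ ∃ y, z.1 = .ex y ∧ c.Fr (c.ts g) y ∧ y ∉ O) := by
  have h1 : ∀ y, c.Fr (c.ts g) y → ∀ w ∈ y, c.pa y w ∈ O → ∃ z : Stp n × Fc n,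
      z.2 ∈ B.slot c z.1 ∧ z.2 ∈ O ∧
      (z.1 = .tc g ∨ ∃ y, z.1 = .ex y ∧ c.Fr (c.ts g) y ∧ y ∉ O) := by
    rintro y ⟨h2, x, hx, h3⟩
    induction h3 with
    | refl =>
      intro w hw h4
      by_cases h5 : x ∈ O
      · exact ⟨(.tc g, x), hx, h5, .inl rfl⟩
      · exact ⟨(.ex x, _), mem_image_of_mem _ hw, h4, .inr ⟨x, rfl, ⟨h2, x, hx, .refl⟩, h5⟩⟩
    | @tail u y h3 h6 ih =>
      intro w hw h4
      by_cases h5 : y ∈ O
      · obtain ⟨h7, -, ⟨-, v, hv, rfl⟩ | ⟨h8, -⟩⟩ := h6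
        · exact ih h7 v hv h5
        · exact absurd (G.tr1_A hg ⟨h7, x, hx, h3⟩) h8.1.1.1.2
      · exact ⟨(.ex y, _), mem_image_of_mem _ hw, h4,
          .inr ⟨y, rfl, ⟨h2, x, hx, h3.tail h6⟩, h5⟩⟩
  obtain ⟨-, h2 | ⟨y, h2, w, hw, rfl⟩⟩ := hf
  · exact ⟨(.tc g, f), h2, hO, .inl rfl⟩
  · exact h1 y h2 w hw hO

/-- Links that are caused by an overlap. -/
theorem s6_ov (G : B.Good c X Vi δ T γ) : cd (fun g => (false, g) ∈ X ∧
    ∃ f, c.Lf (c.ts g) f ∧ f ∈ B.Occ c (X \ {(false, g)})) ≤ 2 * B.rep c X := by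
  classical
  have h1 : ∀ g, ((false, g) ∈ X ∧ ∃ f, c.Lf (c.ts g) f ∧ f ∈ B.Occ c (X \ {(false, g)})) →
      ∃ z : Stp n × Fc n, z.2 ∈ B.slot c z.1 ∧ z.2 ∈ B.Occ c (X \ {(false, g)}) ∧ (z.1 = .tc g ∨
        ∃ y, z.1 = .ex y ∧ c.Fr (c.ts g) y ∧ y ∉ B.Occ c (X \ {(false, g)})) :=
    fun g ⟨hg, f, hf, hO⟩ => G.s6_first hg hf hO
  have : Nonempty (Stp n × Fc n) := ⟨(.si 0, ∅)⟩
  choose! z h2 h3 h4 using h1
  refine (cd_le_of_inj ((B.St c X ×ˢ univ).filter fun z => z.2 ∈ B.slot c z.1 ∧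
    (z.2 ∈ B.rt ∨ ∃ τ ∈ B.St c X, τ ≠ z.1 ∧ z.2 ∈ B.slot c τ)) z (fun g hg => ?_)
    fun g g' hg hg' h5 => ?_).trans (G.multi_le _ fun z hz =>
      ⟨(mem_product.1 (mem_filter.1 hz).1).1, (mem_filter.1 hz).2⟩)
  · have h5 : (z g).1 ∈ B.St c X ∧ (z g).1 ∉ B.St c (X \ {(false, g)}) := by
      rcases h4 g hg with h6 | ⟨y, h6, h7, h8⟩ <;> rw [h6]
      · refine ⟨tc_mem.2 (.inr hg.1), fun h7 => ?_⟩
        obtain ⟨e, -, h8, h9⟩ := G.tr1_link hg.1
        rcases tc_mem.1 h7 with ⟨e', -, h10, h11⟩ | h10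
        · exact h10.ri.2.2 (h11 ▸ h9 ▸ h8.ri.2)
        · exact h10.2 rfl
      · exact ⟨ex_mem.2 (.inr (.inr ⟨g, hg.1, h7⟩)), fun h9 =>
          h8 (G.s6_occ Set.sdiff_subset (G.tr1_A hg.1 h7) (ex_mem.1 h9))⟩
    refine mem_filter.2 ⟨mem_product.2 ⟨h5.1, mem_univ _⟩, h2 g hg,
      (mem_union.1 (h3 g hg)).imp_right fun h6 => ?_⟩
    obtain ⟨τ, h7, h8⟩ := mem_biUnion.1 h6
    exact ⟨τ, St_mono Set.sdiff_subset h7, fun h9 => h5.2 (h9 ▸ h7), h8⟩
  · rcases h4 g hg with h6 | ⟨y, h6, h7, h8⟩ <;> rcases h4 g' hg' with h9 | ⟨y', h9, h10, -⟩ <;>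
      rw [← h5, h6] at h9
    · exact Stp.tc.inj h9
    · cases h9
    · cases h9
    · by_contra h11
      exact h8 (G.s6_occ Set.sdiff_subset (G.tr1_A hg.1 h7) (.inr (.inr ⟨g', ⟨hg'.1,
        fun h12 => h11 (Prod.ext_iff.1 h12).2.symm⟩, Stp.ex.inj h9 ▸ h10⟩)))

theorem s6_idx {e' : Fc n} (ht : c.Top e) (ht' : c.Top e') (hc : c.Cpt e i) (hc' : c.Cpt e' j)
    (hi : i < c.Om) (hj : j < c.Om) (h : c.cf e i = c.cf e' j) : i = j := by
  have h1 := Cx.lev_add (hc.rk ht.1 le_rfl).2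
  have h2 := Cx.lev_add (hc'.rk ht'.1 le_rfl).2
  rw [← h, ht'.2, ← ht.2, h1] at h2
  exact Nat.ModEq.eq_of_lt_of_lt (Nat.ModEq.add_left_cancel' _ h2) hi hj

/-- Tops with a shared apex in the chain. -/
theorem s6_np (G : B.Good c X Vi δ T γ) : cd (fun e => c.Top e ∧ ∃ i < c.Om, c.Cpt e i ∧
    (∀ k ≤ i, B.E c X (c.cf e k)) ∧ B.Shared c X (.ex (c.cf e i))) ≤ 2 * B.nb c X := by
  classical
  have h1 : ∀ e, (c.Top e ∧ ∃ i < c.Om, c.Cpt e i ∧ (∀ k ≤ i, B.E c X (c.cf e k)) ∧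
      B.Shared c X (.ex (c.cf e i))) → ∃ i < c.Om, c.Cpt e i ∧ (∀ k ≤ i, B.E c X (c.cf e k)) ∧
      B.Shared c X (.ex (c.cf e i)) ∧ B.Priv c X e i := by
    rintro e ⟨-, i, h1, h2, h3, h4⟩
    have h5 : ∃ i, B.Shared c X (.ex (c.cf e i)) := ⟨i, h4⟩
    have h6 : Nat.find h5 ≤ i := Nat.find_min' h5 h4
    exact ⟨Nat.find h5, h6.trans_lt h1, h2.mono h6, fun k hk => h3 k (hk.trans h6),
      Nat.find_spec h5, fun k hk => Nat.find_min h5 hk⟩
  choose! i h2 h3 h4 h5 h6 using h1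
  refine (cd_le_of_inj (B.ShS c X) (fun e => .ex (c.cf e (i e))) (fun e he => ?_)
    fun e e' he he' h7 => ?_).trans ?_
  · exact mem_filter.2 ⟨ex_mem.2 (h4 e he _ le_rfl), h5 e he⟩
  · have h8 := Stp.ex.inj h7
    have h9 := s6_idx he.1 he'.1 (h3 e he) (h3 e' he') (h2 e he) (h2 e' he') h8
    exact G.up_uniq he.1.1 he'.1.1 (h3 e he) (h9 ▸ h3 e' he') (fun k hk => h4 e he k hk.le)
      (fun k hk => h4 e' he' k (h9 ▸ hk.le)) (h6 e he) (h9 ▸ h8)
  · have := G.card_ShS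
    omega

theorem s6_sh (G : B.Good c X Vi δ T γ) (he : c.Fr B.Rs e) (ht : c.Top e) (hn : ¬ c.Cmp e)
    (hc : c.Cpt e j) (hj : j ≤ c.Om) (hp : ¬ B.Priv c X e j) : c.Top e ∧ ∃ i < c.Om, c.Cpt e i ∧
      (∀ k ≤ i, B.E c X (c.cf e k)) ∧ B.Shared c X (.ex (c.cf e i)) := by
  simp only [Priv, not_forall, not_not] at hp
  obtain ⟨i, hi, h1⟩ := hp
  exact ⟨ht, i, hi.trans_le hj, hc.mono hi.le,
    fun k hk => .inl (G.chain he ht hn hc hj (hk.trans hi.le)), h1⟩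

theorem s6_rs (G : B.Good c X Vi δ T γ) {e' : Fc n} (he : c.Fr B.Rs e) (he' : c.Fr B.Rs e')
    (hA : c.TA e) (hA' : c.TA e') (hp : B.Priv c X e c.Om) (h : c.rs e = c.rs e') : e = e' := by
  have h1 := hA.1.2.mono hA.ri.1.le
  have h2 := hA'.1.2.mono hA'.ri.1.le
  have h3 := s6_idx hA.1.1 hA'.1.1 h1 h2 hA.ri.1 hA'.ri.1 h
  exact G.up_uniq hA.1.1.1 hA'.1.1.1 h1 (h3 ▸ h2)
    (fun k hk => .inl (G.chain he hA.1.1 hA.nc hA.1.2 le_rfl (hk.trans hA.ri.1).le))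
    (fun k hk => .inl (G.chain he' hA'.1.1 hA'.nc hA'.1.2 le_rfl (hk.trans hA.ri.1).le))
    (fun k hk => hp k (hk.trans hA.ri.1)) (h.trans (congrArg _ h3.symm))

omit [NeZero n] in
theorem s6_map {P Q : Fc n → Prop} (f : Fc n → Fc n) (h : ∀ a, P a → Q (f a))
    (hi : ∀ a b, P a → P b → f a = f b → a = b) : cd P ≤ cd Q := by
  classical
  exact cd_le_of_inj _ f (fun a ha => mem_filter.2 ⟨mem_univ _, h a ha⟩) hi

omit [NeZero n] in
theorem s6_img {P : Fc n → Prop} (f : Fc n → Fc n) : cd (fun g => ∃ e, P e ∧ g = f e) ≤ cd P := by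
  have h1 : ∀ g, (∃ e, P e ∧ g = f e) → ∃ e, P e ∧ g = f e := fun _ h => h
  choose! e h2 h3 using h1
  exact s6_map e h2 fun a b ha hb h => by rw [h3 a ha, h3 b hb, h]

theorem irr_le (G : B.Good c X Vi δ T γ) : cd (B.Irr c X) ≤ 2 * B.nb c X + 2 * B.rep c X ∧
    cd (B.IrT c X) ≤ 2 * B.nb c X + 2 * B.rep c X := by
  refine ⟨(cd_mono fun e he => ?_).trans ((cd_or _ fun e => c.Fr B.Rs e ∧ c.TA e ∧
      B.Priv c X e c.Om ∧ (false, c.rs e) ∈ X).trans (add_le_add G.s6_np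
        ((s6_map c.rs (fun e he => ?_) fun e e' he he' h => ?_).trans G.s6_ov))),
    (cd_mono fun g hg => ?_).trans ((cd_or _ _).trans
      (add_le_add ((s6_img c.rs).trans G.s6_np) G.s6_ov))⟩
  · obtain ⟨h1, h2, h3, h4, h5, h6⟩ := he
    have h7 := G.top h1 h2
    by_cases h8 : c.Cpt e c.Om
    · by_cases h9 : c.Cmp e
      · have h10 : 0 < c.Q := by have := G.hQ; omega
        have h11 := G.open_of h7 h9 h10 fun k hk => absurd hk k.not_lt_zero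
        rw [zero_mul, Cx.cf_zero h2.1.card] at h11
        obtain ⟨j, hj, h12⟩ := (not_not.1 fun b => h6 ⟨h11, b⟩ : B.BadW c X e).resolve_right
          fun b => b.2 h9
        have h13 : ∀ k ≤ d, k < c.Om := fun k hk => by simpa using tr1_idx h10 hk
        refine .inl ⟨h2, j, h13 j hj, h8.mono (h13 j hj).le, fun k hk => ?_, ?_⟩
        · exact .inr (.inl ⟨e, h11, k, hk.trans hj, h8.cf h2.1 (h13 k (hk.trans hj)).le⟩)
        · rwa [h8.cf h2.1 (h13 j hj).le]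
      · by_cases h10 : B.Priv c X e c.Om
        · have h11 : c.TA e := not_not.1 fun b => h5 ⟨⟨⟨h2, h8⟩, b, h9⟩, h10⟩
          exact .inr ⟨h7, h11, h10, not_not.1 fun b => h4 ⟨h11, b⟩⟩
        · exact .inl (G.s6_sh h7 h2 h9 h8 le_rfl h10)
    · exact .inl (G.s6_sh h7 h2 (fun b => h8 b.1.2) Cx.cpt_cpl Cx.cpl_le fun b => h3 ⟨h2, h8, b⟩)
  · obtain ⟨h1, h2, h3, h4⟩ := he
    obtain ⟨e', h5, h6, h7, ⟨j, hj, h8⟩ | h8⟩ := G.link_spec.1 h4
    · exact absurd (G.s6_rs h1 h5 h2 h6 h3 h7 ▸ h8) (h3 j hj)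
    · exact ⟨h4, h8⟩
  · exact G.s6_rs he.1 he'.1 he.2.1 he'.2.1 he.2.2.1 h
  · rcases hg.1 with ⟨e, h1, h2, h3⟩ | h1
    · exact .inl ⟨e, G.s6_sh h1 h2.1.1 h2.2.2 h2.1.2 le_rfl
        fun b => hg.2 ⟨e, .inl h1, ⟨h2, b⟩, h3⟩, h3⟩
    · obtain ⟨e, h5, h6, h7, ⟨j, hj, h8⟩ | h8⟩ := G.link_spec.1 h1
      · exact .inl ⟨e, G.s6_sh h5 h6.1.1 h6.nc h6.1.2 le_rfl fun b => b j hj h8, h7⟩
      · exact .inr ⟨h1, h8⟩

end Base.Good

end Pool.Agent.MP_8f9e6e_pr.J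

end

section

/-! The gain from the excess. -/

open Finset Filter

namespace Pool.Agent.MP_8f9e6e_pr.J

variable {d : ℕ}

theorem k3_log (s : ℕ) (A c : ℝ) (hA : 0 < A) :
    ∀ᶠ x : ℝ in atTop, 0 ≤ 2 * Real.log x + c ∧ A * (2 * Real.log x + c) ^ s ≤ x := by
  have h1 := (Real.isLittleO_pow_log_id_atTop (n := s)).bound
    (c := (A * 3 ^ s)⁻¹) (by positivity)
  have h2 : ∀ᶠ x : ℝ in atTop, |c| ≤ Real.log x := Real.tendsto_log_atTop.eventually_ge_atTop _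
  filter_upwards [h1, h2, eventually_ge_atTop (0 : ℝ)] with x h1 h2 h3
  have hc := abs_le.1 h2
  have h0 : 0 ≤ Real.log x := (abs_nonneg c).trans h2
  have h4 : 0 ≤ 2 * Real.log x + c := by linarith [hc.1]
  refine ⟨h4, ?_⟩
  have h5 : (2 * Real.log x + c) ^ s ≤ (3 * Real.log x) ^ s :=
    pow_le_pow_left₀ h4 (by linarith only [hc.2]) s
  rw [Real.norm_of_nonneg (pow_nonneg h0 s), id, Real.norm_of_nonneg h3] at h1
  calc A * (2 * Real.log x + c) ^ s ≤ A * (3 ^ s * Real.log x ^ s) := by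
        rw [← mul_pow]; exact mul_le_mul_of_nonneg_left h5 hA.le
    _ = A * 3 ^ s * Real.log x ^ s := by ring
    _ ≤ A * 3 ^ s * ((A * 3 ^ s)⁻¹ * x) := mul_le_mul_of_nonneg_left h1 (by positivity)
    _ = x := by field_simp

theorem k3_pow (s : ℕ) {b ξ B x Λ u D : ℝ} (hb : 0 ≤ b) (hξ : 0 ≤ ξ) (_hB : 0 ≤ B) (hu : 0 ≤ u)
    (hΛ : 0 ≤ Λ) (hD : 0 < D) (h1 : b ≤ x) (h2 : b ≤ (B * ξ) ^ (s + 1)) (hx : x = D * u)
    (h3 : (B * D) ^ (s + 1) * Λ ^ (s + 1) ≤ x) : b * Λ ≤ ξ * u := by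
  refine (pow_le_pow_iff_left₀ (by positivity) (by positivity) (Nat.succ_ne_zero s)).1 ?_
  have hx0 : 0 ≤ x := hb.trans h1
  have h4 : b ^ (s + 1) ≤ x ^ s * (B * ξ) ^ (s + 1) := by
    rw [pow_succ]
    exact mul_le_mul (pow_le_pow_left₀ hb h1 s) h2 hb (by positivity)
  have h5 : D ^ (s + 1) * (b * Λ) ^ (s + 1) ≤ D ^ (s + 1) * (ξ * u) ^ (s + 1) := by
    calc D ^ (s + 1) * (b * Λ) ^ (s + 1) = b ^ (s + 1) * (D ^ (s + 1) * Λ ^ (s + 1)) := by
          rw [mul_pow]; ring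
      _ ≤ x ^ s * (B * ξ) ^ (s + 1) * (D ^ (s + 1) * Λ ^ (s + 1)) :=
          mul_le_mul_of_nonneg_right h4 (by positivity)
      _ = x ^ s * ξ ^ (s + 1) * ((B * D) ^ (s + 1) * Λ ^ (s + 1)) := by
          rw [mul_pow, mul_pow]; ring
      _ ≤ x ^ s * ξ ^ (s + 1) * x := mul_le_mul_of_nonneg_left h3 (by positivity)
      _ = D ^ (s + 1) * (ξ * u) ^ (s + 1) := by rw [hx, mul_pow, mul_pow]; ring
  exact le_of_mul_le_mul_left h5 (by positivity)

theorem gain_ev (hd : 2 ≤ d) {ε : ℝ} (h0 : 0 < ε) (h1 : ε ≤ 1) (C : ℝ) :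
    ∀ᶠ n : ℕ in atTop, ∀ K b a r t ξ k j : ℕ, 1 ≤ K → (K : ℝ) ≤ C * Real.log n → ξ + r = d * b →
      a ≤ b → 2 * t ≤ ξ → k ≤ (4 + 4 * d) * b → b ≤ K → b ≤ (Cb d * ξ) ^ (d + 2) → 4 * j ≤ ξ →
      1 ≤ (1 / (2 * n) : ℝ) ^ a * (ε * n / K) ^ (b + a) * (ε * mm n d) ^ (r + t) * ε ^ k *
        mm n d ^ j := by
  have hd0 : (0 : ℝ) < d := by exact_mod_cast (by omega : 0 < d)
  have hC : (0 : ℝ) < max C 1 := lt_max_of_lt_right one_pos
  set e : ℝ := -Real.log ε with he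
  have he0 : 0 ≤ e := neg_nonneg.2 (Real.log_nonpos h0.le h1)
  have hT : Tendsto (fun n : ℕ => max C 1 * Real.log n) atTop atTop :=
    (Real.tendsto_log_atTop.comp tendsto_natCast_atTop_atTop).const_mul_atTop hC
  have hE := hT.eventually (k3_log (d + 2) (((Cb d + 1 : ℝ) * (max C 1 * (4 * d))) ^ (d + 2))
    (Real.log 2 + (6 * d + 6) * e) (by positivity))
  filter_upwards [hE, eventually_ge_atTop 1] with n hE hn K b a r t ξ k j hK hKC hξ hab ht hk hbK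
    hb hj
  have hn0 : (0 : ℝ) < n := by exact_mod_cast hn
  have hL : 0 ≤ Real.log n := Real.log_natCast_nonneg n
  have hK0 : (0 : ℝ) < K := by exact_mod_cast hK
  have hm : 0 < mm n d := Real.rpow_pos_of_pos hn0 _
  have hKx : (K : ℝ) ≤ max C 1 * Real.log n :=
    hKC.trans (mul_le_mul_of_nonneg_right (le_max_left _ _) hL)
  have hκ : Real.log K ≤ Real.log (max C 1 * Real.log n) := Real.log_le_log hK0 hKx
  have hκ0 : 0 ≤ Real.log K := Real.log_natCast_nonneg K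
  set u : ℝ := Real.log n / (4 * d) with hu
  have hu0 : 0 ≤ u := by positivity
  have hLu : Real.log n = 4 * d * u := by rw [hu]; field_simp
  have hb' : (b : ℝ) ≤ ((Cb d + 1 : ℝ) * ξ) ^ (d + 1 + 1) := by
    have : (b : ℝ) ≤ ((Cb d : ℝ) * ξ) ^ (d + 2) := by exact_mod_cast hb
    exact this.trans (pow_le_pow_left₀ (by positivity)
      (mul_le_mul_of_nonneg_right (by linarith only []) (by positivity)) _)
  have key := k3_pow (d + 1) (Nat.cast_nonneg b) (Nat.cast_nonneg ξ) (by positivity) hu0 hE.1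
    (D := max C 1 * (4 * d)) (by positivity) ((Nat.cast_le.2 hbK).trans hKx) hb'
    (by rw [hLu]; ring) hE.2
  have hlm : Real.log (mm n d) = -(4 * u) := by
    rw [mm, Real.log_rpow hn0, hLu]; field_simp
  refine (Real.log_nonneg_iff (by positivity)).1 ?_
  rw [Real.log_mul (by positivity) (by positivity), Real.log_mul (by positivity) (by positivity),
    Real.log_mul (by positivity) (by positivity), Real.log_mul (by positivity) (by positivity),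
    Real.log_pow, Real.log_pow, Real.log_pow, Real.log_pow, Real.log_pow,
    Real.log_div (by positivity) (by positivity), Real.log_div (by positivity) (by positivity),
    Real.log_mul (by positivity) (by positivity), Real.log_mul (by positivity) (by positivity),
    Real.log_mul (by positivity) (by positivity), Real.log_one, hlm,
    show Real.log ε = -e by rw [he, neg_neg]]
  have a1 : (ξ : ℝ) + r = d * b := by exact_mod_cast hξ
  have a2 : (a : ℝ) ≤ b := by exact_mod_cast hab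
  have a3 : 2 * (t : ℝ) ≤ ξ := by exact_mod_cast ht
  have a4 : (k : ℝ) ≤ (4 + 4 * d) * b := by exact_mod_cast hk
  have a5 : 4 * (j : ℝ) ≤ ξ := by exact_mod_cast hj
  have b0 : (0 : ℝ) ≤ b := Nat.cast_nonneg b
  have r0 : (0 : ℝ) ≤ r := Nat.cast_nonneg r
  have t0 : (0 : ℝ) ≤ t := Nat.cast_nonneg t
  have l2 : 0 ≤ Real.log 2 := Real.log_nonneg one_le_two
  have c1 : (a : ℝ) * Real.log 2 ≤ b * Real.log 2 := mul_le_mul_of_nonneg_right a2 l2
  have c2 : (a : ℝ) * Real.log K ≤ b * Real.log K := mul_le_mul_of_nonneg_right a2 hκ0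
  have c3 : (b : ℝ) * Real.log K ≤ b * Real.log (max C 1 * Real.log n) :=
    mul_le_mul_of_nonneg_left hκ b0
  have c4 : ((a : ℝ) + b + r + t + k) * e ≤ ((6 * d + 6) * b) * e :=
    mul_le_mul_of_nonneg_right (by linarith only [a1, a2, a3, a4]) he0
  have c5 : (4 * ((t : ℝ) + j)) * u ≤ (3 * ξ) * u := mul_le_mul_of_nonneg_right (by linarith only [a3, a5]) hu0
  have c6 : (b : ℝ) * Real.log n = 4 * (ξ + r) * u := by rw [hLu, a1]; ring
  push_cast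
  linarith only [key, c1, c2, c3, c4, c5, c6]

end Pool.Agent.MP_8f9e6e_pr.J

end

section

/-! The encoding theorem. -/

open Finset Filter

namespace Pool.Agent.MP_8f9e6e_pr.J

variable {d : ℕ}

/-- The encoding bound with a total weight that depends on the first layer. -/
theorem enc_abs {α : Type} [Fintype α] [DecidableEq α] {p₁ p₂ : ℝ}
    (a0 : 0 ≤ p₁) (a1 : p₁ < 1) (b0 : 0 ≤ p₂) (b1 : p₂ < 1) {C : Type}
    (E : Finset α → Finset α → Prop) (Cd : Finset α → Finset α → C → Prop) (val : C → ℝ)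
    (Rel : C → Finset α → Finset α → Prop)
    (hR : ∀ c S F S' F', Rel c S F → Rel c S' F' → S \ F = S' \ F' → S = S')
    (hE : ∀ A R, E A R → ∃ c F, F ⊆ A ∪ R ∧ Rel c (A ∪ R) F ∧ Cd (A \ F) (R \ F) c ∧
      (1 / ((1 - p₁) * (1 - p₂)) - 1) ^ F.card ≤ val c) (Λ : Finset α → ℝ)
    (hΛ : ∀ (T₁ T₂ : Finset α) (B : Finset C), (∀ c ∈ B, Cd T₁ T₂ c) → ∑ c ∈ B, val c ≤ Λ T₁) :
    P2 p₁ p₂ E ≤ ∑ A, wt p₁ A * Λ A := by
  classical
  choose c F h1 h2 h3 h4 using hE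
  let Z := {z : Finset α × Finset α // E z.1 z.2}
  let c' : Z → C := fun z => c _ _ z.2
  let F' : Z → Finset α := fun z => F _ _ z.2
  let g : Z → Finset α × Finset α := fun z => (z.1.1 \ F' z, z.1.2 \ F' z)
  have e1 : P2 p₁ p₂ E = ∑ z : Z, wt p₁ z.1.1 * wt p₂ z.1.2 := by
    rw [P2, ← sum_product', univ_product_univ]
    simp only [mul_ite, mul_one, mul_zero]
    rw [← sum_filter]
    exact sum_subtype _ (by simp only [mem_filter, mem_univ, true_and, implies_true]) fun z : Finset α × Finset α => wt p₁ z.1 * wt p₂ z.2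
  have e2 : ∑ y : Finset α × Finset α, wt p₁ y.1 * wt p₂ y.2 * Λ y.1 = ∑ A, wt p₁ A * Λ A := by
    rw [← univ_product_univ, sum_product]
    refine sum_congr rfl fun A _ => ?_
    simp only [mul_right_comm _ (wt p₂ _), ← mul_sum, sum_wt, mul_one]
  have q1 : 0 ≤ p₁ / (1 - p₁) := div_nonneg a0 (sub_pos.2 a1).le
  have q2 : 0 ≤ p₂ / (1 - p₂) := div_nonneg b0 (sub_pos.2 b1).le
  have e3 : p₁ / (1 - p₁) * (1 + p₂ / (1 - p₂)) + p₂ / (1 - p₂) =
      1 / ((1 - p₁) * (1 - p₂)) - 1 := by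
    have := (sub_pos.2 a1).ne'
    have := (sub_pos.2 b1).ne'
    field_simp
    ring
  rw [e1, ← e2, ← sum_fiberwise_of_maps_to (t := univ) (g := g) fun _ _ => mem_univ _]
  refine sum_le_sum fun y _ => ?_
  have w0 := mul_nonneg (wt_nonneg a0 a1.le y.1) (wt_nonneg b0 b1.le y.2)
  rw [← sum_fiberwise_of_maps_to (t := (univ.filter fun z => g z = y).image c') (g := c')
    fun z hz => mem_image_of_mem _ hz]
  refine le_trans (sum_le_sum fun x hx => ?_) ((mul_sum _ val _).symm.trans_le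
    (mul_le_mul_of_nonneg_left (hΛ y.1 y.2 _ fun x hx => ?_) w0))
  · obtain ⟨z₀, hz₀, rfl⟩ := mem_image.1 hx
    obtain rfl := (mem_filter.1 hz₀).2
    have h5 : ∀ z ∈ (univ.filter fun z => g z = g z₀).filter fun z => c' z = c' z₀,
        g z = g z₀ ∧ F' z = F' z₀ := fun z hz => by
      have h6 := (mem_filter.1 (mem_filter.1 hz).1).2
      have h7 : (z.1.1 ∪ z.1.2) \ F' z = (z₀.1.1 ∪ z₀.1.2) \ F' z₀ := by
        rw [union_sdiff_distrib, union_sdiff_distrib]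
        exact congrArg (fun y : Finset α × Finset α => y.1 ∪ y.2) h6
      have h9 : Rel (c' z) (z.1.1 ∪ z.1.2) (F' z) := h2 _ _ z.2
      rw [(mem_filter.1 hz).2] at h9
      have h8 := hR _ _ _ _ _ h9 (h2 _ _ z₀.2) h7
      have h10 : F' z ⊆ z.1.1 ∪ z.1.2 := h1 _ _ z.2
      refine ⟨h6, ?_⟩
      rw [← Finset.sdiff_sdiff_eq_self h10, h7, h8]
      exact Finset.sdiff_sdiff_eq_self (h1 _ _ z₀.2)
    refine le_trans ?_ (mul_le_mul_of_nonneg_left (h4 _ _ z₀.2) w0)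
    rw [← e3, ← sum_cover, mul_sum]
    refine le_trans (le_of_eq ((sum_congr rfl fun z hz => ?_).trans (sum_image
      (g := fun z : Z => (z.1.1 ∩ F' z₀, z.1.2 ∩ F' z₀)) fun z hz z' hz' h => ?_).symm))
      (sum_le_sum_of_subset_of_nonneg (fun x hx => ?_) fun _ _ _ => by positivity)
    rotate_left
    · have h6 := (h5 z hz).1.trans (h5 z' hz').1.symm
      simp only [g, (h5 z hz).2, (h5 z' hz').2, Prod.mk.injEq] at h6 h
      exact Subtype.ext (Prod.ext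
        (by rw [← sdiff_union_inter z.1.1 (F' z₀), h6.1, h.1, sdiff_union_inter])
        (by rw [← sdiff_union_inter z.1.2 (F' z₀), h6.2, h.2, sdiff_union_inter]))
    · obtain ⟨z, hz, rfl⟩ := mem_image.1 hx
      refine mem_filter.2 ⟨mem_product.2 ⟨mem_powerset.2 inter_subset_right,
        mem_powerset.2 inter_subset_right⟩, ?_⟩
      have h6 : F' z ⊆ z.1.1 ∪ z.1.2 := h1 _ _ z.2
      rw [(h5 z hz).2] at h6
      rw [← union_inter_distrib_right]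
      exact inter_eq_right.2 h6
    · rw [← (h5 z hz).1, ← (h5 z hz).2, wt_add a1 (card_sdiff_add_card_inter z.1.1 (F' z)).symm,
        wt_add b1 (card_sdiff_add_card_inter z.1.2 (F' z)).symm]
      ring
  · obtain ⟨z, hz, rfl⟩ := mem_image.1 hx
    obtain rfl := (mem_filter.1 hz).2
    exact h3 _ _ z.2

theorem enc_wt {n : ℕ} {W : Wt} (hθ : 1 ≤ W.θ) (hε : 0 < W.ε ∧ W.ε ≤ 1) (hκ : 0 < W.κ ∧ W.κ ≤ 1)
    {q m : ℝ} (q0 : 0 ≤ q) (q1 : q ≤ 1) (m0 : 0 < m) (m1 : m ≤ 1) {K f a b r k j s0 e0 n0 : ℕ}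
    (o : Oc n d) (h1 : o.1.card + d * (d + 1) * o.2.1.card ≤ f)
    (h2 : s0 ≤ o.2.2.1 + o.2.2.2.1 + (d + 1) * o.2.1.card) (h3 : o.2.2.2.1 = b + a)
    (h4 : o.2.2.2.2.1 ≤ r) (h5 : o.2.2.2.2.2.1 ≤ k + n0) (h6 : o.2.2.2.2.2.2 ≤ e0)
    (hg : 1 ≤ (1 / (2 * n) : ℝ) ^ a * (W.ε * n / K) ^ (b + a) * (W.ε * m) ^ r * W.ε ^ k * m ^ j) :
    q ^ f ≤ (1 / (2 * n) : ℝ) ^ a * W.wO q m K o * (m ^ j / (W.θ ^ s0 * W.κ ^ e0 * W.ε ^ n0)) := by
  have e0' := hε.1
  have k0 := hκ.1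
  have t0 : 0 < W.θ := by linarith only [hθ]
  have e1 : W.wO q m K o = q ^ (o.1.card + d * (d + 1) * o.2.1.card) *
      W.θ ^ (o.2.2.1 + o.2.2.2.1 + (d + 1) * o.2.1.card) * (W.ε * n / K) ^ (b + a) *
      (W.ε * m) ^ o.2.2.2.2.1 * W.ε ^ o.2.2.2.2.2.1 * W.κ ^ o.2.2.2.2.2.2 := by
    rw [Wt.wO, ← h3, mul_pow W.θ, mul_pow (q ^ _), ← pow_mul, ← pow_mul, pow_add q, pow_add W.θ,
      pow_add W.θ]
    ring
  rw [← mul_div_assoc, le_div_iff₀ (by positivity), e1]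
  have l1 := pow_le_pow_of_le_one q0 q1 h1
  have l2 := pow_le_pow_right₀ hθ h2
  have l3 := pow_le_pow_of_le_one (mul_pos e0' m0).le (mul_le_one₀ hε.2 m0.le m1) h4
  have l4 := pow_le_pow_of_le_one e0'.le hε.2 h5
  have l5 := pow_le_pow_of_le_one k0.le hκ.2 h6
  calc _ ≤ q ^ f * (W.θ ^ s0 * W.κ ^ e0 * W.ε ^ n0) * ((1 / (2 * n) : ℝ) ^ a *
        (W.ε * n / K) ^ (b + a) * (W.ε * m) ^ r * W.ε ^ k * m ^ j) :=
        le_mul_of_one_le_right (by positivity) hg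
    _ = (1 / (2 * n) : ℝ) ^ a * (q ^ f * W.θ ^ s0 * (W.ε * n / K) ^ (b + a) * (W.ε * m) ^ r *
        W.ε ^ (k + n0) * W.κ ^ e0) * m ^ j := by
        rw [pow_add W.ε k]
        ring
    _ ≤ _ := by gcongr

theorem enc_fib {n : ℕ} [NeZero n] (hd : 1 ≤ d) {W : Wt} {r0 Om a2 K : ℕ} {c3 kc q : ℝ}
    (hW : W.GF d r0 Om c3 kc) (S0 : Set (Fc n)) (hK : 0 < K) (hq0 : 0 ≤ q)
    (hq : q ≤ W.γ * mm n d)
    (hcut : a2 * ((d + 1 : ℝ) ^ (d + 1)) ^ 2 * (q ^ (d * (d + 1)) * W.θ ^ (d + 1)) ≤ kc * mm n d)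
    (Fm : Finset (Finset (Fin n) × Multiset (Tk n d)))
    (B : Finset ((Finset (Fin n) × Finset (Fin n) × Multiset (Tk n d)) × Oc n d))
    (hB : ∀ c ∈ B, c.1.2 ∈ Fm ∧ (c.1.2.1 ∪ c.1.1).card ≤ K ∧
      Der (opts r0 Om a2 c3 S0 (c.1.2.1 ∪ c.1.1)) c.1.2.2 c.2) :
    ∑ c ∈ B, (1 / (2 * n) : ℝ) ^ c.1.1.card * W.wO q (mm n d) K c.2 ≤
      2 * ∑ sh ∈ Fm, W.wS r0 Om sh := by
  classical
  have n0 : (0 : ℝ) < n := Nat.cast_pos.2 (NeZero.pos n)
  have h0 : ∀ sh : Finset (Fin n) × Multiset (Tk n d), 0 ≤ W.wS r0 Om sh := fun sh =>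
    sup hd W hW S0 ∅ (Nat.zero_le K) hK hq0 hq hcut sh ∅ (by simp)
  have h1 : ∑ V : Finset (Fin n), (1 / (2 * n) : ℝ) ^ V.card ≤ 2 := by
    have h2 := sum_pow_mul_eq_add_pow (1 / (2 * n) : ℝ) 1 (univ : Finset (Fin n))
    simp only [one_pow, mul_one, powerset_univ, card_univ, Fintype.card_fin] at h2
    rw [h2]
    refine (pow_le_pow_left₀ (by positivity) (Real.add_one_le_exp _) n).trans ?_
    rw [← Real.exp_nat_mul, show n * (1 / (2 * n) : ℝ) = 1 / 2 by field_simp]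
    exact (Real.exp_bound_div_one_sub_of_interval (by norm_num) (by norm_num)).trans (by norm_num)
  rw [← sum_fiberwise_of_maps_to (t := univ ×ˢ Fm) (g := Prod.fst)
    fun c hc => mem_product.2 ⟨mem_univ _, (hB c hc).1⟩]
  refine le_trans (sum_le_sum fun y _ => ?_)
    ((sum_product' _ _ fun (V : Finset (Fin n)) sh => (1 / (2 * n) : ℝ) ^ V.card *
      W.wS r0 Om sh).trans_le ?_)
  · rw [sum_congr rfl fun c hc => by rw [(mem_filter.1 hc).2], ← mul_sum,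
      ← sum_image (g := Prod.snd) (f := W.wO q (mm n d) K) fun a ha b hb h =>
        Prod.ext ((mem_filter.1 ha).2.trans (mem_filter.1 hb).2.symm) h]
    refine mul_le_mul_of_nonneg_left ?_ (by positivity)
    rcases (B.filter fun c => c.1 = y).eq_empty_or_nonempty with h | ⟨c, hc⟩
    · rw [h]
      exact h0 _
    · obtain ⟨h2, rfl⟩ := mem_filter.1 hc
      refine sup hd W hW S0 _ (hB c h2).2.1 hK hq0 hq hcut _ _ fun o ho => ?_
      obtain ⟨c', h3, rfl⟩ := mem_image.1 ho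
      exact (mem_filter.1 h3).2 ▸ (hB c' (mem_filter.1 h3).1).2.2
  · rw [← sum_mul_sum]
    exact mul_le_mul_of_nonneg_right h1 (sum_nonneg fun sh _ => h0 sh)

theorem enc_sum (hd : 2 ≤ d) {W : Wt} {r0 Q : ℕ} {c3 kc : ℝ} (hW : W.GF d r0 (Q * (d + 1)) c3 kc)
    (hQ : 2 * Cb d ≤ Q) : ∃ C1 : ℕ, ∀ C : ℝ, ∀ᶠ n : ℕ in atTop, ∀ [NeZero n] (p1 p2 : ℝ) (a2 : ℕ),
      Fit n d W kc p1 p2 a2 → ∀ (K s0 e0 n0 j0 : ℕ)
        (Fam : Finset (Face n d) → Finset (Finset (Fin n) × Multiset (Tk n d)))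
        (Λ : Finset (Face n d) → ℝ),
        (K : ℝ) ≤ C * Real.log n → (∀ A, ∑ sh ∈ Fam A, W.wS r0 (Q * (d + 1)) sh ≤ Λ A) →
        P2 p1 p2 (Ev r0 Q a2 c3 K (C1 * K) s0 e0 n0 j0 Fam) ≤
          2 * (∑ A, wt p1 A * Λ A) * mm n d ^ j0 / (W.θ ^ s0 * W.κ ^ e0 * W.ε ^ n0) := by
  refine ⟨1 + (d + 1) * (Q * (d + 1) + d * (d + 2) ^ r0 + 2), fun C => ?_⟩
  set C0 := Q * (d + 1) + d * (d + 2) ^ r0 + 2 with hC0
  filter_upwards [gain_ev hd hW.hε.1 hW.hε.2 ((C0 + 1) * C + 1), eventually_ge_atTop 3]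
    with n hn n3 _ p1 p2 a2 hF K s0 e0 n0 j0 Fam Λ hK hΛ
  obtain ⟨a0, a1, b0, b1, hq, hcut⟩ := hF
  obtain ⟨m0, m1, -⟩ := mm_spec (d := d) (by omega) (by omega : 1 ≤ n)
  have g0 := hW.hγ.1
  have e0' := hW.hε.1
  have k0 := hW.hκ.1
  have t0 : 0 < W.θ := by linarith only [hW.hθ.1]
  have cb : 0 < Cb d := by unfold Cb; positivity
  have hK' : (((C0 + 1) * K + 1 : ℕ) : ℝ) ≤ ((C0 + 1) * C + 1) * Real.log n := by
    have h1 : 1 ≤ Real.log n := by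
      rw [Real.le_log_iff_exp_le (by positivity)]
      have : (3 : ℝ) ≤ n := by exact_mod_cast n3
      linarith only [Real.exp_one_lt_d9, this]
    have h2 := mul_le_mul_of_nonneg_left hK (by positivity : (0 : ℝ) ≤ C0 + 1)
    push_cast
    linarith only [h1, h2]
  have hq0 : 0 ≤ 1 / ((1 - p1) * (1 - p2)) - 1 := by
    rw [sub_nonneg, le_div_iff₀ (mul_pos (by linarith only [a1]) (by linarith only [b1]))]
    nlinarith only [a0, b0, b1]
  set φ := mm n d ^ j0 / (W.θ ^ s0 * W.κ ^ e0 * W.ε ^ n0) with hφ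
  have φ0 : 0 ≤ φ := by positivity
  refine (enc_abs a0 (by linarith only [a1]) b0 (by linarith only [b1])
    (C := (Finset (Fin n) × Finset (Fin n) × Multiset (Tk n d)) × Oc n d) _
    (fun T₁ T₂ c => c.1.2 ∈ Fam T₁ ∧ (c.1.2.1 ∪ c.1.1).card ≤ (C0 + 1) * K + 1 ∧
      Der (opts r0 (Q * (d + 1)) a2 c3 (st (T₁ ∪ T₂)) (c.1.2.1 ∪ c.1.1)) c.1.2.2 c.2)
    (fun c => (1 / (2 * n) : ℝ) ^ c.1.1.card *
      W.wO (W.γ * mm n d) (mm n d) ((C0 + 1) * K + 1) c.2 * φ)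
    (fun c S F => ∃ F' : Finset (Fc n), st F = ↑F' ∧ Rel d r0 c.2 (st S) F')
    ?_ ?_ (fun A => 2 * Λ A * φ) fun T₁ T₂ B hB => ?_).trans_eq ?_
  · rintro c S F S' F' ⟨G, h1, h2⟩ ⟨G', h3, h4⟩ h
    exact st_inj (rel_inj h2 h4 (by rw [← h1, ← h3, ← st_sdiff, ← st_sdiff, h]))
  · rintro A R ⟨c, B, Vi, δ, T, hS, rfl, rfl, hw, ok, h1, h2, h3, h4, h5, h6⟩
    obtain ⟨X, hX⟩ := B.exists_fix c
    have G : B.Good c X Vi δ T 0 :=
      ⟨hd, fun f hf => st_card (hS ▸ hf), by omega, hw.imp_right fun h => h.2.2, ok, hX⟩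
    obtain ⟨o, c1, c2, c3, c4, c5, c6, c7, c8⟩ := G.code_exists hw
    obtain ⟨F, f1, f2⟩ := exists_st (B.F c X) fun f hf => G.hS f (c2.1 f hf)
    obtain ⟨s1, s2, s3⟩ := G.size
    obtain ⟨v1, v2⟩ := G.card_ShS
    obtain ⟨i1, i2⟩ := G.irr_le
    have x1 := G.xi_rep
    have x2 := G.card_tree.2.2
    have s4 : (B.St c X).card ≤ C0 * K := s2.trans (Nat.mul_le_mul_left _ (by omega))
    have s5 := Nat.mul_le_mul_left (d + 1) s4
    refine ⟨((B.Vs c X, B.shape d), o), F, fun f hf => ?_, ⟨_, f1, hS ▸ c2⟩,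
      ⟨h6 F (by rw [f2, add_mul, mul_assoc]; omega), (card_union_le _ _).trans ?_, ?_⟩, ?_⟩
    · have h7 : f.1 ∈ st (A ∪ R) := hS ▸ c2.1 f.1 (by rw [← mem_coe, ← f1]; exact ⟨f.2, hf⟩)
      exact h7.2
    · change B.V0.card + (B.Vs c X).card ≤ _
      rw [add_mul]
      omega
    · rw [← union_sdiff_distrib, st_sdiff, f1, ← hS]
      exact c1
    · refine (pow_le_pow_left₀ hq0 hq _).trans (enc_wt hW.hθ.1.le hW.hε hW.hκ (by positivity)
        (mul_le_one₀ hW.hγ.2 m0.le m1) m0 m1 o (f2 ▸ c3) (by omega) (c5.trans v1) c6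
        (c7.trans (Nat.add_le_add_left h4 _)) (c8.trans h3) (hn _ _ _ _ _ _ _ _ (by omega) hK' x1 v2
          (Nat.le_of_mul_le_mul_left ?_ cb) (by rw [add_mul, mul_assoc]; omega)
          (by rw [add_mul]; omega) G.nb_le (Nat.le_of_mul_le_mul_left ((Nat.pow_le_pow_iff_left
            (by omega)).1 (h5.trans (G.nold_le.trans G.nb_le))) cb)))
      rw [← mul_assoc, mul_comm _ 2]
      exact (Nat.mul_le_mul_right _ hQ).trans G.t0_le
  · rw [← sum_mul]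
    exact mul_le_mul_of_nonneg_right ((enc_fib (by omega) hW _ (by omega) (by positivity) le_rfl
      hcut _ B hB).trans (by linarith only [hΛ T₁])) φ0
  · rw [mul_div_assoc, mul_sum, sum_mul]
    exact sum_congr rfl fun A _ => by ring

theorem enc (hd : 2 ≤ d) {W : Wt} {r0 Q : ℕ} {c3 kc : ℝ} (hW : W.GF d r0 (Q * (d + 1)) c3 kc)
    (hQ : 2 * Cb d ≤ Q) (C : ℝ) : ∀ᶠ n : ℕ in atTop, ∀ [NeZero n] (p1 p2 : ℝ) (a2 : ℕ),
      Fit n d W kc p1 p2 a2 → ∀ (K s0 e0 n0 j0 : ℕ) (sh : Finset (Fin n) × Multiset (Tk n d)),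
        (K : ℝ) ≤ C * Real.log n →
        P2 p1 p2 (fun S1 R : Finset (Face n d) => ∃ (c : Cx n d) (B : Base n) (Vi : Finset (Fc n))
          (δ : ℕ) (T : Finset (Finset (Fin n))),
          c.S = st (S1 ∪ R) ∧ c.r0 = r0 ∧ c.Q = Q ∧ c.World c3 a2 ∧ B.Ok c Vi δ T 0 ∧
          B.V0.card + B.rt.card + c.sz B.Rs + B.ns ≤ K ∧ s0 ≤ c.sz B.Rs + B.ns ∧ B.eD c ≤ e0 ∧
          B.nsib ≤ n0 ∧ (Cb d * (4 * j0)) ^ (d + 2) ≤ B.nold ∧ B.shape d = sh) ≤
          2 * W.wS r0 (Q * (d + 1)) sh * mm n d ^ j0 / (W.θ ^ s0 * W.κ ^ e0 * W.ε ^ n0) := by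
  obtain ⟨C1, h⟩ := enc_sum hd hW hQ
  filter_upwards [h C] with n hn _ p1 p2 a2 hF K s0 e0 n0 j0 sh hK
  have h1 := hn p1 p2 a2 hF K s0 e0 n0 j0 (fun _ => {sh}) (fun _ => W.wS r0 (Q * (d + 1)) sh) hK
    fun _ => by simp
  rw [← sum_mul, sum_wt, one_mul] at h1
  refine (P2_mono hF.1 (by linarith only [hF.2.1]) hF.2.2.1 (by linarith only [hF.2.2.2.1]) ?_).trans h1
  rintro A R ⟨c, B, Vi, δ, T, h1, h2, h3, h4, h5, h6, h7, h8, h9, h10, h11⟩
  exact ⟨c, B, Vi, δ, T, h1, h2, h3, h4, h5, h6, h7, h8, h9, h10, fun _ _ => mem_singleton.2 h11⟩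

end Pool.Agent.MP_8f9e6e_pr.J

end

section

/-! Choice of the weights. -/

open Finset Filter Topology

namespace Pool.Agent.MP_8f9e6e_pr.J

variable {d : ℕ}

/-- The perturbed recursion. -/
noncomputable def gfZ (d : ℕ) (t : ℝ) : ℕ → ℝ
  | 0 => 0
  | j + 1 => gc d + (j + 2) * t + (1 + t) * (1 + t) * gfZ d t j ^ (d + 1)

/-- The perturbed weights. -/
noncomputable def gfW (d : ℕ) (t : ℝ) (G GN : ℕ → ℝ) (WP κ : ℝ) : Wt :=
  ⟨fun j => gfZ d t (j + 1) - gfZ d t j, G, GN, WP, gc d + t, 1 + t, t, κ⟩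

theorem gf_cont (j : ℕ) : Continuous fun t => gfZ d t j := by
  induction j with
  | zero => simp only [gfZ]; fun_prop
  | succ j ih => simp only [gfZ]; fun_prop

theorem gf_pos (hd : 1 ≤ d) {t : ℝ} (h : 0 ≤ t) (j : ℕ) : 0 ≤ gfZ d t j := by
  have := (gc_spec hd).1
  induction j with
  | zero => rw [gfZ]
  | succ j ih => rw [gfZ]; positivity

theorem gf_one (t : ℝ) : gfZ d t 1 = gc d + 2 * t := by simp [gfZ]

theorem gf_diff (t : ℝ) (j : ℕ) : gfZ d t (j + 2) - gfZ d t (j + 1) =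
    t + (1 + t) * (1 + t) * (gfZ d t (j + 1) ^ (d + 1) - gfZ d t j ^ (d + 1)) := by
  rw [gfZ.eq_2 d t (j + 1)]
  nth_rw 2 [gfZ.eq_2 d t j]
  push_cast
  ring

theorem gf_step (hd : 1 ≤ d) {t : ℝ} (h : 0 ≤ t) (j : ℕ) : t ≤ gfZ d t (j + 1) - gfZ d t j := by
  induction j with
  | zero =>
    have := (gc_spec hd).1
    rw [zero_add, gf_one, gfZ]
    linarith only [h, this]
  | succ j ih =>
    have : gfZ d t j ^ (d + 1) ≤ gfZ d t (j + 1) ^ (d + 1) :=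
      pow_le_pow_left₀ (gf_pos hd h j) (by linarith only [h, ih]) _
    rw [gf_diff]
    have : 0 ≤ (1 + t) * (1 + t) * (gfZ d t (j + 1) ^ (d + 1) - gfZ d t j ^ (d + 1)) :=
      mul_nonneg (by positivity) (by linarith)
    linarith

theorem gf_mono (hd : 1 ≤ d) {t : ℝ} (h : 0 ≤ t) : Monotone (gfZ d t) :=
  monotone_nat_of_le_succ fun j => by linarith only [gf_step hd h j, h]

theorem gf_xs (hd : 1 ≤ d) : ∃ x : ℝ, 0 < x ∧ x < 1 ∧ (d + 1) * x ^ d = 1 ∧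
    ∀ j, gfZ d 0 j < x := by
  obtain ⟨h1, h2⟩ := gc_spec hd
  have h0 : (1 : ℝ) ≤ d := by exact_mod_cast hd
  have h3 : (d + 1) * (gc d * (d + 1) / d) ^ d = 1 := by
    rw [div_pow, mul_pow, ← h2]
    field_simp
    ring
  have h4 : 0 < gc d * (d + 1) / d := by positivity
  refine ⟨_, h4, ?_, h3, fun j => ?_⟩
  · by_contra h
    have := one_le_pow₀ (n := d) (not_lt.1 h)
    nlinarith only [h0, h3, this]
  · induction j with
    | zero => exact h4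
    | succ j ih =>
      have h5 := pow_lt_pow_left₀ ih (gf_pos hd le_rfl j) d.succ_ne_zero
      have h6 : (gc d * (d + 1) / d) ^ (d + 1) = gc d * (d + 1) / d - gc d := by
        have : (gc d * (d + 1) / d) ^ d = 1 / (d + 1) := by
          rw [eq_div_iff (by positivity)]; linarith only [h3]
        rw [pow_succ, this]
        field_simp
        ring
      rw [gfZ]
      simp only [mul_zero, add_zero, mul_one, one_mul]
      rw [Nat.succ_eq_add_one] at h5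
      linarith only [h5, h6]

theorem gf_src (hd : 1 ≤ d) {k : ℝ} (hk : 0 < k) :
    ∃ r00 : ℕ, ∀ r, r00 ≤ r → gfZ d 0 (r + 1) ^ (d + 1) - gfZ d 0 r ^ (d + 1) < k := by
  obtain ⟨x, -, -, -, hx⟩ := gf_xs hd
  have h1 := tendsto_atTop_ciSup (gf_mono hd le_rfl) ⟨x, by rintro _ ⟨j, rfl⟩; exact (hx j).le⟩
  have h2 := ((h1.comp (tendsto_add_atTop_nat 1)).pow (d + 1)).sub (h1.pow (d + 1))
  rw [sub_self] at h2
  exact eventually_atTop.1 (h2.eventually (gt_mem_nhds hk))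

theorem gf_Xb (t : ℝ) (G GN : ℕ → ℝ) (WP κ : ℝ) (j : ℕ) :
    (gfW d t G GN WP κ).Xb j = gfZ d t j := by
  rw [Wt.Xb, gfW, sum_range_sub, gfZ, sub_zero]

/-- The sum over the sliding productions. -/
theorem gf_sum {Om : ℕ} (hOm : 1 ≤ Om) {ψ kc G0 : ℝ} (h0 : 0 ≤ ψ) (h1 : ψ ≤ 1) (hk : 0 ≤ kc)
    (s : ℕ → ℝ) (hs : ∀ i < Om, s i ≤ kc + (1 - ψ) * (G0 + 3 * kc * Om)) :
    s (Om - 1) + ∑ j ∈ Ico 1 Om, ψ ^ j * s (Om - j - 1) ≤
      4 * Om * kc + (1 - ψ ^ Om) * G0 := by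
  have e : s (Om - 1) + ∑ j ∈ Ico 1 Om, ψ ^ j * s (Om - j - 1) =
      ∑ j ∈ range Om, ψ ^ j * s (Om - j - 1) := by
    rw [range_eq_Ico, sum_eq_sum_Ico_succ_bot (by omega : 0 < Om)]
    simp only [pow_zero, tsub_zero, one_mul, zero_add]
  have h2 : ∑ j ∈ range Om, ψ ^ j * s (Om - j - 1) ≤
      ∑ j ∈ range Om, (kc + (1 - ψ) * ψ ^ j * (G0 + 3 * kc * Om)) := by
    refine sum_le_sum fun j _ => ?_
    have a := mul_le_mul_of_nonneg_left (hs (Om - j - 1) (by omega)) (pow_nonneg h0 j)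
    have b := mul_le_mul_of_nonneg_right (pow_le_one₀ (n := j) h0 h1) hk
    linarith only [a, b]
  rw [sum_add_distrib, ← sum_mul, ← mul_sum, mul_neg_geom_sum, sum_const, card_range,
    nsmul_eq_mul] at h2
  have : 0 ≤ ψ ^ Om * (3 * kc * Om) := by positivity
  linarith only [e, h2, this]

/-- The deterministic part. -/
theorem gf_det (hd : 1 ≤ d) {Om r0 : ℕ} (hOm : 1 ≤ Om) {c3 kc t A WP κ : ℝ} (h0 : 0 < c3)
    (h1 : c3 ≤ 1) (hk : 0 < kc) (ht : 0 < t) (hκ : 0 < κ ∧ κ ≤ 1) (hA : 2 ≤ A)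
    (hA' : 14 * Om ≤ c3 * (gc d ^ d) ^ Om * A) (W : Wt)
    (hW : W = gfW d t (fun i => A * kc + 3 * kc * i) 0 WP κ) (N : ℝ)
    (hN : N = W.nu * (1 + W.ε * (d + 1) * W.xP d r0 Om .H))
    (e1 : N * ((d + 1) * W.Xb (r0 + 1) ^ d) ≤ 1)
    (e2 : N * (W.Xb (r0 + 1) ^ (d + 1) - W.Xb r0 ^ (d + 1) +
      (d + 1) ^ 2 * W.SG Om ^ 2 * W.xC r0 Om .H ^ (d - 1)) ≤ kc)
    (e3 : W.xC r0 Om .H ≤ 1)
    (e4 : 1 ≤ WP ∧ (W.xP d r0 Om .A + κ * W.xP d r0 Om .D) * ((1 + WP) * (1 + t * WP)) ≤ WP)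
    (e5 : t ≤ kc) (e6 : t * (kc + (A * kc + 3 * kc * Om)) ≤ kc)
    (e7 : d * Om * W.xP d r0 Om .D ≤ c3 / 2) :
    Wt.GF { W with GN := fun i => W.sD d r0 Om (i - 1) 1 } d r0 Om c3 kc := by
  have hg := (gc_spec hd).1
  have hX : ∀ j, W.Xb j = gfZ d t j := fun j => by rw [hW, gf_Xb]
  have hG : ∀ i, W.G i = A * kc + 3 * kc * i := fun i => by rw [hW]; rfl
  have hy : W.y 0 = gc d + 2 * t := by
    rw [hW]
    exact (by rw [zero_add, gf_one, gfZ, sub_zero] : gfZ d t (0 + 1) - gfZ d t 0 = _)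
  have hε : W.ε = t := by rw [hW]; rfl
  have hθ : W.θ = 1 + t := by rw [hW]; rfl
  have hν : W.nu = (1 + t) * (1 + t) := by rw [hW]; rfl
  have hGp : ∀ i, 0 ≤ W.G i := fun i => by rw [hG]; positivity
  have hS : 0 ≤ W.SG Om := sum_nonneg fun i _ => hGp i
  have hXp : 0 ≤ W.Xb (r0 + 1) := by rw [hX]; exact gf_pos hd ht.le _
  have hH : 0 ≤ W.xC r0 Om .H := add_nonneg hXp hS
  have hyX : W.y 0 ≤ W.Xb (r0 + 1) := by
    rw [hy, hX, ← gf_one]
    exact gf_mono hd ht.le (by omega)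
  have hy0 : 0 ≤ W.y 0 := by rw [hy]; positivity
  have hνN : W.nu ≤ N := by
    have : 0 ≤ W.ε * (d + 1) * W.xP d r0 Om .H := by rw [hε, Wt.xP, hν]; positivity
    rw [hN]
    exact le_mul_of_one_le_right (by rw [hν]; positivity) (by linarith only [this])
  have hθN : W.θ ≤ N := by
    refine le_trans ?_ hνN
    rw [hθ, hν]
    exact le_mul_of_one_le_right (by linarith only [ht]) (by linarith only [ht])
  have hN0 : 0 ≤ N := by linarith only [ht, hθ, hθN]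
  have hE : 0 ≤ W.Xb (r0 + 1) ^ (d + 1) - W.Xb r0 ^ (d + 1) +
      (d + 1) ^ 2 * W.SG Om ^ 2 * W.xC r0 Om .H ^ (d - 1) := by
    have : W.Xb r0 ^ (d + 1) ≤ W.Xb (r0 + 1) ^ (d + 1) := by
      rw [hX, hX]
      exact pow_le_pow_left₀ (gf_pos hd ht.le _) (gf_mono hd ht.le (by omega)) _
    exact add_nonneg (by linarith only [this]) (by positivity)
  have hyd : W.y 0 ^ d ≤ (d + 1) * W.Xb (r0 + 1) ^ d :=
    (pow_le_pow_left₀ hy0 hyX d).trans
      (le_mul_of_one_le_left (by positivity) (by linarith only []))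
  have hψN : W.θ * W.y 0 ^ d ≤ N * W.y 0 ^ d := by gcongr
  have hψ1 : W.θ * W.y 0 ^ d ≤ 1 := hψN.trans ((mul_le_mul_of_nonneg_left hyd hN0).trans e1)
  have hψ0 : gc d ^ d ≤ W.θ * W.y 0 ^ d :=
    (pow_le_pow_left₀ hg.le (by linarith only [ht, hy]) d).trans
      (le_mul_of_one_le_left (by positivity) (by linarith only [ht, hθ]))
  have s0 : ∀ i, W.sD d r0 Om i 0 ≤ kc + W.G i := fun i => by
    have := mul_le_mul_of_nonneg_right e1 (hGp i)
    rw [Wt.sD, ← hN]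
    linarith only [e2, this]
  have hGO : ∀ i < Om, W.G i ≤ A * kc + 3 * kc * Om := fun i hi => by
    rw [hG]; gcongr
  have s1 : ∀ i < Om, W.sD d r0 Om i 1 ≤
      kc + (1 - W.θ * W.y 0 ^ d) * (A * kc + 3 * kc * Om) := fun i hi => by
    have a := mul_le_mul_of_nonneg_right (sub_le_sub e1 hψN) (hGp i)
    have b := mul_le_mul_of_nonneg_left (hGO i hi) (sub_nonneg.2 hψ1)
    rw [Wt.sD, ← hN]
    linarith only [e2, a, b]
  have hxH : W.Xb (r0 + 1) ≤ 1 := le_trans (le_add_of_nonneg_right hS) e3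
  refine ⟨fun j => ?_, fun i => ?_, fun i => ?_, ?_, ?_, ?_, ?_, ⟨h0, h1, hk.le⟩, ?_,
    fun j _ => ?_, fun i _ => ?_, fun i _ => le_rfl, ?_, ?_, ?_, e3⟩
  · show W.ε ≤ W.y j
    rw [hW]
    exact gf_step hd ht.le j
  · show W.ε + kc ≤ W.G i
    have : 0 ≤ 3 * kc * i := by positivity
    rw [hε, hG]
    linarith only [mul_le_mul_of_nonneg_right hA hk.le, e5, this]
  · show 0 ≤ W.sD d r0 Om (i - 1) 1
    rw [Wt.sD, ← hN]
    exact mul_nonneg hN0 (add_nonneg hE (mul_nonneg (by linarith only [hyd]) (hGp _)))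
  · show 0 < W.γ ∧ W.γ ≤ 1
    have : W.γ = gc d + t := by rw [hW]; rfl
    exact ⟨by linarith only [ht, hg, this], by linarith only [ht, hy, hyX, hxH, this]⟩
  · show 1 < W.θ ∧ W.θ ≤ 2
    exact ⟨by linarith only [ht, hθ], by linarith only [ht, hg, hy, hθ, hyX, hxH]⟩
  · show 0 < W.ε ∧ W.ε ≤ 1
    exact ⟨by linarith only [ht, hε], by linarith only [ht, hg, hy, hε, hyX, hxH]⟩
  · show 0 < W.κ ∧ W.κ ≤ 1
    rw [hW]
    exact hκ
  · show W.γ + W.ε ≤ W.y 0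
    have : W.γ = gc d + t := by rw [hW]; rfl
    linarith only [hy, hε, this]
  · show W.ε + W.nu * (W.Xb (j + 1) ^ (d + 1) - W.Xb j ^ (d + 1)) ≤ W.y (j + 1)
    rw [hε, hν, hX, hX, ← gf_diff, hW]
    exact le_rfl
  · show W.ε + kc + W.sD d r0 Om i 0 ≤ W.G (i + 1)
    have := s0 i
    rw [hG] at this ⊢
    push_cast
    linarith only [e5, hε, this]
  · show W.ε + kc + W.ε * W.sD d r0 Om (Om - 1) 0 + W.sD d r0 Om (Om - 1) 1 +
      ∑ j ∈ Ico 1 Om, (W.θ * W.y 0 ^ d) ^ j * W.sD d r0 Om (Om - j - 1) 1 +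
      (1 - c3) * (W.θ * W.y 0 ^ d) ^ Om * W.G 0 +
      (W.θ * W.y 0 ^ d) ^ Om * W.G 0 * (d * Om * W.xP d r0 Om .D) ≤ W.G 0
    have hψ : 0 ≤ W.θ * W.y 0 ^ d := le_trans (by positivity) hψ0
    have a := gf_sum hOm hψ hψ1 hk.le (fun i => W.sD d r0 Om i 1) s1
    have b := mul_le_mul_of_nonneg_left
      ((s0 (Om - 1)).trans (add_le_add_right (hGO _ (by omega)) kc)) ht.le
    have c := mul_le_mul_of_nonneg_left e7 (mul_nonneg (pow_nonneg hψ Om) (hGp 0))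
    have e : c3 * (gc d ^ d) ^ Om * A * kc ≤ c3 * (W.θ * W.y 0 ^ d) ^ Om * A * kc := by gcongr
    have f := mul_le_mul_of_nonneg_right hA' hk.le
    have g : 1 * kc ≤ Om * kc := by gcongr; exact_mod_cast hOm
    have hG0 : W.G 0 = A * kc := by rw [hG]; simp
    rw [hG0] at c ⊢
    rw [hε]
    linarith only [e5, e6, a, b, c, e, f, g]
  · show 1 ≤ W.WP ∧ (W.xP d r0 Om .A + W.κ * W.xP d r0 Om .D) *
      ((1 + W.WP) * (1 + W.ε * W.WP)) ≤ W.WP
    have a : W.WP = WP := by rw [hW]; rfl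
    have b : W.κ = κ := by rw [hW]; rfl
    rw [a, b, hε]
    exact e4
  · show W.nu * (d + 1) * W.Xb (r0 + 1) ^ d ≤ 1
    rw [mul_assoc]
    exact (mul_le_mul_of_nonneg_right hνN (by positivity)).trans e1

theorem gf_xPD (hd : 1 ≤ d) {Om r0 : ℕ} {t C : ℝ} (G : ℕ → ℝ) (WP κ : ℝ) (h0 : 0 ≤ t) (h1 : t ≤ 1)
    (hS : 0 ≤ ∑ i ∈ range Om, G i) (hC : ∑ i ∈ range Om, G i ≤ C)
    (hH : gfZ d t (r0 + 1) + ∑ i ∈ range Om, G i ≤ 1) :
    0 ≤ (gfW d t G 0 WP κ).xP d r0 Om .D ∧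
      (gfW d t G 0 WP κ).xP d r0 Om .D ≤ 4 * (d + 1) * d * C := by
  have e : (gfW d t G 0 WP κ).xP d r0 Om .D = (1 + t) * (1 + t) * (d + 1) *
      (d * (∑ i ∈ range Om, G i) * (gfZ d t (r0 + 1) + ∑ i ∈ range Om, G i) ^ (d - 1)) := by
    rw [Wt.xP, Wt.xC, gf_Xb]; rfl
  have a := gf_pos hd h0 (r0 + 1)
  have b : (1 + t) * (1 + t) ≤ 4 := by nlinarith only [h0, h1]
  have c := pow_le_one₀ (n := d - 1) (add_nonneg a hS) hH
  have hC0 := hS.trans hC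
  rw [e]
  refine ⟨by positivity, le_of_le_of_eq (b := 4 * (d + 1) * (d * C * 1)) (by gcongr) (by ring)⟩

theorem gf_exists (hd : 2 ≤ d) {Om : ℕ} (hOm : 1 ≤ Om) {c3 : ℝ} (h0 : 0 < c3) (h1 : c3 ≤ 1) :
    ∃ Cs k0 : ℝ, 0 < Cs ∧ 0 < k0 ∧ ∀ kc, 0 < kc → kc ≤ k0 → ∃ r00 : ℕ, ∀ r0, r00 ≤ r0 →
      ∃ W : Wt, W.GF d r0 Om c3 kc ∧ gc d < W.γ ∧ W.xP d r0 Om .D ≤ Cs * kc := by
  have hd1 : 1 ≤ d := by omega
  have hd' : (1 : ℝ) ≤ d := by exact_mod_cast hd1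
  have hO : (1 : ℝ) ≤ Om := by exact_mod_cast hOm
  have hg := (gc_spec hd1).1
  obtain ⟨x, x0, x1, x2, x3⟩ := gf_xs hd1
  obtain ⟨A, hA, hA'⟩ : ∃ A : ℝ, 2 ≤ A ∧ 14 * Om ≤ c3 * (gc d ^ d) ^ Om * A := by
    have : 0 < c3 * (gc d ^ d) ^ Om := by positivity
    refine ⟨max 2 (14 * Om / (c3 * (gc d ^ d) ^ Om)), le_max_left _ _, ?_⟩
    exact (div_le_iff₀' this).1 (le_max_right _ _)
  obtain ⟨C, hC⟩ : ∃ C : ℝ, C = Om * (A + 3 * Om) := ⟨_, rfl⟩
  have C0 : 0 < C := by rw [hC]; positivity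
  have c1 : 0 < 1 - x := by linarith only [x1]
  refine ⟨4 * (d + 1) * d * C, min ((1 - x) / C) (min (1 / (2 * (d + 1) ^ 2 * C ^ 2))
    (c3 / 2 / (d * Om * (4 * (d + 1) * d * C)))), by positivity, by positivity,
    fun kc hk hk0 => ?_⟩
  rw [le_min_iff, le_min_iff, le_div_iff₀ C0, le_div_iff₀ (by positivity),
    le_div_iff₀ (by positivity)] at hk0
  obtain ⟨k1, k2, k3⟩ := hk0
  obtain ⟨r00, hr⟩ := gf_src hd1 (half_pos hk)
  refine ⟨r00, fun r0 hr0 => ?_⟩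
  obtain ⟨G, hG⟩ : ∃ G : ℕ → ℝ, G = fun i : ℕ => A * kc + 3 * kc * i := ⟨_, rfl⟩
  obtain ⟨S, hS⟩ : ∃ S, S = ∑ i ∈ range Om, G i := ⟨_, rfl⟩
  have S0 : 0 ≤ S := by rw [hS, hG]; positivity
  have S1 : S ≤ C * kc := by
    have : S ≤ ∑ _i ∈ range Om, (A * kc + 3 * kc * Om) := by
      rw [hS, hG]
      refine sum_le_sum fun i hi => ?_
      have := (mem_range.1 hi).le
      gcongr
    rw [sum_const, card_range, nsmul_eq_mul] at this
    rw [hC]
    linarith only [this]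
  have z0 := gf_pos hd1 le_rfl (r0 + 1)
  have a3 : gfZ d 0 (r0 + 1) + S < 1 := by linarith only [x3 (r0 + 1), k1, S1]
  have a1 : (d + 1) * gfZ d 0 (r0 + 1) ^ d < 1 := by
    exact (mul_lt_mul_of_pos_left (pow_lt_pow_left₀ (x3 _) z0 (by omega))
      (by positivity)).trans_eq x2
  have hP : ∀ t WP κ, 0 ≤ t → t ≤ 1 → gfZ d t (r0 + 1) + S ≤ 1 →
      0 ≤ (gfW d t G 0 WP κ).xP d r0 Om .D ∧
      (gfW d t G 0 WP κ).xP d r0 Om .D ≤ 4 * (d + 1) * d * C * kc ∧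
      d * Om * (gfW d t G 0 WP κ).xP d r0 Om .D ≤ c3 / 2 := fun t WP κ a b c => by
    obtain ⟨e, f⟩ := gf_xPD hd1 G WP κ a b (hS ▸ S0) (hS ▸ S1) (hS ▸ c)
    have := mul_le_mul_of_nonneg_left f (show (0 : ℝ) ≤ d * Om by positivity)
    exact ⟨e, by linarith only [f], by linarith only [k3, this]⟩
  have eP : ∀ t WP κ, (gfW d t G 0 WP κ).xP d r0 Om .D = (1 + t) * (1 + t) * (d + 1) *
      (d * S * (gfZ d t (r0 + 1) + S) ^ (d - 1)) := fun t WP κ => by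
    rw [Wt.xP, Wt.xC, gf_Xb, hS]; rfl
  obtain ⟨κ, hκ⟩ : ∃ κ, κ = 1 - (d + 1) * gfZ d 0 (r0 + 1) ^ d := ⟨_, rfl⟩
  have κ0 : 0 < κ ∧ κ ≤ 1 := by
    have : 0 ≤ (d + 1) * gfZ d 0 (r0 + 1) ^ d := by positivity
    exact ⟨by linarith only [a1, hκ], by linarith only [hκ, this]⟩
  obtain ⟨WP, w1, w2⟩ : ∃ WP : ℝ, 1 ≤ WP ∧ ((1 + 0) * (1 + 0) * (d + 1) * gfZ d 0 (r0 + 1) ^ d +
      κ * ((1 + 0) * (1 + 0) * (d + 1) * (d * S * (gfZ d 0 (r0 + 1) + S) ^ (d - 1)))) *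
      ((1 + WP) * (1 + 0 * WP)) < WP := by
    obtain ⟨e, -, f⟩ := hP 0 0 0 le_rfl zero_le_one a3.le
    rw [← eP 0 0 0]
    generalize (gfW d 0 G 0 0 0).xP d r0 Om .D = P at e f
    have g : 1 * P ≤ d * Om * P :=
      mul_le_mul_of_nonneg_right (one_le_mul_of_one_le_of_one_le hd' hO) e
    have h : κ * P ≤ κ * (1 / 2) := mul_le_mul_of_nonneg_left (by linarith only [h1, f, g]) κ0.1.le
    have i : 2 / κ * κ = 2 := div_mul_cancel₀ _ κ0.1.ne'
    have j : 0 < 2 / κ := div_pos two_pos κ0.1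
    refine ⟨2 / κ, (one_le_div κ0.1).2 (by linarith only [κ0.2, x0, x1]), ?_⟩
    have k := mul_le_mul_of_nonneg_right (show (1 + 0) * (1 + 0) * (d + 1) *
      gfZ d 0 (r0 + 1) ^ d + κ * P ≤ 1 - κ / 2 by linarith only [hκ, h]) (show 0 ≤ 1 + 2 / κ by linarith only [x0, x1, j])
    linarith only [a1, hκ, i, k]
  have a2 : (1 + 0) * (1 + 0) * (1 + 0 * (d + 1) * ((1 + 0) * (1 + 0) * (d + 1) *
      (gfZ d 0 (r0 + 1) + S) ^ d)) * (gfZ d 0 (r0 + 1) ^ (d + 1) - gfZ d 0 r0 ^ (d + 1) +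
      (d + 1) ^ 2 * S ^ 2 * (gfZ d 0 (r0 + 1) + S) ^ (d - 1)) < kc := by
    have c := pow_le_one₀ (n := d - 1) (add_nonneg z0 S0) a3.le
    have e : (d + 1) ^ 2 * S ^ 2 * (gfZ d 0 (r0 + 1) + S) ^ (d - 1) ≤
      (d + 1) ^ 2 * (C * kc) ^ 2 * 1 := by gcongr
    have f := mul_le_mul_of_nonneg_left k2 hk.le
    linarith only [hr r0 hr0, e, f]
  have a1' : (1 + 0) * (1 + 0) * (1 + 0 * (d + 1) * ((1 + 0) * (1 + 0) * (d + 1) *
      (gfZ d 0 (r0 + 1) + S) ^ d)) * ((d + 1) * gfZ d 0 (r0 + 1) ^ d) < 1 := by simpa only [add_zero, mul_one, zero_mul, one_mul] using a1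
  have q0 := gf_cont (d := d) r0
  have q1 := gf_cont (d := d) (r0 + 1)
  have e1 := (show Continuous fun t => (1 + t) * (1 + t) * (1 + t * (d + 1) *
      ((1 + t) * (1 + t) * (d + 1) * (gfZ d t (r0 + 1) + S) ^ d)) *
      ((d + 1) * gfZ d t (r0 + 1) ^ d) by fun_prop).continuousAt.eventually
    (gt_mem_nhds a1')
  have e2 := (show Continuous fun t => (1 + t) * (1 + t) * (1 + t * (d + 1) *
      ((1 + t) * (1 + t) * (d + 1) * (gfZ d t (r0 + 1) + S) ^ d)) *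
      (gfZ d t (r0 + 1) ^ (d + 1) - gfZ d t r0 ^ (d + 1) + (d + 1) ^ 2 * S ^ 2 *
      (gfZ d t (r0 + 1) + S) ^ (d - 1)) by fun_prop).continuousAt.eventually (gt_mem_nhds a2)
  have e3 := (show Continuous fun t => gfZ d t (r0 + 1) + S by
    fun_prop).continuousAt.eventually (gt_mem_nhds a3)
  have e4 := (show Continuous fun t => ((1 + t) * (1 + t) * (d + 1) * gfZ d t (r0 + 1) ^ d +
      κ * ((1 + t) * (1 + t) * (d + 1) * (d * S * (gfZ d t (r0 + 1) + S) ^ (d - 1)))) *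
      ((1 + WP) * (1 + t * WP)) by fun_prop).continuousAt.eventually (gt_mem_nhds w2)
  have e6 := (show Continuous fun t : ℝ => t * (kc + (A * kc + 3 * kc * Om)) by
    fun_prop).continuousAt.eventually (gt_mem_nhds (show 0 * _ < kc by rwa [zero_mul]))
  obtain ⟨t, ⟨b1, b2, b3, b4, b5, b6, b7⟩, ht⟩ := (((e1.and (e2.and (e3.and (e4.and
    ((gt_mem_nhds hk).and (e6.and (gt_mem_nhds zero_lt_one))))))).filter_mono
    (nhdsWithin_le_nhds (s := Set.Ioi 0))).and self_mem_nhdsWithin).exists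
  have ht : 0 < t := ht
  obtain ⟨-, p1, p2⟩ := hP t WP κ ht.le b7.le b3.le
  have eH : (gfW d t G 0 WP κ).xC r0 Om .H = gfZ d t (r0 + 1) + S := by
    rw [Wt.xC, gf_Xb, hS]; rfl
  refine ⟨_, gf_det hd1 hOm h0 h1 hk ht κ0 hA hA' (gfW d t G 0 WP κ) (by rw [hG]) _
    (show (1 + t) * (1 + t) * (1 + t * (d + 1) * ((1 + t) * (1 + t) * (d + 1) *
      (gfZ d t (r0 + 1) + S) ^ d)) = _ by rw [Wt.xP, eH]; rfl) ?_ ?_ (eH ▸ b3.le) ⟨w1, ?_⟩
    b5.le b6.le p2, lt_add_of_pos_right _ ht, p1⟩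
  · rw [gf_Xb]; exact b1.le
  · rw [gf_Xb, gf_Xb, eH, show (gfW d t G 0 WP κ).SG Om = S from hS.symm]; exact b2.le
  · rw [eP, Wt.xP, Wt.xC, gf_Xb]; exact b4.le

end Pool.Agent.MP_8f9e6e_pr.J

end
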