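import Pool.Agent.MP_8f9e6e_pr.Jump.P4
import Pool.Agent.MP_8f9e6e_pr.Jump.P6
import Pool.Agent.MP_8f9e6e_pr.Jump.P3

attribute [-instance] IdemSemiring.toCanonicallyOrderedAdd AddQuantale.instAddLeftMono
  IdemSemiring.toMulLeftMono IsOrderedMonoid.toMulLeftMono NumberField.to_charZero RKHS.instFunLike
  Quantale.instMulLeftMono AddQuantale.instAddRightMono covariant_swap_mul_of_covariant_mul
  Quantale.instMulRightMono instCoeTOfCoeDep CanonicallyOrderedAdd.toMulLeftMono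
  List.instDecidableMemOfLawfulBEq instCoeHTCOfCoeHeadOfCoeOTC
  Group.IsPerfect.subsingleton_of_isMulCommutative instCoeHTCTOfCoeTailOfCoeHTC NeZero.of_gt'
  TestFunctionClass.toDFunLike instCoeTCOfCoe ContDiffMapSupportedInClass.toDFunLike
  Finset.decidableDforallFinset Multiset.decidableDforallMultiset

/-! Instances of the encoding theorem and big components. -/

section

/-! Removing a few faces changes few sites. -/

open Finset Filter

namespace Pool.Agent.MP_8f9e6e_pr.J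

variable {n d : ℕ}

theorem aff_mul {α β : Type} [Fintype α] [Fintype β] {P : α → Prop} (Q : β → Prop)
    (r : β → α → Prop) {k : ℝ} (h : ∀ a, P a → ∃ b, Q b ∧ r b a)
    (hk : ∀ b, Q b → (cd (r b) : ℝ) ≤ k) : (cd P : ℝ) ≤ cd Q * k := by
  classical
  have e : cd Q = (univ.filter Q).card := by
    unfold cd
    congr
  rw [e]
  exact cd_le_mul (univ.filter Q) r (fun a ha => by simpa only [mem_filter, mem_univ, true_and] using h a ha)
    fun b hb => hk b (mem_filter.1 hb).2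

theorem aff_par {y : Fc n} (h : y.card = d + 1) :
    (cd (fun x => ∃ a, ∃ b ∈ y, x = par y a b) : ℝ) ≤ (d + 1) * n := by
  have e : cd (fun x => ∃ a, ∃ b ∈ y, x = par y a b) ≤ (d + 1) * n := by
    refine (cd_mono (Q := (· ∈ (y ×ˢ univ).image fun z : Fin n × Fin n => par y z.2 z.1)) ?_).trans ?_
    · rintro x ⟨a, b, hb, rfl⟩
      exact mem_image.2 ⟨(b, a), by simp only [mem_product, hb, mem_univ, and_self], rfl⟩
    · rw [cd_mem]
      exact card_image_le.trans (by simp only [card_product, h, card_univ, Fintype.card_fin, Std.le_refl])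
  exact_mod_cast e

theorem aff_deg {A : Fc n → Prop} {Δ : ℝ} (hΔ : 0 ≤ Δ) (h : Deg d A Δ) (y : Fc n) :
    (cd (Adj d A y) : ℝ) ≤ (d + 1) * Δ := by
  by_cases hy : y.card = d + 1
  · refine (aff_mul (fun u => u ∉ y ∧ ∃ o ∈ y, ∀ z ∈ slt y u o, A z)
      (fun u x => x ∈ y.image (par y u)) (k := d + 1) ?_ fun u _ => ?_).trans ?_
    · rintro x ⟨-, u, hu, o, ho, rfl, h3⟩
      exact ⟨u, ⟨hu, o, ho, h3⟩, mem_image_of_mem _ ho⟩
    · rw [cd_mem]
      exact_mod_cast card_image_le.trans hy.le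
    · rw [mul_comm]
      exact mul_le_mul_of_nonneg_left (h y hy) (by positivity)
  · have e : cd (Adj d A y) ≤ cd (· ∈ (∅ : Finset (Fc n))) := cd_mono fun x hx => absurd hx.1 hy
    rw [cd_mem, card_empty, Nat.le_zero] at e
    rw [e, Nat.cast_zero]
    positivity

theorem aff_ball {α : Type} [Fintype α] (r : α → α → Prop) {c : ℝ} (hc : 0 ≤ c)
    (h : ∀ y, (cd (r y) : ℝ) ≤ c) (P : α → Prop) : ∃ B : ℕ → α → Prop, (∀ x, P x → B 0 x) ∧
      (∀ k x, B k x → B (k + 1) x) ∧ (∀ k y x, B k y → r y x → B (k + 1) x) ∧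
      ∀ k, (cd (B k) : ℝ) ≤ cd P * (1 + c) ^ k := by
  refine ⟨fun k => Nat.rec P (fun _ Q x => Q x ∨ ∃ y, Q y ∧ r y x) k, fun _ a => a,
    fun _ _ a => .inl a, fun _ y _ a b => .inr ⟨y, a, b⟩, fun k => ?_⟩
  induction k with
  | zero => simp only [Nat.rec_zero, pow_zero, mul_one, Std.le_refl]
  | succ k ih =>
    set Q : α → Prop := Nat.rec P (fun _ Q x => Q x ∨ ∃ y, Q y ∧ r y x) k
    have e1 : (cd (fun x => Q x ∨ ∃ y, Q y ∧ r y x) : ℝ) ≤ cd Q + cd (fun x => ∃ y, Q y ∧ r y x) := by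
      exact_mod_cast cd_or _ _
    have e2 : (cd (fun x => ∃ y, Q y ∧ r y x) : ℝ) ≤ cd Q * c :=
      aff_mul Q r (fun _ a => a) fun y _ => h y
    refine e1.trans ?_
    rw [pow_succ, ← mul_assoc]
    linarith only [mul_le_mul_of_nonneg_right ih hc, ih, e2]

theorem aff_lt {α : Type} [Fintype α] {P Q : α → Prop} (h : ∀ a, P a → Q a) {x : α} (h1 : Q x)
    (h2 : ¬ P x) : cd P < cd Q := by
  classical
  unfold cd
  refine card_lt_card ⟨fun a ha => ?_, fun a => h2 ?_⟩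
  · simpa only [mem_filter, mem_univ, true_and] using h a (by simpa only [mem_filter, mem_univ, true_and] using ha)
  · simpa using @a x (by simpa using h1)

theorem aff_grow {α : Type} [Fintype α] {r : α → α → Prop} {B : ℕ → α → Prop}
    (h1 : ∀ k x, B k x → B (k + 1) x) (h2 : ∀ k y x, B k y → r y x → B (k + 1) x) {a b : α}
    (ha : B 0 a) (hb : Relation.ReflTransGen r a b) (k : ℕ) :
    B k b ∨ k ≤ cd fun x => B k x ∧ Relation.ReflTransGen r a x := by
  induction k with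
  | zero => exact .inr (Nat.zero_le _)
  | succ k ih =>
    by_cases c : B k b
    · exact .inl (h1 _ _ c)
    have e : ∀ j, B j a := fun j => Nat.rec ha (fun j => h1 j a) j
    have e2 : ∃ x, Relation.ReflTransGen r a x ∧ ¬ B k x ∧ B (k + 1) x := by
      clear ih
      induction hb with
      | refl => exact absurd (e k) c
      | @tail y z p q ih =>
        by_cases c' : B k y
        · exact ⟨z, p.tail q, c, h2 _ _ _ c' q⟩
        · exact ih c'
    obtain ⟨x, p, q, q'⟩ := e2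
    exact .inr ((ih.resolve_left c).trans_lt
      (aff_lt (fun y hy => ⟨h1 _ _ hy.1, hy.2⟩) ⟨q', p⟩ fun hy => q hy.1))

theorem aff_rd {S S' : Set (Fc n)} {r0 : ℕ} {B : ℕ → Fc n → Prop}
    (h0 : ∀ x, x ∈ S → x ∉ S' → B 0 x) (h1 : ∀ k x, B k x → B (k + 1) x)
    (h2 : ∀ k y x, B k y → Adj d (Rd d S r0) y x → B (k + 1) x) :
    ∀ k ≤ r0, ∀ x, Rd d S k x → ¬ Rd d S' k x → B k x := by
  intro k
  induction k with
  | zero => exact fun _ => h0
  | succ k ih =>
    rintro hk x (hx | ⟨a1, u, a2, a3⟩) hx'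
    · exact h1 _ _ (ih (by omega) x hx fun c => hx' (.inl c))
    · by_contra c
      refine hx' (.inr ⟨a1, u, a2, fun w hw => ?_⟩)
      by_contra c'
      refine c (h2 k (par x u w) x (ih (by omega) _ (a3 w hw) c') (Adj.symm
        ⟨a1, u, a2, w, hw, rfl, fun y hy => ?_⟩))
      obtain ⟨w', b1, -, rfl⟩ := mem_slt.1 hy
      exact (a3 w' b1).mono (by omega)

theorem aff_heavy {S S' : Set (Fc n)} {r0 s : ℕ} (hS : S' ⊆ S) {B : ℕ → Fc n → Prop}
    (h0 : ∀ g h, Adj d (Rd d S r0) g h → ¬ Adj d (Rd d S' r0) g h → B 0 g)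
    (h1 : ∀ k x, B k x → B (k + 1) x)
    (h2 : ∀ k y x, B k y → Adj d (Rd d S r0) y x → B (k + 1) x) {g : Fc n}
    (hg : Heavy d r0 s S g) (hg' : ¬ Heavy d r0 s S' g) : B s g := by
  have e : ∃ a, Relation.ReflTransGen (Adj d (Rd d S' r0)) g a ∧ B 0 a := by
    by_contra c
    refine hg' (le_trans hg (cd_mono fun x hx => ?_))
    induction hx with
    | refl => exact .refl
    | @tail y z _ q ih =>
      by_contra c'
      exact c ⟨y, ih, h0 y z q fun b => c' (ih.tail b)⟩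
  obtain ⟨a, p, ha⟩ := e
  have p' : Relation.ReflTransGen (Adj d (Rd d S' r0)) a g := by
    clear ha
    induction p with
    | refl => exact .refl
    | tail _ q ih => exact .head q.symm ih
  refine (aff_grow h1 (fun k y x b q => h2 k y x b (q.mono fun z => rd_up hS)) ha p' s).resolve_right
    fun c => hg' (c.trans (cd_mono fun x hx => p.trans hx.2))

theorem aff (hd : 2 ≤ d) {r0 s : ℕ} {Δ : ℝ} (hΔ : 0 ≤ Δ) {S : Finset (Face n d)}
    (h : Deg d (Rd d (st S) r0) Δ) (F : Finset (Face n d)) :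
    (cd (fun e : Fc n => e.card = d + 1 ∧ Xh d r0 s (st (S \ F)) e < Xh d r0 s (st S) e) : ℝ) ≤
      2 * F.card * ((d + 1) * n) ^ 2 * (1 + (d + 1) * Δ) ^ (r0 + s) := by
  have hc : 0 ≤ (d + 1 : ℝ) * Δ := by positivity
  have hF : cd (· ∈ st F) ≤ F.card := by
    refine (cd_mono (Q := (· ∈ F.image Subtype.val)) ?_).trans ?_
    · rintro x ⟨a, b⟩
      exact mem_image.2 ⟨_, b, rfl⟩
    · rw [cd_mem]
      exact card_image_le
  have hF' : (cd (· ∈ st F) : ℝ) ≤ F.card := by exact_mod_cast hF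
  have hm : ∀ x, x ∈ st S → x ∉ st (S \ F) → x ∈ st F := fun x a b => by
    by_contra c
    exact b (st_sdiff S F ▸ ⟨a, c⟩)
  obtain ⟨B, b0, b1, b2, b3⟩ := aff_ball _ hc (aff_deg hΔ h) (· ∈ st F)
  obtain ⟨C, c0, c1, c2, c3⟩ := aff_ball _ hc (aff_deg hΔ h)
    fun g => ∃ y, (y.card = d + 1 ∧ B r0 y) ∧ ∃ a, ∃ b ∈ y, g = par y a b
  have e1 := aff_rd (fun x a b => b0 x (hm x a b)) b1 b2 r0 le_rfl
  have e2 : ∀ g, Heavy d r0 s (st S) g → ¬ Heavy d r0 s (st (S \ F)) g → C s g := by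
    refine fun g => aff_heavy (st_mono sdiff_subset) ?_ c1 c2
    rintro g h ⟨a1, u, a2, o, a3, rfl, a4⟩ a5
    by_contra c
    refine a5 ⟨a1, u, a2, o, a3, rfl, fun y hy => ?_⟩
    by_contra c'
    have a6 := e1 y (a4 y hy) c'
    obtain ⟨w, a7, -, rfl⟩ := mem_slt.1 hy
    exact c (c0 g ⟨_, ⟨par_card a1 a2 a7, a6⟩, w, u, mem_par.2 (.inl rfl), (par_back a2 a7).symm⟩)
  have e3 : (cd (fun g => ∃ y, (y.card = d + 1 ∧ B r0 y) ∧ ∃ a, ∃ b ∈ y, g = par y a b) : ℝ) ≤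
      cd (fun y : Fc n => y.card = d + 1 ∧ B r0 y) * ((d + 1) * n) :=
    aff_mul _ (fun y g => ∃ a, ∃ b ∈ y, g = par y a b) (fun _ a => a) fun y hy => aff_par hy.1
  have e4 : (cd (fun y : Fc n => y.card = d + 1 ∧ B r0 y) : ℝ) ≤ cd (B r0) :=
    Nat.cast_le.2 (cd_mono fun _ a => a.2)
  have e5 : (cd (fun y : Fc n => y.card = d + 1 ∧ (C s y ∨ y ∈ st F)) : ℝ) ≤
      cd (C s) + cd (· ∈ st F) := by
    rw [← Nat.cast_add]
    exact Nat.cast_le.2 (le_trans (cd_mono fun _ a => a.2) (cd_or _ _))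
  refine (aff_mul (fun y : Fc n => y.card = d + 1 ∧ (C s y ∨ y ∈ st F))
    (fun y g => ∃ a, ∃ b ∈ y, g = par y a b) ?_ fun y hy => aff_par hy.1).trans ?_
  · rintro e ⟨a1, a2⟩
    by_contra c
    refine a2.not_ge (cd_mono ?_)
    rintro u ⟨a3, w, a4, w', a5, a6, a7, a8, a9⟩
    have k : ∀ x ∈ e, ¬ (C s (par e u x) ∨ par e u x ∈ st F) := fun x hx q =>
      c ⟨_, ⟨par_card a1 a3 hx, q⟩, x, u, mem_par.2 (.inl rfl), (par_back a3 hx).symm⟩
    refine ⟨a3, w, a4, w', a5, a6, ?_, ?_, fun x hx p q => ?_⟩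
    · by_contra q
      exact k w a4 (.inl (e2 _ a7 q))
    · by_contra q
      exact k w' a5 (.inl (e2 _ a8 q))
    · by_contra q'
      exact k x hx (.inr (hm _ (a9 x hx p q) q'))
  · have m0 : (0 : ℝ) ≤ (d + 1) * n := by positivity
    have m1 : ((d + 1) * n : ℝ) ≤ ((d + 1) * n) ^ 2 := by
      exact_mod_cast Nat.le_self_pow two_ne_zero ((d + 1) * n)
    have d1 : ∀ k : ℕ, (1 : ℝ) ≤ (1 + (d + 1) * Δ) ^ k := fun k => one_le_pow₀ (by linarith only [hc])
    have f0 : (0 : ℝ) ≤ F.card := by positivity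
    have g1 : (cd (B r0) : ℝ) ≤ F.card * (1 + (d + 1) * Δ) ^ r0 :=
      (b3 r0).trans (mul_le_mul_of_nonneg_right hF' (by positivity))
    have g2 : (cd (C s) : ℝ) ≤
        F.card * (1 + (d + 1) * Δ) ^ r0 * ((d + 1) * n) * (1 + (d + 1) * Δ) ^ s :=
      (c3 s).trans (mul_le_mul_of_nonneg_right
        (e3.trans (mul_le_mul_of_nonneg_right (e4.trans g1) m0)) (by positivity))
    have g3 : (F.card : ℝ) * ((d + 1) * n) ≤
        F.card * ((d + 1) * n) ^ 2 * (1 + (d + 1) * Δ) ^ (r0 + s) :=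
      (mul_le_mul_of_nonneg_left m1 f0).trans (le_mul_of_one_le_right (by positivity) (d1 _))
    refine (mul_le_mul_of_nonneg_right (e5.trans (add_le_add g2 hF')) m0).trans ?_
    rw [pow_add] at g3 ⊢
    linarith only [g3]

end Pool.Agent.MP_8f9e6e_pr.J

end

section

/-! Small free sets and ridge degrees. -/

open Finset Filter

namespace Pool.Agent.MP_8f9e6e_pr.J

variable {d : ℕ}

/-- Base data without site steps. -/
def i1B {n : ℕ} [NeZero n] (V0 : Finset (Fin n)) (rt : Finset (Fc n)) : Base n :=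
  ⟨V0, rt, fun _ => .H, 0, fun _ => ∅, fun _ => 0, fun _ => 0, none⟩

theorem i1_Q {Q : ℕ} (hQ : 2 * Cb d ≤ Q) : 1 ≤ Q := by
  have : 0 < Cb d := by unfold Cb; positivity
  omega

theorem i1_enc (hd : 2 ≤ d) {W : Wt} {r0 Q : ℕ} {c3 kc : ℝ} (hW : W.GF d r0 (Q * (d + 1)) c3 kc)
    (hQ : 2 * Cb d ≤ Q) (C : ℝ) (hC : 0 ≤ C) :
    ∀ᶠ n : ℕ in atTop, ∀ [NeZero n] (p1 p2 : ℝ) (a2 : ℕ), Fit n d W kc p1 p2 a2 →
      ∀ (s0 : ℕ) (V0 : Finset (Fin n)) (rt : Finset (Fc n)), (∀ x ∈ rt, x ⊆ V0) →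
        (∀ P : Fc n → Prop, (∀ x ∈ rt, P x) → Lev d P V0 rt.card ∅) →
        P2 p1 p2 (fun S1 R : Finset (Face n d) => ∃ ρ, (cx r0 Q ρ (S1 ∪ R)).World c3 a2 ∧
          (∀ x ∈ rt, (cx r0 Q ρ (S1 ∪ R)).H x) ∧
          (V0.card + rt.card + (cx r0 Q ρ (S1 ∪ R)).sz rt : ℝ) ≤ C * Real.log n ∧
          s0 ≤ (cx r0 Q ρ (S1 ∪ R)).sz rt) ≤ 2 * mm n d ^ rt.card / W.θ ^ s0 := by
  filter_upwards [enc hd hW hQ C, eventually_ge_atTop 1] with n h hn _ p1 p2 a2 hF s0 V0 rt h1 h2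
  have hl : 0 ≤ C * Real.log n := mul_nonneg hC (Real.log_natCast_nonneg n)
  have hR : (i1B V0 rt).Rs = rt := by simp [Base.Rs, i1B]
  have m0 := (mm_spec (d := d) (by omega) hn).1
  have θ0 : 0 < W.θ := zero_lt_one.trans hW.hθ.1
  refine (P2_mono hF.1 (by linarith only [hF.2.1]) hF.2.2.1 (by linarith only [hF.2.2.2.1]) ?_).trans
    ((h p1 p2 a2 hF ⌊C * Real.log n⌋₊ s0 0 0 0 ((i1B V0 rt).shape d) (Nat.floor_le hl)).trans ?_)
  · rintro S1 R ⟨ρ, a1, a2, a3, a4⟩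
    refine ⟨cx r0 Q ρ (S1 ∪ R), i1B V0 rt, ∅, rt.card, ∅, rfl, rfl, rfl, a1,
      ⟨fun x hx => ⟨h1 x hx, a2 x hx, nofun, nofun⟩, nofun, fun _ _ _ => notMem_empty _,
        fun M hM => ⟨h2 _ fun x hx => hM x (by simp [hR, hx]), nofun⟩, le_rfl⟩, ?_, ?_,
      by simp only [Base.eD, cn, i1B, true_and, range_zero, filter_empty, card_empty, Std.le_refl], by simp only [Base.nsib, cn, i1B, and_true, true_and, range_zero, filter_empty, card_empty, Std.le_refl], by simp, rfl⟩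
    · rw [hR]
      exact Nat.le_floor (by simpa only [i1B, add_zero, Nat.cast_add] using a3)
    · rw [hR]
      exact a4
  · have x0 : 0 ≤ W.xC r0 (Q * (d + 1)) .H := add_nonneg
      (sum_nonneg fun j _ => hW.hε.1.le.trans (hW.y0 j))
      (sum_nonneg fun j _ => (add_nonneg hW.hε.1.le hW.hc.2.2).trans (hW.G0 j))
    have e : W.wS r0 (Q * (d + 1)) ((i1B V0 rt).shape d) =
        (W.xC r0 (Q * (d + 1)) .H * mm n d) ^ rt.card := by
      simp [Wt.wS, Base.shape, i1B, Wt.wT]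
    rw [e, pow_zero, pow_zero, pow_zero, mul_one, mul_one, mul_one]
    gcongr
    exact mul_le_of_le_one_left m0.le hW.x1.2

theorem i1_min {n : ℕ} [NeZero n] {c : Cx n d} {a : ℝ} (h : ¬ c.SzB a) :
    ∃ g, c.H g ∧ a < c.sz {g} ∧ ∀ y, c.H y → c.rk y < c.rk g → (c.sz {y} : ℝ) ≤ a := by
  by_contra h'
  refine h fun g => ?_
  induction hk : c.rk g using Nat.strong_induction_on generalizing g with
  | _ k ih =>
    exact fun hg => not_lt.1 fun h2 => h' ⟨g, hg, h2, fun y hy h3 => ih _ (hk ▸ h3) y rfl hy⟩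

theorem i1_lev {n : ℕ} (hd : 2 ≤ d) (hn : 2 ≤ n) {r : Fc n} (hr : r.card = d) {P : Fc n → Prop}
    (T : Finset (Fin n)) (h : ∀ v ∈ T, v ∉ r ∧ P (insert v r)) : Lev d P (r ∪ T) T.card ∅ := by
  induction T using Finset.induction_on with
  | empty => simpa using Lev.nil.free (by omega) hn r
  | insert v T hv ih =>
    obtain ⟨h1, h2⟩ := h v (mem_insert_self _ _)
    have := (ih fun u hu => h u (mem_insert_of_mem hu)).root hd
      (by rw [card_insert_of_notMem h1, hr]) h2 (mem_insert_self v r) (by simp [h1, hv])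
    rw [card_insert_of_notMem hv]
    convert this using 1
    ext x
    simp only [mem_union, mem_insert]
    tauto

theorem i1_log : ∀ᶠ n : ℕ in atTop, 1 ≤ Real.log n :=
  (Real.tendsto_log_atTop.comp tendsto_natCast_atTop_atTop).eventually_ge_atTop 1

theorem i1_card {n : ℕ} (s : Finset (Fin n)) (k : ℕ) : ((powersetCard k s).card : ℝ) ≤ n ^ k := by
  rw [card_powersetCard]
  exact_mod_cast (Nat.choose_le_pow _ _).trans
    (Nat.pow_le_pow_left ((card_le_univ s).trans_eq (Fintype.card_fin n)) k)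

theorem inst1 (hd : 2 ≤ d) {W : Wt} {r0 Q : ℕ} {c3 kc : ℝ} (hW : W.GF d r0 (Q * (d + 1)) c3 kc)
    (hQ : 2 * Cb d ≤ Q) (K0 : ℕ) : ∃ C : ℝ, 0 < C ∧
    ∀ᶠ n : ℕ in atTop, ∀ [NeZero n] (p1 p2 : ℝ) (a2 : ℕ), Fit n d W kc p1 p2 a2 →
      P2 p1 p2 (fun S1 R : Finset (Face n d) => ∃ ρ, (cx r0 Q ρ (S1 ∪ R)).World c3 a2 ∧
        ¬ (cx r0 Q ρ (S1 ∪ R)).SzB (C * Real.log n)) ≤ 1 / (n : ℝ) ^ K0 := by
  have l0 : 0 < Real.log W.θ := Real.log_pos hW.hθ.1
  have θ0 : 0 < W.θ := zero_lt_one.trans hW.hθ.1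
  obtain ⟨C, hC⟩ : ∃ C : ℝ, C = (K0 + d + 2 : ℕ) / Real.log W.θ := ⟨_, rfl⟩
  have C0 : 0 < C := by rw [hC]; positivity
  refine ⟨C, C0, ?_⟩
  filter_upwards [i1_enc hd hW hQ ((2 * d + 1) * C + (d + 3)) (by positivity), i1_log,
    eventually_ge_atTop 2] with n h hl hn _ p1 p2 a2 hF
  have n0 : (2 : ℝ) ≤ n := by exact_mod_cast hn
  obtain ⟨m0, m1, -⟩ := mm_spec (n := n) (d := d) (by omega) (by omega)
  have hθ : (n : ℝ) ^ (K0 + d + 2) ≤ W.θ ^ ⌈C * Real.log n⌉₊ := by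
    rw [← Real.log_le_log_iff (by positivity) (by positivity), Real.log_pow, Real.log_pow]
    refine le_trans (le_of_eq ?_) (mul_le_mul_of_nonneg_right (Nat.le_ceil _) l0.le)
    rw [hC]
    field_simp
  refine (P2_union hF.1 (by linarith only [hF.2.1]) hF.2.2.1 (by linarith only [hF.2.2.2.1])
    (powersetCard (d + 1) univ) _ ?_).trans ((sum_le_card_nsmul _ _
      (2 / (n : ℝ) ^ (K0 + d + 2)) fun g hg => (h p1 p2 a2 hF ⌈C * Real.log n⌉₊ g {g}
        (by simp) fun P hP => ?_).trans ?_).trans ?_)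
  · rintro S1 R ⟨ρ, a1, a2⟩
    obtain ⟨g, b1, b2, b3⟩ := i1_min a2
    have hS : ∀ f ∈ (cx r0 Q ρ (S1 ∪ R)).S, f.card = d + 1 := fun f => st_card
    have b4 := Cx.sz_step hS (i1_Q hQ) b1 (by positivity) b3
    have b5 : g.card = d + 1 := rd_card hS b1
    refine ⟨g, by simp [b5], ρ, a1, by simpa using b1, ?_, Nat.ceil_le.2 b2.le⟩
    rw [b5, card_singleton]
    push_cast
    nlinarith only [hl, b4]
  · have b5 := (mem_powersetCard.1 hg).2
    obtain ⟨u, hu⟩ := card_pos.1 (show 0 < g.card by omega)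
    simpa using Lev.nil.root hd b5 (hP g (by simp)) hu (notMem_empty u)
  · rw [card_singleton, pow_one]
    gcongr
    linarith only [m1]
  · rw [nsmul_eq_mul]
    refine (mul_le_mul_of_nonneg_right (i1_card _ _) (by positivity)).trans ?_
    rw [mul_div_assoc', div_le_div_iff₀ (by positivity) (by positivity)]
    calc (n : ℝ) ^ (d + 1) * 2 * n ^ K0 ≤ n ^ (d + 1) * n * n ^ K0 := by gcongr
      _ = _ := by ring

theorem inst3 (hd : 2 ≤ d) {W : Wt} {r0 Q : ℕ} {c3 kc : ℝ} (hW : W.GF d r0 (Q * (d + 1)) c3 kc)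
    (hQ : 2 * Cb d ≤ Q) (C : ℝ) (K0 : ℕ) :
    ∀ᶠ n : ℕ in atTop, ∀ [NeZero n] (p1 p2 : ℝ) (a2 : ℕ), Fit n d W kc p1 p2 a2 →
      P2 p1 p2 (fun S1 R : Finset (Face n d) => ∃ ρ, (cx r0 Q ρ (S1 ∪ R)).World c3 a2 ∧
        (cx r0 Q ρ (S1 ∪ R)).SzB (C * Real.log n) ∧
        ¬ Rdg d (cx r0 Q ρ (S1 ∪ R)).H (n * √(mm n d))) ≤ 1 / (n : ℝ) ^ K0 := by
  obtain ⟨J, hJ⟩ : ∃ J, J = 2 * (d * (K0 + d + 1)) := ⟨_, rfl⟩
  filter_upwards [i1_enc hd hW hQ (J * |C| + (d + 2 * J)) (by positivity), i1_log,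
    eventually_ge_atTop 2, eventually_ge_atTop ((2 * J) ^ 2),
    eventually_ge_atTop (2 * 2 ^ J * J.factorial)] with n h hl hn n1 n2 _ p1 p2 a2 hF
  have n0 : (2 : ℝ) ≤ n := by exact_mod_cast hn
  obtain ⟨m0, m1, m2⟩ := mm_spec (n := n) (d := d) (by omega) (by omega)
  obtain ⟨s, hs⟩ : ∃ s, s = √(mm n d) := ⟨_, rfl⟩
  have s0 : 0 < s := hs ▸ Real.sqrt_pos.2 m0
  have s2 : mm n d = s ^ 2 := by rw [hs, Real.sq_sqrt m0.le]
  have hx : (2 * J : ℝ) ≤ n * s := by
    refine le_of_pow_le_pow_left₀ two_ne_zero (by positivity) ?_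
    have := pow_le_of_le_one m0.le m1 (show d ≠ 0 by omega)
    calc (2 * J : ℝ) ^ 2 ≤ n := by exact_mod_cast n1
      _ = n * (n * mm n d ^ d) := by rw [m2, mul_one]
      _ ≤ n * (n * mm n d) := by gcongr
      _ = _ := by rw [s2]; ring
  have a0 := hF.1
  have a1 : p1 ≤ 1 := by linarith only [hF.2.1]
  have b0 := hF.2.2.1
  have b1 : p2 ≤ 1 := by linarith only [hF.2.2.2.1]
  rw [← hs]
  refine (P2_union a0 a1 b0 b1 (powersetCard d univ) (fun r S1 R => ∃ ρ,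
    (cx r0 Q ρ (S1 ∪ R)).World c3 a2 ∧ (cx r0 Q ρ (S1 ∪ R)).SzB (C * Real.log n) ∧
      n * s < cd fun v => v ∉ r ∧ (cx r0 Q ρ (S1 ∪ R)).H (insert v r)) ?_).trans
    ((sum_le_card_nsmul _ _ (1 / (n : ℝ) ^ (K0 + d)) fun r hr => ?_).trans ?_)
  · rintro S1 R ⟨ρ, c1, c2, c3⟩
    simp only [Rdg, not_forall, not_le] at c3
    obtain ⟨r, c4, c5⟩ := c3
    exact ⟨r, by simp [c4], ρ, c1, c2, c5⟩
  · replace hr := (mem_powersetCard.1 hr).2
    have hi : ∀ T ∈ powersetCard J rᶜ, (T.image (insert · r)).card = T.card := fun T hT =>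
      card_image_of_injOn fun u hu v hv e => by
        have := (show insert u r = insert v r from e) ▸ mem_insert_self u r
        simpa [mem_compl.1 ((mem_powersetCard.1 hT).1 hu)] using this
    refine le_of_mul_le_mul_left ((P2_count (a := (n * s / 2) ^ J / J.factorial) a0 a1 b0 b1
      (powersetCard J rᶜ) _ ?_).trans ((sum_le_card_nsmul _ _ (2 * mm n d ^ J) fun T hT =>
        (h p1 p2 a2 hF 0 (r ∪ T) (T.image (insert · r)) ?_ fun P hP => ?_).trans ?_).trans ?_))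
      (by positivity)
    · classical
      rintro S1 R ⟨ρ, c1, c2, c3⟩
      set A := univ.filter fun v => v ∉ r ∧ (cx r0 Q ρ (S1 ∪ R)).H (insert v r) with hA
      have c4 : n * s < A.card := c3.trans_eq (by unfold cd; congr)
      refine ⟨powersetCard J A, powersetCard_mono fun v hv => mem_compl.2 (mem_filter.1 hv).2.1,
        ?_, fun T hT => ?_⟩
      · rw [card_powersetCard]
        refine le_trans ?_ (Nat.pow_le_choose J A.card)
        have c5 : J ≤ A.card + 1 := by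
          have : (J : ℝ) ≤ A.card + 1 := by linarith only [hx, c4]
          exact_mod_cast this
        gcongr
        rw [Nat.cast_sub c5]
        push_cast
        linarith only [hx, c4]
      · obtain ⟨c5, c6⟩ := mem_powersetCard.1 hT
        have c7 : ∀ x ∈ T.image (insert · r), (cx r0 Q ρ (S1 ∪ R)).H x := fun x hx => by
          obtain ⟨v, hv, rfl⟩ := mem_image.1 hx
          exact (mem_filter.1 (c5 hv)).2.2
        have c8 := Cx.sz_le fun x hx => c2 x (c7 x hx)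
        have c9 : ((T.image (insert · r)).card : ℝ) ≤ J := by exact_mod_cast c6 ▸ card_image_le
        have c10 : ((r ∪ T).card : ℝ) ≤ d + J := by exact_mod_cast hr ▸ c6 ▸ card_union_le r T
        refine ⟨ρ, c1, c7, ?_, Nat.zero_le _⟩
        have c11 : ((T.image (insert · r)).card : ℝ) * (C * Real.log n) ≤
            J * (|C| * Real.log n) := (mul_le_mul_of_nonneg_left (mul_le_mul_of_nonneg_right
          (le_abs_self C) (by linarith only [hl])) (Nat.cast_nonneg _)).trans (by gcongr)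
        nlinarith only [hl, c8, c9, c10, c11]
    · intro x hx
      obtain ⟨v, hv, rfl⟩ := mem_image.1 hx
      exact insert_subset (mem_union_right _ hv) subset_union_left
    · rw [hi T hT]
      exact i1_lev hd hn hr T fun v hv =>
        ⟨mem_compl.1 ((mem_powersetCard.1 hT).1 hv), hP _ (mem_image_of_mem _ hv)⟩
    · rw [hi T hT, (mem_powersetCard.1 hT).2, pow_zero, div_one]
    · rw [nsmul_eq_mul]
      refine (mul_le_mul_of_nonneg_right (i1_card _ _) (by positivity)).trans ?_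
      have e : (n : ℝ) ^ (K0 + d + 1) * s ^ J = 1 := by
        rw [hJ, pow_mul, ← s2, pow_mul, ← mul_pow, m2, one_pow]
      have n3 : (2 * 2 ^ J * J.factorial : ℝ) ≤ n := by exact_mod_cast n2
      rw [div_pow, div_div, div_mul_div_comm, le_div_iff₀ (by positivity), s2]
      calc (n : ℝ) ^ J * (2 * (s ^ 2) ^ J) * (2 ^ J * J.factorial * n ^ (K0 + d))
          = (n * s) ^ J * (2 * 2 ^ J * J.factorial * n ^ (K0 + d) * s ^ J) := by ring
        _ ≤ (n * s) ^ J * (n * n ^ (K0 + d) * s ^ J) := by gcongr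
        _ = _ := by rw [← pow_succ', e]
  · rw [nsmul_eq_mul]
    refine (mul_le_mul_of_nonneg_right (i1_card _ _) (by positivity)).trans (le_of_eq ?_)
    field_simp
    ring

end Pool.Agent.MP_8f9e6e_pr.J

end

section

/-! Degrees of sites. -/

open Finset Filter

namespace Pool.Agent.MP_8f9e6e_pr.J

variable {d : ℕ}

theorem i2_lev {n : ℕ} (hd : 2 ≤ d) {g : Fc n} (hg : g.card = d + 1) (P : Finset (Fin n × Fin n))
    (h1 : ∀ a ∈ P, a.1 ∉ g ∧ a.2 ∈ g) (h2 : Set.InjOn Prod.fst (P : Set (Fin n × Fin n))) :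
    (P.biUnion fun a => slt g a.1 a.2).card = d * P.card ∧
      (∀ x ∈ P.biUnion fun a => slt g a.1 a.2, x ⊆ g ∪ P.image Prod.fst) ∧
      ∀ C : Fc n → Prop, (∀ x ∈ P.biUnion fun a => slt g a.1 a.2, C x) →
        Lev d C (g ∪ P.image Prod.fst) (d * P.card) (P.image fun a => insert a.1 g) := by
  have hn : 2 ≤ n := by
    have := card_le_univ g
    rw [Fintype.card_fin] at this
    omega
  induction P using Finset.induction_on with
  | empty => exact ⟨by simp, by simp, fun C _ => by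
      simpa using (Lev.nil (d := d) (C := C)).free (by omega) hn g⟩
  | insert a P ha ih =>
    obtain ⟨b1, b2, b3⟩ := ih (fun z hz => h1 z (mem_insert_of_mem hz))
      (h2.mono (by simp))
    obtain ⟨c1, c2⟩ := h1 a (mem_insert_self _ _)
    obtain ⟨e1, e2⟩ := faces_spec hg c1 c2
    have c3 : a.1 ∉ g ∪ P.image Prod.fst := fun h => (mem_union.1 h).elim c1 fun h => by
      obtain ⟨z, z1, z2⟩ := mem_image.1 h
      exact ha (h2 (by simp [z1]) (by simp) z2 ▸ z1)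
    rw [biUnion_insert, card_insert_of_notMem ha, image_insert, image_insert, union_insert]
    refine ⟨?_, fun x hx => ?_, fun C hC => ?_⟩
    · rw [card_union_of_disjoint (s := slt g a.1 a.2)
        (disjoint_left.2 fun x x1 x2 => c3 (b2 x x2 (e2 x x1).2.2.1)), b1,
        show (slt g a.1 a.2).card = d from e1]
      ring
    · exact (mem_union.1 hx).elim
        (fun h => (e2 x h).1.trans (insert_subset_insert _ subset_union_left))
        fun h => (b2 x h).trans (subset_insert _ _)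
    · have := Lev.step _ _ _ a.1 a.2 g _ (b3 C fun x hx => hC x (mem_union_right _ hx)) c3
        subset_union_left hg.le (ne_of_mem_of_not_mem c2 c1) e1.le fun x hx =>
          ⟨(e2 x hx).1, (e2 x hx).2.1, (e2 x hx).2.2.1, (e2 x hx).2.2.2.1,
            hC x (mem_union_left _ hx)⟩
      rwa [e1, if_pos rfl] at this

theorem i2_main (hd : 2 ≤ d) {ε : ℝ} (hε : 0 < ε) (K0 : ℕ) : ∃ J : ℕ, ∀ C : ℝ,
    ∀ᶠ n : ℕ in atTop, ∀ p1 p2 : ℝ, 0 ≤ p1 → p1 ≤ 1 → 0 ≤ p2 → p2 ≤ 1 →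
      ∀ (E : Finset (Face n d) → Finset (Face n d) → Prop)
        (F : Fc n → Finset (Fin n × Fin n) → Finset (Face n d) → Finset (Face n d) → Prop),
      (∀ A R, E A R → ∃ g : Fc n, g.card = d + 1 ∧ ∃ Q : Fin n → Fin n → Prop,
        (n : ℝ) ^ ε < cd (fun u => u ∉ g ∧ ∃ o ∈ g, Q u o) ∧ ∀ P : Finset (Fin n × Fin n),
          P.card = J → (∀ a ∈ P, a.1 ∉ g ∧ a.2 ∈ g) →
          Set.InjOn Prod.fst (P : Set (Fin n × Fin n)) → (∀ a ∈ P, Q a.1 a.2) → F g P A R) →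
      (∀ (g : Fc n) (P : Finset (Fin n × Fin n)), g.card = d + 1 → P.card = J →
        (∀ a ∈ P, a.1 ∉ g ∧ a.2 ∈ g) → Set.InjOn Prod.fst (P : Set (Fin n × Fin n)) →
        P2 p1 p2 (F g P) ≤ C * mm n d ^ (d * J)) →
      P2 p1 p2 E ≤ 1 / (n : ℝ) ^ K0 := by
  classical
  obtain ⟨J, hJ⟩ := exists_nat_ge ((d + 1 + K0 + 1 : ℕ) / ε)
  rw [div_le_iff₀ hε] at hJ
  refine ⟨J, fun C => ?_⟩
  filter_upwards [((tendsto_rpow_atTop hε).comp tendsto_natCast_atTop_atTop).eventually_ge_atTop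
    (2 * J), tendsto_natCast_atTop_atTop.eventually_ge_atTop
      (J.factorial * (2 * (d + 1)) ^ J * |C| : ℝ), eventually_ge_atTop 1]
    with n a1 a2 a3 p1 p2 b1 b2 b3 b4 E F hE hF
  replace a1 : 2 * (J : ℝ) ≤ (n : ℝ) ^ ε := a1
  have n1 : (1 : ℝ) ≤ n := by exact_mod_cast a3
  have n0 : (0 : ℝ) < n := by linarith only [n1]
  have x0 : 0 < (n : ℝ) ^ ε := Real.rpow_pos_of_pos n0 _
  have x1 : (n : ℝ) ^ (d + 1 + K0 + 1) ≤ ((n : ℝ) ^ ε) ^ J := by
    rw [← Real.rpow_natCast, ← Real.rpow_mul_natCast n0.le]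
    exact Real.rpow_le_rpow_of_exponent_le n1 (by linarith only [hJ])
  obtain ⟨m0, -, m1⟩ := mm_spec (n := n) (d := d) (by omega) a3
  generalize (n : ℝ) ^ ε = x at *
  have f0 : (0 : ℝ) < J.factorial := by exact_mod_cast J.factorial_pos
  refine (P2_union b1 b2 b3 b4 (powersetCard (d + 1) univ) (fun g A R =>
    ∃ Q : Fin n → Fin n → Prop, x < cd (fun u => u ∉ g ∧ ∃ o ∈ g, Q u o) ∧
      ∀ P : Finset (Fin n × Fin n), P.card = J → (∀ a ∈ P, a.1 ∉ g ∧ a.2 ∈ g) →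
        Set.InjOn Prod.fst (P : Set (Fin n × Fin n)) → (∀ a ∈ P, Q a.1 a.2) → F g P A R)
    fun A R h => (hE A R h).imp fun g h => ⟨by simp only [mem_powersetCard, subset_univ, h.1, Nat.add_left_cancel_iff, and_self], h.2⟩).trans
    ((sum_le_card_nsmul _ _ (J.factorial * (2 * (d + 1)) ^ J * |C| / x ^ J) fun g hg => ?_).trans ?_)
  · have g1 := (mem_powersetCard.1 hg).2
    have key := P2_count b1 b2 b3 b4 (a := (x / 2) ^ J / J.factorial)
      ((powersetCard J (univ ×ˢ g)).filter fun P : Finset (Fin n × Fin n) =>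
        (∀ a ∈ P, a.1 ∉ g ∧ a.2 ∈ g) ∧ Set.InjOn Prod.fst (P : Set (Fin n × Fin n)))
      (E := fun A R => ∃ Q : Fin n → Fin n → Prop, x < cd (fun u => u ∉ g ∧ ∃ o ∈ g, Q u o) ∧
        ∀ P : Finset (Fin n × Fin n), P.card = J → (∀ a ∈ P, a.1 ∉ g ∧ a.2 ∈ g) →
          Set.InjOn Prod.fst (P : Set (Fin n × Fin n)) → (∀ a ∈ P, Q a.1 a.2) → F g P A R)
      (F g) fun A R ⟨Q, q1, q2⟩ => by
        choose! o o1 o2 using fun u (h : u ∉ g ∧ ∃ o ∈ g, Q u o) => h.2
        obtain ⟨U, u1, u2⟩ : ∃ U : Finset (Fin n), x < U.card ∧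
            ∀ u ∈ U, u ∉ g ∧ ∃ o ∈ g, Q u o := ⟨_, q1, fun u hu => by simpa only [mem_filter, mem_univ, true_and] using hu⟩
        have c : ∀ P ∈ powersetCard J (U.map ⟨fun u => (u, o u), fun a b h => congrArg Prod.fst h⟩),
            P.card = J ∧ (∀ a ∈ P, a.1 ∉ g ∧ a.2 ∈ g) ∧
            Set.InjOn Prod.fst (P : Set (Fin n × Fin n)) ∧ ∀ a ∈ P, Q a.1 a.2 := fun P hP => by
          obtain ⟨c1, c2⟩ := mem_powersetCard.1 hP
          have c3 : ∀ a ∈ P, ∃ u ∈ U, (u, o u) = a := fun a ha => mem_map.1 (c1 ha)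
          refine ⟨c2, fun a ha => ?_, fun a ha b hb h => ?_, fun a ha => ?_⟩
          · obtain ⟨u, e, rfl⟩ := c3 a ha
            exact ⟨(u2 u e).1, o1 u (u2 u e)⟩
          · obtain ⟨u, -, rfl⟩ := c3 a ha
            obtain ⟨v, -, rfl⟩ := c3 b hb
            rw [show u = v from h]
          · obtain ⟨u, e, rfl⟩ := c3 a ha
            exact o2 u (u2 u e)
        refine ⟨_, fun P hP => mem_filter.2 ⟨mem_powersetCard.2 ⟨fun a ha => mem_product.2
          ⟨mem_univ _, ((c P hP).2.1 a ha).2⟩, (c P hP).1⟩, (c P hP).2.1, (c P hP).2.2.1⟩, ?_,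
          fun P hP => q2 P (c P hP).1 (c P hP).2.1 (c P hP).2.2.1 (c P hP).2.2.2⟩
        rw [card_powersetCard, card_map]
        refine le_trans ?_ (Nat.pow_le_choose J U.card)
        have : J ≤ U.card + 1 := by
          have : (J : ℝ) ≤ U.card + 1 := by linarith only [a1, x0, u1]
          exact_mod_cast this
        gcongr
        rw [Nat.cast_sub this]
        push_cast
        linarith only [a1, u1]
    have k2 := key.trans (sum_le_card_nsmul _ _ (|C| * mm n d ^ (d * J)) fun P hP =>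
      (hF g P g1 (mem_powersetCard.1 (mem_filter.1 hP).1).2 (mem_filter.1 hP).2.1
        (mem_filter.1 hP).2.2).trans (mul_le_mul_of_nonneg_right (le_abs_self C) (by positivity)))
    have k3 : (((powersetCard J (univ ×ˢ g)).filter fun P : Finset (Fin n × Fin n) =>
        (∀ a ∈ P, a.1 ∉ g ∧ a.2 ∈ g) ∧ Set.InjOn Prod.fst (P : Set (Fin n × Fin n))).card : ℝ) ≤
        (n * (d + 1)) ^ J := by
      have := (card_filter_le (powersetCard J ((univ : Finset (Fin n)) ×ˢ g)) fun P =>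
        (∀ a ∈ P, a.1 ∉ g ∧ a.2 ∈ g) ∧ Set.InjOn Prod.fst (P : Set (Fin n × Fin n))).trans
        ((card_powersetCard _ _).le.trans (Nat.choose_le_pow _ _))
      rw [card_product, card_univ, Fintype.card_fin, g1] at this
      exact_mod_cast this
    rw [nsmul_eq_mul] at k2
    have k4 := k2.trans (mul_le_mul_of_nonneg_right k3 (by positivity))
    have k5 : ((n : ℝ) * (d + 1)) ^ J * (|C| * mm n d ^ (d * J)) = (d + 1) ^ J * |C| := by
      rw [pow_mul, mul_pow, show ∀ a b c e : ℝ, a * b * (c * e) = a * e * (b * c) from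
        fun _ _ _ _ => by ring, ← mul_pow, m1, one_pow, one_mul]
    rw [k5, div_pow, div_div, div_mul_eq_mul_div, div_le_iff₀ (by positivity)] at k4
    rw [le_div_iff₀ (by positivity), mul_pow]
    linarith only [k4]
  · rw [card_powersetCard, card_univ, Fintype.card_fin, nsmul_eq_mul]
    have e1 : (n.choose (d + 1) : ℝ) ≤ n ^ (d + 1) := by exact_mod_cast Nat.choose_le_pow _ _
    calc _ ≤ (n : ℝ) ^ (d + 1) * (n / n ^ (d + 1 + K0 + 1)) := by gcongr
      _ = _ := by field_simp; ring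

theorem inst2 (hd : 2 ≤ d) {W : Wt} {r0 Q : ℕ} {c3 kc : ℝ} (hW : W.GF d r0 (Q * (d + 1)) c3 kc)
    (hQ : 2 * Cb d ≤ Q) (C : ℝ) (K0 : ℕ) {εD : ℝ} (hε : 0 < εD) :
    ∀ᶠ n : ℕ in atTop, ∀ [NeZero n] (p1 p2 : ℝ) (a2 : ℕ), Fit n d W kc p1 p2 a2 →
      P2 p1 p2 (fun S1 R : Finset (Face n d) => ∃ ρ, (cx r0 Q ρ (S1 ∪ R)).World c3 a2 ∧
        (cx r0 Q ρ (S1 ∪ R)).SzB (C * Real.log n) ∧
        ¬ DegN d (cx r0 Q ρ (S1 ∪ R)).hh (st (S1 ∪ R)) ((n : ℝ) ^ εD)) ≤ 1 / (n : ℝ) ^ K0 := by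
  classical
  obtain ⟨J, hJ⟩ := i2_main hd hε K0
  obtain ⟨C', hC⟩ : ∃ C' : ℝ, C' = (d + 1 + J + d * J : ℕ) + (d * J : ℕ) * |C| := ⟨_, rfl⟩
  have w0 : 0 ≤ W.xC r0 (Q * (d + 1)) .H := add_nonneg
    (sum_nonneg fun i _ => hW.hε.1.le.trans (hW.y0 i))
    (sum_nonneg fun i _ => (add_nonneg hW.hε.1.le hW.hc.2.2).trans (hW.G0 i))
  filter_upwards [hJ 2, enc hd hW hQ C', (Real.tendsto_log_atTop.comp
    tendsto_natCast_atTop_atTop).eventually_ge_atTop 1, eventually_ge_atTop 1]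
    with n a1 a2 a3 a4 _ p1 p2 a hF
  replace a3 : 1 ≤ Real.log n := a3
  obtain ⟨m0, -, -⟩ := mm_spec (n := n) (d := d) (by omega) a4
  obtain ⟨B, hB⟩ : ∃ B : Fc n → Finset (Fin n × Fin n) → Base n, B = fun g P =>
    ⟨g ∪ P.image Prod.fst, P.biUnion fun a => slt g a.1 a.2, fun _ => .H, 0, fun _ => ∅, fun _ => 0,
      fun _ => 0, none⟩ := ⟨_, rfl⟩
  refine a1 p1 p2 hF.1 (by linarith only [hF.2.1]) hF.2.2.1 (by linarith only [hF.2.2.2.1]) _
    (fun g P S1 R => ∃ (c : Cx n d) (B' : Base n) (Vi : Finset (Fc n)) (δ : ℕ)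
      (T : Finset (Finset (Fin n))), c.S = st (S1 ∪ R) ∧ c.r0 = r0 ∧ c.Q = Q ∧ c.World c3 a ∧
      B'.Ok c Vi δ T 0 ∧ B'.V0.card + B'.rt.card + c.sz B'.Rs + B'.ns ≤ ⌊C' * Real.log n⌋₊ ∧
      0 ≤ c.sz B'.Rs + B'.ns ∧ B'.eD c ≤ 0 ∧ B'.nsib ≤ 0 ∧ (Cb d * (4 * 0)) ^ (d + 2) ≤ B'.nold ∧
      B'.shape d = (B g P).shape d) (fun A R ⟨ρ, h1, h2, h3⟩ => ?_) fun g P g1 c1 c2 c4 => ?_
  · simp only [DegN, not_forall, not_le] at h3
    obtain ⟨g, g1, g2⟩ := h3
    refine ⟨g, g1, fun u o => (∀ y ∈ slt g u o, (cx r0 Q ρ (A ∪ R)).H y) ∧ ∀ y,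
      (cx r0 Q ρ (A ∪ R)).H y → y ∉ st (A ∪ R) → insert (ap d (st (A ∪ R)) y) y ≠ insert u g,
      g2.trans_le (Nat.cast_le.2 (cd_mono fun u ⟨u1, ⟨o, o1, o2⟩, u2⟩ => ⟨u1, o, o1, o2, u2⟩)),
      fun P c1 c2 c4 c5 => ?_⟩
    obtain ⟨e1, e2, e3⟩ := i2_lev hd g1 P c2 c4
    have e4 : ∀ x ∈ P.biUnion fun a => slt g a.1 a.2, (cx r0 Q ρ (A ∪ R)).H x := fun x hx => by
      obtain ⟨z, z1, z2⟩ := mem_biUnion.1 hx
      exact (c5 z z1).1 x z2
    have e5 : (B g P).Rs = P.biUnion fun a => slt g a.1 a.2 := by simp [hB, Base.Rs]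
    refine ⟨cx r0 Q ρ (A ∪ R), B g P, ∅, d * P.card, P.image fun a => insert a.1 g, rfl, rfl, rfl,
      h1, ⟨?_, ?_, fun x x1 x2 x3 => ?_, fun M hM => ?_, ?_⟩, Nat.le_floor ?_, Nat.zero_le _,
      by simp only [Base.eD, cn, hB, true_and, range_zero, filter_empty, card_empty, Std.le_refl], by simp only [Base.nsib, cn, hB, and_true, true_and, range_zero, filter_empty, card_empty, Std.le_refl], by simp, rfl⟩
    · subst hB
      exact fun x hx => ⟨e2 x hx, e4 x hx, nofun, nofun⟩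
    · subst hB
      exact fun i hi => absurd hi (Nat.not_lt_zero i)
    · obtain ⟨z, z1, z2⟩ := mem_image.1 x3
      exact (c5 z z1).2 x x1 x2 z2.symm
    · rw [e5, union_empty] at hM
      subst hB
      exact ⟨e3 _ hM, fun i hi => absurd hi (Nat.not_lt_zero i)⟩
    · subst hB
      exact e1.le
    · have s1 := Cx.sz_le (a := |C| * Real.log n) fun x hx => (h2 x (e4 x hx)).trans
        (mul_le_mul_of_nonneg_right (le_abs_self C) (by linarith only [a3]))
      have s2 : (g ∪ P.image Prod.fst).card ≤ d + 1 + J :=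
        (card_union_le _ _).trans (add_le_add g1.le (card_image_le.trans c1.le))
      have s3 : (((g ∪ P.image Prod.fst).card + d * J : ℕ) : ℝ) ≤
          (d + 1 + J + d * J : ℕ) * Real.log n :=
        (Nat.cast_le.2 (by omega)).trans (le_mul_of_one_le_right (Nat.cast_nonneg _) a3)
      rw [e5]
      rw [e1, c1] at s1
      subst hB
      simp only [e1, c1]
      rw [hC, add_mul, mul_assoc, add_zero, Nat.cast_add]
      exact add_le_add s3 s1
  · refine (a2 p1 p2 a hF _ 0 0 0 0 _ (Nat.floor_le (by rw [hC]; positivity))).trans ?_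
    have e1 := (i2_lev hd g1 P c2 c4).1
    have e2 : W.wS r0 (Q * (d + 1)) ((B g P).shape d) =
        (W.xC r0 (Q * (d + 1)) .H * mm n d) ^ (d * J) := by
      subst hB
      rw [← c1, ← e1]
      simp [Wt.wS, Base.shape, Wt.wT, -biUnion_val]
    rw [e2]
    simp only [pow_zero, mul_one, div_one]
    gcongr
    exact mul_le_of_le_one_left m0.le hW.x1.2

theorem ev_deg (hd : 2 ≤ d) (r0 : ℕ) {εD η : ℝ} (hε : 0 < εD) (hη : 0 < η) :
    ∀ᶠ n : ℕ in atTop, ∀ p : ℝ, 0 ≤ p → p ≤ mm n d →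
      Pr p (fun S : Finset (Face n d) => ¬ Deg d (Rd d (st S) r0) ((n : ℝ) ^ εD)) ≤ η := by
  obtain ⟨J, hJ⟩ := i2_main hd hε 1
  obtain ⟨C, hC⟩ := dsa hd r0 (d + 1 + J + d * J)
  filter_upwards [hJ |C|, tendsto_natCast_atTop_atTop.eventually_ge_atTop (1 / η),
    eventually_ge_atTop 1] with n a1 a2 a3 p p0 p1
  obtain ⟨m0, m1, m2⟩ := mm_spec (n := n) (d := d) (by omega) a3
  have n0 : (0 : ℝ) < n := by exact_mod_cast a3
  rw [← P2_fst p 0]
  refine (a1 p 0 p0 (p1.trans m1) le_rfl zero_le_one _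
    (fun g P A _ => ∀ x ∈ P.biUnion fun a => slt g a.1 a.2, Rs A r0 x) (fun A R h => ?_)
    fun g P g1 c1 c2 c3 => ?_).trans (by rwa [pow_one, one_div_le n0 hη])
  · simp only [Deg, not_forall, not_le] at h
    obtain ⟨g, g1, g2⟩ := h
    refine ⟨g, g1, _, g2, fun P _ _ _ c x hx => ?_⟩
    obtain ⟨z, z1, z2⟩ := mem_biUnion.1 hx
    exact c z z1 x z2
  · obtain ⟨e1, e2, e3⟩ := i2_lev hd g1 P c2 c3
    have s2 : (g ∪ P.image Prod.fst).card ≤ d + 1 + J :=
      (card_union_le _ _).trans (add_le_add g1.le (card_image_le.trans c1.le))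
    rw [P2_fst]
    refine (hC n p p0 (p1.trans m1) (le_trans (by gcongr) m2.le) _ _ _ _ (by omega)
      (by rw [e1, c1]; omega) e2 fun M hM => e3 _ hM).trans ?_
    rw [c1]
    gcongr
    exact le_abs_self C

end Pool.Agent.MP_8f9e6e_pr.J

end

section

/-! Few extensions of a ridge are touched with a late face. -/

open Finset Filter

namespace Pool.Agent.MP_8f9e6e_pr.J

variable {d : ℕ}

/-- The base data of a family of extensions of a ridge. -/
def i4B {n : ℕ} (r : Fc n) (z u o : ℕ → Fin n) (t : ℕ) : Base n :=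
  ⟨r ∪ (range t).image z, ∅, fun _ => .A, t, fun i => insert (z i) r, u, o, some .D⟩

/-- Its shape. -/
def i4S {n : ℕ} (d : ℕ) (r : Fc n) (z : ℕ → Fin n) (t : ℕ) :
    Finset (Fin n) × Multiset (Tk n d) :=
  (r ∪ (range t).image z, (range t).val.map fun i => (insert (z i) r, Ty.pr .D))

theorem i4_shape {n : ℕ} [NeZero n] (r : Fc n) (z u o : ℕ → Fin n) (t : ℕ) :
    (i4B r z u o t).shape d = i4S d r z t := by
  classical
  have e : (range t).filter (i4B r z u o t).Start = range t :=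
    filter_true_of_mem fun i _ => .inl (by simp [i4B])
  have e' : (i4B r z u o t).ns = t := rfl
  rw [Base.shape, e', i4S, Prod.mk.injEq]
  refine ⟨rfl, ?_⟩
  convert_to _ + Multiset.map _ ((range t).filter (i4B r z u o t).Start).val = _
  rw [e]
  simp [i4B, Base.sT]

theorem i4_lev {n : ℕ} (hd : 2 ≤ d) {C : Fc n → Prop} {r : Fc n} (hr : r.card = d)
    (z : ℕ → Fin n) (t : ℕ) (h : ∀ i < t, z i ∉ r ∧ C (insert (z i) r) ∧ ∀ k < i, z k ≠ z i) :
    Lev d C (r ∪ (range t).image z) t ∅ := by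
  induction t with
  | zero =>
    have hn : 2 ≤ n := by
      have := card_le_univ r
      rw [Fintype.card_fin] at this
      omega
    simpa using Lev.free (C := C) (by omega) hn (.nil (d := d)) r
  | succ t ih =>
    obtain ⟨h1, h2, h3⟩ := h t t.lt_succ_self
    have := Lev.root hd (ih fun i hi => h i (hi.trans t.lt_succ_self))
      (f := insert (z t) r) (by rw [card_insert_of_notMem h1, hr]) h2 (mem_insert_self _ _) (by
        simp only [mem_union, mem_image, mem_range, not_or, not_exists, not_and]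
        exact ⟨h1, h3⟩)
    convert this using 1
    ext v
    simp only [range_add_one, image_insert, mem_union, mem_insert]
    tauto

theorem i4_ok {n : ℕ} [NeZero n] (hd : 2 ≤ d) (c : Cx n d) {r : Fc n} (hr : r.card = d)
    (z u o : ℕ → Fin n) {t : ℕ} (h : ∀ i < t, z i ∉ r ∧ ¬ c.H (insert (z i) r) ∧
      u i ∉ insert (z i) r ∧ o i ∈ insert (z i) r ∧
      (∀ y ∈ slt (insert (z i) r) (u i) (o i), c.H y) ∧
      (∃ y ∈ slt (insert (z i) r) (u i) (o i), ¬ Rd d c.S c.r0 y) ∧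
      ∀ k < i, z k ≠ z i ∧ insert (u k) (insert (z k) r) ≠ insert (u i) (insert (z i) r)) :
    (i4B r z u o t).Ok c ((range t).image fun i => insert (z i) r) t ∅ 0 := by
  refine ⟨by simp [i4B], fun i hi => ?_, by simp, fun M hM => ?_, ?_⟩
  · obtain ⟨h1, h2, h3, h4, h5, ⟨y, hy, h6⟩, h7⟩ := h i hi
    refine ⟨(card_insert_of_notMem h1).trans (by rw [hr]), h2, h3, h4, h5, by simp [i4B],
      fun _ => ⟨y, hy, (h5 y hy).contr, h6⟩, fun _ => ?_, by simp, fun k hk => (h7 k hk).2⟩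
    exact insert_subset (mem_union_right _ (mem_image_of_mem z (mem_range.2 hi)))
      subset_union_left
  · have m : ∀ i < t, bd d (insert (z i) r) ∈ M := fun i hi =>
      hM _ (mem_union_right _ (mem_image_of_mem _ (mem_range.2 hi)))
    exact ⟨i4_lev hd hr z t fun i hi => ⟨(h i hi).1, m i hi,
      fun k hk => ((h i hi).2.2.2.2.2.2 k hk).1⟩, fun i hi _ => m i hi⟩
  · simpa [i4B] using card_image_le.trans (card_range t).le

theorem i4_pre {n : ℕ} [NeZero n] (c : Cx n d) {x : ℝ} (hx : c.SzB x) (r : Fc n)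
    (z u o : ℕ → Fin n) {t : ℕ} (h : ∀ i < t, (insert (z i) r).card = d + 1 ∧
      u i ∉ insert (z i) r ∧ o i ∈ insert (z i) r ∧
      ∀ y ∈ slt (insert (z i) r) (u i) (o i), c.H y) (w : ℕ) :
    ∃ t' ≤ t, (c.sz (i4B r z u o t').Rs + t' : ℝ) ≤ w + d * |x| ∧
      (t' = t ∨ w ≤ c.sz (i4B r z u o t').Rs + t') := by
  classical
  have e : ∃ s, s = t ∨ w ≤ c.sz (i4B r z u o s).Rs + s := ⟨t, .inl rfl⟩
  have z0 : c.sz (i4B r z u o 0).Rs = 0 := by simp [Cx.sz, cd, Base.Rs, i4B, Cx.Fr]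
  have h1 : Nat.find e ≤ t := Nat.find_min' e (.inl rfl)
  have h3 := Nat.find_spec e
  rcases Nat.eq_zero_or_pos (Nat.find e) with c0 | c0
  · rw [c0] at h1 h3
    refine ⟨0, h1, ?_, h3⟩
    rw [z0, Nat.cast_zero, add_zero]
    positivity
  obtain ⟨s, hs⟩ : ∃ s, Nat.find e = s + 1 := Nat.exists_eq_succ_of_ne_zero c0.ne'
  have h2 := Nat.find_min e (show s < Nat.find e by omega)
  rw [hs] at h1 h3
  refine ⟨s + 1, h1, ?_, h3⟩
  have h4 : c.sz (i4B r z u o (s + 1)).Rs ≤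
      c.sz (i4B r z u o s).Rs + c.sz (slt (insert (z s) r) (u s) (o s)) := by
    refine (c.sz_mono ?_).trans (c.sz_union _ _)
    simp only [Base.Rs, i4B, empty_union, range_add_one, biUnion_insert]
    rw [union_comm]
    exact Subset.rfl
  have h5 : (c.sz (slt (insert (z s) r) (u s) (o s)) : ℝ) ≤ d * |x| := by
    have := Cx.sz_le (c := c) (a := |x|) fun y hy =>
      (hx y ((h s h1).2.2.2 y hy)).trans (le_abs_self x)
    rwa [slt_card (h s h1).1 (h s h1).2.1 (h s h1).2.2.1] at this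
  have h6 : ((c.sz (i4B r z u o (s + 1)).Rs + (s + 1) : ℕ) : ℝ) ≤
      (w + c.sz (slt (insert (z s) r) (u s) (o s)) : ℕ) := by
    exact_mod_cast (by omega)
  push_cast at h6 ⊢
  linarith only [h5, h6]

theorem i4_half {n : ℕ} (r : Fc n) (G : Finset (Fin n)) (u : Fin n → Fin n)
    (h : ∀ v ∈ G, v ∉ r) : ∃ G' ⊆ G, G.card ≤ 2 * G'.card ∧ ∀ v ∈ G', ∀ v' ∈ G', v ≠ v' →
      insert (u v) (insert v r) ≠ insert (u v') (insert v' r) := by
  classical
  refine ⟨G.filter fun v => ¬ (u v ∈ G ∧ u (u v) = v ∧ u v < v), filter_subset _ _, ?_,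
    fun v hv v' hv' hne e => ?_⟩
  · have h1 := card_filter_add_card_filter_not (s := G) fun v => u v ∈ G ∧ u (u v) = v ∧ u v < v
    have h2 : (G.filter fun v => u v ∈ G ∧ u (u v) = v ∧ u v < v).card ≤
        (G.filter fun v => ¬ (u v ∈ G ∧ u (u v) = v ∧ u v < v)).card := by
      refine card_le_card_of_injOn u (fun v hv => ?_) fun v hv v' hv' e => ?_
      · obtain ⟨-, a1, a2, a3⟩ := mem_filter.1 (mem_coe.1 hv)
        refine mem_coe.2 (mem_filter.2 ⟨a1, fun c => ?_⟩)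
        rw [a2] at c
        exact absurd c.2.2 a3.not_gt
      · rw [← (mem_filter.1 (mem_coe.1 hv)).2.2.1, e, (mem_filter.1 (mem_coe.1 hv')).2.2.1]
    omega
  · obtain ⟨a1, a2⟩ := mem_filter.1 hv
    obtain ⟨b1, b2⟩ := mem_filter.1 hv'
    have e1 : v = u v' := by
      have : v ∈ insert (u v') (insert v' r) := e ▸ by simp
      simpa [hne, h v a1] using this
    have e2 : v' = u v := by
      have : v' ∈ insert (u v) (insert v r) := e ▸ by simp
      simpa [hne.symm, h v' b1] using this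
    rcases lt_or_gt_of_ne hne with l | l
    · exact b2 (by rw [← e1, ← e2]; exact ⟨a1, rfl, l⟩)
    · exact a2 (by rw [← e2, ← e1]; exact ⟨b1, rfl, l⟩)

theorem i4_tup {n : ℕ} (G : Finset (Fin n)) {J a : ℕ} (h : a + J ≤ G.card) :
    ∃ I : Finset (Fin J → Fin n), a ^ J ≤ I.card ∧
      ∀ z ∈ I, (∀ i, z i ∈ G) ∧ Function.Injective z := by
  classical
  refine ⟨_, card_tuples G (fun v => {v}) ∅ (ζ := 1) (D := 1) (by simp) (fun v => ?_)
    (by simpa using h), fun z hz => ?_⟩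
  · refine card_le_one.2 fun a ha b hb => ?_
    rw [← mem_singleton.1 (mem_filter.1 ha).2, ← mem_singleton.1 (mem_filter.1 hb).2]
  · obtain ⟨a1, -, a2⟩ := mem_filter.1 hz
    refine ⟨Fintype.mem_piFinset.1 a1, fun i k e => by_contra fun c => ?_⟩
    simpa [e] using a2 i k c

theorem i4_pos (hd : 2 ≤ d) {W : Wt} {r0 Om : ℕ} {c3 kc : ℝ} (hW : W.GF d r0 Om c3 kc)
    (hO : 1 ≤ Om) : 0 < W.xP d r0 Om .D := by
  have e := hW.hε.1
  have k := hW.hc.2.2
  have a : 0 < W.SG Om := sum_pos (fun i _ => by linarith only [hW.G0 i, e, k])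
    (nonempty_range_iff.2 (by omega))
  have b : 0 ≤ W.Xb (r0 + 1) := sum_nonneg fun i _ => by linarith only [hW.y0 i, e]
  have c : 0 < W.nu := mul_pos (by linarith only [hW.hθ.1]) (by linarith)
  have f : (0 : ℝ) < d := by exact_mod_cast (by omega)
  simp only [Wt.xP, Wt.xC]
  positivity

theorem inst4 (hd : 2 ≤ d) {W : Wt} {r0 Q : ℕ} {c3 kc : ℝ} (hW : W.GF d r0 (Q * (d + 1)) c3 kc)
    (hQ : 2 * Cb d ≤ Q) (C : ℝ) (K0 : ℕ) :
    ∀ᶠ n : ℕ in atTop, ∀ [NeZero n] (p1 p2 : ℝ) (a2 : ℕ), Fit n d W kc p1 p2 a2 →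
      P2 p1 p2 (fun S1 R : Finset (Face n d) => ∃ ρ, (cx r0 Q ρ (S1 ∪ R)).World c3 a2 ∧
        (cx r0 Q ρ (S1 ∪ R)).SzB (C * Real.log n) ∧
        ¬ SB d r0 (cx r0 Q ρ (S1 ∪ R)).hh (st (S1 ∪ R))
          (8 * W.xP d r0 (Q * (d + 1)) .D * n)) ≤ 1 / (n : ℝ) ^ K0 := by
  classical
  have cb : 0 < Cb d := by unfold Cb; positivity
  have x0 := i4_pos hd hW (Nat.mul_pos (by omega) d.succ_pos)
  obtain ⟨x, hx⟩ : ∃ x, x = W.xP d r0 (Q * (d + 1)) .D := ⟨_, rfl⟩
  rw [← hx] at x0 ⊢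
  obtain ⟨m, hm⟩ := pow_unbounded_of_one_lt (2 * (1 + x) / x) hW.hθ.1
  obtain ⟨A, hA⟩ : ∃ A : ℝ, A = 2 * (d + K0 + 2) := ⟨_, rfl⟩
  have A0 : 0 < A := hA ▸ by positivity
  filter_upwards [enc hd hW hQ (d + (m + 1) * (A + 1) + d * |C|), eventually_ge_atTop 3,
    (Real.isLittleO_log_id_atTop.comp_tendsto tendsto_natCast_atTop_atTop).bound
      (show 0 < 2 * x / (A + 2) by positivity)] with n hE n3 n4 _ p1 p2 a2 hF
  have n0 : (0 : ℝ) < n := by exact_mod_cast (by omega)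
  have l1 : 1 ≤ Real.log n := by
    rw [Real.le_log_iff_exp_le n0]
    exact Real.exp_one_lt_three.le.trans (by exact_mod_cast n3)
  obtain ⟨J, hJ⟩ : ∃ J, J = ⌈A * Real.log n⌉₊ := ⟨_, rfl⟩
  have J2 : (J : ℝ) ≤ (A + 1) * Real.log n := by
    have := (Nat.ceil_lt_add_one (show 0 ≤ A * Real.log n by positivity)).le
    rw [← hJ] at this
    linarith only [l1, this]
  have J3 : (n : ℝ) ^ (d + K0 + 2) ≤ 2 ^ J := by
    rw [← Real.log_le_log_iff (by positivity) (by positivity), Real.log_pow, Real.log_pow]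
    have h1 : A * Real.log n ≤ J := hJ ▸ Nat.le_ceil _
    have h2 := Real.log_two_gt_d9
    have h3 : (0 : ℝ) ≤ J := J.cast_nonneg
    rw [hA] at h1
    push_cast
    nlinarith only [h1, h2]
  have J4 : (J : ℝ) + 1 ≤ 2 * x * n := by
    simp only [Function.comp, id, Real.norm_eq_abs, abs_of_pos n0,
      abs_of_nonneg (zero_le_one.trans l1)] at n4
    rw [div_mul_eq_mul_div, le_div_iff₀ (by positivity)] at n4
    linarith only [l1, J2, n4]
  obtain ⟨K, hK⟩ : ∃ K, K = ⌊(d + (m + 1) * (A + 1) + d * |C|) * Real.log n⌋₊ := ⟨_, rfl⟩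
  have K1 : (K : ℝ) ≤ (d + (m + 1) * (A + 1) + d * |C|) * Real.log n :=
    hK ▸ Nat.floor_le (by positivity)
  have q0 := hF.1
  have q1 : p1 ≤ 1 := by linarith only [hF.2.1]
  have q2 := hF.2.2.1
  have q3 : p2 ≤ 1 := by linarith only [hF.2.2.2.1]
  obtain ⟨E, hE'⟩ : ∃ E : Fc n → (Fin J → Fin n) → ℕ → Finset (Face n d) → Finset (Face n d) → Prop,
      E = fun r z t S1 R => ∃ (c : Cx n d) (B : Base n) (Vi : Finset (Fc n))
      (δ : ℕ) (T : Finset (Finset (Fin n))),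
      c.S = st (S1 ∪ R) ∧ c.r0 = r0 ∧ c.Q = Q ∧ c.World c3 a2 ∧ B.Ok c Vi δ T 0 ∧
      B.V0.card + B.rt.card + c.sz B.Rs + B.ns ≤ K ∧
      (if t ≤ J then m * J else 0) ≤ c.sz B.Rs + B.ns ∧ B.eD c ≤ 0 ∧
      B.nsib ≤ 0 ∧ (Cb d * (4 * 0)) ^ (d + 2) ≤ B.nold ∧
      B.shape d = i4S d r (fz z) (min t J) := ⟨_, rfl⟩
  have b1 : ∀ r z t, P2 p1 p2 (E r z t) ≤
      2 * x ^ min t J / W.θ ^ (if t ≤ J then m * J else 0) := fun r z t => by
    rw [hE']
    refine (hE p1 p2 a2 hF K _ 0 0 0 _ K1).trans (le_of_eq ?_)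
    simp only [Wt.wS, i4S, range_val, Wt.wT, Multiset.map_map, Function.comp_apply, Multiset.map_const', Multiset.card_range, Multiset.prod_replicate, pow_zero, mul_one, pow_ite, hx]
  have b2 : ∀ r z, P2 p1 p2 (fun S1 R => ∃ t ∈ range (J + 2), E r z t S1 R) ≤ 4 * x ^ J :=
    fun r z => by
    refine (P2_union q0 q1 q2 q3 (range (J + 2)) (E r z) fun _ _ h => h).trans
      ((sum_le_sum fun t _ => b1 r z t).trans ?_)
    rw [sum_range_succ, if_neg (by omega), min_eq_right (by omega), pow_zero, div_one]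
    have : ∑ t ∈ range (J + 1), 2 * x ^ min t J / W.θ ^ (if t ≤ J then m * J else 0) ≤
        (range (J + 1)).card • (2 * (x / 2) ^ J) := sum_le_card_nsmul _ _ _ fun t ht => by
      have ht' : t ≤ J := Nat.lt_succ_iff.1 (mem_range.1 ht)
      rw [if_pos ht', min_eq_left ht', pow_mul, div_le_iff₀ (by positivity [hW.hθ.1]), mul_assoc,
        ← mul_pow]
      refine mul_le_mul_of_nonneg_left (((pow_le_pow_left₀ x0.le (by linarith only []) t).trans
        (pow_le_pow_right₀ (show 1 ≤ 1 + x by linarith only [x0]) ht')).trans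
        (pow_le_pow_left₀ (by linarith only [x0]) ?_ J)) zero_le_two
      rw [div_lt_iff₀ x0] at hm
      linarith only [hm]
    rw [card_range, nsmul_eq_mul] at this
    have e : ((J + 1 : ℕ) : ℝ) ≤ 2 ^ J := by exact_mod_cast J.lt_two_pow_self
    have f := mul_le_mul_of_nonneg_right e (show 0 ≤ 2 * (x / 2) ^ J by positivity)
    have g : 2 ^ J * (2 * (x / 2) ^ J) = 2 * x ^ J := by
      rw [div_pow]
      field_simp
    linarith only [this, f, g]
  have b3 : ∀ r : Fc n, r.card = d → P2 p1 p2 (fun S1 R : Finset (Face n d) => ∃ ρ,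
      (cx r0 Q ρ (S1 ∪ R)).World c3 a2 ∧ (cx r0 Q ρ (S1 ∪ R)).SzB (C * Real.log n) ∧
      8 * x * n < cd (fun v => v ∉ r ∧ ¬ (cx r0 Q ρ (S1 ∪ R)).H (insert v r) ∧
        ∃ u ∉ insert v r, ∃ o ∈ insert v r,
          (∀ y ∈ slt (insert v r) u o, (cx r0 Q ρ (S1 ∪ R)).H y) ∧
          ∃ y ∈ slt (insert v r) u o, ¬ Rd d (st (S1 ∪ R)) r0 y)) ≤ 4 / 2 ^ J := fun r hr => by
    have := P2_count (a := (2 * x * n) ^ J) q0 q1 q2 q3 (univ : Finset (Fin J → Fin n))
      (fun z S1 R => ∃ t ∈ range (J + 2), E r z t S1 R)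
      (E := fun S1 R : Finset (Face n d) => ∃ ρ,
      (cx r0 Q ρ (S1 ∪ R)).World c3 a2 ∧ (cx r0 Q ρ (S1 ∪ R)).SzB (C * Real.log n) ∧
      8 * x * n < cd (fun v => v ∉ r ∧ ¬ (cx r0 Q ρ (S1 ∪ R)).H (insert v r) ∧
        ∃ u ∉ insert v r, ∃ o ∈ insert v r,
          (∀ y ∈ slt (insert v r) u o, (cx r0 Q ρ (S1 ∪ R)).H y) ∧
          ∃ y ∈ slt (insert v r) u o, ¬ Rd d (st (S1 ∪ R)) r0 y)) ?_
    · have s := sum_le_card_nsmul univ _ _ fun z _ => b2 r z
      rw [card_univ, Fintype.card_pi_const, Fintype.card_fin, nsmul_eq_mul] at s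
      have s' := this.trans s
      rw [← le_div_iff₀' (by positivity)] at s'
      refine s'.trans (le_of_eq ?_)
      push_cast
      rw [mul_pow, mul_pow]
      field_simp
    rintro S1 R ⟨ρ, h1, h2, h3⟩
    obtain ⟨c, hc⟩ : ∃ c, c = cx r0 Q ρ (S1 ∪ R) := ⟨_, rfl⟩
    have c1 : c.S = st (S1 ∪ R) := hc ▸ rfl
    have c2 : c.r0 = r0 := hc ▸ rfl
    have c3' : c.Q = Q := hc ▸ rfl
    rw [← hc, ← c1] at h3
    rw [← hc] at h1 h2
    rw [cd] at h3
    obtain ⟨G, hG, h4⟩ : ∃ G : Finset (Fin n), (∀ v ∈ G, v ∉ r ∧ ¬ c.H (insert v r) ∧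
        ∃ u ∉ insert v r, ∃ o ∈ insert v r, (∀ y ∈ slt (insert v r) u o, c.H y) ∧
          ∃ y ∈ slt (insert v r) u o, ¬ Rd d c.S r0 y) ∧ 8 * x * n < G.card :=
      ⟨_, fun v hv => (@mem_filter _ _ (fun _ => Classical.propDecidable _) _ _).1 hv |>.2, h3⟩
    have h5 : ∀ v, ∃ u o : Fin n, v ∈ G → u ∉ insert v r ∧ o ∈ insert v r ∧
        (∀ y ∈ slt (insert v r) u o, c.H y) ∧
          ∃ y ∈ slt (insert v r) u o, ¬ Rd d c.S c.r0 y := fun v => by
      by_cases hv : v ∈ G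
      · obtain ⟨-, -, u, hu, o, ho, e⟩ := hG v hv
        exact ⟨u, o, fun _ => ⟨hu, ho, c2 ▸ e⟩⟩
      · exact ⟨0, 0, fun c => absurd c hv⟩
    choose u o huo using h5
    obtain ⟨G', g1, g2, g3⟩ := i4_half r G u fun v hv => (hG v hv).1
    have g4 : ⌈2 * x * n⌉₊ + J ≤ G'.card := by
      have e1 := (Nat.ceil_lt_add_one (show 0 ≤ 2 * x * n by positivity)).le
      have e2 : (G.card : ℝ) ≤ 2 * G'.card := by exact_mod_cast g2
      have : ((⌈2 * x * n⌉₊ + J : ℕ) : ℝ) ≤ G'.card := by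
        push_cast
        linarith only [J4, h4, e1, e2]
      exact_mod_cast this
    obtain ⟨I, i1, i2⟩ := i4_tup G' g4
    refine ⟨I, subset_univ _, (pow_le_pow_left₀ (by positivity) (Nat.le_ceil _) J).trans
      (by exact_mod_cast i1), fun z hz => ?_⟩
    obtain ⟨z1, z2⟩ := i2 z hz
    have z3 : ∀ i < J, fz z i ∈ G' := fun i hi => by simpa [fz, hi] using z1 _
    have z4 : ∀ i < J, ∀ k < i, fz z k ≠ fz z i := fun i hi k hk e => by
      simp only [fz, hi, hk.trans hi, dif_pos] at e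
      exact hk.ne (congrArg Fin.val (z2 e))
    have ok : ∀ t ≤ J, (i4B r (fz z) (fun i => u (fz z i)) (fun i => o (fz z i)) t).Ok c
        ((range t).image fun i => insert (fz z i) r) t ∅ 0 := fun t ht =>
      i4_ok hd c hr _ _ _ fun i hi => by
        have hi' := hi.trans_le ht
        have a1 := g1 (z3 i hi')
        obtain ⟨a2, a3, a4, a5⟩ := huo _ a1
        exact ⟨(hG _ a1).1, (hG _ a1).2.1, a2, a3, a4, a5, fun k hk => ⟨z4 i hi' k hk,
          g3 _ (z3 k (hk.trans hi')) _ (z3 i hi') (z4 i hi' k hk)⟩⟩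
    obtain ⟨t, s1, s2, s3⟩ := i4_pre c h2 r (fz z) (fun i => u (fz z i)) (fun i => o (fz z i))
      (t := J) (fun i hi => ⟨((ok J le_rfl).site i hi).1, ((ok J le_rfl).site i hi).2.2.1,
        ((ok J le_rfl).site i hi).2.2.2.1, ((ok J le_rfl).site i hi).2.2.2.2.1⟩) (m * J)
    obtain ⟨B, hB⟩ : ∃ B, B = i4B r (fz z) (fun i => u (fz z i)) (fun i => o (fz z i)) t :=
      ⟨_, rfl⟩
    have sK : B.V0.card + B.rt.card + c.sz B.Rs + B.ns ≤ K := by
      have v1 : B.V0.card ≤ d + J := by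
        rw [hB]
        refine (card_union_le _ _).trans (Nat.add_le_add hr.le (card_image_le.trans ?_))
        rwa [card_range]
      have v2 : (B.V0.card : ℝ) ≤ d + J := by exact_mod_cast v1
      have v3 : B.rt.card = 0 := hB ▸ rfl
      have v4 : B.ns = t := hB ▸ rfl
      rw [hK, v3, v4]
      refine Nat.le_floor ?_
      rw [← hB, abs_mul, abs_of_nonneg (zero_le_one.trans l1)] at s2
      have v5 : (0 : ℝ) ≤ d := d.cast_nonneg
      have v6 := mul_le_mul_of_nonneg_left J2 (show (0 : ℝ) ≤ m + 1 by positivity)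
      have v7 := mul_le_mul_of_nonneg_left l1 v5
      push_cast at s2 ⊢
      linarith only [v2, v6, v7, s2]
    have e1 : B.eD c ≤ 0 := by simp [hB, Base.eD, cn, i4B]
    have e2 : B.nsib ≤ 0 := by simp [hB, Base.nsib, cn, i4B]
    have e3 : B.shape d = i4S d r (fz z) t := hB ▸ i4_shape _ _ _ _ _
    have e4 := ok t s1
    rw [← hB] at e4 s3
    rw [hE']
    rcases s3 with rfl | s3
    · exact ⟨t + 1, by simp, c, B, _, _, _, c1, c2, c3', h1, e4, sK, by simp, e1, e2, by simp,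
        by rw [e3, min_eq_right (by omega)]⟩
    · exact ⟨t, mem_range.2 (by omega), c, B, _, _, _, c1, c2, c3', h1, e4, sK,
        by rwa [if_pos s1, show B.ns = t from hB ▸ rfl], e1, e2, by simp,
        by rw [e3, min_eq_left s1]⟩
  refine (P2_union q0 q1 q2 q3 (powersetCard d (univ : Finset (Fin n))) _ ?_).trans
    ((sum_le_card_nsmul _ _ _ fun r hr => b3 r (mem_powersetCard.1 hr).2).trans ?_)
  · rintro S1 R ⟨ρ, h1, h2, h3⟩
    simp only [SB, not_forall, not_le] at h3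
    obtain ⟨r, hr, h3⟩ := h3
    exact ⟨r, mem_powersetCard.2 ⟨subset_univ _, hr⟩, ρ, h1, h2, h3⟩
  · have e : ((powersetCard d (univ : Finset (Fin n))).card : ℝ) ≤ (n : ℝ) ^ d := by
      rw [card_powersetCard, card_univ, Fintype.card_fin]
      exact_mod_cast Nat.choose_le_pow _ _
    have f : (3 : ℝ) ≤ n := by exact_mod_cast n3
    rw [nsmul_eq_mul]
    refine (mul_le_mul_of_nonneg_right e (by positivity)).trans ?_
    rw [← mul_div_assoc, div_le_div_iff₀ (by positivity) (by positivity), one_mul]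
    refine le_trans ?_ J3
    rw [pow_add, pow_add, mul_right_comm]
    exact mul_le_mul_of_nonneg_left (by nlinarith only [f]) (by positivity)

end Pool.Agent.MP_8f9e6e_pr.J

end

section

/-! The late faces avoid the bad sites. -/

open Finset Filter

namespace Pool.Agent.MP_8f9e6e_pr.J

variable {d : ℕ}

/-- Disjoint late faces as roots. -/
def i5B {n : ℕ} [NeZero n] (R : Finset (Fc n)) : Base n :=
  ⟨R.biUnion id, R, fun _ => .D, 0, fun _ => ∅, fun _ => 0, fun _ => 0, none⟩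

theorem i5_lev {n : ℕ} (hd : 2 ≤ d) {C : Fc n → Prop} (R : Finset (Fc n))
    (h : ∀ x ∈ R, x.card = d + 1 ∧ C x ∧ ∀ y ∈ R, x ≠ y → Disjoint x y) :
    Lev d C (R.biUnion id) R.card ∅ := by
  induction R using Finset.induction_on with
  | empty => exact .nil
  | insert x R hx ih =>
    obtain ⟨h1, h2, h3⟩ := h x (mem_insert_self _ _)
    obtain ⟨u, hu⟩ := card_pos.1 (show 0 < x.card by omega)
    have := (ih fun y hy => ⟨(h y (mem_insert_of_mem hy)).1, (h y (mem_insert_of_mem hy)).2.1,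
      fun z hz => (h y (mem_insert_of_mem hy)).2.2 z (mem_insert_of_mem hz)⟩).root hd h1 h2 hu
      fun c => by
        obtain ⟨y, hy, e⟩ := mem_biUnion.1 c
        exact disjoint_left.1 (h3 y (mem_insert_of_mem hy) fun a => hx (a ▸ hy)) hu e
    rwa [card_insert_of_notMem hx, biUnion_insert, union_comm]

theorem i5_wS {n : ℕ} [NeZero n] (hd : 2 ≤ d) {W : Wt} {r0 Om : ℕ} {c3 kc : ℝ}
    (hW : W.GF d r0 Om c3 kc) (R : Finset (Fc n)) :
    W.wS r0 Om ((i5B R).shape d) ≤ mm n d ^ R.card := by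
  have m0 := (mm_spec (d := d) (by omega) (NeZero.one_le (n := n))).1.le
  have x0 : 0 ≤ W.SG Om := sum_nonneg fun j _ => (add_nonneg hW.hε.1.le hW.hc.2.2).trans (hW.G0 j)
  have x1 : 0 ≤ W.Xb (r0 + 1) := sum_nonneg fun j _ => hW.hε.1.le.trans (hW.y0 j)
  have x2 : W.Xb (r0 + 1) + W.SG Om ≤ 1 := hW.x1.2
  have e : W.wS r0 Om ((i5B R).shape d) = (W.SG Om * mm n d) ^ R.card := by
    have e0 : ∀ i, @filter _ (i5B R).Start i (range (i5B R).ns) = ∅ := fun _ => rfl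
    rw [Wt.wS, Base.shape, e0]
    simp [i5B, Wt.wT, Wt.xC]
  rw [e]
  exact pow_le_pow_left₀ (mul_nonneg x0 m0) (mul_le_of_le_one_left m0 (by linarith only [x1, x2])) _

theorem i5_xh {n r0 s : ℕ} {S S' : Set (Fc n)} (h : S ⊆ S') (e : Fc n) :
    Xh d r0 s S e ≤ Xh d r0 s S' e := by
  have a : ∀ g, Heavy d r0 s S g → Heavy d r0 s S' g := fun g hg => le_trans hg
    (cd_mono fun z => Relation.ReflTransGen.mono (fun _ _ b => Adj.mono b fun _ => rd_up h) g z)
  refine cd_mono ?_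
  rintro u ⟨h1, w, h2, w', h3, h4, h5, h6, h7⟩
  exact ⟨h1, w, h2, w', h3, h4, a _ h5, a _ h6, fun x b1 b2 b3 => h (h7 x b1 b2 b3)⟩

theorem i5_tup {n J a : ℕ} (G : Finset (Fc n)) (hG : ∀ x ∈ G, x.card = d + 1)
    (h : a + J * (d + 1) * n ^ d ≤ G.card) : ∃ I : Finset (Fin J → Fc n), a ^ J ≤ I.card ∧
      ∀ t ∈ I, (∀ i, t i ∈ G) ∧ ∀ i k, i ≠ k → Disjoint (t i) (t k) := by
  refine ⟨_, card_tuples G id ∅ (ζ := d + 1) (D := n ^ d) (fun x hx => (hG x hx).le) (fun v => ?_)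
    (by simpa using h), fun t ht => ?_⟩
  · refine (card_le_card_of_injOn (t := powersetCard d univ) (·.erase v) (fun x hx => ?_)
      fun x hx y hy e => ?_).trans ?_
    · obtain ⟨a1, a2⟩ := mem_filter.1 (mem_coe.1 hx)
      refine mem_coe.2 (mem_powersetCard.2 ⟨subset_univ _, ?_⟩)
      exact (card_erase_of_mem (s := x) a2).trans (by rw [hG x a1]; rfl)
    · rw [← insert_erase (s := x) (mem_filter.1 (mem_coe.1 hx)).2,
        ← insert_erase (s := y) (mem_filter.1 (mem_coe.1 hy)).2]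
      exact congrArg _ e
    · rw [card_powersetCard, card_univ, Fintype.card_fin]
      exact Nat.choose_le_pow n d
  · obtain ⟨a1, -, a2⟩ := mem_filter.1 ht
    exact ⟨Fintype.mem_piFinset.1 a1, a2⟩

theorem i5_ev (hd : 2 ≤ d) {A : ℝ} (hA : 0 < A) : ∀ᶠ n : ℕ in atTop, A * n ^ d ≤ MM n d ∧
    A * Real.log n * (n ^ 2 * (n : ℝ) ^ (1 / 2 : ℝ)) ≤ n.choose (d + 1) * √(mm n d) := by
  obtain ⟨F, hF⟩ : ∃ F : ℝ, F = 2 ^ (d + 1) * (d + 1).factorial := ⟨_, rfl⟩
  have F0 : 0 < F := hF ▸ by positivity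
  filter_upwards [eventually_ge_atTop (2 * d), ((isLittleO_log_rpow_atTop
    (show (0 : ℝ) < 1 / 4 by norm_num)).comp_tendsto tendsto_natCast_atTop_atTop).bound
      (show 0 < 1 / (A * F) by positivity)] with n h1 h2
  have n1 : (3 : ℝ) ≤ n := by exact_mod_cast (by omega)
  have l1 : 1 ≤ Real.log n := by
    rw [Real.le_log_iff_exp_le (by linarith only [n1])]
    exact Real.exp_one_lt_three.le.trans n1
  obtain ⟨m0, m1, m2⟩ := mm_spec (d := d) (by omega) (show 1 ≤ n by omega)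
  have c := choose_ge (n := n) (d := d) h1
  rw [← hF] at c
  have z0 := Real.sqrt_pos.2 m0
  have z2 := Real.sq_sqrt m0.le
  have y0 : 0 < (n : ℝ) ^ (1 / 4 : ℝ) := by positivity
  have y2 : (n : ℝ) ^ (1 / 2 : ℝ) = ((n : ℝ) ^ (1 / 4 : ℝ)) ^ 2 := by
    rw [← Real.rpow_natCast, ← Real.rpow_mul (by linarith only [n1])]
    norm_num
  have y4 : (n : ℝ) = ((n : ℝ) ^ (1 / 4 : ℝ)) ^ 4 := by
    rw [← Real.rpow_natCast, ← Real.rpow_mul (by linarith only [n1])]
    norm_num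
  have y1 : 1 ≤ (n : ℝ) ^ (1 / 4 : ℝ) := Real.one_le_rpow (by linarith only [n1]) (by norm_num)
  simp only [Function.comp, Real.norm_eq_abs, abs_of_pos y0,
    abs_of_nonneg (zero_le_one.trans l1)] at h2
  rw [div_mul_eq_mul_div, le_div_iff₀ (by positivity), one_mul] at h2
  rw [y2, MM]
  generalize (n : ℝ) ^ (1 / 4 : ℝ) = y at *
  generalize √(mm n d) = z at *
  have e1 : 1 ≤ y * z := by
    refine le_of_pow_le_pow_left₀ four_ne_zero (by positivity) ?_
    rw [one_pow, mul_pow, ← y4, show z ^ 4 = (z ^ 2) ^ 2 by ring, z2, ← m2]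
    exact mul_le_mul_of_nonneg_left (pow_le_pow_of_le_one m0.le m1 hd) (by linarith only [n1])
  have e2 : A * F ≤ y := le_trans (le_mul_of_one_le_left (by positivity) l1) h2
  constructor <;> refine le_of_mul_le_mul_left ?_ F0
  · calc _ = A * F * n ^ d := by ring
      _ ≤ y * n ^ d * (y * (y * z) ^ 2) := le_trans (by gcongr)
          (le_mul_of_one_le_right (by positivity) (one_le_mul_of_one_le_of_one_le y1
            (one_le_pow₀ e1)))
      _ = n ^ (d + 1) * mm n d := by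
          rw [pow_succ (n : ℝ) d, ← z2]
          linear_combination -n ^ d * z ^ 2 * y4
      _ ≤ _ := by rw [← mul_assoc]; gcongr
  · calc _ = Real.log n * (A * F) * (n ^ 2 * y ^ 2) := by ring
      _ ≤ y * (n ^ 2 * y ^ 2) * (y * z) := le_trans (by gcongr)
          (le_mul_of_one_le_right (by positivity) e1)
      _ = n ^ 3 * z := by linear_combination -n ^ 2 * z * y4
      _ ≤ n ^ (d + 1) * z := by gcongr <;> linarith only [n1, hd]
      _ ≤ _ := by rw [← mul_assoc]; gcongr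

theorem i5_num {n N z k P : ℝ} {J K0 : ℕ} (hz : 0 < z) (h : n * (z ^ 2) ^ d = 1) (hN : 0 < N)
    (hk : 0 < k) (hJ : J = 2 * d * (K0 + 1)) (hn : 2 * (8 / k) ^ J ≤ n)
    (hP : (k * (N * z ^ 2) / 4) ^ J * P ≤ 2 * ((2 * (N * z)) ^ J * (z ^ 2) ^ J)) :
    P ≤ 1 / n ^ K0 := by
  have n0 : 0 < n := lt_of_lt_of_le (by positivity) hn
  have e : n ^ (K0 + 1) * z ^ J = 1 := by rw [hJ, pow_mul, pow_mul, ← mul_pow, h, one_pow]
  refine le_of_mul_le_mul_left (hP.trans ?_) (by positivity)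
  calc _ = (k * (N * z ^ 2) / 4) ^ J * (z ^ J * (2 * (8 / k) ^ J)) := by
        rw [mul_left_comm (z ^ J), mul_left_comm _ (2 : ℝ), ← mul_pow, ← mul_pow, ← mul_pow]
        congr 2
        field_simp
        norm_num
    _ ≤ (k * (N * z ^ 2) / 4) ^ J * (z ^ J * n) := by gcongr
    _ = _ := by
        congr 1
        rw [eq_div_iff (by positivity)]
        linear_combination e

theorem inst5 (hd : 2 ≤ d) {W : Wt} {r0 Q : ℕ} {c3 kc : ℝ} (hW : W.GF d r0 (Q * (d + 1)) c3 kc)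
    (hQ : 2 * Cb d ≤ Q) (C : ℝ) (K0 sm : ℕ) {εD k : ℝ} (hε : 0 < εD)
    (hε' : εD * (r0 + sm) ≤ 1 / 2) (hk : 0 < k) :
    ∀ᶠ n : ℕ in atTop, ∀ [NeZero n] (p1 p2 : ℝ) (a2 : ℕ), Fit n d W kc p1 p2 a2 →
      ∀ (a1 s : ℕ) (x : ℝ), k * MM n d ≤ a1 + 1 → s ≤ sm →
      P2 p1 p2 (fun S1 R : Finset (Face n d) => ∃ ρ, (cx r0 Q ρ (S1 ∪ R)).World c3 a2 ∧
        (cx r0 Q ρ (S1 ∪ R)).SzB (C * Real.log n) ∧
        (∀ e, DD d r0 (st (S1 ∪ R)) a1 e → (cx r0 Q ρ (S1 ∪ R)).H e) ∧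
        Deg d (Rd d (st S1) r0) ((n : ℝ) ^ εD) ∧
        (cd (fun e : Fc n => e.card = d + 1 ∧ (Xh d r0 s (st S1) e : ℝ) < x) : ℝ) ≤
          n.choose (d + 1) * √(mm n d) ∧
        a1 < 2 * cd fun e => DD d r0 (st (S1 ∪ R)) a1 e ∧ (Xh d r0 s (st S1) e : ℝ) < x) ≤
        1 / (n : ℝ) ^ K0 := by
  classical
  obtain ⟨J, hJ⟩ : ∃ J, J = 2 * d * (K0 + 1) := ⟨_, rfl⟩
  obtain ⟨C1, hC1⟩ := enc_sum hd hW hQ
  obtain ⟨C', hC'⟩ : ∃ C' : ℝ, C' = J * (d + 2) + J * |C| := ⟨_, rfl⟩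
  have C0 : 0 ≤ C' := hC' ▸ by positivity
  filter_upwards [hC1 C', eventually_ge_atTop (2 * d), i5_ev hd
    (show (0 : ℝ) < 4 * (J * (d + 1) + 2) / k by positivity), i5_ev hd
    (show (0 : ℝ) < 2 * (C1 * C') * (d + 1) ^ 2 * (d + 2) ^ (r0 + sm) + 1 by positivity),
    tendsto_natCast_atTop_atTop.eventually_ge_atTop (2 * (8 / k) ^ J : ℝ)]
    with n hE n2 ⟨v1, _⟩ ⟨_, v2⟩ n5 _ p1 p2 a2 hF a1 s x ha hs
  have n1 : (3 : ℝ) ≤ n := by exact_mod_cast (by omega)
  have l1 : 1 ≤ Real.log n := by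
    rw [Real.le_log_iff_exp_le (by linarith only [n1])]
    exact Real.exp_one_lt_three.le.trans n1
  obtain ⟨m0, m1, m2⟩ := mm_spec (d := d) (by omega) (show 1 ≤ n by omega)
  have z0 := Real.sqrt_pos.2 m0
  have z2 := Real.sq_sqrt m0.le
  have N0 : (0 : ℝ) < n.choose (d + 1) := by exact_mod_cast Nat.choose_pos (by omega)
  have q0 := hF.1
  have q1 : p1 ≤ 1 := by linarith only [hF.2.1]
  obtain ⟨K, hK⟩ : ∃ K, K = ⌊C' * Real.log n⌋₊ := ⟨_, rfl⟩
  have K1 : (K : ℝ) ≤ C' * Real.log n := hK ▸ Nat.floor_le (by positivity)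
  obtain ⟨Bd, hBd⟩ : ∃ Bd : Finset (Face n d) → Finset (Fc n), ∀ A e,
      e ∈ Bd A ↔ e.card = d + 1 ∧ (Xh d r0 s (st A) e : ℝ) < x :=
    ⟨fun A => univ.filter fun e => e.card = d + 1 ∧ (Xh d r0 s (st A) e : ℝ) < x, by simp⟩
  obtain ⟨y, hy⟩ : ∃ y : ℝ, y = n.choose (d + 1) * √(mm n d) := ⟨_, rfl⟩
  have y0 : 0 < y := hy ▸ by positivity
  refine i5_num (d := d) z0 (by rw [z2, m2]) N0 hk hJ n5 ?_
  rw [z2, ← hy]
  rw [← hy] at v2
  refine (P2_count q0 q1 hF.2.2.1 (by linarith only [hF.2.2.2.1]) (univ : Finset (Fin J → Fc n))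
    (fun t => Ev r0 Q a2 c3 K (C1 * K) 0 0 0 0 fun A =>
      if ((∀ i, t i ∈ Bd A) ∧ ((Bd A).card : ℝ) ≤ 2 * y) ∧ Function.Injective t then
        {(i5B (univ.image t)).shape d} else ∅) ?_).trans
    ((sum_le_sum fun t _ => hE p1 p2 a2 hF K 0 0 0 0 _ (fun A =>
      if (∀ i, t i ∈ Bd A) ∧ ((Bd A).card : ℝ) ≤ 2 * y then mm n d ^ J else 0) K1
        fun A => ?_).trans ?_)
  · rintro S1 R ⟨ρ, h1, h2, h3, h4, h5, h6⟩
    obtain ⟨G, hG, h7⟩ : ∃ G : Finset (Fc n), (∀ e ∈ G, DD d r0 (st (S1 ∪ R)) a1 e ∧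
        (Xh d r0 s (st S1) e : ℝ) < x) ∧ a1 < 2 * G.card :=
      ⟨_, fun e he => (@mem_filter _ _ (fun _ => Classical.propDecidable _) _ _).1 he |>.2, h6⟩
    have g1 : ∀ e ∈ G, e.card = d + 1 := fun e he =>
      contr_card (fun _ => st_card) (hG e he).1.1.1
    have M0 : 0 ≤ k * MM n d / 4 := by rw [MM]; positivity
    have g2 : ⌈k * MM n d / 4⌉₊ + J * (d + 1) * n ^ d ≤ G.card := by
      have e1 := (Nat.ceil_lt_add_one M0).le
      have e2 : (a1 : ℝ) + 1 ≤ 2 * G.card := by exact_mod_cast h7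
      have e3 : (1 : ℝ) ≤ n ^ d := one_le_pow₀ (by linarith only [n1])
      rw [div_mul_eq_mul_div, div_le_iff₀ hk] at v1
      have : ((⌈k * MM n d / 4⌉₊ + J * (d + 1) * n ^ d : ℕ) : ℝ) ≤ G.card := by
        push_cast
        linarith only [v1, ha, e1, e2, e3]
      exact_mod_cast this
    obtain ⟨I, i1, i2⟩ := i5_tup G g1 g2
    refine ⟨I, subset_univ _, (pow_le_pow_left₀ M0 (Nat.le_ceil _) J).trans
      (by exact_mod_cast i1), fun t ht => ?_⟩
    obtain ⟨t1, t2⟩ := i2 t ht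
    have t3 : Function.Injective t := fun i j e => by_contra fun c => by
      have := t2 i j c
      rw [e, disjoint_self, bot_eq_empty] at this
      simpa [this] using g1 _ (t1 j)
    have t4 : ∀ e ∈ univ.image t, e ∈ G := forall_mem_image.2 fun i _ => t1 i
    have eR : (i5B (univ.image t)).Rs = univ.image t := by simp only [Base.Rs, i5B, range_zero, biUnion_empty, union_empty]
    have eC : (univ.image t).card = J := by rw [card_image_of_injective _ t3]; simp only [card_univ, Fintype.card_fin]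
    refine ⟨cx r0 Q ρ (S1 ∪ R), i5B (univ.image t), ∅, (univ.image t).card, ∅, rfl, rfl, rfl, h1,
      ⟨fun e he => ⟨subset_biUnion_of_mem id he, h3 e (hG e (t4 e he)).1, nofun,
        fun _ => (hG e (t4 e he)).1.1⟩, nofun, fun _ _ _ => notMem_empty _,
        fun M hM => ⟨i5_lev hd _ fun e he => ⟨g1 e (t4 e he), hM _ (mem_union_left _ (eR.ge he)),
          fun e' he' c => ?_⟩, nofun⟩, le_rfl⟩,
      hK ▸ Nat.le_floor ?_, Nat.zero_le _, by simp only [Base.eD, cn, i5B, true_and, range_zero, filter_empty, card_empty, Std.le_refl],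
      by simp only [Base.nsib, cn, i5B, and_true, true_and, range_zero, filter_empty, card_empty, Std.le_refl], by simp only [mul_zero, ne_eq, Nat.add_eq_zero_iff, OfNat.ofNat_ne_zero, and_false, not_false_eq_true, zero_pow, zero_le], fun F hF' => ?_⟩
    · obtain ⟨i, -, rfl⟩ := mem_image.1 he
      obtain ⟨j, -, rfl⟩ := mem_image.1 he'
      exact t2 i j fun a => c (a ▸ rfl)
    · have s1 := Cx.sz_le fun e he => (h2 e (h3 e (hG e (t4 e he)).1)).trans
        (mul_le_mul_of_nonneg_right (le_abs_self C) (by linarith only [l1]))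
      have s2 : (((univ.image t).biUnion id).card : ℝ) ≤ J * (d + 1) := by
        exact_mod_cast eC ▸ card_biUnion_le_card_mul _ id _ fun e he => (g1 e (t4 e he)).le
      have s5 := le_mul_of_one_le_right (show (0 : ℝ) ≤ J * (d + 2) by positivity) l1
      rw [eR, hC']
      rw [eC] at s1
      simp only [i5B, eC]
      push_cast
      linarith only [s1, s2, s5]
    have u1 : st (S1 \ F) ⊆ st S1 := st_mono sdiff_subset
    have u2 := aff (s := s) hd (by positivity) h4 F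
    have u3 : (Bd (S1 \ F)).card ≤ _ := (cd_mem _).ge.trans ((cd_mono fun e he => ?_).trans
      (cd_or (fun e : Fc n => e.card = d + 1 ∧ (Xh d r0 s (st S1) e : ℝ) < x)
        fun e : Fc n => e.card = d + 1 ∧ Xh d r0 s (st (S1 \ F)) e < Xh d r0 s (st S1) e))
    · have u4 : (F.card : ℝ) ≤ C1 * C' * Real.log n := by
        rw [mul_assoc]
        exact le_trans (by exact_mod_cast hF') (mul_le_mul_of_nonneg_left K1 C1.cast_nonneg)
      have u5 : 1 ≤ (n : ℝ) ^ εD := Real.one_le_rpow (by linarith only [n1]) hε.le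
      have u6 : (1 + (d + 1) * (n : ℝ) ^ εD) ^ (r0 + s) ≤
          (d + 2) ^ (r0 + sm) * (n : ℝ) ^ (1 / 2 : ℝ) := by
        refine (pow_le_pow_right₀ (le_add_of_nonneg_right (by positivity))
          (Nat.add_le_add_left hs _)).trans ((pow_le_pow_left₀ (by positivity)
            (show _ ≤ (d + 2) * (n : ℝ) ^ εD by linarith only [u5]) _).trans ?_)
        rw [mul_pow, ← Real.rpow_natCast (_ ^ εD), ← Real.rpow_mul (by linarith only [n1])]
        push_cast
        gcongr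
        linarith only [n1]
      have u7 : 2 * F.card * ((d + 1) * n) ^ 2 * (1 + (d + 1) * (n : ℝ) ^ εD) ^ (r0 + s) ≤ y := by
        refine le_trans ?_ v2
        calc _ ≤ 2 * (C1 * C' * Real.log n) * ((d + 1) * n) ^ 2 *
              ((d + 2) ^ (r0 + sm) * (n : ℝ) ^ (1 / 2 : ℝ)) := by gcongr
          _ = 2 * (C1 * C') * (d + 1) ^ 2 * (d + 2) ^ (r0 + sm) * Real.log n *
              (n ^ 2 * (n : ℝ) ^ (1 / 2 : ℝ)) := by ring
          _ ≤ _ := by gcongr; linarith only []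
      have u8 := (Nat.cast_le (α := ℝ)).2 u3
      rw [Nat.cast_add] at u8
      beta_reduce
      rw [if_pos ⟨⟨fun i => (hBd _ _).2 ⟨g1 _ (t1 i), lt_of_le_of_lt
        (Nat.cast_le.2 (i5_xh u1 _)) (hG _ (t1 i)).2⟩, by linarith only [h5, u2, u7, u8]⟩, t3⟩]
      exact mem_singleton_self _
    · obtain ⟨b1, b2⟩ := (hBd _ _).1 he
      by_cases c : Xh d r0 s (st (S1 \ F)) e < Xh d r0 s (st S1) e
      · exact .inr ⟨b1, c⟩
      · exact .inl ⟨b1, lt_of_le_of_lt (Nat.cast_le.2 (not_lt.1 c)) b2⟩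
  · by_cases c : (∀ i, t i ∈ Bd A) ∧ ((Bd A).card : ℝ) ≤ 2 * y
    · rw [if_pos c]
      split_ifs with c'
      · have := i5_wS hd hW (univ.image t)
        rw [card_image_of_injective _ c'.2, card_univ, Fintype.card_fin] at this
        rwa [sum_singleton]
      · rw [sum_empty]
        positivity
    · rw [if_neg c, if_neg fun a => c a.1, sum_empty]
  · simp only [pow_zero, mul_one, div_one]
    rw [← mul_sum, sum_comm]
    refine mul_le_mul_of_nonneg_left ?_ zero_le_two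
    rw [← one_mul ((2 * y) ^ J * _), ← sum_wt (α := Face n d) p1, sum_mul]
    refine sum_le_sum fun A _ => ?_
    rw [← mul_sum]
    refine mul_le_mul_of_nonneg_left ?_ (wt_nonneg q0 q1 A)
    by_cases c : ((Bd A).card : ℝ) ≤ 2 * y
    · rw [← sum_filter, sum_const, nsmul_eq_mul]
      refine mul_le_mul_of_nonneg_right ?_ (by positivity)
      refine le_trans (Nat.cast_le.2 (card_le_card
        (t := Fintype.piFinset fun _ : Fin J => Bd A) fun t ht =>
          Fintype.mem_piFinset.2 (mem_filter.1 ht).2.1)) ?_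
      rw [Fintype.card_piFinset, prod_const, card_univ, Fintype.card_fin, Nat.cast_pow]
      exact pow_le_pow_left₀ (by positivity) c J
    · simp only [c, and_false, if_false, sum_const_zero]
      positivity

end Pool.Agent.MP_8f9e6e_pr.J

end

section

/-! No dense cluster of sites. -/

open Finset Filter

namespace Pool.Agent.MP_8f9e6e_pr.J

variable {d : ℕ}

theorem i6_cn {t t' : ℕ} {P P' : ℕ → Prop} (ht : t' ≤ t) (h : ∀ i < t', P' i → P i) :
    cn t' P' ≤ cn t P := by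
  classical
  unfold cn
  refine card_le_card fun i hi => ?_
  simp only [mem_filter, mem_range] at hi ⊢
  exact ⟨hi.1.trans_le ht, h i hi.1 hi.2⟩

theorem i6_par {n : ℕ} {g : Fc n} {u o u' o' : Fin n} (hu : u ∉ g) (ho : o ∈ g)
    (h : par g u o = par g u' o') : slt g u o = slt g u' o' := by
  have e : u = u' := by
    have : u ∈ par g u' o' := h ▸ mem_par.2 (.inl rfl)
    exact (mem_par.1 this).resolve_right fun c => hu c.2
  subst e
  rw [par_inj hu ho h]

/-- The base data of a pattern of sites. -/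
def i6B {n : ℕ} (a : ℕ → Fc n) (u o : ℕ → Fin n) (t : ℕ) : Base n :=
  ⟨a 0, ∅, fun _ => .A, t, a, u, o, none⟩

theorem i6_base {n : ℕ} [NeZero n] (hd : 2 ≤ d) (c : Cx n d) {t : ℕ} {a b : ℕ → Fc n}
    (h : ∀ i < t, ¬ Contr d c.S (a i) ∧ Adj d (Rd d c.S c.hh) (a i) (b i) ∧
      (a i = a 0 ∨ ∃ k < i, a i = b k) ∧ ∀ k < i, a k ∪ b k ≠ a i ∪ b i) :
    ∃ u o : ℕ → Fin n,
      cn t (fun i => b i = a 0 ∨ ∃ k < i, b i = b k) ≤ (i6B a u o t).nold ∧
      ∀ t' ≤ t, 1 ≤ t' → (i6B a u o t').Ok c {a 0} 1 ∅ 0 ∧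
        (i6B a u o t').eD c ≤ cn t (fun i => ¬ Adj d (Rd d c.S c.r0) (a i) (b i)) ∧
        (i6B a u o t').nsib ≤ cn t (fun i => ∃ k < i, a k = a i) ∧
        (i6B a u o t').shape d = (a 0, {(a 0, Ty.P)}) := by
  classical
  have h1 : ∀ i, ∃ u o : Fin n, i < t → u ∉ a i ∧ o ∈ a i ∧ b i = par (a i) u o ∧
      ∀ y ∈ slt (a i) u o, Rd d c.S c.hh y := fun i => by
    by_cases hi : i < t
    · obtain ⟨-, u, hu, o, ho, e⟩ := (h i hi).2.1
      exact ⟨u, o, fun _ => ⟨hu, ho, e⟩⟩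
    · exact ⟨0, 0, fun c => absurd c hi⟩
  choose u o huo using h1
  have cell : ∀ i < t, a i ∪ b i = insert (u i) (a i) := fun i hi => by
    rw [(huo i hi).2.2.1]
    ext v
    simp only [mem_union, mem_par, mem_insert]
    tauto
  have sub : ∀ i < t, ∀ v ∈ a i, v ∈ a 0 ∨ ∃ k < i, u k = v := fun i => by
    induction i using Nat.strong_induction_on with
    | _ i ih =>
      intro hi v hv
      rcases (h i hi).2.2.1 with e | ⟨k, hk, e⟩
      · exact .inl (e ▸ hv)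
      · rw [e, (huo k (hk.trans hi)).2.2.1] at hv
        rcases mem_par.1 hv with e' | e'
        · exact .inr ⟨k, hk, e'.symm⟩
        · exact (ih k hk (hk.trans hi) v e'.2).imp_right fun ⟨j, hj, f⟩ => ⟨j, hj.trans hk, f⟩
  have start : ∀ t' ≤ t, ∀ i < t', (i6B a u o t').Start i → i = 0 := fun t' ht i hi hs => by
    by_contra c0
    have hs' := hs.resolve_left fun c => c rfl
    rcases (h i (hi.trans_le ht)).2.2.1 with e | ⟨k, hk, e⟩
    · exact (hs' 0 (Nat.pos_of_ne_zero c0)).1 e.symm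
    · exact (hs' k hk).2 ((huo k ((hk.trans hi).trans_le ht)).2.2.1.symm.trans e.symm)
  refine ⟨u, o, i6_cn le_rfl fun i hi hb => ?_, fun t' ht h1 => ⟨⟨by simp [i6B], fun i hi => ?_,
    by simp, fun M hM => ?_, by simp [i6B]⟩, i6_cn ht fun i hi hb hA => ?_,
    i6_cn ht fun i _ hb => hb.2, ?_⟩⟩
  · have hu : u i ∈ b i := (huo i hi).2.2.1 ▸ mem_par.2 (.inl rfl)
    rcases hb with e | ⟨k, hk, e⟩
    · exact .inl (show u i ∈ a 0 from e ▸ hu)
    · rw [e, (huo k (hk.trans hi)).2.2.1] at hu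
      rcases mem_par.1 hu with e' | e'
      · exact .inr ⟨k, hk, e'.symm⟩
      · exact (sub k (hk.trans hi) _ e'.2).imp_right fun ⟨j, hj, f⟩ => ⟨j, hj.trans hk, f⟩
  · have hi' : i < t := hi.trans_le ht
    refine ⟨(h i hi').2.1.1, fun c => (h i hi').1 c.contr, (huo i hi').1, (huo i hi').2.1,
      (huo i hi').2.2.2, by simp [i6B], by simp [i6B], fun hs => ?_, by simp, fun k hk => ?_⟩
    · rw [start t' ht i hi hs]
      exact Subset.rfl
    · have := (h i hi').2.2.2 k hk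
      rwa [cell k (hk.trans hi'), cell i hi'] at this
  · have c0 : (a 0).card = d + 1 := (h 0 (h1.trans ht)).2.1.1
    have m0 : bd d (a 0) ∈ M := hM _ (by simp)
    obtain ⟨v, hv⟩ := card_pos.1 (show 0 < (a 0).card by omega)
    refine ⟨?_, fun i hi hs => by rw [start t' ht i hi hs]; exact m0⟩
    simpa [i6B] using Lev.root (C := fun x => bd d x ∈ M) hd .nil c0 m0 hv (notMem_empty _)
  · obtain ⟨y, hy, hD⟩ := hb.2
    obtain ⟨-, u', -, o', -, e, f⟩ := hA
    have hi' : i < t := hi.trans_le ht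
    refine hD.2 (f y ?_)
    rw [← i6_par (huo i hi').1 (huo i hi').2.1 ((huo i hi').2.2.1.symm.trans e)]
    exact hy
  · have e : (range t').filter (i6B a u o t').Start = {0} := by
      ext i
      simp only [mem_filter, mem_range, mem_singleton]
      exact ⟨fun c => start t' ht i c.1 c.2, fun c => c ▸ ⟨h1, .inr fun k hk => absurd hk k.not_lt_zero⟩⟩
    have e' : (i6B a u o t').ns = t' := rfl
    rw [Base.shape, e']
    rw [Prod.mk.injEq]
    refine ⟨rfl, ?_⟩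
    convert_to _ + Multiset.map _ ((range t').filter (i6B a u o t').Start).val = _
    rw [e]
    simp [i6B, Base.sT]

theorem i6_pre {n : ℕ} [NeZero n] (c : Cx n d) {x : ℝ} (hx : c.SzB x) (a : ℕ → Fc n)
    (u o : ℕ → Fin n) {t : ℕ} (h : ∀ i < t, (a i).card = d + 1 ∧ u i ∉ a i ∧ o i ∈ a i ∧
      ∀ y ∈ slt (a i) (u i) (o i), c.H y) (ht : 1 ≤ t) {w : ℕ} (hw : 1 ≤ w) :
    ∃ t' ≤ t, 1 ≤ t' ∧ (c.sz (i6B a u o t').Rs + t' : ℝ) ≤ w + d * |x| ∧
      (t' = t ∨ w ≤ c.sz (i6B a u o t').Rs + t') := by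
  classical
  have e : ∃ s, s = t ∨ w ≤ c.sz (i6B a u o s).Rs + s := ⟨t, .inl rfl⟩
  have z : c.sz (i6B a u o 0).Rs = 0 := by simp [Cx.sz, cd, Base.Rs, i6B, Cx.Fr]
  have h1 : Nat.find e ≤ t := Nat.find_min' e (.inl rfl)
  obtain ⟨s, hs⟩ : ∃ s, Nat.find e = s + 1 := Nat.exists_eq_succ_of_ne_zero fun c0 => by
    have := Nat.find_spec e
    rw [c0, z] at this
    omega
  have h2 := Nat.find_min e (show s < Nat.find e by omega)
  have h3 := Nat.find_spec e
  rw [hs] at h1 h3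
  refine ⟨s + 1, h1, by omega, ?_, h3⟩
  have h4 : c.sz (i6B a u o (s + 1)).Rs ≤
      c.sz (i6B a u o s).Rs + c.sz (slt (a s) (u s) (o s)) := by
    refine (c.sz_mono ?_).trans (c.sz_union _ _)
    simp only [Base.Rs, i6B, empty_union, range_add_one, biUnion_insert]
    rw [union_comm]
    exact Subset.rfl
  have h5 : (c.sz (slt (a s) (u s) (o s)) : ℝ) ≤ d * |x| := by
    have := Cx.sz_le (c := c) (a := |x|) fun y hy =>
      (hx y ((h s h1).2.2.2 y hy)).trans (le_abs_self x)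
    rwa [slt_card (h s h1).1 (h s h1).2.1 (h s h1).2.2.1] at this
  have h6 : ((c.sz (i6B a u o (s + 1)).Rs + (s + 1) : ℕ) : ℝ) ≤
      (w + c.sz (slt (a s) (u s) (o s)) : ℕ) := by
    exact_mod_cast (by omega)
  push_cast at h6 ⊢
  linarith only [h5, h6]

theorem inst6 (hd : 2 ≤ d) (K0 : ℕ) : ∃ b0 : ℕ, ∀ (W : Wt) (r0 Q : ℕ) (c3 kc : ℝ),
    W.GF d r0 (Q * (d + 1)) c3 kc → 2 * Cb d ≤ Q → ∃ cL : ℝ, 0 < cL ∧ ∀ C : ℝ,
    ∀ᶠ n : ℕ in atTop, ∀ [NeZero n] (p1 p2 : ℝ) (a2 : ℕ), Fit n d W kc p1 p2 a2 →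
      ∀ e0 : ℕ, (e0 : ℝ) ≤ cL * Real.log n →
      P2 p1 p2 (fun S1 R : Finset (Face n d) => ∃ ρ, (cx r0 Q ρ (S1 ∪ R)).World c3 a2 ∧
        (cx r0 Q ρ (S1 ∪ R)).SzB (C * Real.log n) ∧
        ¬ NDC d r0 (cx r0 Q ρ (S1 ∪ R)).hh (st (S1 ∪ R)) (3 * b0) e0 b0) ≤ 1 / (n : ℝ) ^ K0 := by
  classical
  obtain ⟨N, hN⟩ : ∃ N, N = K0 + 1 + 1 + (d + 1) := ⟨_, rfl⟩
  obtain ⟨b0, hb⟩ : ∃ b0, b0 = (Cb d * (4 * (d * N))) ^ (d + 2) := ⟨_, rfl⟩
  have b1 : 1 ≤ b0 := hb ▸ Nat.pow_pos (Nat.mul_pos (by unfold Cb; positivity)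
    (Nat.mul_pos (by omega) (Nat.mul_pos (by omega) (by omega))))
  refine ⟨b0, fun W r0 Q c3 kc hW hQ => ?_⟩
  have k0 : Real.log W.κ ≤ 0 := Real.log_nonpos hW.hκ.1.le hW.hκ.2
  have t0 : 0 < Real.log W.θ := Real.log_pos hW.hθ.1
  have ep : 0 < W.ε ^ (3 * b0) := pow_pos hW.hε.1 _
  have wp : 0 < W.WP := one_pos.trans_le hW.wp.1
  refine ⟨1 / (1 - Real.log W.κ), one_div_pos.2 (by linarith only [k0]), fun C => ?_⟩
  obtain ⟨A, hA⟩ : ∃ A : ℝ, A = N / Real.log W.θ := ⟨_, rfl⟩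
  have A0 : 0 < A := hA ▸ div_pos (by exact_mod_cast (by omega)) t0
  filter_upwards [enc hd hW hQ (A + d * |C| + d + 2), eventually_ge_atTop 3,
    tendsto_natCast_atTop_atTop.eventually_ge_atTop (4 * W.WP / W.ε ^ (3 * b0))]
    with n hE n3 n4 _ p1 p2 a2 hF e0 he
  have n0 : (0 : ℝ) < n := by exact_mod_cast (by omega)
  have l1 : 1 ≤ Real.log n := by
    rw [Real.le_log_iff_exp_le n0]
    exact Real.exp_one_lt_three.le.trans (by exact_mod_cast n3)
  obtain ⟨w, hw⟩ : ∃ w, w = ⌈A * Real.log n⌉₊ := ⟨_, rfl⟩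
  have w1 : 1 ≤ w := hw ▸ Nat.ceil_pos.2 (by positivity)
  have w2 : (w : ℝ) ≤ A * Real.log n + 1 := hw ▸ (Nat.ceil_lt_add_one (by positivity)).le
  have w3 : (n : ℝ) ^ N ≤ W.θ ^ w := by
    rw [← Real.log_le_log_iff (by positivity) (pow_pos (by linarith only [hW.hθ.1]) _), Real.log_pow,
      Real.log_pow]
    have := mul_le_mul_of_nonneg_right (hw ▸ Nat.le_ceil (A * Real.log n) : _ ≤ (w : ℝ)) t0.le
    rw [hA] at this
    refine le_trans (le_of_eq ?_) this
    field_simp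
  have k1 : 1 / (n : ℝ) ≤ W.κ ^ e0 := by
    rw [← Real.log_le_log_iff (by positivity) (pow_pos hW.hκ.1 _), Real.log_pow, one_div,
      Real.log_inv]
    rw [one_div, inv_mul_eq_div, le_div_iff₀ (by linarith only [k0])] at he
    have : (0 : ℝ) ≤ e0 := e0.cast_nonneg
    linarith only [he]
  obtain ⟨m0, -, m1⟩ := mm_spec (n := n) (d := d) (by omega) (by omega)
  have m2 : mm n d ^ (d * N) = 1 / (n : ℝ) ^ N := by
    rw [pow_mul, eq_div_iff (by positivity), ← mul_pow, mul_comm, m1, one_pow]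
  obtain ⟨K, hK⟩ : ∃ K, K = ⌊(A + d * |C| + d + 2) * Real.log n⌋₊ := ⟨_, rfl⟩
  have K1 : (K : ℝ) ≤ (A + d * |C| + d + 2) * Real.log n := hK ▸ Nat.floor_le (by positivity)
  refine (P2_union hF.1 (by linarith only [hF.2.1]) hF.2.2.1 (by linarith only [hF.2.2.2.1])
    (powersetCard (d + 1) (univ : Finset (Fin n)) ×ˢ ({(w, 0), (0, d * N)} : Finset (ℕ × ℕ)))
    (fun z (S1 R : Finset (Face n d)) => ∃ (c : Cx n d) (B : Base n) (Vi : Finset (Fc n))
      (δ : ℕ) (T : Finset (Finset (Fin n))),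
      c.S = st (S1 ∪ R) ∧ c.r0 = r0 ∧ c.Q = Q ∧ c.World c3 a2 ∧ B.Ok c Vi δ T 0 ∧
      B.V0.card + B.rt.card + c.sz B.Rs + B.ns ≤ K ∧ z.2.1 ≤ c.sz B.Rs + B.ns ∧ B.eD c ≤ e0 ∧
      B.nsib ≤ 3 * b0 ∧ (Cb d * (4 * z.2.2)) ^ (d + 2) ≤ B.nold ∧
      B.shape d = (z.1, {(z.1, Ty.P)})) ?_).trans ?_
  · rintro S1 R ⟨ρ, h1, h2, h3⟩
    obtain ⟨t, a, b, h4, h5, h6, h7⟩ := not_not.1 h3
    have t1 : 1 ≤ t := Nat.pos_of_ne_zero fun c => by
      rw [c] at h7
      simp only [cn, range_zero, filter_empty, card_empty] at h7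
      omega
    obtain ⟨u, o, h8, h9⟩ := i6_base hd (cx r0 Q ρ (S1 ∪ R)) h4
    have ok := (h9 t le_rfl t1).1
    obtain ⟨t', s1, s2, s3, s4⟩ := i6_pre _ h2 a u o (fun i hi => ⟨(ok.site i hi).1,
      (ok.site i hi).2.2.1, (ok.site i hi).2.2.2.1, (ok.site i hi).2.2.2.2.1⟩) t1 w1
    obtain ⟨q1, q2, q3, q4⟩ := h9 t' s1 s2
    have c0 : (a 0).card = d + 1 := (h4 0 t1).2.1.1
    have sK : (i6B a u o t').V0.card + (i6B a u o t').rt.card +
        (cx r0 Q ρ (S1 ∪ R)).sz (i6B a u o t').Rs + (i6B a u o t').ns ≤ K := by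
      rw [hK]
      refine Nat.le_floor ?_
      change (((a 0).card + (∅ : Finset (Fc n)).card + _ + t' : ℕ) : ℝ) ≤ _
      rw [c0, card_empty]
      rw [abs_mul, abs_of_nonneg (zero_le_one.trans l1)] at s3
      have : (0 : ℝ) ≤ d := d.cast_nonneg
      push_cast
      nlinarith only [l1, w2, s3]
    rcases s4 with rfl | s4
    · exact ⟨(a 0, (0, d * N)), by simp [c0], _, _, _, _, _, rfl, rfl, rfl, h1, q1, sK,
        Nat.zero_le _, q2.trans h6, q3.trans h5, hb ▸ h7.trans h8, q4⟩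
    · exact ⟨(a 0, (w, 0)), by simp [c0], _, _, _, _, _, rfl, rfl, rfl, h1, q1, sK, s4,
        q2.trans h6, q3.trans h5, by simp, q4⟩
  · refine (sum_le_card_nsmul _ _ (2 * W.WP * (1 / (n : ℝ) ^ N) / (1 / n * W.ε ^ (3 * b0)))
      fun z hz => (hE p1 p2 a2 hF K z.2.1 e0 (3 * b0) z.2.2 _ K1).trans ?_).trans ?_
    · have e : W.wS (d := d) r0 (Q * (d + 1)) (z.1, {(z.1, Ty.P)}) = W.WP := by
        simp [Wt.wS, Wt.wT]
      have f : mm n d ^ z.2.2 / W.θ ^ z.2.1 ≤ 1 / (n : ℝ) ^ N := by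
        have := (mem_product.1 hz).2
        simp only [mem_insert, mem_singleton] at this
        rcases this with f | f <;> rw [f]
        · exact div_le_div₀ zero_le_one (by simp) (by positivity) w3
        · simp [m2]
      have g : 0 < W.θ ^ z.2.1 := pow_pos (by linarith only [hW.hθ.1]) _
      rw [e, mul_assoc (W.θ ^ _), ← div_div, mul_div_assoc (2 * W.WP)]
      gcongr
    · have e : ((powersetCard (d + 1) (univ : Finset (Fin n)) ×ˢ
          ({(w, 0), (0, d * N)} : Finset (ℕ × ℕ))).card : ℝ) ≤ (n : ℝ) ^ (d + 1) * 2 := by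
        rw [card_product, card_powersetCard, card_univ, Fintype.card_fin]
        exact_mod_cast Nat.mul_le_mul (Nat.choose_le_pow _ _) card_le_two
      rw [nsmul_eq_mul]
      refine (mul_le_mul_of_nonneg_right e (by positivity)).trans ?_
      rw [div_le_iff₀ ep] at n4
      rw [hN, le_div_iff₀ (by positivity)]
      refine le_trans (le_of_eq (b := 4 * W.WP / (n * W.ε ^ (3 * b0))) ?_)
        ((div_le_one (by positivity)).2 n4)
      field_simp
      ring

end Pool.Agent.MP_8f9e6e_pr.J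

end

section

/-! Ball growth in an abstract graph. -/

open Finset Filter

namespace Pool.Agent.MP_8f9e6e_pr.J

/-- Walks of a given length. -/
def bg1Rn {α : Type} (A : α → α → Prop) (a : α) : ℕ → α → Prop
  | 0, x => x = a
  | n + 1, x => ∃ y, bg1Rn A a n y ∧ A y x

theorem bg1_dist {α : Type} (A : α → α → Prop) : ∃ D : α → α → ℕ, ∀ a x,
    Relation.ReflTransGen A a x → x ≠ a → ∃ y, A y x ∧ D a y < D a x := by
  classical
  refine ⟨fun a x => if h : ∃ n, bg1Rn A a n x then Nat.find h else 0, fun a x h hx => ?_⟩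
  have h1 : ∃ n, bg1Rn A a n x := by
    clear hx
    induction h with
    | refl => exact ⟨0, rfl⟩
    | tail _ hb ih => obtain ⟨n, hn⟩ := ih; exact ⟨n + 1, _, hn, hb⟩
  have h2 := Nat.find_spec h1
  cases hn : Nat.find h1 with
  | zero => rw [hn] at h2; exact absurd h2 hx
  | succ n =>
    rw [hn] at h2
    obtain ⟨y, hy, hA⟩ := h2
    refine ⟨y, hA, ?_⟩
    have h3 : ∃ n, bg1Rn A a n y := ⟨n, hy⟩
    simp only [dif_pos h1, dif_pos h3, hn]
    exact Nat.lt_succ_of_le (Nat.find_min' h3 hy)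

theorem bg1_sort {α : Type} [DecidableEq α] (T : Finset α) (dep : α → ℕ) (r : α) :
    ∃ y : ℕ → α, (∀ i < T.card, y i ∈ T) ∧ (∀ x ∈ T, ∃ i < T.card, y i = x) ∧
      (∀ i < T.card, ∀ j < T.card, y i = y j → i = j) ∧
      ∀ j < T.card, ∀ i ≤ j, dep (y i) ≤ dep (y j) := by
  set e := T.equivFin.symm with he
  set σ := Tuple.sort (fun i : Fin T.card => dep (e i)) with hσ
  have hm := Tuple.monotone_sort (fun i : Fin T.card => dep (e i))
  refine ⟨fun i => if h : i < T.card then (e (σ ⟨i, h⟩) : α) else r, fun i hi => ?_,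
    fun x hx => ?_, fun i hi j hj h => ?_, fun j hj i hi => ?_⟩
  · simp only [dif_pos hi]; exact (e _).2
  · refine ⟨(σ.symm (e.symm ⟨x, hx⟩) : Fin T.card), (σ.symm (e.symm ⟨x, hx⟩)).2, ?_⟩
    simp only [dif_pos (σ.symm (e.symm ⟨x, hx⟩)).2, Fin.eta, Equiv.apply_symm_apply]
  · simp only [dif_pos hi, dif_pos hj] at h
    have := σ.injective (e.injective (Subtype.ext h))
    exact congrArg Fin.val this
  · have hi' : i < T.card := lt_of_le_of_lt hi hj
    simp only [dif_pos hi', dif_pos hj]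
    exact hm (show (⟨i, hi'⟩ : Fin T.card) ≤ ⟨j, hj⟩ from hi)

open Classical in
theorem bg1_anc {α : Type} [DecidableEq α] (A : α → α → Prop) (W : α → Prop) (r : α) (p : α → α)
    (dep lev : α → ℕ)
    (hp : ∀ x, W x → x ≠ r → W (p x) ∧ dep (p x) < dep x ∧
      ((A (p x) x ∧ lev (p x) ≤ lev x) ∨ lev (p x) < lev x)) :
    ∀ x, W x → ∃ P : Finset α, x ∈ P ∧ r ∈ P ∧ (∀ y ∈ P, W y) ∧ (∀ y ∈ P, y ≠ r → p y ∈ P) ∧
      (∀ y ∈ P, y = x ∨ ∃ z ∈ P, z ≠ r ∧ y = p z) ∧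
      (P.filter fun y => y ≠ r ∧ ¬ A (p y) y).card ≤ lev x := by
  intro x
  induction hn : dep x using Nat.strong_induction_on generalizing x with
  | _ n ih =>
    intro hx
    by_cases hr : x = r
    · subst hr
      refine ⟨{x}, mem_singleton_self _, mem_singleton_self _, fun y hy => ?_, fun y hy h => ?_,
        fun y hy => Or.inl (mem_singleton.1 hy), ?_⟩
      · rw [mem_singleton.1 hy]; exact hx
      · exact absurd (mem_singleton.1 hy) h
      · rw [filter_singleton]; simp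
    · obtain ⟨h1, h2, h3⟩ := hp x hx hr
      obtain ⟨P, a1, a2, a3, a4, a5, a6⟩ := ih _ (hn ▸ h2) (p x) rfl h1
      refine ⟨insert x P, mem_insert_self _ _, mem_insert_of_mem a2, fun y hy => ?_,
        fun y hy h => ?_, fun y hy => ?_, ?_⟩
      · rcases mem_insert.1 hy with rfl | hy
        exacts [hx, a3 y hy]
      · rcases mem_insert.1 hy with rfl | hy
        exacts [mem_insert_of_mem a1, mem_insert_of_mem (a4 y hy h)]
      · rcases mem_insert.1 hy with rfl | hy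
        · exact Or.inl rfl
        · rcases a5 y hy with rfl | ⟨z, hz, h, rfl⟩
          · exact Or.inr ⟨x, mem_insert_self _ _, hr, rfl⟩
          · exact Or.inr ⟨z, mem_insert_of_mem hz, h, rfl⟩
      · rw [filter_insert]
        split_ifs with h
        · rcases h3 with h3 | h3
          · exact absurd h3.1 h.2
          · exact (card_insert_le _ _).trans (by omega)
        · rcases h3 with h3 | h3
          · exact a6.trans h3.2
          · omega

open Classical in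
theorem bg1_sib {α : Type} [DecidableEq α] (a : ℕ → α) (m : ℕ) :
    ((range m).filter fun i => ∃ k < i, a k = a i).card + ((range m).image a).card ≤ m := by
  have h1 : ((range m).image a).card ≤ ((range m).filter fun i => ¬ ∃ k < i, a k = a i).card := by
    refine le_trans (card_le_card fun x hx => ?_) (card_image_le (f := a))
    obtain ⟨i, hi, rfl⟩ := mem_image.1 hx
    have h : ∃ k, a k = a i := ⟨i, rfl⟩
    refine mem_image.2 ⟨Nat.find h, mem_filter.2 ⟨mem_range.2 ?_, ?_⟩, Nat.find_spec h⟩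
    · exact lt_of_le_of_lt (Nat.find_min' h rfl) (mem_range.1 hi)
    · rintro ⟨k, hk, e⟩
      exact Nat.find_min h hk (e.trans (Nat.find_spec h))
  have h2 := card_filter_add_card_filter_not (s := range m) (fun i => ∃ k < i, a k = a i)
  rw [card_range] at h2
  omega

theorem bg1_cn (m b : ℕ) (P Q : ℕ → Prop) [DecidablePred Q] (h : ∀ i < m, P i → Q i) :
    cn (m + b) P ≤ ((range m).filter Q).card + b := by
  classical
  unfold cn
  refine le_trans (card_le_card (t := (range m).filter Q ∪ Ico m (m + b)) fun i hi => ?_) ?_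
  · rw [mem_filter, mem_range] at hi
    by_cases him : i < m
    · exact mem_union_left _ (mem_filter.2 ⟨mem_range.2 him, h i him hi.2⟩)
    · exact mem_union_right _ (mem_Ico.2 ⟨by omega, hi.1⟩)
  · refine (card_union_le _ _).trans ?_
    rw [Nat.card_Ico]; omega

theorem bg1_pat {α : Type} [DecidableEq α] (A : α → α → Prop) (ED CE : Finset (Sym2 α))
    (W : α → Prop) (r : α) (p : α → α) (dep lev : α → ℕ) (m : ℕ) (hb : 1 ≤ CE.card)
    (hp : ∀ x, W x → x ≠ r → W (p x) ∧ dep (p x) < dep x ∧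
      ((A (p x) x ∧ lev (p x) ≤ lev x) ∨ (s(p x, x) ∈ ED ∧ lev (p x) < lev x)))
    (hl : ∀ x, W x → lev x ≤ m)
    (hC : ∀ x y, s(x, y) ∈ CE → s(x, y) ∈ ED ∧ x ≠ y ∧ W x ∧
      ∀ z, W z → z ≠ r → s(p z, z) ≠ s(x, y)) :
    ∃ (t : ℕ) (a b : ℕ → α),
      (∀ i < t, W (a i) ∧ W (b i) ∧ a i ≠ b i ∧ (A (a i) (b i) ∨ s(a i, b i) ∈ ED) ∧
        (a i = a 0 ∨ ∃ k < i, a i = b k) ∧ ∀ k < i, s(a k, b k) ≠ s(a i, b i)) ∧
      cn t (fun i => ∃ k < i, a k = a i) ≤ 3 * CE.card ∧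
      cn t (fun i => ¬ A (a i) (b i)) ≤ CE.card * (2 * m + 1) ∧
      CE.card ≤ cn t (fun i => b i = a 0 ∨ ∃ k < i, b i = b k) := by
  classical
  have hanc := bg1_anc A W r p dep lev fun x h1 h2 =>
    ⟨(hp x h1 h2).1, (hp x h1 h2).2.1, (hp x h1 h2).2.2.imp id fun h => h.2⟩
  choose! P hP using hanc
  have hs : ∀ e : Sym2 α, ∃ x y, s(x, y) = e := fun e => by
    induction e using Sym2.ind with
    | _ x y => exact ⟨x, y, rfl⟩
  choose f g hfg using hs
  obtain ⟨e0, he0⟩ := card_pos.1 hb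
  obtain ⟨ce, c1, -, c3, -⟩ := bg1_sort CE (fun _ => 0) e0
  have hCf : ∀ e ∈ CE, e ∈ ED ∧ f e ≠ g e ∧ W (f e) ∧ W (g e) ∧
      ∀ z, W z → z ≠ r → s(p z, z) ≠ e := fun e he => by
    have h1 := hC (f e) (g e) (by rw [hfg]; exact he)
    have h2 := hC (g e) (f e) (by rw [Sym2.eq_swap, hfg]; exact he)
    rw [hfg] at h1
    exact ⟨h1.1, h1.2.1, h1.2.2.1, h2.2.2.1, h1.2.2.2⟩
  set Z : Finset α := CE.image f ∪ CE.image g with hZ
  have hZc : Z.card ≤ 2 * CE.card := by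
    have := card_union_le (CE.image f) (CE.image g)
    have := card_image_le (s := CE) (f := f)
    have := card_image_le (s := CE) (f := g)
    rw [hZ]
    omega
  have hZW : ∀ z ∈ Z, W z := fun z hz => by
    rcases mem_union.1 hz with h | h <;> obtain ⟨e, he, rfl⟩ := mem_image.1 h
    exacts [(hCf e he).2.2.1, (hCf e he).2.2.2.1]
  have hfZ : ∀ e ∈ CE, f e ∈ Z := fun e he => mem_union_left _ (mem_image_of_mem _ he)
  have hgZ : ∀ e ∈ CE, g e ∈ Z := fun e he => mem_union_right _ (mem_image_of_mem _ he)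
  set T : Finset α := Z.biUnion P with hT
  have hZT : ∀ z ∈ Z, z ∈ T := fun z hz => mem_biUnion.2 ⟨z, hz, (hP z (hZW z hz)).1⟩
  have hrT : r ∈ T := mem_biUnion.2 ⟨_, hfZ e0 he0, (hP _ (hZW _ (hfZ e0 he0))).2.1⟩
  have hTW : ∀ x ∈ T, W x := fun x hx => by
    obtain ⟨z, hz, h⟩ := mem_biUnion.1 hx
    exact (hP z (hZW z hz)).2.2.1 x h
  have hTp : ∀ x ∈ T, x ≠ r → p x ∈ T := fun x hx hr => by
    obtain ⟨z, hz, h⟩ := mem_biUnion.1 hx
    exact mem_biUnion.2 ⟨z, hz, (hP z (hZW z hz)).2.2.2.1 x h hr⟩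
  obtain ⟨y, y1, y2, y3, y4⟩ := bg1_sort (T.erase r) dep r
  set M := (T.erase r).card with hM
  have hMT : M + 1 = T.card := card_erase_add_one hrT
  have hy : ∀ i < M, y i ≠ r ∧ y i ∈ T := fun i hi => mem_erase.1 (y1 i hi)
  have hM0 : 0 < M := by
    by_cases h : f e0 = r
    · exact card_pos.2 ⟨g e0, mem_erase.2 ⟨fun h' => (hCf e0 he0).2.1 (h.trans h'.symm),
        hZT _ (hgZ e0 he0)⟩⟩
    · exact card_pos.2 ⟨f e0, mem_erase.2 ⟨h, hZT _ (hfZ e0 he0)⟩⟩
  have hpar : ∀ i < M, p (y i) = r ∨ ∃ k < i, p (y i) = y k := fun i hi => by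
    by_cases h : p (y i) = r
    · exact Or.inl h
    · obtain ⟨k, hk, e⟩ := y2 _ (mem_erase.2 ⟨h, hTp _ (hy i hi).2 (hy i hi).1⟩)
      refine Or.inr ⟨k, ?_, e.symm⟩
      by_contra hki
      have h1 := y4 k hk i (by omega)
      have h2 := (hp _ (hTW _ (hy i hi).2) (hy i hi).1).2.1
      rw [e] at h1
      omega
  set a : ℕ → α := fun i => if i < M then p (y i) else f (ce (i - M)) with ha
  set b : ℕ → α := fun i => if i < M then y i else g (ce (i - M)) with hb'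
  have a1 : ∀ i < M, a i = p (y i) := fun i hi => if_pos hi
  have b1 : ∀ i < M, b i = y i := fun i hi => if_pos hi
  have a2 : ∀ i, ¬ i < M → a i = f (ce (i - M)) := fun i hi => if_neg hi
  have b2 : ∀ i, ¬ i < M → b i = g (ce (i - M)) := fun i hi => if_neg hi
  have a0 : a 0 = r := by
    rw [a1 0 hM0]
    rcases hpar 0 hM0 with h | ⟨k, hk, -⟩
    exacts [h, absurd hk (Nat.not_lt_zero k)]
  have hvis : ∀ x ∈ T, ∀ i, ¬ i < M → x = a 0 ∨ ∃ k < i, x = b k := fun x hx i hi => by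
    by_cases h : x = r
    · exact Or.inl (h.trans a0.symm)
    · obtain ⟨k, hk, e⟩ := y2 _ (mem_erase.2 ⟨h, hx⟩)
      exact Or.inr ⟨k, by omega, by rw [b1 k hk, e]⟩
  refine ⟨M + CE.card, a, b, fun i hi => ?_, ?_, ?_, ?_⟩
  · by_cases h : i < M
    · obtain ⟨h1, h2, h3⟩ := hp _ (hTW _ (hy i h).2) (hy i h).1
      rw [a1 i h, b1 i h]
      refine ⟨h1, hTW _ (hy i h).2, fun e => ?_, h3.imp (·.1) (·.1), ?_, fun k hk e => ?_⟩
      · rw [e] at h2; exact lt_irrefl _ h2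
      · rcases hpar i h with e | ⟨k, hk, e⟩
        · exact Or.inl (e.trans a0.symm)
        · exact Or.inr ⟨k, hk, by rw [b1 k (hk.trans h), e]⟩
      · have hk' := hk.trans h
        rw [a1 k hk', b1 k hk'] at e
        have h4 := (hp _ (hTW _ (hy k hk').2) (hy k hk').1).2.1
        rcases Sym2.eq_iff.1 e with e | e
        · exact absurd (y3 k hk' i h e.2) hk.ne
        · rw [e.1] at h4
          rw [← e.2] at h2
          omega
    · have hc := c1 (i - M) (by omega)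
      obtain ⟨h1, h2, h3, h4, h5⟩ := hCf _ hc
      refine ⟨by rw [a2 i h]; exact h3, by rw [b2 i h]; exact h4, by rw [a2 i h, b2 i h]; exact h2,
        Or.inr (by rw [a2 i h, b2 i h, hfg]; exact h1), ?_, fun k hk e => ?_⟩
      · exact hvis _ (by rw [a2 i h]; exact hZT _ (hfZ _ hc)) i h
      · rw [a2 i h, b2 i h, hfg] at e
        by_cases hk' : k < M
        · rw [a1 k hk', b1 k hk'] at e
          exact h5 _ (hTW _ (hy k hk').2) (hy k hk').1 e
        · rw [a2 k hk', b2 k hk', hfg] at e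
          have := c3 (k - M) (by omega) (i - M) (by omega) e
          omega
  · refine (bg1_cn M CE.card _ _ fun i _ h => h).trans ?_
    have h1 := bg1_sib a M
    have h2 : T ⊆ (range M).image a ∪ Z := fun x hx => by
      obtain ⟨z, hz, h⟩ := mem_biUnion.1 hx
      rcases (hP z (hZW z hz)).2.2.2.2.1 x h with rfl | ⟨w, hw, h1, rfl⟩
      · exact mem_union_right _ hz
      · obtain ⟨k, hk, e⟩ := y2 w (mem_erase.2 ⟨h1, mem_biUnion.2 ⟨z, hz, hw⟩⟩)
        exact mem_union_left _ (mem_image.2 ⟨k, mem_range.2 hk, by rw [a1 k hk, e]⟩)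
    have h3 := (card_le_card h2).trans (card_union_le _ _)
    have h4 : ((range M).filter fun i => ∃ k < i, a k = a i).card ≤ 2 * CE.card := by omega
    omega
  · refine (bg1_cn M CE.card _ (fun i => ¬ A (p (y i)) (y i)) fun i hi h => ?_).trans ?_
    · rwa [a1 i hi, b1 i hi] at h
    have h1 : ((range M).filter fun i => ¬ A (p (y i)) (y i)).card ≤
        (Z.biUnion fun z => (P z).filter fun w => w ≠ r ∧ ¬ A (p w) w).card := by
      refine card_le_card_of_injOn y (fun i hi => ?_) fun i hi j hj e => ?_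
      · rw [coe_filter, Set.mem_ofPred_eq, mem_range] at hi
        obtain ⟨z, hz, h⟩ := mem_biUnion.1 (hy i hi.1).2
        exact mem_coe.2 (mem_biUnion.2 ⟨z, hz, mem_filter.2 ⟨h, (hy i hi.1).1, hi.2⟩⟩)
      · rw [coe_filter, Set.mem_ofPred_eq, mem_range] at hi hj
        exact y3 i hi.1 j hj.1 e
    have h2 : (Z.biUnion fun z => (P z).filter fun w => w ≠ r ∧ ¬ A (p w) w).card ≤ Z.card * m :=
      card_biUnion_le_card_mul _ _ _ fun z hz =>
        le_trans (by convert (hP z (hZW z hz)).2.2.2.2.2) (hl z (hZW z hz))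
    have h3 := Nat.mul_le_mul_right m hZc
    calc _ ≤ 2 * CE.card * m + CE.card := by omega
      _ = _ := by ring
  · unfold cn
    refine le_trans (le_of_eq ?_) (card_le_card (s := Ico M (M + CE.card)) fun i hi => ?_)
    · rw [Nat.card_Ico]; omega
    · rw [mem_Ico] at hi
      have h : ¬ i < M := by omega
      have h' := hvis (b i) (by rw [b2 i h]; exact hZT _ (hgZ _ (c1 (i - M) (by omega)))) i h
      simp only [mem_filter, mem_range]
      exact ⟨hi.2, h'⟩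

open Classical in
/-- Balls of nodes. -/
noncomputable def bg1B {α β : Type} (ED : Finset (Sym2 α)) (c : α → β) (M : Finset β) (r : α) :
    ℕ → Finset β
  | 0 => {c r}
  | n + 1 => M.filter fun v => v ∈ bg1B ED c M r n ∨
      ∃ x y, s(x, y) ∈ ED ∧ c x ∈ bg1B ED c M r n ∧ c y = v

/-- An abstract graph with edges of two kinds and many edges of the second kind between large
components of the first kind contains a large component or a pattern with closing edges. -/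
theorem big_abs {α : Type} [Fintype α] [DecidableEq α] (A : α → α → Prop)
    (hA : ∀ x y, A x y → A y x) (ED : Finset (Sym2 α)) (U : Finset α) {s L b0 : ℕ} (hs : 1 ≤ s)
    (hU : ∀ x ∈ U, s ≤ cd (Relation.ReflTransGen A x) ∧ ∀ y, A x y → y ∈ U)
    (hE : ∀ x y, s(x, y) ∈ ED → x ≠ y ∧ x ∈ U ∧ ¬ A x y)
    (hL : ∀ x ∈ U, cd (Relation.ReflTransGen (fun x y => A x y ∨ s(x, y) ∈ ED) x) < L)
    (hD : (2 * b0 + 4) * U.card < s * ED.card) :
    ∃ (t : ℕ) (a b : ℕ → α),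
      (∀ i < t, a i ∈ U ∧ b i ∈ U ∧ a i ≠ b i ∧ (A (a i) (b i) ∨ s(a i, b i) ∈ ED) ∧
        (a i = a 0 ∨ ∃ k < i, a i = b k) ∧ ∀ k < i, s(a k, b k) ≠ s(a i, b i)) ∧
      cn t (fun i => ∃ k < i, a k = a i) ≤ 3 * b0 ∧
      cn t (fun i => ¬ A (a i) (b i)) ≤ b0 * (2 * Nat.log 2 L + 5) ∧
      b0 ≤ cn t (fun i => b i = a 0 ∨ ∃ k < i, b i = b k) := by
  classical
  rcases Nat.eq_zero_or_pos b0 with rfl | hb0
  · obtain ⟨e, -⟩ : ED.Nonempty := card_pos.1 (Nat.pos_of_mul_pos_left (Nat.zero_lt_of_lt hD))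
    exact ⟨0, fun _ => e.out.1, fun _ => e.out.1, fun i hi => absurd hi (Nat.not_lt_zero i),
      by simp [cn], by simp [cn], Nat.zero_le _⟩
  set c : α → Finset α := fun x => univ.filter (Relation.ReflTransGen A x) with hc
  have hsym : ∀ x y, Relation.ReflTransGen A x y → Relation.ReflTransGen A y x := fun x y h => by
    induction h with
    | refl => exact .refl
    | tail _ hb ih => exact .head (hA _ _ hb) ih
  have hc1 : ∀ x y, c x = c y ↔ Relation.ReflTransGen A x y := fun x y => by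
    constructor
    · intro h
      have : y ∈ c y := mem_filter.2 ⟨mem_univ _, .refl⟩
      rw [← h] at this
      exact (mem_filter.1 this).2
    · intro h
      ext z
      simp only [hc, mem_filter, mem_univ, true_and]
      exact ⟨fun h' => (hsym _ _ h).trans h', fun h' => h.trans h'⟩
  have hcU : ∀ x ∈ U, ∀ y, c x = c y → y ∈ U := fun x hx y h => by
    have h' := (hc1 x y).1 h
    clear h
    induction h' with
    | refl => exact hx
    | tail _ hb ih => exact (hU _ ih).2 _ hb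
  set N := U.image c with hN
  have hNc : s * N.card ≤ U.card := by
    refine mul_card_image_le_card _ _ fun v hv => ?_
    obtain ⟨x, hx, rfl⟩ := mem_image.1 hv
    refine (hU x hx).1.trans (card_le_card fun y hy => ?_)
    have h := (hc1 x y).2 (mem_filter.1 hy).2
    exact mem_filter.2 ⟨hcU x hx y h, h.symm⟩
  set D0 := 2 * b0 + 4 with hD0
  set E : Finset (Finset α) → Finset (Sym2 α) := fun M => ED.filter fun e => ∀ x ∈ e, c x ∈ M
    with hEd
  have hEN : E N = ED := filter_true_of_mem fun e he x hx => by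
    obtain ⟨y, rfl⟩ := Sym2.mem_iff_exists.1 hx
    exact mem_image_of_mem _ (hE x y he).2.1
  have hN0 : D0 * N.card < (E N).card := by
    rw [hEN]
    refine Nat.lt_of_mul_lt_mul_left (a := s) (lt_of_le_of_lt ?_ hD)
    calc s * (D0 * N.card) = D0 * (s * N.card) := by ring
      _ ≤ _ := Nat.mul_le_mul_left _ hNc
  obtain ⟨M, hM, hmin⟩ := exists_min_image (N.powerset.filter fun M => D0 * M.card < (E M).card)
    card ⟨N, mem_filter.2 ⟨mem_powerset_self _, hN0⟩⟩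
  rw [mem_filter, mem_powerset] at hM
  obtain ⟨e0, he0⟩ : (E M).Nonempty := card_pos.1 (by omega)
  obtain ⟨r, hr⟩ : ∃ r, c r ∈ M := by
    induction e0 using Sym2.ind with
    | _ x y => exact ⟨x, (mem_filter.1 he0).2 x (Sym2.mem_mk_left x y)⟩
  have hMU : ∀ x, c x ∈ M → x ∈ U := fun x hx => by
    obtain ⟨y, hy, e⟩ := mem_image.1 (hM.1 hx)
    exact hcU y hy x e
  set B := bg1B ED c M r with hB
  have B0 : B 0 = {c r} := rfl
  have Bs : ∀ n v, v ∈ B (n + 1) ↔ v ∈ M ∧ (v ∈ B n ∨ ∃ x y, s(x, y) ∈ ED ∧ c x ∈ B n ∧ c y = v) :=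
    fun n v => by simp only [hB, bg1B, mem_filter]
  have BM : ∀ n, B n ⊆ M := fun n v hv => by
    cases n with
    | zero => rw [B0, mem_singleton] at hv; rw [hv]; exact hr
    | succ n => exact ((Bs n v).1 hv).1
  have Bm : Monotone B := monotone_nat_of_le_succ fun n v hv => (Bs n v).2 ⟨BM n hv, Or.inl hv⟩
  have Br : ∀ n, c r ∈ B n := fun n => Bm (Nat.zero_le n) (mem_singleton_self _)
  have hup : ∀ x y, Relation.ReflTransGen A x y →
      Relation.ReflTransGen (fun x y => A x y ∨ s(x, y) ∈ ED) x y := fun x y h => by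
    induction h with
    | refl => exact .refl
    | tail _ hb ih => exact ih.tail (Or.inl hb)
  have BG : ∀ n x, c x ∈ B n → Relation.ReflTransGen (fun x y => A x y ∨ s(x, y) ∈ ED) r x := by
    intro n
    induction n with
    | zero => intro x hx; exact hup _ _ ((hc1 _ _).1 (mem_singleton.1 hx).symm)
    | succ n ih =>
      intro z hz
      rcases ((Bs n _).1 hz).2 with h | ⟨x, y, h1, h2, h3⟩
      · exact ih z h
      · exact ((ih x h2).tail (Or.inr h1)).trans (hup _ _ ((hc1 _ _).1 h3))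
  have BL : ∀ n, (B n).card < L := fun n => by
    refine lt_of_le_of_lt (le_trans (card_le_card fun v hv => ?_) (card_image_le (f := c)))
      (hL r (hMU r hr))
    obtain ⟨x, -, rfl⟩ := mem_image.1 (hM.1 (BM n hv))
    exact mem_image_of_mem _ (mem_filter.2 ⟨mem_univ _, BG n x hv⟩)
  obtain ⟨i, hi, hg⟩ : ∃ i ≤ Nat.log 2 L, (B (i + 1)).card ≤ 2 * (B i).card := by
    by_contra h
    push Not at h
    have h1 : ∀ n ≤ Nat.log 2 L + 1, 2 ^ n ≤ (B n).card := fun n hn => by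
      induction n with
      | zero => simp [B0]
      | succ n ih =>
        have := ih (by omega)
        have := h n (by omega)
        rw [pow_succ]; omega
    have h2 := h1 _ le_rfl
    have h3 := Nat.lt_pow_succ_log_self (b := 2) (by norm_num) L
    have h4 := BL (Nat.log 2 L + 1)
    omega
  have hBi : 1 ≤ (B i).card := card_pos.2 ⟨_, Br i⟩
  have hEB : D0 * (B i).card < (E (B (i + 1))).card := by
    have h1 : (M \ B i).card + (B i).card = M.card := card_sdiff_add_card_eq_card (BM i)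
    have h2 : (E (M \ B i)).card ≤ D0 * (M \ B i).card := by
      by_contra h
      have := hmin (M \ B i) (mem_filter.2 ⟨mem_powerset.2 (sdiff_subset.trans hM.1), not_le.1 h⟩)
      omega
    have h3 : E M ⊆ E (M \ B i) ∪ E (B (i + 1)) := fun e he => by
      obtain ⟨he1, he2⟩ := mem_filter.1 he
      by_cases h : ∃ x ∈ e, c x ∈ B i
      · obtain ⟨x, hx, h⟩ := h
        obtain ⟨y, rfl⟩ := Sym2.mem_iff_exists.1 hx
        refine mem_union_right _ (mem_filter.2 ⟨he1, fun z hz => (Bs i _).2 ⟨he2 z hz, ?_⟩⟩)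
        rcases Sym2.mem_iff.1 hz with rfl | rfl
        exacts [Or.inl h, Or.inr ⟨x, z, he1, h, rfl⟩]
      · exact mem_union_left _ (mem_filter.2 ⟨he1, fun z hz =>
          mem_sdiff.2 ⟨he2 z hz, fun h' => h ⟨z, hz, h'⟩⟩⟩)
    have h4 := (card_le_card h3).trans (card_union_le _ _)
    have h5 := hM.2
    rw [← h1, mul_add] at h5
    omega
  set lv : Finset α → ℕ := fun v => if h : ∃ n, v ∈ B n then Nat.find h else 0 with hlv
  have lv1 : ∀ n v, v ∈ B n → lv v ≤ n := fun n v h => by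
    have h' : ∃ n, v ∈ B n := ⟨n, h⟩
    simp only [hlv, dif_pos h']
    exact Nat.find_min' h' h
  have hent : ∀ v, ∃ x y, (v = c r → y = r) ∧ (v ∈ B (i + 1) → c y = v) ∧
      (v ∈ B (i + 1) → v ≠ c r → s(x, y) ∈ ED ∧ c x ∈ B (i + 1) ∧ lv (c x) < lv v) := fun v => by
    by_cases h0 : v = c r
    · exact ⟨r, r, fun _ => rfl, fun _ => h0.symm, fun _ h => absurd h0 h⟩
    by_cases h1 : v ∈ B (i + 1)
    · have h' : ∃ n, v ∈ B n := ⟨_, h1⟩
      have h2 := Nat.find_spec h'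
      have h3 := Nat.find_min' h' h1
      have h4 : lv v = Nat.find h' := by simp only [hlv, dif_pos h']
      cases hn : Nat.find h' with
      | zero => rw [hn, B0, mem_singleton] at h2; exact absurd h2 h0
      | succ n =>
        rw [hn] at h2 h3 h4
        rcases ((Bs n v).1 h2).2 with h | ⟨x, y, a1, a2, a3⟩
        · exact absurd h (Nat.find_min h' (by omega))
        · have := lv1 n _ a2
          exact ⟨x, y, fun h => absurd h h0, fun _ => a3, fun _ _ =>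
            ⟨a1, Bm (by omega : n ≤ i + 1) a2, by omega⟩⟩
    · exact ⟨r, r, fun _ => rfl, fun h => absurd h h1, fun h => absurd h h1⟩
  choose pre ent e1 e2 e3 using hent
  obtain ⟨D, hDs⟩ := bg1_dist A
  choose! q hq using hDs
  set K := (univ : Finset (α × α)).sup (fun z => D z.1 z.2) + 1 with hK
  have hDK : ∀ x y, D x y < K := fun x y =>
    Nat.lt_succ_of_le (le_sup (f := fun z : α × α => D z.1 z.2) (mem_univ (x, y)))
  set TE := (B (i + 1)).image fun v => s(pre v, ent v) with hTE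
  obtain ⟨CE, hC1, hC2⟩ : ∃ CE ⊆ E (B (i + 1)) \ TE, CE.card = b0 := by
    refine exists_subset_card_eq ?_
    have h1 : TE.card ≤ (B (i + 1)).card := card_image_le
    have h2 := le_card_sdiff TE (E (B (i + 1)))
    have h3 : D0 * (B i).card = 2 * (b0 * (B i).card) + 4 * (B i).card := by rw [hD0]; ring
    have h4 : b0 ≤ b0 * (B i).card := Nat.le_mul_of_pos_right _ hBi
    omega
  set p : α → α := fun x => if x = ent (c x) then pre (c x) else q (ent (c x)) x with hpd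
  have hp2 : ∀ x, c x ∈ B (i + 1) → x ≠ ent (c x) →
      A (p x) x ∧ c (p x) = c x ∧ D (ent (c x)) (p x) < D (ent (c x)) x := fun x hx h => by
    have h1 := hq (ent (c x)) x ((hc1 _ _).1 (e2 _ hx)) h
    have h2 : p x = q (ent (c x)) x := if_neg h
    rw [h2]
    exact ⟨h1.1, (hc1 _ _).2 (.single h1.1), h1.2⟩
  obtain ⟨t, a, b, k1, k2, k3, k4⟩ := bg1_pat A ED CE (fun x => c x ∈ B (i + 1)) r p
    (fun x => lv (c x) * K + D (ent (c x)) x) (fun x => lv (c x)) (i + 1) (by omega)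
    (fun x hx hxr => by
      by_cases h : x = ent (c x)
      · have h1 : c x ≠ c r := fun h' => hxr (h.trans (e1 _ h'))
        obtain ⟨h2, h3, h4⟩ := e3 _ hx h1
        have h5 : p x = pre (c x) := if_pos h
        rw [h5]
        refine ⟨h3, ?_, Or.inr ⟨by rw [← h] at h2; exact h2, h4⟩⟩
        have h6 := hDK (ent (c (pre (c x)))) (pre (c x))
        have h7 := Nat.mul_le_mul_right K (Nat.succ_le_of_lt h4)
        rw [Nat.succ_mul] at h7
        omega
      · obtain ⟨h1, h2, h3⟩ := hp2 x hx h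
        refine ⟨by rw [h2]; exact hx, ?_, Or.inl ⟨h1, by rw [h2]⟩⟩
        rw [h2]
        omega)
    (fun x hx => lv1 _ _ hx)
    (fun x y h => by
      obtain ⟨h1, h2⟩ := mem_sdiff.1 (hC1 h)
      obtain ⟨h3, h4⟩ := mem_filter.1 h1
      refine ⟨h3, (hE x y h3).1, h4 x (Sym2.mem_mk_left x y), fun z hz _ e => ?_⟩
      by_cases h : z = ent (c z)
      · refine h2 (mem_image.2 ⟨c z, hz, ?_⟩)
        have h5 : p z = pre (c z) := if_pos h
        rw [← h, ← h5, e]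
      · rw [← e] at h3
        exact (hE _ _ h3).2.2 (hp2 z hz h).1)
  rw [hC2] at k2 k3 k4
  refine ⟨t, a, b, fun j hj => ?_, k2, k3.trans (Nat.mul_le_mul_left _ (by omega)), k4⟩
  obtain ⟨j1, j2, j3⟩ := k1 j hj
  exact ⟨hMU _ (BM _ j1), hMU _ (BM _ j2), j3⟩

end Pool.Agent.MP_8f9e6e_pr.J

end

section

/-! Many sites lie in big components. -/

open Finset Filter

namespace Pool.Agent.MP_8f9e6e_pr.J

theorem big_cn {t : ℕ} {P Q : ℕ → Prop} (h : ∀ i, P i → Q i) : cn t P ≤ cn t Q := by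
  classical
  unfold cn
  exact card_le_card fun i hi => by
    simp only [mem_filter] at hi ⊢
    exact ⟨hi.1, h i hi.2⟩

theorem big_mul {α β : Type} [Fintype α] [Fintype β] {P : α → Prop} (Q : β → Prop)
    (r : β → α → Prop) {k m : ℝ} (h : ∀ a, P a → ∃ b, Q b ∧ r b a)
    (hk : ∀ b, Q b → (cd (r b) : ℝ) ≤ k) (hm : (cd Q : ℝ) ≤ m) (h0 : 0 ≤ k) :
    (cd P : ℝ) ≤ m * k := by
  open Classical in
  have := cd_le_mul (P := P) (univ.filter Q) r (k := k)
    (fun a ha => by simpa only [mem_filter, mem_univ, true_and] using h a ha) (fun b hb => hk b (by simpa only [mem_filter, mem_univ, true_and] using hb))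
  exact this.trans (mul_le_mul_of_nonneg_right hm h0)

theorem big_ge {α β : Type} [Fintype α] [Fintype β] (G : α → Prop) (R : α → β → Prop) {x : ℝ}
    (h : ∀ a, G a → x ≤ cd (R a)) :
    (cd G : ℝ) * x ≤ cd (fun p : α × β => G p.1 ∧ R p.1 p.2) := by
  simp only [cd, card_filter, Fintype.sum_prod_type] at h ⊢
  push_cast at h ⊢
  rw [sum_mul]
  refine sum_le_sum fun a _ => ?_
  by_cases ha : G a
  · simp only [ha, true_and, if_true, one_mul]
    exact (h a ha).trans_eq (sum_congr rfl fun b _ => by by_cases hb : R a b <;> simp [hb, ha])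
  · simp only [ha, ↓ reduceIte, zero_mul, false_and, sum_const_zero, Std.le_refl]

variable {n d : ℕ}

theorem big_cell {C : Finset (Fin n)} (h : C.card ≤ d + 2) :
    (cd (fun p : Fc n × Fin n => C = insert p.2 p.1 ∧ p.2 ∉ p.1) : ℝ) ≤ d + 2 := by
  have := cd_le_of_inj (P := fun p : Fc n × Fin n => C = insert p.2 p.1 ∧ p.2 ∉ p.1) C (·.2)
    (fun p hp => hp.1 ▸ mem_insert_self _ _) (fun p q hp hq e => Prod.ext (by
      rw [← erase_insert hp.2, ← erase_insert hq.2, ← hp.1, ← hq.1]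
      exact congrArg _ e) e)
  exact_mod_cast this.trans h

theorem big_adj {S : Set (Fc n)} {e : Fc n} {u w w' : Fin n} (he : e.card = d + 1) (hu : u ∉ e)
    (hw : w ∈ e) (hw' : w' ∈ e) (h : w ≠ w')
    (hS : ∀ x ∈ e, x ≠ w → x ≠ w' → par e u x ∈ S) :
    w ∉ par e u w ∧ (∃ o ∈ par e u w, ∀ y ∈ slt (par e u w) w o, y = e ∨ y ∈ S) ∧
      Adj d (fun x => x = e ∨ x ∈ S) (par e u w) (par e u w') ∧
      par e u w ∪ par e u w' = insert u e := by
  have a1 : w' ∈ par e u w := mem_par.2 (.inr ⟨h.symm, hw'⟩)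
  have a2 : ∀ y ∈ slt (par e u w) w w', y = e ∨ y ∈ S := fun y hy => by
    obtain ⟨v, b1, b2, rfl⟩ := mem_slt.1 hy
    rcases mem_par.1 b1 with rfl | ⟨b3, b4⟩
    · exact .inl (par_back hu hw)
    · exact .inr (by rw [par_par hu hw b4 b3]; exact hS v b4 b3 b2)
  refine ⟨not_mem_par hu hw, ⟨w', a1, a2⟩, ⟨par_card he hu hw, w, not_mem_par hu hw, w', a1,
    (par_par hu hw hw' h.symm).symm, a2⟩, ?_⟩
  ext a
  simp only [mem_union, mem_par, mem_insert]
  grind

variable [NeZero n]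

theorem big (hd : 2 ≤ d) {r0 hh a1 s L b0 : ℕ} {S1 S : Finset (Face n d)} (hS : S1 ⊆ S)
    {x Hv0 Hn Kn Bn Δ : ℝ} (hs : 1 ≤ s) (hx : 0 ≤ x) (hΔ : 0 ≤ Δ) (hr : r0 ≤ hh)
    (h1 : a1 ≤ cd (IsD d r0 (st S))) (h2 : ∀ e, DD d r0 (st S) a1 e → Rd d (st S) hh e)
    (h3 : (cd (fun g : Fc n => g.card = d + 1 ∧ Heavy d r0 s (st S1) g) : ℝ) ≤ Hv0)
    (h4 : 2 * cd (fun e => DD d r0 (st S) a1 e ∧ (Xh d r0 s (st S1) e : ℝ) < x) ≤ a1)
    (h5 : DegN d hh (st S) Δ) (h6 : (cd (Rd d (st S) hh) : ℝ) ≤ Hn)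
    (h7 : (cd (Contr d (st S)) : ℝ) ≤ Kn)
    (h8 : NDC d r0 hh (st S) (3 * b0) (b0 * (2 * Nat.log 2 L + 5)) b0)
    (h9 : (2 * b0 + 4) * Hv0 + s * ((d + 2) * (Hn + (Kn + Bn) * Δ)) < s * (a1 / 2 * x)) :
    Bn ≤ cd fun h => h.card = d + 1 ∧ ¬ Contr d (st S) h ∧ Big d r0 a1 L (st S1) (st S) h := by
  classical
  by_contra! hB
  have m1 := st_mono hS
  have m0 : ∀ f ∈ st S, f.card = d + 1 := fun f hf => st_card hf
  generalize st S1 = s1 at *
  generalize st S = s0 at *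
  have m2 : ∀ z, Rd d s1 r0 z → Rd d s0 r0 z := fun z => rd_up m1
  have m3 : ∀ e, DD d r0 s0 a1 e → ∀ z, z = e ∨ z ∈ s1 → Rd d s0 hh z := fun e he z hz =>
    hz.elim (fun a => a ▸ h2 e he) fun a => rd_src (m1 a)
  obtain ⟨U, mU⟩ : ∃ U : Finset (Fc n), ∀ g, g ∈ U ↔ g.card = d + 1 ∧ Heavy d r0 s s1 g ∧
      ¬ Contr d s0 g ∧ ¬ Big d r0 a1 L s1 s0 g :=
    ⟨univ.filter _, fun g => mem_filter.trans (and_iff_right (mem_univ _))⟩
  obtain ⟨ED, mE⟩ : ∃ ED : Finset (Sym2 (Fc n)), ∀ g h, s(g, h) ∈ ED ↔ g ∈ U ∧ h ∈ U ∧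
      ¬ Adj d (Rd d s1 r0) g h ∧ ∃ e, DD d r0 s0 a1 e ∧ Adj d (fun x => x = e ∨ x ∈ s1) g h := by
    refine ⟨univ.filter fun z => ∃ g h, z = s(g, h) ∧ g ∈ U ∧ h ∈ U ∧
      ¬ Adj d (Rd d s1 r0) g h ∧ ∃ e, DD d r0 s0 a1 e ∧ Adj d (fun x => x = e ∨ x ∈ s1) g h,
      fun g h => ?_⟩
    rw [mem_filter, and_iff_right (mem_univ _)]
    refine ⟨?_, fun a => ⟨g, h, rfl, a⟩⟩
    rintro ⟨g', h', a, b1, b2, b3, e, b4, b5⟩
    rcases Sym2.eq_iff.1 a with ⟨rfl, rfl⟩ | ⟨rfl, rfl⟩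
    · exact ⟨b1, b2, b3, e, b4, b5⟩
    · exact ⟨b2, b1, fun c => b3 c.symm, e, b4, b5.symm⟩
  -- counting
  let R : Fc n → Fin n → Prop := fun e u => u ∉ e ∧ ∃ w ∈ e, ∃ w' ∈ e, w ≠ w' ∧
    Heavy d r0 s s1 (par e u w) ∧ Heavy d r0 s s1 (par e u w') ∧
    ∀ x ∈ e, x ≠ w → x ≠ w' → par e u x ∈ s1
  let G : Fc n → Prop := fun e => DD d r0 s0 a1 e ∧ x ≤ Xh d r0 s s1 e
  have c1 := big_ge G R (x := x) fun e he => he.2
  have c2 : (a1 : ℝ) / 2 ≤ cd G := by
    have e1 := cd_or (fun e => DD d r0 s0 a1 e ∧ (Xh d r0 s s1 e : ℝ) < x) G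
    have e2 := cd_mono (P := DD d r0 s0 a1)
      (Q := fun e => (DD d r0 s0 a1 e ∧ (Xh d r0 s s1 e : ℝ) < x) ∨ G e)
      fun e he => (lt_or_ge _ _).imp (fun a => ⟨he, a⟩) fun a => ⟨he, a⟩
    rw [card_dd h1] at e2
    have e3 : a1 ≤ 2 * cd G := by omega
    have e4 : (a1 : ℝ) ≤ 2 * cd G := by exact_mod_cast e3
    linarith only [e4]
  let P1 : Fc n × Fin n → Prop := fun p => ∃ z ∈ ED, ∃ g h, z = s(g, h) ∧
    g ∪ h = insert p.2 p.1 ∧ DD d r0 s0 a1 p.1 ∧ p.2 ∉ p.1 ∧ ¬ Contr d s0 g ∧ ¬ Contr d s0 h ∧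
    Adj d (fun x => x = p.1 ∨ x ∈ s1) g h
  let P2 : Fc n × Fin n → Prop := fun p => ∃ y, Rd d s0 hh y ∧
    insert (ap d s0 y) y = insert p.2 p.1 ∧ p.2 ∉ p.1
  let J : Fc n → Prop := fun g => Contr d s0 g ∨
    (g.card = d + 1 ∧ ¬ Contr d s0 g ∧ Big d r0 a1 L s1 s0 g)
  let N : Fc n → Fin n → Prop := fun g u => u ∉ g ∧ (∃ o ∈ g, ∀ y ∈ slt g u o, Rd d s0 hh y) ∧
    ∀ y, Rd d s0 hh y → y ∉ s0 → insert (ap d s0 y) y ≠ insert u g
  let P3 : Fc n × Fin n → Prop := fun p => ∃ g, J g ∧ ∃ w, N g w ∧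
    insert w g = insert p.2 p.1 ∧ p.2 ∉ p.1
  have c3 : (cd P1 : ℝ) ≤ ED.card := by
    have := cd_le_mul (P := P1) ED _ (k := 1) (fun p hp => hp) fun z _ => by
      refine (Nat.cast_le.2 (cd_le_of_inj {()} (fun _ => ()) (fun _ _ => mem_singleton_self _)
        ?_)).trans (by simp)
      rintro ⟨e, u⟩ ⟨e', u'⟩ ⟨g, h, rfl, a1, a2, a3, a4, a5, a6⟩ ⟨g', h', b0, b1, b2, b3, -⟩ -
      dsimp only at *
      have e1 : insert u e = insert u' e' := by
        rw [← a1, ← b1]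
        rcases Sym2.eq_iff.1 b0 with ⟨rfl, rfl⟩ | ⟨rfl, rfl⟩
        · rfl
        · exact union_comm _ _
      have e2 : e' = e := by
        rcases a6.card.2.2.2 e' (by rw [a1, e1]; exact subset_insert _ _)
          (contr_card m0 b2.1.1) with c | c | c | c
        · exact absurd (c ▸ b2.1.1) a4
        · exact absurd (c ▸ b2.1.1) a5
        · exact c
        · exact absurd (rd_src (m1 c)) b2.1.2
      subst e2
      have e3 : u ∈ insert u' e' := e1 ▸ mem_insert_self _ _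
      rw [(mem_insert.1 e3).resolve_right a3]
    simpa only [Nat.cast_le, ge_iff_le, mul_one] using this
  have c4 : (cd P2 : ℝ) ≤ Hn * (d + 2) :=
    big_mul (Rd d s0 hh) _ (fun p hp => hp)
      (fun y hy => big_cell ((card_insert_le _ _).trans (by rw [rd_card m0 hy]))) h6
      (by positivity)
  have c5 : (cd P3 : ℝ) ≤ (Kn + Bn) * (Δ * (d + 2)) := by
    refine big_mul J _ (fun p hp => hp) (fun g hg => ?_) ?_ (by positivity)
    · have e1 : g.card = d + 1 := hg.elim (contr_card m0) fun a => a.1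
      exact big_mul (N g) _ (fun p hp => hp)
        (fun w _ => big_cell ((card_insert_le _ _).trans (by rw [e1]))) (h5 g e1) (by positivity)
    · have e1 : (cd J : ℝ) ≤ _ := Nat.cast_le.2 (cd_or _ _)
      push_cast at e1
      linarith only [h7, hB, e1]
  have c6 : ∀ p : Fc n × Fin n, G p.1 ∧ R p.1 p.2 → P1 p ∨ P2 p ∨ P3 p := by
    rintro ⟨e, u⟩ ⟨⟨a0, -⟩, a1, w, a2, w', a3, a4, a5, a6, a7⟩
    dsimp only at a0 a1 a2 a3 a5 a6 a7
    have he := contr_card m0 a0.1.1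
    have key : ∀ v ∈ e, ∀ v' ∈ e, v ≠ v' → (∀ x ∈ e, x ≠ v → x ≠ v' → par e u x ∈ s1) →
        J (par e u v) → P2 (e, u) ∨ P3 (e, u) := fun v b1 v' b2 b3 b4 b5 => by
      obtain ⟨f1, ⟨o, f2, f3⟩, -⟩ := big_adj he a1 b1 b2 b3 b4
      by_cases f4 : P2 (e, u)
      · exact .inl f4
      · exact .inr ⟨_, b5, v, ⟨f1, ⟨o, f2, fun y hy => m3 e a0 y (f3 y hy)⟩,
          fun y hy _ c => f4 ⟨y, hy, c.trans (cell_par b1), a1⟩⟩, cell_par b1, a1⟩
    by_cases j1 : J (par e u w)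
    · exact .inr (key w a2 w' a3 a4 a7 j1)
    by_cases j2 : J (par e u w')
    · exact .inr (key w' a3 w a2 a4.symm (fun x b1 b2 b3 => a7 x b1 b3 b2) j2)
    obtain ⟨-, -, f1, f2⟩ := big_adj he a1 a2 a3 a4 a7
    have k1 := par_card he a1 a2
    have k2 := par_card he a1 a3
    have k3 : ¬ Contr d s0 (par e u w) := fun c => j1 (.inl c)
    have k4 : ¬ Contr d s0 (par e u w') := fun c => j2 (.inl c)
    refine .inl ⟨_, (mE _ _).2 ⟨(mU _).2 ⟨k1, a5, k3, fun c => j1 (.inr ⟨k1, k3, c⟩)⟩,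
      (mU _).2 ⟨k2, a6, k4, fun c => j2 (.inr ⟨k2, k4, c⟩)⟩, fun c => ?_, e, a0, f1⟩,
      _, _, rfl, f2, a0, a1, k3, k4, f1⟩
    rcases c.card.2.2.2 e (f2 ▸ subset_insert _ _) he with c | c | c
    · exact k3 (c ▸ a0.1.1)
    · exact k4 (c ▸ a0.1.1)
    · exact a0.1.2 (m2 _ c)
  have c7 : (cd (fun p : Fc n × Fin n => G p.1 ∧ R p.1 p.2) : ℝ) ≤ cd P1 + (cd P2 + cd P3) := by
    exact_mod_cast (cd_mono c6).trans ((cd_or _ _).trans (Nat.add_le_add_left (cd_or _ _) _))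
  have c8 : (U.card : ℝ) ≤ Hv0 := by
    refine le_trans ?_ h3
    rw [← cd_mem]
    exact Nat.cast_le.2 (cd_mono fun g hg => ⟨((mU g).1 hg).1, ((mU g).1 hg).2.1⟩)
  have c9 : (2 * b0 + 4) * U.card < s * ED.card := by
    have e1 : (a1 : ℝ) / 2 * x ≤ ED.card + (d + 2) * (Hn + (Kn + Bn) * Δ) := by
      have := mul_le_mul_of_nonneg_right c2 hx
      linarith only [c1, c3, c4, c5, c7, this]
    have e2 := mul_le_mul_of_nonneg_left e1 (Nat.cast_nonneg (α := ℝ) s)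
    have e3 := mul_le_mul_of_nonneg_left c8 (show (0 : ℝ) ≤ 2 * b0 + 4 by positivity)
    have e4 : ((2 * b0 + 4) * U.card : ℝ) < s * ED.card := by linarith only [h9, e2, e3]
    exact_mod_cast e4
  obtain ⟨t, a, b, d1, d2, d3, d4⟩ := big_abs (Adj d (Rd d s1 r0)) (fun _ _ h => h.symm) ED U
    (L := L) hs (fun g hg => by
      obtain ⟨f1, f2, f3, f4⟩ := (mU g).1 hg
      exact ⟨f2, fun y hy => (mU y).2 ⟨hy.card.1,
        f2.trans (cd_mono fun z hz => .head hy.symm hz),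
        fun c => f3 (contr_adj (fun z hz => (m2 z hz).contr) hy.symm c),
        fun c => f4 (c.trans (cd_mono fun z hz => .head (.inl hy) hz))⟩⟩)
    (fun g h hg => by
      obtain ⟨f1, -, f2, e, -, f3⟩ := (mE g h).1 hg
      exact ⟨f3.card.2.2.1, f1, f2⟩)
    (fun g hg => lt_of_le_of_lt (cd_mono fun z hz => Relation.ReflTransGen.mono
      (p := GG d r0 a1 s1 s0)
      (fun g h c => Or.imp_right (fun c => ((mE g h).1 c).2.2.2) c) _ _ hz)
      (not_le.1 ((mU g).1 hg).2.2.2)) c9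
  have d5 : ∀ i < t, Adj d (Rd d s0 hh) (a i) (b i) := fun i hi => by
    rcases (d1 i hi).2.2.2.1 with c | c
    · exact c.mono fun z hz => (m2 z hz).mono hr
    · obtain ⟨-, -, -, e, f1, f2⟩ := (mE _ _).1 c
      exact f2.mono (m3 e f1)
  refine h8 ⟨t, a, b, fun i hi => ⟨((mU _).1 (d1 i hi).1).2.2.1, d5 i hi, (d1 i hi).2.2.2.2.1,
    fun k hk c => (d1 i hi).2.2.2.2.2 k hk ?_⟩, d2,
    (big_cn fun i c f => c (f.mono m2)).trans d3, d4⟩
  obtain ⟨f1, f2, f3, -⟩ := d1 k (hk.trans hi)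
  have f4 : ∀ z ∈ U, z ⊆ a i ∪ b i → z = a i ∨ z = b i := fun z hz c =>
    ((d5 i hi).card.2.2.2 z c ((mU z).1 hz).1).imp_right fun c =>
      c.resolve_right fun c => ((mU z).1 hz).2.2.1 c.contr
  rcases f4 _ f1 (c ▸ subset_union_left) with g1 | g1 <;>
    rcases f4 _ f2 (c ▸ subset_union_right) with g2 | g2
  · exact absurd (g1.trans g2.symm) f3
  · rw [g1, g2]
  · rw [g1, g2, Sym2.eq_swap]
  · exact absurd (g1.trans g2.symm) f3

end Pool.Agent.MP_8f9e6e_pr.J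

end
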