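import Pool.Agent.MP_8f9e6e_pr.Jump.P4
import Pool.Agent.MP_8f9e6e_pr.Jump.P3
import Pool.Agent.MP_8f9e6e_pr.Jump.P7
import Pool.Agent.MP_8f9e6e_pr.Jump.P6

attribute [-instance] IdemSemiring.toCanonicallyOrderedAdd covariant_swap_mul_of_covariant_mul
  AddQuantale.instAddLeftMono IsOrderedMonoid.toMulLeftMono Quantale.instMulLeftMono
  IdemSemiring.toMulLeftMono RKHS.instFunLike NumberField.to_charZero instCoeHTCOfCoeHeadOfCoeOTC
  instCoeHTCTOfCoeTailOfCoeHTC AddQuantale.instAddRightMono Quantale.instMulRightMono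
  CanonicallyOrderedAdd.toMulLeftMono List.instDecidableMemOfLawfulBEq instCoeTCOfCoe
  instCoeOutOfCoeFun instCoeTOfCoeDep
  ContinuousMonoidHom.instCoeOutOfMonoidHomClassOfContinuousMapClass Finset.decidableDforallFinset
  Multiset.decidableDforallMultiset Vector.instDecidableForallForallMemOfDecidablePred
  Array.instDecidableForallForallMemOfDecidablePred Option.decidableForallMem
  IsLeftCancelMul.mulLeftStrictMono_of_mulLeftMono CanonicallyOrderedMul.toMulLeftMono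
  IsRightCancelMul.mulRightStrictMono_of_mulRightMono NeZero.of_gt' Int.decidableLTLE

/-! Explosion, layers and the jump. -/

section

/-! Explosion by switching. -/

open Finset Filter

namespace Pool.Agent.MP_8f9e6e_pr.J

variable {d : ℕ}

section
variable {n : ℕ}

theorem exp_fib {γ : Type} (X : Finset γ) (π : γ → ℕ → Fin n) (F : Finset ℕ) (val : γ → Fin n)
    {x : ℝ} (hx : 0 ≤ x)
    (h1 : ∀ c ∈ X, ∀ c' ∈ X, (∀ t ∈ F, π c t = π c' t) → val c = val c' → c = c')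
    (h2 : ∀ c0 ∈ X, ∃ A : Finset (Fin n), (A.card : ℝ) ≤ x ∧
      ∀ c ∈ X, (∀ t ∈ F, π c t = π c0 t) → val c ∈ A) :
    (X.card : ℝ) ≤ (n : ℝ) ^ F.card * x := by
  classical
  rw [card_eq_sum_card_fiberwise (f := fun c (t : F) => π c t) (t := univ) fun _ _ => mem_univ _,
    Nat.cast_sum]
  refine (sum_le_card_nsmul _ _ x fun y _ => ?_).trans (by simp only [card_univ, Fintype.card_pi, univ_eq_attach, Fintype.card_fin, prod_const, card_attach, nsmul_eq_mul, Nat.cast_pow, Std.le_refl])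
  rcases (X.filter fun c => (fun t : F => π c t) = y).eq_empty_or_nonempty with h | ⟨c0, h0⟩
  · rw [h]
    simpa only [card_empty, CharP.cast_eq_zero] using hx
  have e : ∀ c ∈ X.filter fun c => (fun t : F => π c t) = y, ∀ t ∈ F, π c t = π c0 t :=
    fun c hc t ht => congrFun ((mem_filter.1 hc).2.trans (mem_filter.1 h0).2.symm) ⟨t, ht⟩
  obtain ⟨A, hA, h3⟩ := h2 c0 (mem_filter.1 h0).1
  refine le_trans ?_ hA
  exact_mod_cast card_le_card_of_injOn val (fun c hc => h3 c (mem_filter.1 hc).1 (e c hc))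
    fun c hc c' hc' h => h1 c (mem_filter.1 hc).1 c' (mem_filter.1 hc').1
      (fun t ht => (e c hc t ht).trans (e c' hc' t ht).symm) h

theorem exp_seq {γ : Type} (π : γ → ℕ → Fin n) {x : ℝ} (hx : 0 ≤ x) (r : ℕ) :
    ∀ (s : ℕ) (X : Finset γ), (∀ c ∈ X, ∀ c' ∈ X, ∀ t < s, π c t = π c' t) →
    (∀ c ∈ X, ∀ c' ∈ X, (∀ t < s + r, π c t = π c' t) → c = c') →
    (∀ i, s ≤ i → i < s + r → ∀ c0 ∈ X, ∃ A : Finset (Fin n), (A.card : ℝ) ≤ x ∧
      ∀ c ∈ X, (∀ t < i, π c t = π c0 t) → π c i ∈ A) → (X.card : ℝ) ≤ x ^ r := by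
  classical
  induction r with
  | zero =>
    intro s X h0 h1 _
    rw [pow_zero]
    exact_mod_cast card_le_one.2 fun a ha b hb => h1 a ha b hb (h0 a ha b hb)
  | succ r ih =>
    intro s X h0 h1 h2
    rcases X.eq_empty_or_nonempty with rfl | ⟨c0, hc0⟩
    · simpa only [card_empty, CharP.cast_eq_zero] using pow_nonneg hx _
    obtain ⟨A, hA, h3⟩ := h2 s le_rfl (by omega) c0 hc0
    rw [card_eq_sum_card_fiberwise (f := fun c => π c s) (t := A)
      fun c hc => h3 c hc (h0 c hc c0 hc0), Nat.cast_sum, pow_succ']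
    refine (sum_le_card_nsmul _ _ (x ^ r) fun y _ => ih (s + 1) _ (fun c hc c' hc' t ht => ?_)
      (fun c hc c' hc' h => h1 c (mem_filter.1 hc).1 c' (mem_filter.1 hc').1 fun t ht =>
        h t (by omega)) fun i hi hi' c1 hc1 => ?_).trans ?_
    · rcases Nat.lt_succ_iff_lt_or_eq.1 ht with h | rfl
      · exact h0 c (mem_filter.1 hc).1 c' (mem_filter.1 hc').1 t h
      · exact (mem_filter.1 hc).2.trans (mem_filter.1 hc').2.symm
    · obtain ⟨B, hB, h4⟩ := h2 i (by omega) (by omega) c1 (mem_filter.1 hc1).1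
      exact ⟨B, hB, fun c hc => h4 c (mem_filter.1 hc).1⟩
    · rw [nsmul_eq_mul]
      exact mul_le_mul_of_nonneg_right hA (pow_nonneg hx _)

theorem exp_first {α : Type} [Fintype α] (ps : α → ℕ) (Rc Cm : α → α → Prop) {L : ℕ} {Kn : ℝ}
    (hL : 0 < L) (hK : 0 ≤ Kn) (h1 : ∀ x y h h', Rc x h → Rc y h' → ps x = ps y → x = y)
    (h2 : Equivalence Cm) (h3 : ∀ x h, Rc x h → L ≤ cd (Cm h)) :
    ∃ Ls : Finset α, (Ls.card : ℝ) ≤ Kn / L + 1 ∧ ∀ K : α → Prop, (cd K : ℝ) ≤ Kn →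
      (∀ g h, Cm g h → K g → K h) → ∀ e h, Rc e h → ¬ K h →
      ∃ x ∈ Ls, ps x ≤ ps e ∧ ∃ h', Rc x h' ∧ ¬ K h' := by
  classical
  let Nw : α → Prop := fun x => ∃ h, Rc x h ∧ ∀ y h', Rc y h' → ps y < ps x → ¬ Cm h h'
  let f : α → ℕ := fun x => (univ.filter fun y => Nw y ∧ ps y < ps x).card
  have hf : ∀ x y, Nw x → ps x < ps y → f x < f y := fun x y hx h =>
    card_lt_card ⟨fun z hz => by
      simp only [mem_filter, mem_univ, true_and] at hz ⊢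
      exact ⟨hz.1, hz.2.trans h⟩, fun hs => by
      have := hs (mem_filter.2 ⟨mem_univ x, hx, h⟩)
      simp only [mem_filter, mem_univ, lt_self_iff_false, and_false] at this⟩
  have L0 : (0 : ℝ) < L := by exact_mod_cast hL
  refine ⟨univ.filter fun x => Nw x ∧ f x ≤ ⌊Kn / L⌋₊, ?_, fun K k1 k2 e h r1 r2 => ?_⟩
  · have : (univ.filter fun x => Nw x ∧ f x ≤ ⌊Kn / L⌋₊).card ≤ (range (⌊Kn / L⌋₊ + 1)).card :=
      card_le_card_of_injOn f (fun x hx => by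
        simpa only [coe_range, Set.mem_Iio, Order.lt_add_one_iff] using (mem_filter.1 hx).2.2) fun x hx y hy h => by
        have a := (mem_filter.1 hx).2.1
        have b := (mem_filter.1 hy).2.1
        rcases lt_trichotomy (ps x) (ps y) with c | c | c
        · exact absurd h (hf x y a c).ne
        · obtain ⟨_, a, -⟩ := a
          obtain ⟨_, b, -⟩ := b
          exact h1 _ _ _ _ a b c
        · exact absurd h (hf y x b c).ne'
    rw [card_range] at this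
    have h4 := Nat.floor_le (div_nonneg hK L0.le)
    have h5 : ((univ.filter fun x => Nw x ∧ f x ≤ ⌊Kn / L⌋₊).card : ℝ) ≤ ⌊Kn / L⌋₊ + 1 := by
      exact_mod_cast this
    linarith only [h4, h5]
  obtain ⟨x, hx, hm⟩ := exists_min_image (univ.filter fun x => ∃ h', Rc x h' ∧ ¬ K h') ps
    ⟨e, mem_filter.2 ⟨mem_univ _, h, r1, r2⟩⟩
  obtain ⟨h0, r3, r4⟩ := (mem_filter.1 hx).2
  have hm' : ∀ y h', Rc y h' → ps y < ps x → K h' := fun y h' a b => by_contra fun c =>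
    (hm y (mem_filter.2 ⟨mem_univ _, h', a, c⟩)).not_gt b
  refine ⟨x, mem_filter.2 ⟨mem_univ _, ⟨h0, r3, fun y h' a b c =>
    r4 (k2 _ _ (h2.symm c) (hm' y h' a b))⟩, Nat.le_floor ?_⟩,
    hm e (mem_filter.2 ⟨mem_univ _, h, r1, r2⟩), h0, r3, r4⟩
  rw [le_div_iff₀ L0]
  refine le_trans ?_ k1
  set Y := univ.filter fun y => Nw y ∧ ps y < ps x with hY
  have h6 : ∀ y ∈ Y, ∃ h, Rc y h ∧ ∀ z h', Rc z h' → ps z < ps y → ¬ Cm h h' :=
    fun y hy => (mem_filter.1 hy).2.1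
  choose! g g1 g2 using h6
  have h7 : Y.card * L ≤ cd K := by
    rw [← smul_eq_mul]
    refine (card_nsmul_le_sum Y (fun y => (univ.filter (Cm (g y))).card) L fun y hy => ?_).trans ?_
    · exact h3 y _ (g1 y hy)
    · rw [← card_biUnion fun y hy z hz hne => disjoint_left.2 fun w a b => ?_]
      · refine card_le_card fun w hw => ?_
        obtain ⟨y, hy, a⟩ := mem_biUnion.1 hw
        simpa only [mem_filter, mem_univ, true_and] using k2 _ _ (mem_filter.1 a).2 (hm' y _ (g1 y hy) (mem_filter.1 hy).2.2)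
      · have c := h2.trans (mem_filter.1 a).2 (h2.symm (mem_filter.1 b).2)
        rcases lt_trichotomy (ps y) (ps z) with e | e | e
        · exact g2 z hz y _ (g1 y hy) e (h2.symm c)
        · exact hne (h1 _ _ _ _ (g1 y hy) (g1 z hz) e)
        · exact g2 y hy z _ (g1 z hz) e c
  exact_mod_cast h7

theorem exp_sw {α γ : Type} [Fintype α] [DecidableEq α] [DecidableEq γ] {p : ℝ} (h0 : 0 ≤ p)
    (h1 : p < 1) (E : Finset α → Prop) (V : Finset α → Finset γ) (U : γ → Finset α)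
    (vs : γ → Finset (Fin n)) {k ζ D J : ℕ} {a m : ℝ} (ha : 0 ≤ a) (hm : 0 ≤ m)
    (hV : ∀ S, E S → ∀ c ∈ V S, Disjoint S (U c) ∧ (U c).card = k ∧ (vs c).Nonempty ∧
      (vs c).card ≤ ζ)
    (hU : ∀ S, E S → ∀ c ∈ V S, ∀ c' ∈ V S, Disjoint (vs c) (vs c') → Disjoint (U c) (U c'))
    (hD : ∀ S, E S → ∀ v, ((V S).filter fun c => v ∈ vs c).card ≤ D)
    (hA : ∀ S, E S → a + 1 + J * ζ * D ≤ (V S).card)
    (hL : ∀ S', ∃ Ls : Finset γ, ∀ S, E S → ∀ C ⊆ V S, C.Nonempty → C.card ≤ J →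
      (C : Set γ).PairwiseDisjoint vs → S' = S ∪ C.biUnion U →
      (Ls.card : ℝ) ≤ m ∧ ∃ c ∈ C, c ∈ Ls) :
    Pr p E * (a * (p / (1 - p)) ^ k) ^ J ≤ (J * m) ^ J := by
  classical
  have rev : ∀ j ≤ J, ∀ (S' : Finset α) (A : Finset (Finset γ)), (∀ C ∈ A, ∃ S, E S ∧ C ⊆ V S ∧
      C.card = j ∧ (C : Set γ).PairwiseDisjoint vs ∧ S' = S ∪ C.biUnion U) →
      (A.card : ℝ) ≤ m ^ j := fun j => by
    induction j with
    | zero =>
      intro _ S' A hA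
      rw [pow_zero]
      exact_mod_cast card_le_one.2 fun a ha b hb => by
        obtain ⟨_, -, -, e, -⟩ := hA a ha
        obtain ⟨_, -, -, e', -⟩ := hA b hb
        rw [card_eq_zero.1 e, card_eq_zero.1 e']
    | succ j ih =>
      intro hj S' A hA
      rcases A.eq_empty_or_nonempty with rfl | ⟨C0, hC0⟩
      · simpa only [card_empty, CharP.cast_eq_zero] using pow_nonneg hm _
      obtain ⟨Ls, hLs⟩ := hL S'
      have h2 : ∀ C ∈ A, (Ls.card : ℝ) ≤ m ∧ ∃ c ∈ C, c ∈ Ls := fun C hC => by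
        obtain ⟨S, a1, a2, a3, a4, a5⟩ := hA C hC
        exact hLs S a1 C a2 (card_pos.1 (by omega)) (by omega) a4 a5
      have h3 := (h2 C0 hC0).1
      have : Nonempty γ := ⟨(h2 C0 hC0).2.choose⟩
      choose! g g1 g2 using fun C hC => (h2 C hC).2
      rw [card_eq_sum_card_fiberwise (f := g) (t := Ls) g2, Nat.cast_sum, pow_succ']
      refine (sum_le_card_nsmul _ _ (m ^ j) fun c _ => ?_).trans ?_
      · rw [← card_image_of_injOn (f := fun C => C.erase c) fun C hC C' hC' h => by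
          have a := mem_filter.1 hC
          have b := mem_filter.1 hC'
          have h' : C.erase c = C'.erase c := h
          rw [← insert_erase (a.2 ▸ g1 C a.1 : c ∈ C), h', insert_erase (b.2 ▸ g1 C' b.1)]]
        refine ih (by omega) (S' \ U c) _ fun C' hC' => ?_
        obtain ⟨C, hC, rfl⟩ := mem_image.1 hC'
        have a := mem_filter.1 hC
        have hc : c ∈ C := a.2 ▸ g1 C a.1
        obtain ⟨S, a1, a2, a3, a4, a5⟩ := hA C a.1
        refine ⟨S, a1, (erase_subset _ _).trans a2, by rw [card_erase_of_mem hc, a3]; rfl,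
          a4.subset (coe_subset.2 (erase_subset _ _)), ?_⟩
        rw [a5, ← insert_erase hc, biUnion_insert, insert_erase hc, union_left_comm]
        refine union_sdiff_cancel_left (disjoint_union_right.2
          ⟨(hV S a1 c (a2 hc)).1.symm, (disjoint_biUnion_right _ _ _).2 fun c' hc' => ?_⟩)
        have b := mem_erase.1 hc'
        exact hU S a1 c (a2 hc) c' (a2 b.2) (a4 hc b.2 b.1.symm)
      · rw [nsmul_eq_mul]
        exact mul_le_mul_of_nonneg_right h3 (pow_nonneg hm _)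
  let T : Finset α → Finset (Finset γ) := fun S =>
    ((V S).powersetCard J).filter fun C => (C : Set γ).PairwiseDisjoint vs
  have hT : ∀ S C, C ∈ T S ↔ (C ⊆ V S ∧ C.card = J) ∧ (C : Set γ).PairwiseDisjoint vs :=
    fun S C => by simp [T, mem_powersetCard]
  rcases Nat.eq_zero_or_pos J with rfl | J0
  · simpa using Pr_mono h0 h1.le (F := fun _ => True) (fun _ _ => trivial) |>.trans
      (by simp only [Pr, ↓ reduceIte, sum_wt, Std.le_refl])
  have J1 : (0 : ℝ) < (J : ℝ) ^ J := by positivity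
  have key := pr_switch h0 h1 E T (fun C => C.biUnion U) (k := J * k) (a := a ^ J / J ^ J)
    (b := m ^ J) (fun S hS C hC => ?_) (fun S hS => ?_) fun S' A hA => rev J le_rfl S' A
      fun C hC => ⟨_, (hA C hC).2.1, ((hT _ _).1 (hA C hC).2.2).1.1,
        ((hT _ _).1 (hA C hC).2.2).1.2, ((hT _ _).1 (hA C hC).2.2).2,
        (sdiff_union_of_subset (hA C hC).1).symm⟩
  · rw [mul_pow, mul_pow, ← pow_mul, mul_comm k J]
    refine le_trans (le_of_eq ?_) (mul_le_mul_of_nonneg_left key J1.le)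
    field_simp
  · obtain ⟨⟨a1, a2⟩, a3⟩ := (hT _ _).1 hC
    refine ⟨(disjoint_biUnion_right _ _ _).2 fun c hc => (hV S hS c (a1 hc)).1, ?_⟩
    rw [card_biUnion fun c hc c' hc' hne => hU S hS c (a1 hc) c' (a1 hc') (a3 hc hc' hne),
      sum_congr rfl fun c hc => (hV S hS c (a1 hc)).2.1, sum_const, a2, smul_eq_mul]
  · have h2 := card_tuples (V S) vs ∅ (J := J) (a := ⌈a⌉₊) (fun c hc => (hV S hS c hc).2.2.2)
      (hD S hS) (by
        have h3 := hA S hS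
        have h4 := Nat.ceil_lt_add_one ha
        rw [card_empty, zero_add]
        have : ((⌈a⌉₊ + J * ζ * D : ℕ) : ℝ) ≤ (V S).card := by push_cast; linarith only [h3, h4]
        exact_mod_cast this)
    have h3 := h2.trans (card_le_mul_card_image_of_maps_to (t := T S) (f := fun t => univ.image t)
      (n := J ^ J) (fun t ht => ?_) fun C hC => ?_)
    · rw [div_le_iff₀ J1]
      refine (pow_le_pow_left₀ ha (Nat.le_ceil a) J).trans ?_
      rw [mul_comm]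
      exact_mod_cast h3
    · obtain ⟨a1, -, a2⟩ := mem_filter.1 ht
      have a3 := Fintype.mem_piFinset.1 a1
      have a4 : Function.Injective t := fun i k h => by_contra fun hne => by
        have := a2 i k hne
        rw [← h, disjoint_self] at this
        exact (hV S hS _ (a3 i)).2.2.1.ne_empty this
      refine (hT _ _).2 ⟨⟨image_subset_iff.2 fun i _ => a3 i, by
        rw [card_image_of_injective _ a4, card_univ, Fintype.card_fin]⟩, fun c hc c' hc' hne => ?_⟩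
      obtain ⟨i, -, rfl⟩ := mem_image.1 hc
      obtain ⟨k, -, rfl⟩ := mem_image.1 hc'
      exact a2 i k fun h => hne (congrArg t h)
    · refine (card_le_card (t := Fintype.piFinset fun _ : Fin J => C) fun t ht => ?_).trans ?_
      · exact Fintype.mem_piFinset.2 fun i =>
          (mem_filter.1 ht).2 ▸ mem_image_of_mem t (mem_univ i)
      · simp only [Fintype.card_piFinset, ((hT _ _).1 hC).1.2, prod_const, card_univ, Fintype.card_fin, Std.le_refl]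

end

section
variable {n : ℕ}

/-- Units: start, end, middle part. -/
abbrev ExU (n d : ℕ) : Type := Fc n × Fc n × (Fin (d + 1) → Fin n)

/-- Reachable in at most `i` steps. -/
def ExN (d : ℕ) (Q : Fc n → Prop) (x : Fc n) : ℕ → Fc n → Prop
  | 0 => fun y => y = x
  | i + 1 => fun y => ExN d Q x i y ∨ ∃ g, ExN d Q x i g ∧ Adj d Q g y

variable [NeZero n]

/-- The chain of a unit. -/
noncomputable def exq (c : ExU n d) : ℕ → Fin n := tpl d (vx c.1) c.2.2 (vx c.2.1)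

/-- Its vertices. -/
noncomputable def exv (c : ExU n d) : Finset (Fin n) :=
  (range (2 * (d + 1) + d + 1)).image (exq c)

/-- Its new faces. -/
noncomputable def exu (c : ExU n d) : Finset (Fc n) := sU d (exq c) (2 * (d + 1))

/-- Valid units. -/
structure ExV (r0 a1 L ρ hh : ℕ) (S1 S : Set (Fc n)) (c : ExU n d) : Prop where
  e1 : DD d r0 S (2 * a1) c.1
  e2 : a1 ≤ pos d r0 S c.1
  e3 : Rd d S (ρ + 1) c.1
  e4 : c.1.card = d + 1
  h1 : c.2.1.card = d + 1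
  h2 : ¬ Contr d S c.2.1
  h3 : Big d r0 a1 L S1 S c.2.1
  inj : Inj (exq c) (2 * (d + 1) + d + 1)
  site : ∀ x ⊆ exv c, Rd d S hh x → x = c.1
  idle : ∀ f ∈ exu c, ¬ Tch (Rd d S hh) f

theorem exq_lo (c : ExU n d) {i : ℕ} (hi : i ≤ d) : exq c i = vx c.1 i :=
  if_pos (Nat.lt_succ_of_le hi)

theorem exq_mid (c : ExU n d) (i : Fin (d + 1)) : exq c (i + (d + 1)) = c.2.2 i := by
  simp only [exq, tpl, ext, fz, Nat.add_sub_cancel]
  rw [if_neg (by omega), if_pos i.2, dif_pos i.2]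

theorem exq_hi (c : ExU n d) (i : ℕ) : exq c (2 * (d + 1) + i) = vx c.2.1 i := by
  simp only [exq, tpl, ext]
  rw [if_neg (by omega), if_neg (by omega)]
  congr 1
  omega

theorem exq_ext {c c' : ExU n d} (a : c.1.card = d + 1) (b : c.2.1.card = d + 1)
    (a' : c'.1.card = d + 1) (b' : c'.2.1.card = d + 1)
    (h : ∀ t < 2 * (d + 1) + d + 1, exq c t = exq c' t) : c = c' := by
  refine Prod.ext ?_ (Prod.ext ?_ (funext fun i => ?_))
  · rw [← image_vx a, ← image_vx a']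
    refine image_congr fun i hi => ?_
    have := mem_range.1 (mem_coe.1 hi)
    rw [← exq_lo c (by omega), ← exq_lo c' (by omega), h i (by omega)]
  · rw [← image_vx b, ← image_vx b']
    refine image_congr fun i hi => ?_
    have := mem_range.1 (mem_coe.1 hi)
    rw [← exq_hi, ← exq_hi, h _ (by omega)]
  · rw [← exq_mid, ← exq_mid, h _ (by omega)]

theorem exp_f_prod {α β : Type} [Fintype α] [Fintype β] (P : α × β → Prop) (A : α → Prop)
    {y a : ℝ} (hy : 0 ≤ y) (ha : a ≤ cd A) (h : ∀ s, A s → y ≤ cd fun t => P (s, t)) :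
    a * y ≤ cd P := by
  classical
  have e : cd P = ∑ s, cd fun t => P (s, t) := by
    simp only [cd, card_filter, Fintype.sum_prod_type]
  refine (mul_le_mul_of_nonneg_right ha hy).trans ?_
  rw [e, Nat.cast_sum, cd, ← nsmul_eq_mul]
  exact (card_nsmul_le_sum _ _ y fun s hs => h s (mem_filter.1 hs).2).trans
    (sum_le_sum_of_subset_of_nonneg (filter_subset _ _) fun _ _ _ => Nat.cast_nonneg _)

theorem exp_f_res {γ : Type} [Fintype γ] (ι : γ → ExU n d) (hι : Function.Injective ι)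
    {P : γ → Prop} (F I : Finset ℕ) (i0 : ℕ) (B : Fc n → Fin n → Prop) {x : ℝ} (hx : 0 ≤ x)
    (hB : ∀ r, (cd (B r) : ℝ) ≤ x) (hI : ∀ t ∈ I, t < 2 * (d + 1) + d + 1 ∧ t ≠ i0)
    (h1 : ∀ c, P c → (ι c).1.card = d + 1 ∧ (ι c).2.1.card = d + 1 ∧
      B (I.image (exq (ι c))) (exq (ι c) i0))
    (h2 : ∀ c c', ∀ t < 2 * (d + 1) + d + 1, t ≠ i0 → t ∉ F → exq (ι c) t = exq (ι c') t) :
    (cd P : ℝ) ≤ (n : ℝ) ^ F.card * x := by
  classical
  have h3 : ∀ c c', (∀ t ∈ F, exq (ι c) t = exq (ι c') t) → ∀ t < 2 * (d + 1) + d + 1, t ≠ i0 →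
      exq (ι c) t = exq (ι c') t := fun c c' h t a b =>
    (em (t ∈ F)).elim (h t) (h2 c c' t a b)
  refine exp_fib _ (fun c => exq (ι c)) F (fun c => exq (ι c) i0) hx
    (fun c hc c' hc' a b => hι ?_) fun c0 _ => ⟨_, hB (I.image (exq (ι c0))), fun c hc a => ?_⟩
  · have e := h1 c (mem_filter.1 hc).2
    have e' := h1 c' (mem_filter.1 hc').2
    exact exq_ext e.1 e.2.1 e'.1 e'.2.1 fun t ht =>
      (em (t = i0)).elim (fun k => k ▸ b) (h3 c c' a t ht)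
  · refine mem_filter.2 ⟨mem_univ _, ?_⟩
    rw [← image_congr fun t ht => h3 c c0 a t (hI t ht).1 (hI t ht).2]
    exact (h1 c (mem_filter.1 hc).2).2.2

theorem exp_f_mid {e h : Fc n} (he : e.card = d + 1) (hh : h.card = d + 1)
    {P : (Fin (d + 1) → Fin n) → Prop} (I : Finset ℕ) {i0 : ℕ} (a1 : d + 1 ≤ i0)
    (a2 : i0 < 2 * (d + 1)) (B : Fc n → Fin n → Prop) {x : ℝ} (hx : 0 ≤ x)
    (hB : ∀ r, (cd (B r) : ℝ) ≤ x) (hI : ∀ t ∈ I, t < 2 * (d + 1) + d + 1 ∧ t ≠ i0)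
    (h1 : ∀ z, P z → B (I.image (exq (e, h, z))) (exq (e, h, z) i0)) :
    (cd P : ℝ) ≤ (n : ℝ) ^ d * x := by
  have := exp_f_res (fun z => (e, h, z)) (fun z z' k => congrArg (·.2.2) k)
    ((Ico (d + 1) (2 * (d + 1))).erase i0) I i0 B hx hB hI (fun z hz => ⟨he, hh, h1 z hz⟩)
    fun z z' t b1 b2 b3 => by
      simp only [mem_erase, mem_Ico] at b3
      by_cases b4 : t ≤ d
      · rw [exq_lo _ b4, exq_lo _ b4]
      · obtain ⟨s, rfl⟩ : ∃ s, t = 2 * (d + 1) + s := ⟨t - 2 * (d + 1), by omega⟩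
        rw [exq_hi, exq_hi]
  rwa [card_erase_of_mem (mem_Ico.2 ⟨a1, a2⟩), Nat.card_Ico,
    show 2 * (d + 1) - (d + 1) - 1 = d by omega] at this

theorem exp_f_all {e : Fc n} (he : e.card = d + 1)
    {P : Fc n × (Fin (d + 1) → Fin n) → Prop} (I : Finset ℕ) {i0 : ℕ} (a1 : d + 1 ≤ i0)
    (a2 : i0 < 2 * (d + 1) + d + 1) (B : Fc n → Fin n → Prop) {x : ℝ} (hx : 0 ≤ x)
    (hB : ∀ r, (cd (B r) : ℝ) ≤ x) (hI : ∀ t ∈ I, t < 2 * (d + 1) + d + 1 ∧ t ≠ i0)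
    (h1 : ∀ z, P z → z.1.card = d + 1 ∧ B (I.image (exq (e, z))) (exq (e, z) i0)) :
    (cd P : ℝ) ≤ (n : ℝ) ^ (2 * d + 1) * x := by
  have := exp_f_res (fun z => (e, z)) (fun z z' k => congrArg (·.2) k)
    ((Ico (d + 1) (2 * (d + 1) + d + 1)).erase i0) I i0 B hx hB hI (fun z hz => ⟨he, h1 z hz⟩)
    fun z z' t b1 b2 b3 => by
      simp only [mem_erase, mem_Ico] at b3
      rw [exq_lo _ (by omega), exq_lo _ (by omega)]
  rwa [card_erase_of_mem (mem_Ico.2 ⟨a1, a2⟩), Nat.card_Ico,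
    show 2 * (d + 1) + d + 1 - (d + 1) - 1 = 2 * d + 1 by omega] at this

omit [NeZero n] in
theorem exp_f_and {Q : Prop} {P : Fin n → Prop} {x : ℝ} (hx : 0 ≤ x) (h : Q → (cd P : ℝ) ≤ x) :
    (cd fun v => Q ∧ P v : ℝ) ≤ x := by
  by_cases q : Q
  · simpa only [q, true_and] using h q
  · exact le_trans (by simp [cd, q]) hx

omit [NeZero n] in
/-- A face inside the chain as an extension of a ridge. -/
theorem exp_f_idx {p : ℕ → Fin n} {N : ℕ} (hp : Inj p N) {T : Finset ℕ} (hT : ∀ t ∈ T, t < N)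
    {f : Fc n} (hf : f.card = d + 1) (h : f ⊆ T.image p) :
    ∃ I ⊆ T, I.card = d + 1 ∧ (∀ t ∈ T, t ∈ I ↔ p t ∈ f) ∧ I.image p = f ∧ ∀ i0 ∈ I,
      ((I.erase i0).image p).card = d ∧ p i0 ∉ (I.erase i0).image p ∧
        insert (p i0) ((I.erase i0).image p) = f := by
  have a1 : (T.filter fun t => p t ∈ f).image p = f := by
    ext v
    simp only [mem_image, mem_filter]
    refine ⟨fun ⟨t, a, b⟩ => b ▸ a.2, fun a => ?_⟩
    obtain ⟨t, b, c⟩ := mem_image.1 (h a)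
    exact ⟨t, ⟨b, c ▸ a⟩, c⟩
  have a2 : ∀ J ⊆ T, (J.image p).card = J.card := fun J hJ =>
    card_image_of_injOn fun s hs t ht e => hp (hT s (hJ hs)) (hT t (hJ ht)) e
  have a3 : (T.filter fun t => p t ∈ f).card = d + 1 := by
    rw [← a2 _ (filter_subset _ _), a1, hf]
  refine ⟨_, filter_subset _ _, a3, fun t ht => by simp [ht], a1, fun i0 h0 => ⟨?_, fun b => ?_, ?_⟩⟩
  · rw [a2 _ ((erase_subset _ _).trans (filter_subset _ _)), card_erase_of_mem h0, a3]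
    rfl
  · obtain ⟨t, c1, c2⟩ := mem_image.1 b
    exact (mem_erase.1 c1).1
      (hp (hT t (mem_filter.1 (mem_erase.1 c1).2).1) (hT i0 (mem_filter.1 h0).1) c2)
  · rw [← image_insert, insert_erase h0, a1]

/-- Tuples with a repeated vertex. -/
theorem exp_f_inj {e h : Fc n} (he : e.card = d + 1) (hh : h.card = d + 1) (hd : Disjoint e h) :
    (cd fun z => ¬ Inj (exq (d := d) (e, h, z)) (2 * (d + 1) + d + 1) : ℝ) ≤
      (d + 1) * ((n : ℝ) ^ d * (3 * (d + 1))) := by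
  refine (cd_le_mul (Ico (d + 1) (2 * (d + 1))) (fun i z => exq (e, h, z) i ∈
    ((range (2 * (d + 1) + d + 1)).erase i).image (exq (e, h, z))) (fun z hz => ?_)
    fun i hi => exp_f_mid he hh ((range (2 * (d + 1) + d + 1)).erase i) (mem_Ico.1 hi).1
      (mem_Ico.1 hi).2 (fun r v => r.card ≤ 3 * (d + 1) ∧ v ∈ r) (x := 3 * (d + 1)) (by positivity)
      (fun r => exp_f_and (by positivity) fun q => by exact_mod_cast (cd_mem r).trans_le q)
      (fun t ht => ⟨mem_range.1 (mem_erase.1 ht).2, (mem_erase.1 ht).1⟩)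
      fun z hz => ⟨card_image_le.trans (card_erase_le.trans (by rw [card_range]; omega)), hz⟩).trans
    (le_of_eq ?_)
  · by_contra hc
    push Not at hc
    have k : ∀ s < 2 * (d + 1) + d + 1, ∀ t < 2 * (d + 1) + d + 1, s ≠ t →
        exq (e, h, z) s = exq (e, h, z) t → t ≤ d ∨ 2 * (d + 1) ≤ t := fun s a t b c q => by
      by_contra r
      exact hc t (mem_Ico.2 (by omega)) (mem_image.2 ⟨s, mem_erase.2 ⟨c, mem_range.2 a⟩, q⟩)
    refine hz fun s a t b q => by_contra fun c => ?_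
    have a' : s < 2 * (d + 1) + d + 1 := a
    have b' : t < 2 * (d + 1) + d + 1 := b
    rcases k s a t b c q with k1 | k1 <;> rcases k t b s a (Ne.symm c) q.symm with k2 | k2
    · rw [exq_lo _ k1, exq_lo _ k2] at q
      exact c (vx_inj he k2 k1 q)
    · obtain ⟨s, rfl⟩ := Nat.exists_eq_add_of_le k2
      rw [exq_lo _ k1, exq_hi] at q
      exact disjoint_left.1 hd (vx_mem he k1) (q ▸ vx_mem hh (i := s) (by omega))
    · obtain ⟨t, rfl⟩ := Nat.exists_eq_add_of_le k1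
      rw [exq_lo _ k2, exq_hi] at q
      exact disjoint_left.1 hd (vx_mem he k2) (q ▸ vx_mem hh (i := t) (by omega))
    · obtain ⟨s, rfl⟩ := Nat.exists_eq_add_of_le k2
      obtain ⟨t, rfl⟩ := Nat.exists_eq_add_of_le k1
      rw [exq_hi, exq_hi] at q
      exact c (by rw [vx_inj hh (by omega) (by omega) q])
  · rw [Nat.card_Ico, show 2 * (d + 1) - (d + 1) = d + 1 by omega]
    push_cast
    rfl

/-- Tuples with a unit that is touched with a late face. -/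
theorem exp_f_sb {r0 hh : ℕ} {S : Set (Fc n)} {x : ℝ} (hx : 0 ≤ x) (h3 : SB d r0 hh S x)
    {e h : Fc n} (he : e.card = d + 1) (hh' : h.card = d + 1) :
    (cd fun z => Inj (exq (d := d) (e, h, z)) (2 * (d + 1) + d + 1) ∧ ∃ f ∈ exu (d := d) (e, h, z),
      ¬ Rd d S hh f ∧ Tch (Rd d S hh) f ∧ ¬ Tch (Rd d S r0) f : ℝ) ≤
      (2 * (d + 1) * (d + 2)) * ((n : ℝ) ^ d * x) := by
  let B : Fc n → Fin n → Prop := fun r v => r.card = d ∧ v ∉ r ∧ ¬ Rd d S hh (insert v r) ∧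
    ∃ u ∉ insert v r, ∃ o ∈ insert v r, (∀ y ∈ slt (insert v r) u o, Rd d S hh y) ∧
      ∃ y ∈ slt (insert v r) u o, ¬ Rd d S r0 y
  have hB : ∀ r, (cd (B r) : ℝ) ≤ x := fun r => exp_f_and hx (h3 r)
  let k : ℕ → ℕ := fun j => if j ≤ d then j + d + 1 else j
  refine (cd_le_mul (β := ℕ × Finset ℕ) (((range (2 * (d + 1))).sigma fun j =>
    powersetCard (d + 1) (Icc j (j + d + 1))).image fun s => (s.1, s.2))
    (fun s z => B ((s.2.erase (k s.1)).image (exq (e, h, z))) (exq (e, h, z) (k s.1)))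
    (k := (n : ℝ) ^ d * x) (fun z hz => ?_) fun s hs => ?_).trans ?_
  · obtain ⟨a1, f, a2, a3, ⟨u, a4, o, a5, a6⟩, a7⟩ := hz
    obtain ⟨j, b0, b1⟩ := mem_biUnion.1 a2
    have b2 := mem_range.1 b0
    obtain ⟨c1, c2, c3, c4⟩ := su_spec a1 b2 b1
    obtain ⟨I, e1, e2, e3, -, e5⟩ := exp_f_idx a1 (T := Icc j (j + d + 1))
      (fun t ht => by have := mem_Icc.1 ht; omega) c1 fun v hv => by
        obtain ⟨i, f1, f2⟩ := c4 v hv
        exact mem_image.2 ⟨j + i, mem_Icc.2 (by omega), f2⟩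
    obtain ⟨g1, g2, g3⟩ := e5 (k j) (by
      simp only [k]
      split_ifs
      · exact (e3 _ (mem_Icc.2 (by omega))).2 c3
      · exact (e3 _ (mem_Icc.2 (by omega))).2 c2)
    refine ⟨(j, I), mem_image.2 ⟨⟨j, I⟩, mem_sigma.2 ⟨b0, mem_powersetCard.2 ⟨e1, e2⟩⟩, rfl⟩, g1, g2, ?_⟩
    rw [g3]
    refine ⟨a3, u, a4, o, a5, a6, by_contra fun q => a7 ⟨u, a4, o, a5, fun y hy => ?_⟩⟩
    exact by_contra fun q' => q ⟨y, hy, q'⟩
  · obtain ⟨⟨j, I⟩, b0, rfl⟩ := mem_image.1 hs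
    obtain ⟨b1, b2⟩ := mem_sigma.1 b0
    have b3 : j < 2 * (d + 1) := mem_range.1 b1
    refine exp_f_mid he hh' (I.erase (k j)) (i0 := k j) ?_ ?_ B hx hB (fun t ht => ⟨?_, (mem_erase.1 ht).1⟩)
      fun z hz => hz
    · simp only [k]
      split_ifs <;> omega
    · simp only [k]
      split_ifs <;> omega
    · have := mem_Icc.1 ((mem_powersetCard.1 b2).1 (mem_erase.1 ht).2)
      simp only at this
      omega
  · refine mul_le_mul_of_nonneg_right ?_ (by positivity)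
    have : (((range (2 * (d + 1))).sigma fun j => powersetCard (d + 1) (Icc j (j + d + 1))).image
        fun s => (s.1, s.2)).card ≤ 2 * (d + 1) * (d + 2) := by
      refine card_image_le.trans (le_of_eq ?_)
      rw [card_sigma, sum_congr rfl fun j _ => show _ = d + 2 by
        rw [card_powersetCard, Nat.card_Icc, show j + d + 1 + 1 - j = d + 1 + 1 by omega,
          Nat.choose_succ_self_right], sum_const, card_range, smul_eq_mul]
    exact_mod_cast this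

/-- Pairs with a second face of the world inside the chain. -/
theorem exp_f_site {hh : ℕ} {S : Set (Fc n)} (hS : ∀ f ∈ S, f.card = d + 1) {x : ℝ} (hx : 0 ≤ x)
    (h4 : Rdg d (Rd d S hh) x) {e : Fc n} (he : e.card = d + 1) :
    (cd fun z : Fc n × (Fin (d + 1) → Fin n) => z.1.card = d + 1 ∧
      Inj (exq (e, z)) (2 * (d + 1) + d + 1) ∧ ∃ y ⊆ exv (e, z), Rd d S hh y ∧ y ≠ e : ℝ) ≤
      2 ^ (3 * (d + 1)) * ((n : ℝ) ^ (2 * d + 1) * x) := by
  let B : Fc n → Fin n → Prop := fun r v => r.card = d ∧ v ∉ r ∧ Rd d S hh (insert v r)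
  have hB : ∀ r, (cd (B r) : ℝ) ≤ x := fun r => exp_f_and hx (h4 r)
  refine (cd_le_mul (((range (2 * (d + 1) + d + 1)).powerset).filter fun I =>
      d + 1 ≤ I.sup id ∧ I.sup id < 2 * (d + 1) + d + 1)
    (fun I z => z.1.card = d + 1 ∧
      B ((I.erase (I.sup id)).image (exq (e, z))) (exq (e, z) (I.sup id)))
    (k := (n : ℝ) ^ (2 * d + 1) * x) (fun z hz => ?_) fun I hI => ?_).trans ?_
  · obtain ⟨a1, a2, y, a3, a4, a5⟩ := hz
    have b0 := rd_card hS a4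
    obtain ⟨I, e1, e2, -, e4, e5⟩ := exp_f_idx a2 (fun t ht => mem_range.1 ht) b0 a3
    obtain ⟨i, f1, f2⟩ := exists_mem_eq_sup I (card_pos.1 (by omega)) id
    obtain ⟨g1, g2, g3⟩ := e5 (I.sup id) (f2 ▸ f1)
    refine ⟨I, mem_filter.2 ⟨mem_powerset.2 e1, by_contra fun q => a5 ?_,
      f2 ▸ mem_range.1 (e1 f1)⟩, a1, g1, g2, g3 ▸ a4⟩
    refine eq_of_subset_of_card_le (fun v hv => ?_) (by omega)
    obtain ⟨t, k1, rfl⟩ := mem_image.1 (e4 ▸ hv)
    have k2 : t ≤ I.sup id := le_sup (f := id) k1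
    rw [exq_lo _ (show t ≤ d by omega)]
    exact vx_mem he (by omega)
  · obtain ⟨b1, b2, b3⟩ := mem_filter.1 hI
    exact exp_f_all he (I.erase (I.sup id)) b2 b3 B hx hB (fun t ht =>
      ⟨mem_range.1 (mem_powerset.1 b1 (mem_erase.1 ht).2), (mem_erase.1 ht).1⟩) fun z hz => hz
  · refine mul_le_mul_of_nonneg_right ?_ (by positivity)
    have := card_filter_le ((range (2 * (d + 1) + d + 1)).powerset) fun I =>
      d + 1 ≤ I.sup id ∧ I.sup id < 2 * (d + 1) + d + 1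
    rw [card_powerset, card_range, show 2 * (d + 1) + d + 1 = 3 * (d + 1) by omega] at this
    rw [show 2 * (d + 1) + d + 1 = 3 * (d + 1) by omega]
    exact_mod_cast this

omit [NeZero n] in
/-- Faces that meet a face. -/
theorem exp_f_meet {e : Fc n} (he : e.card = d + 1) :
    (cd fun h : Fc n => h.card = d + 1 ∧ ¬ Disjoint e h : ℝ) ≤ (d + 1) * (n : ℝ) ^ d := by
  refine (cd_le_mul e (fun v h => h.card = d + 1 ∧ v ∈ h) (k := (n : ℝ) ^ d) (fun h a => ?_)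
    fun v _ => ?_).trans (by rw [he]; push_cast; rfl)
  · obtain ⟨v, b, c⟩ := not_disjoint_iff.1 a.2
    exact ⟨v, b, a.1, c⟩
  · have := cd_le_of_inj (P := fun h : Fc n => h.card = d + 1 ∧ v ∈ h) (powersetCard d univ)
      (fun h => h.erase v) (fun h a => mem_powersetCard.2 ⟨subset_univ _, by
        rw [card_erase_of_mem a.2, a.1]; rfl⟩) fun h h' a b q => by
        rw [← insert_erase a.2, q, insert_erase b.2]
    rw [card_powersetCard, card_univ, Fintype.card_fin] at this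
    exact_mod_cast this.trans (Nat.choose_le_pow n d)

/-- Many valid units. -/
theorem exp_fwd (hd : 2 ≤ d) {r0 a1 L ρ hh : ℕ} {c4 Bn x : ℝ} {S1 S : Set (Fc n)}
    (hS : ∀ f ∈ S, f.card = d + 1) (hc : 0 < c4) (hx : 0 ≤ x) (hB : 0 ≤ Bn)
    (h1 : ¬ Small d r0 S (ρ + 1) (2 * a1)) (h2 : Iso d r0 (d + 1) (2 * (d + 1)) c4 S)
    (h3 : SB d r0 hh S (c4 / (8 * d * (d + 1)) * n)) (h4 : Rdg d (Rd d S hh) x)
    (h5 : Bn ≤ cd fun h => h.card = d + 1 ∧ ¬ Contr d S h ∧ Big d r0 a1 L S1 S h)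
    (h6 : (d + 1) * (3 * (d + 1)) ≤ c4 / 4 * n) (h7 : (d + 1) * (n : ℝ) ^ d ≤ Bn / 2) :
    a1 * (Bn / 2 * (c4 / 4 * (n : ℝ) ^ (d + 1)) - 2 ^ (3 * (d + 1)) * ((n : ℝ) ^ (2 * d + 1) * x)) ≤
      cd (ExV (d := d) r0 a1 L ρ hh S1 S) := by
  rcases le_total (Bn / 2 * (c4 / 4 * (n : ℝ) ^ (d + 1)) -
    2 ^ (3 * (d + 1)) * ((n : ℝ) ^ (2 * d + 1) * x)) 0 with y0 | y0
  · exact (mul_nonpos_of_nonneg_of_nonpos a1.cast_nonneg y0).trans (Nat.cast_nonneg _)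
  have d0 : (2 : ℝ) ≤ d := by exact_mod_cast hd
  have n0 : (0 : ℝ) ≤ (n : ℝ) ^ d := by positivity
  refine exp_f_prod _ (fun e => DD d r0 S (2 * a1) e ∧ a1 ≤ pos d r0 S e) y0 ?_ fun e he => ?_
  · have a : 2 * a1 ≤ cd (IsD d r0 S) :=
      (not_le.1 h1).le.trans (cd_mono fun z k => ⟨k.1.contr, k.2⟩)
    have b := (cd_mono (P := DD d r0 S (2 * a1)) fun z k => (lt_or_ge (pos d r0 S z) a1).imp
      (fun q => ⟨k.1, q⟩) fun q => And.intro k q).trans (cd_or (DD d r0 S a1) _)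
    rw [card_dd a, card_dd (le_trans (by omega) a : a1 ≤ _)] at b
    exact_mod_cast (by omega : a1 ≤ _)
  have e4 := contr_card hS he.1.1.1
  let Z : Fc n × (Fin (d + 1) → Fin n) → Prop := fun z =>
    (z.1.card = d + 1 ∧ ¬ Contr d S z.1 ∧ Big d r0 a1 L S1 S z.1) ∧
      Inj (exq (e, z)) (2 * (d + 1) + d + 1) ∧
      ∀ f ∈ exu (e, z), ¬ Rd d S hh f → ¬ Tch (Rd d S hh) f
  have k1 : Bn / 2 * (c4 / 4 * (n : ℝ) ^ (d + 1)) ≤ cd Z := by
    refine exp_f_prod Z (fun h => (h.card = d + 1 ∧ ¬ Contr d S h ∧ Big d r0 a1 L S1 S h) ∧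
      Disjoint e h) (by positivity) ?_ fun h hh' => ?_
    · have a := (cd_mono (P := fun h => h.card = d + 1 ∧ ¬ Contr d S h ∧ Big d r0 a1 L S1 S h)
        fun h k => (em (Disjoint e h)).imp (And.intro k) (And.intro k.1)).trans (cd_or _ _)
      have b := exp_f_meet e4
      have c := (Nat.cast_le (α := ℝ)).2 a
      push_cast at c
      linarith only [h5, h7, b, c]
    · have a1 := exp_f_inj e4 hh'.1.1 hh'.2
      have a2 := exp_f_sb (by positivity) h3 e4 hh'.1.1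
      have a3 := h2 (vx e) (vx h)
      have a4 : (n : ℝ) ^ (d + 1) = cd fun _ : Fin (d + 1) → Fin n => True := by simp only [cd, filter_true, card_univ, Fintype.card_pi, Fintype.card_fin, prod_const, Nat.cast_pow]
      have a5 := (cd_mono (P := fun _ : Fin (d + 1) → Fin n => True) (Q := fun z => Z (h, z) ∨
        ¬ Inj (exq (d := d) (e, h, z)) (2 * (d + 1) + d + 1) ∨
        (Inj (exq (d := d) (e, h, z)) (2 * (d + 1) + d + 1) ∧ ∃ f ∈ exu (d := d) (e, h, z),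
          ¬ Rd d S hh f ∧ Tch (Rd d S hh) f ∧ ¬ Tch (Rd d S r0) f) ∨
        (Inj (tpl d (vx e) z (vx h)) (2 * (d + 1) + d + 1) ∧
          ∃ f ∈ sU d (tpl d (vx e) z (vx h)) (2 * (d + 1)), Tch (Rd d S r0) f)) fun z _ => by
          by_cases q : Inj (exq (d := d) (e, h, z)) (2 * (d + 1) + d + 1)
          · by_contra r
            simp only [not_or] at r
            exact r.1 ⟨hh'.1, q, fun f b1 b2 b3 =>
              r.2.2.1 ⟨q, f, b1, b2, b3, fun b4 => r.2.2.2 ⟨q, f, b1, b4⟩⟩⟩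
          · exact .inr (.inl q)).trans ((cd_or _ _).trans (Nat.add_le_add_left
            ((cd_or _ _).trans (Nat.add_le_add_left (cd_or _ _) _)) _))
      have a6 := (Nat.cast_le (α := ℝ)).2 a5
      push_cast at a6
      have a7 : (d + 1) * ((n : ℝ) ^ d * (3 * (d + 1))) ≤ c4 / 4 * (n : ℝ) ^ (d + 1) := by
        rw [pow_succ]
        linarith only [mul_le_mul_of_nonneg_left h6 n0]
      have a8 : (2 * (d + 1) * (d + 2)) * ((n : ℝ) ^ d * (c4 / (8 * d * (d + 1)) * n)) ≤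
          c4 / 2 * (n : ℝ) ^ (d + 1) := by
        rw [show (2 * (d + 1) * (d + 2)) * ((n : ℝ) ^ d * (c4 / (8 * d * (d + 1)) * n)) =
          (d + 2) / (2 * d) * (c4 / 2 * (n : ℝ) ^ (d + 1)) by field_simp; ring]
        exact mul_le_of_le_one_left (by positivity) ((div_le_one (by positivity)).2 (by linarith only [d0]))
      linarith only [a1, a2, a3, a4, a6, a7, a8]
  have k2 := exp_f_site hS hx h4 e4
  have k3 := (cd_mono (P := Z) (Q := fun z => ExV r0 a1 L ρ hh S1 S (e, z) ∨ (z.1.card = d + 1 ∧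
      Inj (exq (e, z)) (2 * (d + 1) + d + 1) ∧ ∃ y ⊆ exv (e, z), Rd d S hh y ∧ y ≠ e))
    fun z ⟨b1, b2, b3⟩ => by
      refine or_iff_not_imp_right.2 fun r => ?_
      have b4 : ∀ y ⊆ exv (e, z), Rd d S hh y → y = e := fun y c1 c2 =>
        by_contra fun c3 => r ⟨b1.1, b2, y, c1, c2, c3⟩
      refine ⟨he.1, he.2, dd_rd h1 he.1, e4, b1.1, b1.2.1, b1.2.2, b2, b4,
        fun f hf => b3 f hf fun c2 => ?_⟩
      obtain ⟨j, c3, c4⟩ := mem_biUnion.1 hf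
      have c5 := mem_range.1 c3
      obtain ⟨-, -, c6, c7⟩ := su_spec b2 c5 c4
      rw [b4 f (fun u hu => by
        obtain ⟨i, g1, rfl⟩ := c7 u hu
        exact mem_image.2 ⟨j + i, mem_range.2 (by omega), rfl⟩) c2] at c6
      obtain ⟨i, g1, g2⟩ := mem_image.1 ((image_vx e4).symm ▸ c6 :
        exq (e, z) (j + d + 1) ∈ (range (d + 1)).image (vx e))
      have g3 := mem_range.1 g1
      have : i = j + d + 1 := b2 (by simp only [Set.mem_Iio, Order.lt_add_one_iff]; omega) (by simp only [Set.mem_Iio, Order.lt_add_one_iff, Order.add_one_le_iff, add_lt_add_iff_right]; omega)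
        ((exq_lo (e, z) (by omega)).trans g2)
      omega).trans (cd_or _ _)
  have k4 := (Nat.cast_le (α := ℝ)).2 k3
  push_cast at k4
  linarith only [k1, k2, k4]

/-- Few valid units through a vertex. -/
theorem exp_deg {r0 a1 L ρ hh : ℕ} {S1 S : Set (Fc n)} (v : Fin n) :
    cd (fun c : ExU n d => ExV r0 a1 L ρ hh S1 S c ∧ v ∈ exv c) ≤
      (d + 1) * n ^ (3 * d + 2) + 2 * (d + 1) * (2 * a1 * n ^ (2 * d + 1)) := by
  have h1 := cd_le_mul (P := fun c : ExU n d => ∃ i ≤ d, ExV r0 a1 L ρ hh S1 S c ∧ exq c i = v)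
    (range (d + 1)) (fun i c => ExV r0 a1 L ρ hh S1 S c ∧ exq c i = v)
    (k := (n ^ (3 * d + 2) : ℕ)) (fun c ⟨i, a, b⟩ => ⟨i, mem_range.2 (by omega), b⟩) fun i hi => by
      have a : i < 3 * d + 3 := by have := mem_range.1 hi; omega
      refine Nat.cast_le.2 ((cd_le_of_inj ((Fintype.piFinset fun _ => univ).filter
        fun f => f ⟨i, a⟩ = v) (fun c (t : Fin (3 * d + 3)) => exq c t) (fun c hc => by
          simp [hc.2]) fun c c' b b' e => exq_ext b.1.e4 b.1.h1 b'.1.e4 b'.1.h1 fun t ht =>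
            congrFun e ⟨t, by omega⟩).trans_eq ?_)
      rw [Fintype.card_filter_piFinset_const_eq_of_mem _ _ (mem_univ _)]
      simp only [card_univ, Fintype.card_fin, Nat.add_one_sub_one]
  have h2 := cd_le_mul (P := fun c : ExU n d => ∃ i < 2 * (d + 1), ExV r0 a1 L ρ hh S1 S c ∧
      exq c (i + (d + 1)) = v) (range (2 * (d + 1)))
    (fun i c => ExV r0 a1 L ρ hh S1 S c ∧ exq c (i + (d + 1)) = v)
    (k := (2 * a1 * n ^ (2 * d + 1) : ℕ)) (fun c ⟨i, a, b⟩ => ⟨i, mem_range.2 a, b⟩) fun i hi => by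
      have a : i < 2 * d + 2 := mem_range.1 hi
      refine Nat.cast_le.2 ((cd_le_of_inj (range (2 * a1) ×ˢ (Fintype.piFinset fun _ => univ).filter
        fun f => f ⟨i, a⟩ = v) (fun c => (pos d r0 S c.1,
          fun t : Fin (2 * d + 2) => exq c (t + (d + 1)))) (fun c hc => by
          simp [hc.2, hc.1.e1.2]) fun c c' b b' e =>
            exq_ext b.1.e4 b.1.h1 b'.1.e4 b'.1.h1 fun t ht => ?_).trans_eq ?_)
      · rcases le_or_gt t d with h | h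
        · rw [exq_lo c h, exq_lo c' h, pos_inj b.1.e1.1 b'.1.e1.1 (congrArg Prod.fst e)]
        · have := congrFun (congrArg Prod.snd e) ⟨t - (d + 1), by omega⟩
          rwa [show t = t - (d + 1) + (d + 1) by omega]
      · rw [card_product, Fintype.card_filter_piFinset_const_eq_of_mem _ _ (mem_univ _)]
        simp only [card_range, card_univ, Fintype.card_fin, Nat.add_one_sub_one]
  rw [card_range] at h1 h2
  refine (cd_mono fun c hc => ?_).trans ((cd_or _ _).trans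
    (Nat.add_le_add (by exact_mod_cast h1) (by exact_mod_cast h2)))
  obtain ⟨i, a, b⟩ := mem_image.1 hc.2
  rcases le_or_gt i d with h | h
  · exact .inl ⟨i, h, hc.1, b⟩
  · exact .inr ⟨i - (d + 1), by have := mem_range.1 a; omega, hc.1, by
      rwa [Nat.sub_add_cancel h]⟩

omit [NeZero n] in
theorem ExN.mono {Q : Fc n → Prop} {x y : Fc n} {i j : ℕ} (h : i ≤ j) (hy : ExN d Q x i y) :
    ExN d Q x j y := by
  induction h with
  | refl => exact hy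
  | step _ ih => exact Or.inl ih

omit [NeZero n] in
theorem exp_ball {Q : Fc n → Prop} {Δ : ℝ} (hΔ : 0 ≤ Δ) (h : Deg d Q Δ) (x : Fc n) (i : ℕ) :
    (cd (ExN d Q x i) : ℝ) ≤ (1 + (d + 1) * Δ) ^ i := by
  classical
  induction i with
  | zero =>
    rw [pow_zero]
    exact_mod_cast cd_le_of_inj {x} id (fun a ha => mem_singleton.2 ha) fun _ _ _ _ e => e
  | succ i ih =>
    have h1 : (cd (fun y => ∃ g, ExN d Q x i g ∧ Adj d Q g y) : ℝ) ≤
        cd (ExN d Q x i) * ((d + 1) * Δ) :=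
      cd_le_mul (univ.filter (ExN d Q x i)) (Adj d Q)
        (fun y ⟨g, a, b⟩ => ⟨g, mem_filter.2 ⟨mem_univ _, a⟩, b⟩) fun g _ => by
        by_cases hg : g.card = d + 1
        · have := cd_le_mul (P := Adj d Q g) g (fun o y => ∃ u, (u ∉ g ∧ ∃ o ∈ g,
            ∀ y ∈ slt g u o, Q y) ∧ y = par g u o) (k := Δ)
            (fun y ⟨_, u, a, o, b, e, f⟩ => ⟨o, b, u, ⟨a, o, b, f⟩, e⟩) fun o _ => by
              refine le_trans ?_ (h g hg)
              have := cd_le_of_inj (P := fun y => ∃ u, (u ∉ g ∧ ∃ o ∈ g,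
                ∀ y ∈ slt g u o, Q y) ∧ y = par g u o) ((univ.filter fun u => u ∉ g ∧ ∃ o ∈ g,
                ∀ y ∈ slt g u o, Q y).image fun u => par g u o) id (fun y ⟨u, a, b⟩ =>
                  mem_image.2 ⟨u, mem_filter.2 ⟨mem_univ _, a⟩, b.symm⟩) fun _ _ _ _ e => e
              refine Nat.cast_le.2 ((this.trans card_image_le).trans (le_of_eq ?_))
              unfold cd
              congr
          rwa [hg, Nat.cast_add, Nat.cast_one] at this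
        · have : cd (Adj d Q g) ≤ (∅ : Finset (Fc n)).card :=
            cd_le_of_inj ∅ id (fun y a => absurd a.1 hg) fun _ _ _ _ e => e
          rw [Nat.le_zero.1 this, Nat.cast_zero]
          positivity
    have h2 : (cd (ExN d Q x (i + 1)) : ℝ) ≤
        cd (ExN d Q x i) + cd (fun y => ∃ g, ExN d Q x i g ∧ Adj d Q g y) := by
      exact_mod_cast cd_or (ExN d Q x i) fun y => ∃ g, ExN d Q x i g ∧ Adj d Q g y
    have h3 : 0 ≤ 1 + (d + 1) * Δ := by positivity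
    rw [pow_succ]
    linarith only [mul_le_mul_of_nonneg_right ih h3, h1, h2]

omit [NeZero n] in
theorem exp_three (hd : 2 ≤ d) {p : ℕ → Fin n} {t : ℕ} (hp : Inj p (t + d + 1))
    {σ : Finset (Fin n)} (hσ : σ.card = d + 2) {o : Fin n}
    (h : ∀ w ∈ σ, w ≠ o → σ.erase w ∈ sU d p t) : False := by
  have h1 : ∀ w ∈ σ, w ≠ o → ∃ j < t, p j ∈ σ.erase w ∧ p (j + d + 1) ∈ σ.erase w ∧
      ∀ u ∈ σ.erase w, ∃ i ≤ d + 1, p (j + i) = u := fun w hw ho => by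
    obtain ⟨j, hj, hy⟩ := mem_biUnion.1 (h w hw ho)
    exact ⟨j, mem_range.1 hj, (su_spec hp (mem_range.1 hj) hy).2⟩
  choose! j j1 j2 j3 j4 using h1
  have h2 : ∀ w ∈ σ, w ≠ o → ∀ w' ∈ σ, w' ≠ o → j w < j w' →
      w' = p (j w) ∧ w = p (j w' + d + 1) := fun w hw ho w' hw' ho' hj => by
    have a := j1 w hw ho
    have b := j1 w' hw' ho'
    constructor <;> by_contra hne
    · obtain ⟨i, hi, e⟩ := j4 w' hw' ho' _
        (mem_erase.2 ⟨Ne.symm hne, mem_of_mem_erase (j2 w hw ho)⟩)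
      have := hp (by simp only [Set.mem_Iio]; omega) (by simp only [Set.mem_Iio]; omega) e
      omega
    · obtain ⟨i, hi, e⟩ := j4 w hw ho _
        (mem_erase.2 ⟨Ne.symm hne, mem_of_mem_erase (j3 w' hw' ho')⟩)
      have := hp (by simp only [Set.mem_Iio]; omega) (by simp only [Set.mem_Iio]; omega) e
      omega
  have h3 : ∀ a ∈ σ, a ≠ o → ∀ b ∈ σ, b ≠ o → ¬ j a < j b := fun a ha ao b hb bo hj => by
    obtain ⟨w, hw, hw'⟩ := exists_mem_notMem_of_card_lt_card (s := {o, a, b}) (t := σ)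
      (card_le_three.trans_lt (by omega))
    simp only [mem_insert, mem_singleton, not_or] at hw'
    rcases lt_or_ge (j a) (j w) with e | e
    · exact hw'.2.2 ((h2 a ha ao w hw hw'.1 e).1.trans (h2 a ha ao b hb bo hj).1.symm)
    · exact hw'.2.1 ((h2 w hw hw'.1 b hb bo (e.trans_lt hj)).2.trans (h2 a ha ao b hb bo hj).2.symm)
  obtain ⟨a, ha, ao⟩ := exists_mem_notMem_of_card_lt_card (s := {o}) (t := σ) (by simp; omega)
  rw [mem_singleton] at ao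
  have h4 : ∀ b ∈ σ, b ≠ o → j b = j a := fun b hb bo =>
    le_antisymm (not_lt.1 (h3 a ha ao b hb bo)) (not_lt.1 (h3 b hb bo a ha ao))
  by_cases e : p (j a) = o
  · have hb := mem_of_mem_erase (j3 a ha ao)
    have bo : p (j a + d + 1) ≠ o := fun e' => by
      have b := j1 a ha ao
      have := hp (by simp only [Set.mem_Iio]; omega) (by simp only [Set.mem_Iio]; omega)
        (e.trans e'.symm)
      omega
    have := j3 _ hb bo
    rw [h4 _ hb bo] at this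
    exact notMem_erase _ _ this
  · have hb := mem_of_mem_erase (j2 a ha ao)
    have := j2 _ hb e
    rw [h4 _ hb e] at this
    exact notMem_erase _ _ this

theorem exp_unit {c : ExU n d} (h : Inj (exq c) (2 * (d + 1) + d + 1)) (he : c.1.card = d + 1)
    {f : Fc n} (hf : f ∈ exu c) : f.card = d + 1 ∧ f ⊆ exv c ∧ f ≠ c.1 := by
  obtain ⟨j, hj, hy⟩ := mem_biUnion.1 hf
  have hj := mem_range.1 hj
  obtain ⟨a1, -, a2, a3⟩ := su_spec h hj hy
  refine ⟨a1, fun u hu => ?_, fun e => ?_⟩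
  · obtain ⟨i, hi, rfl⟩ := a3 u hu
    exact mem_image_of_mem _ (mem_range.2 (by omega))
  · rw [e, ← image_vx he] at a2
    obtain ⟨i, hi, e'⟩ := mem_image.1 a2
    have hi := mem_range.1 hi
    rw [← exq_lo c (by omega)] at e'
    have := h (by simp only [Set.mem_Iio]; omega) (by simp only [Set.mem_Iio]; omega) e'
    omega

section
variable {r0 a1 L ρ hh : ℕ} {S1 S : Set (Fc n)} {C : Finset (ExU n d)}

theorem ExV.nH {c : ExU n d} (h : ExV r0 a1 L ρ hh S1 S c) {f : Fc n} (hf : f ∈ exu c) :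
    ¬ Rd d S hh f := fun a =>
  (exp_unit h.inj h.e4 hf).2.2 (h.site f (exp_unit h.inj h.e4 hf).2.1 a)

theorem exp_cell (hd : 2 ≤ d) (hC : ∀ c ∈ C, ExV r0 a1 L ρ hh S1 S c)
    (hD : (C : Set (ExU n d)).PairwiseDisjoint exv) {c : ExU n d} (hc : c ∈ C) {f y : Fc n}
    (hf : f ∈ exu c) (hy : y ∈ C.biUnion exu) {σ : Finset (Fin n)} (hσ : σ.card = d + 2)
    (h1 : f ⊆ σ) (h2 : y ⊆ σ) : y ∈ exu c ∧ (f ≠ y → σ ⊆ exv c) := by
  obtain ⟨c', hc', hy⟩ := mem_biUnion.1 hy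
  have a := exp_unit (hC c hc).inj (hC c hc).e4 hf
  have b := exp_unit (hC c' hc').inj (hC c' hc').e4 hy
  have e := card_union_add_card_inter f y
  have e1 := card_le_card (union_subset h1 h2)
  obtain ⟨v, hv⟩ := card_pos.1 (show 0 < (f ∩ y).card by omega)
  obtain rfl : c = c' := by_contra fun hne => disjoint_left.1 (hD hc hc' hne)
    (a.2.1 (mem_inter.1 hv).1) (b.2.1 (mem_inter.1 hv).2)
  refine ⟨hy, fun hne => ?_⟩
  have e2 : (f ∩ y).card < f.card := card_lt_card ⟨inter_subset_left, fun hs =>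
    hne (eq_of_subset_of_card_le (hs.trans inter_subset_right) (by omega))⟩
  rw [← eq_of_subset_of_card_le (union_subset h1 h2) (by omega)]
  exact union_subset a.2.1 b.2.1

theorem exp_add (hd : 2 ≤ d) (hC : ∀ c ∈ C, ExV r0 a1 L ρ hh S1 S c)
    (hD : (C : Set (ExU n d)).PairwiseDisjoint exv) {k : ℕ} (hk : k ≤ hh)
    (h : ∀ c ∈ C, ¬ Rd d S k c.1) (f : Fc n) (hf : f ∈ (↑(C.biUnion exu) : Set (Fc n))) :
    ¬ Tch (fun z => Rd d S k z ∨ z ∈ (↑(C.biUnion exu) : Set (Fc n))) f := by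
  rintro ⟨u, hu, o, ho, h1⟩
  obtain ⟨c, hc, hf⟩ := mem_biUnion.1 (mem_coe.1 hf)
  have a := exp_unit (hC c hc).inj (hC c hc).e4 hf
  have hσ : (insert u f).card = d + 2 := by rw [card_insert_of_notMem hu, a.1]
  have h2 : ∀ y ∈ slt f u o, y ⊆ insert u f ∧ f ≠ y := fun y hy => by
    obtain ⟨w, hw, -, rfl⟩ := mem_slt.1 hy
    exact ⟨par_sub, fun e => hu (e ▸ mem_par.2 (.inl rfl))⟩
  by_cases h3 : ∃ y ∈ slt f u o, y ∈ C.biUnion exu
  · obtain ⟨y0, hy0, h3⟩ := h3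
    have h4 := (exp_cell hd hC hD hc hf h3 hσ (subset_insert _ _) (h2 _ hy0).1).2 (h2 _ hy0).2
    refine exp_three hd (hC c hc).inj hσ (o := o) fun w hw hwo => ?_
    rcases mem_insert.1 hw with rfl | hw
    · rwa [erase_insert hu]
    have h5 : par f u w ∈ slt f u o := mem_slt.2 ⟨w, hw, hwo, rfl⟩
    rw [erase_insert_of_ne fun e : u = w => hu (e ▸ hw)]
    refine (exp_cell hd hC hD hc hf ((h1 _ h5).resolve_left fun b => h c hc ?_) hσ
      (subset_insert _ _) (h2 _ h5).1).1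
    exact (hC c hc).site _ ((h2 _ h5).1.trans h4) (b.mono hk) ▸ b
  · exact (hC c hc).idle f hf ⟨u, hu, o, ho, fun y hy =>
      ((h1 y hy).resolve_right fun b => h3 ⟨y, hy, b⟩).mono hk⟩

theorem exp_step (hd : 2 ≤ d) (hC : ∀ c ∈ C, ExV r0 a1 L ρ hh S1 S c)
    (hD : (C : Set (ExU n d)).PairwiseDisjoint exv) {k : ℕ} (hk : k ≤ hh) {g y : Fc n}
    (h : Adj d (· ∈ S ∪ ↑(C.biUnion exu)) g y) (hg : Rd d S k g) :
    Rd d S (k + 1) y ∨ ∃ c ∈ C, g = c.1 := by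
  obtain ⟨g1, u, hu, o, ho, rfl, h1⟩ := h
  by_cases h2 : ∀ y ∈ slt g u o, y ∈ S
  · exact .inl (rd_adj ⟨g1, u, hu, o, ho, rfl, fun y hy => rd_src (h2 y hy)⟩ hg)
  right
  push Not at h2
  obtain ⟨f, hf, h2⟩ := h2
  obtain ⟨c, hc, h3⟩ := mem_biUnion.1 (mem_coe.1 ((h1 f hf).resolve_left h2))
  obtain ⟨w, hw, hwo, rfl⟩ := mem_slt.1 hf
  have hσ : (insert u g).card = d + 2 := by rw [card_insert_of_notMem hu, g1]
  by_contra h4
  refine (hC c hc).idle _ h3 ⟨w, not_mem_par hu hw, o, mem_par.2 (.inr ⟨hwo.symm, ho⟩),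
    fun y hy => ?_⟩
  obtain ⟨w', hw', h5, rfl⟩ := mem_slt.1 hy
  rcases mem_par.1 hw' with rfl | ⟨h6, h7⟩
  · rw [par_back hu hw]
    exact hg.mono hk
  rw [par_par hu hw h7 h6]
  refine rd_src ((h1 _ (mem_slt.2 ⟨w', h7, h5, rfl⟩)).resolve_right fun b => h4 ⟨c, hc, ?_⟩)
  exact (hC c hc).site g ((subset_insert u g).trans ((exp_cell hd hC hD hc h3 b hσ par_sub
    par_sub).2 fun e => h6 (par_inj hu hw e).symm)) (hg.mono hk)

theorem exp_path (hd : 2 ≤ d) (hC : ∀ c ∈ C, ExV r0 a1 L ρ hh S1 S c)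
    (hD : (C : Set (ExU n d)).PairwiseDisjoint exv) {k : ℕ} {x : Fc n} (hx : Rd d S k x) (i : ℕ) :
    k + i ≤ hh → ∀ y, ExN d (· ∈ S ∪ ↑(C.biUnion exu)) x i y →
      Rd d S (k + i) y ∨ ∃ c ∈ C, ExN d (· ∈ S ∪ ↑(C.biUnion exu)) x i c.1 := by
  induction i with
  | zero => exact fun _ y hy => .inl (hy ▸ hx)
  | succ i ih =>
    rintro hk y (hy | ⟨g, hg, hy⟩)
    · exact (ih (by omega) y hy).imp Or.inl fun ⟨c, a, b⟩ => ⟨c, a, .inl b⟩
    · rcases ih (by omega) g hg with a | ⟨c, a, b⟩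
      · exact (exp_step hd hC hD (by omega) hy a).imp id fun ⟨c, a, b⟩ => ⟨c, a, .inl (b ▸ hg)⟩
      · exact .inr ⟨c, a, .inl b⟩

end

theorem exp_walk {c : ExU n d} (h : Inj (exq c) (2 * (d + 1) + d + 1)) (he : c.1.card = d + 1)
    {Q : Fc n → Prop} (hQ : ∀ f ∈ exu c, Q f) {i : ℕ} (hi : i < 2 * (d + 1)) :
    (sf d (exq c) i).card = d + 1 ∧ exq c (i + d + 1) ∉ sf d (exq c) i ∧
      (∀ y ∈ su d (exq c) i, Q y) ∧ ExN d Q c.1 (i + 1) (sf d (exq c) (i + 1)) := by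
  have h1 : ∀ i < 2 * (d + 1), (sf d (exq c) i).card = d + 1 ∧
      exq c (i + d + 1) ∉ sf d (exq c) i ∧ ∀ y ∈ su d (exq c) i, Q y := fun i hi =>
    ⟨card_sf (h.mono fun t ht => by simp only [Set.mem_Iio, Set.mem_Icc] at ht ⊢; omega),
      fun a => by
        obtain ⟨t, ht, e⟩ := mem_image.1 a
        have ht := mem_range.1 ht
        have := h (by simp only [Set.mem_Iio]; omega) (by simp only [Set.mem_Iio]; omega) e
        omega,
      fun y hy => hQ y (mem_biUnion.2 ⟨i, mem_range.2 hi, hy⟩)⟩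
  have h2 : ∀ i ≤ 2 * (d + 1), ExN d Q c.1 i (sf d (exq c) i) := fun i => by
    induction i with
    | zero => exact fun _ => sf_vx he fun i hi => exq_lo c hi
    | succ i ih =>
      intro hi
      obtain ⟨a, b, e⟩ := h1 i hi
      exact .inr ⟨_, ih (by omega), a, _, b, _, mem_sf (i := 0) d.zero_le, sf_succ a, e⟩
  exact ⟨(h1 i hi).1, (h1 i hi).2.1, (h1 i hi).2.2, h2 _ hi⟩

open Classical in
/-- The elements with a property. -/
noncomputable def exs {α : Type} [Fintype α] (P : α → Prop) : Finset α := univ.filter P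

theorem mem_exs {α : Type} [Fintype α] {P : α → Prop} {a : α} : a ∈ exs P ↔ P a := by
  simp only [exs, mem_filter, mem_univ, true_and]

theorem exp_hist (hd : 2 ≤ d) {r0 a1 L ρ hh : ℕ} {S1 S : Set (Fc n)} {C : Finset (ExU n d)}
    (hC : ∀ c ∈ C, ExV r0 a1 L ρ hh S1 S c) (hD : (C : Set (ExU n d)).PairwiseDisjoint exv)
    (hρ : ρ + 1 ≤ hh) (hne : C.Nonempty) {S' : Set (Fc n)} (hS : S' = S ∪ ↑(C.biUnion exu)) :
    GG d r0 a1 S1 S' = GG d r0 a1 S1 S ∧ ∃ c ∈ C, IsD d r0 S' c.1 ∧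
      ∀ x, IsD d r0 S' x → pos d r0 S' x ≤ pos d r0 S' c.1 → Rd d S (ρ + 1) x := by
  obtain ⟨c, hc, hm⟩ := exists_min_image C (fun c => rk d S c.1) hne
  have V := hC c hc
  have h1 : r0 < rk d S c.1 := lt_of_not_ge fun a => V.e1.1.2 ((rd_rk V.e1.1.1).mono a)
  have h2 : rk d S c.1 ≤ ρ + 1 := rk_le V.e3
  have h3 : ∀ j ≤ rk d S c.1, ∀ x, Rd d S' j x ↔ Rd d S j x ∨ x ∈ C.biUnion exu := fun j hj x =>
    hS ▸ add (k := rk d S c.1 - 1) (by omega) (fun f hf => by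
      obtain ⟨c', hc', hf⟩ := mem_biUnion.1 (mem_coe.1 hf)
      exact (exp_unit (hC c' hc').inj (hC c' hc').e4 hf).1)
      (exp_add hd hC hD (by omega) fun c' hc' a => by
        have := rk_le a
        have := hm c' hc'
        omega) (by omega) x
  have h4 : ∀ j ≤ rk d S c.1, ∀ z,
      (Rd d S' j z ∧ ¬ Rd d S' r0 z) ↔ (Rd d S j z ∧ ¬ Rd d S r0 z) := fun j hj z => by
    rw [h3 j hj, h3 r0 h1.le]
    refine ⟨fun a => ⟨a.1.resolve_right fun b => a.2 (.inr b), fun b => a.2 (.inl b)⟩,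
      fun a => ⟨.inl a.1, fun b => b.elim a.2 fun b => ?_⟩⟩
    obtain ⟨c', hc', b⟩ := mem_biUnion.1 b
    exact (hC c' hc').nH b (a.1.mono (by omega))
  have h5 := pos_congr h4 (rd_rk V.e1.1.1) V.e1.1.2
  have h6 : ∀ x, IsD d r0 S' x → pos d r0 S' x ≤ pos d r0 S' c.1 →
      Rd d S (rk d S c.1) x ∧ ¬ Rd d S r0 x := fun x a b =>
    (h4 _ le_rfl x).1 ⟨(rd_rk a.1).mono ((pos_rk a h5.1 b).trans h5.2.1.le), a.2⟩
  have h7 : DD d r0 S' a1 = DD d r0 S a1 := funext fun x => propext ⟨fun a => by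
    have b := h6 x a.1 (a.2.le.trans (V.e2.trans h5.2.2.ge))
    exact ⟨⟨b.1.contr, b.2⟩, (pos_congr h4 b.1 b.2).2.2 ▸ a.2⟩, fun a => by
    have b := pos_congr h4 ((rd_rk a.1.1).mono (pos_rk a.1 V.e1.1 (a.2.le.trans V.e2))) a.1.2
    exact ⟨b.1, b.2.2 ▸ a.2⟩⟩
  refine ⟨?_, c, hc, h5.1, fun x a b => (h6 x a b).1.mono h2⟩
  unfold GG
  rw [h7]

/-- The reverse list. -/
theorem exp_rev (hd : 2 ≤ d) (r0 a1 J : ℕ) {L : ℕ} (hL : 0 < L) {Δ Kn : ℝ} (hΔ : 0 ≤ Δ)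
    (hK : 0 ≤ Kn) (S1 S' : Set (Fc n)) : ∃ Ls : Finset (ExU n d), ∀ (S : Set (Fc n)) (ρ hh : ℕ)
      (C : Finset (ExU n d)), (∀ f ∈ S, f.card = d + 1) → S1 ⊆ S → ρ + 1 + 2 * (d + 1) ≤ hh →
      Deg d (· ∈ S) Δ → (cd (Contr d S) : ℝ) ≤ Kn → (∀ c ∈ C, ExV r0 a1 L ρ hh S1 S c) →
      C.Nonempty → C.card ≤ J → (C : Set (ExU n d)).PairwiseDisjoint exv →
      S' = S ∪ ↑(C.biUnion exu) →
      (Ls.card : ℝ) ≤ (Kn / L + 1) * (1 + (d + 1) * (Δ + J * (3 * (d + 1)))) ^ (2 * (d + 1)) *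
        (Δ + J * (3 * (d + 1))) ^ (2 * (d + 1)) ∧ ∃ c ∈ C, c ∈ Ls := by
  have hG : ∀ g h, GG d r0 a1 S1 S' g h → GG d r0 a1 S1 S' h g := fun g h a =>
    a.imp Adj.symm fun ⟨e, b, c⟩ => ⟨e, b, c.symm⟩
  obtain ⟨L0, l1, l2⟩ := exp_first (pos d r0 S') (fun x h => IsD d r0 S' x ∧
    ExN d (· ∈ S') x (2 * (d + 1)) h ∧ Big d r0 a1 L S1 S' h)
    (Relation.ReflTransGen (GG d r0 a1 S1 S')) hL hK (fun _ _ _ _ a b e => pos_inj a.1 b.1 e)
    ⟨fun _ => .refl, fun a => by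
      induction a with
      | refl => exact .refl
      | tail _ b ih => exact .head (hG _ _ b) ih, fun a b => a.trans b⟩
    fun _ _ a => a.2.2
  let P : ExU n d → Prop := fun c => c.1.card = d + 1 ∧ c.2.1.card = d + 1 ∧
    Inj (exq c) (2 * (d + 1) + d + 1) ∧ ∀ f ∈ exu c, f ∈ S'
  refine ⟨exs fun c => (∃ x ∈ L0, ExN d (· ∈ S') x (2 * (d + 1)) c.1) ∧ P c,
    fun S ρ hh C hS h1 hρ h2 h3 hC hne hJ hD hS' => ⟨?_, ?_⟩⟩
  · have Δ0 : 0 ≤ Δ + J * (3 * (d + 1)) := by positivity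
    have h4 : Deg d (· ∈ S') (Δ + J * (3 * (d + 1))) := fun g hg => by
      have a : ((C.biUnion exv).card : ℝ) ≤ J * (3 * (d + 1)) := by
        have := card_biUnion_le_card_mul C exv (3 * (d + 1)) fun c _ =>
          card_image_le.trans (by rw [card_range]; omega)
        exact_mod_cast this.trans (Nat.mul_le_mul_right _ hJ)
      refine (Nat.cast_le.2 ((cd_mono fun u ⟨b1, o, b2, b3⟩ => ?_).trans (cd_or
        (fun u => u ∉ g ∧ ∃ o ∈ g, ∀ y ∈ slt g u o, y ∈ S) (· ∈ C.biUnion exv)))).trans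
        ((Nat.cast_add _ _).trans_le (add_le_add (h2 g hg) (by rw [cd_mem]; exact a)))
      by_cases e : ∀ y ∈ slt g u o, y ∈ S
      · exact .inl ⟨b1, o, b2, e⟩
      push Not at e
      obtain ⟨y, hy, e⟩ := e
      obtain ⟨c, hc, e'⟩ := mem_biUnion.1 (mem_coe.1 ((hS' ▸ b3 y hy : y ∈ S ∪ _).resolve_left e))
      obtain ⟨w, -, -, rfl⟩ := mem_slt.1 hy
      exact .inr (mem_biUnion.2 ⟨c, hc,
        (exp_unit (hC c hc).inj (hC c hc).e4 e').2.1 (mem_par.2 (.inl rfl))⟩)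
    have h5 := cd_le_mul (P := fun e => ∃ x ∈ L0, ExN d (· ∈ S') x (2 * (d + 1)) e) L0
      (fun x => ExN d (· ∈ S') x (2 * (d + 1))) (fun _ a => a) fun x _ => exp_ball Δ0 h4 x _
    have h6 := cd_le_mul (P := fun c : ExU n d =>
        (∃ x ∈ L0, ExN d (· ∈ S') x (2 * (d + 1)) c.1) ∧ P c)
      (exs fun e => ∃ x ∈ L0, ExN d (· ∈ S') x (2 * (d + 1)) e) (fun e c => c.1 = e ∧ P c)
      (fun c a => ⟨c.1, mem_exs.2 a.1, rfl, a.2⟩) fun e _ =>
        exp_seq exq Δ0 (2 * (d + 1)) (d + 1) (exs fun c => c.1 = e ∧ P c)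
          (fun c hc c' hc' t ht => by
            rw [exq_lo c (by omega), exq_lo c' (by omega), (mem_exs.1 hc).1, (mem_exs.1 hc').1])
          (fun c hc c' hc' h => exq_ext (mem_exs.1 hc).2.1 (mem_exs.1 hc).2.2.1
            (mem_exs.1 hc').2.1 (mem_exs.1 hc').2.2.1 fun t ht => h t (by omega))
          fun i hi hi' c0 hc0 => by
            obtain ⟨j, rfl⟩ : ∃ j, i = j + d + 1 := ⟨i - (d + 1), by omega⟩
            have a := (mem_exs.1 hc0).2
            refine ⟨exs _, h4 _ (exp_walk a.2.2.1 a.1 a.2.2.2 (i := j) (by omega)).1, fun c hc h => ?_⟩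
            have b := (mem_exs.1 hc).2
            have e := exp_walk b.2.2.1 b.1 b.2.2.2 (i := j) (by omega)
            rw [← sf_congr (p := exq c) fun t ht => h t (by omega)]
            exact mem_exs.2 ⟨e.2.1, _, mem_sf (i := 0) d.zero_le, e.2.2.1⟩
    exact h6.trans (mul_le_mul_of_nonneg_right
      (h5.trans (mul_le_mul_of_nonneg_right l1 (by positivity))) (by positivity))
  obtain ⟨g1, c, hc, g2, g3⟩ := exp_hist hd hC hD (by omega) hne hS'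
  have h4 : ∀ c ∈ C, P c := fun c hc => ⟨(hC c hc).e4, (hC c hc).h1, (hC c hc).inj, fun f hf =>
    hS' ▸ Or.inr (mem_coe.2 (mem_biUnion.2 ⟨c, hc, hf⟩))⟩
  obtain ⟨x, x1, x2, h', ⟨x3, x4, -⟩, x5⟩ := l2 (Contr d S) h3 (fun g h a b => by
      rw [g1] at a
      induction a with
      | refl => exact b
      | tail _ a ih =>
        rcases a with a | ⟨e, a, a'⟩
        · exact contr_adj (fun z hz => (rd_up h1 hz).contr) a ih
        · exact contr_adj (fun z hz => hz.elim (fun hz => hz ▸ a.1.1) fun hz => .base _ (h1 hz))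
            a' ih) c.1 c.2.1 ⟨g2, by
      have a := (exp_walk (hC c hc).inj (hC c hc).e4 (h4 c hc).2.2.2 (i := 2 * d + 1)
        (by omega)).2.2.2
      have b := sf_shift (d := d) (j := 0) (exq c) (2 * (d + 1))
      rw [sf_vx (hC c hc).h1 fun i _ => exq_hi c i] at b
      rw [b]
      exact a, by
      unfold Big
      rw [g1]
      exact (hC c hc).h3⟩ (hC c hc).h2
  subst hS'
  obtain ⟨c', hc', a⟩ := (exp_path hd hC hD (g3 x x3 x2) _ hρ h' x4).resolve_left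
    fun a => x5 a.contr
  exact ⟨c', hc', mem_exs.2 ⟨⟨x, x1, a⟩, h4 c' hc'⟩⟩

theorem exp_one (hd : 2 ≤ d) {r0 a1 L J : ℕ} {c4 Δ Kn Bn p a : ℝ} (hL : 0 < L) (hc : 0 < c4)
    (hΔ : 0 ≤ Δ) (hK : 0 ≤ Kn) (hB : 0 ≤ Bn) (p0 : 0 ≤ p) (p1 : p < 1) (ha : 0 ≤ a)
    (h6 : (d + 1) * (3 * (d + 1)) ≤ c4 / 4 * n) (h7 : (d + 1) * (n : ℝ) ^ d ≤ Bn / 2)
    (h8 : a + 1 + J * (3 * (d + 1)) *
        ((d + 1) * (n : ℝ) ^ (3 * d + 2) + 2 * (d + 1) * (2 * a1 * (n : ℝ) ^ (2 * d + 1))) ≤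
      a1 * (Bn / 2 * (c4 / 4 * (n : ℝ) ^ (d + 1)) -
        2 ^ (3 * (d + 1)) * ((n : ℝ) ^ (2 * d + 1) * (n * √(mm n d))))) (S1 : Finset (Face n d)) :
    Pr p (EvX r0 a1 L c4 Δ Kn Bn S1) * (a * (p / (1 - p)) ^ (d * (2 * (d + 1)))) ^ J ≤
      (J * ((Kn / L + 1) * (1 + (d + 1) * (Δ + J * (3 * (d + 1)))) ^ (2 * (d + 1)) *
        (Δ + J * (3 * (d + 1))) ^ (2 * (d + 1)))) ^ J := by
  classical
  choose! ρ hh hz using fun R (h : EvX r0 a1 L c4 Δ Kn Bn S1 R) => h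
  let U : ExU n d → Finset (Face n d) := fun c => (exu c).subtype _
  have hU : ∀ c (f : Face n d), f ∈ U c ↔ f.1 ∈ exu c := fun c f => mem_subtype
  have hS : ∀ R : Finset (Face n d), ∀ f ∈ st R, f.card = d + 1 := fun R f hf => st_card hf
  refine exp_sw p0 p1 _ (fun R => exs (ExV r0 a1 L (ρ R) (hh R) (st S1) (st (S1 ∪ R)))) U exv
    (ζ := 3 * (d + 1)) (D := (d + 1) * n ^ (3 * d + 2) + 2 * (d + 1) * (2 * a1 * n ^ (2 * d + 1)))
    ha (by positivity) (fun R _ c hc => ?_) (fun R _ c hc c' hc' h => ?_) (fun R _ v => ?_)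
    (fun R hR => ?_) fun R' => ?_
  · have V := mem_exs.1 hc
    refine ⟨disjoint_left.2 fun f a b => V.nH ((hU c f).1 b)
      (rd_src ⟨f.2, mem_union_right _ a⟩), ?_, ⟨_, mem_image_of_mem _ (mem_range.2 (Nat.succ_pos _))⟩,
      card_image_le.trans (by rw [card_range]; omega)⟩
    rw [card_subtype, filter_true_of_mem fun f hf => (exp_unit V.inj V.e4 hf).1]
    exact card_sU V.inj
  · refine disjoint_left.2 fun f a b => ?_
    obtain ⟨v, hv⟩ := card_pos.1 (d.succ_pos.trans_eq f.2.symm)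
    exact disjoint_left.1 h ((exp_unit (mem_exs.1 hc).inj (mem_exs.1 hc).e4 ((hU c f).1 a)).2.1 hv)
      ((exp_unit (mem_exs.1 hc').inj (mem_exs.1 hc').e4 ((hU c' f).1 b)).2.1 hv)
  · exact (card_le_card (t := exs _) fun c hc =>
      mem_exs.2 ⟨mem_exs.1 (mem_filter.1 hc).1, (mem_filter.1 hc).2⟩).trans (exp_deg v)
  · obtain ⟨-, a1, a2, a3, a4, -, -, a5⟩ := hz R hR
    refine le_trans ?_ (h8.trans (exp_fwd hd (hS _) hc (by positivity) hB a1 a2 a3 a4 a5 h6 h7))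
    push_cast
    rfl
  · obtain ⟨Ls, h⟩ := exp_rev hd r0 a1 J hL hΔ hK (st S1) (st (S1 ∪ R'))
    refine ⟨Ls, fun R hR C h1 h2 h3 h4 h5 => ?_⟩
    obtain ⟨a0, -, -, -, -, a1, a2, -⟩ := hz R hR
    refine h _ _ _ C (hS _) (st_mono subset_union_left) a0 a1 a2 (fun c hc => mem_exs.1 (h1 hc))
      h2 h3 h4 ?_
    rw [h5, ← union_assoc, st_union (S1 ∪ R)]
    congr 1
    ext f
    rw [mem_coe, mem_biUnion]
    refine ⟨fun ⟨a, b⟩ => ?_, fun ⟨c, hc, b⟩ => ?_⟩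
    · obtain ⟨c, hc, b⟩ := mem_biUnion.1 b
      exact ⟨c, hc, (hU c _).1 b⟩
    · have V := mem_exs.1 (h1 hc)
      exact ⟨(exp_unit V.inj V.e4 b).1, mem_biUnion.2 ⟨c, hc, (hU c _).2 b⟩⟩

end

theorem exp_n_rev (J : ℕ) {k ρ0 ε C c0 κ B D N P y Y m u ch lg L p2 a1 A : ℝ}
    (h2 : 0 < k) (h3 : 0 < ρ0) (h4 : 0 < ε) (h7 : 0 ≤ C) (κ0 : 0 < κ)
    (hB : B = 1 + J * (3 * (d + 1))) (hD : D = (1 + (d + 1) * B) ^ (2 * (d + 1)) * B ^ (2 * (d + 1)))
    (y1 : 1 ≤ y) (m0 : 0 < m) (mN : N * m ^ d = 1) (hP : N ^ d = P) (hY : y ^ (4 * d + 7) = Y)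
    (u0 : 0 < u) (uy : u * y ^ 2 = 1) (ch0 : 0 < ch) (l0 : 0 ≤ lg) (hlg : lg ≤ y / ε)
    (f5 : Y * y * y ≤ L) (q0 : ρ0 * m ≤ p2) (q1 : p2 ≤ 1 / 2) (a0 : k / 2 * (ch * m) ≤ a1)
    (M1 : c0 * (Y * y) ≤ ch * m) (A1 : κ * ((P * N) ^ 2 * u) ≤ A)
    (w7 : J * D * C / ε ≤ k / 4 * κ * ρ0 ^ (d * (2 * (d + 1))) * y)
    (w8 : J * D ≤ k / 4 * κ * ρ0 ^ (d * (2 * (d + 1))) * c0 * y) :
    J * ((C * lg * (ch * m) / L + 1) *
      (1 + (d + 1) * (y + J * (3 * (d + 1)))) ^ (2 * (d + 1)) *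
      (y + J * (3 * (d + 1))) ^ (2 * (d + 1))) * y ≤
      a1 * A * (p2 / (1 - p2)) ^ (d * (2 * (d + 1))) := by
  have y0 : 0 < y := by linarith only [y1]
  have Y0 : 0 < Y := hY ▸ pow_pos y0 _
  have L0 : 0 < L := lt_of_lt_of_le (by positivity) f5
  have a0' : 0 < a1 := lt_of_lt_of_le (by positivity) a0
  obtain ⟨r, hr⟩ : ∃ r, ρ0 ^ (d * (2 * (d + 1))) = r := ⟨_, rfl⟩
  have r0 : 0 < r := hr ▸ by positivity
  rw [hr] at w7 w8
  have p0 : 0 < p2 := lt_of_lt_of_le (by positivity) q0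
  have j1 : r ≤ (P * N) ^ 2 * (p2 / (1 - p2)) ^ (d * (2 * (d + 1))) := by
    have : ρ0 * m ≤ p2 / (1 - p2) := q0.trans (by rw [le_div_iff₀ (by linarith only [q1, p0])]; nlinarith only [p0])
    calc r = (N * m ^ d) ^ (2 * (d + 1)) * r := by rw [mN, one_pow, one_mul]
      _ = (P * N) ^ 2 * (ρ0 * m) ^ (d * (2 * (d + 1))) := by rw [← hr, ← hP]; ring
      _ ≤ _ := by gcongr
  have B1 : 1 ≤ B := hB ▸ le_add_of_nonneg_right (by positivity)
  have D0 : 0 ≤ D := hD ▸ by positivity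
  have j2 : y + J * (3 * (d + 1)) ≤ B * y := by
    rw [hB, add_mul, one_mul]
    exact add_le_add le_rfl (le_mul_of_one_le_right (by positivity) y1)
  have j3 : 1 + (d + 1) * (y + J * (3 * (d + 1))) ≤ (1 + (d + 1) * B) * y := by
    rw [add_mul (1 : ℝ), one_mul, mul_assoc]
    gcongr
  have j4 : C * lg * (ch * m) / L * Y ≤ C / ε * (ch * m) / y := by
    calc _ ≤ C * (y / ε) * (ch * m) / (Y * y * y) * Y := by gcongr
      _ = _ := by field_simp
  have j5 : J * D * (C / ε * (ch * m) / y) ≤ k / 4 * κ * r * (ch * m) := by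
    calc _ = J * D * C / ε * (ch * m) / y := by ring
      _ ≤ k / 4 * κ * r * y * (ch * m) / y := by gcongr
      _ = _ := by field_simp
  have j6 : J * D * Y ≤ k / 4 * κ * r * (ch * m) := by
    calc _ ≤ k / 4 * κ * r * c0 * y * Y := by gcongr
      _ = k / 4 * κ * r * (c0 * (Y * y)) := by ring
      _ ≤ _ := by gcongr
  have j7 := mul_le_mul_of_nonneg_left j4 (show (0 : ℝ) ≤ J * D by positivity)
  calc _ ≤ J * ((C * lg * (ch * m) / L + 1) * ((1 + (d + 1) * B) * y) ^ (2 * (d + 1)) *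
        (B * y) ^ (2 * (d + 1))) * y * (u * y ^ 2) := by rw [uy, mul_one]; gcongr
    _ = (J * D * (C * lg * (ch * m) / L * Y) + J * D * Y) * u := by
      rw [hD, ← hY, mul_pow, mul_pow B]; ring
    _ ≤ (k / 2 * κ * r * (ch * m)) * u := by gcongr; linarith only [j5, j6, j7]
    _ = k / 2 * (ch * m) * (κ * (r * u)) := by ring
    _ ≤ a1 * (κ * ((P * N) ^ 2 * (p2 / (1 - p2)) ^ (d * (2 * (d + 1))) * u)) := by gcongr
    _ = a1 * (κ * ((P * N) ^ 2 * u)) * (p2 / (1 - p2)) ^ (d * (2 * (d + 1))) := by ring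
    _ ≤ _ := by
      have : 0 ≤ p2 / (1 - p2) := div_nonneg p0.le (by linarith only [q1, p0])
      gcongr

theorem exp_n_core (hd : 2 ≤ d) (J : ℕ) {c4 k ρ0 ε C c0 B D N y m u ch lg L p2 a1 : ℝ}
    (h1 : 0 < c4) (h2 : 0 < k) (h3 : 0 < ρ0) (h4 : 0 < ε) (h7 : 0 ≤ C) (hc : 0 < c0)
    (hB : B = 1 + J * (3 * (d + 1))) (hD : D = (1 + (d + 1) * B) ^ (2 * (d + 1)) * B ^ (2 * (d + 1)))
    (y1 : 1 ≤ y) (yN : y ^ (8 * d) ≤ N) (m0 : 0 < m) (m1 : m ≤ 1) (mN : N * m ^ d = 1)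
    (uy : u * y ^ 2 = 1) (hch : c0 * N ^ (d + 1) ≤ ch) (l0 : 0 ≤ lg) (hlg : lg ≤ y / ε)
    (hL : y ^ (8 * (d + 1) + 8) ≤ L) (q0 : ρ0 * m ≤ p2) (q1 : p2 ≤ 1 / 2)
    (ha : k * (ch * m) ≤ a1 + 1)
    (w1 : (d + 1) * (3 * (d + 1)) ≤ c4 / 4 * y) (w2 : 2 * (d + 1) ≤ c0 * y) (w3 : 2 ≤ k * c0 * y)
    (w4 : 1 + J * (3 * (d + 1)) * (d + 1) ≤ k * c0 / 2 * (c0 * c4 / 32) * y)
    (w5 : J * (3 * (d + 1)) * (4 * (d + 1)) ≤ c0 * c4 / 32 * y)
    (w6 : 2 ^ (3 * (d + 1)) ≤ c0 * c4 / 32 * y)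
    (w7 : J * D * C / ε ≤ k / 4 * (c0 * c4 / 32) * ρ0 ^ (d * (2 * (d + 1))) * y)
    (w8 : J * D ≤ k / 4 * (c0 * c4 / 32) * ρ0 ^ (d * (2 * (d + 1))) * c0 * y) :
    (d + 1) * (3 * (d + 1)) ≤ c4 / 4 * N ∧ (d + 1) * N ^ d ≤ ch * u / 2 ∧
      ∃ a : ℝ, 0 < a ∧ a + 1 + J * (3 * (d + 1)) *
          ((d + 1) * N ^ (3 * d + 2) + 2 * (d + 1) * (2 * a1 * N ^ (2 * d + 1))) ≤
        a1 * (ch * u / 2 * (c4 / 4 * N ^ (d + 1)) -
          2 ^ (3 * (d + 1)) * (N ^ (2 * d + 1) * (N * √m))) ∧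
        J * ((C * lg * (ch * m) / L + 1) *
          (1 + (d + 1) * (y + J * (3 * (d + 1)))) ^ (2 * (d + 1)) *
          (y + J * (3 * (d + 1))) ^ (2 * (d + 1))) * y ≤
        a * (p2 / (1 - p2)) ^ (d * (2 * (d + 1))) := by
  have y0 : 0 < y := by linarith only [y1]
  have pw : ∀ {a b : ℕ}, a ≤ b → y ^ a ≤ y ^ b := fun h => pow_le_pow_right₀ y1 h
  have N1 : 1 ≤ N := (one_le_pow₀ y1).trans yN
  have N0 : 0 < N := by linarith only [N1]
  have u0 : 0 < u := by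
    have := pow_pos y0 2
    by_contra h
    nlinarith only [uy, h]
  have g1 : y ^ 8 * m ≤ 1 := by
    refine le_of_pow_le_pow_left₀ (n := d) (by omega) zero_le_one ?_
    rw [mul_pow, ← pow_mul, one_pow, ← mN]
    gcongr
  have g2 : y ^ 8 ≤ N * m := by
    have : 1 ≤ N * m ^ 2 := mN.symm.le.trans (mul_le_mul_of_nonneg_left
      (pow_le_pow_of_le_one m0.le m1 hd) N0.le)
    calc y ^ 8 ≤ y ^ 8 * (N * m ^ 2) := le_mul_of_one_le_right (by positivity) this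
      _ = y ^ 8 * m * (N * m) := by ring
      _ ≤ 1 * (N * m) := by gcongr
      _ = _ := one_mul _
  have f1 : y ≤ N * m * u := by
    calc y = y * (u * y ^ 2) := by rw [uy, mul_one]
      _ = y ^ 3 * u := by ring
      _ ≤ _ := mul_le_mul_of_nonneg_right ((pw (by norm_num)).trans g2) u0.le
  have f2 : y ≤ N * u := f1.trans (by gcongr; exact mul_le_of_le_one_right N0.le m1)
  have f3 : y * √m ≤ u := by
    have a : y ^ 4 * √m ≤ 1 := by
      refine le_of_pow_le_pow_left₀ (n := 2) (by omega) zero_le_one ?_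
      rw [mul_pow, ← pow_mul, Real.sq_sqrt m0.le, one_pow]
      exact g1
    calc y * √m = y * √m * (u * y ^ 2) := by rw [uy, mul_one]
      _ = y ^ 3 * √m * u := by ring
      _ ≤ 1 * u := by
        gcongr
        exact (mul_le_mul_of_nonneg_right (pw (by norm_num)) (Real.sqrt_nonneg _)).trans a
      _ = u := one_mul _
  have yN' : y ≤ N := by simpa using (pw (show 1 ≤ 8 * d by omega)).trans yN
  obtain ⟨P, hP⟩ : ∃ P, N ^ d = P := ⟨_, rfl⟩
  have NP : N ≤ P := hP ▸ le_self_pow₀ N1 (by omega)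
  have P1 : 1 ≤ P := N1.trans NP
  have P0 : 0 < P := by linarith only [N1, NP]
  obtain ⟨Y, hY⟩ : ∃ Y, y ^ (4 * d + 7) = Y := ⟨_, rfl⟩
  have Y0 : 0 < Y := hY ▸ pow_pos y0 _
  have f4 : Y * y ≤ P * N * m := by
    rw [show Y * y = y ^ (4 * d) * y ^ 8 by rw [← hY]; ring, mul_assoc]
    exact mul_le_mul (((pw (by omega)).trans yN).trans NP) g2 (by positivity) P0.le
  have f5 : Y * y * y ≤ L := by
    rw [← hY, ← pow_succ, ← pow_succ]
    exact (pw (by omega)).trans hL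
  have L0 : 0 < L := lt_of_lt_of_le (by positivity) f5
  have e1 : N ^ (d + 1) = P * N := by rw [pow_succ, hP]
  have e2 : N ^ (2 * d + 1) = P ^ 2 * N := by rw [← hP]; ring
  have e3 : N ^ (3 * d + 2) = P ^ 3 * N ^ 2 := by rw [← hP]; ring
  rw [e1] at hch
  rw [e1, e2, e3, hP]
  have ch0 : 0 < ch := lt_of_lt_of_le (by positivity) hch
  have M1 : c0 * (Y * y) ≤ ch * m := by
    calc _ ≤ c0 * (P * N * m) := by gcongr
      _ = c0 * (P * N) * m := by ring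
      _ ≤ _ := by gcongr
  have Y1 : 1 ≤ Y := hY ▸ one_le_pow₀ y1
  have a0 : k / 2 * (ch * m) ≤ a1 := by
    have := mul_le_mul_of_nonneg_left ((mul_le_mul_of_nonneg_left
      (le_mul_of_one_le_left y0.le Y1) hc.le).trans M1) h2.le
    linarith only [ha, w3, this]
  have a0' : 0 < a1 := lt_of_lt_of_le (by positivity) a0
  obtain ⟨κ, hκ⟩ : ∃ κ, c0 * c4 / 32 = κ := ⟨_, rfl⟩
  have κ0 : 0 < κ := hκ ▸ by positivity
  obtain ⟨A, hA⟩ : ∃ A, ch * u * (c4 / 32 * (P * N)) = A := ⟨_, rfl⟩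
  have A1 : κ * ((P * N) ^ 2 * u) ≤ A := by
    calc _ = c0 * (P * N) * u * (c4 / 32 * (P * N)) := by rw [← hκ]; ring
      _ ≤ _ := by rw [← hA]; gcongr
  have A0 : 0 < A := lt_of_lt_of_le (by positivity) A1
  rw [hκ] at w4 w5 w6 w7 w8
  refine ⟨w1.trans (by gcongr), ?_, a1 * A, by positivity, ?_, ?_⟩
  · calc ((d : ℝ) + 1) * P = 2 * (d + 1) * P / 2 := by ring
      _ ≤ c0 * y * P / 2 := by gcongr ?_ * P / 2
      _ ≤ c0 * (N * u) * P / 2 := by gcongr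
      _ = c0 * (P * N) * u / 2 := by ring
      _ ≤ _ := by gcongr
  · have i1 : 1 + J * (3 * (d + 1)) * (d + 1) * (P ^ 3 * N ^ 2) ≤ a1 * A := by
      have : 1 ≤ P ^ 3 * N ^ 2 := one_le_mul_of_one_le_of_one_le (one_le_pow₀ P1) (one_le_pow₀ N1)
      calc _ ≤ (1 + J * (3 * (d + 1)) * (d + 1)) * (P ^ 3 * N ^ 2) := by rw [add_mul]; linarith only [this]
        _ ≤ k * c0 / 2 * κ * y * (P ^ 3 * N ^ 2) := by gcongr ?_ * _
        _ ≤ k * c0 / 2 * κ * (N * m * u) * (P ^ 3 * N ^ 2) := by gcongr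
        _ = k / 2 * (c0 * (P * N) * m) * (κ * ((P * N) ^ 2 * u)) := by ring
        _ ≤ k / 2 * (ch * m) * A := by gcongr
        _ ≤ _ := by gcongr
    have i2 : J * (3 * (d + 1)) * (4 * (d + 1)) * (P ^ 2 * N) ≤ A := by
      calc _ ≤ κ * y * (P ^ 2 * N) := by gcongr ?_ * _
        _ ≤ κ * (N * u) * (P ^ 2 * N) := by gcongr
        _ = κ * ((P * N) ^ 2 * u) := by ring
        _ ≤ _ := A1
    have i3 : 2 ^ (3 * (d + 1)) * (P ^ 2 * N * (N * √m)) ≤ A := by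
      calc _ ≤ κ * y * (P ^ 2 * N * (N * √m)) := by gcongr
        _ = κ * ((P * N) ^ 2 * (y * √m)) := by ring
        _ ≤ κ * ((P * N) ^ 2 * u) := by gcongr
        _ ≤ _ := A1
    have i2' := mul_le_mul_of_nonneg_left i2 a0'.le
    have i3' := mul_le_mul_of_nonneg_left i3 a0'.le
    have e : ch * u / 2 * (c4 / 4 * (P * N)) = 4 * A := by rw [← hA]; ring
    rw [e]
    linarith only [i1, i2', i3']
  · exact exp_n_rev J h2 h3 h4 h7 κ0 hB hD y1 m0 mN hP hY u0 uy ch0 l0 hlg f5 q0 q1 a0 M1 A1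
      w7 w8

/-- The numbers. -/
theorem exp_num (hd : 2 ≤ d) (K0 : ℕ) {c4 k ρ0 cL εD C : ℝ} (h1 : 0 < c4) (h2 : 0 < k)
    (h3 : 0 < ρ0) (h4 : 0 < εD) (h5 : 8 * d * εD ≤ 1) (h6 : (8 * (d + 1) + 8) * εD ≤ cL)
    (h7 : 0 ≤ C) : ∃ J : ℕ, ∀ᶠ n : ℕ in atTop, ∀ (p2 : ℝ) (a1 L : ℕ),
      ρ0 * mm n d ≤ p2 → p2 ≤ 1 / 2 → k * MM n d ≤ a1 + 1 → (n : ℝ) ^ cL ≤ L →
      (d + 1) * (3 * (d + 1)) ≤ c4 / 4 * n ∧
      (d + 1) * (n : ℝ) ^ d ≤ n.choose (d + 1) * (n : ℝ) ^ (-(2 * εD)) / 2 ∧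
      ∃ a : ℝ, 0 < a ∧ a + 1 + J * (3 * (d + 1)) *
          ((d + 1) * (n : ℝ) ^ (3 * d + 2) + 2 * (d + 1) * (2 * a1 * (n : ℝ) ^ (2 * d + 1))) ≤
        a1 * (n.choose (d + 1) * (n : ℝ) ^ (-(2 * εD)) / 2 * (c4 / 4 * (n : ℝ) ^ (d + 1)) -
          2 ^ (3 * (d + 1)) * ((n : ℝ) ^ (2 * d + 1) * (n * √(mm n d)))) ∧
        (J * ((C * Real.log n * MM n d / L + 1) *
          (1 + (d + 1) * ((n : ℝ) ^ εD + J * (3 * (d + 1)))) ^ (2 * (d + 1)) *
          ((n : ℝ) ^ εD + J * (3 * (d + 1))) ^ (2 * (d + 1)))) ^ J * (n : ℝ) ^ K0 ≤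
        (a * (p2 / (1 - p2)) ^ (d * (2 * (d + 1)))) ^ J := by
  obtain ⟨J, hJ⟩ := exists_nat_ge (K0 / εD)
  obtain ⟨c0, hc, hc'⟩ : ∃ c0 : ℝ, 0 < c0 ∧ c0 * (2 ^ (d + 1) * (d + 1).factorial) = 1 :=
    ⟨_, by positivity, inv_mul_cancel₀ (by positivity)⟩
  have ty : ∀ (x : ℝ) {c : ℝ}, 0 < c → ∀ᶠ n : ℕ in atTop, x ≤ c * (n : ℝ) ^ εD := fun x c h =>
    (((tendsto_rpow_atTop h4).comp tendsto_natCast_atTop_atTop).const_mul_atTop
      h).eventually_ge_atTop x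
  obtain ⟨B, hB⟩ : ∃ B : ℝ, B = 1 + J * (3 * (d + 1)) := ⟨_, rfl⟩
  obtain ⟨D, hD⟩ : ∃ D : ℝ, D = (1 + (d + 1) * B) ^ (2 * (d + 1)) * B ^ (2 * (d + 1)) := ⟨_, rfl⟩
  refine ⟨J, ?_⟩
  filter_upwards [eventually_ge_atTop (2 * d), ty ((d + 1) * (3 * (d + 1))) (c := c4 / 4)
    (by positivity), ty (2 * (d + 1)) hc, ty 2 (mul_pos h2 hc),
    ty (1 + J * (3 * (d + 1)) * (d + 1)) (c := k * c0 / 2 * (c0 * c4 / 32)) (by positivity),
    ty (J * (3 * (d + 1)) * (4 * (d + 1))) (c := c0 * c4 / 32) (by positivity),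
    ty (2 ^ (3 * (d + 1))) (c := c0 * c4 / 32) (by positivity),
    ty (J * D * C / εD) (c := k / 4 * (c0 * c4 / 32) * ρ0 ^ (d * (2 * (d + 1)))) (by positivity),
    ty (J * D) (c := k / 4 * (c0 * c4 / 32) * ρ0 ^ (d * (2 * (d + 1))) * c0) (by positivity)]
    with n hn w1 w2 w3 w4 w5 w6 w7 w8 p2 a1 L q0 q1 ha hL
  have n1 : (1 : ℝ) ≤ n := by exact_mod_cast (by omega)
  have n0 : (0 : ℝ) < n := by linarith only [n1]
  have pw : ∀ (j : ℕ) {b : ℝ}, j * εD ≤ b → ((n : ℝ) ^ εD) ^ j ≤ (n : ℝ) ^ b := fun j b h => by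
    rw [← Real.rpow_natCast, ← Real.rpow_mul n0.le, mul_comm]
    exact Real.rpow_le_rpow_of_exponent_le n1 h
  obtain ⟨m0, m1, mN⟩ := mm_spec (n := n) (d := d) (by omega) (by omega)
  have l0 := Real.log_nonneg n1
  obtain ⟨r1, r2, a, a0, r3, r4⟩ := exp_n_core (u := (n : ℝ) ^ (-(2 * εD)))
    (ch := n.choose (d + 1)) (L := L) hd J h1 h2 h3 h4 h7 hc hB hD
    (Real.one_le_rpow n1 h4.le) (by simpa using pw (8 * d) (b := 1) (by push_cast; exact h5))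
    m0 m1 mN (by
      rw [← Real.rpow_natCast, ← Real.rpow_mul n0.le, ← Real.rpow_add n0]
      simp [mul_comm])
    ((mul_le_mul_of_nonneg_left (choose_ge hn) hc.le).trans (by rw [← mul_assoc, hc', one_mul]))
    l0 (Real.log_le_rpow_div n0.le h4) ((pw _ (by push_cast; exact h6)).trans hL) q0 q1 ha
    w1 w2 w3 w4 w5 w6 w7 w8
  refine ⟨r1, r2, a, a0, r3, le_trans ?_ (pow_le_pow_left₀ (by positivity) r4 J)⟩
  rw [mul_pow _ ((n : ℝ) ^ εD)]
  refine mul_le_mul_of_nonneg_left ?_ (by unfold MM; positivity)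
  rw [← Real.rpow_natCast _ J, ← Real.rpow_mul n0.le, ← Real.rpow_natCast]
  exact Real.rpow_le_rpow_of_exponent_le n1 (by rwa [div_le_iff₀' h4] at hJ)

theorem expl (hd : 2 ≤ d) (r0 K0 : ℕ) {c4 k ρ0 cL εD C : ℝ} (h1 : 0 < c4) (h2 : 0 < k)
    (h3 : 0 < ρ0) (h4 : 0 < εD) (h5 : 8 * d * εD ≤ 1) (h6 : (8 * (d + 1) + 8) * εD ≤ cL) :
    ∀ᶠ n : ℕ in atTop, ∀ [NeZero n] (p1 p2 : ℝ) (a1 L : ℕ), 0 ≤ p1 → p1 ≤ 1 / 2 →
      ρ0 * mm n d ≤ p2 → p2 ≤ 1 / 2 → k * MM n d ≤ a1 + 1 → (n : ℝ) ^ cL ≤ L →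
      P2 p1 p2 (EvX (n := n) (d := d) r0 a1 L c4 ((n : ℝ) ^ εD) (C * Real.log n * MM n d)
        (n.choose (d + 1) * (n : ℝ) ^ (-(2 * εD)))) ≤ 1 / (n : ℝ) ^ K0 := by
  obtain ⟨J, hJ⟩ := exp_num hd K0 h1 h2 h3 h4 h5 h6 (abs_nonneg C)
  filter_upwards [hJ, eventually_ge_atTop 1] with n hJ hn _ p1 p2 a1 L b1 b2 b3 b4 b5 b6
  obtain ⟨c1, c2, a, a0, c3, c4⟩ := hJ p2 a1 L b3 b4 b5 b6
  have n0 : (0 : ℝ) < n := by exact_mod_cast hn
  have m0 := (mm_spec (d := d) (by omega) hn).1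
  have p0 : 0 < p2 := (mul_pos h3 m0).trans_le b3
  have p1' : p2 < 1 := by linarith only [b4]
  have l0 : 0 ≤ Real.log n * MM n d :=
    mul_nonneg (Real.log_natCast_nonneg n) (mul_nonneg (Nat.cast_nonneg _) m0.le)
  refine P2_le b1 (by linarith only [b2, b4, p0]) fun S1 => ?_
  have key := exp_one hd (r0 := r0) (Nat.cast_pos.1 ((Real.rpow_pos_of_pos n0 cL).trans_le b6)) h1
    (Real.rpow_nonneg n0.le εD) (Kn := |C| * Real.log n * MM n d)
    (by rw [mul_assoc]; positivity) (by positivity) p0.le p1' a0.le c1 c2 c3 S1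
  have q0 : 0 < (a * (p2 / (1 - p2)) ^ (d * (2 * (d + 1)))) ^ J := by
    have := sub_pos.2 p1'
    positivity
  refine (Pr_mono p0.le p1'.le fun R ⟨ρ, hh, e1, e2, e3, e4, e5, e6, e7, e8⟩ =>
    ⟨ρ, hh, e1, e2, e3, e4, e5, e6, e7.trans ?_, e8⟩).trans (le_of_mul_le_mul_right (key.trans ?_) q0)
  · rwa [one_div_mul_eq_div, le_div_iff₀ (pow_pos n0 _)]
  · rw [mul_assoc, mul_assoc]
    exact mul_le_mul_of_nonneg_right (le_abs_self C) l0

end Pool.Agent.MP_8f9e6e_pr.J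

end

section

/-! The bound for the two layers. -/

open Finset Filter

namespace Pool.Agent.MP_8f9e6e_pr.J

variable {d : ℕ}

theorem lay_log {a : ℝ} (ha : 0 < a) (C : ℝ) :
    Tendsto (fun n : ℕ => C * Real.log n * (n : ℝ) ^ (-a)) atTop (nhds 0) := by
  have := ((isLittleO_log_rpow_atTop ha).tendsto_div_nhds_zero.comp
    tendsto_natCast_atTop_atTop).const_mul C
  rw [mul_zero] at this
  refine this.congr fun n => ?_
  simp [Real.rpow_neg (Nat.cast_nonneg n), div_eq_mul_inv, mul_assoc]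

theorem lay_small (hd : 2 ≤ d) {ε t : ℝ} (h0 : 0 < ε) (h1 : 8 * d * ε ≤ 1) (C : ℝ) (ht : 0 < t) :
    ∀ᶠ n : ℕ in atTop, (d + 2) * (C * Real.log n * mm n d +
      (C * Real.log n * mm n d + (n : ℝ) ^ (-(2 * ε))) * (n : ℝ) ^ ε) < t := by
  have d2 : (2 : ℝ) ≤ d := by exact_mod_cast hd
  have a1 : (0 : ℝ) < 1 / d := by positivity
  have a2 : 0 < 1 / d - ε := by
    rw [sub_pos, lt_div_iff₀ (by linarith only [d2])]
    linarith only [h1]
  have := (((lay_log a1 C).add ((lay_log a2 C).add ((tendsto_rpow_neg_atTop h0).comp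
    tendsto_natCast_atTop_atTop))).const_mul (d + 2 : ℝ)).eventually_lt_const (u := t) (by simpa)
  filter_upwards [this, eventually_ge_atTop 1] with n h hn
  have n0 : (0 : ℝ) < n := by exact_mod_cast hn
  refine lt_of_eq_of_lt ?_ h
  rw [mm, add_mul _ _ ((n : ℝ) ^ ε), mul_assoc _ _ ((n : ℝ) ^ ε), ← Real.rpow_add n0,
    ← Real.rpow_add n0, show -(1 / d : ℝ) + ε = -(1 / d - ε) by ring,
    show -(2 * ε) + ε = -ε by ring]
  rfl

theorem lay_seven {α : Type} [Fintype α] [DecidableEq α] {p1 p2 b : ℝ} (a0 : 0 ≤ p1) (a1 : p1 ≤ 1)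
    (b0 : 0 ≤ p2) (b1 : p2 ≤ 1) {E F1 F2 F3 F4 F5 F6 F7 : Finset α → Finset α → Prop}
    (h1 : P2 p1 p2 F1 ≤ b) (h2 : P2 p1 p2 F2 ≤ b) (h3 : P2 p1 p2 F3 ≤ b) (h4 : P2 p1 p2 F4 ≤ b)
    (h5 : P2 p1 p2 F5 ≤ b) (h6 : P2 p1 p2 F6 ≤ b) (h7 : P2 p1 p2 F7 ≤ b)
    (h : ∀ A R, E A R → ¬ F1 A R → ¬ F2 A R → ¬ F3 A R → ¬ F4 A R → ¬ F5 A R → ¬ F6 A R →
      F7 A R) : P2 p1 p2 E ≤ 7 * b := by
  refine (P2_union a0 a1 b0 b1 univ ![F1, F2, F3, F4, F5, F6, F7] fun A R hE => ?_).trans ?_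
  · by_contra hn
    push Not at hn
    exact hn 6 (mem_univ _) (h A R hE (hn 0 (mem_univ _)) (hn 1 (mem_univ _)) (hn 2 (mem_univ _))
      (hn 3 (mem_univ _)) (hn 4 (mem_univ _)) (hn 5 (mem_univ _)))
  · rw [Fin.sum_univ_seven]
    change P2 p1 p2 F1 + P2 p1 p2 F2 + P2 p1 p2 F3 + P2 p1 p2 F4 + P2 p1 p2 F5 + P2 p1 p2 F6 +
      P2 p1 p2 F7 ≤ _
    linarith

theorem lay_fit {n : ℕ} (hd : 2 ≤ d) (hn : 1 ≤ n) {γ θ k kc a : ℝ} (g0 : 0 < γ) (g1 : γ ≤ 1)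
    (t0 : 1 < θ) (t1 : θ ≤ 2) (k0 : 0 < k) (ha : a ≤ 2 * (k * MM n d))
    (h7 : 2 * k * ((d + 1 : ℝ) ^ (d + 1)) ^ 2 * 2 ^ (d + 1) ≤ kc) :
    a * ((d + 1 : ℝ) ^ (d + 1)) ^ 2 * ((γ * mm n d) ^ (d * (d + 1)) * θ ^ (d + 1)) ≤
      kc * mm n d := by
  obtain ⟨m0, -, m1⟩ := mm_spec (n := n) (d := d) (by omega) hn
  have e1 : (n.choose (d + 1) : ℝ) * (γ * mm n d) ^ (d * (d + 1)) ≤ 1 := by
    calc _ ≤ (n : ℝ) ^ (d + 1) * (1 * mm n d) ^ (d * (d + 1)) := by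
          gcongr
          exact_mod_cast Nat.choose_le_pow _ _
      _ = 1 := by rw [one_mul, pow_mul, ← mul_pow, m1, one_pow]
  have e2 : 0 ≤ MM n d := by rw [MM]; positivity
  calc _ ≤ 2 * (k * MM n d) * ((d + 1 : ℝ) ^ (d + 1)) ^ 2 *
        ((γ * mm n d) ^ (d * (d + 1)) * 2 ^ (d + 1)) := by gcongr
    _ = 2 * k * ((d + 1 : ℝ) ^ (d + 1)) ^ 2 * 2 ^ (d + 1) * mm n d *
        (n.choose (d + 1) * (γ * mm n d) ^ (d * (d + 1))) := by rw [MM]; ring
    _ ≤ 2 * k * ((d + 1 : ℝ) ^ (d + 1)) ^ 2 * 2 ^ (d + 1) * mm n d * 1 := by gcongr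
    _ ≤ _ := by rw [mul_one]; gcongr

theorem lay_eps (d b r s : ℕ) {cL : ℝ} (h : 0 < cL) : ∃ c ε : ℝ, 0 < c ∧ 8 * b * c ≤ cL ∧ 0 < ε ∧
    8 * d * ε ≤ 1 ∧ (8 * (d + 1) + 8) * ε ≤ c ∧ ε * (r + s) ≤ 1 / 2 := by
  obtain ⟨c, c0, c1⟩ : ∃ c : ℝ, 0 < c ∧ 8 * b * c ≤ cL := ⟨cL / (8 * b + 8), by positivity, by
    rw [mul_div_assoc', div_le_iff₀ (by positivity)]
    linarith only [h]⟩
  have t0 : 0 < min c (1 / 2) := lt_min c0 (by norm_num)
  have A0 : (0 : ℝ) < 8 * (d + 1) + 8 + (r + s) := by positivity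
  have t1 := div_pos t0 A0
  have t2 := mul_div_cancel₀ (min c (1 / 2)) A0.ne'
  have t3 := min_le_left c (1 / 2)
  have t4 := min_le_right c (1 / 2)
  have t5 : (0 : ℝ) ≤ r + s := by positivity
  have t6 : (0 : ℝ) ≤ d := by positivity
  exact ⟨c, _, c0, c1, t1, by nlinarith only [t2, t4], by nlinarith only [t1, t2, t3], by nlinarith only [t2, t4]⟩

theorem lay_j {n b : ℕ} (hn : 1 ≤ n) {c cL : ℝ} (c0 : 0 < c) (c1 : 8 * b * c ≤ cL)
    (h : 14 * b ≤ Real.log n * cL) :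
    ∃ j : ℕ, (n : ℝ) ^ c ≤ (2 ^ j : ℕ) ∧ ((b * (2 * j + 5) : ℕ) : ℝ) ≤ cL * Real.log n := by
  have n1 : (1 : ℝ) ≤ n := by exact_mod_cast hn
  have l0 := Real.log_nonneg n1
  obtain ⟨j, t1, t2⟩ : ∃ j : ℕ, 2 * c * Real.log n ≤ j ∧ (j : ℝ) ≤ 2 * c * Real.log n + 1 :=
    ⟨_, Nat.le_ceil _, (Nat.ceil_lt_add_one (by positivity)).le⟩
  refine ⟨j, ?_, ?_⟩
  · rw [Real.rpow_def_of_pos (by linarith only [n1]), Nat.cast_pow, Nat.cast_ofNat,
      ← Real.exp_log (show (0 : ℝ) < 2 ^ j by positivity), Real.log_pow, Real.exp_le_exp]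
    have t3 := mul_le_mul_of_nonneg_left Real.log_two_gt_d9.le (Nat.cast_nonneg (α := ℝ) j)
    have t4 := Nat.cast_nonneg (α := ℝ) j
    linarith only [t1, t3]
  · have t3 := mul_le_mul_of_nonneg_right c1 l0
    have t4 := mul_le_mul_of_nonneg_left t2 (Nat.cast_nonneg (α := ℝ) b)
    push_cast
    linarith only [h, t3, t4]

/-- The inequality that `big` needs. -/
theorem lay_num {N m n k g η l q p a s sm b u : ℝ} {e : ℕ} (N0 : 0 < N) (m0 : 0 < m) (n0 : 0 < n)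
    (hm : n * m ^ (e + 1) = 1) (k0 : 0 < k) (g0 : 0 < g) (η0 : 0 < η) (hp : g * m ≤ p)
    (s1 : 1 ≤ s) (s2 : s ≤ sm) (q1 : 1 ≤ s * q) (q2 : l ≤ s * q) (ha : k * (N * m) ≤ 2 * a)
    (hb : 32 * b ≤ l * (η * k * g ^ e)) (hu : u < k * g ^ e / (32 * (sm + 1) ^ 2)) :
    b * (q * N / η) + s * (u * N) < s * (a / 2 * (n * q ^ 2 * p ^ e / 4)) := by
  have q0 : 0 < q := by nlinarith only [s1, q1]
  set G := k * g ^ e with hG
  have G0 : 0 < G := by positivity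
  have e1 : b * (q * N / η) ≤ s * (q ^ 2 * G * N / 32) := by
    have : 32 * b ≤ s * q * (η * k * g ^ e) := hb.trans (by gcongr)
    calc _ = 32 * b * (q * N / (32 * η)) := by field_simp
      _ ≤ s * q * (η * k * g ^ e) * (q * N / (32 * η)) := by gcongr
      _ = _ := by rw [hG]; field_simp
  have e2 : u < q ^ 2 * G / 32 := by
    refine hu.trans_le ?_
    rw [div_le_div_iff₀ (by nlinarith only [s1, s2]) (by norm_num)]
    have : 1 ≤ (sm + 1) * q := by nlinarith only [s1, s2, q1]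
    have : 1 ≤ ((sm + 1) * q) ^ 2 := one_le_pow₀ this
    nlinarith only [G0, this]
  have e3 : q ^ 2 * G * N / 16 ≤ a / 2 * (n * q ^ 2 * p ^ e / 4) := by
    calc _ = k * (N * m) / 4 * (n * q ^ 2 * (g * m) ^ e / 4) := by
          rw [hG, mul_pow]
          linear_combination (-(q ^ 2 * (k * g ^ e) * N / 16)) * hm
      _ ≤ _ := by
          have : 0 < k * (N * m) := by positivity
          exact mul_le_mul (by linarith only [ha]) (by gcongr) (by positivity) (by linarith only [ha, this])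
  have e4 : s * (u * N) < s * (q ^ 2 * G / 32 * N) := by gcongr
  have e5 := mul_le_mul_of_nonneg_left e3 (show 0 ≤ s by linarith only [s1])
  linarith only [e1, e4, e5]

/-- The bound for the two layers. -/
theorem layers (hd : 2 ≤ d) {W : Wt} {r0 Q : ℕ} {c3 kc : ℝ} (hW : W.GF d r0 (Q * (d + 1)) c3 kc)
    (hQ : 2 * Cb d ≤ Q) (K0 b0 sm : ℕ)
    (hb : ∀ (W : Wt) (r0 Q : ℕ) (c3 kc : ℝ),
      W.GF d r0 (Q * (d + 1)) c3 kc → 2 * Cb d ≤ Q → ∃ cL : ℝ, 0 < cL ∧ ∀ C : ℝ,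
      ∀ᶠ n : ℕ in atTop, ∀ [NeZero n] (p1 p2 : ℝ) (a2 : ℕ), Fit n d W kc p1 p2 a2 →
      ∀ e0 : ℕ, (e0 : ℝ) ≤ cL * Real.log n →
      P2 p1 p2 (fun S1 R : Finset (Face n d) => ∃ ρ, (cx r0 Q ρ (S1 ∪ R)).World c3 a2 ∧
        (cx r0 Q ρ (S1 ∪ R)).SzB (C * Real.log n) ∧
        ¬ NDC d r0 (cx r0 Q ρ (S1 ∪ R)).hh (st (S1 ∪ R)) (3 * b0) e0 b0) ≤ 1 / (n : ℝ) ^ (K0 + 1))
    {c4 k ρ0 η l g C : ℝ} (h1 : 0 < c4) (h2 : 0 < k) (h3 : k ≤ 1 / 2) (h4 : 0 < ρ0) (h5 : 0 < η)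
    (h6 : 0 < g) (h7 : 2 * k * ((d + 1 : ℝ) ^ (d + 1)) ^ 2 * 2 ^ (d + 1) ≤ kc)
    (h8 : 8 * W.xP d r0 (Q * (d + 1)) .D ≤ c4 / (8 * d * (d + 1)))
    (h9 : 32 * (2 * b0 + 4) ≤ l * (η * k * g ^ (d - 1))) :
    ∃ εD : ℝ, 0 < εD ∧ ∀ᶠ n : ℕ in atTop, ∀ [NeZero n] (p1 p2 q : ℝ) (s : ℕ),
      g * mm n d ≤ p1 → p1 ≤ 1 / 2 → ρ0 * mm n d ≤ p2 → p2 ≤ 1 / 2 →
      1 / ((1 - p1) * (1 - p2)) - 1 ≤ W.γ * mm n d → 1 ≤ s → s ≤ sm → 1 ≤ s * q → l ≤ s * q →
      P2 p1 p2 (fun S1 R : Finset (Face n d) =>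
        ((cd (fun f : Fc n => f.card = d + 1 ∧ Heavy d r0 s (st S1) f) : ℝ) ≤ q * n.choose (d + 1) / η ∧
          (cd (fun e : Fc n => e.card = d + 1 ∧
            (Xh d r0 s (st S1) e : ℝ) < n * q ^ 2 * p1 ^ (d - 1) / 4) : ℝ) ≤
            n.choose (d + 1) * √(mm n d)) ∧
        ((cd (Rd d (st (S1 ∪ R)) r0) : ℝ) ≤ 2 * MM n d ∧
          Iso d r0 (Q * (d + 1)) (Q * (d + 1)) c3 (st (S1 ∪ R)) ∧
          Iso d r0 (d + 1) (2 * (d + 1)) c4 (st (S1 ∪ R)) ∧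
          Deg d (Rd d (st (S1 ∪ R)) r0) ((n : ℝ) ^ εD)) ∧
        3 * MM n d < cd (Contr d (st (S1 ∪ R))) ∧
          (cd (Contr d (st (S1 ∪ R))) : ℝ) ≤ C * Real.log n * MM n d) ≤ 1 / (n : ℝ) ^ K0 := by
  obtain ⟨cL, hcL, e6⟩ := hb W r0 Q c3 kc hW hQ
  obtain ⟨C1, -, e1⟩ := inst1 hd hW hQ (K0 + 1)
  obtain ⟨c', ε, c0, c1, ε0, ε1, ε2, ε3⟩ := lay_eps d b0 r0 sm hcL
  refine ⟨ε, ε0, ?_⟩
  filter_upwards [e1, inst3 hd hW hQ C1 (K0 + 1), inst2 hd hW hQ C1 (K0 + 1) ε0,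
    inst4 hd hW hQ C1 (K0 + 1), inst5 hd hW hQ C1 (K0 + 1) sm ε0 ε3 h2, e6 C1,
    expl hd r0 (K0 + 1) (C := C) h1 h2 h4 ε0 ε1 ε2, eventually_ge_atTop 7, ev_choose hd (2 / k),
    lay_small hd ε0 ε1 C (show 0 < k * g ^ (d - 1) / (32 * (sm + 1) ^ 2) by positivity),
    (Real.tendsto_log_atTop.comp tendsto_natCast_atTop_atTop).eventually_ge_atTop
      (14 * b0 / cL)] with n f1 f3 f2 f4 f5 f6 f7 n7 hN hs hl
  intro _ p1 p2 q s g1 g2 g3 g4 g5 s1 s2 q1 q2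
  obtain ⟨m0, m1, m2⟩ := mm_spec (n := n) (d := d) (by omega) (by omega)
  have n0 : (7 : ℝ) ≤ n := by exact_mod_cast n7
  have l0 : 0 ≤ Real.log n := Real.log_nonneg (by linarith only [n0])
  have N0 : (0 : ℝ) < n.choose (d + 1) := lt_of_lt_of_le (by positivity) hN
  have M2 : 2 ≤ k * MM n d := by
    have : 1 ≤ n * mm n d := m2.ge.trans (by
      gcongr
      exact pow_le_of_le_one m0.le m1 (by omega))
    calc (2 : ℝ) ≤ k * (2 / k * n * mm n d) := by field_simp; linarith only [this]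
      _ ≤ _ := by rw [MM]; gcongr
  have p0 : 0 ≤ p1 := le_trans (by positivity) g1
  have p0' : 0 ≤ p2 := le_trans (by positivity) g3
  set a1 := ⌊k * MM n d⌋₊ with ha
  have a3 : (a1 : ℝ) ≤ k * MM n d := Nat.floor_le (by linarith only [h2, h3, M2])
  have a4 : k * MM n d ≤ a1 + 1 := (Nat.lt_floor_add_one _).le
  have hF : Fit n d W kc p1 p2 (2 * a1) := ⟨p0, g2, p0', g4, g5, lay_fit hd (by omega) hW.hγ.1
    hW.hγ.2 hW.hθ.1 hW.hθ.2 h2 (by push_cast; linarith only [a3]) h7⟩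
  obtain ⟨j, j1, j2⟩ := lay_j (by omega : 1 ≤ n) c0 c1 ((div_le_iff₀ hcL).1 hl)
  have hQ' : 2 * (d + 1) + 2 ≤ Q * (d + 1) := by
    have : 4 ≤ Q := le_trans (Nat.mul_le_mul_left 2 (show 2 ≤ Cb d from
      Nat.le_mul_of_pos_right _ (by positivity) |>.trans (Nat.le_mul_of_pos_right _ (by omega)))) hQ
    have := Nat.mul_le_mul_right (d + 1) this
    omega
  refine (lay_seven p0 (by linarith only [h2, h3, g2]) p0' (by linarith only [h2, h3, g4]) (f1 p1 p2 _ hF) (f3 p1 p2 _ hF)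
    (f2 p1 p2 _ hF) (f4 p1 p2 _ hF) (f5 p1 p2 _ hF a1 s (n * q ^ 2 * p1 ^ (d - 1) / 4) a4 s2)
    (f6 p1 p2 _ hF _ j2) (f7 p1 p2 a1 (2 ^ j) p0 g2 g3 g4 a4 j1) ?_).trans ?_
  swap
  · rw [pow_succ, mul_one_div, div_le_div_iff₀ (by positivity) (by positivity)]
    rw [one_mul, mul_comm]
    gcongr
  rintro S1 R ⟨⟨b1, b2⟩, ⟨b3, b4, b5, b6⟩, b7, b8⟩ k1 k3 k2 k4 k5 k6
  have hD : 2 * a1 < cd (IsD d r0 (st (S1 ∪ R))) := by
    have t1 : (cd (Contr d (st (S1 ∪ R))) : ℝ) ≤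
        cd (IsD d r0 (st (S1 ∪ R))) + cd (Rd d (st (S1 ∪ R)) r0) := by
      exact_mod_cast (cd_mono fun x (hx : Contr d _ x) => (em (Rd d _ r0 x)).symm.imp_left
        fun h => (⟨hx, h⟩ : IsD d r0 _ x)).trans (cd_or _ _)
    have t2 : k * MM n d ≤ 1 / 2 * MM n d := by
      gcongr
      rw [MM]
      positivity
    have t3 : ((2 * a1 : ℕ) : ℝ) < cd (IsD d r0 (st (S1 ∪ R))) := by
      push_cast
      linarith only [a3, b3, b7, t1, t2]
    exact_mod_cast t3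
  obtain ⟨ρ, r1, r2⟩ := exists_rho hD
  have hw : (cx r0 Q ρ (S1 ∪ R)).World c3 (2 * a1) :=
    .inr ⟨b4, r1, show ρ + Q * (d + 1) - 1 < ρ + Q * (d + 1) by omega⟩
  have hz : (cx r0 Q ρ (S1 ∪ R)).SzB (C1 * Real.log n) := by
    by_contra h
    exact k1 ⟨ρ, hw, h⟩
  have hH : ∀ e, DD d r0 (st (S1 ∪ R)) a1 e → Rd d (st (S1 ∪ R)) (ρ + Q * (d + 1) - 1) e :=
    fun e he => (dd_rd r2 ⟨he.1, he.2.trans_le (by omega)⟩).mono (by omega)
  have hr : r0 ≤ ρ + Q * (d + 1) - 1 := by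
    by_contra h
    refine r2 ((cd_mono (Q := (· ∈ (∅ : Finset (Fc n)))) fun x hx =>
      absurd (hx.1.mono (by omega)) hx.2).trans ?_)
    rw [cd_mem]
    exact Nat.zero_le _
  refine ⟨ρ, ρ + Q * (d + 1) - 1, by omega, r2, b5, fun r hr => ?_, by_contra fun h =>
    k3 ⟨ρ, hw, hz, h⟩, b6.anti fun z hz => rd_src hz, b8, ?_⟩
  · have : SB d r0 (ρ + Q * (d + 1) - 1) (st (S1 ∪ R)) (8 * W.xP d r0 (Q * (d + 1)) .D * n) :=
      by_contra fun h => k4 ⟨ρ, hw, hz, h⟩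
    exact (this r hr).trans (by gcongr)
  refine big hd (b0 := b0) subset_union_left s1 (by positivity) (by positivity) hr (by omega) hH b1
    (not_lt.1 fun h => k5 ⟨ρ, hw, hz, hH, b6.anti fun z hz => rd_up (st_mono subset_union_left) hz,
      b2, h⟩) (by_contra fun h => k2 ⟨ρ, hw, hz, h⟩)
    (le_trans (by exact_mod_cast cd_mono fun x hx => Rd.contr hx) b8) b8
    (by rw [Nat.log_pow (by norm_num)]; exact by_contra fun h => k6 ⟨ρ, hw, hz, h⟩) ?_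
  refine lt_of_eq_of_lt ?_ (lay_num (e := d - 1) (sm := sm) N0 m0 (by linarith only [h2, h3, n0])
    (by rw [show d - 1 + 1 = d by omega, m2]) h2 h6 h5 g1 (by exact_mod_cast s1)
    (by exact_mod_cast s2) q1 q2 (by rw [← MM]; linarith only [M2, a4]) h9 hs)
  rw [MM]
  ring

end Pool.Agent.MP_8f9e6e_pr.J

end

section

/-! From the two layers to the ordering. -/

open Finset Filter

namespace Pool.Agent.MP_8f9e6e_pr.J

theorem tra_core {α : Type} [Fintype α] [DecidableEq α] {N : ℕ} (hN : Fintype.card α = N)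
    {p b : ℝ} (h0 : 0 ≤ p) (h1 : p ≤ 1) (hb : 0 ≤ b) (G F : Finset α → Prop) (B : ℕ → Prop)
    (W : Finset ℕ) (hW : W ⊆ range (N + 1)) (h : ∀ s, ¬ B s → ∀ t ∈ W, s ≤ t ∧
      P2 p ((t - s : ℕ) / (N - s : ℕ)) (fun A R => G A ∧ F (A ∪ R)) ≤ b) :
    (cnt (fun π : Fin N ≃ α => ∃ t ∈ W, F (ini π t)) : ℝ) ≤
      (Pr p (fun S => ¬ G S) + Pr p (fun S : Finset α => B S.card) + (N + 1) ^ 3 * b) *
        cnt fun _ : Fin N ≃ α => True := by
  classical
  set Z : ℝ := ((cnt fun _ : Fin N ≃ α => True : ℕ) : ℝ) with hZ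
  have Z0 : 0 ≤ Z := Nat.cast_nonneg _
  obtain ⟨g, hg⟩ : ∃ g : ℕ → ℝ, ∀ s, g s = if B s then 0 else
    ∑ t ∈ W, (cnt (fun π : Fin N ≃ α => G (ini π s) ∧ F (ini π t)) : ℝ) := ⟨_, fun _ => rfl⟩
  have e1 : ∑ S : Finset α, wt p S * g S.card ≤ (N + 1) ^ 3 * b * Z := by
    have e := sum_powerset_apply_card (x := (univ : Finset α))
      fun s => p ^ s * (1 - p) ^ (N - s) * g s
    rw [powerset_univ, card_univ, hN] at e
    simp only [wt, hN]
    rw [e]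
    refine (sum_le_card_nsmul _ _ ((N + 1) * ((N + 1) * b * Z)) fun s _ => ?_).trans_eq
      (by rw [card_range, nsmul_eq_mul]; push_cast; ring)
    rw [hg, nsmul_eq_mul]
    split_ifs with hs
    · rw [mul_zero, mul_zero]; positivity
    rw [← mul_assoc, mul_sum]
    refine (sum_le_card_nsmul _ _ ((N + 1) * b * Z) fun t ht => ?_).trans ?_
    · refine (transfer2 hN h0 h1 (fun A S => G A ∧ F S) (h s hs t ht).1
        (Nat.lt_succ_iff.1 (mem_range.1 (hW ht)))).trans ?_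
      gcongr
      exact (h s hs t ht).2
    · rw [nsmul_eq_mul]
      gcongr
      exact_mod_cast (card_le_card hW).trans_eq (card_range _)
  rw [add_mul]
  refine le_trans ?_ (add_le_add le_rfl e1)
  rw [add_mul, ← sum_time hN, Pr, sum_mul, ← sum_add_distrib, ← sum_add_distrib,
    ← one_mul (cnt (fun π : Fin N ≃ α => ∃ t ∈ W, F (ini π t)) : ℝ), ← sum_wt (α := α) p, sum_mul]
  refine sum_le_sum fun S _ => ?_
  have hw := wt_nonneg h0 h1 S
  rw [hg]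
  by_cases hS : B S.card
  · rw [if_pos hS, if_pos hS, mul_zero, add_zero]
    exact le_add_of_nonneg_of_le (by positivity)
      (mul_le_mul_of_nonneg_left (Nat.cast_le.2 (cnt_mono fun _ _ => trivial)) hw)
  · rw [if_neg hS, if_neg hS, zero_mul, add_zero, ← mul_add]
    refine mul_le_mul_of_nonneg_left ?_ hw
    have := cnt_union (insertNone W) (E := fun π : Fin N ≃ α => ∃ t ∈ W, F (ini π t))
      (fun o π => o.elim (¬ G (ini π S.card)) fun t => G (ini π S.card) ∧ F (ini π t))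
      fun π ⟨t, ht, hF⟩ => by
        by_cases hG : G (ini π S.card)
        exacts [⟨some t, some_mem_insertNone.2 ht, hG, hF⟩, ⟨none, none_mem_insertNone, hG⟩]
    rw [sum_insertNone] at this
    exact_mod_cast this

variable {d : ℕ}

theorem trans_ev (hd : 2 ≤ d) {ρ η : ℝ} (h0 : 0 < ρ) (h1 : ρ ≤ 1 / 10) (hη : 0 < η) :
    ∀ᶠ n : ℕ in atTop, ∀ G1 Gp E : Finset (Face n d) → Prop, MP_8f9e6e_pr.Dn Gp →
      Pr ((1 - 2 * ρ) * (gc d * mm n d)) (fun S => ¬ G1 S) ≤ η →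
      Pr ((1 + 2 * ρ) * (gc d * mm n d)) (fun S => ¬ Gp S) ≤ η →
      (∀ p2, ρ / 2 * (gc d * mm n d) ≤ p2 → p2 ≤ 5 * ρ * (gc d * mm n d) →
        P2 ((1 - 2 * ρ) * (gc d * mm n d)) p2 (fun A R => G1 A ∧ Gp (A ∪ R) ∧ E (A ∪ R)) ≤
          1 / (n : ℝ) ^ (3 * d + 4)) →
      prob {π : Ord n d | ∃ t ≤ n.choose (d + 1),
        |(t : ℝ) - gc d * mm n d * n.choose (d + 1)| ≤ ρ * (gc d * mm n d * n.choose (d + 1)) ∧
        E (ini π t)} ≤ 5 * η := by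
  obtain ⟨g0, g1⟩ := gc_spec (d := d) (by omega)
  have g2 : gc d ≤ 1 := by
    refine le_of_pow_le_pow_left₀ (n := d) (by omega) zero_le_one ?_
    refine le_of_mul_le_mul_right (a := ((d : ℝ) + 1) ^ (d + 1)) ?_ (by positivity)
    rw [g1, one_pow, one_mul]
    exact le_trans (by gcongr; linarith only [h0, h1]) (pow_le_pow_right₀ (by linarith only []) d.le_succ)
  filter_upwards [eventually_ge_atTop (d + 1), ev_small hd (show (0 : ℝ) < 1 / 4 by norm_num),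
    ev_choose hd (8 / (ρ ^ 2 * η) / gc d), tendsto_natCast_atTop_atTop.eventually_ge_atTop (8 / η)]
    with n hn s4 s5 s6 G1 Gp E hD a1 a2 a3
  obtain ⟨m0, m1, m2⟩ := mm_spec (n := n) (d := d) (by omega) (by omega)
  set N := n.choose (d + 1) with hN
  set q := gc d * mm n d with hq
  have N0 : (0 : ℝ) < N := by exact_mod_cast Nat.choose_pos hn
  have n1 : (1 : ℝ) ≤ n := by exact_mod_cast (by omega)
  have q0 : 0 < q := by positivity
  have q1 : q ≤ 1 / 4 := (mul_le_of_le_one_left m0.le g2).trans (by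
    simpa only [one_div, one_mul] using s4 (mm n d) 1 m0.le zero_le_one m2.le (by simpa only [one_pow] using one_le_pow₀ one_le_two))
  have q3 : 8 / (ρ ^ 2 * η) ≤ q * N := by
    calc _ = gc d * mm n d ^ d * (8 / (ρ ^ 2 * η) / gc d * n) := by
          field_simp; linear_combination (-1 : ℝ) * m2
      _ ≤ _ := by
          rw [hq]
          gcongr
          exact pow_le_of_le_one m0.le m1 (by omega)
  have rq : ∀ r : ℝ, r ≤ 2 → r * q ≤ 1 := fun r h =>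
    (mul_le_mul h q1 q0.le zero_le_two).trans (by norm_num)
  have b0 : 0 < ρ * (q * N) := by positivity
  have dev : ∀ r : ℝ, 0 ≤ r → r ≤ 2 → ∀ G : ℕ → Prop,
      (∀ b, G b → ρ / 2 * (q * N) ≤ |b - N * (r * q)|) →
      Pr (r * q) (fun S : Finset (Face n d) => G S.card) ≤ η := fun r r0 r1 G hG => by
    refine (Pr_mono (by positivity) (rq r r1) fun S hS => hG _ hS).trans
      ((pr_dev (by positivity) (rq r r1) (by positivity)).trans ?_)
    rw [div_le_iff₀ (by positivity)] at q3 ⊢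
    calc _ = r * (q * N) := by ring
      _ ≤ 8 / 4 * (q * N) := by gcongr; linarith only [r1]
      _ ≤ q * N * (ρ ^ 2 * η) / 4 * (q * N) := by gcongr
      _ = _ := by ring
  have qN : 0 < q * N := by positivity
  have c1 := transfer (card_face n d) (p := (1 + 2 * ρ) * q) (by positivity) (rq _ (by linarith only [h0, h1]))
    (fun S => ¬ Gp S) ⌊(1 + ρ) * (q * N)⌋₊ (fun b => b < ⌊(1 + ρ) * (q * N)⌋₊)
    fun b hb π h h' => h (hD _ _ (ini_mono π (not_lt.1 hb)) h')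
  have c2 := dev (1 + 2 * ρ) (by linarith only [h0, h1]) (by linarith only [h0, h1]) (fun b => b < ⌊(1 + ρ) * (q * N)⌋₊)
    fun b hb => le_abs.2 (.inr (by
      have := (Nat.cast_lt.2 hb).trans_le (Nat.floor_le (show 0 ≤ (1 + ρ) * (q * N) by positivity))
      linarith only [b0, this]))
  have c3 := dev (1 - 2 * ρ) (by linarith only [h0, h1]) (by linarith only [h0, h1]) _ fun b hb => hb
  have c4 := tra_core (card_face n d) (p := (1 - 2 * ρ) * q) (b := 1 / (n : ℝ) ^ (3 * d + 4))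
    (mul_nonneg (by linarith only [h0, h1]) q0.le) (rq _ (by linarith only [h0, h1])) (by positivity) G1 (fun S => Gp S ∧ E S)
    (fun b => ρ / 2 * (q * N) ≤ |b - N * ((1 - 2 * ρ) * q)|)
    ((range (N + 1)).filter fun t => |(t : ℝ) - q * N| ≤ ρ * (q * N)) (filter_subset _ _)
    fun s hs t ht => by
      obtain ⟨b1, b2⟩ := abs_lt.1 (not_le.1 hs)
      obtain ⟨b3, b4⟩ := abs_le.1 (mem_filter.1 ht).2
      have b5 := Nat.lt_succ_iff.1 (mem_range.1 (mem_filter.1 ht).1)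
      have b6 : s ≤ t := by exact_mod_cast (show (s : ℝ) ≤ t by linarith only [b0, b2, b3])
      have b7 : (s : ℝ) ≤ N / 4 := by linarith only [mul_le_mul_of_nonneg_right q1 N0.le, b0, b2]
      have b8 : (0 : ℝ) ≤ s := s.cast_nonneg
      refine ⟨b6, a3 _ ?_ ?_⟩ <;> rw [Nat.cast_sub b6, Nat.cast_sub (b6.trans b5)]
      · rw [le_div_iff₀ (by linarith only [N0, b7])]
        linarith only [mul_nonneg (mul_pos h0 q0).le b8, b2, b3]
      · rw [div_le_iff₀ (by linarith only [N0, b7])]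
        linarith only [mul_le_mul_of_nonneg_left b7 (mul_pos h0 q0).le, b0, b1, b4]
  have c5 : ((N : ℝ) + 1) ^ 3 * (1 / (n : ℝ) ^ (3 * d + 4)) ≤ η := by
    have : (N : ℝ) ≤ n ^ (d + 1) := by exact_mod_cast Nat.choose_le_pow n (d + 1)
    rw [mul_one_div, div_le_iff₀ (by positivity)]
    calc _ ≤ (2 * (n : ℝ) ^ (d + 1)) ^ 3 := by
          gcongr; linarith only [one_le_pow₀ (n := d + 1) n1, this]
      _ = η * (n ^ (3 * d + 3) * (8 / η)) := by field_simp; ring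
      _ ≤ η * (n ^ (3 * d + 3) * n) := by gcongr
      _ = _ := by ring
  have e0 : Nonempty (Ord n d) := ⟨(Fintype.equivFinOfCardEq (card_face n d)).symm⟩
  have c8 : (0 : ℝ) < cnt fun _ : Ord n d => True := by simp only [cnt, filter_true, card_univ, Nat.cast_pos, Fintype.card_pos]
  have c6 := cnt_union (univ : Finset (Fin 2)) (E := fun π : Ord n d =>
      ∃ t ≤ N, |(t : ℝ) - q * N| ≤ ρ * (q * N) ∧ E (ini π t))
    ![fun π => ¬ Gp (ini π ⌊(1 + ρ) * (q * N)⌋₊), fun π => ∃ t ∈ (range (N + 1)).filter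
      fun t : ℕ => |(t : ℝ) - q * N| ≤ ρ * (q * N), Gp (ini π t) ∧ E (ini π t)]
    fun π ⟨t, b1, b2, b3⟩ => by
      by_cases hG : Gp (ini π ⌊(1 + ρ) * (q * N)⌋₊)
      · exact ⟨1, mem_univ _, t, mem_filter.2 ⟨mem_range_succ_iff.2 b1, b2⟩, hD _ _
          (ini_mono π (Nat.le_floor (by linarith only [(abs_le.1 b2).2]))) hG, b3⟩
      · exact ⟨0, mem_univ _, hG⟩
  rw [Fin.sum_univ_two] at c6
  rw [prob, show Nat.card (Ord n d) = cnt fun _ : Ord n d => True by simp [cnt], div_le_iff₀ c8,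
    show Set.ncard _ = cnt fun π : Ord n d => ∃ t ≤ N, |(t : ℝ) - q * N| ≤ ρ * (q * N) ∧
      E (ini π t) by rw [cnt, ← Set.ncard_coe_finset]; congr 1; ext π; simp only [Set.mem_ofPred_eq, hN, coe_filter, mem_univ, true_and]]
  refine (Nat.cast_le.2 c6).trans ?_
  push_cast
  calc _ ≤ (η + η) * (cnt fun _ : Ord n d => True) + (η + η + η) * (cnt fun _ : Ord n d => True) :=
        add_le_add (c1.trans (by gcongr)) (c4.trans (by gcongr))
    _ = _ := by ring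

end Pool.Agent.MP_8f9e6e_pr.J

end

section

/-! The single step jump. -/

open Finset Filter

namespace Pool.Agent.MP_8f9e6e_pr.J

variable {d : ℕ}

theorem fin_cd {α : Type} [Fintype α] {P R : α → Prop} (h : ∀ x, P x → R x) :
    (cd P : ℝ) ≤ cd R :=
  Nat.cast_le.2 (card_le_card fun x hx => by simpa only [mem_filter, mem_univ, true_and] using h x (by simpa only [mem_filter, mem_univ, true_and] using hx))

theorem fin_or {α : Type} [Fintype α] [DecidableEq α] {p : ℝ} (h0 : 0 ≤ p) (h1 : p ≤ 1)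
    (E F : Finset α → Prop) : Pr p (fun S => ¬ (E S ∧ F S)) ≤
      Pr p (fun S => ¬ E S) + Pr p (fun S => ¬ F S) := by
  rw [← Pr_or_and]
  exact (Pr_mono h0 h1 fun S hS => not_and_or.1 hS).trans
    (le_add_of_nonneg_right (Pr_nonneg h0 h1 _))

theorem fin_rd {n : ℕ} {S T : Finset (Face n d)} (h : S ⊆ T) (r : ℕ) (x : Fc n)
    (hx : Rd d (st S) r x) : Rd d (st T) r x :=
  Rd.up (fun _ hf => inS_mono h hf) hx

theorem fin_iso {n : ℕ} [NeZero n] {S T : Finset (Face n d)} (h : S ⊆ T) {r k t : ℕ} {c : ℝ}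
    (hT : Iso d r k t c (st T)) : Iso d r k t c (st S) := fun a b =>
  (fin_cd fun _ ⟨a1, f, a2, u, a3, o, a4, a5⟩ =>
    ⟨a1, f, a2, u, a3, o, a4, fun y hy => fin_rd h r y (a5 y hy)⟩).trans (hT a b)

theorem fin_frac {n : ℕ} (π : Ord n d) (t : ℕ) :
    frac π t = cd (Contr d (st (ini π t))) / (n.choose (d + 1) : ℝ) := by
  rw [frac_eq, first_eq]
  congr 2
  refine le_antisymm (br_ge fun x hx => (mem_fac.1 hx).2) (br_le fun x hx =>
    mem_fac.2 ⟨⟨subset_univ _, ?_⟩, hx⟩)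
  cases hx with
  | base _ h => exact h.1
  | step _ _ h _ => exact h

theorem fin_prob {n : ℕ} {E F G : Set (Ord n d)} (h : E ⊆ F ∪ G) : prob E ≤ prob F + prob G := by
  unfold prob
  rw [← add_div]
  gcongr
  exact_mod_cast (Set.ncard_le_ncard h).trans (Set.ncard_union_le F G)

theorem fin_q {a b x γ m : ℝ} (a0 : 0 ≤ a) (b0 : 0 ≤ b) (m0 : 0 ≤ m) (h : a + b ≤ x * m)
    (x1 : x ≤ γ) (g1 : γ ≤ 1) (h1 : m ≤ γ - x) (h2 : m ≤ 1 / 2) (x0 : 0 ≤ x) :
    1 / ((1 - a) * (1 - b)) - 1 ≤ γ * m := by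
  have e1 : x * m ≤ 1 / 2 := (mul_le_of_le_one_left m0 (x1.trans g1)).trans h2
  have e2 : 1 - x * m ≤ (1 - a) * (1 - b) := by linarith only [mul_nonneg a0 b0, h]
  have e3 : γ * x ≤ 1 := mul_le_one₀ g1 x0 (x1.trans g1)
  rw [sub_le_iff_le_add, div_le_iff₀ (by linarith only [e1, e2])]
  refine le_trans ?_ (mul_le_mul_of_nonneg_left e2 (by nlinarith only [a0, b0, m0, h, x1]))
  linarith only [mul_le_mul_of_nonneg_left h1 m0, mul_le_mul_of_nonneg_right e3 (mul_nonneg m0 m0)]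

theorem no_stall (hd : 2 ≤ d) (C : ℝ) {η : ℝ} (hη : 0 < η) : ∃ ρ : ℝ, 0 < ρ ∧
    ∀ᶠ n : ℕ in atTop, prob {π : Ord n d | ∃ t ≤ n.choose (d + 1),
      |(t : ℝ) - gc d * mm n d * n.choose (d + 1)| ≤ ρ * (gc d * mm n d * n.choose (d + 1)) ∧
      3 * mm n d < frac π t ∧ frac π t ≤ C * Real.log n * mm n d} ≤ η := by
  have d2 : (2 : ℝ) ≤ d := by exact_mod_cast hd
  obtain ⟨e, e0, rfl⟩ : ∃ e : ℝ, 0 < e ∧ η = 5 * (4 * e) := ⟨η / 20, by positivity, by ring⟩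
  have g0 : 0 < gc d := Real.rpow_pos_of_pos (by positivity) _
  have hOm : 1 ≤ 2 * Cb d * (d + 1) := Nat.one_le_iff_ne_zero.2 (by unfold Cb; positivity)
  obtain ⟨c3, a1, a2, a3⟩ := isoA hd (k := 2 * Cb d * (d + 1)) (t := 2 * Cb d * (d + 1))
    (.inl le_rfl)
  obtain ⟨c4, b1, -, b3⟩ := isoA hd (k := d + 1) (t := 2 * (d + 1)) (.inr ⟨by omega, by omega⟩)
  obtain ⟨Cs, k0, s1, s2, s3⟩ := gf_exists hd hOm a1 a2
  obtain ⟨kc, t1, t2, t3⟩ : ∃ kc : ℝ, 0 < kc ∧ kc ≤ k0 ∧ 8 * (Cs * kc) ≤ c4 / (8 * d * (d + 1)) :=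
    ⟨min k0 (c4 / (8 * d * (d + 1)) / (8 * Cs)), lt_min s2 (by positivity), min_le_left _ _, by
      have := (le_div_iff₀ (by positivity)).1 (min_le_right k0 (c4 / (8 * d * (d + 1)) / (8 * Cs)))
      linarith only [this]⟩
  obtain ⟨k, u1, u2, u3⟩ : ∃ k : ℝ, 0 < k ∧ k ≤ 1 / 2 ∧
      2 * k * ((d + 1 : ℝ) ^ (d + 1)) ^ 2 * 2 ^ (d + 1) ≤ kc :=
    ⟨min (1 / 2) (kc / (2 * ((d + 1 : ℝ) ^ (d + 1)) ^ 2 * 2 ^ (d + 1))),
      lt_min (by norm_num) (by positivity), min_le_left _ _, by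
      have := (le_div_iff₀ (by positivity)).1
        (min_le_right (1 / 2) (kc / (2 * ((d + 1 : ℝ) ^ (d + 1)) ^ 2 * 2 ^ (d + 1))))
      linarith only [this]⟩
  obtain ⟨b0, hb⟩ := inst6 hd (3 * d + 4 + 1)
  obtain ⟨l, hl⟩ : ∃ l : ℝ, 32 * (2 * b0 + 4) ≤ l * (e * k * (gc d / 2) ^ (d - 1)) :=
    ⟨_, (div_mul_cancel₀ _ (by positivity)).ge⟩
  obtain ⟨ρ1, r1, r, sm, hH⟩ := heavyA hd l
  obtain ⟨r', hr⟩ := s3 kc t1 t2
  obtain ⟨W, hW, w1, w2⟩ := hr (max r r') (le_max_right _ _)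
  replace hH := hH (max r r') (le_max_left _ _)
  generalize max r r' = r0 at *
  obtain ⟨ρ2, r2, a4⟩ := a3 r0
  obtain ⟨ρ3, r3, b4⟩ := b3 r0
  obtain ⟨ρ4, r4, z4⟩ := sizeA hd r0
  have w3 := hW.hγ.2
  obtain ⟨ρ, q0, q1, q2, q3, q4, q5, q6⟩ : ∃ ρ : ℝ, 0 < ρ ∧ ρ ≤ 1 / 10 ∧ 2 * ρ ≤ ρ1 ∧ 2 * ρ ≤ ρ2 ∧
      2 * ρ ≤ ρ3 ∧ 2 * ρ ≤ ρ4 ∧ 6 * ρ ≤ W.γ - gc d := by
    have := sub_pos.2 w1
    refine ⟨min (1 / 10) (min (min (ρ1 / 2) (ρ2 / 2)) (min (min (ρ3 / 2) (ρ4 / 2))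
      ((W.γ - gc d) / 6))), by positivity, min_le_left _ _, ?_⟩
    simp only [← le_div_iff₀' (show (0 : ℝ) < 2 by norm_num),
      ← le_div_iff₀' (show (0 : ℝ) < 6 by norm_num), min_le_iff, le_refl, true_or, or_true, and_self]
  obtain ⟨εD, f0, hL⟩ := layers hd hW le_rfl (3 * d + 4) b0 sm hb (C := C) b1 u1 u2
    (show 0 < ρ / 2 * gc d by positivity) e0 (half_pos g0) u3 (by linarith only [t3, w2]) hl
  have g1 : ρ * gc d ≤ ρ := mul_le_of_le_one_right q0.le (by linarith only [w3, q0, q6])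
  have hm : Tendsto (fun n : ℕ => mm n d) atTop (nhds 0) :=
    (tendsto_rpow_neg_atTop (by positivity)).comp tendsto_natCast_atTop_atTop
  refine ⟨ρ, q0, ?_⟩
  filter_upwards [hL, hH (1 - 2 * ρ) e (by linarith only [q2]) (by linarith only [q0]) e0, a4 e e0, b4 e e0, z4 e e0,
    ev_deg hd r0 f0 e0, trans_ev hd q0 q1 (show 0 < 4 * e by positivity),
    hm.eventually_le_const q0, eventually_ge_atTop (d + 1)]
    with n hL ⟨s, h1, q, h2, h3, _, h5, h6⟩ a4 b4 z4 hD hT m1 hn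
  have : NeZero n := ⟨by omega⟩
  have m0 : 0 < mm n d := Real.rpow_pos_of_pos (Nat.cast_pos.2 (by omega)) _
  have N0 : (0 : ℝ) < n.choose (d + 1) := Nat.cast_pos.2 (Nat.choose_pos hn)
  have x0 : 0 < gc d * mm n d := by positivity
  have x1 : ∀ x : ℝ, x * gc d ≤ 1 → x * (gc d * mm n d) ≤ mm n d := fun x hx => by
    rw [← mul_assoc]
    exact mul_le_of_le_one_left m0.le hx
  have x2 := x1 (1 - 2 * ρ) (by linarith only [mul_pos q0 g0, w3, q0, q6])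
  have x3 := x1 (1 + 2 * ρ) (by linarith only [w3, q0, q6, g1])
  have x4 := x1 (5 * ρ) (by linarith only [q0, q1, g1])
  have y0 : 0 ≤ (1 - 2 * ρ) * (gc d * mm n d) := mul_nonneg (by linarith only [q0, q1]) x0.le
  have y1 : 0 ≤ (1 + 2 * ρ) * (gc d * mm n d) := by positivity
  have x5 : gc d / 2 * mm n d ≤ (1 - 2 * ρ) * (gc d * mm n d) := by
    linarith only [mul_le_mul_of_nonneg_right q1 x0.le, x0]
  refine le_trans ?_ (hT
    (fun S => (cd (fun f : Fc n => f.card = d + 1 ∧ Heavy d r0 s (st S) f) : ℝ) ≤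
      q * n.choose (d + 1) / e ∧ (cd (fun e : Fc n => e.card = d + 1 ∧ (Xh d r0 s (st S) e : ℝ) <
        n * q ^ 2 * ((1 - 2 * ρ) * (gc d * mm n d)) ^ (d - 1) / 4) : ℝ) ≤
        n.choose (d + 1) * √(mm n d))
    (fun S => (cd (Rd d (st S) r0) : ℝ) ≤ 2 * MM n d ∧
      Iso d r0 (2 * Cb d * (d + 1)) (2 * Cb d * (d + 1)) c3 (st S) ∧
      Iso d r0 (d + 1) (2 * (d + 1)) c4 (st S) ∧ Deg d (Rd d (st S) r0) ((n : ℝ) ^ εD))
    (fun S => 3 * MM n d < cd (Contr d (st S)) ∧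
      (cd (Contr d (st S)) : ℝ) ≤ C * Real.log n * MM n d) ?_ ?_ ?_
    fun p2 h7 h8 => hL _ p2 q s x5 (by linarith only [q1, m1, x2]) (by linarith only [h7]) (by linarith only [q1, m1, x0, x3, h8])
      (fin_q (x := (1 + 3 * ρ) * gc d) y0 (le_trans (by positivity) h7) m0.le
        (by linarith only [h8]) (by linarith only [q0, q6, g1]) w3 (by linarith only [q0, q6, g1, m1]) (by linarith only [q0, q1, m1]) (by positivity))
      (mem_Icc.1 h1).1 (mem_Icc.1 h1).2 h2 h3)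
  · refine le_trans (fin_prob (G := ∅) ?_) (add_le_of_nonpos_right (by simp only [prob, Set.ncard_empty, CharP.cast_eq_zero, Nat.card_eq_fintype_card, zero_div, Std.le_refl]))
    rintro π ⟨t, i1, i2, i3, i4⟩
    rw [fin_frac] at i3 i4
    rw [lt_div_iff₀ N0] at i3
    rw [div_le_iff₀ N0] at i4
    exact .inl ⟨t, i1, i2, by unfold MM; linarith only [i3], by unfold MM; linarith only [i4]⟩
  · exact fun S T h ⟨i1, i2, i3, i4⟩ => ⟨(fin_cd (fin_rd h r0)).trans i1, fin_iso h i2,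
      fin_iso h i3, fun g hg => (fin_cd fun _ ⟨j1, o, j2, j3⟩ =>
        ⟨j1, o, j2, fun y hy => fin_rd h r0 y (j3 y hy)⟩).trans (i4 g hg)⟩
  · refine (fin_or y0 (by linarith only [q0, q1, m1, x2]) _ _).trans ?_
    simp only [not_le]
    linarith only [e0, h5, h6]
  · have o1 : (1 + 2 * ρ) * (gc d * mm n d) ≤ 1 := by linarith only [q0, q1, m1, x3]
    have o2 := z4 _ y1 (by gcongr)
    have o3 := a4 _ y1 (by gcongr)
    have o4 := b4 _ y1 (by gcongr)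
    have o5 := hD _ y1 x3
    refine (fin_or y1 o1 _ _).trans ((add_le_add le_rfl ((fin_or y1 o1 _ _).trans
      (add_le_add le_rfl (fin_or y1 o1 _ _)))).trans ?_)
    simp only [not_le]
    linarith only [o2, o3, o4, o5]

theorem jump_full (d : ℕ) (hd : 2 ≤ d) : ∃ C : ℝ, ∃ ε : ℕ → ℝ,
    Filter.Tendsto ε Filter.atTop (nhds 0) ∧
    Filter.Tendsto (fun n : ℕ => prob {π : Ord n d | ∃ τ < n.choose (d + 1),
      |(τ : ℝ) - ((d + 1) ^ (d + 1) / d ^ d * n : ℝ) ^ (-(1 / d : ℝ)) * n.choose (d + 1)| ≤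
        ε n * (((d + 1) ^ (d + 1) / d ^ d * n : ℝ) ^ (-(1 / d : ℝ)) * n.choose (d + 1)) ∧
      frac π τ ≤ C * (n : ℝ) ^ (-(1 / d : ℝ)) ∧ frac π (τ + 1) = 1})
      Filter.atTop (nhds 1) := by
  obtain ⟨C, ε, h1, h2⟩ := jump_window d hd
  refine ⟨3, ε, h1, tendsto_order.2 ⟨fun a ha => ?_, fun a ha =>
    Eventually.of_forall fun n => (prob_le_one _).trans_lt ha⟩⟩
  obtain ⟨ρ, r0, hρ⟩ := no_stall hd C (η := (1 - a) / 2) (by linarith only [ha])
  filter_upwards [hρ, h1.eventually_le_const r0,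
    h2.eventually_const_lt (show (1 + a) / 2 < 1 by linarith only [ha])] with n k1 k2 k3
  have e : ((d + 1) ^ (d + 1) / d ^ d * n : ℝ) ^ (-(1 / d : ℝ)) = gc d * mm n d :=
    Real.mul_rpow (by positivity) (by positivity)
  have x0 : 0 ≤ gc d * mm n d := by rw [← e]; positivity
  rw [e] at k3 ⊢
  refine lt_of_add_lt_add_right (lt_of_le_of_lt (by linarith only []) (k3.trans_le ((fin_prob ?_).trans
    (add_le_add le_rfl k1))))
  rintro π ⟨τ, i1, i2, i3, i4⟩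
  by_cases h : frac π τ ≤ 3 * mm n d
  · exact .inl ⟨τ, i1, i2, h, i4⟩
  · exact .inr ⟨τ, i1.le, i2.trans (by gcongr), not_le.1 h, i3⟩

end Pool.Agent.MP_8f9e6e_pr.J

end
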